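import Pool.Agent.Lib.MP_cd5b91_an.CQ.Defs

/-!
# CQ-Alg
-/

open MeasureTheory Filter Topology Set
open scoped ContDiff RealInnerProductSpace ENNReal

namespace Pool.CQ

private theorem ext3 {a b : E} (h0 : a 0 = b 0) (h1 : a 1 = b 1) (h2 : a 2 = b 2) : a = b := by
  ext i
  fin_cases i
  · exact h0
  · exact h1
  · exact h2

private theorem inner3 (a b : E) : ⟪a, b⟫ = a 0 * b 0 + a 1 * b 1 + a 2 * b 2 := by
  rw [PiLp.inner_apply, Fin.sum_univ_three]
  simp only [RCLike.inner_apply, conj_trivial]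
  ring

private theorem pd_mul {η ζ : E → ℝ} {x : E} (hη : DifferentiableAt ℝ η x) (hζ : DifferentiableAt ℝ ζ x)
    (i : Fin 3) : pd i (fun y => η y * ζ y) x = ζ x * pd i η x + η x * pd i ζ x := by
  unfold pd
  rw [fderiv_fun_mul hη hζ]
  change η x * (fderiv ℝ ζ x _) + ζ x * (fderiv ℝ η x _) = _
  ring

private theorem diff_coord {φ : E → E} {x : E} (hφ : DifferentiableAt ℝ φ x) (j : Fin 3) :
    DifferentiableAt ℝ (fun y => φ y j) x :=
  (EuclideanSpace.proj (𝕜 := ℝ) j).differentiableAt.comp x hφ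

theorem curl_smul {η : E → ℝ} {φ : E → E} {x : E} (hη : DifferentiableAt ℝ η x)
    (hφ : DifferentiableAt ℝ φ x) :
    curl (fun y => η y • φ y) x = cr (gr η x) (φ x) + η x • curl φ x := by
  have h : ∀ i j : Fin 3, pd i (fun y => (η y • φ y) j) x =
      φ x j * pd i η x + η x * pd i (fun y => φ y j) x := fun i j =>
    pd_mul hη (diff_coord hφ j) i
  refine ext3 ?_ ?_ ?_
  · change pd 1 (fun y => (η y • φ y) 2) x - pd 2 (fun y => (η y • φ y) 1) x =
      (pd 1 η x * φ x 2 - pd 2 η x * φ x 1) + η x * (pd 1 (fun y => φ y 2) x - pd 2 (fun y => φ y 1) x)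
    rw [h, h]; ring
  · change pd 2 (fun y => (η y • φ y) 0) x - pd 0 (fun y => (η y • φ y) 2) x =
      (pd 2 η x * φ x 0 - pd 0 η x * φ x 2) + η x * (pd 2 (fun y => φ y 0) x - pd 0 (fun y => φ y 2) x)
    rw [h, h]; ring
  · change pd 0 (fun y => (η y • φ y) 1) x - pd 1 (fun y => (η y • φ y) 0) x =
      (pd 0 η x * φ x 1 - pd 1 η x * φ x 0) + η x * (pd 0 (fun y => φ y 1) x - pd 1 (fun y => φ y 0) x)
    rw [h, h]; ring

theorem gr_mul {η ζ : E → ℝ} {x : E} (hη : DifferentiableAt ℝ η x) (hζ : DifferentiableAt ℝ ζ x) :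
    gr (fun y => η y * ζ y) x = ζ x • gr η x + η x • gr ζ x := by
  refine ext3 ?_ ?_ ?_
  · exact pd_mul hη hζ 0
  · exact pd_mul hη hζ 1
  · exact pd_mul hη hζ 2

private theorem cr0 (a b : E) : cr a b 0 = a 1 * b 2 - a 2 * b 1 := rfl
private theorem cr1 (a b : E) : cr a b 1 = a 2 * b 0 - a 0 * b 2 := rfl
private theorem cr2 (a b : E) : cr a b 2 = a 0 * b 1 - a 1 * b 0 := rfl

theorem inner_cr (a b c : E) : ⟪cr a b, c⟫ = ⟪a, cr b c⟫ := by
  rw [inner3, inner3, cr0, cr1, cr2, cr0, cr1, cr2]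
  ring

theorem cr_anti (a b : E) : cr a b = -cr b a := by
  refine ext3 ?_ ?_ ?_
  · rw [PiLp.neg_apply, cr0, cr0]; ring
  · rw [PiLp.neg_apply, cr1, cr1]; ring
  · rw [PiLp.neg_apply, cr2, cr2]; ring

theorem cr_cr (a b c : E) : cr (cr a b) c = ⟪a, c⟫ • b - ⟪b, c⟫ • a := by
  rw [inner3, inner3]
  refine ext3 ?_ ?_ ?_
  · rw [PiLp.sub_apply, PiLp.smul_apply, PiLp.smul_apply, smul_eq_mul, smul_eq_mul, cr0, cr1, cr2]; ring
  · rw [PiLp.sub_apply, PiLp.smul_apply, PiLp.smul_apply, smul_eq_mul, smul_eq_mul, cr1, cr0, cr2]; ring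
  · rw [PiLp.sub_apply, PiLp.smul_apply, PiLp.smul_apply, smul_eq_mul, smul_eq_mul, cr2, cr0, cr1]; ring

theorem inner_cr_cr (a b c d : E) : ⟪cr a b, cr c d⟫ = ⟪a, c⟫ * ⟪b, d⟫ - ⟪a, d⟫ * ⟪b, c⟫ := by
  rw [inner3, inner3, inner3, inner3, inner3, cr0, cr1, cr2, cr0, cr1, cr2]
  ring

theorem norm_cr_le (a b : E) : ‖cr a b‖ ≤ ‖a‖ * ‖b‖ := by
  refine (sq_le_sq₀ (norm_nonneg _) (by positivity)).1 ?_
  rw [← real_inner_self_eq_norm_sq, inner_cr_cr, mul_pow, ← real_inner_self_eq_norm_sq,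
    ← real_inner_self_eq_norm_sq, real_inner_comm a b]
  nlinarith [mul_self_nonneg ⟪a, b⟫]

private theorem T0 (x : E) : T x 0 = -x 1 := rfl
private theorem T1 (x : E) : T x 1 = x 0 := rfl
private theorem T2 (x : E) : T x 2 = 0 := rfl

theorem norm_T_sq (x : E) : ‖T x‖ ^ 2 = rr x := by
  rw [← real_inner_self_eq_norm_sq, inner3, T0, T1, T2]
  unfold rr
  ring

theorem norm_th_sq (x : E) : ‖th x‖ ^ 2 = (rr x)⁻¹ := by
  unfold th
  rw [norm_smul, mul_pow, norm_T_sq, Real.norm_eq_abs, sq_abs]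
  rcases eq_or_ne (rr x) 0 with h | h
  · rw [h]; simp
  · field_simp

theorem inner_T_th {x : E} (hx : x ∈ Oax) : ⟪T x, th x⟫ = 1 := by
  have hx' : 0 < rr x := hx
  unfold th
  rw [real_inner_smul_right, real_inner_self_eq_norm_sq, norm_T_sq, inv_mul_cancel₀ hx'.ne']

private theorem cd_coord (i : Fin 3) : ContDiff ℝ ∞ (fun x : E => x i) :=
  (EuclideanSpace.proj (𝕜 := ℝ) i).contDiff

private theorem cd_rr : ContDiff ℝ ∞ rr := ((cd_coord 0).pow 2).add ((cd_coord 1).pow 2)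

theorem isOpen_Oax : IsOpen Oax := isOpen_lt continuous_const cd_rr.continuous

theorem ae_Oax : ∀ᵐ x : E, x ∈ Oax := by
  have h1 : LinearMap.ker (EuclideanSpace.proj (𝕜 := ℝ) (0 : Fin 3) : E →L[ℝ] ℝ).toLinearMap ≠ ⊤ := by
    intro h
    have h2 : EuclideanSpace.single (0 : Fin 3) (1 : ℝ) ∈
        LinearMap.ker (EuclideanSpace.proj (𝕜 := ℝ) (0 : Fin 3) : E →L[ℝ] ℝ).toLinearMap := by
      rw [h]; exact Submodule.mem_top
    rw [LinearMap.mem_ker] at h2
    have h3 : (EuclideanSpace.single (0 : Fin 3) (1 : ℝ) : E) 0 = 0 := h2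
    simp at h3
  have h2 := Measure.addHaar_submodule (volume : Measure E) _ h1
  rw [ae_iff]
  refine measure_mono_null (fun x hx => ?_) h2
  have h3 : ¬ 0 < rr x := hx
  have h4 : x 0 = 0 := by
    unfold rr at h3
    nlinarith [sq_nonneg (x 0), sq_nonneg (x 1), not_lt.1 h3]
  exact h4

private theorem cd_T : ContDiff ℝ ∞ T := by
  rw [contDiff_euclidean]
  intro i
  fin_cases i
  · exact (cd_coord 1).neg
  · exact cd_coord 0
  · exact contDiff_const

theorem contDiffOn_th : ContDiffOn ℝ ∞ th Oax := by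
  unfold th
  exact (cd_rr.contDiffOn.inv fun x hx => (show 0 < rr x from hx).ne').smul cd_T.contDiffOn

private theorem pd_coord (i j : Fin 3) (x : E) : pd i (fun y => y j) x = if j = i then 1 else 0 := by
  unfold pd
  have h : fderiv ℝ (fun y : E => y j) x = EuclideanSpace.proj (𝕜 := ℝ) j :=
    (EuclideanSpace.proj (𝕜 := ℝ) j).fderiv
  rw [h]
  change (EuclideanSpace.single i (1 : ℝ) : E) j = _
  rw [PiLp.single_apply]

private theorem dcoord (i : Fin 3) (x : E) : DifferentiableAt ℝ (fun x : E => x i) x :=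
  (cd_coord i).contDiffAt.differentiableAt (by simp)

private theorem pd_rr (i : Fin 3) (x : E) :
    pd i rr x = 2 * x 0 * (if (0 : Fin 3) = i then 1 else 0) + 2 * x 1 * (if (1 : Fin 3) = i then 1 else 0) := by
  have h : rr = fun y => y 0 * y 0 + y 1 * y 1 := by
    funext y
    unfold rr
    ring
  have h0 := pd_mul (dcoord 0 x) (dcoord 0 x) i
  have h1 := pd_mul (dcoord 1 x) (dcoord 1 x) i
  rw [pd_coord] at h0 h1
  have h2 : pd i (fun y : E => y 0 * y 0 + y 1 * y 1) x =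
      pd i (fun y : E => y 0 * y 0) x + pd i (fun y : E => y 1 * y 1) x := by
    have hA : DifferentiableAt ℝ (fun y : E => y 0 * y 0) x := (dcoord 0 x).mul (dcoord 0 x)
    have hB : DifferentiableAt ℝ (fun y : E => y 1 * y 1) x := (dcoord 1 x).mul (dcoord 1 x)
    unfold pd
    rw [fderiv_fun_add hA hB]
    rfl
  rw [h, h2, h0, h1]
  ring

private theorem pd_inv (i : Fin 3) {x : E} (hx : x ∈ Oax) :
    pd i (fun y => (rr y)⁻¹) x = -(rr x ^ 2)⁻¹ * pd i rr x := by
  have hx' : rr x ≠ 0 := (show 0 < rr x from hx).ne'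
  have hd : DifferentiableAt ℝ rr x := cd_rr.contDiffAt.differentiableAt (by simp)
  unfold pd
  have h := (hasDerivAt_inv hx').comp_hasFDerivAt x hd.hasFDerivAt
  have h2 : fderiv ℝ (fun y => (rr y)⁻¹) x = -(rr x ^ 2)⁻¹ • fderiv ℝ rr x := h.fderiv
  rw [h2]
  rfl

private theorem pd_neg (i j : Fin 3) (x : E) : pd i (fun y => -y j) x = -(if j = i then 1 else 0) := by
  rw [← pd_coord i j x]
  unfold pd
  rw [fderiv_fun_neg]
  rfl

private theorem pd_zero (i : Fin 3) (x : E) : pd i (fun _ => 0) x = 0 := by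
  unfold pd
  simp

private theorem curl_T (x : E) : curl T x = !₂[0, 0, 2] := by
  refine ext3 ?_ ?_ ?_
  · change pd 1 (fun _ => 0) x - pd 2 (fun y => y 0) x = 0
    rw [pd_zero, pd_coord]
    simp
  · change pd 2 (fun y => -y 1) x - pd 0 (fun _ => 0) x = 0
    rw [pd_zero, pd_neg]
    simp
  · change pd 0 (fun y => y 0) x - pd 1 (fun y => -y 1) x = 2
    rw [pd_coord, pd_neg]
    simp
    norm_num

theorem curl_th {x : E} (hx : x ∈ Oax) : curl th x = 0 := by
  have hx' : rr x ≠ 0 := (show 0 < rr x from hx).ne'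
  have hd : DifferentiableAt ℝ (fun y => (rr y)⁻¹) x :=
    (cd_rr.contDiffAt.differentiableAt (by simp)).inv hx'
  have hT : DifferentiableAt ℝ T x := cd_T.contDiffAt.differentiableAt (by simp)
  have h := curl_smul hd hT
  have h1 : th = fun y => (rr y)⁻¹ • T y := rfl
  rw [h1, h, curl_T]
  have g0 : gr (fun y => (rr y)⁻¹) x 0 = -(rr x ^ 2)⁻¹ * (2 * x 0) := by
    change pd 0 _ x = _
    rw [pd_inv 0 hx, pd_rr]
    simp
  have g1 : gr (fun y => (rr y)⁻¹) x 1 = -(rr x ^ 2)⁻¹ * (2 * x 1) := by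
    change pd 1 _ x = _
    rw [pd_inv 1 hx, pd_rr]
    simp
  have g2 : gr (fun y => (rr y)⁻¹) x 2 = 0 := by
    change pd 2 _ x = _
    rw [pd_inv 2 hx, pd_rr]
    simp
  refine ext3 ?_ ?_ ?_
  · change cr _ _ 0 + (rr x)⁻¹ * 0 = 0
    rw [cr0, g1, g2, T2]
    ring
  · change cr _ _ 1 + (rr x)⁻¹ * 0 = 0
    rw [cr1, g0, g2, T2]
    ring
  · change cr _ _ 2 + (rr x)⁻¹ * 2 = 0
    rw [cr2, g0, g1, T0, T1]
    have h2 : x 0 ^ 2 + x 1 ^ 2 = rr x := rfl
    field_simp
    linear_combination (-2) * h2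

private theorem ev_zero {η : E → ℝ} (hη : STest Oax η) {x : E} (hx : x ∉ Oax) : η =ᶠ[𝓝 x] fun _ => 0 := by
  have h : x ∉ tsupport η := fun h => hx (hη.2.2 h)
  exact notMem_tsupport_iff_eventuallyEq.1 h

theorem test_smul_th {η : E → ℝ} (hη : STest Oax η) : TestIn Oax (fun x => η x • th x) := by
  refine ⟨contDiff_iff_contDiffAt.2 fun x => ?_, hη.2.1.smul_right, ?_⟩
  · by_cases hx : x ∈ Oax
    · exact hη.1.contDiffAt.smul (contDiffOn_th.contDiffAt (isOpen_Oax.mem_nhds hx))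
    · refine (contDiffAt_const (c := (0 : E))).congr_of_eventuallyEq ?_
      filter_upwards [ev_zero hη hx] with y hy
      rw [hy, zero_smul]
  · exact (closure_mono (Function.support_smul_subset_left η th)).trans hη.2.2

theorem curl_smul_th {η : E → ℝ} (hη : STest Oax η) (x : E) :
    curl (fun y => η y • th y) x = cr (gr η x) (th x) := by
  by_cases hx : x ∈ Oax
  · rw [curl_smul (hη.1.contDiffAt.differentiableAt (by simp))
      ((contDiffOn_th.contDiffAt (isOpen_Oax.mem_nhds hx)).differentiableAt (by simp)), curl_th hx,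
      smul_zero, add_zero]
  · have h0 := ev_zero hη hx
    have h1 : ∀ i : Fin 3, pd i η x = 0 := fun i => by
      unfold pd
      rw [h0.fderiv_eq]
      simp
    have h2 : ∀ i j : Fin 3, pd i (fun y => (η y • th y) j) x = 0 := fun i j => by
      unfold pd
      have h3 : (fun y => (η y • th y) j) =ᶠ[𝓝 x] fun _ => (0 : ℝ) := by
        filter_upwards [h0] with y hy
        rw [hy, zero_smul]
        rfl
      rw [h3.fderiv_eq]
      simp
    refine ext3 ?_ ?_ ?_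
    · change pd 1 (fun y => (η y • th y) 2) x - pd 2 (fun y => (η y • th y) 1) x =
        pd 1 η x * th x 2 - pd 2 η x * th x 1
      rw [h2, h2, h1, h1]; ring
    · change pd 2 (fun y => (η y • th y) 0) x - pd 0 (fun y => (η y • th y) 2) x =
        pd 2 η x * th x 0 - pd 0 η x * th x 2
      rw [h2, h2, h1, h1]; ring
    · change pd 0 (fun y => (η y • th y) 1) x - pd 1 (fun y => (η y • th y) 0) x =
        pd 0 η x * th x 1 - pd 1 η x * th x 0
      rw [h2, h2, h1, h1]; ring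

theorem rr_pos_bounds {K : Set E} (hK : IsCompact K) (hKO : K ⊆ Oax) :
    ∃ m M : ℝ, 0 < m ∧ ∀ x ∈ K, m ≤ rr x ∧ rr x ≤ M := by
  rcases K.eq_empty_or_nonempty with h | h
  · refine ⟨1, 1, one_pos, fun x hx => ?_⟩
    rw [h] at hx
    exact absurd hx (Set.notMem_empty x)
  · obtain ⟨a, ha, ha'⟩ := hK.exists_isMinOn h cd_rr.continuous.continuousOn
    obtain ⟨b, hb, hb'⟩ := hK.exists_isMaxOn h cd_rr.continuous.continuousOn
    exact ⟨rr a, rr b, hKO ha, fun x hx => ⟨ha' hx, hb' hx⟩⟩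

end Pool.CQ
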