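import Pool.Agent.Lib.MP_cd5b91_an.CQ.Defs
import Pool.Agent.Lib.MP_28fba0_gt.UV.MollA

/-!
# CQ-CurlMoll
-/

open MeasureTheory Filter Topology Set
open scoped ContDiff RealInnerProductSpace ENNReal

namespace Pool.CQ

private noncomputable def rho (n : ℕ) : E → ℝ := (Pool.UVF.bump 3 n).normed volume

private theorem rho_smooth (n : ℕ) : ContDiff ℝ ∞ (rho n) := (Pool.UVF.bump 3 n).contDiff_normed

private theorem rho_compact (n : ℕ) : HasCompactSupport (rho n) :=
  (Pool.UVF.bump 3 n).hasCompactSupport_normed

private theorem mol_eq' (f : E → ℝ) (n : ℕ) (x : E) :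
    mol n f x = ∫ y, rho n (x - y) * f y := Pool.UVF.moll_eq f n x

private theorem pd_mol' {f : E → ℝ} (hf : LocallyIntegrable f volume) (n : ℕ) (i : Fin 3) (x : E) :
    pd i (mol n f) x = ∫ y, pd i (rho n) (x - y) * f y := Pool.UVF.pd_moll hf n i x

private theorem coord_loc {A : E → E} (hA : LocallyIntegrable A volume) (i : Fin 3) :
    LocallyIntegrable (fun y => A y i) volume := by
  intro x
  obtain ⟨s, hs, hi⟩ := hA x
  exact ⟨s, hs, (EuclideanSpace.proj i : E →L[ℝ] ℝ).integrable_comp hi⟩

private noncomputable def et (n : ℕ) (x y : E) : ℝ := rho n (x - y)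

private theorem et_smooth (n : ℕ) (x : E) : ContDiff ℝ ∞ (et n x) :=
  (rho_smooth n).comp (contDiff_const.sub contDiff_id)

private theorem et_compact (n : ℕ) (x : E) : HasCompactSupport (et n x) :=
  (rho_compact n).comp_homeomorph (Homeomorph.subLeft x)

private theorem pd_et (n : ℕ) (x : E) (i : Fin 3) (y : E) :
    pd i (et n x) y = -(pd i (rho n) (x - y)) := by
  have hd : HasFDerivAt (rho n) (fderiv ℝ (rho n) (x - y)) (x - y) :=
    ((rho_smooth n).differentiable (by simp)).differentiableAt.hasFDerivAt
  have h1 : HasFDerivAt (fun z : E => x - z) (-(ContinuousLinearMap.id ℝ E)) y :=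
    (hasFDerivAt_id y).const_sub x
  have h2 : HasFDerivAt (et n x)
      ((fderiv ℝ (rho n) (x - y)).comp (-(ContinuousLinearMap.id ℝ E))) y :=
    HasFDerivAt.comp y hd h1
  unfold pd
  rw [h2.fderiv]
  simp

private theorem test_et (n : ℕ) (x : E) (k : Fin 3) :
    TestIn univ (fun y => et n x y • (EuclideanSpace.single k (1 : ℝ) : E)) := by
  refine ⟨(et_smooth n x).smul contDiff_const, ?_, subset_univ _⟩
  exact (et_compact n x).smul_right

private theorem pd_comp (n : ℕ) (x : E) (k i j : Fin 3) (y : E) :
    pd i (fun z => (et n x z • (EuclideanSpace.single k (1 : ℝ) : E)) j) y =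
      if j = k then pd i (et n x) y else 0 := by
  split_ifs with h
  · subst h
    congr 1
    funext z
    simp
  · have : (fun z => (et n x z • (EuclideanSpace.single k (1 : ℝ) : E)) j) = fun _ => (0 : ℝ) := by
      funext z
      simp [h]
    rw [this]
    simp [pd]

private theorem int_a {f : E → ℝ} (hf : LocallyIntegrable f volume) (n : ℕ) (x : E) (i : Fin 3) :
    Integrable (fun y => pd i (rho n) (x - y) * f y) volume := by
  have hc : Continuous (fun y => pd i (rho n) (x - y)) := by
    have h0 : Continuous (fderiv ℝ (rho n)) := (rho_smooth n).continuous_fderiv (by simp)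
    exact (h0.comp (continuous_const.sub continuous_id)).clm_apply continuous_const
  have hs : HasCompactSupport (fun y => pd i (rho n) (x - y)) := by
    have h0 : HasCompactSupport (pd i (rho n)) := (rho_compact n).fderiv_apply ℝ _
    exact h0.comp_homeomorph (Homeomorph.subLeft x)
  have := hf.integrable_smul_left_of_hasCompactSupport hc hs
  simpa [smul_eq_mul] using this

theorem contDiff_mol {f : E → ℝ} (hf : LocallyIntegrable f volume) (n : ℕ) :
    ContDiff ℝ ∞ (mol n f) := Pool.UVF.contDiff_moll hf n

theorem contDiff_vmol {A : E → E} (hA : LocallyIntegrable A volume) (n : ℕ) :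
    ContDiff ℝ ∞ (vmol n A) := by
  rw [contDiff_euclidean]
  intro i
  fin_cases i
  · exact contDiff_mol (coord_loc hA 0) n
  · exact contDiff_mol (coord_loc hA 1) n
  · exact contDiff_mol (coord_loc hA 2) n

private theorem inner3 (a b : E) : ⟪a, b⟫ = a 0 * b 0 + a 1 * b 1 + a 2 * b 2 := by
  simp [PiLp.inner_apply, Fin.sum_univ_three]
  ring

private theorem inner_single (a : E) (c : ℝ) (k : Fin 3) :
    ⟪a, c • (EuclideanSpace.single k (1 : ℝ) : E)⟫ = c * a k := by
  rw [inner_smul_right, EuclideanSpace.inner_single_right]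
  simp

theorem curl_vmol {A C : E → E} (hA : LocallyIntegrable A volume) (hC : LocallyIntegrable C volume)
    (h : WC univ A C) (n : ℕ) (x : E) : curl (vmol n A) x = vmol n C x := by
  have hint : ∀ i j : Fin 3, Integrable (fun y => pd i (rho n) (x - y) * A y j) volume :=
    fun i j => int_a (coord_loc hA j) n x i
  have key : ∀ k : Fin 3, ∫ y, ⟪A y, curl (fun z => et n x z • (EuclideanSpace.single k (1 : ℝ) : E)) y⟫
      = mol n (fun y => C y k) x := by
    intro k
    rw [h _ (test_et n x k), mol_eq']
    refine integral_congr_ae (Eventually.of_forall fun y => ?_)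
    simp only [inner_single]
    rfl
  have e0 : ∀ y, curl (fun z => et n x z • (EuclideanSpace.single (0 : Fin 3) (1 : ℝ) : E)) y =
      !₂[0, -pd 2 (rho n) (x - y), pd 1 (rho n) (x - y)] := by
    intro y
    unfold curl
    simp only [pd_comp, pd_et]
    simp
  have e1 : ∀ y, curl (fun z => et n x z • (EuclideanSpace.single (1 : Fin 3) (1 : ℝ) : E)) y =
      !₂[pd 2 (rho n) (x - y), 0, -pd 0 (rho n) (x - y)] := by
    intro y
    unfold curl
    simp only [pd_comp, pd_et]
    simp
  have e2 : ∀ y, curl (fun z => et n x z • (EuclideanSpace.single (2 : Fin 3) (1 : ℝ) : E)) y =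
      !₂[-pd 1 (rho n) (x - y), pd 0 (rho n) (x - y), 0] := by
    intro y
    unfold curl
    simp only [pd_comp, pd_et]
    simp
  have k0 := key 0
  have k1 := key 1
  have k2 := key 2
  simp only [e0] at k0
  simp only [e1] at k1
  simp only [e2] at k2
  have f0 : pd 1 (mol n fun y => A y 2) x - pd 2 (mol n fun y => A y 1) x
      = mol n (fun y => C y 0) x := by
    rw [← k0, pd_mol' (coord_loc hA 2), pd_mol' (coord_loc hA 1), ← integral_sub (hint 1 2) (hint 2 1)]
    refine integral_congr_ae (Eventually.of_forall fun y => ?_)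
    simp only [inner3]
    simp
    ring
  have f1 : pd 2 (mol n fun y => A y 0) x - pd 0 (mol n fun y => A y 2) x
      = mol n (fun y => C y 1) x := by
    rw [← k1, pd_mol' (coord_loc hA 0), pd_mol' (coord_loc hA 2), ← integral_sub (hint 2 0) (hint 0 2)]
    refine integral_congr_ae (Eventually.of_forall fun y => ?_)
    simp only [inner3]
    simp
    ring
  have f2 : pd 0 (mol n fun y => A y 1) x - pd 1 (mol n fun y => A y 0) x
      = mol n (fun y => C y 2) x := by
    rw [← k2, pd_mol' (coord_loc hA 1), pd_mol' (coord_loc hA 0), ← integral_sub (hint 0 1) (hint 1 0)]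
    refine integral_congr_ae (Eventually.of_forall fun y => ?_)
    simp only [inner3]
    simp
    ring
  have hv : ∀ j : Fin 3, (fun y => vmol n A y j) = mol n (fun y => A y j) := by
    intro j
    funext y
    fin_cases j <;> rfl
  unfold curl
  rw [hv 0, hv 1, hv 2, f0, f1, f2]
  rfl

theorem gr_mol {ψ : E → ℝ} {G : E → E} (hψ : LocallyIntegrable ψ volume)
    (hG : LocallyIntegrable G volume) (h : WGrad univ ψ G) (n : ℕ) (x : E) :
    gr (mol n ψ) x = vmol n G x := by
  have key : ∀ i : Fin 3, pd i (mol n ψ) x = mol n (fun y => G y i) x := by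
    intro i
    rw [pd_mol' hψ, mol_eq']
    have h1 := h (et n x) ⟨et_smooth n x, et_compact n x, subset_univ _⟩ i
    have h2 : ∫ y, pd i (rho n) (x - y) * ψ y = -∫ y, ψ y * pd i (et n x) y := by
      rw [← integral_neg]
      refine integral_congr_ae (Eventually.of_forall fun y => ?_)
      simp only [pd_et]
      ring
    rw [h2, h1, neg_neg]
    refine integral_congr_ae (Eventually.of_forall fun y => ?_)
    simp only [et]
    ring
  unfold gr vmol
  rw [key 0, key 1, key 2]

theorem mol_nonneg {f : E → ℝ} (hf : ∀ x, 0 ≤ f x) (n : ℕ) (x : E) : 0 ≤ mol n f x :=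
  integral_nonneg fun t => mul_nonneg ((Pool.UVF.bump 3 n).nonneg_normed t) (hf _)

theorem mol_compact {f : E → ℝ} (hf : HasCompactSupport f) (n : ℕ) : HasCompactSupport (mol n f) := by
  have : mol n f = convolution (rho n) f (ContinuousLinearMap.mul ℝ ℝ) volume :=
    Pool.UVF.moll_conv f n
  rw [this]
  exact (rho_compact n).convolution _ hf

theorem mol_eq_zero {f : E → ℝ} {y : E} {δ : ℝ} (n : ℕ) (hn : 1 / ((n : ℝ) + 1) ≤ δ / 2)
    (hf : ∀ᵐ x ∂(volume.restrict (Metric.ball y δ)), f x = 0) {x : E}
    (hx : x ∈ Metric.ball y (δ / 2)) : mol n f x = 0 := by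
  rw [mol_eq']
  refine integral_eq_zero_of_ae ?_
  have h1 : ∀ᵐ z : E, z ∈ Metric.ball y δ → f z = 0 :=
    (ae_restrict_iff' Metric.isOpen_ball.measurableSet).1 hf
  filter_upwards [h1] with z hz
  by_cases hzb : z ∈ Metric.ball y δ
  · simp [hz hzb]
  · have h2 : rho n (x - z) = 0 := by
      have h3 : x - z ∉ Function.support (rho n) := by
        unfold rho
        rw [ContDiffBump.support_normed_eq, Metric.mem_ball, dist_zero_right, not_lt]
        have h4 : (Pool.UVF.bump 3 n).rOut = 1 / ((n : ℝ) + 1) := rfl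
        rw [h4]
        rw [Metric.mem_ball, dist_eq_norm] at hx
        rw [Metric.mem_ball, dist_eq_norm, not_lt] at hzb
        have h5 : ‖z - y‖ ≤ ‖x - z‖ + ‖x - y‖ := by
          have h6 : z - y = -(x - z) + (x - y) := by abel
          rw [h6]
          exact (norm_add_le _ _).trans (by rw [norm_neg])
        linarith
      exact Function.notMem_support.1 h3
    simp [h2]

end Pool.CQ
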