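import Pool.Agent.Lib.MP_cd5b91_an.CQ.LpMoll

/-!
# CQ-VMoll
-/

open MeasureTheory Filter Topology Set
open scoped ContDiff RealInnerProductSpace ENNReal

namespace Pool.CQ

private theorem VMoll_comp {p : ℝ≥0∞} {u : E → E} (hu : MemLp u p volume) (i : Fin 3) :
    MemLp (fun y => u y i) p volume := by
  refine hu.mono ?_ (Eventually.of_forall fun x => PiLp.norm_apply_le (u x) i)
  exact (by fun_prop : Continuous fun v : E => v i).comp_aestronglyMeasurable hu.1

private theorem VMoll_norm_le (v : E) : ‖v‖ ≤ |v 0| + |v 1| + |v 2| := by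
  rw [EuclideanSpace.norm_eq, Fin.sum_univ_three]
  refine Real.sqrt_le_iff.2 ⟨by positivity, ?_⟩
  simp only [Real.norm_eq_abs]
  nlinarith [abs_nonneg (v 0), abs_nonneg (v 1), abs_nonneg (v 2), mul_nonneg (abs_nonneg (v 0)) (abs_nonneg (v 1)), mul_nonneg (abs_nonneg (v 0)) (abs_nonneg (v 2)), mul_nonneg (abs_nonneg (v 1)) (abs_nonneg (v 2))]

private theorem VMoll_sum {p : ℝ≥0∞} {F : E → E} (h : ∀ i : Fin 3, MemLp (fun y => F y i) p volume) :
    MemLp F p volume := memLp_piLp_iff.2 h

theorem vmol_memLp {p : ℝ≥0∞} (hp : 1 ≤ p) (hpt : p ≠ ⊤) {u : E → E} (hu : MemLp u p volume) (n : ℕ) :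
    MemLp (vmol n u) p volume := by
  refine VMoll_sum fun i => ?_
  fin_cases i
  · exact mol_memLp hp hpt (VMoll_comp hu 0) n
  · exact mol_memLp hp hpt (VMoll_comp hu 1) n
  · exact mol_memLp hp hpt (VMoll_comp hu 2) n

theorem vmol_tendsto {p : ℝ≥0∞} (hp : 1 ≤ p) (hpt : p ≠ ⊤) {u : E → E} (hu : MemLp u p volume) :
    Tendsto (fun n => eLpNorm (fun x => vmol n u x - u x) p volume) atTop (𝓝 0) := by
  have h : ∀ i : Fin 3, Tendsto (fun n => eLpNorm (fun x => mol n (fun y => u y i) x - u x i) p volume)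
      atTop (𝓝 0) := fun i => mol_tendsto hp hpt (VMoll_comp hu i)
  have hs := ((h 0).add (h 1)).add (h 2)
  simp only [add_zero] at hs
  refine tendsto_of_tendsto_of_tendsto_of_le_of_le tendsto_const_nhds hs (fun n => bot_le) fun n => ?_
  have hm : ∀ i : Fin 3, AEStronglyMeasurable (fun x => |mol n (fun y => u y i) x - u x i|) volume :=
    fun i => ((mol_memLp hp hpt (VMoll_comp hu i) n).1.sub (VMoll_comp hu i).1).norm
  have hn : ∀ i : Fin 3, eLpNorm (fun x => |mol n (fun y => u y i) x - u x i|) p volume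
      = eLpNorm (fun x => mol n (fun y => u y i) x - u x i) p volume := fun i =>
    eLpNorm_norm (fun x => mol n (fun y => u y i) x - u x i)
  calc eLpNorm (fun x => vmol n u x - u x) p volume
      ≤ eLpNorm (fun x => |mol n (fun y => u y 0) x - u x 0| + |mol n (fun y => u y 1) x - u x 1|
          + |mol n (fun y => u y 2) x - u x 2|) p volume := by
        refine eLpNorm_mono fun x => ?_
        rw [Real.norm_of_nonneg (by positivity)]
        exact VMoll_norm_le _
    _ ≤ eLpNorm (fun x => |mol n (fun y => u y 0) x - u x 0| + |mol n (fun y => u y 1) x - u x 1|)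
          p volume + eLpNorm (fun x => |mol n (fun y => u y 2) x - u x 2|) p volume :=
        eLpNorm_add_le ((hm 0).add (hm 1)) (hm 2) hp
    _ ≤ _ := by
        rw [← hn 0, ← hn 1, ← hn 2]
        exact add_le_add_left (eLpNorm_add_le (hm 0) (hm 1) hp) _

end Pool.CQ
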