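import Pool.Agent.Lib.MP_cd5b91_an.CQ.Loc
import Pool.Agent.Lib.MP_cd5b91_an.CQ.VMoll
import Pool.Agent.Lib.MP_cd5b91_an.CQ.CurlMoll

/-!
# CQ-Approx
-/

open MeasureTheory Filter Topology Set
open scoped ContDiff RealInnerProductSpace ENNReal

namespace Pool.CQ

theorem approx {O : Set E} (hO : IsOpen O) {p : ℝ≥0∞} (hp : 1 ≤ p) (hpt : p ≠ ⊤) {ψ : E → ℝ}
    {G : E → E} (hψ : LpL p O ψ) (hG : LpL p O G) (h : WGrad O ψ G) {K : Set E} (hK : IsCompact K)
    (hKO : K ⊆ O) :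
    ∃ f : ℕ → E → ℝ, (∀ n, ContDiff ℝ ∞ (f n)) ∧ (∀ n, HasCompactSupport (f n)) ∧
      ((∀ x, 0 ≤ ψ x) → ∀ n x, 0 ≤ f n x) ∧
      Tendsto (fun n => eLpNorm (fun x => f n x - ψ x) p (volume.restrict K)) atTop (𝓝 0) ∧
      Tendsto (fun n => eLpNorm (fun x => gr (f n) x - G x) p (volume.restrict K)) atTop (𝓝 0) ∧
      (∀ᵐ x ∂(volume.restrict K), Tendsto (fun n => f n x) atTop (𝓝 (ψ x))) ∧
      (∀ᵐ x ∂(volume.restrict K), Tendsto (fun n => gr (f n) x) atTop (𝓝 (G x))) ∧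
      (∀ (y : E) (δ : ℝ), 0 < δ → Metric.ball y δ ⊆ K →
        (∀ᵐ x ∂(volume.restrict (Metric.ball y δ)), ψ x = 0) →
        ∀ᶠ n in atTop, ∀ x ∈ Metric.ball y (δ / 2), f n x = 0) := by
  obtain ⟨ψ', G', V, hψp, hGp, hψ1, hG1, hW, hcs, hVo, hKV, hVO, heq, hnn⟩ := localize hO hp hψ hG h hK hKO
  have hKm := hK.measurableSet
  have hp0 : p ≠ 0 := (lt_of_lt_of_le zero_lt_one hp).ne'
  have hψL := hψ1.locallyIntegrable
  have hGL := hG1.locallyIntegrable
  have hgr : ∀ n x, gr (mol n ψ') x = vmol n G' x := fun n x => gr_mol hψL hGL hW n x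
  have t1 : Tendsto (fun n => eLpNorm (fun x => mol n ψ' x - ψ' x) p (volume.restrict K)) atTop (𝓝 0) :=
    tendsto_of_tendsto_of_tendsto_of_le_of_le tendsto_const_nhds (mol_tendsto hp hpt hψp)
      (fun _ => zero_le) (fun n => eLpNorm_restrict_le _ _ _ _)
  have t2 : Tendsto (fun n => eLpNorm (fun x => vmol n G' x - G' x) p (volume.restrict K)) atTop (𝓝 0) :=
    tendsto_of_tendsto_of_tendsto_of_le_of_le tendsto_const_nhds (vmol_tendsto hp hpt hGp)
      (fun _ => zero_le) (fun n => eLpNorm_restrict_le _ _ _ _)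
  have m1 : TendstoInMeasure (volume.restrict K) (fun n => mol n ψ') atTop ψ' :=
    tendstoInMeasure_of_tendsto_eLpNorm hp0 (fun n => (contDiff_mol hψL n).continuous.aestronglyMeasurable)
      hψp.aestronglyMeasurable.restrict t1
  obtain ⟨n1, hn1, ha1⟩ := m1.exists_seq_tendsto_ae
  have m2 : TendstoInMeasure (volume.restrict K) (fun n => vmol (n1 n) G') atTop G' :=
    tendstoInMeasure_of_tendsto_eLpNorm hp0 (fun n => (contDiff_vmol hGL (n1 n)).continuous.aestronglyMeasurable)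
      hGp.aestronglyMeasurable.restrict (t2.comp hn1.tendsto_atTop)
  obtain ⟨n2, hn2, ha2⟩ := m2.exists_seq_tendsto_ae
  have hn12 : Tendsto (fun n => n1 (n2 n)) atTop atTop := hn1.tendsto_atTop.comp hn2.tendsto_atTop
  refine ⟨fun n => mol (n1 (n2 n)) ψ', fun n => contDiff_mol hψL _, fun n => mol_compact hcs _,
    fun h0 n x => mol_nonneg (hnn h0) _ x, ?_, ?_, ?_, ?_, ?_⟩
  · refine (t1.comp hn12).congr fun n => ?_
    refine eLpNorm_congr_ae ?_
    filter_upwards [ae_restrict_mem hKm] with x hx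
    rw [(heq x (hKV hx)).1]
  · refine (t2.comp hn12).congr fun n => ?_
    refine eLpNorm_congr_ae ?_
    filter_upwards [ae_restrict_mem hKm] with x hx
    rw [hgr, (heq x (hKV hx)).2]
  · filter_upwards [ha1, ae_restrict_mem hKm] with x hx hxK
    rw [← (heq x (hKV hxK)).1]
    exact hx.comp hn2.tendsto_atTop
  · filter_upwards [ha2, ae_restrict_mem hKm] with x hx hxK
    rw [← (heq x (hKV hxK)).2]
    simp only [hgr]
    exact hx
  · intro y δ hδ hball h0
    have hz : ∀ᵐ x ∂(volume.restrict (Metric.ball y δ)), ψ' x = 0 := by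
      filter_upwards [h0, ae_restrict_mem measurableSet_ball] with x hx hxb
      rw [(heq x (hKV (hball hxb))).1, hx]
    have hlim : Tendsto (fun n => 1 / (((n1 (n2 n) : ℕ) : ℝ) + 1)) atTop (𝓝 0) :=
      tendsto_one_div_add_atTop_nhds_zero_nat.comp hn12
    filter_upwards [hlim.eventually (gt_mem_nhds (half_pos hδ))] with n hn x hx
    exact mol_eq_zero _ hn.le hz hx

end Pool.CQ
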