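import Pool.Agent.Lib.MP_cd5b91_an.CQ.Alg

/-!
# CQ-Axis: the axis is removable
-/

open MeasureTheory Filter Topology Set
open scoped ContDiff RealInnerProductSpace ENNReal

namespace Pool.CQ

private noncomputable def zt (n : ℕ) (x : E) : ℝ :=
  Real.smoothTransition (((n : ℝ) + 1) ^ 2 * rr x - 1)

private theorem contDiff_rr : ContDiff ℝ ∞ rr := by
  unfold rr
  fun_prop

private theorem contDiff_zt (n : ℕ) : ContDiff ℝ ∞ (zt n) := by
  unfold zt
  exact Real.smoothTransition.contDiff.comp ((contDiff_const.mul contDiff_rr).sub contDiff_const)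

private theorem zt_nonneg (n : ℕ) (x : E) : 0 ≤ zt n x := Real.smoothTransition.nonneg _

private theorem zt_le_one (n : ℕ) (x : E) : zt n x ≤ 1 := Real.smoothTransition.le_one _

private theorem zt_zero {n : ℕ} {x : E} (h : ((n : ℝ) + 1) ^ 2 * rr x ≤ 1) : zt n x = 0 :=
  Real.smoothTransition.zero_of_nonpos (by linarith)

private theorem zt_one {n : ℕ} {x : E} (h : 2 ≤ ((n : ℝ) + 1) ^ 2 * rr x) : zt n x = 1 :=
  Real.smoothTransition.one_of_one_le (by linarith)

private theorem deriv_bd : ∃ D : ℝ, 0 ≤ D ∧ ∀ s : ℝ, |deriv Real.smoothTransition s| ≤ D := by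
  have hc : Continuous (deriv Real.smoothTransition) := by
    have := (Real.smoothTransition.contDiff (n := 1))
    exact this.continuous_deriv le_rfl
  obtain ⟨D, hD⟩ := (isCompact_Icc (a := (0 : ℝ)) (b := 1)).exists_bound_of_continuousOn hc.continuousOn
  refine ⟨max D 0, le_max_right _ _, fun s => ?_⟩
  by_cases h0 : s < 0
  · have h1 : Real.smoothTransition =ᶠ[𝓝 s] fun _ => (0 : ℝ) := by
      filter_upwards [isOpen_Iio.mem_nhds h0] with t ht
      exact Real.smoothTransition.zero_of_nonpos (le_of_lt ht)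
    rw [h1.deriv_eq, deriv_const, abs_zero]
    exact le_max_right _ _
  · by_cases h2 : 1 < s
    · have h1 : Real.smoothTransition =ᶠ[𝓝 s] fun _ => (1 : ℝ) := by
        filter_upwards [isOpen_Ioi.mem_nhds h2] with t ht
        exact Real.smoothTransition.one_of_one_le (le_of_lt ht)
      rw [h1.deriv_eq, deriv_const, abs_zero]
      exact le_max_right _ _
    · exact (hD s ⟨not_lt.mp h0, not_lt.mp h2⟩).trans (le_max_left _ _)

private theorem hasFDerivAt_coord (i : Fin 3) (x : E) :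
    HasFDerivAt (fun y : E => y i) (EuclideanSpace.proj i : E →L[ℝ] ℝ) x :=
  (EuclideanSpace.proj i : E →L[ℝ] ℝ).hasFDerivAt

private theorem pd_rr (i : Fin 3) (x : E) :
    pd i rr x = 2 * x 0 * (if i = 0 then 1 else 0) + 2 * x 1 * (if i = 1 then 1 else 0) := by
  have h : HasFDerivAt rr ((2 * x 0) • (EuclideanSpace.proj 0 : E →L[ℝ] ℝ) +
      (2 * x 1) • (EuclideanSpace.proj 1 : E →L[ℝ] ℝ)) x := by
    have h0 := (hasFDerivAt_coord 0 x).pow 2
    have h1 := (hasFDerivAt_coord 1 x).pow 2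
    refine (h0.add h1).congr_fderiv ?_
    ext v
    simp
  unfold pd
  rw [h.fderiv]
  fin_cases i <;> simp

private theorem pd_zt (n : ℕ) (i : Fin 3) (x : E) :
    pd i (zt n) x = deriv Real.smoothTransition (((n : ℝ) + 1) ^ 2 * rr x - 1) *
      (((n : ℝ) + 1) ^ 2 * pd i rr x) := by
  have hr : HasFDerivAt rr (fderiv ℝ rr x) x :=
    ((contDiff_rr.differentiable (by simp)) x).hasFDerivAt
  have h1 : HasFDerivAt (fun y => ((n : ℝ) + 1) ^ 2 * rr y - 1) ((((n : ℝ) + 1) ^ 2) • fderiv ℝ rr x) x :=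
    (hr.const_mul _).sub_const 1
  have h2 : HasDerivAt Real.smoothTransition
      (deriv Real.smoothTransition (((n : ℝ) + 1) ^ 2 * rr x - 1)) (((n : ℝ) + 1) ^ 2 * rr x - 1) :=
    (Real.smoothTransition.contDiff (n := 1)).differentiable (by norm_num) _ |>.hasDerivAt
  have h3 := h2.comp_hasFDerivAt x h1
  unfold pd
  have h4 : HasFDerivAt (zt n) _ x := h3
  rw [h4.fderiv]
  simp

private theorem gr_zt (n : ℕ) (x : E) :
    gr (zt n) x = (deriv Real.smoothTransition (((n : ℝ) + 1) ^ 2 * rr x - 1) *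
      ((n : ℝ) + 1) ^ 2) • gr rr x := by
  unfold gr
  ext i
  fin_cases i <;> simp [pd_zt, mul_assoc]

private theorem norm_gr_rr (x : E) : ‖gr rr x‖ ^ 2 = 4 * rr x := by
  rw [EuclideanSpace.norm_sq_eq, Fin.sum_univ_three]
  simp [gr, pd_rr, rr]
  ring_nf
  rw [sq_abs, sq_abs]

private theorem norm_gr_zt {D : ℝ} (hD : ∀ s : ℝ, |deriv Real.smoothTransition s| ≤ D) (hD0 : 0 ≤ D) (n : ℕ)
    {x : E} (h : ((n : ℝ) + 1) ^ 2 * rr x ≤ 2) : ‖gr (zt n) x‖ ≤ 3 * D * ((n : ℝ) + 1) := by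
  have hn : (0 : ℝ) < (n : ℝ) + 1 := by positivity
  have h1 : (‖gr rr x‖ * ((n : ℝ) + 1)) ^ 2 ≤ 3 ^ 2 := by
    rw [mul_pow, norm_gr_rr]
    nlinarith
  have h2 : ‖gr rr x‖ * ((n : ℝ) + 1) ≤ 3 := le_of_sq_le_sq h1 (by norm_num)
  rw [gr_zt, norm_smul, Real.norm_eq_abs, abs_mul, abs_of_pos (pow_pos hn 2)]
  calc |deriv Real.smoothTransition (((n : ℝ) + 1) ^ 2 * rr x - 1)| * ((n : ℝ) + 1) ^ 2 * ‖gr rr x‖
      = |deriv Real.smoothTransition (((n : ℝ) + 1) ^ 2 * rr x - 1)| * ((n : ℝ) + 1) *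
        (‖gr rr x‖ * ((n : ℝ) + 1)) := by ring
    _ ≤ D * ((n : ℝ) + 1) * 3 := by
        gcongr
        exact hD _
    _ = 3 * D * ((n : ℝ) + 1) := by ring

private theorem gr_zt_zero (n : ℕ) {x : E} (h : 2 < ((n : ℝ) + 1) ^ 2 * rr x) : gr (zt n) x = 0 := by
  have h1 : deriv Real.smoothTransition (((n : ℝ) + 1) ^ 2 * rr x - 1) = 0 := by
    have h2 : Real.smoothTransition =ᶠ[𝓝 (((n : ℝ) + 1) ^ 2 * rr x - 1)] fun _ => (1 : ℝ) := by
      filter_upwards [isOpen_Ioi.mem_nhds (show (1 : ℝ) < ((n : ℝ) + 1) ^ 2 * rr x - 1 by linarith)] with t ht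
      exact Real.smoothTransition.one_of_one_le (le_of_lt ht)
    rw [h2.deriv_eq, deriv_const]
  rw [gr_zt, h1, zero_mul, zero_smul]

private theorem test_zt {φ : E → E} (hφ : TestIn univ φ) (n : ℕ) :
    TestIn Oax (fun x => zt n x • φ x) := by
  obtain ⟨h1, h2, -⟩ := hφ
  refine ⟨(contDiff_zt n).smul h1, h2.mono (fun x hx hx' => hx ?_), ?_⟩
  · show zt n x • φ x = 0
    rw [hx', smul_zero]
  have hcl : IsClosed {x : E | 1 ≤ ((n : ℝ) + 1) ^ 2 * rr x} :=
    isClosed_le continuous_const (continuous_const.mul contDiff_rr.continuous)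
  have h3 : tsupport (fun x => zt n x • φ x) ⊆ {x : E | 1 ≤ ((n : ℝ) + 1) ^ 2 * rr x} := by
    refine closure_minimal (fun x hx => ?_) hcl
    rw [Set.mem_ofPred_eq]
    by_contra h
    rw [not_le] at h
    have h5 : zt n x • φ x ≠ 0 := hx
    rw [zt_zero h.le, zero_smul] at h5
    exact h5 rfl
  intro x hx
  have h4 : 1 ≤ ((n : ℝ) + 1) ^ 2 * rr x := h3 hx
  have h7 : (0 : ℝ) < ((n : ℝ) + 1) ^ 2 := by positivity
  have h6 : 0 < ((n : ℝ) + 1) ^ 2 * rr x := by linarith
  exact (mul_pos_iff_of_pos_left h7).mp h6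

private theorem continuous_pd (i : Fin 3) {f : E → ℝ} (hf : ContDiff ℝ ∞ f) : Continuous (pd i f) := by
  unfold pd
  exact (hf.continuous_fderiv (by simp)).clm_apply continuous_const

private theorem contDiff_coord {φ : E → E} (h : ContDiff ℝ ∞ φ) (i : Fin 3) :
    ContDiff ℝ ∞ (fun x => φ x i) := by
  fun_prop

private theorem continuous_curl {φ : E → E} (h : ContDiff ℝ ∞ φ) : Continuous (curl φ) := by
  have h0 := contDiff_coord h 0
  have h1 := contDiff_coord h 1
  have h2 := contDiff_coord h 2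
  have a1 := continuous_pd 1 h2
  have a2 := continuous_pd 2 h1
  have a3 := continuous_pd 2 h0
  have a4 := continuous_pd 0 h2
  have a5 := continuous_pd 0 h1
  have a6 := continuous_pd 1 h0
  unfold curl
  fun_prop

private theorem continuous_gr {f : E → ℝ} (h : ContDiff ℝ ∞ f) : Continuous (gr f) := by
  have a1 := continuous_pd 0 h
  have a2 := continuous_pd 1 h
  have a3 := continuous_pd 2 h
  unfold gr
  fun_prop

private theorem curl_off {φ : E → E} {x : E} (hx : x ∉ tsupport φ) : curl φ x = 0 := by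
  have h : ∀ i : Fin 3, ∀ j : Fin 3, pd j (fun y => φ y i) x = 0 := by
    intro i j
    have h1 : (fun y => φ y i) =ᶠ[𝓝 x] fun _ => (0 : ℝ) := by
      filter_upwards [(isClosed_tsupport φ).isOpen_compl.mem_nhds hx] with y hy
      rw [image_eq_zero_of_notMem_tsupport hy]
      rfl
    unfold pd
    rw [h1.fderiv_eq]
    simp
  unfold curl
  ext i
  fin_cases i <;> simp [h]

private theorem continuous_cr {f g : E → E} (hf : Continuous f) (hg : Continuous g) :
    Continuous (fun x => cr (f x) (g x)) := by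
  unfold cr
  fun_prop

private theorem vol_slab {a R : ℝ} (ha : 0 ≤ a) :
    volume (Metric.closedBall (0 : E) R ∩ {x : E | rr x ≤ a ^ 2}) ≤ ENNReal.ofReal (8 * R * a ^ 2) := by
  have hsub : Metric.closedBall (0 : E) R ∩ {x : E | rr x ≤ a ^ 2} ⊆
      (@WithLp.ofLp 2 (Fin 3 → ℝ)) ⁻¹' (Icc ![-a, -a, -R] ![a, a, R]) := by
    rintro x ⟨h1, h2⟩
    have h3 : x 0 ^ 2 + x 1 ^ 2 ≤ a ^ 2 := h2
    rw [mem_closedBall_zero_iff] at h1
    have h4 : ‖x 2‖ ≤ R := (PiLp.norm_apply_le x 2).trans h1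
    rw [Real.norm_eq_abs, abs_le] at h4
    have h5 : |x 0| ≤ a := abs_le_of_sq_le_sq (by nlinarith [sq_nonneg (x 1)]) ha
    have h6 : |x 1| ≤ a := abs_le_of_sq_le_sq (by nlinarith [sq_nonneg (x 0)]) ha
    rw [abs_le] at h5 h6
    constructor
    · intro i
      fin_cases i
      · exact h5.1
      · exact h6.1
      · exact h4.1
    · intro i
      fin_cases i
      · exact h5.2
      · exact h6.2
      · exact h4.2
  refine (measure_mono hsub).trans ?_
  rw [(PiLp.volume_preserving_ofLp (Fin 3)).measure_preimage measurableSet_Icc.nullMeasurableSet,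
    Real.volume_Icc_pi, Fin.prod_univ_three]
  simp only [Matrix.cons_val_zero, Matrix.cons_val_one, Matrix.cons_val]
  rw [← ENNReal.ofReal_mul (by linarith), ← ENNReal.ofReal_mul (mul_nonneg (by linarith) (by linarith))]
  apply le_of_eq
  congr 1
  ring

private theorem int_inner {K : Set E} {A g : E → E} (hA : IntegrableOn A K)
    (hg : Continuous g) {M : ℝ} (hM : ∀ x, ‖g x‖ ≤ M) (h0 : ∀ x, x ∉ K → g x = 0) :
    Integrable (fun x => ⟪A x, g x⟫) := by
  have h1 : IntegrableOn (fun x => ⟪A x, g x⟫) K := by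
    refine Integrable.mono' (hA.norm.mul_const M) ?_ (Eventually.of_forall fun x => ?_)
    · exact hA.aestronglyMeasurable.inner hg.aestronglyMeasurable
    · exact (norm_inner_le_norm _ _).trans (mul_le_mul_of_nonneg_left (hM x) (norm_nonneg _))
  refine (integrableOn_iff_integrable_of_support_subset ?_).mp h1
  intro x hx
  by_contra h
  apply hx
  show ⟪A x, g x⟫ = 0
  rw [h0 x h, inner_zero_right]

private theorem zt_ev {x : E} (hx : x ∈ Oax) (c : ℝ) :
    ∀ᶠ n : ℕ in atTop, c < ((n : ℝ) + 1) ^ 2 * rr x := by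
  have h0 : 0 < rr x := hx
  have h1 : Tendsto (fun n : ℕ => ((n : ℝ) + 1) ^ 2 * rr x) atTop atTop := by
    refine Tendsto.atTop_mul_const h0 ?_
    exact (tendsto_pow_atTop (by norm_num)).comp (tendsto_atTop_add_const_right _ _ tendsto_natCast_atTop_atTop)
  exact h1.eventually_gt_atTop c

private theorem lim_zt {f : E → ℝ} (hf : Integrable f) :
    Tendsto (fun n : ℕ => ∫ x, zt n x * f x) atTop (𝓝 (∫ x, f x)) := by
  refine tendsto_integral_of_dominated_convergence (fun x => ‖f x‖) (fun n => ?_) hf.norm (fun n => ?_) ?_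
  · exact (contDiff_zt n).continuous.aestronglyMeasurable.mul hf.aestronglyMeasurable
  · refine Eventually.of_forall fun x => ?_
    rw [norm_mul, Real.norm_of_nonneg (zt_nonneg n x)]
    exact mul_le_of_le_one_left (norm_nonneg _) (zt_le_one n x)
  · filter_upwards [ae_Oax] with x hx
    refine tendsto_const_nhds.congr' ?_
    filter_upwards [zt_ev hx 2] with n hn
    rw [zt_one hn.le, one_mul]

private theorem lim_S {A : E → E} {R : ℝ} (hA : IntegrableOn (fun x => ‖A x‖ ^ 2) (Metric.closedBall (0 : E) R)) :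
    Tendsto (fun n : ℕ => ∫ x in Metric.closedBall (0 : E) R ∩ {x : E | rr x ≤ (2 / ((n : ℝ) + 1)) ^ 2}, ‖A x‖ ^ 2)
      atTop (𝓝 0) := by
  have hm : ∀ n : ℕ, MeasurableSet (Metric.closedBall (0 : E) R ∩ {x : E | rr x ≤ (2 / ((n : ℝ) + 1)) ^ 2}) :=
    fun n => measurableSet_closedBall.inter
      (isClosed_le contDiff_rr.continuous continuous_const).measurableSet
  have h0 : (0 : ℝ) = ∫ _ : E, (0 : ℝ) := by simp
  rw [h0]
  simp_rw [← integral_indicator (hm _)]
  refine tendsto_integral_of_dominated_convergence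
    ((Metric.closedBall (0 : E) R).indicator fun x => ‖A x‖ ^ 2) (fun n => ?_)
    (hA.integrable_indicator measurableSet_closedBall) (fun n => ?_) ?_
  · exact ((hA.mono_set inter_subset_left).integrable_indicator (hm n)).aestronglyMeasurable
  · refine Eventually.of_forall fun x => ?_
    rw [Real.norm_of_nonneg (indicator_nonneg (fun _ _ => by positivity) _)]
    exact indicator_le_indicator_of_subset inter_subset_left (fun _ => by positivity) x
  · filter_upwards [ae_Oax] with x hx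
    refine tendsto_const_nhds.congr' ?_
    filter_upwards [zt_ev hx 4] with n hn
    rw [indicator_of_notMem]
    rintro ⟨-, h⟩
    have h1 : rr x ≤ (2 / ((n : ℝ) + 1)) ^ 2 := h
    rw [div_pow, le_div_iff₀ (by positivity)] at h1
    linarith

theorem wc_axis {A C : E → E} (hA : LpL 2 univ A) (hC : LpL 1 univ C) (h : WC Oax A C) :
    WC univ A C := by
  intro φ hφ
  obtain ⟨hs, hc, -⟩ := hφ
  obtain ⟨R, hR0, hR⟩ : ∃ R : ℝ, 0 ≤ R ∧ tsupport φ ⊆ Metric.closedBall 0 R := by
    obtain ⟨R, hR⟩ := hc.isCompact.isBounded.subset_closedBall (0 : E)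
    exact ⟨max R 0, le_max_right _ _, hR.trans (Metric.closedBall_subset_closedBall (le_max_left _ _))⟩
  set K : Set E := Metric.closedBall 0 R with hK
  have hKc : IsCompact K := isCompact_closedBall 0 R
  have hA2 : MemLp A 2 (volume.restrict K) := hA K hKc (subset_univ _)
  have hfin : IsFiniteMeasure (volume.restrict K) := ⟨by rw [Measure.restrict_apply_univ]; exact hKc.measure_lt_top⟩
  have hA1 : IntegrableOn A K := hA2.integrable one_le_two
  have hAsq : IntegrableOn (fun x => ‖A x‖ ^ 2) K := hA2.integrable_norm_pow two_ne_zero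
  have hC1 : IntegrableOn C K := (hC K hKc (subset_univ _)).integrable le_rfl
  have hφ0 : ∀ x, x ∉ K → φ x = 0 := fun x hx => image_eq_zero_of_notMem_tsupport fun h1 => hx (hR h1)
  have hcφ0 : ∀ x, x ∉ K → curl φ x = 0 := fun x hx => curl_off fun h1 => hx (hR h1)
  have hφc : Continuous φ := hs.continuous
  have hcc : Continuous (curl φ) := continuous_curl hs
  obtain ⟨M, hM⟩ : ∃ M, ∀ x, ‖φ x‖ ≤ M := hφc.bounded_above_of_compact_support hc
  have hM0 : 0 ≤ M := (norm_nonneg _).trans (hM 0)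
  obtain ⟨M', hM'⟩ : ∃ M', ∀ x, ‖curl φ x‖ ≤ M' :=
    hcc.bounded_above_of_compact_support (HasCompactSupport.intro hKc hcφ0)
  obtain ⟨D, hD0, hD⟩ := deriv_bd
  have i1 : Integrable (fun x => ⟪A x, curl φ x⟫) := int_inner hA1 hcc hM' hcφ0
  have i2 : Integrable (fun x => ⟪C x, φ x⟫) := int_inner hC1 hφc hM hφ0
  -- the error term
  have hGc : ∀ n : ℕ, Continuous fun x => cr (gr (zt n) x) (φ x) :=
    fun n => continuous_cr (continuous_gr (contDiff_zt n)) hφc
  have hG0 : ∀ (n : ℕ) (x : E), x ∉ K → cr (gr (zt n) x) (φ x) = 0 := by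
    intro n x hx
    rw [hφ0 x hx, ← norm_le_zero_iff]
    refine (norm_cr_le _ _).trans ?_
    rw [norm_zero, mul_zero]
  have hGb : ∀ (n : ℕ) (x : E), ‖cr (gr (zt n) x) (φ x)‖ ≤ 3 * D * ((n : ℝ) + 1) * M := by
    intro n x
    have h3 : (0 : ℝ) ≤ 3 * D * ((n : ℝ) + 1) := by positivity
    refine (norm_cr_le _ _).trans ?_
    by_cases h2 : ((n : ℝ) + 1) ^ 2 * rr x ≤ 2
    · exact mul_le_mul (norm_gr_zt hD hD0 n h2) (hM x) (norm_nonneg _) h3
    · rw [gr_zt_zero n (not_le.mp h2), norm_zero, zero_mul]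
      exact mul_nonneg h3 hM0
  have i3 : ∀ n : ℕ, Integrable fun x => ⟪A x, cr (gr (zt n) x) (φ x)⟫ :=
    fun n => int_inner hA1 (hGc n) (hGb n) (hG0 n)
  have hS : ∀ n : ℕ, MeasurableSet (K ∩ {x : E | rr x ≤ (2 / ((n : ℝ) + 1)) ^ 2}) :=
    fun n => measurableSet_closedBall.inter
      (isClosed_le contDiff_rr.continuous continuous_const).measurableSet
  have herr : ∀ (n : ℕ) (δ : ℝ), 0 < δ → |∫ x, ⟪A x, cr (gr (zt n) x) (φ x)⟫| ≤
      δ⁻¹ * (∫ x in K ∩ {x : E | rr x ≤ (2 / ((n : ℝ) + 1)) ^ 2}, ‖A x‖ ^ 2) +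
        δ * (288 * D ^ 2 * M ^ 2 * R) := by
    intro n δ hδ
    have hn : (0 : ℝ) < (n : ℝ) + 1 := by positivity
    set S : Set E := K ∩ {x : E | rr x ≤ (2 / ((n : ℝ) + 1)) ^ 2} with hSd
    set c : ℝ := 3 * D * ((n : ℝ) + 1) * M with hc'
    have hvol : volume S ≤ ENNReal.ofReal (8 * R * (2 / ((n : ℝ) + 1)) ^ 2) := vol_slab (by positivity)
    have hvt : volume S ≠ ⊤ := (hvol.trans_lt ENNReal.ofReal_lt_top).ne
    have hvr : volume.real S ≤ 8 * R * (2 / ((n : ℝ) + 1)) ^ 2 :=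
      ENNReal.toReal_le_of_le_ofReal (by positivity) hvol
    have j1 : IntegrableOn (fun x => δ⁻¹ * ‖A x‖ ^ 2) S := (hAsq.mono_set inter_subset_left).const_mul _
    have j2 : IntegrableOn (fun _ : E => δ * c ^ 2) S := integrableOn_const hvt
    have h1 : ‖∫ x, ⟪A x, cr (gr (zt n) x) (φ x)⟫‖ ≤ ∫ x, S.indicator (fun x => δ⁻¹ * ‖A x‖ ^ 2 + δ * c ^ 2) x := by
      refine norm_integral_le_of_norm_le ((j1.add j2).integrable_indicator (hS n)) (Eventually.of_forall fun x => ?_)
      by_cases hx : x ∈ S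
      · rw [indicator_of_mem hx]
        have h2 : ‖⟪A x, cr (gr (zt n) x) (φ x)⟫‖ ≤ ‖A x‖ * c :=
          (norm_inner_le_norm _ _).trans (mul_le_mul_of_nonneg_left (hGb n x) (norm_nonneg _))
        have h3 : 0 ≤ (δ⁻¹ * ‖A x‖ - c) ^ 2 * δ := by positivity
        have h4 : (δ⁻¹ * ‖A x‖ - c) ^ 2 * δ = δ⁻¹ * ‖A x‖ ^ 2 - 2 * (‖A x‖ * c) + δ * c ^ 2 := by
          field_simp
          ring
        have h5 : 0 ≤ δ⁻¹ * ‖A x‖ ^ 2 + δ * c ^ 2 := by positivity
        linarith
      · rw [indicator_of_notMem hx]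
        have h2 : cr (gr (zt n) x) (φ x) = 0 := by
          by_cases hxK : x ∈ K
          · have h3 : ¬ rr x ≤ (2 / ((n : ℝ) + 1)) ^ 2 := fun h4 => hx ⟨hxK, h4⟩
            rw [div_pow, le_div_iff₀ (by positivity), not_le] at h3
            rw [gr_zt_zero n (by linarith), ← norm_le_zero_iff]
            refine (norm_cr_le _ _).trans ?_
            rw [norm_zero, zero_mul]
          · exact hG0 n x hxK
        rw [h2, inner_zero_right, norm_zero]
    rw [← Real.norm_eq_abs]
    refine h1.trans ?_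
    rw [integral_indicator (hS n), integral_add j1 j2, integral_const_mul, setIntegral_const, smul_eq_mul]
    refine add_le_add le_rfl ?_
    calc volume.real S * (δ * c ^ 2) ≤ (8 * R * (2 / ((n : ℝ) + 1)) ^ 2) * (δ * c ^ 2) :=
          mul_le_mul_of_nonneg_right hvr (by positivity)
      _ = δ * (288 * D ^ 2 * M ^ 2 * R) := by
          rw [hc']
          field_simp
          ring
  have hlim : Tendsto (fun n : ℕ => ∫ x, ⟪A x, cr (gr (zt n) x) (φ x)⟫) atTop (𝓝 0) := by
    rw [Metric.tendsto_nhds]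
    intro ε hε
    set Q : ℝ := 288 * D ^ 2 * M ^ 2 * R with hQ
    have hQ0 : 0 ≤ Q := by positivity
    set δ : ℝ := ε / (2 * (Q + 1)) with hδ
    have hδ0 : 0 < δ := by positivity
    have h1 : Tendsto (fun n : ℕ => δ⁻¹ * ∫ x in K ∩ {x : E | rr x ≤ (2 / ((n : ℝ) + 1)) ^ 2}, ‖A x‖ ^ 2)
        atTop (𝓝 0) := by
      simpa using (lim_S hAsq).const_mul δ⁻¹
    filter_upwards [(h1.eventually (gt_mem_nhds (half_pos hε)))] with n hn
    rw [Real.dist_0_eq_abs]
    refine (herr n δ hδ0).trans_lt ?_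
    have h2 : δ * Q < ε / 2 := by
      rw [hδ, div_mul_eq_mul_div, div_lt_iff₀ (by positivity)]
      nlinarith
    linarith
  -- the identity for the cut off fields
  have hid : ∀ n : ℕ, (∫ x, ⟪A x, cr (gr (zt n) x) (φ x)⟫) + (∫ x, zt n x * ⟪A x, curl φ x⟫) =
      ∫ x, zt n x * ⟪C x, φ x⟫ := by
    intro n
    have h1 := h _ (test_zt ⟨hs, hc, subset_univ _⟩ n)
    have h2 : ∀ x, ⟪A x, curl (fun x => zt n x • φ x) x⟫ =
        ⟪A x, cr (gr (zt n) x) (φ x)⟫ + zt n x * ⟪A x, curl φ x⟫ := by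
      intro x
      rw [curl_smul ((contDiff_zt n).differentiable (by simp) x) (hs.differentiable (by simp) x), inner_add_right,
        inner_smul_right]
    have h3 : ∀ x, ⟪C x, zt n x • φ x⟫ = zt n x * ⟪C x, φ x⟫ := fun x => inner_smul_right _ _ _
    have i4 : Integrable fun x => zt n x * ⟪A x, curl φ x⟫ := by
      refine i1.norm.mono' ((contDiff_zt n).continuous.aestronglyMeasurable.mul i1.aestronglyMeasurable)
        (Eventually.of_forall fun x => ?_)
      rw [norm_mul, Real.norm_of_nonneg (zt_nonneg n x)]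
      exact mul_le_of_le_one_left (norm_nonneg _) (zt_le_one n x)
    simp_rw [h2, h3] at h1
    rw [← h1, integral_add (i3 n) i4]
  have hl := hlim.add (lim_zt i1)
  rw [zero_add] at hl
  have hr := lim_zt i2
  exact tendsto_nhds_unique (hl.congr hid) hr

end Pool.CQ
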