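import Pool.Agent.Lib.MP_cd5b91_an.CQ.C1Seq

/-!
# CQ-C1Curl: `C¹` test fields for the distributional curl
-/

open MeasureTheory Filter Topology Set
open scoped ContDiff RealInnerProductSpace ENNReal

namespace Pool.CQ

private theorem cc_pd_off {f : E → ℝ} {x : E} (hx : x ∉ tsupport f) (i : Fin 3) : pd i f x = 0 := by
  have h : f =ᶠ[𝓝 x] fun _ => 0 := notMem_tsupport_iff_eventuallyEq.1 hx
  unfold pd
  rw [h.fderiv_eq]
  simp

private theorem cc_norm_le (v : E) : ‖v‖ ≤ |v 0| + |v 1| + |v 2| := by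
  have h : ‖v‖ ^ 2 ≤ (|v 0| + |v 1| + |v 2|) ^ 2 := by
    rw [EuclideanSpace.norm_sq_eq, Fin.sum_univ_three]
    simp only [Real.norm_eq_abs]
    nlinarith [abs_nonneg (v 0), abs_nonneg (v 1), abs_nonneg (v 2),
      mul_nonneg (abs_nonneg (v 0)) (abs_nonneg (v 1)), mul_nonneg (abs_nonneg (v 0)) (abs_nonneg (v 2)),
      mul_nonneg (abs_nonneg (v 1)) (abs_nonneg (v 2))]
  exact le_of_sq_le_sq h (by positivity)

private theorem cc_cont {φ : E → E} (h : ∀ i : Fin 3, ContDiff ℝ 1 (fun y => φ y i)) :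
    Continuous (curl φ) := by
  have hp : ∀ i j : Fin 3, Continuous (pd i (fun y => φ y j)) := fun i j =>
    ((h j).continuous_fderiv one_ne_zero).clm_apply continuous_const
  unfold curl
  refine (PiLp.continuous_toLp 2 _).comp (continuous_pi fun i => ?_)
  fin_cases i
  · exact (hp 1 2).sub (hp 2 1)
  · exact (hp 2 0).sub (hp 0 2)
  · exact (hp 0 1).sub (hp 1 0)

/-- the distributional curl can be tested with `C¹` fields with compact support -/
theorem wc_c1 {O : Set E} (hO : IsOpen O) {A C : E → E} (hA : LpL 1 O A) (hC : LpL 1 O C)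
    (h : WC O A C) {φ : E → E} (hφ : ContDiff ℝ 1 φ) (hc : HasCompactSupport φ) (hs : tsupport φ ⊆ O) :
    ∫ x, ⟪A x, curl φ x⟫ = ∫ x, ⟪C x, φ x⟫ := by
  have hφi : ∀ i : Fin 3, ContDiff ℝ 1 (fun x => φ x i) := fun i =>
    (EuclideanSpace.proj (𝕜 := ℝ) i).contDiff.comp hφ
  have hci : ∀ i : Fin 3, HasCompactSupport (fun x => φ x i) := fun i =>
    HasCompactSupport.intro hc fun x hx => by
      rw [image_eq_zero_of_notMem_tsupport hx]
      rfl
  have hsi : ∀ i : Fin 3, tsupport (fun x => φ x i) ⊆ O := fun i => by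
    refine (closure_minimal (fun x hx => ?_) (isClosed_tsupport φ)).trans hs
    by_contra h
    refine hx ?_
    show φ x i = 0
    rw [image_eq_zero_of_notMem_tsupport h]
    rfl
  choose K hK hKO hfK F hF hFc hFK hF0 hF1 using fun i => c1_seq hO (hφi i) (hci i) (hsi i)
  obtain ⟨L, hL⟩ : ∃ L : Set E, L = K 0 ∪ K 1 ∪ K 2 := ⟨_, rfl⟩
  have hLc : IsCompact L := by
    rw [hL]
    exact ((hK 0).union (hK 1)).union (hK 2)
  have hLO : L ⊆ O := by
    rw [hL]
    exact union_subset (union_subset (hKO 0) (hKO 1)) (hKO 2)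
  have hKL : ∀ i, K i ⊆ L := by
    intro i
    rw [hL]
    fin_cases i
    · exact subset_union_left.trans subset_union_left
    · exact subset_union_right.trans subset_union_left
    · exact subset_union_right
  obtain ⟨Φ, hΦ⟩ : ∃ Φ : ℕ → E → E, ∀ n x, Φ n x = !₂[F 0 n x, F 1 n x, F 2 n x] := ⟨_, fun _ _ => rfl⟩
  have hΦi : ∀ (n : ℕ) (i : Fin 3), (fun x => Φ n x i) = F i n := by
    intro n i
    funext x
    rw [hΦ]
    fin_cases i <;> rfl
  have hΦs : ∀ n, ContDiff ℝ ∞ (Φ n) := by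
    intro n
    rw [contDiff_euclidean]
    intro i
    rw [hΦi]
    exact hF i n
  have hΦ0 : ∀ n x, x ∉ L → Φ n x = 0 := by
    intro n x hx
    have h1 : ∀ i, F i n x = 0 := fun i =>
      image_eq_zero_of_notMem_tsupport fun h2 => hx (hKL i (hFK i n h2))
    rw [hΦ, h1, h1, h1]
    ext i
    fin_cases i <;> rfl
  have hΦt : ∀ n, TestIn O (Φ n) := by
    intro n
    refine ⟨hΦs n, HasCompactSupport.intro hLc fun x hx => hΦ0 n x hx, ?_⟩
    refine (closure_minimal (fun x hx => ?_) hLc.isClosed).trans hLO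
    by_contra h2
    exact hx (hΦ0 n x h2)
  have hφL : ∀ x, x ∉ L → φ x = 0 := by
    intro x hx
    have h1 : ∀ i : Fin 3, φ x i = 0 := fun i =>
      image_eq_zero_of_notMem_tsupport (f := fun y => φ y i) fun h2 => hx (hKL i (hfK i h2))
    ext i
    exact h1 i
  have hcurl0 : ∀ ψ : E → E, (∀ i : Fin 3, tsupport (fun y => ψ y i) ⊆ L) → ∀ x, x ∉ L → curl ψ x = 0 := by
    intro ψ hψ x hx
    have h1 : ∀ i j : Fin 3, pd i (fun y => ψ y j) x = 0 := fun i j =>
      cc_pd_off (fun h2 => hx (hψ j h2)) i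
    unfold curl
    rw [h1, h1, h1, h1, h1, h1, sub_self]
    ext i
    fin_cases i <;> rfl
  have e : ∀ n, ∫ x, ⟪A x, curl (Φ n) x⟫ = ∫ x, ⟪C x, Φ n x⟫ := fun n => h _ (hΦt n)
  have l1 : Tendsto (fun n => ∫ x, ⟪A x, curl (Φ n) x⟫) atTop (𝓝 (∫ x, ⟪A x, curl φ x⟫)) := by
    refine c1_lim hLc hLO hA (fun n => cc_cont fun i => ?_) (fun n => hcurl0 _ fun i => ?_)
      (cc_cont hφi) (hcurl0 _ fun i => (hfK i).trans (hKL i)) fun ε hε => ?_
    · rw [hΦi]
      exact (hF i n).of_le (by exact_mod_cast le_top)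
    · rw [hΦi]
      exact (hFK i n).trans (hKL i)
    · have h6 : (0 : ℝ) < ε / 6 := by positivity
      filter_upwards [hF1 2 1 (ε / 6) h6, hF1 1 2 (ε / 6) h6, hF1 0 2 (ε / 6) h6, hF1 2 0 (ε / 6) h6,
        hF1 1 0 (ε / 6) h6, hF1 0 1 (ε / 6) h6] with n a1 a2 a3 a4 a5 a6 x
      have k0 : ∀ f : E → E, curl f x 0 = pd 1 (fun y => f y 2) x - pd 2 (fun y => f y 1) x := fun _ => rfl
      have k1 : ∀ f : E → E, curl f x 1 = pd 2 (fun y => f y 0) x - pd 0 (fun y => f y 2) x := fun _ => rfl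
      have k2 : ∀ f : E → E, curl f x 2 = pd 0 (fun y => f y 1) x - pd 1 (fun y => f y 0) x := fun _ => rfl
      refine (cc_norm_le _).trans ?_
      rw [PiLp.sub_apply, PiLp.sub_apply, PiLp.sub_apply, k0, k1, k2, k0, k1, k2, hΦi, hΦi, hΦi]
      have b1 := abs_le.1 (a1 x)
      have b2 := abs_le.1 (a2 x)
      have b3 := abs_le.1 (a3 x)
      have b4 := abs_le.1 (a4 x)
      have b5 := abs_le.1 (a5 x)
      have b6 := abs_le.1 (a6 x)
      have c0 : |pd 1 (F 2 n) x - pd 2 (F 1 n) x - (pd 1 (fun y => φ y 2) x - pd 2 (fun y => φ y 1) x)| ≤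
          ε / 3 := abs_le.2 ⟨by linarith [b1.1, b2.2], by linarith [b1.2, b2.1]⟩
      have c1 : |pd 2 (F 0 n) x - pd 0 (F 2 n) x - (pd 2 (fun y => φ y 0) x - pd 0 (fun y => φ y 2) x)| ≤
          ε / 3 := abs_le.2 ⟨by linarith [b3.1, b4.2], by linarith [b3.2, b4.1]⟩
      have c2 : |pd 0 (F 1 n) x - pd 1 (F 0 n) x - (pd 0 (fun y => φ y 1) x - pd 1 (fun y => φ y 0) x)| ≤
          ε / 3 := abs_le.2 ⟨by linarith [b5.1, b6.2], by linarith [b5.2, b6.1]⟩
      linarith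
  have l2 : Tendsto (fun n => ∫ x, ⟪C x, Φ n x⟫) atTop (𝓝 (∫ x, ⟪C x, φ x⟫)) := by
    refine c1_lim hLc hLO hC (fun n => (hΦs n).continuous) hΦ0 hφ.continuous hφL fun ε hε => ?_
    have h3 : (0 : ℝ) < ε / 3 := by positivity
    filter_upwards [hF0 0 (ε / 3) h3, hF0 1 (ε / 3) h3, hF0 2 (ε / 3) h3] with n a0 a1 a2 x
    refine (cc_norm_le _).trans ?_
    have k : ∀ i, Φ n x i = F i n x := fun i => congrFun (hΦi n i) x
    rw [PiLp.sub_apply, PiLp.sub_apply, PiLp.sub_apply, k, k, k]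
    have b0 := a0 x
    have b1 := a1 x
    have b2 := a2 x
    linarith
  simp only [e] at l1
  exact tendsto_nhds_unique l1 l2

end Pool.CQ
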