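import Pool.Agent.Lib.MP_cd5b91_an.CQ.C1Seq

/-!
# CQ-C1Div: `C¹` test functions for the weak divergence
-/

open MeasureTheory Filter Topology Set
open scoped ContDiff RealInnerProductSpace ENNReal

namespace Pool.CQ

private theorem cv_pd_off {f : E → ℝ} {x : E} (hx : x ∉ tsupport f) (i : Fin 3) : pd i f x = 0 := by
  have h : f =ᶠ[𝓝 x] fun _ => 0 := notMem_tsupport_iff_eventuallyEq.1 hx
  unfold pd
  rw [h.fderiv_eq]
  simp

private theorem cv_norm_le (v : E) : ‖v‖ ≤ |v 0| + |v 1| + |v 2| := by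
  have h : ‖v‖ ^ 2 ≤ (|v 0| + |v 1| + |v 2|) ^ 2 := by
    rw [EuclideanSpace.norm_sq_eq, Fin.sum_univ_three]
    simp only [Real.norm_eq_abs]
    nlinarith [abs_nonneg (v 0), abs_nonneg (v 1), abs_nonneg (v 2),
      mul_nonneg (abs_nonneg (v 0)) (abs_nonneg (v 1)), mul_nonneg (abs_nonneg (v 0)) (abs_nonneg (v 2)),
      mul_nonneg (abs_nonneg (v 1)) (abs_nonneg (v 2))]
  exact le_of_sq_le_sq h (by positivity)

private theorem cv_cont {f : E → ℝ} (h : ContDiff ℝ 1 f) : Continuous (gr f) := by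
  have hp : ∀ i : Fin 3, Continuous (pd i f) := fun i =>
    (h.continuous_fderiv one_ne_zero).clm_apply continuous_const
  unfold gr
  refine (PiLp.continuous_toLp 2 _).comp (continuous_pi fun i => ?_)
  fin_cases i
  · exact hp 0
  · exact hp 1
  · exact hp 2

private theorem cv_off {f : E → ℝ} {K : Set E} (h : tsupport f ⊆ K) {x : E} (hx : x ∉ K) : gr f x = 0 := by
  have h1 : ∀ i, pd i f x = 0 := fun i => cv_pd_off (fun h2 => hx (h h2)) i
  unfold gr
  rw [h1, h1, h1]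
  ext i
  fin_cases i <;> rfl

/-- the weak divergence can be tested with `C¹` functions with compact support -/
theorem div_c1 {O : Set E} (hO : IsOpen O) {A : E → E} (hA : LpL 1 O A)
    (h : ∀ f : E → ℝ, STest O f → ∫ x, ⟪A x, gr f x⟫ = 0) {f : E → ℝ} (hf : ContDiff ℝ 1 f)
    (hc : HasCompactSupport f) (hs : tsupport f ⊆ O) : ∫ x, ⟪A x, gr f x⟫ = 0 := by
  obtain ⟨K, hK, hKO, hfK, F, hF, hFc, hFK, hF0, hF1⟩ := c1_seq hO hf hc hs
  have l1 : Tendsto (fun n => ∫ x, ⟪A x, gr (F n) x⟫) atTop (𝓝 (∫ x, ⟪A x, gr f x⟫)) := by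
    refine c1_lim hK hKO hA (fun n => cv_cont ((hF n).of_le (by exact_mod_cast le_top)))
      (fun n x hx => cv_off (hFK n) hx) (cv_cont hf) (fun x hx => cv_off hfK hx) fun ε hε => ?_
    have h3 : (0 : ℝ) < ε / 3 := by positivity
    filter_upwards [hF1 0 (ε / 3) h3, hF1 1 (ε / 3) h3, hF1 2 (ε / 3) h3] with n a0 a1 a2 x
    refine (cv_norm_le _).trans ?_
    have k : ∀ g : E → ℝ, gr g x 0 = pd 0 g x ∧ gr g x 1 = pd 1 g x ∧ gr g x 2 = pd 2 g x :=
      fun g => ⟨rfl, rfl, rfl⟩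
    rw [PiLp.sub_apply, PiLp.sub_apply, PiLp.sub_apply, (k _).1, (k _).2.1, (k _).2.2, (k _).1,
      (k _).2.1, (k _).2.2]
    have b0 := a0 x
    have b1 := a1 x
    have b2 := a2 x
    linarith
  have e : ∀ n, ∫ x, ⟪A x, gr (F n) x⟫ = 0 := fun n => h _ ⟨hF n, hFc n, (hFK n).trans hKO⟩
  simp only [e] at l1
  exact (tendsto_nhds_unique l1 tendsto_const_nhds)

end Pool.CQ
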