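import Pool.Agent.Lib.MP_cd5b91_an.CQ.CurlMoll

/-!
# CQ-C1Grad: the weak gradient can be tested with `C¹` functions
-/

open MeasureTheory Filter Topology Set
open scoped ContDiff RealInnerProductSpace ENNReal

namespace Pool.CQ

private noncomputable def cb (n : ℕ) : E → ℝ := (Pool.UVF.bump 3 n).normed volume

private theorem cb_smooth (n : ℕ) : ContDiff ℝ ∞ (cb n) := (Pool.UVF.bump 3 n).contDiff_normed

private theorem cb_compact (n : ℕ) : HasCompactSupport (cb n) :=
  (Pool.UVF.bump 3 n).hasCompactSupport_normed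

private theorem cb_nonneg (n : ℕ) (t : E) : 0 ≤ cb n t := (Pool.UVF.bump 3 n).nonneg_normed t

private theorem cb_int (n : ℕ) : ∫ t, cb n t = 1 := (Pool.UVF.bump 3 n).integral_normed

private theorem cb_ball {n : ℕ} {t : E} (ht : cb n t ≠ 0) : ‖t‖ < 1 / ((n : ℝ) + 1) := by
  have h : t ∈ Function.support (cb n) := ht
  have h2 : Function.support (cb n) = Metric.ball (0 : E) (Pool.UVF.bump 3 n).rOut :=
    (Pool.UVF.bump 3 n).support_normed_eq
  rw [h2] at h
  have h3 : (Pool.UVF.bump 3 n).rOut = 1 / ((n : ℝ) + 1) := by simp [Pool.UVF.bump]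
  rw [h3] at h
  simpa using h

private theorem cb_mol (f : E → ℝ) (n : ℕ) (x : E) : mol n f x = ∫ t, cb n t * f (x - t) := rfl

private theorem cb_mol2 (f : E → ℝ) (n : ℕ) (x : E) : mol n f x = ∫ y, cb n (x - y) * f y :=
  Pool.UVF.moll_eq f n x

private theorem cb_unif {f : E → ℝ} (hf : Continuous f) (hc : HasCompactSupport f) {ε : ℝ} (hε : 0 < ε) :
    ∀ᶠ n : ℕ in atTop, ∀ x, |mol n f x - f x| ≤ ε := by
  have huc := hc.uniformContinuous_of_continuous hf
  rw [Metric.uniformContinuous_iff] at huc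
  obtain ⟨δ, hδ, h⟩ := huc ε hε
  obtain ⟨N, hN⟩ := exists_nat_one_div_lt hδ
  filter_upwards [eventually_ge_atTop N] with n hn x
  have hint : Integrable (cb n) volume :=
    (cb_smooth n).continuous.integrable_of_hasCompactSupport (cb_compact n)
  have i1 : Integrable (fun t => cb n t * f (x - t)) volume :=
    ((cb_smooth n).continuous.mul (hf.comp (continuous_const.sub continuous_id))).integrable_of_hasCompactSupport
      (cb_compact n).mul_right
  have e : mol n f x - f x = ∫ t, cb n t * (f (x - t) - f x) := by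
    have e1 : ∫ t, cb n t * f x = f x := by rw [integral_mul_const, cb_int, one_mul]
    have e3 : ∫ t, cb n t * (f (x - t) - f x) = (∫ t, cb n t * f (x - t)) - ∫ t, cb n t * f x := by
      rw [← integral_sub i1 (hint.mul_const _)]
      refine integral_congr_ae (Eventually.of_forall fun t => ?_)
      show cb n t * (f (x - t) - f x) = cb n t * f (x - t) - cb n t * f x
      ring
    rw [e3, e1, cb_mol]
  rw [e, ← Real.norm_eq_abs]
  have e2 : ε = ∫ t, cb n t * ε := by rw [integral_mul_const, cb_int, one_mul]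
  rw [e2]
  refine norm_integral_le_of_norm_le (hint.mul_const _) (Eventually.of_forall fun t => ?_)
  rw [norm_mul, Real.norm_of_nonneg (cb_nonneg n t)]
  by_cases h0 : cb n t = 0
  · rw [h0, zero_mul, zero_mul]
  · refine mul_le_mul_of_nonneg_left ?_ (cb_nonneg n t)
    have h1 := cb_ball h0
    have h2 : 1 / ((n : ℝ) + 1) ≤ 1 / ((N : ℝ) + 1) := by
      have : (N : ℝ) ≤ n := by exact_mod_cast hn
      gcongr
    have h3 : dist (x - t) x < δ := by
      rw [dist_eq_norm, sub_sub_cancel_left, norm_neg]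
      linarith
    have h4 := h h3
    rw [Real.dist_eq] at h4
    exact h4.le

private theorem cb_pd1 {f : E → ℝ} (hf : ContDiff ℝ 1 f) (i : Fin 3) : Continuous (pd i f) := by
  unfold pd
  exact (hf.continuous_fderiv (by simp)).clm_apply continuous_const

private theorem cb_pdc {f : E → ℝ} (hf : HasCompactSupport f) (i : Fin 3) :
    HasCompactSupport (pd i f) := by
  unfold pd
  exact (hf.fderiv ℝ).comp_left (g := fun L : E →L[ℝ] ℝ =>
    L (EuclideanSpace.single i (1 : ℝ))) (by simp)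

private theorem cb_pd {f : E → ℝ} (hf : ContDiff ℝ 1 f) (hc : HasCompactSupport f) (n : ℕ) (i : Fin 3)
    (x : E) : pd i (mol n f) x = mol n (pd i f) x := by
  have h0 : pd i (mol n f) x = ∫ y, pd i (cb n) (x - y) * f y :=
    Pool.UVF.pd_moll (hf.continuous.locallyIntegrable) n i x
  have hs : ContDiff ℝ ∞ (fun z => cb n (x - z)) := (cb_smooth n).comp (contDiff_const.sub contDiff_id)
  have hd : ∀ y, fderiv ℝ (fun z => cb n (x - z)) y (EuclideanSpace.single i (1 : ℝ))
      = -(pd i (cb n) (x - y)) := fun y => by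
    have hd : HasFDerivAt (cb n) (fderiv ℝ (cb n) (x - y)) (x - y) :=
      ((cb_smooth n).differentiable (by simp)).differentiableAt.hasFDerivAt
    have h1 : HasFDerivAt (fun z : E => x - z) (-(ContinuousLinearMap.id ℝ E)) y :=
      (hasFDerivAt_id y).const_sub x
    have h2 : HasFDerivAt (fun z => cb n (x - z))
        ((fderiv ℝ (cb n) (x - y)).comp (-(ContinuousLinearMap.id ℝ E))) y :=
      HasFDerivAt.comp y hd h1
    unfold pd
    rw [h2.fderiv]
    simp
  have hsd : Continuous fun y => fderiv ℝ (fun z => cb n (x - z)) y (EuclideanSpace.single i (1 : ℝ)) :=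
    (hs.continuous_fderiv (by simp)).clm_apply continuous_const
  have hibp : ∫ y, cb n (x - y) * fderiv ℝ f y (EuclideanSpace.single i (1 : ℝ)) =
      -∫ y, fderiv ℝ (fun z => cb n (x - z)) y (EuclideanSpace.single i (1 : ℝ)) * f y := by
    refine integral_mul_fderiv_eq_neg_fderiv_mul_of_integrable (f := fun z => cb n (x - z)) ?_ ?_ ?_
      (fun y _ => hs.differentiable (by simp) y) (fun y _ => hf.differentiable (by simp) y)
    · exact (hsd.mul hf.continuous).integrable_of_hasCompactSupport hc.mul_left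
    · exact (hs.continuous.mul (cb_pd1 hf i)).integrable_of_hasCompactSupport (cb_pdc hc i).mul_left
    · exact (hs.continuous.mul hf.continuous).integrable_of_hasCompactSupport hc.mul_left
  rw [h0, cb_mol2]
  show _ = ∫ y, cb n (x - y) * fderiv ℝ f y (EuclideanSpace.single i (1 : ℝ))
  rw [hibp, ← integral_neg]
  refine integral_congr_ae (Eventually.of_forall fun y => ?_)
  simp only [hd]
  ring

private theorem cb_approx {O : Set E} (hO : IsOpen O) {f : E → ℝ} (hf : ContDiff ℝ 1 f)
    (hc : HasCompactSupport f) (hs : tsupport f ⊆ O) :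
    ∃ (K : Set E) (F : ℕ → E → ℝ), IsCompact K ∧ K ⊆ O ∧ tsupport f ⊆ K ∧
      (∀ n, ContDiff ℝ ∞ (F n)) ∧ (∀ n, tsupport (F n) ⊆ K) ∧
      ∀ ε : ℝ, 0 < ε → ∀ᶠ n in atTop, ∀ x, |F n x - f x| ≤ ε ∧
        ∀ i : Fin 3, |pd i (F n) x - pd i f x| ≤ ε := by
  obtain ⟨δ, hδ, hδO⟩ := (show IsCompact (tsupport f) from hc).exists_cthickening_subset_open hO hs
  obtain ⟨N, hN⟩ := exists_nat_one_div_lt hδ
  refine ⟨Metric.cthickening δ (tsupport f), fun n => mol (n + N) f,
    (show IsCompact (tsupport f) from hc).cthickening, hδO, Metric.self_subset_cthickening _,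
    fun n => contDiff_mol hf.continuous.locallyIntegrable _, fun n => ?_, fun ε hε => ?_⟩
  · refine closure_minimal (fun x hx => ?_) Metric.isClosed_cthickening
    have h1 : mol (n + N) f x ≠ 0 := hx
    rw [cb_mol] at h1
    obtain ⟨t, ht⟩ : ∃ t, cb (n + N) t * f (x - t) ≠ 0 := by
      by_contra hcon
      push Not at hcon
      exact h1 (by simp [hcon])
    have h2 : cb (n + N) t ≠ 0 := left_ne_zero_of_mul ht
    have h3 : f (x - t) ≠ 0 := right_ne_zero_of_mul ht
    refine Metric.mem_cthickening_of_dist_le x (x - t) δ _ (subset_tsupport f h3) ?_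
    rw [dist_eq_norm, sub_sub_cancel]
    have h4 := cb_ball h2
    have h5 : 1 / (((n + N : ℕ) : ℝ) + 1) ≤ 1 / ((N : ℝ) + 1) := by
      have : (N : ℝ) ≤ ((n + N : ℕ) : ℝ) := by exact_mod_cast Nat.le_add_left N n
      gcongr
    linarith
  · have h1 : Tendsto (fun n : ℕ => n + N) atTop atTop := tendsto_add_atTop_nat N
    have h2 := h1.eventually (cb_unif hf.continuous hc hε)
    have h3 : ∀ i : Fin 3, ∀ᶠ n : ℕ in atTop, ∀ x, |mol (n + N) (pd i f) x - pd i f x| ≤ ε := fun i =>
      h1.eventually (cb_unif (cb_pd1 hf i) (cb_pdc hc i) hε)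
    filter_upwards [h2, eventually_all.2 h3] with n hn1 hn2 x
    refine ⟨hn1 x, fun i => ?_⟩
    rw [cb_pd hf hc]
    exact hn2 i x

private theorem cg_lim {K : Set E} (hK : IsCompact K) {ψ : E → ℝ} (hψ : IntegrableOn ψ K volume)
    {g : E → ℝ} {F : ℕ → E → ℝ} (hg : Continuous g) (hF : ∀ n, Continuous (F n))
    (hg0 : ∀ x, x ∉ K → g x = 0) (hF0 : ∀ n, ∀ x, x ∉ K → F n x = 0)
    (hu : ∀ ε : ℝ, 0 < ε → ∀ᶠ n in atTop, ∀ x, |F n x - g x| ≤ ε) :
    Tendsto (fun n => ∫ x, ψ x * F n x) atTop (𝓝 (∫ x, ψ x * g x)) := by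
  have e : ∀ f : E → ℝ, (∀ x, x ∉ K → f x = 0) → ∫ x, ψ x * f x = ∫ x in K, ψ x * f x := fun f hf =>
    (setIntegral_eq_integral_of_forall_compl_eq_zero fun x hx => by rw [hf x hx, mul_zero]).symm
  have hi : ∀ f : E → ℝ, Continuous f → IntegrableOn (fun x => ψ x * f x) K volume := fun f hf =>
    hψ.mul_continuousOn hf.continuousOn hK
  rw [e g hg0]
  simp only [fun n => e (F n) (hF0 n)]
  rw [Metric.tendsto_atTop]
  intro ε hε
  have hI : 0 ≤ ∫ x in K, |ψ x| := integral_nonneg fun x => abs_nonneg _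
  have hε' : 0 < ε / (2 * ((∫ x in K, |ψ x|) + 1)) := by positivity
  obtain ⟨N, hN⟩ := eventually_atTop.1 (hu _ hε')
  refine ⟨N, fun n hn => ?_⟩
  rw [Real.dist_eq, ← integral_sub (hi _ (hF n)) (hi _ hg)]
  have h1 : |∫ x in K, (ψ x * F n x - ψ x * g x)| ≤
      ∫ x in K, |ψ x| * (ε / (2 * ((∫ x in K, |ψ x|) + 1))) := by
    rw [← Real.norm_eq_abs]
    refine norm_integral_le_of_norm_le (hψ.abs.mul_const _) (Eventually.of_forall fun x => ?_)
    rw [← mul_sub, Real.norm_eq_abs, abs_mul]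
    exact mul_le_mul_of_nonneg_left (hN n hn x) (abs_nonneg _)
  rw [integral_mul_const] at h1
  refine h1.trans_lt ?_
  rw [mul_div_assoc', div_lt_iff₀ (by positivity)]
  nlinarith

private theorem cg_pd {f : E → ℝ} (hf : ContDiff ℝ 1 f) (i : Fin 3) : Continuous (pd i f) := by
  unfold pd
  exact (hf.continuous_fderiv (by simp)).clm_apply continuous_const

private theorem cg_off {f : E → ℝ} {K : Set E} (hs : tsupport f ⊆ K) (i : Fin 3) {x : E} (hx : x ∉ K) :
    pd i f x = 0 := by
  have h1 : f =ᶠ[𝓝 x] fun _ => (0 : ℝ) := by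
    filter_upwards [(isClosed_tsupport f).isOpen_compl.mem_nhds fun h => hx (hs h)] with y hy
    exact image_eq_zero_of_notMem_tsupport hy
  unfold pd
  rw [h1.fderiv_eq]
  simp

/-- the weak gradient can be tested with `C¹` functions -/
theorem wgrad_c1 {O : Set E} (hO : IsOpen O) {ψ : E → ℝ} {G : E → E} (hψ : LpL 1 O ψ)
    (hG : LpL 1 O G) (h : WGrad O ψ G) {η : E → ℝ} (hη : ContDiff ℝ 1 η)
    (hc : HasCompactSupport η) (hs : tsupport η ⊆ O) (i : Fin 3) :
    ∫ x, ψ x * pd i η x = -∫ x, G x i * η x := by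
  obtain ⟨K, F, hK, hKO, hfK, hF, hFK, hu⟩ := cb_approx hO hη hc hs
  have h1 : IntegrableOn ψ K volume := memLp_one_iff_integrable.1 (hψ K hK hKO)
  have h2 : IntegrableOn (fun x => G x i) K volume := by
    have h3 : IntegrableOn G K volume := memLp_one_iff_integrable.1 (hG K hK hKO)
    exact (EuclideanSpace.proj i : E →L[ℝ] ℝ).integrable_comp h3
  have hF1 : ∀ n, ContDiff ℝ 1 (F n) := fun n => (hF n).of_le (by exact_mod_cast le_top)
  have l1 := cg_lim hK h1 (cg_pd hη i) (fun n => cg_pd (hF1 n) i) (fun x hx => cg_off hfK i hx)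
    (fun n x hx => cg_off (hFK n) i hx) (fun ε hε => (hu ε hε).mono fun n hn x => (hn x).2 i)
  have l2 := cg_lim hK h2 hη.continuous (fun n => (hF n).continuous)
    (fun x hx => image_eq_zero_of_notMem_tsupport fun h => hx (hfK h))
    (fun n x hx => image_eq_zero_of_notMem_tsupport fun h => hx (hFK n h))
    (fun ε hε => (hu ε hε).mono fun n hn x => (hn x).1)
  have e : ∀ n, ∫ x, ψ x * pd i (F n) x = -∫ x, G x i * F n x := fun n =>
    h (F n) ⟨hF n, hK.of_isClosed_subset (isClosed_tsupport _) (hFK n), (hFK n).trans hKO⟩ i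
  exact tendsto_nhds_unique (l1.congr fun n => e n) l2.neg

end Pool.CQ
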