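import Pool.Agent.Lib.MP_cd5b91_an.CQ.CurlMoll

/-!
# CQ-C1Seq: approximation of `C¹` functions with compact support by test functions
-/

open MeasureTheory Filter Topology Set
open scoped ContDiff RealInnerProductSpace ENNReal

namespace Pool.CQ

private theorem ca_unif {g : E → ℝ} (hg : Continuous g) (hc : HasCompactSupport g) {ε : ℝ} (hε : 0 < ε) :
    ∀ᶠ n : ℕ in atTop, ∀ x, |mol n g x - g x| ≤ ε := by
  have hu : UniformContinuous g := hc.uniformContinuous_of_continuous hg
  obtain ⟨δ, hδ, hd⟩ := Metric.uniformContinuous_iff.1 hu ε hε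
  have h1 := tendsto_one_div_add_atTop_nhds_zero_nat (𝕜 := ℝ)
  filter_upwards [h1.eventually_lt_const hδ] with n hn x
  have h2 : dist ((convolution ((Pool.UVF.bump 3 n).normed volume) g (ContinuousLinearMap.lsmul ℝ ℝ)
      volume : E → ℝ) x) (g x) ≤ ε := by
    refine ContDiffBump.dist_normed_convolution_le hg.aestronglyMeasurable fun y hy => ?_
    have h4 : (Pool.UVF.bump 3 n).rOut = 1 / ((n : ℝ) + 1) := rfl
    rw [Metric.mem_ball, h4] at hy
    exact (hd (hy.trans hn)).le
  exact h2

private theorem ca_wgrad {f : E → ℝ} (hf : ContDiff ℝ 1 f) (hc : HasCompactSupport f) :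
    WGrad univ f (gr f) := by
  intro η hη i
  have hfc : Continuous (pd i f) := (hf.continuous_fderiv one_ne_zero).clm_apply continuous_const
  have hηc : Continuous (pd i η) := (hη.1.continuous_fderiv (by simp)).clm_apply continuous_const
  have hfs : HasCompactSupport (pd i f) := hc.fderiv_apply ℝ _
  have e : ∀ x, gr f x i = pd i f x := by
    intro x
    fin_cases i <;> rfl
  simp only [e]
  have i1 : Integrable (fun x => f x * pd i η x) volume :=
    (hf.continuous.mul hηc).integrable_of_hasCompactSupport hc.mul_right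
  have i2 : Integrable (fun x => pd i f x * η x) volume :=
    (hfc.mul hη.1.continuous).integrable_of_hasCompactSupport hfs.mul_right
  have i3 : Integrable (fun x => f x * η x) volume :=
    (hf.continuous.mul hη.1.continuous).integrable_of_hasCompactSupport hc.mul_right
  exact integral_mul_fderiv_eq_neg_fderiv_mul_of_integrable (μ := (volume : Measure E))
    (f := f) (g := η) (v := EuclideanSpace.single i (1 : ℝ)) i2 i1 i3
    (fun x _ => (hf.differentiable one_ne_zero) x) (fun x _ => (hη.1.differentiable (by simp)) x)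

private theorem ca_pd {f : E → ℝ} (hf : ContDiff ℝ 1 f) (hc : HasCompactSupport f) (n : ℕ) (i : Fin 3)
    (x : E) : pd i (mol n f) x = mol n (pd i f) x := by
  have h1 : LocallyIntegrable f volume := hf.continuous.locallyIntegrable
  have hcg : Continuous (gr f) := by
    have hfc : ∀ i, Continuous (pd i f) := fun i =>
      (hf.continuous_fderiv one_ne_zero).clm_apply continuous_const
    unfold gr
    refine (PiLp.continuous_toLp 2 _).comp (continuous_pi fun i => ?_)
    fin_cases i
    · exact hfc 0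
    · exact hfc 1
    · exact hfc 2
  have h2 := gr_mol h1 hcg.locallyIntegrable (ca_wgrad hf hc) n x
  have h3 : gr (mol n f) x i = vmol n (gr f) x i := by rw [h2]
  fin_cases i
  · exact h3
  · exact h3
  · exact h3

/-- `C¹` functions with compact support in an open set are limits of test functions with supports in one
compact set, uniformly with the first derivatives -/
theorem c1_seq {O : Set E} (hO : IsOpen O) {f : E → ℝ} (hf : ContDiff ℝ 1 f)
    (hc : HasCompactSupport f) (hs : tsupport f ⊆ O) :
    ∃ K : Set E, IsCompact K ∧ K ⊆ O ∧ tsupport f ⊆ K ∧ ∃ F : ℕ → E → ℝ,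
      (∀ n, ContDiff ℝ ∞ (F n)) ∧ (∀ n, HasCompactSupport (F n)) ∧ (∀ n, tsupport (F n) ⊆ K) ∧
      (∀ ε : ℝ, 0 < ε → ∀ᶠ n in atTop, ∀ x, |F n x - f x| ≤ ε) ∧
      ∀ (i : Fin 3) (ε : ℝ), 0 < ε → ∀ᶠ n in atTop, ∀ x, |pd i (F n) x - pd i f x| ≤ ε := by
  obtain ⟨δ, hδ, hδO⟩ := hc.isCompact.exists_cthickening_subset_open hO hs
  obtain ⟨N, hN⟩ := exists_nat_one_div_lt hδ
  have hKc : IsCompact (Metric.cthickening δ (tsupport f)) := hc.isCompact.cthickening
  have hsup : ∀ n, tsupport (mol (n + N) f) ⊆ Metric.cthickening δ (tsupport f) := by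
    intro n
    refine closure_minimal ?_ Metric.isClosed_cthickening
    intro x hx
    by_contra hxK
    refine hx ?_
    have hz : ∀ t, (Pool.UVF.bump 3 (n + N)).normed volume t * f (x - t) = 0 := by
      intro t
      by_cases ht : t ∈ Metric.ball (0 : E) (1 / (((n + N : ℕ) : ℝ) + 1))
      · have h1 : x - t ∉ tsupport f := by
          intro h2
          refine hxK (Metric.mem_cthickening_of_dist_le x (x - t) δ (tsupport f) h2 ?_)
          rw [Metric.mem_ball, dist_zero_right] at ht
          rw [dist_eq_norm, sub_sub_cancel]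
          have h3 : 1 / (((n + N : ℕ) : ℝ) + 1) ≤ 1 / ((N : ℝ) + 1) := by
            refine one_div_le_one_div_of_le (by positivity) ?_
            push_cast
            linarith [(Nat.cast_nonneg n : (0 : ℝ) ≤ n)]
          linarith
        rw [image_eq_zero_of_notMem_tsupport h1, mul_zero]
      · have h3 : t ∉ Function.support ((Pool.UVF.bump 3 (n + N)).normed volume) := by
          rw [ContDiffBump.support_normed_eq]
          exact ht
        rw [Function.notMem_support.1 h3, zero_mul]
    show ∫ t, (Pool.UVF.bump 3 (n + N)).normed volume t * f (x - t) = 0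
    simp only [hz, integral_zero]
  refine ⟨Metric.cthickening δ (tsupport f), hKc, hδO, Metric.self_subset_cthickening _,
    fun n => mol (n + N) f, fun n => contDiff_mol hf.continuous.locallyIntegrable _,
    fun n => mol_compact hc _, hsup, fun ε hε => ?_, fun i ε hε => ?_⟩
  · exact (tendsto_add_atTop_nat N).eventually (ca_unif hf.continuous hc hε)
  · have hfc : Continuous (pd i f) := (hf.continuous_fderiv one_ne_zero).clm_apply continuous_const
    have hfs : HasCompactSupport (pd i f) := hc.fderiv_apply ℝ _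
    have h1 := (tendsto_add_atTop_nat N).eventually (ca_unif hfc hfs hε)
    filter_upwards [h1] with n hn x
    rw [ca_pd hf hc]
    exact hn x

/-- integrability of `⟪A, φ⟫` for a continuous field `φ` supported in a compact subset of `O` -/
theorem c1_int {O K : Set E} (hK : IsCompact K) (hKO : K ⊆ O) {A : E → E} (hA : LpL 1 O A) {φ : E → E}
    (hφ : Continuous φ) (hs : ∀ x, x ∉ K → φ x = 0) : Integrable (fun x => ⟪A x, φ x⟫) volume := by
  have h1 : Integrable A (volume.restrict K) := memLp_one_iff_integrable.1 (hA K hK hKO)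
  obtain ⟨M, hM⟩ := hK.exists_bound_of_continuousOn hφ.continuousOn
  have h2 : Integrable (fun x => ⟪A x, φ x⟫) (volume.restrict K) := by
    refine Integrable.mono' (g := fun x => M * ‖A x‖) (h1.norm.const_mul M)
      (h1.1.inner hφ.aestronglyMeasurable) ?_
    filter_upwards [ae_restrict_mem hK.measurableSet] with x hx
    refine (norm_inner_le_norm _ _).trans ?_
    rw [mul_comm]
    exact mul_le_mul_of_nonneg_right (hM x hx) (norm_nonneg _)
  rw [← integrableOn_iff_integrable_of_support_subset (s := K)]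
  · exact h2
  · intro x hx
    by_contra h
    refine hx ?_
    show ⟪A x, φ x⟫ = 0
    rw [hs x h, inner_zero_right]

/-- uniform limits of fields supported in a compact subset of `O` -/
theorem c1_lim {O K : Set E} (hK : IsCompact K) (hKO : K ⊆ O) {A : E → E} (hA : LpL 1 O A)
    {Φ : ℕ → E → E} {φ : E → E} (hΦ : ∀ n, Continuous (Φ n)) (hΦs : ∀ n x, x ∉ K → Φ n x = 0)
    (hφ : Continuous φ) (hs : ∀ x, x ∉ K → φ x = 0)
    (hl : ∀ ε : ℝ, 0 < ε → ∀ᶠ n in atTop, ∀ x, ‖Φ n x - φ x‖ ≤ ε) :
    Tendsto (fun n => ∫ x, ⟪A x, Φ n x⟫) atTop (𝓝 (∫ x, ⟪A x, φ x⟫)) := by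
  have h1 : Integrable A (volume.restrict K) := memLp_one_iff_integrable.1 (hA K hK hKO)
  have hI : 0 ≤ ∫ x in K, ‖A x‖ := integral_nonneg fun x => norm_nonneg _
  rw [Metric.tendsto_atTop']
  intro ε hε
  have h2 := hl (ε / (2 * ((∫ x in K, ‖A x‖) + 1))) (by positivity)
  obtain ⟨N, hN⟩ := eventually_atTop.1 h2
  refine ⟨N, fun n hn => ?_⟩
  have h3 := hN n hn.le
  have i1 := c1_int hK hKO hA (hΦ n) (hΦs n)
  have i2 := c1_int hK hKO hA hφ hs
  rw [Real.dist_eq, ← integral_sub i1 i2]
  have e1 : ∫ x, (⟪A x, Φ n x⟫ - ⟪A x, φ x⟫) = ∫ x in K, (⟪A x, Φ n x⟫ - ⟪A x, φ x⟫) := by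
    rw [setIntegral_eq_integral_of_forall_compl_eq_zero]
    intro x hx
    rw [hΦs n x hx, hs x hx, sub_self]
  rw [e1, ← Real.norm_eq_abs]
  have h4 : ‖∫ x in K, (⟪A x, Φ n x⟫ - ⟪A x, φ x⟫)‖ ≤
      ∫ x in K, (ε / (2 * ((∫ x in K, ‖A x‖) + 1))) * ‖A x‖ := by
    refine norm_integral_le_of_norm_le (h1.norm.const_mul _) (Eventually.of_forall fun x => ?_)
    rw [← inner_sub_right]
    refine (norm_inner_le_norm _ _).trans ?_
    rw [mul_comm]
    exact mul_le_mul_of_nonneg_right (h3 x) (norm_nonneg _)
  rw [integral_const_mul] at h4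
  refine h4.trans_lt ?_
  rw [div_mul_eq_mul_div, div_lt_iff₀ (by positivity)]
  nlinarith

end Pool.CQ
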