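import Pool.Agent.Lib.MP_cd5b91_an.CQ.Approx

/-!
# CQ-Chain
-/

open MeasureTheory Filter Topology Set
open scoped ContDiff RealInnerProductSpace ENNReal

namespace Pool.CQ

/-- `∫ (g_n - g) b_n → 0` if `g_n → g` in `L¹` and the `b_n` are bounded -/
theorem chain_tendsto_zero {μ : Measure E} {d : ℕ → E → ℝ} {b : ℕ → E → ℝ} {C : ℝ}
    (hd : Tendsto (fun n => eLpNorm (d n) 1 μ) atTop (𝓝 0)) (hb : ∀ n x, |b n x| ≤ C) :
    Tendsto (fun n => ∫ x, d n x * b n x ∂μ) atTop (𝓝 0) := by
  rw [tendsto_zero_iff_enorm_tendsto_zero]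
  have h1 : Tendsto (fun n => eLpNorm (d n) 1 μ * ENNReal.ofReal C) atTop (𝓝 0) := by
    have := ENNReal.Tendsto.mul_const hd (b := ENNReal.ofReal C) (Or.inr ENNReal.ofReal_ne_top)
    simpa using this
  refine tendsto_of_tendsto_of_tendsto_of_le_of_le tendsto_const_nhds h1 (fun n => zero_le) ?_
  intro n
  refine (enorm_integral_le_lintegral_enorm _).trans ?_
  show _ ≤ eLpNorm (d n) 1 μ * ENNReal.ofReal C
  rw [eLpNorm_one_eq_lintegral_enorm, ← lintegral_mul_const' _ _ ENNReal.ofReal_ne_top]
  refine lintegral_mono fun x => ?_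
  rw [enorm_mul]
  gcongr
  rw [← ofReal_norm, Real.norm_eq_abs]
  exact ENNReal.ofReal_le_ofReal (hb n x)

theorem chain_coord_meas {μ : Measure E} {G : E → E} (hG : AEStronglyMeasurable G μ) (i : Fin 3) :
    AEStronglyMeasurable (fun x => G x i) μ :=
  (EuclideanSpace.proj (𝕜 := ℝ) i : E →L[ℝ] ℝ).continuous.comp_aestronglyMeasurable hG

theorem chain_coord_le (v : E) (i : Fin 3) : |v i| ≤ ‖v‖ := by
  have := PiLp.norm_apply_le v i
  simpa using this

theorem chain_gr_apply (f : E → ℝ) (x : E) (i : Fin 3) : gr f x i = pd i f x := by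
  fin_cases i <;> rfl

theorem chain_pd_cont {η : E → ℝ} (hη : ContDiff ℝ ∞ η) (i : Fin 3) : Continuous (pd i η) := by
  have h1 : Continuous (fderiv ℝ η) := hη.continuous_fderiv (by simp)
  exact h1.clm_apply continuous_const

theorem chain_pd_supp {η : E → ℝ} (i : Fin 3) {x : E} (hx : x ∉ tsupport η) : pd i η x = 0 := by
  have : fderiv ℝ η x = 0 := by
    have := support_fderiv_subset ℝ (f := η)
    by_contra h
    exact hx (this h)
  simp [pd, this]

theorem chain_lip {F : ℝ → ℝ} (hF : ContDiff ℝ 1 F) {L : ℝ} (hL : ∀ s, |deriv F s| ≤ L) (a b : ℝ) :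
    |F a - F b| ≤ L * |a - b| := by
  have h := Convex.norm_image_sub_le_of_norm_deriv_le (s := (univ : Set ℝ)) (f := F) (C := L)
    (fun x _ => (hF.differentiable (by simp)) x) (fun x _ => hL x) convex_univ (mem_univ b) (mem_univ a)
  simpa using h

/-- classical integration by parts for `F ∘ f` -/
theorem chain_classical {f : E → ℝ} (hf : ContDiff ℝ ∞ f) {F : ℝ → ℝ} (hF : ContDiff ℝ 1 F)
    {η : E → ℝ} (hη : ContDiff ℝ ∞ η) (hηc : HasCompactSupport η) (i : Fin 3) :
    ∫ x, F (f x) * pd i η x = -∫ x, deriv F (f x) * gr f x i * η x := by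
  have hFf : ContDiff ℝ 1 (fun x => F (f x)) := hF.comp (hf.of_le (by simp))
  have hη1 : ContDiff ℝ 1 η := hη.of_le (by simp)
  have hd : ∀ x, fderiv ℝ (fun x => F (f x)) x (EuclideanSpace.single i (1 : ℝ))
      = deriv F (f x) * gr f x i := by
    intro x
    have h1 : HasDerivAt F (deriv F (f x)) (f x) :=
      ((hF.differentiable (by simp)) (f x)).hasDerivAt
    have h2 : HasFDerivAt f (fderiv ℝ f x) x := ((hf.differentiable (by simp)) x).hasFDerivAt
    have h3 := h1.comp_hasFDerivAt x h2
    have h4 : fderiv ℝ (fun x => F (f x)) x = deriv F (f x) • fderiv ℝ f x := h3.fderiv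
    rw [h4, chain_gr_apply]
    simp [pd]
  have hc1 : Continuous (fun x => fderiv ℝ (fun x => F (f x)) x (EuclideanSpace.single i (1 : ℝ))) :=
    (hFf.continuous_fderiv (by simp)).clm_apply continuous_const
  have hpc : HasCompactSupport (pd i η) := by
    have := hηc.fderiv_apply (𝕜 := ℝ) (v := EuclideanSpace.single i (1 : ℝ))
    exact this
  have key := integral_mul_fderiv_eq_neg_fderiv_mul_of_integrable (μ := (volume : Measure E))
    (f := fun x => F (f x)) (g := η) (v := EuclideanSpace.single i (1 : ℝ))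
    ((hc1.mul hη.continuous).integrable_of_hasCompactSupport hηc.mul_left)
    ((hFf.continuous.mul (chain_pd_cont hη i)).integrable_of_hasCompactSupport hpc.mul_left)
    ((hFf.continuous.mul hη.continuous).integrable_of_hasCompactSupport hηc.mul_left)
    (fun x _ => (hFf.differentiable (by simp)) x) (fun x _ => (hη1.differentiable (by simp)) x)
  have e1 : (fun x => F (f x) * pd i η x)
      = fun x => F (f x) * fderiv ℝ η x (EuclideanSpace.single i (1 : ℝ)) := rfl
  rw [e1, key]
  congr 1
  refine integral_congr_ae (Eventually.of_forall fun x => ?_)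
  simp only [hd x]

theorem wgrad_comp {O : Set E} (hO : IsOpen O) {ψ : E → ℝ} {G : E → E} (hψ : LpL 1 O ψ)
    (hG : LpL 1 O G) (h : WGrad O ψ G) {F : ℝ → ℝ} (hF : ContDiff ℝ 1 F) {L : ℝ}
    (hL : ∀ s, |deriv F s| ≤ L) :
    WGrad O (fun x => F (ψ x)) (fun x => deriv F (ψ x) • G x) := by
  rintro η ⟨hη, hηc, hηO⟩ i
  have hK : IsCompact (tsupport η) := hηc
  obtain ⟨f, hfs, -, -, hf1, hg1, hfae, -, -⟩ :=
    approx hO le_rfl ENNReal.one_ne_top hψ hG h hK hηO
  set K := tsupport η with hKdef
  have hψK : MemLp ψ 1 (volume.restrict K) := hψ K hK hηO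
  have hGK : MemLp G 1 (volume.restrict K) := hG K hK hηO
  have hL0 : 0 ≤ L := (abs_nonneg _).trans (hL 0)
  have : IsFiniteMeasure (volume.restrict K : Measure E) :=
    ⟨by rw [Measure.restrict_apply_univ]; exact hK.measure_lt_top⟩
  -- bounds of `η` and `pd i η`
  obtain ⟨M, hM⟩ : ∃ M : ℝ, ∀ x, |η x| ≤ M := by
    obtain ⟨M, hM⟩ := hηc.exists_bound_of_continuous hη.continuous
    exact ⟨M, hM⟩
  have hpc : HasCompactSupport (pd i η) := by
    have := hηc.fderiv_apply (𝕜 := ℝ) (v := EuclideanSpace.single i (1 : ℝ))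
    exact this
  obtain ⟨N, hN⟩ : ∃ N : ℝ, ∀ x, |pd i η x| ≤ N := by
    obtain ⟨N, hN⟩ := hpc.exists_bound_of_continuous (chain_pd_cont hη i)
    exact ⟨N, hN⟩
  have hM0 : 0 ≤ M := (abs_nonneg _).trans (hM 0)
  have hN0 : 0 ≤ N := (abs_nonneg _).trans (hN 0)
  -- restriction to `K`
  have rK1 : ∀ u : E → ℝ, ∫ x, u x * pd i η x = ∫ x in K, u x * pd i η x := by
    intro u
    refine (setIntegral_eq_integral_of_forall_compl_eq_zero fun x hx => ?_).symm
    rw [chain_pd_supp i hx, mul_zero]
  have rK2 : ∀ u : E → ℝ, ∫ x, u x * η x = ∫ x in K, u x * η x := by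
    intro u
    refine (setIntegral_eq_integral_of_forall_compl_eq_zero fun x hx => ?_).symm
    rw [image_eq_zero_of_notMem_tsupport hx, mul_zero]
  -- integrability
  have hFψ : Integrable (fun x => F (ψ x)) (volume.restrict K) := by
    have hm : AEStronglyMeasurable (fun x => F (ψ x)) (volume.restrict K) :=
      hF.continuous.comp_aestronglyMeasurable hψK.1
    have hb : Integrable (fun x => |F 0| + L * |ψ x|) (volume.restrict K) :=
      (integrable_const _).add ((memLp_one_iff_integrable.1 hψK).norm.const_mul L)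
    refine hb.mono' hm (Eventually.of_forall fun x => ?_)
    have h1 := chain_lip hF hL (ψ x) 0
    rw [sub_zero] at h1
    have h2 : |F (ψ x)| ≤ |F 0| + |F (ψ x) - F 0| := by
      have := abs_add_le (F 0) (F (ψ x) - F 0)
      simpa using this
    rw [Real.norm_eq_abs]
    linarith
  have hmη : AEStronglyMeasurable η (volume.restrict K) := hη.continuous.aestronglyMeasurable
  have hmp : AEStronglyMeasurable (pd i η) (volume.restrict K) :=
    (chain_pd_cont hη i).aestronglyMeasurable
  have hGi : Integrable (fun x => G x i) (volume.restrict K) := by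
    refine (memLp_one_iff_integrable.1 hGK).norm.mono' (chain_coord_meas hGK.1 i)
      (Eventually.of_forall fun x => ?_)
    exact chain_coord_le (G x) i
  -- left-hand side
  have L1 : Tendsto (fun n => ∫ x in K, F (f n x) * pd i η x) atTop
      (𝓝 (∫ x in K, F (ψ x) * pd i η x)) := by
    have hd : Tendsto (fun n => eLpNorm (fun x => F (f n x) - F (ψ x)) 1 (volume.restrict K)) atTop
        (𝓝 0) := by
      have h1 : Tendsto (fun n => ENNReal.ofReal L * eLpNorm (fun x => f n x - ψ x) 1
          (volume.restrict K)) atTop (𝓝 0) := by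
        have := ENNReal.Tendsto.const_mul hf1 (a := ENNReal.ofReal L)
          (Or.inr ENNReal.ofReal_ne_top)
        simpa using this
      refine tendsto_of_tendsto_of_tendsto_of_le_of_le tendsto_const_nhds h1
        (fun n => zero_le) ?_
      intro n
      refine eLpNorm_le_mul_eLpNorm_of_ae_le_mul (Eventually.of_forall fun x => ?_) 1
      rw [Real.norm_eq_abs, Real.norm_eq_abs]
      exact chain_lip hF hL _ _
    have h2 := chain_tendsto_zero hd (b := fun _ => pd i η) (C := N) (fun _ x => hN x)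
    have h3 : Tendsto (fun n => (∫ x in K, (F (f n x) - F (ψ x)) * pd i η x)
        + ∫ x in K, F (ψ x) * pd i η x) atTop (𝓝 (0 + ∫ x in K, F (ψ x) * pd i η x)) :=
      h2.add tendsto_const_nhds
    rw [zero_add] at h3
    refine h3.congr fun n => ?_
    have i1 : Integrable (fun x => F (ψ x) * pd i η x) (volume.restrict K) :=
      hFψ.mul_bdd (c := N) hmp (Eventually.of_forall fun x => hN x)
    have i2 : Integrable (fun x => F (f n x) * pd i η x) (volume.restrict K) :=
      ((hF.continuous.comp (hfs n).continuous).mul (chain_pd_cont hη i)).continuousOn.integrableOn_compact hK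
    rw [← integral_add]
    · refine integral_congr_ae (Eventually.of_forall fun x => ?_)
      simp only
      ring
    · refine (i2.sub i1).congr (Eventually.of_forall fun x => ?_)
      simp only [Pi.sub_apply]
      ring
    · exact i1
  -- right-hand side
  have R1 : Tendsto (fun n => ∫ x in K, deriv F (f n x) * gr (f n) x i * η x) atTop
      (𝓝 (∫ x in K, deriv F (ψ x) * G x i * η x)) := by
    have hdc : Continuous (deriv F) := hF.continuous_deriv (by simp)
    have hd : Tendsto (fun n => eLpNorm (fun x => gr (f n) x i - G x i) 1 (volume.restrict K)) atTop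
        (𝓝 0) := by
      refine tendsto_of_tendsto_of_tendsto_of_le_of_le tendsto_const_nhds hg1
        (fun n => zero_le) ?_
      intro n
      refine eLpNorm_mono_ae (Eventually.of_forall fun x => ?_)
      have := chain_coord_le (gr (f n) x - G x) i
      simpa using this
    have h2 := chain_tendsto_zero hd (b := fun n x => deriv F (f n x) * η x) (C := L * M)
      (fun n x => by
        rw [abs_mul]
        exact mul_le_mul (hL _) (hM x) (abs_nonneg _) hL0)
    have h3 : Tendsto (fun n => ∫ x in K, deriv F (f n x) * G x i * η x) atTop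
        (𝓝 (∫ x in K, deriv F (ψ x) * G x i * η x)) := by
      refine tendsto_integral_of_dominated_convergence (fun x => L * M * ‖G x i‖) ?_ ?_ ?_ ?_
      · intro n
        exact (((hdc.comp (hfs n).continuous).aestronglyMeasurable).mul
          (chain_coord_meas hGK.1 i)).mul hmη
      · exact hGi.norm.const_mul _
      · intro n
        refine Eventually.of_forall fun x => ?_
        rw [norm_mul, norm_mul]
        have a1 : ‖deriv F (f n x)‖ ≤ L := hL _
        have a2 : ‖η x‖ ≤ M := hM x
        calc ‖deriv F (f n x)‖ * ‖G x i‖ * ‖η x‖ ≤ L * ‖G x i‖ * M := by gcongr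
          _ = L * M * ‖G x i‖ := by ring
      · filter_upwards [hfae] with x hx
        exact (((hdc.tendsto _).comp hx).mul_const _).mul_const _
    have h4 := h2.add h3
    rw [zero_add] at h4
    refine h4.congr fun n => ?_
    have i1 : Integrable (fun x => deriv F (f n x) * G x i * η x) (volume.restrict K) := by
      have : Integrable (fun x => G x i * (deriv F (f n x) * η x)) (volume.restrict K) := by
        refine hGi.mul_bdd (c := L * M)
          (((hdc.comp (hfs n).continuous).aestronglyMeasurable).mul hmη)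
          (Eventually.of_forall fun x => ?_)
        rw [norm_mul]
        exact mul_le_mul (hL _) (hM x) (norm_nonneg _) hL0
      refine this.congr (Eventually.of_forall fun x => ?_)
      simp only
      ring
    have hgrc : Continuous (fun x => gr (f n) x i) := by
      have : (fun x => gr (f n) x i) = pd i (f n) := by
        funext x
        exact chain_gr_apply _ _ _
      rw [this]
      exact chain_pd_cont (hfs n) i
    have i2 : Integrable (fun x => deriv F (f n x) * gr (f n) x i * η x) (volume.restrict K) :=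
      (((hdc.comp (hfs n).continuous).mul hgrc).mul hη.continuous).continuousOn.integrableOn_compact hK
    rw [← integral_add]
    · refine integral_congr_ae (Eventually.of_forall fun x => ?_)
      simp only
      ring
    · refine (i2.sub i1).congr (Eventually.of_forall fun x => ?_)
      simp only [Pi.sub_apply]
      ring
    · exact i1
  have E1 : ∀ n, ∫ x in K, F (f n x) * pd i η x
      = -∫ x in K, deriv F (f n x) * gr (f n) x i * η x := by
    intro n
    have := chain_classical (hfs n) hF hη hηc i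
    rw [rK1 (fun x => F (f n x)), rK2 (fun x => deriv F (f n x) * gr (f n) x i)] at this
    exact this
  have R2 := R1.neg
  have L2 : Tendsto (fun n => -∫ x in K, deriv F (f n x) * gr (f n) x i * η x) atTop
      (𝓝 (∫ x in K, F (ψ x) * pd i η x)) := L1.congr E1
  have := tendsto_nhds_unique L2 R2
  show ∫ x, F (ψ x) * pd i η x = -∫ x, (deriv F (ψ x) • G x) i * η x
  have e2 : (fun x => (deriv F (ψ x) • G x) i * η x) = fun x => deriv F (ψ x) * G x i * η x := by
    funext x
    simp
  rw [e2, rK1 (fun x => F (ψ x)), rK2 (fun x => deriv F (ψ x) * G x i)]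
  exact this

/-! ### positive part -/

theorem chain_sq_deriv (s : ℝ) : HasDerivAt (fun t : ℝ => (max t 0) ^ 2) (2 * max s 0) s := by
  rcases lt_trichotomy s 0 with hs | hs | hs
  · have h1 : (fun t : ℝ => (max t 0) ^ 2) =ᶠ[𝓝 s] fun _ => (0 : ℝ) := by
      filter_upwards [Iio_mem_nhds hs] with t ht
      rw [max_eq_right (le_of_lt ht)]
      norm_num
    rw [max_eq_right hs.le, mul_zero]
    exact (hasDerivAt_const s (0 : ℝ)).congr_of_eventuallyEq h1
  · subst hs
    rw [max_self, mul_zero]
    rw [hasDerivAt_iff_isLittleO]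
    simp only [max_self, sub_zero, smul_zero]
    have h1 : (fun t : ℝ => (max t 0) ^ 2 - 0 ^ 2) =O[𝓝 0] fun t : ℝ => t ^ 2 := by
      refine Asymptotics.IsBigO.of_bound 1 (Eventually.of_forall fun t => ?_)
      have e0 : (max t 0) ^ 2 - 0 ^ 2 = (max t 0) ^ 2 := by ring
      rw [one_mul, Real.norm_eq_abs, Real.norm_eq_abs, e0]
      rw [abs_of_nonneg (by positivity), abs_of_nonneg (by positivity)]
      rcases le_total t 0 with ht | ht
      · rw [max_eq_right ht]
        nlinarith [sq_nonneg t]
      · rw [max_eq_left ht]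
    have h2 : (fun t : ℝ => t ^ 2) =o[𝓝 0] fun t : ℝ => t := by
      have := Asymptotics.isLittleO_pow_id (𝕜 := ℝ) (n := 2) (by norm_num)
      simpa using this
    exact h1.trans_isLittleO h2
  · have h1 : (fun t : ℝ => (max t 0) ^ 2) =ᶠ[𝓝 s] fun t => t ^ 2 := by
      filter_upwards [Ioi_mem_nhds hs] with t ht
      rw [max_eq_left (le_of_lt ht)]
    rw [max_eq_left hs.le]
    have h2 := (hasDerivAt_pow 2 s).congr_of_eventuallyEq h1
    simpa using h2

/-- the regularised positive part -/
noncomputable def regPos (ε : ℝ) (s : ℝ) : ℝ := Real.sqrt ((max s 0) ^ 2 + ε ^ 2) - ε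

theorem regPos_deriv {ε : ℝ} (hε : 0 < ε) (s : ℝ) :
    HasDerivAt (regPos ε) (max s 0 / Real.sqrt ((max s 0) ^ 2 + ε ^ 2)) s := by
  have h1 := (chain_sq_deriv s).add_const (ε ^ 2)
  have hp : 0 < (max s 0) ^ 2 + ε ^ 2 := by positivity
  have h2 := (h1.sqrt hp.ne').sub_const ε
  refine h2.congr_deriv ?_
  have : Real.sqrt ((max s 0) ^ 2 + ε ^ 2) ≠ 0 := (Real.sqrt_pos.2 hp).ne'
  field_simp

theorem regPos_contDiff {ε : ℝ} (hε : 0 < ε) : ContDiff ℝ 1 (regPos ε) := by
  rw [contDiff_one_iff_deriv]
  refine ⟨fun s => (regPos_deriv hε s).differentiableAt, ?_⟩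
  have : deriv (regPos ε) = fun s => max s 0 / Real.sqrt ((max s 0) ^ 2 + ε ^ 2) := by
    funext s
    exact (regPos_deriv hε s).deriv
  rw [this]
  refine Continuous.div (by fun_prop) (by fun_prop) fun s => ?_
  exact (Real.sqrt_pos.2 (by positivity)).ne'

theorem regPos_deriv_eq {ε : ℝ} (hε : 0 < ε) (s : ℝ) :
    deriv (regPos ε) s = max s 0 / Real.sqrt ((max s 0) ^ 2 + ε ^ 2) :=
  (regPos_deriv hε s).deriv

theorem regPos_deriv_abs {ε : ℝ} (hε : 0 < ε) (s : ℝ) : |deriv (regPos ε) s| ≤ 1 := by
  rw [regPos_deriv_eq hε]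
  have h1 : max s 0 ≤ Real.sqrt ((max s 0) ^ 2 + ε ^ 2) := by
    refine Real.le_sqrt_of_sq_le ?_
    nlinarith [sq_nonneg ε]
  have h2 : (0 : ℝ) ≤ max s 0 := le_max_right _ _
  rw [abs_of_nonneg (div_nonneg h2 (Real.sqrt_nonneg _))]
  refine div_le_one_of_le₀ h1 (Real.sqrt_nonneg _)

theorem regPos_abs {ε : ℝ} (hε : 0 < ε) (s : ℝ) : |regPos ε s| ≤ |s| := by
  have h0 : regPos ε 0 = 0 := by
    simp [regPos, Real.sqrt_sq hε.le]
  have h1 := chain_lip (regPos_contDiff hε) (regPos_deriv_abs hε) s 0
  rw [h0] at h1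
  simpa using h1

theorem regPos_tendsto (s : ℝ) {e : ℕ → ℝ} (he : Tendsto e atTop (𝓝 0)) :
    Tendsto (fun n => regPos (e n) s) atTop (𝓝 (max s 0)) := by
  have h1 : Tendsto (fun n => Real.sqrt ((max s 0) ^ 2 + (e n) ^ 2) - e n) atTop
      (𝓝 (Real.sqrt ((max s 0) ^ 2 + 0 ^ 2) - 0)) :=
    (Tendsto.sqrt (tendsto_const_nhds.add (he.pow 2))).sub he
  have h2 : Real.sqrt ((max s 0) ^ 2 + 0 ^ 2) - 0 = max s 0 := by
    rw [zero_pow two_ne_zero, add_zero, sub_zero, Real.sqrt_sq (le_max_right _ _)]
  rw [h2] at h1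
  exact h1

theorem regPos_deriv_tendsto (s : ℝ) {e : ℕ → ℝ} (he0 : ∀ n, 0 < e n) (he : Tendsto e atTop (𝓝 0)) :
    Tendsto (fun n => deriv (regPos (e n)) s) atTop (𝓝 (if 0 < s then 1 else 0)) := by
  by_cases hs : 0 < s
  · rw [if_pos hs]
    have h1 : Tendsto (fun n => max s 0 / Real.sqrt ((max s 0) ^ 2 + (e n) ^ 2)) atTop
        (𝓝 (max s 0 / Real.sqrt ((max s 0) ^ 2 + 0 ^ 2))) := by
      refine Tendsto.div tendsto_const_nhds
        (Tendsto.sqrt (tendsto_const_nhds.add (he.pow 2))) ?_
      rw [max_eq_left hs.le]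
      positivity
    have h2 : max s 0 / Real.sqrt ((max s 0) ^ 2 + 0 ^ 2) = 1 := by
      rw [zero_pow two_ne_zero, add_zero, Real.sqrt_sq (le_max_right _ _), max_eq_left hs.le]
      exact div_self hs.ne'
    rw [h2] at h1
    refine h1.congr fun n => ?_
    rw [regPos_deriv_eq (he0 n)]
  · rw [if_neg hs]
    have h1 : ∀ n, deriv (regPos (e n)) s = 0 := by
      intro n
      rw [regPos_deriv_eq (he0 n), max_eq_right (not_lt.1 hs), zero_div]
    simp only [h1]
    exact tendsto_const_nhds

theorem wgrad_pos {O : Set E} (hO : IsOpen O) {ψ : E → ℝ} {G : E → E} (hψ : LpL 1 O ψ)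
    (hG : LpL 1 O G) (h : WGrad O ψ G) : WGrad O (posf ψ) (cutp ψ G) := by
  rintro η ⟨hη, hηc, hηO⟩ i
  have hK : IsCompact (tsupport η) := hηc
  set K := tsupport η with hKdef
  have hψK : MemLp ψ 1 (volume.restrict K) := hψ K hK hηO
  have hGK : MemLp G 1 (volume.restrict K) := hG K hK hηO
  obtain ⟨M, hM⟩ : ∃ M : ℝ, ∀ x, |η x| ≤ M := by
    obtain ⟨M, hM⟩ := hηc.exists_bound_of_continuous hη.continuous
    exact ⟨M, hM⟩
  have hpc : HasCompactSupport (pd i η) := by
    have := hηc.fderiv_apply (𝕜 := ℝ) (v := EuclideanSpace.single i (1 : ℝ))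
    exact this
  obtain ⟨N, hN⟩ : ∃ N : ℝ, ∀ x, |pd i η x| ≤ N := by
    obtain ⟨N, hN⟩ := hpc.exists_bound_of_continuous (chain_pd_cont hη i)
    exact ⟨N, hN⟩
  have hM0 : 0 ≤ M := (abs_nonneg _).trans (hM 0)
  have hN0 : 0 ≤ N := (abs_nonneg _).trans (hN 0)
  have rK1 : ∀ u : E → ℝ, ∫ x, u x * pd i η x = ∫ x in K, u x * pd i η x := by
    intro u
    refine (setIntegral_eq_integral_of_forall_compl_eq_zero fun x hx => ?_).symm
    rw [chain_pd_supp i hx, mul_zero]
  have rK2 : ∀ u : E → ℝ, ∫ x, u x * η x = ∫ x in K, u x * η x := by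
    intro u
    refine (setIntegral_eq_integral_of_forall_compl_eq_zero fun x hx => ?_).symm
    rw [image_eq_zero_of_notMem_tsupport hx, mul_zero]
  have hmη : AEStronglyMeasurable η (volume.restrict K) := hη.continuous.aestronglyMeasurable
  have hmp : AEStronglyMeasurable (pd i η) (volume.restrict K) :=
    (chain_pd_cont hη i).aestronglyMeasurable
  have hGi : Integrable (fun x => G x i) (volume.restrict K) := by
    refine (memLp_one_iff_integrable.1 hGK).norm.mono' (chain_coord_meas hGK.1 i)
      (Eventually.of_forall fun x => ?_)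
    exact chain_coord_le (G x) i
  set e : ℕ → ℝ := fun n => 1 / ((n : ℝ) + 1) with he
  have he0 : ∀ n, 0 < e n := fun n => by
    simp only [he]
    positivity
  have het : Tendsto e atTop (𝓝 0) := tendsto_one_div_add_atTop_nhds_zero_nat
  have E1 : ∀ n, ∫ x in K, regPos (e n) (ψ x) * pd i η x
      = -∫ x in K, deriv (regPos (e n)) (ψ x) * G x i * η x := by
    intro n
    have h1 := wgrad_comp hO hψ hG h (regPos_contDiff (he0 n)) (regPos_deriv_abs (he0 n)) η
      ⟨hη, hηc, hηO⟩ i
    have e2 : (fun x => (deriv (regPos (e n)) (ψ x) • G x) i * η x)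
        = fun x => deriv (regPos (e n)) (ψ x) * G x i * η x := by
      funext x
      simp
    rw [e2, rK1 (fun x => regPos (e n) (ψ x)), rK2 (fun x => deriv (regPos (e n)) (ψ x) * G x i)]
      at h1
    exact h1
  have L1 : Tendsto (fun n => ∫ x in K, regPos (e n) (ψ x) * pd i η x) atTop
      (𝓝 (∫ x in K, posf ψ x * pd i η x)) := by
    refine tendsto_integral_of_dominated_convergence (fun x => N * ‖ψ x‖) ?_ ?_ ?_ ?_
    · intro n
      exact ((regPos_contDiff (he0 n)).continuous.comp_aestronglyMeasurable hψK.1).mul hmp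
    · exact (memLp_one_iff_integrable.1 hψK).norm.const_mul _
    · intro n
      refine Eventually.of_forall fun x => ?_
      rw [norm_mul]
      have a1 : ‖regPos (e n) (ψ x)‖ ≤ ‖ψ x‖ := regPos_abs (he0 n) _
      have a2 : ‖pd i η x‖ ≤ N := hN x
      calc ‖regPos (e n) (ψ x)‖ * ‖pd i η x‖ ≤ ‖ψ x‖ * N := by gcongr
        _ = N * ‖ψ x‖ := by ring
    · refine Eventually.of_forall fun x => ?_
      exact (regPos_tendsto (ψ x) het).mul_const _
  have R1 : Tendsto (fun n => ∫ x in K, deriv (regPos (e n)) (ψ x) * G x i * η x) atTop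
      (𝓝 (∫ x in K, cutp ψ G x i * η x)) := by
    refine tendsto_integral_of_dominated_convergence (fun x => M * ‖G x i‖) ?_ ?_ ?_ ?_
    · intro n
      have hdc : Continuous (deriv (regPos (e n))) :=
        (regPos_contDiff (he0 n)).continuous_deriv (by simp)
      exact ((hdc.comp_aestronglyMeasurable hψK.1).mul (chain_coord_meas hGK.1 i)).mul hmη
    · exact hGi.norm.const_mul _
    · intro n
      refine Eventually.of_forall fun x => ?_
      rw [norm_mul, norm_mul]
      have a1 : ‖deriv (regPos (e n)) (ψ x)‖ ≤ 1 := regPos_deriv_abs (he0 n) _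
      have a2 : ‖η x‖ ≤ M := hM x
      calc ‖deriv (regPos (e n)) (ψ x)‖ * ‖G x i‖ * ‖η x‖ ≤ 1 * ‖G x i‖ * M := by gcongr
        _ = M * ‖G x i‖ := by ring
    · refine Eventually.of_forall fun x => ?_
      have h1 := ((regPos_deriv_tendsto (ψ x) he0 het).mul_const (G x i)).mul_const (η x)
      have h2 : (if 0 < ψ x then (1 : ℝ) else 0) * G x i * η x = cutp ψ G x i * η x := by
        by_cases hx : 0 < ψ x
        · simp [cutp, hx]
        · simp [cutp, hx]
      rw [h2] at h1
      exact h1
  have R2 := R1.neg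
  have L2 : Tendsto (fun n => -∫ x in K, deriv (regPos (e n)) (ψ x) * G x i * η x) atTop
      (𝓝 (∫ x in K, posf ψ x * pd i η x)) := L1.congr E1
  have := tendsto_nhds_unique L2 R2
  rw [rK1 (posf ψ), rK2 (fun x => cutp ψ G x i)]
  exact this

end Pool.CQ
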