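import Pool.Agent.Lib.MP_cd5b91_an.CQ.VMoll
import Pool.Agent.Lib.MP_cd5b91_an.CQ.CurlMoll

/-!
# CQ-Liou: fields in `L²` without curl and divergence vanish
-/

open MeasureTheory Filter Topology Set
open scoped ContDiff RealInnerProductSpace ENNReal

namespace Pool.CQ

private theorem li_pd_smooth {η : E → ℝ} (hη : ContDiff ℝ ∞ η) (i : Fin 3) : ContDiff ℝ ∞ (pd i η) := by
  have h1 : ContDiff ℝ ∞ (fderiv ℝ η) := hη.fderiv_right (by simp)
  exact h1.clm_apply contDiff_const

private theorem li_pd_zero {η : E → ℝ} {x : E} (h : η =ᶠ[𝓝 x] fun _ => 0) (i : Fin 3) : pd i η x = 0 := by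
  unfold pd
  rw [h.fderiv_eq]
  simp

private theorem li_ev {η : E → ℝ} {x : E} (hx : x ∉ tsupport η) : η =ᶠ[𝓝 x] fun _ => 0 :=
  notMem_tsupport_iff_eventuallyEq.1 hx

private theorem li_pd_cs {η : E → ℝ} (hη : HasCompactSupport η) (i : Fin 3) : HasCompactSupport (pd i η) :=
  HasCompactSupport.intro hη fun _ hx => li_pd_zero (li_ev hx) i

private theorem li_coord {φ : E → E} (hφ : ContDiff ℝ ∞ φ) (j : Fin 3) : ContDiff ℝ ∞ (fun y => φ y j) :=
  (EuclideanSpace.proj (𝕜 := ℝ) j).contDiff.comp hφ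

private theorem li_pd_pd {η : E → ℝ} (hη : ContDiff ℝ ∞ η) (i j : Fin 3) (x : E) :
    pd i (pd j η) x = fderiv ℝ (fderiv ℝ η) x (EuclideanSpace.single i (1 : ℝ))
      (EuclideanSpace.single j (1 : ℝ)) := by
  have h1 : ContDiff ℝ ∞ (fderiv ℝ η) := hη.fderiv_right (by simp)
  have h2 : HasFDerivAt (fderiv ℝ η) (fderiv ℝ (fderiv ℝ η) x) x :=
    ((h1.differentiable (by simp)) x).hasFDerivAt
  have h3 : HasFDerivAt (pd j η)
      ((ContinuousLinearMap.apply ℝ ℝ (EuclideanSpace.single j (1 : ℝ) : E)).comp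
        (fderiv ℝ (fderiv ℝ η) x)) x :=
    (ContinuousLinearMap.apply ℝ ℝ (EuclideanSpace.single j (1 : ℝ) : E)).hasFDerivAt.comp x h2
  have h4 : fderiv ℝ (pd j η) x = (ContinuousLinearMap.apply ℝ ℝ (EuclideanSpace.single j (1 : ℝ) : E)).comp
      (fderiv ℝ (fderiv ℝ η) x) := h3.fderiv
  show fderiv ℝ (pd j η) x (EuclideanSpace.single i (1 : ℝ)) = _
  rw [h4]
  rfl

private theorem li_symm {η : E → ℝ} (hη : ContDiff ℝ ∞ η) (i j : Fin 3) (x : E) :
    pd i (pd j η) x = pd j (pd i η) x := by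
  have h : IsSymmSndFDerivAt ℝ η x := hη.contDiffAt.isSymmSndFDerivAt
    (by
      rw [minSmoothness_of_isRCLikeNormedField]
      exact WithTop.coe_le_coe.2 (le_top : (2 : ℕ∞) ≤ ⊤))
  rw [li_pd_pd hη, li_pd_pd hη]
  exact h _ _

private theorem li_ibp {f g : E → ℝ} (hf : ContDiff ℝ ∞ f) (hfc : HasCompactSupport f) (hg : ContDiff ℝ ∞ g)
    (i : Fin 3) :
    Integrable (fun x => f x * pd i g x) volume ∧ Integrable (fun x => pd i f x * g x) volume ∧
      ∫ x, f x * pd i g x = -∫ x, pd i f x * g x := by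
  have i1 : Integrable (fun x => f x * pd i g x) volume :=
    (hf.continuous.mul (li_pd_smooth hg i).continuous).integrable_of_hasCompactSupport hfc.mul_right
  have i2 : Integrable (fun x => pd i f x * g x) volume :=
    ((li_pd_smooth hf i).continuous.mul hg.continuous).integrable_of_hasCompactSupport
      (li_pd_cs hfc i).mul_right
  have i3 : Integrable (fun x => f x * g x) volume :=
    (hf.continuous.mul hg.continuous).integrable_of_hasCompactSupport hfc.mul_right
  exact ⟨i1, i2, integral_mul_fderiv_eq_neg_fderiv_mul_of_integrable (μ := (volume : Measure E))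
    (f := f) (g := g) (v := EuclideanSpace.single i (1 : ℝ)) i2 i1 i3
    (fun x _ => (hf.differentiable (by simp)) x) (fun x _ => (hg.differentiable (by simp)) x)⟩

private theorem li_pd_mul {f g : E → ℝ} (hf : ContDiff ℝ ∞ f) (hg : ContDiff ℝ ∞ g) (i : Fin 3) (x : E) :
    pd i (fun y => f y * g y) x = pd i f x * g x + f x * pd i g x := by
  have h1 : HasFDerivAt f (fderiv ℝ f x) x := ((hf.differentiable (by simp)) x).hasFDerivAt
  have h2 : HasFDerivAt g (fderiv ℝ g x) x := ((hg.differentiable (by simp)) x).hasFDerivAt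
  have h3 : HasFDerivAt (fun y => f y * g y) _ x := h1.mul h2
  unfold pd
  rw [h3.fderiv]
  simp
  ring

private theorem li_pd_add {f g : E → ℝ} (hf : ContDiff ℝ ∞ f) (hg : ContDiff ℝ ∞ g) (i : Fin 3) (x : E) :
    pd i (fun y => f y + g y) x = pd i f x + pd i g x := by
  have h1 : HasFDerivAt f (fderiv ℝ f x) x := ((hf.differentiable (by simp)) x).hasFDerivAt
  have h2 : HasFDerivAt g (fderiv ℝ g x) x := ((hg.differentiable (by simp)) x).hasFDerivAt
  have h3 : HasFDerivAt (fun y => f y + g y) _ x := h1.add h2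
  unfold pd
  rw [h3.fderiv]
  simp

private theorem li_fderiv_zero {f : E → ℝ} {x : E} (h : ∀ i, pd i f x = 0) : fderiv ℝ f x = 0 := by
  ext v
  have hv : v = ∑ i, v i • (EuclideanSpace.single i (1 : ℝ) : E) := by
    ext j
    fin_cases j <;> simp [Fin.sum_univ_three]
  rw [hv, map_sum]
  simp only [map_smul]
  have h' : ∀ i, fderiv ℝ f x (EuclideanSpace.single i (1 : ℝ)) = 0 := h
  simp [h']

private theorem li_int3 {f1 f2 f3 : E → ℝ} (h1 : Integrable f1 volume) (h2 : Integrable f2 volume)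
    (h3 : Integrable f3 volume) :
    Integrable (fun x => f1 x + f2 x + f3 x) volume ∧
      ∫ x, (f1 x + f2 x + f3 x) = (∫ x, f1 x) + (∫ x, f2 x) + ∫ x, f3 x := by
  have a1 : Integrable (fun x => f1 x + f2 x) volume := h1.add h2
  exact ⟨a1.add h3, by rw [integral_add a1 h3, integral_add h1 h2]⟩

/-- the cutoff function -/
private noncomputable def zb : ContDiffBump (0 : E) := ⟨1, 2, one_pos, one_lt_two⟩

private noncomputable def ze (n : ℕ) (x : E) : ℝ := zb (((n : ℝ) + 1)⁻¹ • x)

private theorem ze_smooth (n : ℕ) : ContDiff ℝ ∞ (ze n) :=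
  zb.contDiff.comp (contDiff_const_smul _)

private theorem ze_compact (n : ℕ) : HasCompactSupport (ze n) := by
  have h : ((n : ℝ) + 1)⁻¹ ≠ 0 := by positivity
  exact zb.hasCompactSupport.comp_homeomorph (Homeomorph.smulOfNeZero _ h)

private theorem ze_one {n : ℕ} {x : E} (hx : ‖x‖ ≤ (n : ℝ) + 1) : ze n x = 1 := by
  unfold ze
  refine zb.one_of_mem_closedBall ?_
  rw [mem_closedBall_zero_iff, norm_smul, Real.norm_of_nonneg (by positivity)]
  rw [inv_mul_le_iff₀ (by positivity)]
  have : zb.rIn = 1 := rfl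
  rw [this, mul_one]
  exact hx

private theorem pd_ze (n : ℕ) (i : Fin 3) (x : E) :
    pd i (ze n) x = ((n : ℝ) + 1)⁻¹ * pd i (fun y => zb y) (((n : ℝ) + 1)⁻¹ • x) := by
  have hzs : ContDiff ℝ ∞ (fun y : E => zb y) := zb.contDiff
  have hd : HasFDerivAt (fun y => zb y) (fderiv ℝ (fun y => zb y) (((n : ℝ) + 1)⁻¹ • x))
      (((n : ℝ) + 1)⁻¹ • x) :=
    (hzs.differentiable (by simp)).differentiableAt.hasFDerivAt
  have h1 : HasFDerivAt (fun z : E => ((n : ℝ) + 1)⁻¹ • z)
      (((n : ℝ) + 1)⁻¹ • ContinuousLinearMap.id ℝ E) x :=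
    (((n : ℝ) + 1)⁻¹ • ContinuousLinearMap.id ℝ E).hasFDerivAt
  have h2 : HasFDerivAt (ze n) ((fderiv ℝ (fun y => zb y) (((n : ℝ) + 1)⁻¹ • x)).comp
      (((n : ℝ) + 1)⁻¹ • ContinuousLinearMap.id ℝ E)) x := HasFDerivAt.comp x hd h1
  unfold pd
  rw [h2.fderiv]
  simp

private theorem pd_ze_bound : ∃ C : ℝ, 0 ≤ C ∧ ∀ (n : ℕ) (i : Fin 3) (x : E),
    (pd i (ze n) x) ^ 2 ≤ C / ((n : ℝ) + 1) ^ 2 := by
  have hs : ContDiff ℝ ∞ (fun y : E => zb y) := zb.contDiff
  have hb : ∀ i : Fin 3, ∃ C : ℝ, ∀ x, ‖pd i (fun y : E => zb y) x‖ ≤ C := fun i =>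
    (li_pd_cs zb.hasCompactSupport i).exists_bound_of_continuous (li_pd_smooth hs i).continuous
  choose C hC using hb
  refine ⟨(|C 0| + |C 1| + |C 2|) ^ 2, by positivity, fun n i x => ?_⟩
  have h1 : |pd i (fun y : E => zb y) (((n : ℝ) + 1)⁻¹ • x)| ≤ |C 0| + |C 1| + |C 2| := by
    refine (hC i _).trans ((le_abs_self _).trans ?_)
    have h0 := abs_nonneg (C 0)
    have h1 := abs_nonneg (C 1)
    have h2 := abs_nonneg (C 2)
    fin_cases i <;> simp <;> linarith
  rw [pd_ze, mul_pow, inv_pow, div_eq_inv_mul]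
  refine mul_le_mul_of_nonneg_left ?_ (by positivity)
  rw [← sq_abs]
  exact pow_le_pow_left₀ (abs_nonneg _) h1 2

private theorem li_cacc {f : E → ℝ} (hf : ContDiff ℝ ∞ f) (h2 : MemLp f 2 volume)
    (hh : ∀ x, pd 0 (pd 0 f) x + pd 1 (pd 1 f) x + pd 2 (pd 2 f) x = 0) :
    ∃ K : ℝ, ∀ n : ℕ, ∫ x, ze n x ^ 2 * (pd 0 f x ^ 2 + pd 1 f x ^ 2 + pd 2 f x ^ 2)
      ≤ K / ((n : ℝ) + 1) ^ 2 := by
  obtain ⟨C, hC0, hC⟩ := pd_ze_bound
  have hf2 : Integrable (fun x => f x ^ 2) volume := h2.integrable_sq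
  refine ⟨12 * C * ∫ x, f x ^ 2, fun n => ?_⟩
  have hz := ze_smooth n
  have hzz : ContDiff ℝ ∞ (fun x => ze n x * ze n x) := hz.mul hz
  have hη : ContDiff ℝ ∞ (fun x => (ze n x * ze n x) * f x) := hzz.mul hf
  have hηc : HasCompactSupport (fun x => (ze n x * ze n x) * f x) :=
    ((ze_compact n).mul_right (f' := ze n)).mul_right
  have hib := fun i : Fin 3 => li_ibp hη hηc (li_pd_smooth hf i) i
  have hsum : ∫ x, (pd 0 (fun x => (ze n x * ze n x) * f x) x * pd 0 f x
      + pd 1 (fun x => (ze n x * ze n x) * f x) x * pd 1 f x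
      + pd 2 (fun x => (ze n x * ze n x) * f x) x * pd 2 f x) = 0 := by
    have e1 : ∫ x, ((ze n x * ze n x) * f x * pd 0 (pd 0 f) x + (ze n x * ze n x) * f x * pd 1 (pd 1 f) x
        + (ze n x * ze n x) * f x * pd 2 (pd 2 f) x) = 0 := by
      rw [← integral_zero E ℝ]
      refine integral_congr_ae (Eventually.of_forall fun x => ?_)
      have := hh x
      show (ze n x * ze n x) * f x * pd 0 (pd 0 f) x + (ze n x * ze n x) * f x * pd 1 (pd 1 f) x
        + (ze n x * ze n x) * f x * pd 2 (pd 2 f) x = 0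
      linear_combination ((ze n x * ze n x) * f x) * this
    rw [(li_int3 (hib 0).1 (hib 1).1 (hib 2).1).2, (hib 0).2.2, (hib 1).2.2, (hib 2).2.2] at e1
    rw [(li_int3 (hib 0).2.1 (hib 1).2.1 (hib 2).2.1).2]
    linarith
  have hg : Continuous (fun x => pd 0 f x ^ 2 + pd 1 f x ^ 2 + pd 2 f x ^ 2) :=
    (((li_pd_smooth hf 0).continuous.pow 2).add ((li_pd_smooth hf 1).continuous.pow 2)).add
      ((li_pd_smooth hf 2).continuous.pow 2)
  have hcs2 : HasCompactSupport (fun x => ze n x ^ 2) := by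
    have : (fun x => ze n x ^ 2) = fun x => ze n x * ze n x := by
      funext x
      ring
    rw [this]
    exact (ze_compact n).mul_right
  have i1 : Integrable (fun x => ze n x ^ 2 * (pd 0 f x ^ 2 + pd 1 f x ^ 2 + pd 2 f x ^ 2)) volume :=
    ((hz.continuous.pow 2).mul hg).integrable_of_hasCompactSupport hcs2.mul_right
  have i3 : Integrable (fun x => (12 * C / ((n : ℝ) + 1) ^ 2) * f x ^ 2) volume := hf2.const_mul _
  have i4 : Integrable (fun x => 2 * (pd 0 (fun x => (ze n x * ze n x) * f x) x * pd 0 f x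
      + pd 1 (fun x => (ze n x * ze n x) * f x) x * pd 1 f x
      + pd 2 (fun x => (ze n x * ze n x) * f x) x * pd 2 f x)) volume :=
    (li_int3 (hib 0).2.1 (hib 1).2.1 (hib 2).2.1).1.const_mul 2
  have hpt : ∀ x, ze n x ^ 2 * (pd 0 f x ^ 2 + pd 1 f x ^ 2 + pd 2 f x ^ 2)
      ≤ 2 * (pd 0 (fun x => (ze n x * ze n x) * f x) x * pd 0 f x
        + pd 1 (fun x => (ze n x * ze n x) * f x) x * pd 1 f x
        + pd 2 (fun x => (ze n x * ze n x) * f x) x * pd 2 f x)
        + (12 * C / ((n : ℝ) + 1) ^ 2) * f x ^ 2 := by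
    intro x
    have hc : ∀ i : Fin 3, ze n x ^ 2 * pd i f x ^ 2
        ≤ 2 * (pd i (fun x => (ze n x * ze n x) * f x) x * pd i f x)
          + (4 * C / ((n : ℝ) + 1) ^ 2) * f x ^ 2 := by
      intro i
      have e1 := li_pd_mul hzz hf i x
      have e2 := li_pd_mul hz hz i x
      have e3 := hC n i x
      rw [e1, e2]
      have e4 : 4 * (pd i (ze n) x) ^ 2 * f x ^ 2 ≤ (4 * C / ((n : ℝ) + 1) ^ 2) * f x ^ 2 := by
        refine mul_le_mul_of_nonneg_right ?_ (sq_nonneg _)
        calc 4 * (pd i (ze n) x) ^ 2 ≤ 4 * (C / ((n : ℝ) + 1) ^ 2) := by linarith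
          _ = 4 * C / ((n : ℝ) + 1) ^ 2 := by ring
      nlinarith [sq_nonneg (ze n x * pd i f x + 2 * pd i (ze n) x * f x)]
    have h0 := hc 0
    have h1 := hc 1
    have h2 := hc 2
    have e5 : (12 * C / ((n : ℝ) + 1) ^ 2) * f x ^ 2 = 3 * ((4 * C / ((n : ℝ) + 1) ^ 2) * f x ^ 2) := by
      ring
    rw [e5]
    linarith
  calc ∫ x, ze n x ^ 2 * (pd 0 f x ^ 2 + pd 1 f x ^ 2 + pd 2 f x ^ 2)
      ≤ ∫ x, (2 * (pd 0 (fun x => (ze n x * ze n x) * f x) x * pd 0 f x
        + pd 1 (fun x => (ze n x * ze n x) * f x) x * pd 1 f x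
        + pd 2 (fun x => (ze n x * ze n x) * f x) x * pd 2 f x)
        + (12 * C / ((n : ℝ) + 1) ^ 2) * f x ^ 2) := integral_mono i1 (i4.add i3) hpt
    _ = 12 * C * (∫ x, f x ^ 2) / ((n : ℝ) + 1) ^ 2 := by
      rw [integral_add i4 i3, integral_const_mul, hsum, integral_const_mul]
      ring

private theorem liou_scalar {f : E → ℝ} (hf : ContDiff ℝ ∞ f) (h2 : MemLp f 2 volume)
    (hh : ∀ x, pd 0 (pd 0 f) x + pd 1 (pd 1 f) x + pd 2 (pd 2 f) x = 0) (x : E) : f x = 0 := by
  obtain ⟨K, hK⟩ := li_cacc hf h2 hh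
  have hg : Continuous (fun x => pd 0 f x ^ 2 + pd 1 f x ^ 2 + pd 2 f x ^ 2) :=
    (((li_pd_smooth hf 0).continuous.pow 2).add ((li_pd_smooth hf 1).continuous.pow 2)).add
      ((li_pd_smooth hf 2).continuous.pow 2)
  have hg0 : ∀ x, 0 ≤ pd 0 f x ^ 2 + pd 1 f x ^ 2 + pd 2 f x ^ 2 := fun x => by positivity
  have hzero : ∀ x0, pd 0 f x0 ^ 2 + pd 1 f x0 ^ 2 + pd 2 f x0 ^ 2 = 0 := by
    intro x0
    by_contra hne
    let b : ContDiffBump x0 := ⟨1 / 2, 1, by norm_num, by norm_num⟩
    have hb : Continuous (fun x => b x * (pd 0 f x ^ 2 + pd 1 f x ^ 2 + pd 2 f x ^ 2)) :=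
      b.continuous.mul hg
    have hbc : HasCompactSupport (fun x => b x * (pd 0 f x ^ 2 + pd 1 f x ^ 2 + pd 2 f x ^ 2)) :=
      b.hasCompactSupport.mul_right
    have hb1 : b x0 = 1 := b.one_of_mem_closedBall (Metric.mem_closedBall_self (by positivity))
    have hpos : 0 < ∫ x, b x * (pd 0 f x ^ 2 + pd 1 f x ^ 2 + pd 2 f x ^ 2) := by
      refine hb.integral_pos_of_hasCompactSupport_nonneg_nonzero hbc
        (fun x => mul_nonneg b.nonneg (hg0 x)) (x := x0) ?_
      rw [hb1, one_mul]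
      exact hne
    obtain ⟨N, hN⟩ := exists_nat_gt (‖x0‖ + 1)
    have hle : ∀ n : ℕ, N ≤ n → ∫ x, b x * (pd 0 f x ^ 2 + pd 1 f x ^ 2 + pd 2 f x ^ 2)
        ≤ K / ((n : ℝ) + 1) ^ 2 := by
      intro n hn
      refine le_trans ?_ (hK n)
      have hz := ze_smooth n
      have hcs2 : HasCompactSupport (fun x => ze n x ^ 2) := by
        have : (fun x => ze n x ^ 2) = fun x => ze n x * ze n x := by
          funext x
          ring
        rw [this]
        exact (ze_compact n).mul_right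
      refine integral_mono (hb.integrable_of_hasCompactSupport hbc)
        (((hz.continuous.pow 2).mul hg).integrable_of_hasCompactSupport hcs2.mul_right) fun x => ?_
      refine mul_le_mul_of_nonneg_right ?_ (hg0 x)
      by_cases hx : x ∈ Metric.ball x0 1
      · have hn' : (N : ℝ) ≤ n := by exact_mod_cast hn
        have h1 : ‖x‖ ≤ (n : ℝ) + 1 := by
          have h2 : ‖x‖ ≤ ‖x - x0‖ + ‖x0‖ := by
            simpa using norm_add_le (x - x0) x0
          have h3 : ‖x - x0‖ < 1 := by rwa [mem_ball_iff_norm] at hx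
          linarith
        rw [ze_one h1]
        simpa using b.le_one
      · have h1 : b x = 0 := by
          refine b.zero_of_le_dist ?_
          rw [Metric.mem_ball, not_lt] at hx
          exact hx
        rw [h1]
        positivity
    have hlim : Tendsto (fun n : ℕ => K / ((n : ℝ) + 1) ^ 2) atTop (𝓝 0) := by
      have h1 : Tendsto (fun n : ℕ => ((n : ℝ) + 1) ^ 2) atTop atTop :=
        (tendsto_pow_atTop (by norm_num)).comp
          (tendsto_atTop_add_const_right _ _ tendsto_natCast_atTop_atTop)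
      exact h1.const_div_atTop K
    have := ge_of_tendsto hlim ((eventually_ge_atTop N).mono hle)
    linarith
  have hpd : ∀ x (i : Fin 3), pd i f x = 0 := by
    intro x i
    have h := hzero x
    have h0 := sq_nonneg (pd 0 f x)
    have h1 := sq_nonneg (pd 1 f x)
    have h2' := sq_nonneg (pd 2 f x)
    have hi : pd i f x ^ 2 = 0 := by
      fin_cases i
      · show pd 0 f x ^ 2 = 0
        linarith
      · show pd 1 f x ^ 2 = 0
        linarith
      · show pd 2 f x ^ 2 = 0
        linarith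
    exact pow_eq_zero_iff (two_ne_zero) |>.1 hi
  have hconst : ∀ y, f y = f 0 := fun y =>
    is_const_of_fderiv_eq_zero (hf.differentiable (by simp)) (fun z => li_fderiv_zero (hpd z)) y 0
  have hfc : f = fun _ => f 0 := funext hconst
  rw [hfc] at h2
  have := (memLp_const_iff (p := 2) (by norm_num) (by norm_num)).1 h2
  rcases this with h | h
  · rw [hconst x]
    exact h
  · exfalso
    have hv : (volume : Measure E) univ = ⊤ := by
      exact measure_univ_of_isAddLeftInvariant _
    rw [hv] at h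
    exact lt_irrefl _ h

private noncomputable def rho (n : ℕ) : E → ℝ := (Pool.UVF.bump 3 n).normed volume

private theorem rho_smooth (n : ℕ) : ContDiff ℝ ∞ (rho n) := (Pool.UVF.bump 3 n).contDiff_normed

private theorem rho_compact (n : ℕ) : HasCompactSupport (rho n) :=
  (Pool.UVF.bump 3 n).hasCompactSupport_normed

private theorem pd_mol' {f : E → ℝ} (hf : LocallyIntegrable f volume) (n : ℕ) (i : Fin 3) (x : E) :
    pd i (mol n f) x = ∫ y, pd i (rho n) (x - y) * f y := Pool.UVF.pd_moll hf n i x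

private theorem coord_loc {A : E → E} (hA : LocallyIntegrable A volume) (i : Fin 3) :
    LocallyIntegrable (fun y => A y i) volume := by
  intro x
  obtain ⟨s, hs, hi⟩ := hA x
  exact ⟨s, hs, (EuclideanSpace.proj i : E →L[ℝ] ℝ).integrable_comp hi⟩

private noncomputable def et (n : ℕ) (x y : E) : ℝ := rho n (x - y)

private theorem et_smooth (n : ℕ) (x : E) : ContDiff ℝ ∞ (et n x) :=
  (rho_smooth n).comp (contDiff_const.sub contDiff_id)

private theorem et_compact (n : ℕ) (x : E) : HasCompactSupport (et n x) :=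
  (rho_compact n).comp_homeomorph (Homeomorph.subLeft x)

private theorem pd_et (n : ℕ) (x : E) (i : Fin 3) (y : E) :
    pd i (et n x) y = -(pd i (rho n) (x - y)) := by
  have hd : HasFDerivAt (rho n) (fderiv ℝ (rho n) (x - y)) (x - y) :=
    ((rho_smooth n).differentiable (by simp)).differentiableAt.hasFDerivAt
  have h1 : HasFDerivAt (fun z : E => x - z) (-(ContinuousLinearMap.id ℝ E)) y :=
    (hasFDerivAt_id y).const_sub x
  have h2 : HasFDerivAt (et n x)
      ((fderiv ℝ (rho n) (x - y)).comp (-(ContinuousLinearMap.id ℝ E))) y :=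
    HasFDerivAt.comp y hd h1
  unfold pd
  rw [h2.fderiv]
  simp

private theorem int_a {f : E → ℝ} (hf : LocallyIntegrable f volume) (n : ℕ) (x : E) (i : Fin 3) :
    Integrable (fun y => pd i (rho n) (x - y) * f y) volume := by
  have hc : Continuous (fun y => pd i (rho n) (x - y)) := by
    have h0 : Continuous (fderiv ℝ (rho n)) := (rho_smooth n).continuous_fderiv (by simp)
    exact (h0.comp (continuous_const.sub continuous_id)).clm_apply continuous_const
  have hs : HasCompactSupport (fun y => pd i (rho n) (x - y)) := by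
    have h0 : HasCompactSupport (pd i (rho n)) := (rho_compact n).fderiv_apply ℝ _
    exact h0.comp_homeomorph (Homeomorph.subLeft x)
  have := hf.integrable_smul_left_of_hasCompactSupport hc hs
  simpa [smul_eq_mul] using this

private theorem inner3 (a b : E) : ⟪a, b⟫ = a 0 * b 0 + a 1 * b 1 + a 2 * b 2 := by
  simp [PiLp.inner_apply, Fin.sum_univ_three]
  ring

private theorem div_vmol {A : E → E} (hA : LocallyIntegrable A volume)
    (hd : ∀ f : E → ℝ, STest univ f → ∫ x, ⟪A x, gr f x⟫ = 0) (n : ℕ) (x : E) :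
    pd 0 (fun y => vmol n A y 0) x + pd 1 (fun y => vmol n A y 1) x + pd 2 (fun y => vmol n A y 2) x = 0 := by
  have h := hd (et n x) ⟨et_smooth n x, et_compact n x, subset_univ _⟩
  have e0 : pd 0 (fun y => vmol n A y 0) x = ∫ y, pd 0 (rho n) (x - y) * A y 0 :=
    pd_mol' (coord_loc hA 0) n 0 x
  have e1 : pd 1 (fun y => vmol n A y 1) x = ∫ y, pd 1 (rho n) (x - y) * A y 1 :=
    pd_mol' (coord_loc hA 1) n 1 x
  have e2 : pd 2 (fun y => vmol n A y 2) x = ∫ y, pd 2 (rho n) (x - y) * A y 2 :=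
    pd_mol' (coord_loc hA 2) n 2 x
  have i3 := li_int3 (int_a (coord_loc hA 0) n x 0) (int_a (coord_loc hA 1) n x 1)
    (int_a (coord_loc hA 2) n x 2)
  rw [e0, e1, e2, ← i3.2]
  have e4 : ∫ y, ⟪A y, gr (et n x) y⟫ = -∫ y, (pd 0 (rho n) (x - y) * A y 0 + pd 1 (rho n) (x - y) * A y 1
      + pd 2 (rho n) (x - y) * A y 2) := by
    rw [← integral_neg]
    refine integral_congr_ae (Eventually.of_forall fun y => ?_)
    show ⟪A y, gr (et n x) y⟫ = -(pd 0 (rho n) (x - y) * A y 0 + pd 1 (rho n) (x - y) * A y 1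
      + pd 2 (rho n) (x - y) * A y 2)
    rw [inner3]
    show A y 0 * pd 0 (et n x) y + A y 1 * pd 1 (et n x) y + A y 2 * pd 2 (et n x) y = _
    rw [pd_et, pd_et, pd_et]
    ring
  rw [h] at e4
  linarith

private theorem vmol_zero (n : ℕ) (x : E) : vmol n (fun _ => (0 : E)) x = 0 := by
  have h : ∀ i : Fin 3, mol n (fun _ : E => (0 : E) i) x = 0 := by
    intro i
    have e : mol n (fun _ : E => (0 : E) i) x = ∫ y, rho n (x - y) * (0 : E) i :=
      Pool.UVF.moll_eq _ n x
    rw [e]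
    simp
  unfold vmol
  rw [h 0, h 1, h 2]
  ext i
  fin_cases i <;> rfl

/-- A field in `L²` whose distributional curl and divergence vanish is zero. -/
theorem liou {A : E → E} (hA : MemLp A 2 volume) (hc : WC univ A (fun _ => 0))
    (hd : ∀ f : E → ℝ, STest univ f → ∫ x, ⟪A x, gr f x⟫ = 0) : A =ᵐ[volume] 0 := by
  have hloc : LocallyIntegrable A volume := hA.locallyIntegrable (by norm_num)
  have hz : ∀ n x, vmol n A x = 0 := by
    intro n
    have hs : ContDiff ℝ ∞ (vmol n A) := contDiff_vmol hloc n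
    have hm : MemLp (vmol n A) 2 volume := vmol_memLp (by norm_num) (by norm_num) hA n
    have hcurl : ∀ x, curl (vmol n A) x = 0 := fun x => by
      rw [curl_vmol hloc (locallyIntegrable_const 0) hc n x, vmol_zero]
    have c0 : ∀ x, pd 1 (fun y => vmol n A y 2) x = pd 2 (fun y => vmol n A y 1) x := fun x => by
      have h := congrArg (fun v : E => v 0) (hcurl x)
      exact sub_eq_zero.1 h
    have c1 : ∀ x, pd 2 (fun y => vmol n A y 0) x = pd 0 (fun y => vmol n A y 2) x := fun x => by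
      have h := congrArg (fun v : E => v 1) (hcurl x)
      exact sub_eq_zero.1 h
    have c2 : ∀ x, pd 0 (fun y => vmol n A y 1) x = pd 1 (fun y => vmol n A y 0) x := fun x => by
      have h := congrArg (fun v : E => v 2) (hcurl x)
      exact sub_eq_zero.1 h
    have hsym : ∀ i j : Fin 3, pd i (fun y => vmol n A y j) = pd j (fun y => vmol n A y i) := by
      intro i j
      funext x
      fin_cases i <;> fin_cases j
      · rfl
      · exact c2 x
      · exact (c1 x).symm
      · exact (c2 x).symm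
      · rfl
      · exact c0 x
      · exact c1 x
      · exact (c0 x).symm
      · rfl
    have hcs : ∀ j : Fin 3, ContDiff ℝ ∞ (fun y => vmol n A y j) := fun j => li_coord hs j
    have hdiv : (fun x => pd 0 (fun y => vmol n A y 0) x + pd 1 (fun y => vmol n A y 1) x
        + pd 2 (fun y => vmol n A y 2) x) = fun _ => 0 := funext fun x => div_vmol hloc hd n x
    have hj : ∀ (j : Fin 3) (x : E), vmol n A x j = 0 := by
      intro j x
      refine liou_scalar (hcs j) ?_ (fun x => ?_) x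
      · refine hm.mono ?_ (Eventually.of_forall fun x => PiLp.norm_apply_le (vmol n A x) j)
        exact (hcs j).continuous.aestronglyMeasurable
      · have s0 := li_symm (hcs 0) 0 j x
        have s1 := li_symm (hcs 1) 1 j x
        have s2 := li_symm (hcs 2) 2 j x
        have a1 : pd j (fun x => pd 0 (fun y => vmol n A y 0) x + pd 1 (fun y => vmol n A y 1) x
            + pd 2 (fun y => vmol n A y 2) x) x = pd j (pd 0 (fun y => vmol n A y 0)) x
            + pd j (pd 1 (fun y => vmol n A y 1)) x + pd j (pd 2 (fun y => vmol n A y 2)) x := by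
          have b1 := li_pd_add ((li_pd_smooth (hcs 0) 0).add (li_pd_smooth (hcs 1) 1))
            (li_pd_smooth (hcs 2) 2) j x
          have b2 := li_pd_add (li_pd_smooth (hcs 0) 0) (li_pd_smooth (hcs 1) 1) j x
          calc _ = pd j (fun x => pd 0 (fun y => vmol n A y 0) x + pd 1 (fun y => vmol n A y 1) x) x
              + pd j (pd 2 (fun y => vmol n A y 2)) x := b1
            _ = _ := by rw [b2]
        have a2 : pd j (fun x => pd 0 (fun y => vmol n A y 0) x + pd 1 (fun y => vmol n A y 1) x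
            + pd 2 (fun y => vmol n A y 2) x) x = 0 := by
          rw [hdiv]
          simp [pd]
        rw [hsym 0 j, hsym 1 j, hsym 2 j, s0, s1, s2, ← a1, a2]
    intro x
    ext j
    exact hj j x
  have ht := vmol_tendsto (p := 2) (by norm_num) (by norm_num) hA
  have hconst : (fun n => eLpNorm (fun x => vmol n A x - A x) 2 volume)
      = fun _ => eLpNorm (fun x => -A x) 2 volume := by
    funext n
    congr 1
    funext x
    rw [hz n x, zero_sub]
  rw [hconst] at ht
  have h0 : eLpNorm (fun x => -A x) 2 volume = 0 := tendsto_nhds_unique tendsto_const_nhds ht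
  have h1 : (fun x => -A x) =ᵐ[volume] 0 := (eLpNorm_eq_zero_iff hA.1.neg (by norm_num)).1 h0
  filter_upwards [h1] with x hx
  have : -A x = 0 := hx
  simpa using this

end Pool.CQ
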