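import Pool.Agent.Lib.MP_cd5b91_an.CQ.NehCurl
import Pool.Agent.Lib.MP_cd5b91_an.CQ.Liou

/-!
# CQ-CurlDense: curls of test fields are dense in the divergence free fields of `L²`
-/

open MeasureTheory Filter Topology Set
open scoped ContDiff RealInnerProductSpace ENNReal

namespace Pool.CQ

private theorem cdn_ext {a b : E} (h0 : a 0 = b 0) (h1 : a 1 = b 1) (h2 : a 2 = b 2) : a = b := by
  ext i
  fin_cases i
  · exact h0
  · exact h1
  · exact h2

/-- linear combinations of test fields -/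
theorem test_lin {φ ψ : E → E} (hφ : TestIn univ φ) (hψ : TestIn univ ψ) (a b : ℝ) :
    TestIn univ (fun x => a • φ x + b • ψ x) ∧
      ∀ x, curl (fun y => a • φ y + b • ψ y) x = a • curl φ x + b • curl ψ x := by
  refine ⟨⟨(hφ.1.const_smul a).add (hψ.1.const_smul b), ?_, subset_univ _⟩, fun x => ?_⟩
  · exact (hφ.2.1.smul_left (f := fun _ => a)).add (hψ.2.1.smul_left (f := fun _ => b))
  · have h : ∀ i j : Fin 3, pd i (fun y => (a • φ y + b • ψ y) j) x =
        a * pd i (fun y => φ y j) x + b * pd i (fun y => ψ y j) x := by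
      intro i j
      have d1 : HasFDerivAt (fun y => φ y j) (fderiv ℝ (fun y => φ y j) x) x :=
        ((((EuclideanSpace.proj (𝕜 := ℝ) j).contDiff.comp hφ.1 :
          ContDiff ℝ ∞ (fun y => φ y j)).differentiable (by simp)) x).hasFDerivAt
      have d2 : HasFDerivAt (fun y => ψ y j) (fderiv ℝ (fun y => ψ y j) x) x :=
        ((((EuclideanSpace.proj (𝕜 := ℝ) j).contDiff.comp hψ.1 :
          ContDiff ℝ ∞ (fun y => ψ y j)).differentiable (by simp)) x).hasFDerivAt
      have d3 : HasFDerivAt (fun y => (a • φ y + b • ψ y) j)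
          (a • fderiv ℝ (fun y => φ y j) x + b • fderiv ℝ (fun y => ψ y j) x) x :=
        (d1.const_mul a).add (d2.const_mul b)
      unfold pd
      rw [d3.fderiv]
      rfl
    refine cdn_ext ?_ ?_ ?_
    · change pd 1 (fun y => (a • φ y + b • ψ y) 2) x - pd 2 (fun y => (a • φ y + b • ψ y) 1) x =
        a * (pd 1 (fun y => φ y 2) x - pd 2 (fun y => φ y 1) x) +
        b * (pd 1 (fun y => ψ y 2) x - pd 2 (fun y => ψ y 1) x)
      rw [h, h]; ring
    · change pd 2 (fun y => (a • φ y + b • ψ y) 0) x - pd 0 (fun y => (a • φ y + b • ψ y) 2) x =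
        a * (pd 2 (fun y => φ y 0) x - pd 0 (fun y => φ y 2) x) +
        b * (pd 2 (fun y => ψ y 0) x - pd 0 (fun y => ψ y 2) x)
      rw [h, h]; ring
    · change pd 0 (fun y => (a • φ y + b • ψ y) 1) x - pd 1 (fun y => (a • φ y + b • ψ y) 0) x =
        a * (pd 0 (fun y => φ y 1) x - pd 1 (fun y => φ y 0) x) +
        b * (pd 0 (fun y => ψ y 1) x - pd 1 (fun y => ψ y 0) x)
      rw [h, h]; ring

/-- curls and gradients of test functions are orthogonal -/
theorem inner_curl_gr {φ : E → E} (hφ : TestIn univ φ) {f : E → ℝ} (hf : STest univ f) :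
    ∫ x, ⟪curl φ x, gr f x⟫ = 0 := by
  have h := (w6_test hφ).2.2 (gr f) (test_gr hf)
  rw [← h]
  have e : (fun x => ⟪φ x, curl (gr f) x⟫) = fun _ => (0 : ℝ) := by
    funext x
    rw [curl_gr hf.1 x, inner_zero_right]
  rw [e, integral_zero]

/-- the subspace of the curls of test fields in `L²` -/
private noncomputable def cdS : Submodule ℝ (Lp E 2 (volume : Measure E)) where
  carrier := {h | ∃ φ : E → E, TestIn univ φ ∧ h =ᵐ[volume] curl φ}
  add_mem' := by
    rintro a b ⟨φ, hφ, ha⟩ ⟨ψ, hψ, hb⟩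
    obtain ⟨h1, h2⟩ := test_lin hφ hψ 1 1
    refine ⟨_, h1, ?_⟩
    filter_upwards [Lp.coeFn_add a b, ha, hb] with x hx hax hbx
    rw [hx, h2 x, Pi.add_apply, hax, hbx, one_smul, one_smul]
  zero_mem' := by
    refine ⟨fun _ => 0, ⟨contDiff_const, HasCompactSupport.zero, subset_univ _⟩, ?_⟩
    have h2 : ∀ x, curl (fun _ : E => (0 : E)) x = 0 := by
      intro x
      have h : ∀ i j : Fin 3, pd i (fun _ : E => (0 : E) j) x = 0 := by
        intro i j
        unfold pd
        have e : (fun _ : E => (0 : E) j) = fun _ => (0 : ℝ) := by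
          funext y
          rfl
        rw [e]
        simp
      refine cdn_ext ?_ ?_ ?_
      · change pd 1 (fun _ : E => (0 : E) 2) x - pd 2 (fun _ : E => (0 : E) 1) x = 0
        rw [h, h, sub_self]
      · change pd 2 (fun _ : E => (0 : E) 0) x - pd 0 (fun _ : E => (0 : E) 2) x = 0
        rw [h, h, sub_self]
      · change pd 0 (fun _ : E => (0 : E) 1) x - pd 1 (fun _ : E => (0 : E) 0) x = 0
        rw [h, h, sub_self]
    filter_upwards [Lp.coeFn_zero E 2 (volume : Measure E)] with x hx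
    rw [hx, h2 x]
    rfl
  smul_mem' := by
    rintro c a ⟨φ, hφ, ha⟩
    obtain ⟨h1, h2⟩ := test_lin hφ hφ c 0
    refine ⟨_, h1, ?_⟩
    filter_upwards [Lp.coeFn_smul c a, ha] with x hx hax
    rw [hx, h2 x, Pi.smul_apply, hax, zero_smul, add_zero]

private theorem cd_norm (h : Lp E 2 (volume : Measure E)) : ‖h‖ ^ 2 = ∫ x, ‖h x‖ ^ 2 := by
  rw [← real_inner_self_eq_norm_sq, L2.inner_def]
  refine integral_congr_ae (Eventually.of_forall fun x => ?_)
  exact real_inner_self_eq_norm_sq _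

theorem curl_dense {A : E → E} (hA : MemLp A 2 volume)
    (hd : ∀ f : E → ℝ, STest univ f → ∫ x, ⟪A x, gr f x⟫ = 0) :
    ∀ ε > 0, ∃ φ : E → E, TestIn univ φ ∧ ∫ x, ‖A x - curl φ x‖ ^ 2 ≤ ε := by
  intro ε hε
  set K : Submodule ℝ (Lp E 2 (volume : Measure E)) := cdS.topologicalClosure with hK
  have hKc : IsClosed (K : Set (Lp E 2 (volume : Measure E))) := cdS.isClosed_topologicalClosure
  have : CompleteSpace K := hKc.completeSpace_coe
  set a : Lp E 2 (volume : Measure E) := hA.toLp A with ha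
  have haA : a =ᵐ[volume] A := hA.coeFn_toLp
  obtain ⟨a1, ha1, a2, ha2, haa⟩ := K.exists_add_mem_mem_orthogonal a
  -- `a2` is curl free
  have hc2 : WC univ (fun x => a2 x) (fun _ => 0) := by
    intro φ hφ
    have hm : MemLp (curl φ) 2 volume := test_memLp (test_curl hφ) 2
    have hs : hm.toLp (curl φ) ∈ K :=
      cdS.le_topologicalClosure ⟨φ, hφ, hm.coeFn_toLp⟩
    have h0 : ⟪hm.toLp (curl φ), a2⟫ = 0 := (Submodule.mem_orthogonal K a2).1 ha2 _ hs
    rw [L2.inner_def] at h0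
    have e1 : ∫ x, ⟪a2 x, curl φ x⟫ = ∫ x, ⟪(hm.toLp (curl φ)) x, a2 x⟫ := by
      refine integral_congr_ae ?_
      filter_upwards [hm.coeFn_toLp] with x hx
      rw [hx]
      exact real_inner_comm _ _
    rw [e1, h0]
    simp
  -- `a1` is divergence free
  have hd1 : ∀ f : E → ℝ, STest univ f → ∫ x, ⟪a1 x, gr f x⟫ = 0 := by
    intro f hf
    have hm : MemLp (gr f) 2 volume := test_memLp (test_gr hf) 2
    have hcl : IsClosed {h : Lp E 2 (volume : Measure E) | ⟪h, hm.toLp (gr f)⟫ = 0} :=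
      isClosed_eq (continuous_id.inner continuous_const) continuous_const
    have hsub : (cdS : Set (Lp E 2 (volume : Measure E))) ⊆
        {h : Lp E 2 (volume : Measure E) | ⟪h, hm.toLp (gr f)⟫ = 0} := by
      rintro h ⟨φ, hφ, hh⟩
      show ⟪h, hm.toLp (gr f)⟫ = 0
      rw [L2.inner_def, ← inner_curl_gr hφ hf]
      refine integral_congr_ae ?_
      filter_upwards [hm.coeFn_toLp, hh] with x hx hhx
      rw [hx, hhx]
    have h1 : a1 ∈ {h : Lp E 2 (volume : Measure E) | ⟪h, hm.toLp (gr f)⟫ = 0} :=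
      closure_minimal hsub hcl ha1
    have h2 : ⟪a1, hm.toLp (gr f)⟫ = 0 := h1
    rw [L2.inner_def] at h2
    rw [← h2]
    refine integral_congr_ae ?_
    filter_upwards [hm.coeFn_toLp] with x hx
    rw [hx]
  have hadd : ∀ᵐ x, A x = a1 x + a2 x := by
    have h1 : (a : Lp E 2 (volume : Measure E)) = a1 + a2 := haa
    filter_upwards [haA, Lp.coeFn_add a1 a2] with x hx hy
    rw [← hx, h1, hy, Pi.add_apply]
  have hd2 : ∀ f : E → ℝ, STest univ f → ∫ x, ⟪a2 x, gr f x⟫ = 0 := by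
    intro f hf
    have hm : MemLp (gr f) 2 volume := test_memLp (test_gr hf) 2
    have i1 : Integrable (fun x => ⟪A x, gr f x⟫) volume := integrable22 hA hm
    have i2 : Integrable (fun x => ⟪a1 x, gr f x⟫) volume := integrable22 (Lp.memLp a1) hm
    have e : ∫ x, ⟪a2 x, gr f x⟫ = ∫ x, (⟪A x, gr f x⟫ - ⟪a1 x, gr f x⟫) := by
      refine integral_congr_ae ?_
      filter_upwards [hadd] with x hx
      rw [hx, inner_add_left, add_sub_cancel_left]
    rw [e, integral_sub i1 i2, hd f hf, hd1 f hf, sub_zero]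
  have hz : (fun x => a2 x) =ᵐ[volume] fun _ => 0 := liou (Lp.memLp a2) hc2 hd2
  have hz2 : a2 = 0 := by
    rw [Lp.eq_zero_iff_ae_eq_zero]
    exact hz
  have haK : a ∈ closure (cdS : Set (Lp E 2 (volume : Measure E))) := by
    have : a = a1 := by rw [haa, hz2, add_zero]
    rw [this]
    exact ha1
  obtain ⟨s, ⟨φ, hφ, hs⟩, hdist⟩ := Metric.mem_closure_iff.1 haK (Real.sqrt ε) (Real.sqrt_pos.2 hε)
  refine ⟨φ, hφ, ?_⟩
  have h1 : ∫ x, ‖A x - curl φ x‖ ^ 2 = ‖a - s‖ ^ 2 := by
    rw [cd_norm]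
    refine integral_congr_ae ?_
    filter_upwards [haA, hs, Lp.coeFn_sub a s] with x hx hsx hy
    rw [hy, Pi.sub_apply, hx, hsx]
  rw [h1]
  rw [dist_eq_norm] at hdist
  calc ‖a - s‖ ^ 2 ≤ (Real.sqrt ε) ^ 2 := by
        exact pow_le_pow_left₀ (norm_nonneg _) hdist.le 2
    _ = ε := Real.sq_sqrt hε.le

end Pool.CQ
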