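import Pool.Agent.Lib.MP_cd5b91_an.CQ.Defs

/-!
# CQ-LpFacts
-/

open MeasureTheory Filter Topology Set
open scoped ContDiff RealInnerProductSpace ENNReal

namespace Pool.CQ

theorem int6 {u : E → E} (hu : MemLp u 6 volume) : Integrable (fun x => ‖u x‖ ^ 6) volume := by
  have h := hu.integrable_norm_rpow (by norm_num) (by norm_num)
  have e : (6 : ℝ≥0∞).toReal = ((6 : ℕ) : ℝ) := by simp
  rw [e] at h
  simpa only [Real.rpow_natCast] using h

theorem int2 {B : E → E} (hB : MemLp B 2 volume) : Integrable (fun x => ‖B x‖ ^ 2) volume := by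
  have h := hB.integrable_norm_rpow (by norm_num) (by norm_num)
  have e : (2 : ℝ≥0∞).toReal = ((2 : ℕ) : ℝ) := by simp
  rw [e] at h
  simpa only [Real.rpow_natCast] using h

private theorem LpFacts_real : (6 / 5 : ℝ≥0∞).toReal = 6 / 5 := by
  rw [ENNReal.toReal_div]
  norm_num

private theorem LpFacts_ne0 : (6 / 5 : ℝ≥0∞) ≠ 0 := by
  intro h
  have := LpFacts_real
  rw [h] at this
  norm_num at this

private theorem LpFacts_top : (6 / 5 : ℝ≥0∞) ≠ ⊤ := by
  intro h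
  have := LpFacts_real
  rw [h] at this
  norm_num at this

private theorem LpFacts_ofReal : ENNReal.ofReal (6 / 5) = 6 / 5 := by
  rw [← LpFacts_real, ENNReal.ofReal_toReal LpFacts_top]

theorem int65 {V : E → E} (hV : MemLp V (6 / 5) volume) :
    Integrable (fun x => ‖V x‖ ^ (6 / 5 : ℝ)) volume := by
  have h := hV.integrable_norm_rpow LpFacts_ne0 LpFacts_top
  rwa [LpFacts_real] at h

private theorem LpFacts_tr1 : ENNReal.HolderTriple (6 / 4) 6 (6 / 5) := by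
  refine ⟨?_⟩
  have h1 : (6 / 4 : ℝ≥0∞)⁻¹ = ENNReal.ofReal (4 / 6) := by
    rw [ENNReal.inv_div (by simp) (by simp), ENNReal.ofReal_div_of_pos (by norm_num)]
    simp
  have h2 : (6 : ℝ≥0∞)⁻¹ = ENNReal.ofReal (1 / 6) := by
    rw [ENNReal.ofReal_div_of_pos (by norm_num)]
    simp
  have h3 : (6 / 5 : ℝ≥0∞)⁻¹ = ENNReal.ofReal (5 / 6) := by
    rw [ENNReal.inv_div (by simp) (by simp), ENNReal.ofReal_div_of_pos (by norm_num)]
    simp
  rw [h1, h2, h3, ← ENNReal.ofReal_add (by norm_num) (by norm_num)]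
  norm_num

private theorem LpFacts_tr2 : ENNReal.HolderTriple (6 / 5) 6 1 := by
  refine ⟨?_⟩
  have h2 : (6 : ℝ≥0∞)⁻¹ = ENNReal.ofReal (1 / 6) := by
    rw [ENNReal.ofReal_div_of_pos (by norm_num)]
    simp
  have h3 : (6 / 5 : ℝ≥0∞)⁻¹ = ENNReal.ofReal (5 / 6) := by
    rw [ENNReal.inv_div (by simp) (by simp), ENNReal.ofReal_div_of_pos (by norm_num)]
    simp
  rw [h2, h3, ← ENNReal.ofReal_add (by norm_num) (by norm_num)]
  norm_num

theorem memLp_quint {u v : E → E} (hu : MemLp u 6 volume) (hv : MemLp v 6 volume) :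
    MemLp (fun x => ‖u x‖ ^ 4 • v x) (6 / 5) volume := by
  have h := hu.norm_rpow_div 4
  have e : (4 : ℝ≥0∞).toReal = ((4 : ℕ) : ℝ) := by simp
  rw [e] at h
  simp only [Real.rpow_natCast] at h
  have := LpFacts_tr1
  exact MemLp.smul hv h

private theorem LpFacts_lpl {F : Type} [NormedAddCommGroup F] {p q : ℝ≥0∞} (hp : q ≤ p) {f : E → F}
    (hf : MemLp f p volume) (O : Set E) : LpL q O f := by
  intro K hK _
  have : IsFiniteMeasure (volume.restrict K) :=
    ⟨by rw [Measure.restrict_apply_univ]; exact hK.measure_lt_top⟩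
  exact (hf.restrict K).mono_exponent hp

theorem lpl_one {F : Type} [NormedAddCommGroup F] {p : ℝ≥0∞} (hp : 1 ≤ p) {f : E → F}
    (hf : MemLp f p volume) (O : Set E) : LpL 1 O f := LpFacts_lpl hp hf O

theorem lpl_two {F : Type} [NormedAddCommGroup F] {p : ℝ≥0∞} (hp : 2 ≤ p) {f : E → F}
    (hf : MemLp f p volume) (O : Set E) : LpL 2 O f := LpFacts_lpl hp hf O

theorem lpl_loc {f : E → E} (h : LpL 1 univ f) : LocallyIntegrable f volume := by
  rw [locallyIntegrable_iff]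
  intro K hK
  exact memLp_one_iff_integrable.1 (h K hK (subset_univ K))

theorem integrable65 {V v : E → E} (hV : MemLp V (6 / 5) volume) (hv : MemLp v 6 volume) :
    Integrable (fun x => ⟪V x, v x⟫) volume := by
  have := LpFacts_tr2
  have h1 : Integrable (fun x => ‖V x‖ * ‖v x‖) volume :=
    memLp_one_iff_integrable.1 (MemLp.mul' hv.norm hV.norm)
  refine h1.mono' (hV.1.inner hv.1) (Eventually.of_forall fun x => ?_)
  exact norm_inner_le_norm _ _

theorem holder65 {V v : E → E} (hV : MemLp V (6 / 5) volume) (hv : MemLp v 6 volume) :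
    |∫ x, ⟪V x, v x⟫| ≤ (∫ x, ‖V x‖ ^ (6 / 5 : ℝ)) ^ (5 / 6 : ℝ) * (∫ x, ‖v x‖ ^ 6) ^ (1 / 6 : ℝ) := by
  have := LpFacts_tr2
  have h1 : Integrable (fun x => ‖V x‖ * ‖v x‖) volume :=
    memLp_one_iff_integrable.1 (MemLp.mul' hv.norm hV.norm)
  have h2 : |∫ x, ⟪V x, v x⟫| ≤ ∫ x, ‖V x‖ * ‖v x‖ := by
    rw [← Real.norm_eq_abs]
    exact norm_integral_le_of_norm_le h1 (Eventually.of_forall fun x => norm_inner_le_norm _ _)
  have hpq : (6 / 5 : ℝ).HolderConjugate 6 := by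
    rw [Real.holderConjugate_iff]
    norm_num
  have hV' : MemLp V (ENNReal.ofReal (6 / 5)) volume := by rwa [LpFacts_ofReal]
  have hv' : MemLp v (ENNReal.ofReal 6) volume := by
    have e : ENNReal.ofReal 6 = 6 := by simp
    rwa [e]
  have h3 := integral_mul_norm_le_Lp_mul_Lq hpq hV' hv'
  have e1 : (1 : ℝ) / (6 / 5) = 5 / 6 := by norm_num
  have e2 : (fun x => ‖v x‖ ^ (6 : ℝ)) = fun x => ‖v x‖ ^ 6 := by
    funext x
    exact Real.rpow_ofNat _ 6
  rw [e1, e2] at h3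
  exact h2.trans h3

theorem integrable22 {B C : E → E} (hB : MemLp B 2 volume) (hC : MemLp C 2 volume) :
    Integrable (fun x => ⟪B x, C x⟫) volume := by
  have h1 : Integrable (fun x => ‖B x‖ * ‖C x‖) volume := hB.norm.integrable_mul hC.norm
  refine h1.mono' (hB.1.inner hC.1) (Eventually.of_forall fun x => ?_)
  exact norm_inner_le_norm _ _

theorem cs22 {B C : E → E} (hB : MemLp B 2 volume) (hC : MemLp C 2 volume) :
    (∫ x, ⟪B x, C x⟫) ^ 2 ≤ (∫ x, ‖B x‖ ^ 2) * ∫ x, ‖C x‖ ^ 2 := by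
  have h1 : Integrable (fun x => ‖B x‖ * ‖C x‖) volume := hB.norm.integrable_mul hC.norm
  have h2 : |∫ x, ⟪B x, C x⟫| ≤ ∫ x, ‖B x‖ * ‖C x‖ := by
    rw [← Real.norm_eq_abs]
    exact norm_integral_le_of_norm_le h1 (Eventually.of_forall fun x => norm_inner_le_norm _ _)
  have e : ENNReal.ofReal 2 = 2 := by simp
  have hB' : MemLp B (ENNReal.ofReal 2) volume := by rwa [e]
  have hC' : MemLp C (ENNReal.ofReal 2) volume := by rwa [e]
  have h3 := integral_mul_norm_le_Lp_mul_Lq Real.HolderConjugate.two_two hB' hC'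
  have e2 : ∀ f : E → E, (fun x => ‖f x‖ ^ (2 : ℝ)) = fun x => ‖f x‖ ^ 2 := by
    intro f
    funext x
    exact Real.rpow_ofNat _ 2
  rw [e2, e2, ← Real.sqrt_eq_rpow, ← Real.sqrt_eq_rpow] at h3
  have i1 : 0 ≤ ∫ x, ‖B x‖ ^ 2 := integral_nonneg fun x => by positivity
  have i2 : 0 ≤ ∫ x, ‖C x‖ ^ 2 := integral_nonneg fun x => by positivity
  have h4 := h2.trans h3
  calc (∫ x, ⟪B x, C x⟫) ^ 2 = |∫ x, ⟪B x, C x⟫| ^ 2 := (sq_abs _).symm
    _ ≤ (√(∫ x, ‖B x‖ ^ 2) * √(∫ x, ‖C x‖ ^ 2)) ^ 2 := pow_le_pow_left₀ (abs_nonneg _) h4 2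
    _ = _ := by rw [mul_pow, Real.sq_sqrt i1, Real.sq_sqrt i2]

end Pool.CQ
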