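import Pool.Agent.Lib.MP_cd5b91_an.CQ.Alg
import Pool.Agent.Lib.MP_cd5b91_an.CQ.LpFacts

/-!
# CQ-Cut
-/

open MeasureTheory Filter Topology Set
open scoped ContDiff RealInnerProductSpace ENNReal

namespace Pool.CQ

private noncomputable def Cut_z : ContDiffBump (0 : E) := ⟨1, 2, one_pos, one_lt_two⟩

private noncomputable def Cut_et (n : ℕ) (x : E) : ℝ := Cut_z (((n : ℝ) + 1)⁻¹ • x)

private theorem Cut_smooth (n : ℕ) : ContDiff ℝ ∞ (Cut_et n) :=
  Cut_z.contDiff.comp (contDiff_const_smul _)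

private theorem Cut_nonneg (n : ℕ) (x : E) : 0 ≤ Cut_et n x := Cut_z.nonneg

private theorem Cut_le_one (n : ℕ) (x : E) : Cut_et n x ≤ 1 := Cut_z.le_one

private theorem Cut_norm (n : ℕ) (x : E) : ‖((n : ℝ) + 1)⁻¹ • x‖ = ‖x‖ / ((n : ℝ) + 1) := by
  have h : (0 : ℝ) < (n : ℝ) + 1 := by positivity
  rw [norm_smul, norm_inv, Real.norm_of_nonneg h.le, inv_mul_eq_div]

private theorem Cut_one {n : ℕ} {x : E} (h : ‖x‖ ≤ (n : ℝ) + 1) : Cut_et n x = 1 := by
  refine Cut_z.one_of_mem_closedBall ?_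
  rw [Metric.mem_closedBall, dist_zero_right, Cut_norm]
  exact (div_le_one (by positivity)).2 h

private theorem Cut_zero {n : ℕ} {x : E} (h : 2 * ((n : ℝ) + 1) ≤ ‖x‖) : Cut_et n x = 0 := by
  refine Cut_z.zero_of_le_dist ?_
  rw [dist_zero_right, Cut_norm]
  exact (le_div_iff₀ (by positivity)).2 h

private theorem Cut_cpt (n : ℕ) : HasCompactSupport (Cut_et n) := by
  refine HasCompactSupport.intro (isCompact_closedBall (0 : E) (2 * ((n : ℝ) + 1))) fun x hx => ?_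
  rw [Metric.mem_closedBall, dist_zero_right, not_le] at hx
  exact Cut_zero hx.le

private theorem Cut_gr_of {f : E → ℝ} {x : E} (h : fderiv ℝ f x = 0) : gr f x = 0 := by
  ext i
  fin_cases i <;> simp [gr, pd, h]

private theorem Cut_gr_in {n : ℕ} {x : E} (h : ‖x‖ < (n : ℝ) + 1) : gr (Cut_et n) x = 0 := by
  apply Cut_gr_of
  have h1 : Cut_et n =ᶠ[𝓝 x] fun _ => 1 := by
    have h2 : ∀ᶠ y in 𝓝 x, ‖y‖ < (n : ℝ) + 1 := continuous_norm.continuousAt.eventually_lt_const h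
    filter_upwards [h2] with y hy
    exact Cut_one hy.le
  rw [h1.fderiv_eq]
  simp

private theorem Cut_gr_out {n : ℕ} {x : E} (h : 2 * ((n : ℝ) + 1) < ‖x‖) : gr (Cut_et n) x = 0 := by
  apply Cut_gr_of
  have h1 : Cut_et n =ᶠ[𝓝 x] fun _ => 0 := by
    have h2 : ∀ᶠ y in 𝓝 x, 2 * ((n : ℝ) + 1) < ‖y‖ := continuous_norm.continuousAt.eventually_const_lt h
    filter_upwards [h2] with y hy
    exact Cut_zero hy.le
  rw [h1.fderiv_eq]
  simp

private theorem Cut_gr_bound : ∃ C : ℝ, 0 ≤ C ∧ ∀ (n : ℕ) (x : E), ‖gr (Cut_et n) x‖ ≤ C / ((n : ℝ) + 1) := by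
  have hz : ContDiff ℝ ∞ (Cut_z : E → ℝ) := Cut_z.contDiff
  have hcs : HasCompactSupport (fderiv ℝ (Cut_z : E → ℝ)) := Cut_z.hasCompactSupport.fderiv ℝ
  obtain ⟨C, hC⟩ := hcs.exists_bound_of_continuous (hz.continuous_fderiv (by simp))
  have hC0 : 0 ≤ C := (norm_nonneg _).trans (hC 0)
  refine ⟨2 * C, by positivity, fun n x => ?_⟩
  have hn : (0 : ℝ) < (n : ℝ) + 1 := by positivity
  have h1 : ∀ i : Fin 3, |pd i (Cut_et n) x| ≤ C / ((n : ℝ) + 1) := by
    intro i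
    have h2 : HasFDerivAt (Cut_et n) ((fderiv ℝ (Cut_z : E → ℝ) (((n : ℝ) + 1)⁻¹ • x)).comp
        (((n : ℝ) + 1)⁻¹ • ContinuousLinearMap.id ℝ E)) x := by
      have h3 : HasFDerivAt (fun y : E => ((n : ℝ) + 1)⁻¹ • y) (((n : ℝ) + 1)⁻¹ • ContinuousLinearMap.id ℝ E) x :=
        (hasFDerivAt_id x).fun_const_smul _
      have h4 : HasFDerivAt (Cut_z : E → ℝ) (fderiv ℝ (Cut_z : E → ℝ) (((n : ℝ) + 1)⁻¹ • x)) (((n : ℝ) + 1)⁻¹ • x) :=
        ((hz.differentiable (by simp)) _).hasFDerivAt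
      exact h4.comp x h3
    unfold pd
    rw [h2.fderiv]
    have h5 : ((fderiv ℝ (Cut_z : E → ℝ) (((n : ℝ) + 1)⁻¹ • x)).comp (((n : ℝ) + 1)⁻¹ • ContinuousLinearMap.id ℝ E))
        (EuclideanSpace.single i (1 : ℝ)) =
        ((n : ℝ) + 1)⁻¹ * fderiv ℝ (Cut_z : E → ℝ) (((n : ℝ) + 1)⁻¹ • x) (EuclideanSpace.single i (1 : ℝ)) := by
      simp
    rw [h5, abs_mul, abs_of_pos (by positivity), ← div_eq_inv_mul]
    refine div_le_div_of_nonneg_right ?_ hn.le
    rw [← Real.norm_eq_abs]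
    refine ((fderiv ℝ (Cut_z : E → ℝ) _).le_opNorm _).trans ?_
    have h7 : ‖EuclideanSpace.single i (1 : ℝ)‖ = 1 := by simp
    rw [h7, mul_one]
    exact hC _
  have h0 := abs_le.1 (h1 0)
  have h2 := abs_le.1 (h1 1)
  have h3 := abs_le.1 (h1 2)
  have hc : 0 ≤ C / ((n : ℝ) + 1) := by positivity
  have h6 : ‖gr (Cut_et n) x‖ ^ 2 ≤ (2 * C / ((n : ℝ) + 1)) ^ 2 := by
    rw [EuclideanSpace.norm_sq_eq, Fin.sum_univ_three]
    simp only [gr, Real.norm_eq_abs, sq_abs]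
    have e : 2 * C / ((n : ℝ) + 1) = 2 * (C / ((n : ℝ) + 1)) := by ring
    rw [e]
    have k0 : (pd 0 (Cut_et n) x) ^ 2 ≤ (C / ((n : ℝ) + 1)) ^ 2 := sq_le_sq' h0.1 h0.2
    have k1 : (pd 1 (Cut_et n) x) ^ 2 ≤ (C / ((n : ℝ) + 1)) ^ 2 := sq_le_sq' h2.1 h2.2
    have k2 : (pd 2 (Cut_et n) x) ^ 2 ≤ (C / ((n : ℝ) + 1)) ^ 2 := sq_le_sq' h3.1 h3.2
    have k4 : 0 ≤ (C / ((n : ℝ) + 1)) ^ 2 := sq_nonneg _
    show (pd 0 (Cut_et n) x) ^ 2 + (pd 1 (Cut_et n) x) ^ 2 + (pd 2 (Cut_et n) x) ^ 2 ≤ (2 * (C / ((n : ℝ) + 1))) ^ 2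
    nlinarith
  exact le_of_sq_le_sq h6 (by positivity)

private theorem Cut_cont_cr {f g : E → E} (hf : Continuous f) (hg : Continuous g) :
    Continuous fun x => cr (f x) (g x) := by
  have h1 : ∀ i : Fin 3, Continuous fun x => f x i := fun i => (EuclideanSpace.proj (𝕜 := ℝ) i).continuous.comp hf
  have h2 : ∀ i : Fin 3, Continuous fun x => g x i := fun i => (EuclideanSpace.proj (𝕜 := ℝ) i).continuous.comp hg
  unfold cr
  refine (PiLp.continuous_toLp 2 _).comp (continuous_pi fun i => ?_)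
  fin_cases i
  · exact ((h1 1).mul (h2 2)).sub ((h1 2).mul (h2 1))
  · exact ((h1 2).mul (h2 0)).sub ((h1 0).mul (h2 2))
  · exact ((h1 0).mul (h2 1)).sub ((h1 1).mul (h2 0))

private theorem Cut_cont_gr {f : E → ℝ} (hf : ContDiff ℝ ∞ f) : Continuous (gr f) := by
  have h1 : ∀ i : Fin 3, Continuous fun x => pd i f x := fun i =>
    (hf.continuous_fderiv (by simp)).clm_apply continuous_const
  unfold gr
  refine (PiLp.continuous_toLp 2 _).comp (continuous_pi fun i => ?_)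
  fin_cases i
  · exact h1 0
  · exact h1 1
  · exact h1 2

/-- cut-off of an integrable function -/
private theorem Cut_lim {F : E → ℝ} (hF : Integrable F volume) :
    Tendsto (fun n => ∫ x, Cut_et n x * F x) atTop (𝓝 (∫ x, F x)) := by
  refine tendsto_integral_of_dominated_convergence (fun x => ‖F x‖) (fun n => ?_) hF.norm (fun n => ?_) ?_
  · exact (Cut_smooth n).continuous.aestronglyMeasurable.mul hF.1
  · refine Eventually.of_forall fun x => ?_
    rw [norm_mul, Real.norm_of_nonneg (Cut_nonneg n x)]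
    exact mul_le_of_le_one_left (norm_nonneg _) (Cut_le_one n x)
  · refine Eventually.of_forall fun x => ?_
    refine tendsto_const_nhds.congr' ?_
    obtain ⟨N, hN⟩ := exists_nat_gt ‖x‖
    filter_upwards [eventually_ge_atTop N] with n hn
    have h1 : (N : ℝ) ≤ n := by exact_mod_cast hn
    rw [Cut_one (by linarith), one_mul]

/-- the tail of an integrable function -/
private theorem Cut_tail {F : E → ℝ} (hF : Integrable F volume) :
    Tendsto (fun n : ℕ => ∫ x, {x : E | (n : ℝ) + 1 ≤ ‖x‖}.indicator F x) atTop (𝓝 0) := by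
  have h0 : ∫ _ : E, (0 : ℝ) = 0 := integral_zero _ _
  rw [← h0]
  have hm : ∀ n : ℕ, MeasurableSet {x : E | (n : ℝ) + 1 ≤ ‖x‖} := fun n =>
    measurableSet_le measurable_const measurable_norm
  refine tendsto_integral_of_dominated_convergence (fun x => ‖F x‖) (fun n => ?_) hF.norm (fun n => ?_) ?_
  · exact hF.1.indicator (hm n)
  · exact Eventually.of_forall fun x => norm_indicator_le_norm_self _ _
  · refine Eventually.of_forall fun x => ?_
    refine tendsto_const_nhds.congr' ?_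
    obtain ⟨N, hN⟩ := exists_nat_gt ‖x‖
    filter_upwards [eventually_ge_atTop N] with n hn
    have h1 : (N : ℝ) ≤ n := by exact_mod_cast hn
    have h2 : x ∉ {x : E | (n : ℝ) + 1 ≤ ‖x‖} := by
      intro h3
      have h4 : (n : ℝ) + 1 ≤ ‖x‖ := h3
      linarith
    rw [indicator_of_notMem h2]

private theorem Cut_young {a b c κ : ℝ} (hκ : 0 < κ) (hb : 0 ≤ b) :
    a * (b * c) ≤ a ^ 2 / (2 * κ) + κ / 2 * (2 / 3 * b ^ 3 + 1 / 3 * c ^ 6) := by
  have h1 : b ^ 2 * c ^ 2 ≤ 2 / 3 * b ^ 3 + 1 / 3 * c ^ 6 := by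
    have h2 : 0 ≤ (b - c ^ 2) ^ 2 * (2 * b + c ^ 2) := by positivity
    nlinarith
  have h3 : a * (b * c) ≤ a ^ 2 / (2 * κ) + κ / 2 * (b ^ 2 * c ^ 2) := by
    have h4 : 0 ≤ (a - κ * (b * c)) ^ 2 / (2 * κ) := by positivity
    have h5 : (a - κ * (b * c)) ^ 2 / (2 * κ) = a ^ 2 / (2 * κ) - a * (b * c) + κ / 2 * (b ^ 2 * c ^ 2) := by
      field_simp
      ring
    linarith
  have h6 := mul_le_mul_of_nonneg_left h1 (by positivity : 0 ≤ κ / 2)
  linarith

/-- volume of the shell times the cube of the gradient bound -/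
private theorem Cut_vol (C : ℝ) (n : ℕ) :
    ∫ x : E, (Metric.closedBall (0 : E) (2 * ((n : ℝ) + 1))).indicator (fun _ => (C / ((n : ℝ) + 1)) ^ 3) x =
      8 * C ^ 3 * volume.real (Metric.closedBall (0 : E) 1) := by
  have hn : (0 : ℝ) < (n : ℝ) + 1 := by positivity
  rw [integral_indicator Metric.isClosed_closedBall.measurableSet, setIntegral_const, smul_eq_mul]
  have h1 : volume.real (Metric.closedBall (0 : E) (2 * ((n : ℝ) + 1))) =
      (2 * ((n : ℝ) + 1)) ^ 3 * volume.real (Metric.closedBall (0 : E) 1) := by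
    have h2 := Measure.addHaar_real_closedBall (volume : Measure E) (0 : E) (r := 2 * ((n : ℝ) + 1)) (by positivity)
    have h3 := Measure.addHaar_real_closedBall (volume : Measure E) (0 : E) (r := 1) zero_le_one
    rw [one_pow, one_mul] at h3
    rw [h2, h3]
    simp
  rw [h1]
  field_simp
  ring

private theorem Cut_err {B' φ : E → E} (hB : MemLp B' 2 volume) (hφc : Continuous φ) (hφ6 : MemLp φ 6 volume)
    {C : ℝ} (hC0 : 0 ≤ C) (hC : ∀ (n : ℕ) (x : E), ‖gr (Cut_et n) x‖ ≤ C / ((n : ℝ) + 1)) {κ : ℝ} (hκ : 0 < κ) (n : ℕ) :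
    Integrable (fun x => ⟪B' x, cr (gr (Cut_et n) x) (φ x)⟫) volume ∧
    |∫ x, ⟪B' x, cr (gr (Cut_et n) x) (φ x)⟫| ≤
      (∫ x, {x : E | (n : ℝ) + 1 ≤ ‖x‖}.indicator (fun x => ‖B' x‖ ^ 2) x) / (2 * κ) +
        κ / 2 * (2 / 3 * (8 * C ^ 3 * volume.real (Metric.closedBall (0 : E) 1)) + 1 / 3 * ∫ x, ‖φ x‖ ^ 6) := by
  have hm : MeasurableSet {x : E | (n : ℝ) + 1 ≤ ‖x‖} := measurableSet_le measurable_const measurable_norm
  have i1 : Integrable (fun x => {x : E | (n : ℝ) + 1 ≤ ‖x‖}.indicator (fun x => ‖B' x‖ ^ 2) x) volume :=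
    (int2 hB).indicator hm
  have i2 : Integrable (fun x : E => (Metric.closedBall (0 : E) (2 * ((n : ℝ) + 1))).indicator
      (fun _ => (C / ((n : ℝ) + 1)) ^ 3) x) volume := by
    refine (integrable_indicator_iff Metric.isClosed_closedBall.measurableSet).2 ?_
    exact integrableOn_const (isCompact_closedBall (0 : E) _).measure_lt_top.ne
  have i3 := int6 hφ6
  have i5 : Integrable (fun x : E => κ / 2 * (2 / 3 * (Metric.closedBall (0 : E) (2 * ((n : ℝ) + 1))).indicator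
      (fun _ => (C / ((n : ℝ) + 1)) ^ 3) x + 1 / 3 * ‖φ x‖ ^ 6)) volume :=
    ((i2.const_mul (2 / 3)).add (i3.const_mul (1 / 3))).const_mul (κ / 2)
  have i4 := (i1.div_const (2 * κ)).add i5
  have hp : ∀ x : E, ‖⟪B' x, cr (gr (Cut_et n) x) (φ x)⟫‖ ≤
      {x : E | (n : ℝ) + 1 ≤ ‖x‖}.indicator (fun x => ‖B' x‖ ^ 2) x / (2 * κ) +
        κ / 2 * (2 / 3 * (Metric.closedBall (0 : E) (2 * ((n : ℝ) + 1))).indicator (fun _ => (C / ((n : ℝ) + 1)) ^ 3) x +
          1 / 3 * ‖φ x‖ ^ 6) := by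
    intro x
    have hb0 : 0 ≤ {x : E | (n : ℝ) + 1 ≤ ‖x‖}.indicator (fun x => ‖B' x‖ ^ 2) x :=
      indicator_nonneg (fun _ _ => by positivity) _
    have hb1 : 0 ≤ (Metric.closedBall (0 : E) (2 * ((n : ℝ) + 1))).indicator (fun _ => (C / ((n : ℝ) + 1)) ^ 3) x :=
      indicator_nonneg (fun _ _ => by positivity) _
    by_cases h0 : gr (Cut_et n) x = 0
    · have h1 : cr (gr (Cut_et n) x) (φ x) = 0 := by
        have h2 := norm_cr_le (gr (Cut_et n) x) (φ x)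
        rw [h0, norm_zero, zero_mul] at h2
        rw [h0]
        exact norm_le_zero_iff.1 h2
      rw [h1, inner_zero_right, norm_zero]
      positivity
    · have h1 : (n : ℝ) + 1 ≤ ‖x‖ := by
        by_contra h2
        exact h0 (Cut_gr_in (not_le.1 h2))
      have h2 : ‖x‖ ≤ 2 * ((n : ℝ) + 1) := by
        by_contra h2
        exact h0 (Cut_gr_out (not_le.1 h2))
      have h3 : x ∈ {x : E | (n : ℝ) + 1 ≤ ‖x‖} := h1
      have h4 : x ∈ Metric.closedBall (0 : E) (2 * ((n : ℝ) + 1)) := by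
        rw [Metric.mem_closedBall, dist_zero_right]
        exact h2
      rw [indicator_of_mem h3, indicator_of_mem h4]
      have h5 : ‖⟪B' x, cr (gr (Cut_et n) x) (φ x)⟫‖ ≤ ‖B' x‖ * (C / ((n : ℝ) + 1) * ‖φ x‖) := by
        refine (norm_inner_le_norm _ _).trans (mul_le_mul_of_nonneg_left ?_ (norm_nonneg _))
        exact (norm_cr_le _ _).trans (mul_le_mul_of_nonneg_right (hC n x) (norm_nonneg _))
      exact h5.trans (Cut_young hκ (by positivity))
  have hmeas : AEStronglyMeasurable (fun x => ⟪B' x, cr (gr (Cut_et n) x) (φ x)⟫) volume :=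
    hB.1.inner (Cut_cont_cr (Cut_cont_gr (Cut_smooth n)) hφc).aestronglyMeasurable
  refine ⟨Integrable.mono' i4 hmeas (Eventually.of_forall hp), ?_⟩
  rw [← Real.norm_eq_abs]
  refine (norm_integral_le_of_norm_le i4 (Eventually.of_forall hp)).trans (le_of_eq ?_)
  simp only [Pi.add_apply]
  rw [integral_add (i1.div_const (2 * κ)) i5, integral_div, integral_const_mul,
    integral_add (i2.const_mul (2 / 3)) (i3.const_mul (1 / 3)), integral_const_mul, integral_const_mul, Cut_vol]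

theorem cut_pair {B' V' φ : E → E} (hB : MemLp B' 2 volume) (hV : MemLp V' (6 / 5) volume)
    (h : WC univ B' V') (hφ : ContDiff ℝ ∞ φ) (hφ6 : MemLp φ 6 volume)
    (hc : MemLp (curl φ) 2 volume) : ∫ x, ⟪B' x, curl φ x⟫ = ∫ x, ⟪V' x, φ x⟫ := by
  obtain ⟨C, hC0, hC⟩ := Cut_gr_bound
  have l1 := Cut_lim (integrable22 hB hc)
  have l2 := Cut_lim (integrable65 hV hφ6)
  have l3 := Cut_tail (int2 hB)
  have key : ∀ n : ℕ, ∫ x, ⟪B' x, cr (gr (Cut_et n) x) (φ x)⟫ =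
      (∫ x, Cut_et n x * ⟪V' x, φ x⟫) - ∫ x, Cut_et n x * ⟪B' x, curl φ x⟫ := by
    intro n
    have ht : TestIn univ (fun x => Cut_et n x • φ x) :=
      ⟨(Cut_smooth n).smul hφ, (Cut_cpt n).smul_right, subset_univ _⟩
    have h1 := h _ ht
    have h2 : ∀ x, ⟪B' x, curl (fun x => Cut_et n x • φ x) x⟫ =
        ⟪B' x, cr (gr (Cut_et n) x) (φ x)⟫ + Cut_et n x * ⟪B' x, curl φ x⟫ := by
      intro x
      rw [curl_smul ((Cut_smooth n).differentiable (by simp) x) (hφ.differentiable (by simp) x), inner_add_right,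
        inner_smul_right]
    have h3 : ∀ x, ⟪V' x, Cut_et n x • φ x⟫ = Cut_et n x * ⟪V' x, φ x⟫ := fun x => inner_smul_right _ _ _
    simp only [h2, h3] at h1
    have i1 := (Cut_err hB hφ.continuous hφ6 hC0 hC one_pos n).1
    have i2 : Integrable (fun x => Cut_et n x * ⟪B' x, curl φ x⟫) volume := by
      refine (integrable22 hB hc).bdd_mul (c := 1) (Cut_smooth n).continuous.aestronglyMeasurable ?_
      refine Eventually.of_forall fun x => ?_
      rw [Real.norm_of_nonneg (Cut_nonneg n x)]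
      exact Cut_le_one n x
    rw [integral_add i1 i2] at h1
    linarith
  have lim : Tendsto (fun n : ℕ => ∫ x, ⟪B' x, cr (gr (Cut_et n) x) (φ x)⟫) atTop
      (𝓝 ((∫ x, ⟪V' x, φ x⟫) - ∫ x, ⟪B' x, curl φ x⟫)) := by
    simp only [key]
    exact l2.sub l1
  have hM : 0 ≤ 2 / 3 * (8 * C ^ 3 * volume.real (Metric.closedBall (0 : E) 1)) + 1 / 3 * ∫ x, ‖φ x‖ ^ 6 := by
    have h1 : 0 ≤ ∫ x, ‖φ x‖ ^ 6 := integral_nonneg fun x => by positivity
    positivity
  have le : ∀ κ : ℝ, 0 < κ → |(∫ x, ⟪V' x, φ x⟫) - ∫ x, ⟪B' x, curl φ x⟫| ≤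
      κ / 2 * (2 / 3 * (8 * C ^ 3 * volume.real (Metric.closedBall (0 : E) 1)) + 1 / 3 * ∫ x, ‖φ x‖ ^ 6) := by
    intro κ hκ
    have h1 := (l3.div_const (2 * κ)).add_const
      (κ / 2 * (2 / 3 * (8 * C ^ 3 * volume.real (Metric.closedBall (0 : E) 1)) + 1 / 3 * ∫ x, ‖φ x‖ ^ 6))
    rw [zero_div, zero_add] at h1
    exact le_of_tendsto_of_tendsto' lim.abs h1 fun n => (Cut_err hB hφ.continuous hφ6 hC0 hC hκ n).2
  have fin : |(∫ x, ⟪V' x, φ x⟫) - ∫ x, ⟪B' x, curl φ x⟫| ≤ 0 := by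
    refine le_of_forall_pos_le_add fun ε hε => ?_
    obtain ⟨M, hMd⟩ : ∃ M, M = 2 / 3 * (8 * C ^ 3 * volume.real (Metric.closedBall (0 : E) 1)) + 1 / 3 * ∫ x, ‖φ x‖ ^ 6 :=
      ⟨_, rfl⟩
    rw [← hMd] at hM
    have h1 := le (ε / (M + 1)) (by positivity)
    rw [← hMd] at h1
    have h2 : ε / (M + 1) / 2 * M ≤ ε := by
      rw [div_div, div_mul_eq_mul_div, div_le_iff₀ (by positivity)]
      nlinarith
    linarith
  have h9 := abs_nonpos_iff.1 fin
  linarith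

end Pool.CQ
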