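import Pool.Agent.Lib.MP_cd5b91_an.CQ.Alg
import Pool.Agent.Lib.MP_cd5b91_an.CQ.LpFacts

/-!
# CQ-CutWC
-/

open MeasureTheory Filter Topology Set
open scoped ContDiff RealInnerProductSpace ENNReal

namespace Pool.CQ

private theorem curl_congr {φ ψ : E → E} {x : E} (h : φ =ᶠ[𝓝 x] ψ) : curl φ x = curl ψ x := by
  have h1 : ∀ i j : Fin 3, pd i (fun y => φ y j) x = pd i (fun y => ψ y j) x := by
    intro i j
    unfold pd
    have h2 : (fun y => φ y j) =ᶠ[𝓝 x] fun y => ψ y j := h.mono fun y hy => by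
      change (φ y).ofLp j = (ψ y).ofLp j
      rw [hy]
    rw [h2.fderiv_eq]
  unfold curl
  simp only [h1]

private theorem curl_zero' (x : E) : curl (fun _ => (0 : E)) x = 0 := by
  have h1 : ∀ i j : Fin 3, pd i (fun _ : E => (0 : E) j) x = 0 := by
    intro i j
    unfold pd
    simp
  unfold curl
  simp only [h1]
  ext i
  fin_cases i <;> simp

private theorem curl_off {φ : E → E} {x : E} (h : x ∉ tsupport φ) : curl φ x = 0 := by
  rw [← curl_zero' x]
  exact curl_congr (notMem_tsupport_iff_eventuallyEq.1 h)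

theorem cut_wc {A C : E → E} {U₁ U₂ Z F : Set E} (hU₁ : IsOpen U₁) (hU₂ : IsOpen U₂)
    (hZ : IsClosed Z) (hF : IsClosed F) (hcov : F ⊆ Z ∪ (U₁ ∪ U₂)) (hdis : F ∩ (U₁ ∩ U₂) ⊆ Z)
    (hA : ∀ᵐ x ∂(volume.restrict Fᶜ), A x = 0) (hC : ∀ᵐ x ∂(volume.restrict Fᶜ), C x = 0)
    (h : WC univ A C) : WC Zᶜ (U₁.indicator A) (U₁.indicator C) := by
  rintro φ ⟨hφ1, hφ2, hφ3⟩
  -- the compact sets
  have hK : IsCompact (tsupport φ ∩ F) := hφ2.isCompact.inter_right hF
  have hK1 : IsCompact (tsupport φ ∩ F ∩ U₂ᶜ) := hK.inter_right hU₂.isClosed_compl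
  have hK2 : IsCompact (tsupport φ ∩ F ∩ U₁ᶜ) := hK.inter_right hU₁.isClosed_compl
  have hKU : ∀ x ∈ tsupport φ ∩ F, x ∈ U₁ ∨ x ∈ U₂ := by
    rintro x ⟨h1, h2⟩
    rcases hcov h2 with h3 | h3
    · exact absurd h3 (hφ3 h1)
    · exact h3
  have hop : IsOpen (U₁ \ (tsupport φ ∩ F ∩ U₁ᶜ)) := hU₁.sdiff hK2.isClosed
  have hsub : tsupport φ ∩ F ∩ U₂ᶜ ⊆ U₁ \ (tsupport φ ∩ F ∩ U₁ᶜ) := by
    rintro x ⟨h1, h2⟩
    have h3 : x ∈ U₁ := (hKU x h1).resolve_right h2
    exact ⟨h3, fun h4 => h4.2 h3⟩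
  obtain ⟨L, hL, hKL, hLU⟩ := exists_compact_between hK1 hop hsub
  obtain ⟨χ, hχ1, hχ2, -⟩ := exists_contMDiffMap_one_nhds_of_subset_interior (n := ⊤) (modelWithCornersSelf ℝ E)
    hK1.isClosed hKL
  have hχs : ContDiff ℝ ∞ (χ : E → ℝ) := χ.contMDiff.contDiff
  have hψs : ContDiff ℝ ∞ fun x => χ x • φ x := hχs.smul hφ1
  have hψsup : tsupport (fun x => χ x • φ x) ⊆ tsupport φ := by
    refine closure_mono fun x hx => ?_
    rw [Function.mem_support] at hx ⊢
    intro h0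
    exact hx (by rw [h0, smul_zero])
  have hψc : HasCompactSupport fun x => χ x • φ x := hφ2.of_isClosed_subset (isClosed_tsupport _) hψsup
  have hmain := h (fun x => χ x • φ x) ⟨hψs, hψc, subset_univ _⟩
  have hA' : ∀ᵐ x : E, x ∈ Fᶜ → A x = 0 := (ae_restrict_iff' hF.measurableSet.compl).1 hA
  have hC' : ∀ᵐ x : E, x ∈ Fᶜ → C x = 0 := (ae_restrict_iff' hF.measurableSet.compl).1 hC
  -- the local picture
  have hloc1 : ∀ x ∈ tsupport φ ∩ F, x ∈ U₁ → (χ : E → ℝ) =ᶠ[𝓝 x] fun _ => 1 := by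
    intro x hx hxU
    have h1 : x ∈ tsupport φ ∩ F ∩ U₂ᶜ := ⟨hx, fun h2 => hφ3 hx.1 (hdis ⟨hx.2, hxU, h2⟩)⟩
    exact (eventually_nhdsSet_iff_forall.1 hχ1) x h1
  have hloc2 : ∀ x ∈ tsupport φ ∩ F, x ∉ U₁ → (χ : E → ℝ) =ᶠ[𝓝 x] fun _ => 0 := by
    intro x hx hxU
    have h1 : x ∈ Lᶜ := fun h2 => (hLU h2).2 ⟨hx, hxU⟩
    exact (hL.isClosed.isOpen_compl.mem_nhds h1 |> Filter.mem_of_superset) fun y hy => hχ2 y hy
  have e1 : ∫ x, ⟪U₁.indicator A x, curl φ x⟫ = ∫ x, ⟪A x, curl (fun x => χ x • φ x) x⟫ := by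
    refine integral_congr_ae ?_
    filter_upwards [hA'] with x hx
    by_cases hxF : x ∈ F
    · by_cases hxs : x ∈ tsupport φ
      · by_cases hxU : x ∈ U₁
        · rw [indicator_of_mem hxU]
          congr 1
          refine curl_congr ((hloc1 x ⟨hxs, hxF⟩ hxU).mono fun y hy => ?_)
          change φ y = χ y • φ y
          rw [hy, one_smul]
        · rw [indicator_of_notMem hxU, inner_zero_left]
          have h1 : curl (fun x => χ x • φ x) x = 0 := by
            rw [← curl_zero' x]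
            refine curl_congr ((hloc2 x ⟨hxs, hxF⟩ hxU).mono fun y hy => ?_)
            change χ y • φ y = 0
            rw [hy, zero_smul]
          rw [h1, inner_zero_right]
      · rw [curl_off hxs, curl_off fun h1 => hxs (hψsup h1), inner_zero_right, inner_zero_right]
    · have h1 := hx hxF
      have h2 : U₁.indicator A x = 0 := by
        by_cases hxU : x ∈ U₁
        · rw [indicator_of_mem hxU, h1]
        · rw [indicator_of_notMem hxU]
      rw [h1, h2, inner_zero_left, inner_zero_left]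
  have e2 : ∫ x, ⟪U₁.indicator C x, φ x⟫ = ∫ x, ⟪C x, χ x • φ x⟫ := by
    refine integral_congr_ae ?_
    filter_upwards [hC'] with x hx
    by_cases hxF : x ∈ F
    · by_cases hxs : x ∈ tsupport φ
      · by_cases hxU : x ∈ U₁
        · rw [indicator_of_mem hxU, (hloc1 x ⟨hxs, hxF⟩ hxU).eq_of_nhds, one_smul]
        · rw [indicator_of_notMem hxU, (hloc2 x ⟨hxs, hxF⟩ hxU).eq_of_nhds, zero_smul, inner_zero_left,
            inner_zero_right]
      · rw [image_eq_zero_of_notMem_tsupport hxs, smul_zero, inner_zero_right, inner_zero_right]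
    · have h1 := hx hxF
      have h2 : U₁.indicator C x = 0 := by
        by_cases hxU : x ∈ U₁
        · rw [indicator_of_mem hxU, h1]
        · rw [indicator_of_notMem hxU]
      rw [h1, h2, inner_zero_left, inner_zero_left]
  rw [e1, e2]
  exact hmain

end Pool.CQ
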