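import Pool.Agent.Lib.MP_cd5b91_an.CQ.Pub
import Pool.Agent.Lib.MP_28fba0_gt.UV.MollDef

/-!
# MP_cd5b91_an (critical curl-curl equation): definitions
-/

open MeasureTheory Filter Topology Set
open scoped ContDiff RealInnerProductSpace

namespace Pool.CQ

/-- Ground states (with `B = ∇ × u`): nontrivial weak solutions of least energy among the nontrivial
weak solutions, which give equality in the curl-Sobolev inequality (last clause: the inequality holds
with `S = (∫ |u|⁶)^{2/3}`; then `S = S_curl`, equality holds at `u` and `J(u) = S_curl^{3/2} / 3`). -/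
structure GS (u B : E → E) : Prop where
  sol : WeakSol u B
  ne : ¬ (u =ᵐ[volume] fun _ => 0)
  least : ∀ v C : E → E, WeakSol v C → ¬ (v =ᵐ[volume] fun _ => 0) → J u B ≤ J v C
  sob : CurlSob ((∫ x, ‖u x‖ ^ 6) ^ (2 / 3 : ℝ))

/-! ### axial symmetry -/

/-- rotation by the angle `γ` about the third axis -/
noncomputable def rot (γ : ℝ) (x : E) : E :=
  !₂[Real.cos γ * x 0 - Real.sin γ * x 1, Real.sin γ * x 0 + Real.cos γ * x 1, x 2]

/-- `r² = x₀² + x₁²` -/
noncomputable def rr (x : E) : ℝ := x 0 ^ 2 + x 1 ^ 2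

/-- the complement of the axis -/
def Oax : Set E := {x | 0 < rr x}

/-- the rotation field `T(x) = (-x₁, x₀, 0)` -/
noncomputable def T (x : E) : E := !₂[-x 1, x 0, 0]

/-- `∇θ = T / r²` -/
noncomputable def th (x : E) : E := (rr x)⁻¹ • T x

/-- rotation invariant functions -/
def RotInv (f : E → ℝ) : Prop := ∀ γ x, f (rot γ x) = f x

/-- rotation equivariant fields -/
def Equi (u : E → E) : Prop := ∀ γ x, u (rot γ x) = rot γ (u x)

/-- toroidal (swirl) part -/
noncomputable def tor (u : E → E) (x : E) : E := ⟪u x, T x⟫ • th x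

/-- poloidal part -/
noncomputable def pol (u : E → E) (x : E) : E := u x - tor u x

/-- `G` is the weak gradient of `ψ` on `O` -/
def WGrad (O : Set E) (ψ : E → ℝ) (G : E → E) : Prop :=
  ∀ η : E → ℝ, STest O η → ∀ i : Fin 3, ∫ x, ψ x * pd i η x = -∫ x, G x i * η x

/-- locally in `L^p` on `O` (on compact subsets of `O`) -/
def LpL {F : Type} [NormedAddCommGroup F] (p : ENNReal) (O : Set E) (f : E → F) : Prop :=
  ∀ K : Set E, IsCompact K → K ⊆ O → MemLp f p (volume.restrict K)

/-- mollification of scalar functions -/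
noncomputable def mol (n : ℕ) (f : E → ℝ) (x : E) : ℝ := Pool.UVF.moll n f x

/-- mollification of vector fields -/
noncomputable def vmol (n : ℕ) (u : E → E) (x : E) : E :=
  !₂[mol n (fun y => u y 0) x, mol n (fun y => u y 1) x, mol n (fun y => u y 2) x]

/-- the positive part of `ψ` and the corresponding field -/
noncomputable def posf (ψ : E → ℝ) (x : E) : ℝ := max (ψ x) 0

open Classical in
/-- `1_{ψ > 0} C` -/
noncomputable def cutp (ψ : E → ℝ) (C : E → E) (x : E) : E := if 0 < ψ x then C x else 0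

/-- scaling of the first two coordinates -/
noncomputable def sc (s : ℝ) (x : E) : E := !₂[s * x 0, s * x 1, x 2]

open Classical in
/-- truncation of a function off the axis -/
noncomputable def trunc (n : ℕ) (f : E → ℝ) (x : E) : ℝ :=
  if 1 / ((n : ℝ) + 1) ≤ rr x ∧ ‖x‖ ≤ (n : ℝ) + 1 ∧ |f x| ≤ (n : ℝ) + 1 then f x else 0

/-- Data of a nonnegative supersolution `ψ` of an equation of `p`-Laplace type off the axis:
`G` is the weak gradient, `F` the flux, `e = ⟪F, G⟫` the energy density. -/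
structure SD (p q : ℝ) (ψ : E → ℝ) (G F : E → E) (e : E → ℝ) : Prop where
  hp : 1 < p
  hp2 : p ≤ 2
  hpq : 1 / p + 1 / q = 1
  nonneg : ∀ x, 0 ≤ ψ x
  Lψ : LpL (ENNReal.ofReal p) Oax ψ
  LG : LpL (ENNReal.ofReal p) Oax G
  LF : LpL (ENNReal.ofReal q) Oax F
  Le : LpL 1 Oax e
  wg : WGrad Oax ψ G
  sup : ∀ η : E → ℝ, STest Oax η → (∀ x, 0 ≤ η x) → 0 ≤ ∫ x, ⟪F x, gr η x⟫
  en : ∀ᵐ x, e x = ⟪F x, G x⟫
  bd : ∀ K : Set E, IsCompact K → K ⊆ Oax →
    ∃ M : ℝ, 0 < M ∧ ∀ᵐ x ∂(volume.restrict K), ‖F x‖ ^ q ≤ M * e x ∧ ‖G x‖ ^ p ≤ M * e x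

end Pool.CQ
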