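import Pool.Agent.Lib.MP_cd5b91_an.CQ.ThinN

/-!
# CQ-DivThin
-/

open MeasureTheory Filter Topology Set
open scoped ContDiff RealInnerProductSpace ENNReal

namespace Pool.CQ

private theorem dv_ev {Z : Set E} (hZ : IsClosed Z) {x : E} (hx : x ∉ Z) :
    ∀ᶠ n : ℕ in atTop, x ∉ Metric.cthickening (4 / ((n : ℝ) + 1)) Z := by
  have h1 : 0 < Metric.infEDist x Z := by
    rw [pos_iff_ne_zero]
    intro h0
    exact hx (hZ.closure_eq ▸ Metric.mem_closure_iff_infEDist_zero.2 h0)
  have h2 : Tendsto (fun n : ℕ => ENNReal.ofReal (4 / ((n : ℝ) + 1))) atTop (𝓝 0) := by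
    have h3 : Tendsto (fun n : ℕ => 4 / ((n : ℝ) + 1)) atTop (𝓝 0) := by
      have h4 := (tendsto_one_div_add_atTop_nhds_zero_nat (𝕜 := ℝ)).const_mul 4
      rw [mul_zero] at h4
      refine h4.congr fun n => by ring
    simpa using ENNReal.tendsto_ofReal h3
  filter_upwards [h2.eventually_lt_const h1] with n hn
  rw [Metric.mem_cthickening_iff, not_le]
  exact hn

private theorem dv_meas (Z : Set E) (R : ℝ) (n : ℕ) :
    MeasurableSet (Metric.cthickening (4 / ((n : ℝ) + 1)) Z ∩ Metric.closedBall (0 : E) R) :=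
  Metric.isClosed_cthickening.measurableSet.inter measurableSet_closedBall

private theorem dv_intOn {A : E → E} (hA : LpL 1 univ A) (R : ℝ) :
    IntegrableOn A (Metric.closedBall (0 : E) R) :=
  memLp_one_iff_integrable.1 (hA _ (isCompact_closedBall 0 R) (subset_univ _))

private theorem dv_pd (i : Fin 3) {f : E → ℝ} (hf : ContDiff ℝ ∞ f) : Continuous (pd i f) := by
  unfold pd
  exact (hf.continuous_fderiv (by simp)).clm_apply continuous_const

private theorem dv_gr {f : E → ℝ} (h : ContDiff ℝ ∞ f) : Continuous (gr f) := by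
  have a1 := dv_pd 0 h
  have a2 := dv_pd 1 h
  have a3 := dv_pd 2 h
  unfold gr
  fun_prop

private theorem dv_off {f : E → ℝ} {c : ℝ} {x : E} (hx : f =ᶠ[𝓝 x] fun _ => c) : gr f x = 0 := by
  have h : ∀ i : Fin 3, pd i f x = 0 := by
    intro i
    unfold pd
    rw [hx.fderiv_eq]
    simp
  unfold gr
  ext i
  fin_cases i <;> simp [h]

private theorem dv_inner {K : Set E} {A g : E → E} (hA : IntegrableOn A K)
    (hg : Continuous g) {M : ℝ} (hM : ∀ x, ‖g x‖ ≤ M) (h0 : ∀ x, x ∉ K → g x = 0) :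
    Integrable (fun x => ⟪A x, g x⟫) := by
  have h1 : IntegrableOn (fun x => ⟪A x, g x⟫) K := by
    refine Integrable.mono' (hA.norm.mul_const M) ?_ (Eventually.of_forall fun x => ?_)
    · exact hA.aestronglyMeasurable.inner hg.aestronglyMeasurable
    · exact (norm_inner_le_norm _ _).trans (mul_le_mul_of_nonneg_left (hM x) (norm_nonneg _))
  refine (integrableOn_iff_integrable_of_support_subset ?_).mp h1
  intro x hx
  by_contra h
  apply hx
  show ⟪A x, g x⟫ = 0
  rw [h0 x h, inner_zero_right]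

private theorem dv_lim {Z : Set E} (hZ : IsClosed Z) {χ : ℕ → E → ℝ} (hs : ∀ n, ContDiff ℝ ∞ (χ n))
    (hb : ∀ n x, 0 ≤ χ n x ∧ χ n x ≤ 1)
    (h0 : ∀ (n : ℕ) (x : E), x ∉ Metric.cthickening (4 / ((n : ℝ) + 1)) Z → χ n x = 0) {f : E → ℝ}
    (hf : Integrable f) (hfZ : ∀ᵐ x : E, x ∈ Z → f x = 0) :
    Tendsto (fun n : ℕ => ∫ x, (1 - χ n x) * f x) atTop (𝓝 (∫ x, f x)) := by
  refine tendsto_integral_of_dominated_convergence (fun x => ‖f x‖) (fun n => ?_) hf.norm
    (fun n => ?_) ?_
  · exact (continuous_const.sub (hs n).continuous).aestronglyMeasurable.mul hf.aestronglyMeasurable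
  · refine Eventually.of_forall fun x => ?_
    rw [norm_mul, Real.norm_of_nonneg (by linarith [(hb n x).2])]
    exact mul_le_of_le_one_left (norm_nonneg _) (by linarith [(hb n x).1])
  · filter_upwards [hfZ] with x hx
    refine tendsto_const_nhds.congr' ?_
    by_cases hxZ : x ∈ Z
    · refine Eventually.of_forall fun n => ?_
      simp only [hx hxZ, mul_zero]
    · filter_upwards [dv_ev hZ hxZ] with n hn
      rw [h0 n x hn, sub_zero, one_mul]

/-- weak divergence zero across a closed set on which `A` vanishes in the weak sense -/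
theorem div_neg {Z : Set E} (hZ : IsClosed Z) {A : E → E} (hA : LpL 1 univ A) (hneg : Neg Z A)
    (h : ∀ f : E → ℝ, STest Zᶜ f → ∫ x, ⟪A x, gr f x⟫ = 0) :
    ∀ f : E → ℝ, STest univ f → ∫ x, ⟪A x, gr f x⟫ = 0 := by
  intro f hf
  obtain ⟨hs, hc, -⟩ := hf
  obtain ⟨R, hR0, hR⟩ : ∃ R : ℝ, 0 ≤ R ∧ tsupport f ⊆ Metric.closedBall 0 R := by
    obtain ⟨R, hR⟩ := hc.isCompact.isBounded.subset_closedBall (0 : E)
    exact ⟨max R 0, le_max_right _ _, hR.trans (Metric.closedBall_subset_closedBall (le_max_left _ _))⟩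
  obtain ⟨D, χ, hχ⟩ := thin_cut hZ
  have hχs : ∀ n, ContDiff ℝ ∞ (χ n) := fun n => (hχ n).1
  have hχb : ∀ n x, 0 ≤ χ n x ∧ χ n x ≤ 1 := fun n => (hχ n).2.1
  have hχ1 : ∀ n : ℕ, ∀ x ∈ Metric.thickening (1 / ((n : ℝ) + 1)) Z, χ n x = 1 :=
    fun n => (hχ n).2.2.1
  have hχ0 : ∀ n : ℕ, ∀ x, x ∉ Metric.cthickening (4 / ((n : ℝ) + 1)) Z → χ n x = 0 :=
    fun n => (hχ n).2.2.2.1
  have hχg : ∀ n, ∀ x, ‖gr (χ n) x‖ ≤ D * ((n : ℝ) + 1) := fun n => (hχ n).2.2.2.2
  set K : Set E := Metric.closedBall 0 R with hK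
  have hKc : IsCompact K := isCompact_closedBall 0 R
  have hA1 : IntegrableOn A K := dv_intOn hA R
  have hf0 : ∀ x, x ∉ K → f x = 0 := fun x hx => image_eq_zero_of_notMem_tsupport fun h1 => hx (hR h1)
  have hgf0 : ∀ x, x ∉ K → gr f x = 0 := fun x hx => by
    have hx' : x ∉ tsupport f := fun h1 => hx (hR h1)
    refine dv_off (c := 0) ?_
    filter_upwards [(isClosed_tsupport f).isOpen_compl.mem_nhds hx'] with y hy
    exact image_eq_zero_of_notMem_tsupport hy
  have hfc : Continuous f := hs.continuous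
  have hgc : Continuous (gr f) := dv_gr hs
  obtain ⟨M, hM⟩ : ∃ M, ∀ x, ‖f x‖ ≤ M := hfc.bounded_above_of_compact_support hc
  have hM0 : 0 ≤ M := (norm_nonneg _).trans (hM 0)
  have hD0 : 0 ≤ D := by
    have h1 := (norm_nonneg _).trans (hχg 0 0)
    simpa using h1
  obtain ⟨M', hM'⟩ : ∃ M', ∀ x, ‖gr f x‖ ≤ M' :=
    hgc.bounded_above_of_compact_support (HasCompactSupport.intro hKc hgf0)
  have i1 : Integrable (fun x => ⟪A x, gr f x⟫) := dv_inner hA1 hgc hM' hgf0
  have hA0 := (ae_restrict_iff' hZ.measurableSet).1 (neg_zero hZ hA hneg)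
  -- the cut off functions
  have hzs : ∀ n, ContDiff ℝ ∞ fun x => 1 - χ n x := fun n => contDiff_const.sub (hχs n)
  have hzg : ∀ n x, gr (fun x => 1 - χ n x) x = -gr (χ n) x := by
    intro n x
    have h1 : ∀ i : Fin 3, pd i (fun x => 1 - χ n x) x = -pd i (χ n) x := by
      intro i
      unfold pd
      rw [fderiv_const_sub]
      rfl
    unfold gr
    ext i
    fin_cases i <;> simp [h1]
  have htest : ∀ n, STest Zᶜ (fun x => (1 - χ n x) * f x) := by
    intro n
    refine ⟨(hzs n).mul hs, hc.mono (fun x hx hx' => hx ?_), ?_⟩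
    · show (1 - χ n x) * f x = 0
      rw [hx', mul_zero]
    · have h1 : tsupport (fun x => (1 - χ n x) * f x) ⊆ (Metric.thickening (1 / ((n : ℝ) + 1)) Z)ᶜ := by
        refine closure_minimal (fun x hx => ?_) Metric.isOpen_thickening.isClosed_compl
        intro h2
        have h3 : (1 - χ n x) * f x ≠ 0 := hx
        rw [hχ1 n x h2, sub_self, zero_mul] at h3
        exact h3 rfl
      refine h1.trans (compl_subset_compl.2 ?_)
      exact Metric.self_subset_thickening (by positivity) Z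
  have hGc : ∀ n : ℕ, Continuous fun x => f x • gr (fun x => 1 - χ n x) x :=
    fun n => hfc.smul (dv_gr (hzs n))
  have hG0 : ∀ (n : ℕ) (x : E), x ∉ K → f x • gr (fun x => 1 - χ n x) x = 0 := by
    intro n x hx
    rw [hf0 x hx, zero_smul]
  have hGb : ∀ (n : ℕ) (x : E), ‖f x • gr (fun x => 1 - χ n x) x‖ ≤ D * ((n : ℝ) + 1) * M := by
    intro n x
    rw [norm_smul, hzg, norm_neg, mul_comm]
    exact mul_le_mul (hχg n x) (hM x) (norm_nonneg _) (by positivity)
  have i3 : ∀ n : ℕ, Integrable fun x => ⟪A x, f x • gr (fun x => 1 - χ n x) x⟫ :=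
    fun n => dv_inner hA1 (hGc n) (hGb n) (hG0 n)
  -- the error term
  have hlim : Tendsto (fun n : ℕ => ∫ x, ⟪A x, f x • gr (fun x => 1 - χ n x) x⟫) atTop (𝓝 0) := by
    have h1 := (hneg R).const_mul (D * M)
    rw [mul_zero] at h1
    refine squeeze_zero_norm (fun n => ?_) h1
    have h2 : ‖∫ x, ⟪A x, f x • gr (fun x => 1 - χ n x) x⟫‖ ≤
        ∫ x, (Metric.cthickening (4 / ((n : ℝ) + 1)) Z ∩ K).indicator
          (fun x => ‖A x‖ * (D * ((n : ℝ) + 1) * M)) x := by
      refine norm_integral_le_of_norm_le ?_ (Eventually.of_forall fun x => ?_)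
      · have h3 : IntegrableOn (fun x => ‖A x‖ * (D * ((n : ℝ) + 1) * M))
            (Metric.cthickening (4 / ((n : ℝ) + 1)) Z ∩ K) :=
          ((hA1.mono_set inter_subset_right).norm).mul_const _
        exact h3.integrable_indicator (dv_meas Z R n)
      · by_cases hx : x ∈ Metric.cthickening (4 / ((n : ℝ) + 1)) Z ∩ K
        · rw [indicator_of_mem hx]
          exact (norm_inner_le_norm _ _).trans (mul_le_mul_of_nonneg_left (hGb n x) (norm_nonneg _))
        · rw [indicator_of_notMem hx]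
          have h2 : f x • gr (fun x => 1 - χ n x) x = 0 := by
            by_cases hxK : x ∈ K
            · have h3 : x ∉ Metric.cthickening (4 / ((n : ℝ) + 1)) Z := fun h4 => hx ⟨h4, hxK⟩
              have h4 : (χ n) =ᶠ[𝓝 x] fun _ => 0 := by
                filter_upwards [Metric.isClosed_cthickening.isOpen_compl.mem_nhds h3] with y hy
                exact hχ0 n y hy
              rw [hzg, dv_off h4, _root_.neg_zero, smul_zero]
            · exact hG0 n x hxK
          rw [h2, inner_zero_right, norm_zero]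
    refine h2.trans (le_of_eq ?_)
    rw [integral_indicator (dv_meas Z R n), integral_mul_const]
    ring
  have hid : ∀ n : ℕ, (∫ x, ⟪A x, f x • gr (fun x => 1 - χ n x) x⟫) +
      (∫ x, (1 - χ n x) * ⟪A x, gr f x⟫) = 0 := by
    intro n
    have h1 := h _ (htest n)
    have h2 : ∀ x, ⟪A x, gr (fun x => (1 - χ n x) * f x) x⟫ =
        ⟪A x, f x • gr (fun x => 1 - χ n x) x⟫ + (1 - χ n x) * ⟪A x, gr f x⟫ := by
      intro x
      rw [gr_mul ((hzs n).differentiable (by simp) x) (hs.differentiable (by simp) x), inner_add_right,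
        inner_smul_right (A x) (gr f x)]
    have i4 : Integrable fun x => (1 - χ n x) * ⟪A x, gr f x⟫ := by
      refine i1.norm.mono' ((hzs n).continuous.aestronglyMeasurable.mul i1.aestronglyMeasurable)
        (Eventually.of_forall fun x => ?_)
      rw [norm_mul, Real.norm_of_nonneg (by linarith [(hχb n x).2])]
      exact mul_le_of_le_one_left (norm_nonneg _) (by linarith [(hχb n x).1])
    simp_rw [h2] at h1
    rw [← h1, integral_add (i3 n) i4]
  have hl := hlim.add (dv_lim hZ hχs hχb hχ0 i1 (by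
    filter_upwards [hA0] with x hx hxZ
    rw [hx hxZ, inner_zero_left]))
  rw [zero_add] at hl
  exact (tendsto_nhds_unique (hl.congr hid) tendsto_const_nhds)

/-- weak divergence zero across a thin set -/
theorem div_thin {Z : Set E} (hZ : Thin Z) {A : E → E} (hA : LpL 2 univ A)
    (h : ∀ f : E → ℝ, STest Zᶜ f → ∫ x, ⟪A x, gr f x⟫ = 0) :
    ∀ f : E → ℝ, STest univ f → ∫ x, ⟪A x, gr f x⟫ = 0 := by
  refine div_neg hZ.1 (fun K hK hKO => ?_) (neg_of_thin hZ hA) h
  have : IsFiniteMeasure (volume.restrict K) := ⟨by simpa using hK.measure_lt_top⟩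
  exact (hA K hK hKO).mono_exponent one_le_two

end Pool.CQ
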