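import Pool.Agent.Lib.MP_cd5b91_an.CQ.NehDefs

/-!
# CQ-NehCurl: gradients and test fields
-/

open MeasureTheory Filter Topology Set
open scoped ContDiff RealInnerProductSpace ENNReal

namespace Pool.CQ

private theorem nc_ext {a b : E} (h0 : a 0 = b 0) (h1 : a 1 = b 1) (h2 : a 2 = b 2) : a = b := by
  ext i
  fin_cases i
  · exact h0
  · exact h1
  · exact h2

private theorem nc_inner (a b : E) : ⟪a, b⟫ = a 0 * b 0 + a 1 * b 1 + a 2 * b 2 := by
  rw [PiLp.inner_apply, Fin.sum_univ_three]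
  simp only [RCLike.inner_apply, conj_trivial]
  ring

private theorem nc_pd_smooth {η : E → ℝ} (hη : ContDiff ℝ ∞ η) (i : Fin 3) : ContDiff ℝ ∞ (pd i η) := by
  have h1 : ContDiff ℝ ∞ (fderiv ℝ η) := hη.fderiv_right (by simp)
  exact h1.clm_apply contDiff_const

private theorem nc_pd_zero {η : E → ℝ} {x : E} (h : η =ᶠ[𝓝 x] fun _ => 0) (i : Fin 3) : pd i η x = 0 := by
  unfold pd
  rw [h.fderiv_eq]
  simp

private theorem nc_ev {η : E → ℝ} {x : E} (hx : x ∉ tsupport η) : η =ᶠ[𝓝 x] fun _ => 0 :=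
  notMem_tsupport_iff_eventuallyEq.1 hx

private theorem nc_coord {φ : E → E} (hφ : ContDiff ℝ ∞ φ) (j : Fin 3) : ContDiff ℝ ∞ (fun y => φ y j) :=
  (EuclideanSpace.proj (𝕜 := ℝ) j).contDiff.comp hφ

private theorem nc_coord_cs {φ : E → E} (hφ : HasCompactSupport φ) (j : Fin 3) :
    HasCompactSupport (fun y => φ y j) := by
  refine HasCompactSupport.intro hφ fun x hx => ?_
  rw [image_eq_zero_of_notMem_tsupport hx]
  rfl

private theorem nc_pd_cs {η : E → ℝ} (hη : HasCompactSupport η) (i : Fin 3) : HasCompactSupport (pd i η) :=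
  HasCompactSupport.intro hη fun _ hx => nc_pd_zero (nc_ev hx) i

private theorem nc_coord_ev {φ : E → E} {x : E} (hx : x ∉ tsupport φ) (j : Fin 3) :
    (fun y => φ y j) =ᶠ[𝓝 x] fun _ => 0 := by
  filter_upwards [notMem_tsupport_iff_eventuallyEq.1 hx] with y hy
  rw [hy]
  rfl

/-- gradients of test functions are test fields -/
theorem test_gr {η : E → ℝ} (hη : STest univ η) : TestIn univ (gr η) := by
  refine ⟨?_, ?_, subset_univ _⟩
  · rw [contDiff_euclidean]
    intro i
    fin_cases i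
    · exact nc_pd_smooth hη.1 0
    · exact nc_pd_smooth hη.1 1
    · exact nc_pd_smooth hη.1 2
  · refine HasCompactSupport.intro hη.2.1 fun x hx => ?_
    refine nc_ext ?_ ?_ ?_
    · exact nc_pd_zero (nc_ev hx) 0
    · exact nc_pd_zero (nc_ev hx) 1
    · exact nc_pd_zero (nc_ev hx) 2

private theorem nc_pd_pd {η : E → ℝ} (hη : ContDiff ℝ ∞ η) (i j : Fin 3) (x : E) :
    pd i (pd j η) x = fderiv ℝ (fderiv ℝ η) x (EuclideanSpace.single i (1 : ℝ))
      (EuclideanSpace.single j (1 : ℝ)) := by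
  have h1 : ContDiff ℝ ∞ (fderiv ℝ η) := hη.fderiv_right (by simp)
  have h2 : HasFDerivAt (fderiv ℝ η) (fderiv ℝ (fderiv ℝ η) x) x :=
    ((h1.differentiable (by simp)) x).hasFDerivAt
  have h3 : HasFDerivAt (pd j η)
      ((ContinuousLinearMap.apply ℝ ℝ (EuclideanSpace.single j (1 : ℝ) : E)).comp
        (fderiv ℝ (fderiv ℝ η) x)) x :=
    (ContinuousLinearMap.apply ℝ ℝ (EuclideanSpace.single j (1 : ℝ) : E)).hasFDerivAt.comp x h2
  have h4 : fderiv ℝ (pd j η) x = (ContinuousLinearMap.apply ℝ ℝ (EuclideanSpace.single j (1 : ℝ) : E)).comp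
      (fderiv ℝ (fderiv ℝ η) x) := h3.fderiv
  show fderiv ℝ (pd j η) x (EuclideanSpace.single i (1 : ℝ)) = _
  rw [h4]
  rfl

private theorem nc_symm {η : E → ℝ} (hη : ContDiff ℝ ∞ η) (i j : Fin 3) (x : E) :
    pd i (pd j η) x = pd j (pd i η) x := by
  have h : IsSymmSndFDerivAt ℝ η x := hη.contDiffAt.isSymmSndFDerivAt
    (by
      rw [minSmoothness_of_isRCLikeNormedField]
      exact WithTop.coe_le_coe.2 (le_top : (2 : ℕ∞) ≤ ⊤))
  rw [nc_pd_pd hη, nc_pd_pd hη]
  exact h _ _

/-- the curl of a gradient vanishes -/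
theorem curl_gr {η : E → ℝ} (hη : ContDiff ℝ ∞ η) (x : E) : curl (gr η) x = 0 := by
  refine nc_ext ?_ ?_ ?_
  · change pd 1 (pd 2 η) x - pd 2 (pd 1 η) x = 0
    rw [nc_symm hη 1 2, sub_self]
  · change pd 2 (pd 0 η) x - pd 0 (pd 2 η) x = 0
    rw [nc_symm hη 2 0, sub_self]
  · change pd 0 (pd 1 η) x - pd 1 (pd 0 η) x = 0
    rw [nc_symm hη 0 1, sub_self]

/-- test fields are in `L^p` -/
theorem test_memLp {φ : E → E} (hφ : TestIn univ φ) (p : ℝ≥0∞) : MemLp φ p volume :=
  hφ.1.continuous.memLp_of_hasCompactSupport hφ.2.1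

/-- the curl of a test field is a test field -/
theorem test_curl {φ : E → E} (hφ : TestIn univ φ) : TestIn univ (curl φ) := by
  have h : ∀ i j : Fin 3, ContDiff ℝ ∞ (pd i (fun y => φ y j)) := fun i j =>
    nc_pd_smooth (nc_coord hφ.1 j) i
  refine ⟨?_, ?_, subset_univ _⟩
  · rw [contDiff_euclidean]
    intro i
    fin_cases i
    · exact (h 1 2).sub (h 2 1)
    · exact (h 2 0).sub (h 0 2)
    · exact (h 0 1).sub (h 1 0)
  · refine HasCompactSupport.intro hφ.2.1 fun x hx => ?_
    have h0 : ∀ i j : Fin 3, pd i (fun y => φ y j) x = 0 := fun i j => nc_pd_zero (nc_coord_ev hx j) i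
    refine nc_ext ?_ ?_ ?_
    · change pd 1 (fun y => φ y 2) x - pd 2 (fun y => φ y 1) x = 0
      rw [h0, h0, sub_self]
    · change pd 2 (fun y => φ y 0) x - pd 0 (fun y => φ y 2) x = 0
      rw [h0, h0, sub_self]
    · change pd 0 (fun y => φ y 1) x - pd 1 (fun y => φ y 0) x = 0
      rw [h0, h0, sub_self]

private theorem nc_ibp {f g : E → ℝ} (hf : ContDiff ℝ ∞ f) (hfc : HasCompactSupport f) (hg : ContDiff ℝ ∞ g)
    (i : Fin 3) :
    Integrable (fun x => f x * pd i g x) volume ∧ Integrable (fun x => pd i f x * g x) volume ∧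
      ∫ x, f x * pd i g x = -∫ x, pd i f x * g x := by
  have i1 : Integrable (fun x => f x * pd i g x) volume :=
    (hf.continuous.mul (nc_pd_smooth hg i).continuous).integrable_of_hasCompactSupport hfc.mul_right
  have i2 : Integrable (fun x => pd i f x * g x) volume :=
    ((nc_pd_smooth hf i).continuous.mul hg.continuous).integrable_of_hasCompactSupport
      (nc_pd_cs hfc i).mul_right
  have i3 : Integrable (fun x => f x * g x) volume :=
    (hf.continuous.mul hg.continuous).integrable_of_hasCompactSupport hfc.mul_right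
  exact ⟨i1, i2, integral_mul_fderiv_eq_neg_fderiv_mul_of_integrable (μ := (volume : Measure E))
    (f := f) (g := g) (v := EuclideanSpace.single i (1 : ℝ)) i2 i1 i3
    (fun x _ => (hf.differentiable (by simp)) x) (fun x _ => (hg.differentiable (by simp)) x)⟩

private theorem nc_six {f1 f2 f3 f4 f5 f6 : E → ℝ} (h1 : Integrable f1 volume) (h2 : Integrable f2 volume)
    (h3 : Integrable f3 volume) (h4 : Integrable f4 volume) (h5 : Integrable f5 volume)
    (h6 : Integrable f6 volume) :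
    ∫ x, ((f1 x - f2 x) + (f3 x - f4 x) + (f5 x - f6 x)) =
      ((∫ x, f1 x) - ∫ x, f2 x) + ((∫ x, f3 x) - ∫ x, f4 x) + ((∫ x, f5 x) - ∫ x, f6 x) := by
  have a1 : Integrable (fun x => f1 x - f2 x) volume := h1.sub h2
  have a2 : Integrable (fun x => f3 x - f4 x) volume := h3.sub h4
  have a3 : Integrable (fun x => f5 x - f6 x) volume := h5.sub h6
  have a4 : Integrable (fun x => (f1 x - f2 x) + (f3 x - f4 x)) volume := a1.add a2
  rw [integral_add a4 a3, integral_add a1 a2, integral_sub h1 h2, integral_sub h3 h4, integral_sub h5 h6]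

/-- the classical curl of a test field is its distributional curl (integration by parts) -/
theorem w6_test {φ : E → E} (hφ : TestIn univ φ) : W6 φ (curl φ) := by
  refine ⟨test_memLp hφ 6, test_memLp (test_curl hφ) 2, ?_⟩
  intro ψ hψ
  have key : ∀ i j k : Fin 3, Integrable (fun x => φ x j * pd i (fun y => ψ y k) x) volume ∧
      Integrable (fun x => pd i (fun y => φ y j) x * ψ x k) volume ∧
      ∫ x, φ x j * pd i (fun y => ψ y k) x = -∫ x, pd i (fun y => φ y j) x * ψ x k := fun i j k =>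
    nc_ibp (nc_coord hφ.1 j) (nc_coord_cs hφ.2.1 j) (nc_coord hψ.1 k) i
  have e1 : (fun x => ⟪φ x, curl ψ x⟫) = fun x =>
      (φ x 0 * pd 1 (fun y => ψ y 2) x - φ x 0 * pd 2 (fun y => ψ y 1) x) +
      (φ x 1 * pd 2 (fun y => ψ y 0) x - φ x 1 * pd 0 (fun y => ψ y 2) x) +
      (φ x 2 * pd 0 (fun y => ψ y 1) x - φ x 2 * pd 1 (fun y => ψ y 0) x) := by
    funext x
    rw [nc_inner]
    change φ x 0 * (pd 1 (fun y => ψ y 2) x - pd 2 (fun y => ψ y 1) x) +
      φ x 1 * (pd 2 (fun y => ψ y 0) x - pd 0 (fun y => ψ y 2) x) +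
      φ x 2 * (pd 0 (fun y => ψ y 1) x - pd 1 (fun y => ψ y 0) x) = _
    ring
  have e2 : (fun x => ⟪curl φ x, ψ x⟫) = fun x =>
      (pd 1 (fun y => φ y 2) x * ψ x 0 - pd 2 (fun y => φ y 1) x * ψ x 0) +
      (pd 2 (fun y => φ y 0) x * ψ x 1 - pd 0 (fun y => φ y 2) x * ψ x 1) +
      (pd 0 (fun y => φ y 1) x * ψ x 2 - pd 1 (fun y => φ y 0) x * ψ x 2) := by
    funext x
    rw [nc_inner]
    change (pd 1 (fun y => φ y 2) x - pd 2 (fun y => φ y 1) x) * ψ x 0 +
      (pd 2 (fun y => φ y 0) x - pd 0 (fun y => φ y 2) x) * ψ x 1 +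
      (pd 0 (fun y => φ y 1) x - pd 1 (fun y => φ y 0) x) * ψ x 2 = _
    ring
  rw [e1, e2, nc_six (key 1 0 2).1 (key 2 0 1).1 (key 2 1 0).1 (key 0 1 2).1 (key 0 2 1).1 (key 1 2 0).1,
    nc_six (key 1 2 0).2.1 (key 2 1 0).2.1 (key 2 0 1).2.1 (key 0 2 1).2.1 (key 0 1 2).2.1 (key 1 0 2).2.1]
  rw [(key 1 0 2).2.2, (key 2 0 1).2.2, (key 2 1 0).2.2, (key 0 1 2).2.2, (key 0 2 1).2.2, (key 1 2 0).2.2]
  ring

/-- gradients of test functions have zero curl -/
theorem w6_gr {η : E → ℝ} (hη : STest univ η) : W6 (gr η) (fun _ => 0) := by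
  have h1 := w6_test (test_gr hη)
  have h2 : curl (gr η) = fun _ => 0 := by
    funext x
    exact curl_gr hη.1 x
  rwa [h2] at h1

/-- linearity of the gradient and of test functions -/
theorem stest_add {η ζ : E → ℝ} (hη : STest univ η) (hζ : STest univ ζ) (a b : ℝ) :
    STest univ (fun x => a * η x + b * ζ x) ∧
      ∀ x, gr (fun y => a * η y + b * ζ y) x = a • gr η x + b • gr ζ x := by
  refine ⟨⟨(contDiff_const.mul hη.1).add (contDiff_const.mul hζ.1), ?_, subset_univ _⟩, fun x => ?_⟩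
  · exact (hη.2.1.mul_left (f := fun _ => a)).add (hζ.2.1.mul_left (f := fun _ => b))
  · have h : ∀ i : Fin 3, pd i (fun y => a * η y + b * ζ y) x = a * pd i η x + b * pd i ζ x := by
      intro i
      have d1 : HasFDerivAt η (fderiv ℝ η x) x := ((hη.1.differentiable (by simp)) x).hasFDerivAt
      have d2 : HasFDerivAt ζ (fderiv ℝ ζ x) x := ((hζ.1.differentiable (by simp)) x).hasFDerivAt
      have d3 : HasFDerivAt (fun y => a * η y + b * ζ y) (a • fderiv ℝ η x + b • fderiv ℝ ζ x) x :=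
        (d1.const_mul a).add (d2.const_mul b)
      unfold pd
      rw [d3.fderiv]
      rfl
    refine nc_ext ?_ ?_ ?_
    · exact h 0
    · exact h 1
    · exact h 2

/-- linear combinations in `W⁶(curl)` -/
theorem w6_lin {u B v C : E → E} (hu : W6 u B) (hv : W6 v C) (a b : ℝ) :
    W6 (fun x => a • u x + b • v x) (fun x => a • B x + b • C x) := by
  refine ⟨(hu.1.const_smul a).add (hv.1.const_smul b), (hu.2.1.const_smul a).add (hv.2.1.const_smul b), ?_⟩
  intro φ hφ
  have hcφ := test_curl hφ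
  have i1 : Integrable (fun x => ⟪u x, curl φ x⟫) volume := by
    have := integrable65 (test_memLp hcφ (6 / 5)) hu.1
    refine this.congr (Eventually.of_forall fun x => ?_)
    exact real_inner_comm _ _
  have i2 : Integrable (fun x => ⟪v x, curl φ x⟫) volume := by
    have := integrable65 (test_memLp hcφ (6 / 5)) hv.1
    refine this.congr (Eventually.of_forall fun x => ?_)
    exact real_inner_comm _ _
  have i3 : Integrable (fun x => ⟪B x, φ x⟫) volume := integrable22 hu.2.1 (test_memLp hφ 2)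
  have i4 : Integrable (fun x => ⟪C x, φ x⟫) volume := integrable22 hv.2.1 (test_memLp hφ 2)
  have e1 : (fun x => ⟪a • u x + b • v x, curl φ x⟫) =
      fun x => a * ⟪u x, curl φ x⟫ + b * ⟪v x, curl φ x⟫ := by
    funext x
    rw [inner_add_left, real_inner_smul_left, real_inner_smul_left]
  have e2 : (fun x => ⟪a • B x + b • C x, φ x⟫) = fun x => a * ⟪B x, φ x⟫ + b * ⟪C x, φ x⟫ := by
    funext x
    rw [inner_add_left, real_inner_smul_left, real_inner_smul_left]
  rw [e1, e2, integral_add (i1.const_mul a) (i2.const_mul b), integral_add (i3.const_mul a) (i4.const_mul b),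
    integral_const_mul, integral_const_mul, integral_const_mul, integral_const_mul, hu.2.2 φ hφ, hv.2.2 φ hφ]

end Pool.CQ
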