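import Pool.Agent.Lib.MP_cd5b91_an.CQ.KIneq
import Pool.Agent.Lib.MP_cd5b91_an.CQ.NehCurl
import Pool.Agent.Lib.MP_cd5b91_an.CQ.CurlDense

/-!
# CQ-DualGen: the dual inequality for divergence-free fields
-/

open MeasureTheory Filter Topology Set
open scoped ContDiff RealInnerProductSpace ENNReal

namespace Pool.CQ

/-- the dual inequality for fields which are limits of curls of test fields -/
theorem dual_gen_of {S : ℝ} (hS0 : 0 < S) (hS : CurlSobOn (fun _ => True) S) {B' V' : E → E}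
    (hB : MemLp B' 2 volume) (hV : MemLp V' (6 / 5) volume) (h : WC univ B' V')
    (hden : ∀ ε : ℝ, 0 < ε → ∃ φ : E → E, TestIn univ φ ∧ ∫ x, ‖B' x - curl φ x‖ ^ 2 ≤ ε) :
    S * ∫ x, ‖B' x‖ ^ 2 ≤ (∫ x, ‖V' x‖ ^ (6 / 5 : ℝ)) ^ (5 / 3 : ℝ) := by
  obtain ⟨A, hA⟩ : ∃ A : ℝ, A = (∫ x, ‖V' x‖ ^ (6 / 5 : ℝ)) ^ (5 / 3 : ℝ) := ⟨_, rfl⟩
  have hA0 : 0 ≤ A := by
    rw [hA]
    exact Real.rpow_nonneg (integral_nonneg fun x => by positivity) _
  rw [← hA]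
  obtain ⟨β, hβ, hb⟩ : ∃ β : ℝ, 0 ≤ β ∧ ∫ x, ‖B' x‖ ^ 2 = β ^ 2 :=
    ⟨√(∫ x, ‖B' x‖ ^ 2), Real.sqrt_nonneg _,
      (Real.sq_sqrt (integral_nonneg fun x => by positivity)).symm⟩
  rw [hb]
  rcases hβ.eq_or_lt with h0 | hβ0
  · rw [← h0]
    simpa using hA0
  have key : ∀ r : ℝ, 0 < r → r ≤ β → S * (β * (β - r)) ^ 2 ≤ A * (β + r) ^ 2 := by
    intro r hr hrβ
    obtain ⟨φ, hφ, hφr⟩ := hden (r ^ 2) (by positivity)
    have hC : MemLp (curl φ) 2 volume := (w6_test hφ).2.1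
    have h1 := K.gs_ineq hS0 hS trivial hB hV h (w6_test hφ)
    rw [← hA] at h1
    have hD : MemLp (fun x => B' x - curl φ x) 2 volume := hB.sub hC
    have hcs := cs22 hB hD
    rw [hb] at hcs
    obtain ⟨p, hp⟩ : ∃ p : ℝ, p = ∫ x, ⟪B' x, B' x - curl φ x⟫ := ⟨_, rfl⟩
    obtain ⟨q, hq⟩ : ∃ q : ℝ, q = ∫ x, ‖B' x - curl φ x‖ ^ 2 := ⟨_, rfl⟩
    rw [← hp, ← hq] at hcs
    rw [← hq] at hφr
    have e1 : ∫ x, ⟪B' x, curl φ x⟫ = β ^ 2 - p := by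
      have e : (fun x => ⟪B' x, curl φ x⟫) = fun x => ‖B' x‖ ^ 2 - ⟪B' x, B' x - curl φ x⟫ := by
        funext x
        rw [inner_sub_right, real_inner_self_eq_norm_sq]
        ring
      rw [e, integral_sub (int2 hB) (integrable22 hB hD), hb, hp]
    have e2 : ∫ x, ‖curl φ x‖ ^ 2 = β ^ 2 - 2 * p + q := by
      have e : (fun x => ‖curl φ x‖ ^ 2) =
          fun x => (‖B' x‖ ^ 2 - 2 * ⟪B' x, B' x - curl φ x⟫) + ‖B' x - curl φ x‖ ^ 2 := by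
        funext x
        have h2 : curl φ x = B' x - (B' x - curl φ x) := by abel
        conv_lhs => rw [h2]
        rw [@norm_sub_sq_real]
      have i1 : Integrable (fun x => 2 * ⟪B' x, B' x - curl φ x⟫) volume :=
        (integrable22 hB hD).const_mul 2
      have i2 : Integrable (fun x => ‖B' x‖ ^ 2 - 2 * ⟪B' x, B' x - curl φ x⟫) volume :=
        (int2 hB).sub i1
      rw [e, integral_add i2 (int2 hD), integral_sub (int2 hB) i1, integral_const_mul, hb, ← hp,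
        ← hq]
    rw [e1, e2] at h1
    have hq0 : 0 ≤ q := by
      rw [hq]
      exact integral_nonneg fun x => by positivity
    have hp2 : p ^ 2 ≤ (β * r) ^ 2 := by
      calc p ^ 2 ≤ β ^ 2 * q := hcs
        _ ≤ β ^ 2 * r ^ 2 := mul_le_mul_of_nonneg_left hφr (sq_nonneg _)
        _ = (β * r) ^ 2 := by ring
    have hβr : 0 ≤ β * r := by positivity
    obtain ⟨hp3, hp4⟩ := abs_le_of_sq_le_sq' hp2 hβr
    have ht0 : 0 ≤ β * (β - r) := mul_nonneg hβ (by linarith)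
    have ht1 : β * (β - r) ≤ β ^ 2 - p := by nlinarith
    calc S * (β * (β - r)) ^ 2 ≤ S * (β ^ 2 - p) ^ 2 :=
          mul_le_mul_of_nonneg_left (pow_le_pow_left₀ ht0 ht1 2) hS0.le
      _ ≤ A * (β ^ 2 - 2 * p + q) := h1
      _ ≤ A * (β + r) ^ 2 := mul_le_mul_of_nonneg_left (by nlinarith) hA0
  have hs := tendsto_one_div_add_atTop_nhds_zero_nat (𝕜 := ℝ)
  have t1 : Tendsto (fun n : ℕ => S * β ^ 2 * (1 - 1 / ((n : ℝ) + 1)) ^ 2) atTop
      (𝓝 (S * β ^ 2 * (1 - 0) ^ 2)) := ((tendsto_const_nhds.sub hs).pow 2).const_mul _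
  have t2 : Tendsto (fun n : ℕ => A * (1 + 1 / ((n : ℝ) + 1)) ^ 2) atTop
      (𝓝 (A * (1 + 0) ^ 2)) := ((tendsto_const_nhds.add hs).pow 2).const_mul _
  have h3 := le_of_tendsto_of_tendsto' t1 t2 fun n => by
    have hn : (0 : ℝ) < 1 / ((n : ℝ) + 1) := by positivity
    have hn1 : 1 / ((n : ℝ) + 1) ≤ 1 := by
      rw [div_le_one (by positivity)]
      linarith [(Nat.cast_nonneg n : (0 : ℝ) ≤ n)]
    generalize 1 / ((n : ℝ) + 1) = s at hn hn1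
    have h4 := key (β * s) (by positivity) (by nlinarith)
    have h5 : β ^ 2 * (S * β ^ 2 * (1 - s) ^ 2) ≤ β ^ 2 * (A * (1 + s) ^ 2) := by
      calc β ^ 2 * (S * β ^ 2 * (1 - s) ^ 2) = S * (β * (β - β * s)) ^ 2 := by ring
        _ ≤ A * (β + β * s) ^ 2 := h4
        _ = β ^ 2 * (A * (1 + s) ^ 2) := by ring
    exact le_of_mul_le_mul_left h5 (by positivity)
  simpa using h3

/-- The dual inequality: for a divergence-free `B'` in `L²` whose distributional curl `V'` is in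
`L^{6/5}`, `S ∫ |B'|² ≤ (∫ |V'|^{6/5})^{5/3}`. -/
theorem dual_gen {S : ℝ} (hS0 : 0 < S) (hS : CurlSobOn (fun _ => True) S) {B' V' : E → E}
    (hB : MemLp B' 2 volume) (hV : MemLp V' (6 / 5) volume) (h : WC univ B' V')
    (hd : ∀ f : E → ℝ, STest univ f → ∫ x, ⟪B' x, gr f x⟫ = 0) :
    S * ∫ x, ‖B' x‖ ^ 2 ≤ (∫ x, ‖V' x‖ ^ (6 / 5 : ℝ)) ^ (5 / 3 : ℝ) :=
  dual_gen_of hS0 hS hB hV h (curl_dense hB hd)

end Pool.CQ
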