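import Pool.Agent.Lib.MP_cd5b91_an.CQ.Alg

/-!
# CQ-GAlg: products of test functions with a closed field
-/

open MeasureTheory Filter Topology Set
open scoped ContDiff RealInnerProductSpace ENNReal

namespace Pool.CQ.G

private theorem ext3 {a b : E} (h0 : a 0 = b 0) (h1 : a 1 = b 1) (h2 : a 2 = b 2) : a = b := by
  ext i
  fin_cases i
  · exact h0
  · exact h1
  · exact h2

private theorem inner3 (a b : E) : ⟪a, b⟫ = a 0 * b 0 + a 1 * b 1 + a 2 * b 2 := by
  rw [PiLp.inner_apply, Fin.sum_univ_three]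
  simp only [RCLike.inner_apply, conj_trivial]
  ring

private theorem cr0 (a b : E) : cr a b 0 = a 1 * b 2 - a 2 * b 1 := rfl
private theorem cr1 (a b : E) : cr a b 1 = a 2 * b 0 - a 0 * b 2 := rfl
private theorem cr2 (a b : E) : cr a b 2 = a 0 * b 1 - a 1 * b 0 := rfl

private theorem pd_mul {η ζ : E → ℝ} {x : E} (hη : DifferentiableAt ℝ η x) (hζ : DifferentiableAt ℝ ζ x)
    (i : Fin 3) : pd i (fun y => η y * ζ y) x = ζ x * pd i η x + η x * pd i ζ x := by
  unfold pd
  rw [fderiv_fun_mul hη hζ]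
  change η x * (fderiv ℝ ζ x _) + ζ x * (fderiv ℝ η x _) = _
  ring

private theorem pd_add3 {a b c : E → ℝ} {x : E} (ha : DifferentiableAt ℝ a x)
    (hb : DifferentiableAt ℝ b x) (hc : DifferentiableAt ℝ c x) (i : Fin 3) :
    pd i (fun y => a y + b y + c y) x = pd i a x + pd i b x + pd i c x := by
  have hab : DifferentiableAt ℝ (fun y => a y + b y) x := ha.add hb
  unfold pd
  rw [fderiv_fun_add hab hc, fderiv_fun_add ha hb]
  rfl

theorem ev_zero {O : Set E} {η : E → ℝ} (hη : STest O η) {x : E} (hx : x ∉ O) : η =ᶠ[𝓝 x] fun _ => 0 := by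
  have h : x ∉ tsupport η := fun h => hx (hη.2.2 h)
  exact notMem_tsupport_iff_eventuallyEq.1 h

theorem test_smul {O : Set E} (hO : IsOpen O) {α : E → E} (hα : ContDiffOn ℝ ∞ α O) {η : E → ℝ}
    (hη : STest O η) : TestIn O (fun x => η x • α x) := by
  refine ⟨contDiff_iff_contDiffAt.2 fun x => ?_, hη.2.1.smul_right, ?_⟩
  · by_cases hx : x ∈ O
    · exact hη.1.contDiffAt.smul (hα.contDiffAt (hO.mem_nhds hx))
    · refine (contDiffAt_const (c := (0 : E))).congr_of_eventuallyEq ?_
      filter_upwards [ev_zero hη hx] with y hy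
      rw [hy, zero_smul]
  · exact (closure_mono (Function.support_smul_subset_left η α)).trans hη.2.2

theorem stest_mul {O : Set E} (hO : IsOpen O) {f : E → ℝ} (hf : ContDiffOn ℝ ∞ f O) {η : E → ℝ}
    (hη : STest O η) : STest O (fun x => η x * f x) := by
  refine ⟨contDiff_iff_contDiffAt.2 fun x => ?_, hη.2.1.mul_right, ?_⟩
  · by_cases hx : x ∈ O
    · exact hη.1.contDiffAt.mul (hf.contDiffAt (hO.mem_nhds hx))
    · refine (contDiffAt_const (c := (0 : ℝ))).congr_of_eventuallyEq ?_
      filter_upwards [ev_zero hη hx] with y hy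
      rw [hy, zero_mul]
  · refine (closure_mono ?_).trans hη.2.2
    intro x hx h0
    exact hx (by simp [h0])

theorem curl_smul_closed {O : Set E} (hO : IsOpen O) {α : E → E} (hα : ContDiffOn ℝ ∞ α O)
    (hc : ∀ x ∈ O, curl α x = 0) {η : E → ℝ} (hη : STest O η) (x : E) :
    curl (fun y => η y • α y) x = cr (gr η x) (α x) := by
  by_cases hx : x ∈ O
  · rw [curl_smul (hη.1.contDiffAt.differentiableAt (by simp))
      ((hα.contDiffAt (hO.mem_nhds hx)).differentiableAt (by simp)), hc x hx,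
      smul_zero, add_zero]
  · have h0 := ev_zero hη hx
    have h1 : ∀ i : Fin 3, pd i η x = 0 := fun i => by
      unfold pd
      rw [h0.fderiv_eq]
      simp
    have h2 : ∀ i j : Fin 3, pd i (fun y => (η y • α y) j) x = 0 := fun i j => by
      unfold pd
      have h3 : (fun y => (η y • α y) j) =ᶠ[𝓝 x] fun _ => (0 : ℝ) := by
        filter_upwards [h0] with y hy
        rw [hy, zero_smul]
        rfl
      rw [h3.fderiv_eq]
      simp
    refine ext3 ?_ ?_ ?_
    · change pd 1 (fun y => (η y • α y) 2) x - pd 2 (fun y => (η y • α y) 1) x =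
        pd 1 η x * α x 2 - pd 2 η x * α x 1
      rw [h2, h2, h1, h1]; ring
    · change pd 2 (fun y => (η y • α y) 0) x - pd 0 (fun y => (η y • α y) 2) x =
        pd 2 η x * α x 0 - pd 0 η x * α x 2
      rw [h2, h2, h1, h1]; ring
    · change pd 0 (fun y => (η y • α y) 1) x - pd 1 (fun y => (η y • α y) 0) x =
        pd 0 η x * α x 1 - pd 1 η x * α x 0
      rw [h2, h2, h1, h1]; ring

private theorem pd_contDiff {f : E → ℝ} (hf : ContDiff ℝ ∞ f) (i : Fin 3) : ContDiff ℝ ∞ (pd i f) :=
  (hf.fderiv_right (m := ∞) (by simp)).clm_apply contDiff_const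

private theorem pd_off {f : E → ℝ} {x : E} (hx : x ∉ tsupport f) (i : Fin 3) : pd i f x = 0 := by
  have h : f =ᶠ[𝓝 x] fun _ => 0 := notMem_tsupport_iff_eventuallyEq.1 hx
  unfold pd
  rw [h.fderiv_eq]
  simp

theorem test_gr {O : Set E} {f : E → ℝ} (hf : STest O f) : TestIn O (gr f) := by
  have hs : Function.support (gr f) ⊆ tsupport f := by
    intro x hx
    by_contra h
    refine hx ?_
    unfold gr
    rw [pd_off h, pd_off h, pd_off h]
    ext i
    fin_cases i <;> simp
  refine ⟨?_, ?_, ?_⟩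
  · rw [contDiff_euclidean]
    intro i
    fin_cases i
    · exact pd_contDiff hf.1 0
    · exact pd_contDiff hf.1 1
    · exact pd_contDiff hf.1 2
  · exact HasCompactSupport.intro hf.2.1 fun x hx => by
      by_contra h
      exact hx (hs h)
  · exact (closure_minimal hs (isClosed_tsupport f)).trans hf.2.2

theorem pd_comm {f : E → ℝ} (hf : ContDiff ℝ ∞ f) (i j : Fin 3) (x : E) :
    pd i (pd j f) x = pd j (pd i f) x := by
  have hd : DifferentiableAt ℝ (fderiv ℝ f) x :=
    ((hf.fderiv_right (m := ∞) (by simp)).contDiffAt).differentiableAt (by simp)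
  have h : ∀ a b : Fin 3, pd a (pd b f) x =
      fderiv ℝ (fderiv ℝ f) x (EuclideanSpace.single a (1 : ℝ)) (EuclideanSpace.single b (1 : ℝ)) := by
    intro a b
    unfold pd
    rw [fderiv_clm_apply hd (differentiableAt_const _)]
    simp
  rw [h, h]
  have hs : IsSymmSndFDerivAt ℝ f x := by
    refine (hf.contDiffAt).isSymmSndFDerivAt ?_
    rw [minSmoothness_of_isRCLikeNormedField]
    exact WithTop.coe_le_coe.2 le_top
  exact hs _ _

theorem curl_gr {f : E → ℝ} (hf : ContDiff ℝ ∞ f) (x : E) : curl (gr f) x = 0 := by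
  refine ext3 ?_ ?_ ?_
  · change pd 1 (pd 2 f) x - pd 2 (pd 1 f) x = 0
    rw [pd_comm hf 1 2, sub_self]
  · change pd 2 (pd 0 f) x - pd 0 (pd 2 f) x = 0
    rw [pd_comm hf 2 0, sub_self]
  · change pd 0 (pd 1 f) x - pd 1 (pd 0 f) x = 0
    rw [pd_comm hf 0 1, sub_self]

/-- divergence -/
noncomputable def dv (α : E → E) (x : E) : ℝ :=
  pd 0 (fun y => α y 0) x + pd 1 (fun y => α y 1) x + pd 2 (fun y => α y 2) x

end Pool.CQ.G
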