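import Pool.Agent.Lib.MP_cd5b91_an.CQ.Defs

/-!
# CQ-ZeroOpen
-/

open MeasureTheory Filter Topology Set
open scoped ContDiff RealInnerProductSpace ENNReal

namespace Pool.CQ

private theorem ZeroOpen_pd {f : E → ℝ} {x : E} (h : f =ᶠ[𝓝 x] fun _ => 0) (i : Fin 3) : pd i f x = 0 := by
  unfold pd
  rw [h.fderiv_eq]
  simp

private theorem ZeroOpen_curl {φ : E → E} {x : E} (hx : x ∉ tsupport φ) : curl φ x = 0 := by
  have h : φ =ᶠ[𝓝 x] fun _ => 0 := notMem_tsupport_iff_eventuallyEq.1 hx
  have hk : ∀ k : Fin 3, (fun y => φ y k) =ᶠ[𝓝 x] fun _ => 0 := by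
    intro k
    filter_upwards [h] with y hy
    rw [hy]
    rfl
  unfold curl
  rw [ZeroOpen_pd (hk 0), ZeroOpen_pd (hk 0), ZeroOpen_pd (hk 1), ZeroOpen_pd (hk 1), ZeroOpen_pd (hk 2),
    ZeroOpen_pd (hk 2)]
  ext i
  fin_cases i <;> simp

theorem wc_zero {O : Set E} (hO : IsOpen O) {A C : E → E} (hC : LpL 1 O C) (h : WC O A C)
    (hA : ∀ᵐ x ∂(volume.restrict O), A x = 0) : ∀ᵐ x ∂(volume.restrict O), C x = 0 := by
  have hA' : ∀ᵐ x : E, x ∈ O → A x = 0 := (ae_restrict_iff' hO.measurableSet).1 hA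
  have hi : ∀ i : Fin 3, ∀ᵐ x : E, x ∈ O → C x i = 0 := by
    intro i
    refine hO.ae_eq_zero_of_integral_contDiff_smul_eq_zero ?_ ?_
    · rw [locallyIntegrableOn_iff hO.isLocallyClosed]
      intro K hKO hK
      have h1 : Integrable C (volume.restrict K) := memLp_one_iff_integrable.1 (hC K hK hKO)
      exact (EuclideanSpace.proj i : E →L[ℝ] ℝ).integrable_comp h1
    · intro g hg hgc hgO
      obtain ⟨φ, hφ⟩ : ∃ φ : E → E, φ = fun x => g x • EuclideanSpace.single i (1 : ℝ) := ⟨_, rfl⟩
      have hsub : tsupport φ ⊆ tsupport g := by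
        rw [hφ]
        exact tsupport_smul_subset_left g fun _ => EuclideanSpace.single i (1 : ℝ)
      have hT : TestIn O φ := by
        refine ⟨?_, ?_, hsub.trans hgO⟩
        · rw [hφ]
          exact hg.smul contDiff_const
        · rw [hφ]
          exact hgc.smul_right
      have h1 := h φ hT
      have h2 : ∫ x, ⟪A x, curl φ x⟫ = 0 := by
        have h3 : (fun x => ⟪A x, curl φ x⟫) =ᵐ[volume] fun _ => (0 : ℝ) := by
          filter_upwards [hA'] with x hx
          by_cases hxO : x ∈ O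
          · rw [hx hxO, inner_zero_left]
          · rw [ZeroOpen_curl fun hx' => hxO (hgO (hsub hx')), inner_zero_right]
        rw [integral_congr_ae h3, integral_zero]
      rw [h2] at h1
      rw [h1]
      refine integral_congr_ae (Eventually.of_forall fun x => ?_)
      simp only [hφ]
      rw [inner_smul_right, EuclideanSpace.inner_single_right]
      simp
  refine (ae_restrict_iff' hO.measurableSet).2 ?_
  filter_upwards [ae_all_iff.2 hi] with x hx hxO
  ext i
  exact hx i hxO

end Pool.CQ
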