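import Pool.Agent.Lib.MP_cd5b91_an.CQ.GWG
import Pool.Agent.Lib.MP_cd5b91_an.CQ.ZeroOpen

/-!
# CQ-GUC: auxiliary lemmas
-/

open MeasureTheory Filter Topology Set
open scoped ContDiff RealInnerProductSpace ENNReal

namespace Pool.CQ.G

theorem inner3 (a b : E) : ⟪a, b⟫ = a 0 * b 0 + a 1 * b 1 + a 2 * b 2 := by
  rw [PiLp.inner_apply, Fin.sum_univ_three]
  simp only [RCLike.inner_apply, conj_trivial]
  ring

theorem continuous_cr : Continuous (fun p : E × E => cr p.1 p.2) := by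
  have h1 : ∀ i : Fin 3, Continuous fun p : E × E => p.1 i := fun i =>
    (EuclideanSpace.proj (𝕜 := ℝ) i).continuous.comp continuous_fst
  have h2 : ∀ i : Fin 3, Continuous fun p : E × E => p.2 i := fun i =>
    (EuclideanSpace.proj (𝕜 := ℝ) i).continuous.comp continuous_snd
  refine (PiLp.continuous_toLp 2 (fun _ : Fin 3 => ℝ)).comp ?_
  refine continuous_pi fun i => ?_
  fin_cases i
  · exact ((h1 1).mul (h2 2)).sub ((h1 2).mul (h2 1))
  · exact ((h1 2).mul (h2 0)).sub ((h1 0).mul (h2 2))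
  · exact ((h1 0).mul (h2 1)).sub ((h1 1).mul (h2 0))

theorem aesm_cr {μ : Measure E} {a b : E → E} (ha : AEStronglyMeasurable a μ)
    (hb : AEStronglyMeasurable b μ) : AEStronglyMeasurable (fun x => cr (a x) (b x)) μ :=
  continuous_cr.comp_aestronglyMeasurable (ha.prodMk hb)

theorem curl_off {O : Set E} {φ : E → E} (hφ : TestIn O φ) {x : E} (hx : x ∉ O) :
    curl φ x = 0 := by
  have h : φ =ᶠ[𝓝 x] fun _ => 0 := notMem_tsupport_iff_eventuallyEq.1 fun h => hx (hφ.2.2 h)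
  have hk : ∀ k i : Fin 3, pd i (fun y => φ y k) x = 0 := by
    intro k i
    have h1 : (fun y => φ y k) =ᶠ[𝓝 x] fun _ => (0 : ℝ) := by
      filter_upwards [h] with y hy
      rw [hy]
      rfl
    unfold pd
    rw [h1.fderiv_eq]
    simp
  unfold curl
  rw [hk, hk, hk, hk, hk, hk]
  ext i
  fin_cases i <;> simp

theorem test_off {O : Set E} {φ : E → E} (hφ : TestIn O φ) {x : E} (hx : x ∉ O) :
    φ x = 0 := image_eq_zero_of_notMem_tsupport fun h => hx (hφ.2.2 h)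

theorem wc_congr {O : Set E} (hO : IsOpen O) {A A' C : E → E} (h : WC O A C)
    (hA : ∀ᵐ x ∂(volume.restrict O), A x = A' x) : WC O A' C := by
  intro φ hφ
  rw [← h φ hφ]
  refine integral_congr_ae ?_
  filter_upwards [(ae_restrict_iff' hO.measurableSet).1 hA] with x hx
  by_cases hxO : x ∈ O
  · rw [hx hxO]
  · rw [curl_off hφ hxO, inner_zero_right, inner_zero_right]

theorem wc_mono {O U : Set E} (hU : U ⊆ O) {A C : E → E} (h : WC O A C) : WC U A C :=
  fun φ hφ => h φ ⟨hφ.1, hφ.2.1, hφ.2.2.trans hU⟩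

/-- the quotient -/
noncomputable def quo (B α : E → E) (x : E) : ℝ := max (⟪B x, α x⟫ / ‖α x‖ ^ 2) 0

theorem quo_nonneg (B α : E → E) (x : E) : 0 ≤ quo B α x := le_max_right _ _

theorem quo_eq {B α : E → E} {x : E} (h0 : α x ≠ 0) (h : ∃ t : ℝ, 0 ≤ t ∧ B x = t • α x) :
    B x = quo B α x • α x := by
  obtain ⟨t, ht, hB⟩ := h
  have hn : ‖α x‖ ^ 2 ≠ 0 := by
    have := norm_pos_iff.2 h0
    positivity
  have h1 : quo B α x = t := by
    unfold quo
    rw [hB, real_inner_smul_left, real_inner_self_eq_norm_sq, mul_div_cancel_right₀ _ hn,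
      max_eq_left ht]
  rw [h1, hB]

theorem quo_le (B α : E → E) {x : E} {m : ℝ} (hm : 0 < m) (h : m ≤ ‖α x‖) :
    quo B α x ≤ m⁻¹ * ‖B x‖ := by
  have hp : 0 < ‖α x‖ := hm.trans_le h
  refine max_le ?_ (by positivity)
  rw [div_le_iff₀ (by positivity)]
  calc ⟪B x, α x⟫ ≤ ‖B x‖ * ‖α x‖ := real_inner_le_norm _ _
    _ = ‖α x‖⁻¹ * ‖B x‖ * ‖α x‖ ^ 2 := by field_simp
    _ ≤ m⁻¹ * ‖B x‖ * ‖α x‖ ^ 2 := by
        have : ‖α x‖⁻¹ ≤ m⁻¹ := inv_anti₀ hm h
        gcongr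

end Pool.CQ.G
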