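import Pool.Agent.Lib.MP_cd5b91_an.CQ.GAlg

/-!
# CQ-GWG: the weak gradient of the coefficient `ψ` of a field `ψ α`, `α` closed
-/

open MeasureTheory Filter Topology Set
open scoped ContDiff RealInnerProductSpace ENNReal

namespace Pool.CQ.G

/-- the gradient of `ψ`, from `C = curl (ψ α)` and `div (ψ α) = 0` -/
noncomputable def gG (α : E → E) (ψ : E → ℝ) (C : E → E) (x : E) : E :=
  (‖α x‖ ^ 2)⁻¹ • cr (α x) (C x) - (ψ x * dv α x * (‖α x‖ ^ 2)⁻¹) • α x

private theorem inner3 (a b : E) : ⟪a, b⟫ = a 0 * b 0 + a 1 * b 1 + a 2 * b 2 := by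
  rw [PiLp.inner_apply, Fin.sum_univ_three]
  simp only [RCLike.inner_apply, conj_trivial]
  ring

theorem int_stest {O : Set E} {f : E → ℝ} (hf : LpL 1 O f) {g : E → ℝ} (hg : STest O g) :
    Integrable (fun x => f x * g x) volume := by
  have hK : IsCompact (tsupport g) := hg.2.1
  have h1 : Integrable f (volume.restrict (tsupport g)) :=
    memLp_one_iff_integrable.1 (hf _ hK hg.2.2)
  obtain ⟨M, hM⟩ := hg.1.continuous.bounded_above_of_compact_support hg.2.1
  have h2 : Integrable (fun x => f x * g x) (volume.restrict (tsupport g)) :=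
    h1.mul_bdd (c := M) hg.1.continuous.aestronglyMeasurable (Eventually.of_forall hM)
  rw [← integrableOn_iff_integrable_of_support_subset (s := tsupport g)]
  · exact h2
  · intro x hx
    by_contra h
    refine hx ?_
    show f x * g x = 0
    rw [image_eq_zero_of_notMem_tsupport h, mul_zero]

theorem lpl_coord {O : Set E} {C : E → E} (hC : LpL 1 O C) (i : Fin 3) :
    LpL 1 O (fun x => C x i) := by
  intro K hK hKO
  have h1 : Integrable C (volume.restrict K) := memLp_one_iff_integrable.1 (hC K hK hKO)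
  exact memLp_one_iff_integrable.2 ((EuclideanSpace.proj i : E →L[ℝ] ℝ).integrable_comp h1)

theorem contDiffOn_coord {O : Set E} {α : E → E} (hα : ContDiffOn ℝ ∞ α O) (i : Fin 3) :
    ContDiffOn ℝ ∞ (fun x => α x i) O :=
  (EuclideanSpace.proj (𝕜 := ℝ) i).contDiff.comp_contDiffOn hα

theorem contDiffOn_pd {O : Set E} (hO : IsOpen O) {f : E → ℝ} (hf : ContDiffOn ℝ ∞ f O) (i : Fin 3) :
    ContDiffOn ℝ ∞ (pd i f) O :=
  (hf.fderiv_of_isOpen hO (m := ∞) (by simp)).clm_apply contDiffOn_const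

theorem contDiffOn_dv {O : Set E} (hO : IsOpen O) {α : E → E} (hα : ContDiffOn ℝ ∞ α O) :
    ContDiffOn ℝ ∞ (dv α) O :=
  ((contDiffOn_pd hO (contDiffOn_coord hα 0) 0).add (contDiffOn_pd hO (contDiffOn_coord hα 1) 1)).add
    (contDiffOn_pd hO (contDiffOn_coord hα 2) 2)

theorem contDiffOn_inv {O : Set E} {α : E → E} (hα : ContDiffOn ℝ ∞ α O) (h0 : ∀ x ∈ O, α x ≠ 0) :
    ContDiffOn ℝ ∞ (fun x => (‖α x‖ ^ 2)⁻¹) O := by
  refine (hα.norm_sq ℝ).inv fun x hx => ?_
  have := norm_pos_iff.2 (h0 x hx)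
  positivity

theorem contDiffOn_cr {O : Set E} {α : E → E} (hα : ContDiffOn ℝ ∞ α O) (e : E) :
    ContDiffOn ℝ ∞ (fun x => cr (α x) e) O := by
  rw [contDiffOn_euclidean]
  intro i
  fin_cases i
  · exact ((contDiffOn_coord hα 1).mul contDiffOn_const).sub ((contDiffOn_coord hα 2).mul contDiffOn_const)
  · exact ((contDiffOn_coord hα 2).mul contDiffOn_const).sub ((contDiffOn_coord hα 0).mul contDiffOn_const)
  · exact ((contDiffOn_coord hα 0).mul contDiffOn_const).sub ((contDiffOn_coord hα 1).mul contDiffOn_const)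

private theorem pd_off {f : E → ℝ} {x : E} (hx : x ∉ tsupport f) (i : Fin 3) : pd i f x = 0 := by
  have h : f =ᶠ[𝓝 x] fun _ => 0 := notMem_tsupport_iff_eventuallyEq.1 hx
  unfold pd
  rw [h.fderiv_eq]
  simp

theorem stest_pd {O : Set E} {f : E → ℝ} (hf : STest O f) (i : Fin 3) : STest O (pd i f) := by
  have hs : Function.support (pd i f) ⊆ tsupport f := by
    intro x hx
    by_contra h
    exact hx (pd_off h i)
  refine ⟨(hf.1.fderiv_right (m := ∞) (by simp)).clm_apply contDiff_const, ?_, ?_⟩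
  · exact HasCompactSupport.intro hf.2.1 fun x hx => by
      by_contra h
      exact hx (hs h)
  · exact (closure_minimal hs (isClosed_tsupport f)).trans hf.2.2

end Pool.CQ.G
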