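import Pool.Agent.Lib.MP_cd5b91_an.CQ.Alg

/-!
# CQ-GXP: an explicit test field instead of the Poincare inequality, propagation of zeros (general open set)
-/

open MeasureTheory Filter Topology Set
open scoped ContDiff RealInnerProductSpace ENNReal

namespace Pool.CQ.G

/-- the profile -/
noncomputable def prof (ρ R : ℝ) (s : ℝ) : ℝ :=
  Real.exp (-(2 / ρ ^ 2) * s) * expNegInvGlue (R ^ 2 - s)

/-- the weight -/
noncomputable def mu (x₀ : E) (ρ R : ℝ) (x : E) : ℝ := prof ρ R (‖x - x₀‖ ^ 2)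

private theorem prof_contDiff (ρ R : ℝ) : ContDiff ℝ ∞ (prof ρ R) := by
  unfold prof
  apply ContDiff.mul
  · exact Real.contDiff_exp.comp (contDiff_const.mul contDiff_id)
  · exact expNegInvGlue.contDiff.comp (contDiff_const.sub contDiff_id)

private theorem prof_nonneg (ρ R s : ℝ) : 0 ≤ prof ρ R s :=
  mul_nonneg (Real.exp_pos _).le (expNegInvGlue.nonneg _)

private theorem prof_pos {ρ R s : ℝ} (h : s < R ^ 2) : 0 < prof ρ R s :=
  mul_pos (Real.exp_pos _) (expNegInvGlue.pos_of_pos (by linarith))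

private theorem prof_zero {ρ R s : ℝ} (h : R ^ 2 ≤ s) : prof ρ R s = 0 := by
  unfold prof
  rw [expNegInvGlue.zero_of_nonpos (by linarith), mul_zero]

private theorem prof_le_one {ρ R s : ℝ} (h : 0 ≤ s) : prof ρ R s ≤ 1 := by
  unfold prof
  have h1 : Real.exp (-(2 / ρ ^ 2) * s) ≤ 1 := by
    apply Real.exp_le_one_iff.2
    have : 0 ≤ 2 / ρ ^ 2 := by positivity
    nlinarith
  have h2 : expNegInvGlue (R ^ 2 - s) ≤ 1 := by
    unfold expNegInvGlue
    split_ifs with h
    · norm_num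
    · apply Real.exp_le_one_iff.2
      have : 0 < (R ^ 2 - s)⁻¹ := inv_pos.2 (by linarith)
      linarith
  calc _ ≤ 1 * 1 := mul_le_mul h1 h2 (expNegInvGlue.nonneg _) zero_le_one
    _ = 1 := one_mul 1

private theorem prof_deriv_le {ρ R : ℝ} (s : ℝ) :
    deriv (prof ρ R) s ≤ -(2 / ρ ^ 2) * prof ρ R s := by
  have hg : DifferentiableAt ℝ expNegInvGlue (R ^ 2 - s) :=
    (expNegInvGlue.contDiff (n := 1)).differentiable (by norm_num) _
  have h1 : HasDerivAt (fun t : ℝ => Real.exp (-(2 / ρ ^ 2) * t))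
      (Real.exp (-(2 / ρ ^ 2) * s) * (-(2 / ρ ^ 2))) s := by
    have := (hasDerivAt_id s).const_mul (-(2 / ρ ^ 2))
    simpa using this.exp
  have h2 : HasDerivAt (fun t : ℝ => expNegInvGlue (R ^ 2 - t))
      (deriv expNegInvGlue (R ^ 2 - s) * (-1)) s := by
    have := (hasDerivAt_id s).const_sub (R ^ 2)
    exact HasDerivAt.comp s hg.hasDerivAt this
  have h3 := (h1.mul h2).deriv
  have h4 : deriv (prof ρ R) s = Real.exp (-(2 / ρ ^ 2) * s) * (-(2 / ρ ^ 2)) * expNegInvGlue (R ^ 2 - s) +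
      Real.exp (-(2 / ρ ^ 2) * s) * (deriv expNegInvGlue (R ^ 2 - s) * (-1)) := h3
  rw [h4]
  have h5 : 0 ≤ deriv expNegInvGlue (R ^ 2 - s) := expNegInvGlue.monotone.deriv_nonneg
  have h6 := Real.exp_pos (-(2 / ρ ^ 2) * s)
  unfold prof
  nlinarith [mul_nonneg h6.le h5]

/-- the test functions -/
private noncomputable def eta (x₀ : E) (ρ R : ℝ) (i : Fin 3) (x : E) : ℝ :=
  -((x i - x₀ i) * mu x₀ ρ R x)

private theorem mu_contDiff (x₀ : E) (ρ R : ℝ) : ContDiff ℝ ∞ (mu x₀ ρ R) := by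
  unfold mu
  exact (prof_contDiff ρ R).comp ((contDiff_id.sub contDiff_const).norm_sq ℝ)

private theorem coord_contDiff (i : Fin 3) : ContDiff ℝ ∞ (fun x : E => x i) :=
  (EuclideanSpace.proj (𝕜 := ℝ) i).contDiff

private theorem eta_contDiff (x₀ : E) (ρ R : ℝ) (i : Fin 3) : ContDiff ℝ ∞ (eta x₀ ρ R i) := by
  unfold eta
  exact (((coord_contDiff i).sub contDiff_const).mul (mu_contDiff x₀ ρ R)).neg

private theorem mu_zero {x₀ : E} {ρ R : ℝ} (hR : 0 < R) {x : E} (h : R ≤ ‖x - x₀‖) :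
    mu x₀ ρ R x = 0 := prof_zero (by nlinarith)

private theorem eta_support {x₀ : E} {ρ R : ℝ} (hR : 0 < R) (i : Fin 3) :
    Function.support (eta x₀ ρ R i) ⊆ Metric.closedBall x₀ R := by
  intro x hx
  rw [Metric.mem_closedBall, dist_eq_norm]
  by_contra h
  push Not at h
  apply hx
  unfold eta
  rw [mu_zero hR h.le, mul_zero, neg_zero]

private theorem eta_STest {O : Set E} {x₀ : E} {ρ R : ℝ} (hR : 0 < R) (hO : Metric.closedBall x₀ R ⊆ O)
    (i : Fin 3) : STest O (eta x₀ ρ R i) := by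
  have h1 : tsupport (eta x₀ ρ R i) ⊆ Metric.closedBall x₀ R :=
    closure_minimal (eta_support hR i) Metric.isClosed_closedBall
  exact ⟨eta_contDiff x₀ ρ R i, HasCompactSupport.of_support_subset_isCompact
    (isCompact_closedBall x₀ R) (eta_support hR i), h1.trans hO⟩

private theorem pd_mu (x₀ : E) (ρ R : ℝ) (i : Fin 3) (x : E) :
    pd i (mu x₀ ρ R) x = deriv (prof ρ R) (‖x - x₀‖ ^ 2) * (2 * (x i - x₀ i)) := by
  have h1 : HasFDerivAt (fun y : E => ‖y - x₀‖ ^ 2) (2 • (innerSL ℝ (x - x₀))) x := by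
    have := ((hasFDerivAt_id x).sub_const x₀).norm_sq
    simpa using this
  have h2 : HasDerivAt (prof ρ R) (deriv (prof ρ R) (‖x - x₀‖ ^ 2)) (‖x - x₀‖ ^ 2) :=
    (((prof_contDiff ρ R).differentiable (by simp)) _).hasDerivAt
  have h3 := h2.comp_hasFDerivAt x h1
  have h4 : fderiv ℝ (mu x₀ ρ R) x = _ := h3.fderiv
  unfold pd
  rw [h4]
  simp only [_root_.smul_apply, innerSL_apply_apply, smul_eq_mul]
  have h5 : ⟪x - x₀, EuclideanSpace.single i (1 : ℝ)⟫ = x i - x₀ i := by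
    rw [EuclideanSpace.inner_single_right]
    simp
  rw [h5]
  simp

private theorem pd_eta (x₀ : E) (ρ R : ℝ) (i : Fin 3) (x : E) :
    pd i (eta x₀ ρ R i) x = -(mu x₀ ρ R x) -
      2 * (x i - x₀ i) ^ 2 * deriv (prof ρ R) (‖x - x₀‖ ^ 2) := by
  have h1 : HasFDerivAt (fun y : E => y i - x₀ i) (EuclideanSpace.proj (𝕜 := ℝ) i : E →L[ℝ] ℝ) x :=
    (EuclideanSpace.proj (𝕜 := ℝ) i : E →L[ℝ] ℝ).hasFDerivAt.sub_const _
  have h2 : HasFDerivAt (mu x₀ ρ R) (fderiv ℝ (mu x₀ ρ R) x) x :=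
    (((mu_contDiff x₀ ρ R).differentiable (by simp)) x).hasFDerivAt
  have h3 := (h1.mul h2).neg
  have h4 : fderiv ℝ (eta x₀ ρ R i) x = _ := h3.fderiv
  have h5 := pd_mu x₀ ρ R i x
  unfold pd at h5 ⊢
  rw [h4]
  simp only [_root_.neg_apply, _root_.add_apply,
    _root_.smul_apply, smul_eq_mul, h5]
  have h6 : (EuclideanSpace.proj (𝕜 := ℝ) i : E →L[ℝ] ℝ) (EuclideanSpace.single i (1 : ℝ)) = 1 := by
    simp
  rw [h6]
  ring

private theorem norm_sq_coord (y : E) : ‖y‖ ^ 2 = y 0 ^ 2 + y 1 ^ 2 + y 2 ^ 2 := by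
  rw [EuclideanSpace.norm_sq_eq, Fin.sum_univ_three]
  simp [sq_abs]

/-- the divergence of the test field is at least the weight outside the small ball -/
private theorem div_ge {x₀ : E} {ρ R : ℝ} (hρ : 0 < ρ) {x : E} (hx : ρ ≤ ‖x - x₀‖) :
    mu x₀ ρ R x ≤ ∑ i : Fin 3, pd i (eta x₀ ρ R i) x := by
  rw [Fin.sum_univ_three, pd_eta, pd_eta, pd_eta]
  have h1 := prof_deriv_le (ρ := ρ) (R := R) (‖x - x₀‖ ^ 2)
  have h2 : ‖x - x₀‖ ^ 2 = (x 0 - x₀ 0) ^ 2 + (x 1 - x₀ 1) ^ 2 + (x 2 - x₀ 2) ^ 2 := by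
    rw [norm_sq_coord]
    simp
  have h3 : mu x₀ ρ R x = prof ρ R (‖x - x₀‖ ^ 2) := rfl
  have h4 := prof_nonneg ρ R (‖x - x₀‖ ^ 2)
  have h5 : ρ ^ 2 ≤ ‖x - x₀‖ ^ 2 := by nlinarith
  set s := ‖x - x₀‖ ^ 2 with hs
  set D := deriv (prof ρ R) s with hD
  rw [h3]
  have h6 : D * ρ ^ 2 ≤ -2 * prof ρ R s := by
    have := mul_le_mul_of_nonneg_right h1 (by positivity : (0 : ℝ) ≤ ρ ^ 2)
    calc D * ρ ^ 2 ≤ -(2 / ρ ^ 2) * prof ρ R s * ρ ^ 2 := this
      _ = -2 * prof ρ R s := by field_simp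
  have h7 : D ≤ 0 := by
    by_contra h
    push Not at h
    have : 0 < D * ρ ^ 2 := by positivity
    linarith
  have h8 : D * s ≤ D * ρ ^ 2 := mul_le_mul_of_nonpos_left h5 h7
  have h9 : -prof ρ R s - 2 * (x 0 - x₀ 0) ^ 2 * D + (-prof ρ R s - 2 * (x 1 - x₀ 1) ^ 2 * D) +
      (-prof ρ R s - 2 * (x 2 - x₀ 2) ^ 2 * D) = -3 * prof ρ R s - 2 * (D * s) := by
    rw [h2]; ring
  rw [h9]
  linarith

private theorem int_of_supp {K : Set E} (hK : IsCompact K) {f h : E → ℝ}
    (hf : MemLp f 1 (volume.restrict K)) (hh : Continuous h) (hs : ∀ x, x ∉ K → h x = 0) :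
    Integrable (fun x => f x * h x) volume := by
  have hb : ∃ C : ℝ, ∀ x, ‖h x‖ ≤ C := by
    obtain ⟨C, hC⟩ := hK.exists_bound_of_continuousOn hh.continuousOn
    refine ⟨max C 0, fun x => ?_⟩
    by_cases hx : x ∈ K
    · exact (hC x hx).trans (le_max_left _ _)
    · rw [hs x hx, norm_zero]
      exact le_max_right _ _
  obtain ⟨C, hC⟩ := hb
  have h1 : Integrable (fun x => f x * h x) (volume.restrict K) := by
    have h2 : Integrable f (volume.restrict K) := memLp_one_iff_integrable.1 hf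
    exact h2.mul_bdd (c := C) hh.aestronglyMeasurable (Eventually.of_forall hC)
  refine (integrableOn_iff_integrable_of_support_subset ?_).1 h1
  intro x hx
  by_contra hxK
  exact hx (by simp [hs x hxK])

private theorem pd_continuous {η : E → ℝ} (h : ContDiff ℝ ∞ η) (i : Fin 3) : Continuous (pd i η) := by
  unfold pd
  exact (h.continuous_fderiv (by simp)).clm_apply continuous_const

private theorem pd_zero {η : E → ℝ} {K : Set E} (hK : IsClosed K) (hs : Function.support η ⊆ K)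
    (i : Fin 3) (x : E) (hx : x ∉ K) : pd i η x = 0 := by
  have h1 : x ∉ tsupport η := fun h => hx (closure_minimal hs hK h)
  have h2 : x ∉ tsupport (fderiv ℝ η) := fun h => h1 (tsupport_fderiv_subset ℝ h)
  unfold pd
  rw [image_eq_zero_of_notMem_tsupport h2]
  rfl

/-- instead of the Poincare inequality -/
theorem xpoinc {O : Set E} {x₀ : E} {ρ R : ℝ} (hρ : 0 < ρ) (hR : ρ < R) (hO : Metric.closedBall x₀ R ⊆ O)
    {w : E → ℝ} {g : E → E} (hw : LpL 1 O w) (hg : LpL 1 O g) (h : WGrad O w g)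
    (hw0 : ∀ x, 0 ≤ w x) (hz : ∀ᵐ x ∂(volume.restrict (Metric.ball x₀ ρ)), w x = 0) :
    ∫ x, w x * mu x₀ ρ R x ≤ R * ∫ x in Metric.closedBall x₀ R, ‖g x‖ := by
  have hR0 : 0 < R := hρ.trans hR
  have hK : IsCompact (Metric.closedBall x₀ R) := isCompact_closedBall x₀ R
  have hw1 := hw _ hK hO
  have hg1 := hg _ hK hO
  have hgi : ∀ i : Fin 3, MemLp (fun x => g x i) 1 (volume.restrict (Metric.closedBall x₀ R)) := by
    intro i
    exact (EuclideanSpace.proj (𝕜 := ℝ) i : E →L[ℝ] ℝ).comp_memLp' hg1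
  have ha : ∀ i : Fin 3, Integrable (fun x => w x * pd i (eta x₀ ρ R i) x) volume := fun i =>
    int_of_supp hK hw1 (pd_continuous (eta_contDiff x₀ ρ R i) i)
      (fun x hx => pd_zero Metric.isClosed_closedBall (eta_support hR0 i) i x hx)
  have hb : ∀ i : Fin 3, Integrable (fun x => g x i * eta x₀ ρ R i x) volume := fun i =>
    int_of_supp hK (hgi i) (eta_contDiff x₀ ρ R i).continuous
      (fun x hx => by
        by_contra hne
        exact hx (eta_support hR0 i hne))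
  have hmu : Integrable (fun x => w x * mu x₀ ρ R x) volume :=
    int_of_supp hK hw1 (mu_contDiff x₀ ρ R).continuous (fun x hx => by
      apply mu_zero hR0
      rw [Metric.mem_closedBall, dist_eq_norm] at hx
      push Not at hx
      exact hx.le)
  have h1 : ∫ x, ∑ i : Fin 3, w x * pd i (eta x₀ ρ R i) x =
      -∫ x, ∑ i : Fin 3, g x i * eta x₀ ρ R i x := by
    rw [integral_finsetSum _ (fun i _ => ha i), integral_finsetSum _ (fun i _ => hb i),
      ← Finset.sum_neg_distrib]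
    exact Finset.sum_congr rfl fun i _ => h _ (eta_STest hR0 hO i) i
  have hz' : ∀ᵐ x, x ∈ Metric.ball x₀ ρ → w x = 0 :=
    (ae_restrict_iff' measurableSet_ball).1 hz
  have h2 : ∫ x, w x * mu x₀ ρ R x ≤ ∫ x, ∑ i : Fin 3, w x * pd i (eta x₀ ρ R i) x := by
    refine integral_mono_ae hmu (integrable_finsetSum _ fun i _ => ha i) ?_
    filter_upwards [hz'] with x hx
    rw [← Finset.mul_sum]
    by_cases hxb : x ∈ Metric.ball x₀ ρ
    · rw [hx hxb, zero_mul, zero_mul]
    · rw [Metric.mem_ball, dist_eq_norm] at hxb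
      push Not at hxb
      exact mul_le_mul_of_nonneg_left (div_ge hρ hxb) (hw0 x)
  have h3 : -∫ x, ∑ i : Fin 3, g x i * eta x₀ ρ R i x ≤
      ∫ x in Metric.closedBall x₀ R, R * ‖g x‖ := by
    rw [← integral_neg, ← integral_indicator Metric.isClosed_closedBall.measurableSet]
    refine integral_mono (integrable_finsetSum _ fun i _ => hb i).neg ?_ ?_
    · rw [integrable_indicator_iff Metric.isClosed_closedBall.measurableSet]
      exact (memLp_one_iff_integrable.1 hg1).norm.const_mul R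
    · intro x
      by_cases hx : x ∈ Metric.closedBall x₀ R
      · rw [indicator_of_mem hx]
        rw [Metric.mem_closedBall, dist_eq_norm] at hx
        have h4 : (-∑ i : Fin 3, g x i * eta x₀ ρ R i x) = mu x₀ ρ R x * ⟪x - x₀, g x⟫ := by
          rw [Fin.sum_univ_three, PiLp.inner_apply, Fin.sum_univ_three]
          simp only [eta, PiLp.sub_apply, RCLike.inner_apply, conj_trivial]
          ring
        show (-∑ i : Fin 3, g x i * eta x₀ ρ R i x) ≤ R * ‖g x‖
        rw [h4]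
        have h5 : ⟪x - x₀, g x⟫ ≤ R * ‖g x‖ :=
          (real_inner_le_norm _ _).trans (mul_le_mul_of_nonneg_right hx (norm_nonneg _))
        have h6 : 0 ≤ mu x₀ ρ R x := prof_nonneg _ _ _
        have h7 : mu x₀ ρ R x ≤ 1 := prof_le_one (by positivity)
        have h8 : 0 ≤ R * ‖g x‖ := by positivity
        calc mu x₀ ρ R x * ⟪x - x₀, g x⟫ ≤ mu x₀ ρ R x * (R * ‖g x‖) :=
              mul_le_mul_of_nonneg_left h5 h6
          _ ≤ 1 * (R * ‖g x‖) := mul_le_mul_of_nonneg_right h7 h8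
          _ = R * ‖g x‖ := one_mul _
      · rw [indicator_of_notMem hx]
        have h4 : ∀ i : Fin 3, eta x₀ ρ R i x = 0 := fun i => by
          by_contra hne
          exact hx (eta_support hR0 i hne)
        simp [h4]
  calc ∫ x, w x * mu x₀ ρ R x ≤ ∫ x, ∑ i : Fin 3, w x * pd i (eta x₀ ρ R i) x := h2
    _ = _ := h1
    _ ≤ ∫ x in Metric.closedBall x₀ R, R * ‖g x‖ := h3
    _ = R * ∫ x in Metric.closedBall x₀ R, ‖g x‖ := integral_const_mul _ _

private theorem log_conc {ε t : ℝ} (hε : 0 < ε) (ht : 0 ≤ t) :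
    Real.log (1 + 1 / ε) * min t 1 ≤ Real.log (1 + t / ε) := by
  have h1 : 0 ≤ 1 / ε := by positivity
  rcases le_total t 1 with h | h
  · rw [min_eq_left h]
    have h2 := strictConcaveOn_log_Ioi.concaveOn.2 (show (1 + 1 / ε) ∈ Ioi (0 : ℝ) by
      simp only [mem_Ioi]; linarith) (show (1 : ℝ) ∈ Ioi (0 : ℝ) by simp) ht
      (show 0 ≤ 1 - t by linarith) (by ring)
    simp only [smul_eq_mul, Real.log_one, mul_zero, add_zero, mul_one] at h2
    calc Real.log (1 + 1 / ε) * t = t * Real.log (1 + 1 / ε) := by ring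
      _ ≤ Real.log (t * (1 + 1 / ε) + (1 - t)) := h2
      _ = Real.log (1 + t / ε) := by congr 1; ring
  · rw [min_eq_right h, mul_one]
    apply Real.log_le_log (by linarith)
    have : 1 / ε ≤ t / ε := div_le_div_of_nonneg_right h hε.le
    linarith

/-- if the logarithms are uniformly bounded then `ψ` vanishes -/
theorem zero_of_log {O : Set E} {x₀ : E} {ρ R : ℝ} (hR : 0 < R) (hO : Metric.closedBall x₀ R ⊆ O)
    {ψ : E → ℝ} (hψ : LpL 1 O ψ) (h0 : ∀ x, 0 ≤ ψ x) (C : ℝ)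
    (h : ∀ ε : ℝ, 0 < ε → ∫ x, Real.log (1 + ψ x / ε) * mu x₀ ρ R x ≤ C) :
    ∀ᵐ x ∂(volume.restrict (Metric.ball x₀ R)), ψ x = 0 := by
  have hK : IsCompact (Metric.closedBall x₀ R) := isCompact_closedBall x₀ R
  have hψ1 := hψ _ hK hO
  have hm0 : ∀ x, x ∉ Metric.closedBall x₀ R → mu x₀ ρ R x = 0 := fun x hx => by
    apply mu_zero hR
    rw [Metric.mem_closedBall, dist_eq_norm] at hx
    push Not at hx
    exact hx.le
  have hmc := (mu_contDiff x₀ ρ R).continuous
  have hlog : ∀ ε : ℝ, 0 < ε → MemLp (fun x => Real.log (1 + ψ x / ε)) 1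
      (volume.restrict (Metric.closedBall x₀ R)) := by
    intro ε hε
    refine MemLp.mono (hψ1.const_mul (1 / ε)) ?_ (Eventually.of_forall fun x => ?_)
    · exact (Real.measurable_log.comp_aemeasurable
        ((hψ1.1.aemeasurable.div_const ε).const_add 1)).aestronglyMeasurable
    · have h1 : 0 ≤ ψ x / ε := div_nonneg (h0 x) hε.le
      have h2 : 0 ≤ Real.log (1 + ψ x / ε) := Real.log_nonneg (by linarith)
      have h3 : Real.log (1 + ψ x / ε) ≤ ψ x / ε := by
        have := Real.log_le_sub_one_of_pos (show 0 < 1 + ψ x / ε by linarith)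
        linarith
      rw [Real.norm_of_nonneg h2, Real.norm_of_nonneg (by have := h0 x; positivity)]
      calc _ ≤ ψ x / ε := h3
        _ = 1 / ε * ψ x := by ring
  have hmin : MemLp (fun x => min (ψ x) 1) 1 (volume.restrict (Metric.closedBall x₀ R)) := by
    refine MemLp.mono hψ1 ?_ (Eventually.of_forall fun x => ?_)
    · exact (hψ1.1.aemeasurable.min aemeasurable_const).aestronglyMeasurable
    · have h1 := h0 x
      rw [Real.norm_of_nonneg (le_min h1 zero_le_one), Real.norm_of_nonneg h1]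
      exact min_le_left _ _
  have hI : Integrable (fun x => min (ψ x) 1 * mu x₀ ρ R x) volume :=
    int_of_supp hK hmin hmc hm0
  have hnn : ∀ x, 0 ≤ min (ψ x) 1 * mu x₀ ρ R x := fun x =>
    mul_nonneg (le_min (h0 x) zero_le_one) (prof_nonneg _ _ _)
  have hle : ∀ ε : ℝ, 0 < ε →
      Real.log (1 + 1 / ε) * ∫ x, min (ψ x) 1 * mu x₀ ρ R x ≤ C := by
    intro ε hε
    rw [← integral_const_mul]
    refine le_trans (integral_mono (hI.const_mul _) (int_of_supp hK (hlog ε hε) hmc hm0) ?_) (h ε hε)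
    intro x
    show Real.log (1 + 1 / ε) * (min (ψ x) 1 * mu x₀ ρ R x) ≤ Real.log (1 + ψ x / ε) * mu x₀ ρ R x
    rw [← mul_assoc]
    exact mul_le_mul_of_nonneg_right (log_conc hε (h0 x)) (prof_nonneg _ _ _)
  have hint : ∫ x, min (ψ x) 1 * mu x₀ ρ R x = 0 := by
    have h1 : 0 ≤ ∫ x, min (ψ x) 1 * mu x₀ ρ R x := integral_nonneg hnn
    by_contra hne
    have h2 : 0 < ∫ x, min (ψ x) 1 * mu x₀ ρ R x := lt_of_le_of_ne h1 (Ne.symm hne)
    set I := ∫ x, min (ψ x) 1 * mu x₀ ρ R x with hIdef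
    have h3 : (0 : ℝ) < Real.exp ((|C| + 1) / I) - 1 := by
      have : 0 < (|C| + 1) / I := by positivity
      linarith [Real.add_one_lt_exp this.ne']
    have h4 := hle (Real.exp ((|C| + 1) / I) - 1)⁻¹ (inv_pos.2 h3)
    rw [one_div, inv_inv, add_sub_cancel, Real.log_exp, div_mul_cancel₀ _ h2.ne'] at h4
    linarith [le_abs_self C]
  have hae := (integral_eq_zero_iff_of_nonneg hnn hI).1 hint
  rw [ae_restrict_iff' measurableSet_ball]
  filter_upwards [hae] with x hx hxb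
  have h1 : 0 < mu x₀ ρ R x := by
    apply prof_pos
    rw [Metric.mem_ball, dist_eq_norm] at hxb
    nlinarith [norm_nonneg (x - x₀)]
  have h2 : min (ψ x) 1 = 0 := by
    have : min (ψ x) 1 * mu x₀ ρ R x = 0 := hx
    rcases mul_eq_zero.1 this with h | h
    · exact h
    · exact absurd h h1.ne'
  rcases le_total (ψ x) 1 with h | h
  · rwa [min_eq_left h] at h2
  · rw [min_eq_right h] at h2
    exact absurd h2 one_ne_zero

/-- propagation of zeros -/
theorem conn_zero {O : Set E} (hOo : IsOpen O) (hOc : IsPreconnected O) {ψ : E → ℝ}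
    (H : ∀ (x₀ : E) (ρ R : ℝ), 0 < ρ → ρ < R → Metric.closedBall x₀ R ⊆ O →
      (∀ᵐ x ∂(volume.restrict (Metric.ball x₀ ρ)), ψ x = 0) →
      ∀ᵐ x ∂(volume.restrict (Metric.ball x₀ R)), ψ x = 0)
    {y₀ : E} {δ : ℝ} (hδ : 0 < δ) (hy : y₀ ∈ O)
    (h0 : ∀ᵐ x ∂(volume.restrict (Metric.ball y₀ δ)), ψ x = 0) :
    ∀ᵐ x ∂(volume.restrict O), ψ x = 0 := by
  let U : Set E := {x | ∃ r : ℝ, 0 < r ∧ ∀ᵐ y ∂(volume.restrict (Metric.ball x r)), ψ y = 0}
  have hUo : IsOpen U := by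
    rw [Metric.isOpen_iff]
    rintro x ⟨r, hr, h⟩
    refine ⟨r / 2, by positivity, fun y hy => ⟨r / 2, by positivity, ?_⟩⟩
    refine ae_mono (Measure.restrict_mono_set _ ?_) h
    intro z hz
    rw [Metric.mem_ball] at hz hy ⊢
    linarith [dist_triangle z y x]
  have hcl : ∀ x ∈ O, x ∈ closure U → x ∈ U := by
    intro x hx hxc
    obtain ⟨r, hr, hrO⟩ := Metric.isOpen_iff.1 hOo x hx
    obtain ⟨y, hyU, hyx⟩ := Metric.mem_closure_iff.1 hxc (r / 4) (by positivity)
    obtain ⟨s, hs, hs0⟩ := hyU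
    have hsub : Metric.closedBall y (r / 2) ⊆ O := by
      intro z hz
      apply hrO
      rw [Metric.mem_closedBall] at hz
      rw [Metric.mem_ball]
      have := dist_triangle z y x
      rw [dist_comm] at hyx
      linarith
    have h1 := H y (min s (r / 4)) (r / 2) (lt_min hs (by positivity))
      ((min_le_right _ _).trans_lt (by linarith)) hsub
      (ae_mono (Measure.restrict_mono_set _ (Metric.ball_subset_ball (min_le_left _ _))) hs0)
    refine ⟨r / 4, by positivity, ae_mono (Measure.restrict_mono_set _ ?_) h1⟩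
    intro z hz
    rw [Metric.mem_ball] at hz ⊢
    have := dist_triangle z x y
    linarith
  have hsubU : O ⊆ U := by
    refine hOc.subset_of_closure_inter_subset hUo ?_ ?_
    · exact ⟨y₀, hy, δ, hδ, h0⟩
    · rintro x ⟨hx1, hx2⟩
      exact hcl x hx2 hx1
  have hnull : volume {x : E | x ∈ O ∧ ψ x ≠ 0} = 0 := by
    refine measure_null_of_locally_null _ fun x hx => ?_
    obtain ⟨r, hr, h⟩ := hsubU hx.1
    refine ⟨{y | y ∈ Metric.ball x r ∧ ψ y ≠ 0} ∩ {x : E | x ∈ O ∧ ψ x ≠ 0}, ?_, ?_⟩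
    · rw [mem_nhdsWithin]
      refine ⟨Metric.ball x r, Metric.isOpen_ball, Metric.mem_ball_self hr, ?_⟩
      rintro z ⟨hz1, hz2⟩
      exact ⟨⟨hz1, hz2.2⟩, hz2⟩
    · rw [ae_restrict_iff' measurableSet_ball] at h
      refine measure_mono_null inter_subset_left ?_
      rw [ae_iff] at h
      convert h using 2
      ext z
      simp
  rw [ae_restrict_iff' hOo.measurableSet]
  filter_upwards [compl_mem_ae_iff.2 hnull] with x hx2 hx1
  by_contra hne
  exact hx2 ⟨hx1, hne⟩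

end Pool.CQ.G
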