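import Pool.Agent.Lib.MP_cd5b91_an.CQ.GUC

/-!
# CQ-HAux: auxiliary lemmas
-/

open MeasureTheory Filter Topology Set
open scoped ContDiff RealInnerProductSpace ENNReal

namespace Pool.CQ.G

theorem norm_V (v : E) : ‖‖v‖ ^ 4 • v‖ = ‖v‖ ^ 5 := by
  rw [norm_smul, norm_pow, norm_norm]
  ring

theorem norm_V_rpow (v : E) : ‖‖v‖ ^ 4 • v‖ ^ (6 / 5 : ℝ) = ‖v‖ ^ 6 := by
  rw [norm_V, ← Real.rpow_natCast, ← Real.rpow_mul (norm_nonneg v)]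
  have : ((5 : ℕ) : ℝ) * (6 / 5) = ((6 : ℕ) : ℝ) := by norm_num
  rw [this, Real.rpow_natCast]

theorem ofReal65_ne : ENNReal.ofReal (6 / 5 : ℝ) ≠ 0 := by
  rw [Ne, ENNReal.ofReal_eq_zero]
  norm_num

theorem toReal65 : (ENNReal.ofReal (6 / 5 : ℝ)).toReal = 6 / 5 :=
  ENNReal.toReal_ofReal (by norm_num)

theorem int6K {u : E → E} {μ : Measure E} (hu : MemLp u 6 μ) :
    Integrable (fun x => ‖u x‖ ^ 6) μ := by
  have h := hu.integrable_norm_rpow (by norm_num) (by norm_num)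
  have h6 : (6 : ℝ≥0∞).toReal = ((6 : ℕ) : ℝ) := by norm_num
  rw [h6] at h
  simpa only [Real.rpow_natCast] using h

theorem memV {u : E → E} {μ : Measure E} (hu : MemLp u 6 μ) :
    MemLp (fun x => ‖u x‖ ^ 4 • u x) (ENNReal.ofReal (6 / 5)) μ := by
  have hm : AEStronglyMeasurable (fun x => ‖u x‖ ^ 4 • u x) μ := (hu.1.norm.pow 4).smul hu.1
  refine (integrable_norm_rpow_iff hm ofReal65_ne ENNReal.ofReal_ne_top).1 ?_
  rw [toReal65]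
  simp only [norm_V_rpow]
  exact int6K hu

theorem rp_add {a b : ℝ} (ha : 0 ≤ a) (hb : 0 ≤ b) :
    (a + b) ^ (6 / 5 : ℝ) ≤ 2 ^ (6 / 5 : ℝ) * (a ^ (6 / 5 : ℝ) + b ^ (6 / 5 : ℝ)) := by
  have h1 : a + b ≤ 2 * max a b := by
    have := le_max_left a b
    have := le_max_right a b
    linarith
  have h2 : (a + b) ^ (6 / 5 : ℝ) ≤ (2 * max a b) ^ (6 / 5 : ℝ) :=
    Real.rpow_le_rpow (by positivity) h1 (by norm_num)
  rw [Real.mul_rpow (by norm_num) (le_max_of_le_left ha)] at h2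
  refine h2.trans (mul_le_mul_of_nonneg_left ?_ (by positivity))
  rcases le_total a b with h | h
  · rw [max_eq_right h]
    have : 0 ≤ a ^ (6 / 5 : ℝ) := Real.rpow_nonneg ha _
    linarith
  · rw [max_eq_left h]
    have : 0 ≤ b ^ (6 / 5 : ℝ) := Real.rpow_nonneg hb _
    linarith

theorem triple (a b c : E) : ⟪cr a b, c⟫ = ⟪b, cr c a⟫ := by
  rw [inner3, inner3]
  change (a 1 * b 2 - a 2 * b 1) * c 0 + (a 2 * b 0 - a 0 * b 2) * c 1 +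
    (a 0 * b 1 - a 1 * b 0) * c 2 = b 0 * (c 1 * a 2 - c 2 * a 1) + b 1 * (c 2 * a 0 - c 0 * a 2) +
      b 2 * (c 0 * a 1 - c 1 * a 0)
  ring

/-- bounds on a compact set -/
theorem bounds {O : Set E} (hO : IsOpen O) {α : E → E} (hα : ContDiffOn ℝ ∞ α O)
    (h0 : ∀ x ∈ O, α x ≠ 0) {K : Set E} (hK : IsCompact K) (hKO : K ⊆ O) :
    ∃ m M D : ℝ, 0 < m ∧ 0 < M ∧ 0 ≤ D ∧ ∀ x ∈ K, m ≤ ‖α x‖ ∧ ‖α x‖ ≤ M ∧ |dv α x| ≤ D := by
  have hc : ContinuousOn α K := hα.continuousOn.mono hKO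
  obtain ⟨M, hM⟩ := hK.exists_bound_of_continuousOn hc
  obtain ⟨D, hD⟩ := hK.exists_bound_of_continuousOn ((contDiffOn_dv hO hα).continuousOn.mono hKO)
  obtain ⟨I, hI⟩ := hK.exists_bound_of_continuousOn ((contDiffOn_inv hα h0).continuousOn.mono hKO)
  refine ⟨(|I| + 1)⁻¹, |M| + 1, |D|, by positivity, by positivity, abs_nonneg _, fun x hx => ?_⟩
  have hp : 0 < ‖α x‖ := norm_pos_iff.2 (h0 x (hKO hx))
  refine ⟨?_, ?_, ?_⟩
  · have h1 : (‖α x‖ ^ 2)⁻¹ ≤ |I| := by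
      have := hI x hx
      rw [Real.norm_of_nonneg (by positivity)] at this
      exact this.trans (le_abs_self I)
    have h2 : (‖α x‖)⁻¹ ≤ |I| + 1 := by
      have h1' : ((‖α x‖)⁻¹) ^ 2 ≤ |I| := by
        rw [inv_pow]
        exact h1
      nlinarith [sq_nonneg ((‖α x‖)⁻¹ - 1), abs_nonneg I, inv_pos.2 hp]
    calc (|I| + 1)⁻¹ ≤ ((‖α x‖)⁻¹)⁻¹ := inv_anti₀ (by positivity) h2
      _ = ‖α x‖ := inv_inv _
  · exact (hM x hx).trans ((le_abs_self M).trans (by linarith))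
  · have := hD x hx
    rw [Real.norm_eq_abs] at this
    exact this.trans (le_abs_self D)

theorem norm_gG_le {α : E → E} {ψ : E → ℝ} {C : E → E} {x : E} {m D : ℝ} (hm : 0 < m)
    (h1 : m ≤ ‖α x‖) (h2 : |dv α x| ≤ D) (hψ : 0 ≤ ψ x) :
    ‖gG α ψ C x‖ ≤ (m⁻¹ * (1 + D)) * (‖C x‖ + ψ x) := by
  have hp : 0 < ‖α x‖ := hm.trans_le h1
  have hD : 0 ≤ D := (abs_nonneg _).trans h2
  have hi : ‖α x‖⁻¹ ≤ m⁻¹ := inv_anti₀ hm h1
  unfold gG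
  refine (norm_sub_le _ _).trans ?_
  rw [norm_smul, norm_smul, Real.norm_of_nonneg (by positivity : (0 : ℝ) ≤ (‖α x‖ ^ 2)⁻¹),
    Real.norm_eq_abs, abs_mul, abs_mul, abs_of_nonneg hψ, abs_of_nonneg (by positivity : (0 : ℝ) ≤ (‖α x‖ ^ 2)⁻¹)]
  have e1 : (‖α x‖ ^ 2)⁻¹ * ‖cr (α x) (C x)‖ ≤ m⁻¹ * ‖C x‖ := by
    calc (‖α x‖ ^ 2)⁻¹ * ‖cr (α x) (C x)‖ ≤ (‖α x‖ ^ 2)⁻¹ * (‖α x‖ * ‖C x‖) :=
          mul_le_mul_of_nonneg_left (norm_cr_le _ _) (by positivity)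
      _ = ‖α x‖⁻¹ * ‖C x‖ := by field_simp
      _ ≤ m⁻¹ * ‖C x‖ := mul_le_mul_of_nonneg_right hi (norm_nonneg _)
  have e2 : ψ x * |dv α x| * (‖α x‖ ^ 2)⁻¹ * ‖α x‖ ≤ m⁻¹ * D * ψ x := by
    calc ψ x * |dv α x| * (‖α x‖ ^ 2)⁻¹ * ‖α x‖ = ‖α x‖⁻¹ * |dv α x| * ψ x := by
          field_simp
      _ ≤ m⁻¹ * D * ψ x := by gcongr
  have hm' : 0 < m⁻¹ := inv_pos.2 hm
  have e3 : 0 ≤ m⁻¹ * D * ‖C x‖ := by positivity
  have e4 : 0 ≤ m⁻¹ * ψ x := by positivity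
  nlinarith

theorem aesm_quo {μ : Measure E} {B α : E → E} (hB : AEStronglyMeasurable B μ)
    (hα : AEStronglyMeasurable α μ) : AEStronglyMeasurable (quo B α) μ := by
  have h1 : AEMeasurable (fun x => ⟪B x, α x⟫ / ‖α x‖ ^ 2) μ :=
    (hB.inner hα).aemeasurable.div (hα.norm.aemeasurable.pow_const 2)
  exact (h1.max aemeasurable_const).aestronglyMeasurable

end Pool.CQ.G
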