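import Pool.Agent.Lib.MP_cd5b91_an.CQ.Defs

/-!
# CQ-HDefs: supersolutions on a general open set, with lower-order terms
-/

open MeasureTheory Filter Topology Set
open scoped ContDiff RealInnerProductSpace

namespace Pool.CQ

/-- Data of a nonnegative supersolution `ψ` of an equation of `p`-Laplace type on the open set `O`, with
lower-order terms: `G` is the weak gradient, `F` the flux, `e = ⟪F, G⟫` and `h` the lower-order term of
the equation. -/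
structure SDH (O : Set E) (p q : ℝ) (ψ : E → ℝ) (G F : E → E) (e h : E → ℝ) : Prop where
  hp : 1 < p
  hp2 : p ≤ 2
  hpq : 1 / p + 1 / q = 1
  nonneg : ∀ x, 0 ≤ ψ x
  Lψ : LpL (ENNReal.ofReal p) O ψ
  LG : LpL (ENNReal.ofReal p) O G
  LF : LpL (ENNReal.ofReal q) O F
  Le : LpL 1 O e
  Lh : LpL 1 O h
  wg : WGrad O ψ G
  sup : ∀ η : E → ℝ, STest O η → (∀ x, 0 ≤ η x) → 0 ≤ (∫ x, ⟪F x, gr η x⟫) + ∫ x, h x * η x
  en : ∀ᵐ x ∂(volume.restrict O), e x = ⟪F x, G x⟫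
  bd : ∀ K : Set E, IsCompact K → K ⊆ O → ∃ M N : ℝ, 0 < M ∧ 0 ≤ N ∧ ∀ᵐ x ∂(volume.restrict K),
    ‖F x‖ ^ q ≤ M * (e x + N * ψ x ^ p) ∧ |h x| ^ q ≤ M * (e x + N * ψ x ^ p) ∧
      ‖G x‖ ^ p ≤ M * (e x + N * ψ x ^ p)

end Pool.CQ
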