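import Pool.Agent.Lib.MP_cd5b91_an.CQ.HSmpA
import Pool.Agent.Lib.MP_cd5b91_an.CQ.Chain
import Pool.Agent.Lib.MP_cd5b91_an.CQ.GXP

/-!
# CQ-HSmp: strong maximum principle on a connected open set
-/

open MeasureTheory Filter Topology Set
open scoped ContDiff RealInnerProductSpace ENNReal

namespace Pool.CQ.H

/-- the logarithm, extended by a linear function -/
private noncomputable def lg (ε s : ℝ) : ℝ := if 0 ≤ s then Real.log (1 + s / ε) else s / ε

private noncomputable def lg' (ε s : ℝ) : ℝ := (max s 0 + ε)⁻¹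

private theorem lg_hasDeriv {ε : ℝ} (hε : 0 < ε) (s : ℝ) : HasDerivAt (lg ε) (lg' ε s) s := by
  have hlog : ∀ t : ℝ, 0 ≤ t → HasDerivAt (fun y : ℝ => Real.log (1 + y / ε)) ((t + ε)⁻¹) t := by
    intro t ht
    have h1 : HasDerivAt (fun y : ℝ => 1 + y / ε) (1 / ε) t := by
      have := ((hasDerivAt_id t).div_const ε).const_add 1
      simpa using this
    have h2 : (1 + t / ε) ≠ 0 := by
      have : 0 ≤ t / ε := by positivity
      linarith
    have h3 := h1.log h2
    have h4 : 1 / ε / (1 + t / ε) = (t + ε)⁻¹ := by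
      field_simp
      ring
    rwa [h4] at h3
  have hlin : HasDerivAt (fun y : ℝ => y / ε) (1 / ε) s := by
    simpa using (hasDerivAt_id s).div_const ε
  rcases lt_trichotomy s 0 with h | h | h
  · have h1 : lg' ε s = 1 / ε := by
      unfold lg'
      rw [max_eq_right h.le, zero_add, one_div]
    rw [h1]
    refine hlin.congr_of_eventuallyEq ?_
    filter_upwards [Iio_mem_nhds h] with y hy
    unfold lg
    rw [if_neg (not_le.2 hy)]
  · subst h
    have h1 : lg' ε 0 = 1 / ε := by
      unfold lg'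
      rw [max_self, zero_add, one_div]
    rw [h1]
    have hr : HasDerivWithinAt (lg ε) (1 / ε) (Ici 0) 0 := by
      have h2 := hlog 0 le_rfl
      rw [zero_add, ← one_div] at h2
      refine h2.hasDerivWithinAt.congr ?_ ?_
      · intro y hy
        unfold lg
        rw [if_pos (mem_Ici.1 hy)]
      · unfold lg
        rw [if_pos le_rfl]
    have hl : HasDerivWithinAt (lg ε) (1 / ε) (Iio 0) 0 := by
      refine hlin.hasDerivWithinAt.congr ?_ ?_
      · intro y hy
        unfold lg
        rw [if_neg (not_le.2 (mem_Iio.1 hy))]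
      · unfold lg
        rw [if_pos le_rfl]
        simp
    have := hl.union hr
    rwa [Iio_union_Ici, hasDerivWithinAt_univ] at this
  · have h1 : lg' ε s = (s + ε)⁻¹ := by
      unfold lg'
      rw [max_eq_left h.le]
    rw [h1]
    refine (hlog s h.le).congr_of_eventuallyEq ?_
    filter_upwards [Ioi_mem_nhds h] with y hy
    unfold lg
    rw [if_pos (le_of_lt hy)]

private theorem lg_deriv {ε : ℝ} (hε : 0 < ε) : deriv (lg ε) = lg' ε := by
  ext s
  exact (lg_hasDeriv hε s).deriv

private theorem lg'_cont {ε : ℝ} (hε : 0 < ε) : Continuous (lg' ε) := by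
  unfold lg'
  refine Continuous.inv₀ (by fun_prop) fun s => ?_
  have : 0 ≤ max s 0 := le_max_right _ _
  linarith

private theorem lg_contDiff {ε : ℝ} (hε : 0 < ε) : ContDiff ℝ 1 (lg ε) := by
  rw [contDiff_one_iff_deriv]
  refine ⟨fun s => (lg_hasDeriv hε s).differentiableAt, ?_⟩
  rw [lg_deriv hε]
  exact lg'_cont hε

private theorem lg'_nonneg {ε : ℝ} (hε : 0 < ε) (s : ℝ) : 0 ≤ lg' ε s := by
  unfold lg'
  have : 0 ≤ max s 0 := le_max_right _ _
  positivity

private theorem lg'_le {ε : ℝ} (hε : 0 < ε) (s : ℝ) : lg' ε s ≤ ε⁻¹ := by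
  unfold lg'
  have : 0 ≤ max s 0 := le_max_right _ _
  exact inv_anti₀ hε (by linarith)

private theorem lpl_mono_exp {F : Type} [NormedAddCommGroup F] {p : ℝ} (hp : 1 < p) {O : Set E}
    {f : E → F} (hf : LpL (ENNReal.ofReal p) O f) : LpL 1 O f := by
  intro K hK hKO
  have : IsFiniteMeasure (volume.restrict K) := ⟨by
    rw [Measure.restrict_apply_univ]
    exact hK.measure_lt_top⟩
  refine (hf K hK hKO).mono_exponent ?_
  rw [← ENNReal.ofReal_one]
  exact ENNReal.ofReal_le_ofReal hp.le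

private theorem vanish {O : Set E} (hOo : IsOpen O) {p q : ℝ} {ψ : E → ℝ} {G F : E → E} {e k : E → ℝ}
    (h : SDH O p q ψ G F e k)
    (x₀ : E) (ρ R : ℝ) (hρ : 0 < ρ) (hR : ρ < R) (hO : Metric.closedBall x₀ R ⊆ O)
    (hz : ∀ᵐ x ∂(volume.restrict (Metric.ball x₀ ρ)), ψ x = 0) :
    ∀ᵐ x ∂(volume.restrict (Metric.ball x₀ R)), ψ x = 0 := by
  have hK : IsCompact (Metric.closedBall x₀ R) := isCompact_closedBall x₀ R
  have hp := h.hp
  have hψ1 : LpL 1 O ψ := lpl_mono_exp hp h.Lψ
  have hG1 : LpL 1 O G := lpl_mono_exp hp h.LG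
  obtain ⟨C, hC⟩ := log_bound hOo h hK hO
  set V : ℝ := (volume.restrict (Metric.closedBall x₀ R)).real univ with hV
  refine Pool.CQ.G.zero_of_log (ρ := ρ) (hρ.trans hR) hO hψ1 h.nonneg (R * (V + C)) ?_
  intro ε hε
  have hR0 : 0 < R := hρ.trans hR
  have : IsFiniteMeasure (volume.restrict (Metric.closedBall x₀ R)) := ⟨by
    rw [Measure.restrict_apply_univ]
    exact hK.measure_lt_top⟩
  have hw : LpL 1 O (fun x => lg ε (ψ x)) := by
    intro K hK hKO
    have h1 := hψ1 K hK hKO
    refine MemLp.mono (h1.const_mul (1 / ε)) ?_ (Eventually.of_forall fun x => ?_)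
    · exact ((lg_contDiff hε).continuous.measurable.comp_aemeasurable
        h1.1.aemeasurable).aestronglyMeasurable
    · have h0 := h.nonneg x
      have h2 : 0 ≤ ψ x / ε := div_nonneg h0 hε.le
      have h3 : 0 ≤ Real.log (1 + ψ x / ε) := Real.log_nonneg (by linarith)
      have h4 : Real.log (1 + ψ x / ε) ≤ ψ x / ε := by
        have := Real.log_le_sub_one_of_pos (show 0 < 1 + ψ x / ε by linarith)
        linarith
      have h5 : lg ε (ψ x) = Real.log (1 + ψ x / ε) := by
        unfold lg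
        rw [if_pos h0]
      rw [h5, Real.norm_of_nonneg h3, Real.norm_of_nonneg (by positivity)]
      calc _ ≤ ψ x / ε := h4
        _ = 1 / ε * ψ x := by ring
  have hmeas : ∀ K : Set E, IsCompact K → K ⊆ O →
      AEStronglyMeasurable (fun x => lg' ε (ψ x)) (volume.restrict K) := fun K hK hKO =>
    ((lg'_cont hε).measurable.comp_aemeasurable (hψ1 K hK hKO).1.aemeasurable).aestronglyMeasurable
  have hg : LpL 1 O (fun x => deriv (lg ε) (ψ x) • G x) := by
    intro K hK hKO
    have h1 := hG1 K hK hKO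
    rw [lg_deriv hε]
    refine MemLp.mono (h1.const_smul (ε⁻¹)) ((hmeas K hK hKO).smul h1.1)
      (Eventually.of_forall fun x => ?_)
    rw [Pi.smul_apply, norm_smul, norm_smul, Real.norm_of_nonneg (lg'_nonneg hε _),
      Real.norm_of_nonneg (inv_nonneg.2 hε.le)]
    exact mul_le_mul_of_nonneg_right (lg'_le hε _) (norm_nonneg _)
  have hwg : WGrad O (fun x => lg ε (ψ x)) (fun x => deriv (lg ε) (ψ x) • G x) := by
    refine wgrad_comp hOo hψ1 hG1 h.wg (lg_contDiff hε) (L := ε⁻¹) fun s => ?_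
    rw [lg_deriv hε, abs_of_nonneg (lg'_nonneg hε s)]
    exact lg'_le hε s
  have hw0 : ∀ x, 0 ≤ lg ε (ψ x) := by
    intro x
    have h0 := h.nonneg x
    unfold lg
    rw [if_pos h0]
    have h2 : 0 ≤ ψ x / ε := div_nonneg h0 hε.le
    exact Real.log_nonneg (by linarith)
  have hz' : ∀ᵐ x ∂(volume.restrict (Metric.ball x₀ ρ)), lg ε (ψ x) = 0 := by
    filter_upwards [hz] with x hx
    rw [hx]
    unfold lg
    simp
  have hx := Pool.CQ.G.xpoinc hρ hR hO hw hg hwg hw0 hz'
  have hl : ∀ x, lg ε (ψ x) = Real.log (1 + ψ x / ε) := fun x => by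
    unfold lg
    rw [if_pos (h.nonneg x)]
  simp only [hl] at hx
  refine hx.trans (mul_le_mul_of_nonneg_left ?_ hR0.le)
  have hGp : Integrable (fun x => ‖G x‖ ^ p) (volume.restrict (Metric.closedBall x₀ R)) := by
    have h1 := (h.LG _ hK hO).integrable_norm_rpow (by
      rw [Ne, ENNReal.ofReal_eq_zero]; linarith) ENNReal.ofReal_ne_top
    rwa [ENNReal.toReal_ofReal (by linarith)] at h1
  have hI : Integrable (fun x => ‖G x‖ ^ p * (ψ x + ε) ^ (-p))
      (volume.restrict (Metric.closedBall x₀ R)) := by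
    refine hGp.mul_bdd (c := ε ^ (-p)) ?_ (Eventually.of_forall fun x => ?_)
    · exact (((hψ1 _ hK hO).1.aemeasurable.add_const ε).pow_const (-p)).aestronglyMeasurable
    · have h0 := h.nonneg x
      rw [Real.norm_of_nonneg (Real.rpow_nonneg (by linarith) _)]
      exact Real.rpow_le_rpow_of_nonpos hε (by linarith) (by linarith)
  calc ∫ x in Metric.closedBall x₀ R, ‖deriv (lg ε) (ψ x) • G x‖
      ≤ ∫ x in Metric.closedBall x₀ R, (1 + ‖G x‖ ^ p * (ψ x + ε) ^ (-p)) := by
        refine integral_mono (memLp_one_iff_integrable.1 (hg _ hK hO)).norm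
          ((integrable_const _).add hI) fun x => ?_
        have h0 := h.nonneg x
        have hpos : 0 < ψ x + ε := by linarith
        show ‖deriv (lg ε) (ψ x) • G x‖ ≤ 1 + ‖G x‖ ^ p * (ψ x + ε) ^ (-p)
        rw [norm_smul, lg_deriv hε, Real.norm_of_nonneg (lg'_nonneg hε _)]
        have h1 : lg' ε (ψ x) = (ψ x + ε)⁻¹ := by
          unfold lg'
          rw [max_eq_left h0]
        rw [h1]
        set t : ℝ := (ψ x + ε)⁻¹ * ‖G x‖ with ht
        have ht0 : 0 ≤ t := by positivity
        have h2 : ‖G x‖ ^ p * (ψ x + ε) ^ (-p) = t ^ p := by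
          rw [ht, Real.mul_rpow (by positivity) (norm_nonneg _), Real.inv_rpow hpos.le,
            Real.rpow_neg hpos.le, mul_comm]
        rw [h2]
        rcases le_total t 1 with h3 | h3
        · have : 0 ≤ t ^ p := Real.rpow_nonneg ht0 _
          linarith
        · have : t ^ (1 : ℝ) ≤ t ^ p := Real.rpow_le_rpow_of_exponent_le h3 hp.le
          rw [Real.rpow_one] at this
          linarith
    _ = V + ∫ x in Metric.closedBall x₀ R, ‖G x‖ ^ p * (ψ x + ε) ^ (-p) := by
        rw [integral_add (integrable_const _) hI, integral_const, smul_eq_mul, mul_one]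
    _ ≤ V + C := by linarith [hC ε hε]

/-- **Strong maximum principle** on a connected open set. -/
theorem smp {O : Set E} (hO : IsOpen O) (hOc : IsPreconnected O) {p q : ℝ} {ψ : E → ℝ}
    {G F : E → E} {e k : E → ℝ} (h : SDH O p q ψ G F e k) {U : Set E} (hU : IsOpen U)
    (hne : (U ∩ O).Nonempty) (hz : ∀ᵐ x ∂(volume.restrict U), ψ x = 0) :
    ∀ᵐ x ∂(volume.restrict O), ψ x = 0 := by
  obtain ⟨y, hyU, hyO⟩ := hne
  obtain ⟨δ, hδ, hsub⟩ := Metric.isOpen_iff.1 hU y hyU
  exact Pool.CQ.G.conn_zero hO hOc (vanish hO h) hδ hyO (ae_mono (Measure.restrict_mono_set _ hsub) hz)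

end Pool.CQ.H
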