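import Pool.Agent.Lib.MP_cd5b91_an.CQ.KIneq
import Pool.Agent.Lib.MP_cd5b91_an.CQ.LpFacts

/-!
# CQ-KBasic
-/

open MeasureTheory Filter Topology Set
open scoped ContDiff RealInnerProductSpace ENNReal

namespace Pool.CQ.K

private lemma inner_quint (a b : E) : ⟪‖a‖ ^ 4 • b, b⟫ = ‖a‖ ^ 4 * ‖b‖ ^ 2 := by
  rw [real_inner_smul_left, real_inner_self_eq_norm_sq]

theorem ws_nehari {u B : E → E} (h : WeakSol u B) : ∫ x, ‖B x‖ ^ 2 = ∫ x, ‖u x‖ ^ 6 := by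
  have h1 := pairing h.1.2.1 (memLp_quint h.1.1 h.1.1) h.2 h.1
  have e1 : ∀ x, ⟪B x, B x⟫ = ‖B x‖ ^ 2 := fun x => real_inner_self_eq_norm_sq _
  have e2 : ∀ x, ⟪‖u x‖ ^ 4 • u x, u x⟫ = ‖u x‖ ^ 6 := fun x => by
    rw [inner_quint]; ring
  simpa only [e1, e2] using h1

theorem ws_pos {u B : E → E} (h : WeakSol u B) (hn : ¬ (u =ᵐ[volume] fun _ => 0)) :
    0 < ∫ x, ‖u x‖ ^ 6 := by
  have h0 : 0 ≤ ∫ x, ‖u x‖ ^ 6 := integral_nonneg fun x => by positivity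
  refine lt_of_le_of_ne h0 fun h1 => hn ?_
  have h2 := (integral_eq_zero_iff_of_nonneg (fun x => by positivity) (int6 h.1.1)).1 h1.symm
  filter_upwards [h2] with x hx
  have h3 : ‖u x‖ ^ 6 = 0 := hx
  exact norm_eq_zero.1 (pow_eq_zero_iff (by norm_num) |>.1 h3)

/-- `S ≤ a^{2/3}` gives `S^{3/2} ≤ a` -/
theorem pow_le_of {S a : ℝ} (hS : 0 < S) (ha : 0 ≤ a) (h : S ≤ a ^ (2 / 3 : ℝ)) :
    S ^ (3 / 2 : ℝ) ≤ a := by
  have h1 := Real.rpow_le_rpow hS.le h (by norm_num : (0 : ℝ) ≤ 3 / 2)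
  rw [← Real.rpow_mul ha] at h1
  norm_num at h1
  exact h1

end Pool.CQ.K
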