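import Pool.Agent.Lib.MP_cd5b91_an.CQ.Defs

/-!
# CQ-Supp
-/

open MeasureTheory Filter Topology Set
open scoped ContDiff RealInnerProductSpace ENNReal

namespace Pool.CQ

private theorem compl_esupp (u : E → E) :
    (esupp u)ᶜ = ⋃₀ {O : Set E | IsOpen O ∧ ∀ᵐ y ∂(volume.restrict O), u y = 0} := by
  ext x
  simp only [esupp, mem_compl_iff, mem_sUnion]
  constructor
  · intro h
    by_contra hcon
    apply h
    intro O hO hx hae
    exact hcon ⟨O, ⟨hO, hae⟩, hx⟩
  · rintro ⟨O, ⟨hO, hae⟩, hx⟩ h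
    exact h O hO hx hae

theorem isClosed_esupp (u : E → E) : IsClosed (esupp u) := by
  rw [← isOpen_compl_iff, compl_esupp]
  exact isOpen_sUnion fun O hO => hO.1

theorem ae_zero_off (u : E → E) : ∀ᵐ x ∂(volume.restrict (esupp u)ᶜ), u x = 0 := by
  rw [compl_esupp]
  obtain ⟨T, hT, hTS, hTU⟩ := TopologicalSpace.isOpen_sUnion_countable
    {O : Set E | IsOpen O ∧ ∀ᵐ y ∂(volume.restrict O), u y = 0} (fun O hO => hO.1)
  rw [← hTU, sUnion_eq_biUnion]
  rw [ae_restrict_biUnion_iff _ hT]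
  exact fun O hO => (hTS hO).2

theorem thin_null {Z : Set E} (hZ : Thin Z) : volume Z = 0 := by
  have h1 : ∀ n : ℕ, volume (Z ∩ Metric.closedBall 0 (n : ℝ)) = 0 := by
    intro n
    obtain ⟨C, hC⟩ := hZ.2 n
    have h2 : ∀ k : ℕ, volume (Z ∩ Metric.closedBall 0 (n : ℝ)) ≤
        ENNReal.ofReal (C * (1 / ((k : ℝ) + 1)) ^ 2) := by
      intro k
      have hk : (0 : ℝ) < 1 / ((k : ℝ) + 1) := by positivity
      have hk1 : 1 / ((k : ℝ) + 1) ≤ 1 := by
        rw [div_le_one (by positivity)]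
        have : (0 : ℝ) ≤ k := Nat.cast_nonneg k
        linarith
      refine le_trans (measure_mono ?_) (hC _ hk hk1)
      exact inter_subset_inter_left _ (Metric.self_subset_cthickening Z)
    have h3 : Tendsto (fun k : ℕ => ENNReal.ofReal (C * (1 / ((k : ℝ) + 1)) ^ 2)) atTop (𝓝 0) := by
      have h4 : Tendsto (fun k : ℕ => C * (1 / ((k : ℝ) + 1)) ^ 2) atTop (𝓝 (C * 0 ^ 2)) :=
        (tendsto_one_div_add_atTop_nhds_zero_nat.pow 2).const_mul C
      have h5 := ENNReal.tendsto_ofReal h4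
      simpa using h5
    exact le_antisymm (ge_of_tendsto' h3 h2) bot_le
  have h2 : Z ⊆ ⋃ n : ℕ, Z ∩ Metric.closedBall 0 (n : ℝ) := by
    intro x hx
    obtain ⟨n, hn⟩ := exists_nat_ge ‖x‖
    exact mem_iUnion.2 ⟨n, hx, by simpa using hn⟩
  exact measure_mono_null h2 (measure_iUnion_null h1)

theorem thin_union {Z W : Set E} (hZ : Thin Z) (hW : Thin W) : Thin (Z ∪ W) := by
  refine ⟨hZ.1.union hW.1, fun R => ?_⟩
  obtain ⟨C, hC⟩ := hZ.2 R
  obtain ⟨D, hD⟩ := hW.2 R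
  refine ⟨max C 0 + max D 0, fun ε hε hε1 => ?_⟩
  have h1 : Metric.cthickening ε (Z ∪ W) ∩ Metric.closedBall 0 R ⊆
      (Metric.cthickening ε Z ∩ Metric.closedBall 0 R) ∪
        (Metric.cthickening ε W ∩ Metric.closedBall 0 R) := by
    rintro x ⟨hx, hR⟩
    rw [Metric.mem_cthickening_iff, Metric.infEDist_union, min_le_iff] at hx
    rcases hx with hx | hx
    · exact Or.inl ⟨Metric.mem_cthickening_iff.2 hx, hR⟩
    · exact Or.inr ⟨Metric.mem_cthickening_iff.2 hx, hR⟩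
  have e2 : (0 : ℝ) ≤ ε ^ 2 := sq_nonneg ε
  calc volume (Metric.cthickening ε (Z ∪ W) ∩ Metric.closedBall 0 R)
      ≤ volume (Metric.cthickening ε Z ∩ Metric.closedBall 0 R) +
          volume (Metric.cthickening ε W ∩ Metric.closedBall 0 R) :=
        (measure_mono h1).trans (measure_union_le _ _)
    _ ≤ ENNReal.ofReal (C * ε ^ 2) + ENNReal.ofReal (D * ε ^ 2) :=
        add_le_add (hC ε hε hε1) (hD ε hε hε1)
    _ ≤ ENNReal.ofReal (max C 0 * ε ^ 2) + ENNReal.ofReal (max D 0 * ε ^ 2) :=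
        add_le_add (ENNReal.ofReal_le_ofReal (mul_le_mul_of_nonneg_right (le_max_left _ _) e2))
          (ENNReal.ofReal_le_ofReal (mul_le_mul_of_nonneg_right (le_max_left _ _) e2))
    _ = ENNReal.ofReal ((max C 0 + max D 0) * ε ^ 2) := by
        rw [add_mul, ENNReal.ofReal_add (mul_nonneg (le_max_right _ _) e2)
          (mul_nonneg (le_max_right _ _) e2)]

end Pool.CQ
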