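import Pool.Agent.Lib.MP_cd5b91_an.CQ.HPosG
import Pool.Agent.Lib.MP_cd5b91_an.CQ.HMain
import Pool.Agent.Lib.MP_cd5b91_an.CQ.DualGen
import Pool.Agent.Lib.MP_cd5b91_an.CQ.DivThin
import Pool.Agent.Lib.MP_cd5b91_an.CQ.KBasic
import Pool.Agent.Lib.MP_cd5b91_an.CQ.Supp

/-!
# CQ-HDir: solutions of low energy whose curl has a smooth direction: one sign
-/

open MeasureTheory Filter Topology Set
open scoped ContDiff RealInnerProductSpace ENNReal

namespace Pool.CQ.H

open Pool.CQ.G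

theorem neg_mono {Z : Set E} {A A' : E → E} (hA : LpL 1 univ A) (h : Neg Z A)
    (hle : ∀ x, ‖A' x‖ ≤ ‖A x‖) : Neg Z A' := by
  intro R
  refine squeeze_zero (fun n => ?_) (fun n => ?_) (h R)
  · exact mul_nonneg (by positivity) (integral_nonneg fun x => norm_nonneg _)
  · refine mul_le_mul_of_nonneg_left ?_ (by positivity)
    have h1 : IntegrableOn A (Metric.closedBall (0 : E) R) :=
      memLp_one_iff_integrable.1 (hA _ (isCompact_closedBall 0 R) (subset_univ _))
    have h2 : IntegrableOn (fun x => ‖A x‖)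
        (Metric.cthickening (4 / ((n : ℝ) + 1)) Z ∩ Metric.closedBall 0 R) :=
      (h1.mono_set inter_subset_right).norm
    exact integral_mono_of_nonneg (Eventually.of_forall fun x => norm_nonneg _) h2
      (Eventually.of_forall hle)

/-- the coefficient of `B` along `β` -/
noncomputable def cof (B β : E → E) (x : E) : ℝ := ⟪B x, β x⟫ / ‖β x‖ ^ 2

theorem cof_eq {B β : E → E} {x : E} (h0 : β x ≠ 0) (h : ∃ t : ℝ, B x = t • β x) :
    B x = cof B β x • β x := by
  obtain ⟨t, hB⟩ := h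
  have hn : ‖β x‖ ^ 2 ≠ 0 := by
    have := norm_pos_iff.2 h0
    positivity
  have h1 : cof B β x = t := by
    unfold cof
    rw [hB, real_inner_smul_left, real_inner_self_eq_norm_sq, mul_div_cancel_right₀ _ hn]
  rw [h1, hB]

theorem cof_norm (B β : E → E) (x : E) : |cof B β x| * ‖β x‖ ≤ ‖B x‖ := by
  unfold cof
  rcases eq_or_ne (β x) 0 with h | h
  · rw [h, norm_zero, mul_zero]
    exact norm_nonneg _
  · have hn := norm_pos_iff.2 h
    rw [abs_div, abs_of_nonneg (by positivity : (0 : ℝ) ≤ ‖β x‖ ^ 2), div_mul_eq_mul_div,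
      div_le_iff₀ (by positivity)]
    have := abs_real_inner_le_norm (B x) (β x)
    nlinarith

theorem norm_posf_smul (g : E → ℝ) (β B : E → E) {s : ℝ} (hs : |s| = 1) (x : E)
    (h : |g x| * ‖β x‖ ≤ ‖B x‖) : ‖posf (fun y => s * g y) x • β x‖ ≤ ‖B x‖ := by
  rw [norm_smul]
  refine le_trans (mul_le_mul_of_nonneg_right (posf_le _ x) (norm_nonneg _)) ?_
  rw [Real.norm_eq_abs, abs_mul, hs, one_mul]
  exact h

private theorem half {S : ℝ} {u B : E → E} (h : LowK (fun _ => True) S u B) {O : Set E}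
    (hO : IsOpen O) {β : E → E} (hβ : ContDiffOn ℝ ∞ β O) (h0 : ∀ x ∈ O, β x ≠ 0)
    (hβ0 : ∀ x, x ∉ O → β x = 0) (mβ : AEStronglyMeasurable β volume) (hneg : Neg Oᶜ B)
    (hB0 : ∀ᵐ x ∂(volume.restrict Oᶜ), B x = 0)
    (hs : ∀ᵐ x, x ∈ O → B x = cof B β x • β x) {s : ℝ} (hss : s * s = 1) :
    (∫ x, ‖posf (fun y => s * cof B β y) x • β x‖ ^ 2) = 0 ∨
      S ^ (3 / 2 : ℝ) ≤ ∫ x, ‖posf (fun y => s * cof B β y) x • β x‖ ^ 2 := by
  have hu : MemLp u 6 volume := h.sol.1.1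
  have hB2 : MemLp B 2 volume := h.sol.1.2.1
  have hV : MemLp (fun x => ‖u x‖ ^ 4 • u x) (6 / 5) volume := memLp_quint hu hu
  have hOm := hO.measurableSet
  set V : E → E := fun x => ‖u x‖ ^ 4 • u x with hVd
  set g : E → ℝ := cof B β with hg
  have hsa : |s| = 1 := by
    have h1 : |s| * |s| = 1 := by rw [← abs_mul, hss, abs_one]
    nlinarith [abs_nonneg s]
  have hBg : ∀ᵐ x ∂(volume.restrict O), B x = g x • β x := (ae_restrict_iff' hOm).2 hs
  have hgβ : ∀ᵐ x, B x = g x • β x := by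
    filter_upwards [hs, (ae_restrict_iff' hOm.compl).1 hB0] with x h1 h2
    by_cases hx : x ∈ O
    · exact h1 hx
    · rw [h2 hx, hβ0 x hx, smul_zero]
  have mg : AEStronglyMeasurable g volume := by
    have h1 : AEMeasurable (fun x => ⟪B x, β x⟫ / ‖β x‖ ^ 2) volume :=
      (hB2.1.inner mβ).aemeasurable.div (mβ.norm.aemeasurable.pow_const 2)
    exact h1.aestronglyMeasurable
  have hone : (1 : ℝ≥0∞) ≤ 6 / 5 := by
    rw [ENNReal.le_div_iff_mul_le (by norm_num) (by norm_num)]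
    norm_num
  have hB1 : LpL 1 univ B := lpl_one one_le_two hB2 univ
  have hV1 : LpL 1 univ V := lpl_one hone hV univ
  have hg1 : LpL 1 O g := by
    intro K hK hKO
    obtain ⟨m, M, D, R, hm, hM, hD, hR, hb⟩ := bounds2 hO hβ h0 hK hKO
    refine MemLp.mono ((hB1 K hK (subset_univ _)).const_smul (m⁻¹)) mg.restrict ?_
    filter_upwards [ae_restrict_mem hK.measurableSet] with x hx
    rw [Pi.smul_apply, norm_smul, Real.norm_of_nonneg (inv_nonneg.2 hm.le), Real.norm_eq_abs]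
    have h1 := cof_norm B β x
    have h2 : |g x| * m ≤ ‖B x‖ := (mul_le_mul_of_nonneg_left (hb x hx).1 (abs_nonneg _)).trans h1
    rw [inv_mul_eq_div, le_div_iff₀ hm]
    exact h2
  have hW : WC O (fun x => g x • β x) V :=
    wc_congr hO (wc_mono (subset_univ O) h.sol.2) hBg
  have hdiv : ∀ f : E → ℝ, STest O f → ∫ x, ⟪g x • β x, gr f x⟫ = 0 := by
    intro f hf
    have h3 := (wc_mono (subset_univ O) h.sol.1.2.2 : WC O u B) _ (Pool.CQ.G.test_gr hf)
    simp only [Pool.CQ.G.curl_gr hf.1, inner_zero_right, integral_zero] at h3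
    rw [h3]
    refine integral_congr_ae ?_
    filter_upwards [hgβ] with x hx
    rw [hx]
  obtain ⟨hc1, hc2⟩ := pos_gen hO hβ h0 hg1 (fun K hK _ => hV1 K hK (subset_univ _)) hW hdiv s
  set P : E → E := fun x => posf (fun y => s * g y) x • β x with hP
  set Q : E → E := cutp (fun y => s * g y) (fun x => s • V x) with hQ
  have mP : AEStronglyMeasurable P volume := (aes_posf (mg.const_mul s)).smul mβ
  have hPB : ∀ x, ‖P x‖ ≤ ‖B x‖ := fun x => norm_posf_smul g β B hsa x (cof_norm B β x)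
  have hP2 : MemLp P 2 volume := hB2.mono mP (Eventually.of_forall hPB)
  have mQ : AEStronglyMeasurable Q volume := aes_cutp (mg.const_mul s) (hV.1.const_smul s)
  have hsV : ∀ x, ‖s • V x‖ = ‖V x‖ := fun x => by
    rw [norm_smul, Real.norm_eq_abs, hsa, one_mul]
  have hQV : ∀ x, ‖Q x‖ ≤ ‖V x‖ := fun x => (cutp_le _ _ x).trans (le_of_eq (hsV x))
  have hQ65 : MemLp Q (6 / 5) volume := hV.mono mQ (Eventually.of_forall hQV)
  have hPneg : Neg Oᶜ P := neg_mono hB1 hneg hPB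
  have hP1 : LpL 1 univ P := lpl_one one_le_two hP2 univ
  have hQ1 : LpL 1 univ Q := lpl_one hone hQ65 univ
  have hgz : ∀ x, x ∉ O → g x = 0 := fun x hx => by
    show ⟪B x, β x⟫ / ‖β x‖ ^ 2 = 0
    rw [hβ0 x hx, inner_zero_right, zero_div]
  have hQ0 : ∀ᵐ x ∂(volume.restrict Oᶜ), Q x = 0 := by
    filter_upwards [ae_restrict_mem hOm.compl] with x hx
    show cutp (fun y => s * g y) (fun x => s • V x) x = 0
    have h1 : s * g x = 0 := by rw [hgz x hx, mul_zero]
    unfold cutp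
    refine if_neg ?_
    show ¬ 0 < s * g x
    rw [h1]
    exact lt_irrefl 0
  have hPQ : WC univ P Q :=
    wc_neg hO.isClosed_compl hP1 hQ1 hPneg hQ0 (by rw [compl_compl]; exact hc1)
  have hPd : ∀ f : E → ℝ, STest univ f → ∫ x, ⟪P x, gr f x⟫ = 0 :=
    div_neg hO.isClosed_compl hP1 hPneg (by rw [compl_compl]; exact hc2)
  have hdu := dual_gen h.pos h.sob hP2 hQ65 hPQ hPd
  -- energy of the positive part
  obtain ⟨a, ha⟩ : ∃ a : ℝ, a = ∫ x, ‖P x‖ ^ 2 := ⟨_, rfl⟩
  have e3 : a = s * ∫ x, ⟪P x, B x⟫ := by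
    rw [ha, ← integral_const_mul]
    refine integral_congr_ae ?_
    filter_upwards [hgβ] with x hx
    show ‖posf (fun y => s * g y) x • β x‖ ^ 2 = s * ⟪posf (fun y => s * g y) x • β x, B x⟫
    rw [hx, ← real_inner_self_eq_norm_sq, real_inner_smul_left, real_inner_smul_left,
      real_inner_smul_right, real_inner_smul_right]
    unfold posf
    rcases le_total (s * g x) 0 with h2 | h2
    · rw [max_eq_right h2]; ring
    · rw [max_eq_left h2]; ring
  have hcut : ∀ x, ‖Q x‖ ^ (6 / 5 : ℝ) = s * ⟪Q x, u x⟫ := by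
    intro x
    show ‖cutp (fun y => s * g y) (fun x => s • V x) x‖ ^ (6 / 5 : ℝ) =
      s * ⟪cutp (fun y => s * g y) (fun x => s • V x) x, u x⟫
    unfold cutp
    by_cases hx : 0 < s * g x
    · rw [if_pos hx]
      show ‖s • V x‖ ^ (6 / 5 : ℝ) = s * ⟪s • V x, u x⟫
      rw [hsV, real_inner_smul_left, ← mul_assoc, hss, one_mul]
      show ‖‖u x‖ ^ 4 • u x‖ ^ (6 / 5 : ℝ) = ⟪‖u x‖ ^ 4 • u x, u x⟫
      rw [norm_V_rpow, real_inner_smul_left, real_inner_self_eq_norm_sq]
      ring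
    · rw [if_neg hx, norm_zero, inner_zero_left, mul_zero]
      exact Real.zero_rpow (by norm_num)
  have e4 : a = ∫ x, ‖Q x‖ ^ (6 / 5 : ℝ) := by
    rw [e3, pairing hP2 hQ65 hPQ h.sol.1, ← integral_const_mul]
    exact integral_congr_ae (Eventually.of_forall fun x => (hcut x).symm)
  rw [← e4, ← ha] at hdu
  have hgoal : a = 0 ∨ S ^ (3 / 2 : ℝ) ≤ a := by
    have ha0 : 0 ≤ a := by
      rw [ha]
      exact integral_nonneg fun x => by positivity
    rcases ha0.eq_or_lt with h1 | h1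
    · left; exact h1.symm
    · right
      have h5 : a ^ (5 / 3 : ℝ) = a ^ (2 / 3 : ℝ) * a := by
        rw [show (5 / 3 : ℝ) = 2 / 3 + 1 by norm_num, Real.rpow_add h1, Real.rpow_one]
      rw [h5] at hdu
      have h6 := le_of_mul_le_mul_right hdu h1
      exact K.pow_le_of h.pos ha0 h6
  rw [ha] at hgoal
  exact hgoal

/-- one sign -/
theorem dir_sign {S : ℝ} {u B : E → E} (h : LowK (fun _ => True) S u B) {O : Set E}
    (hO : IsOpen O) {β : E → E} (hβ : ContDiffOn ℝ ∞ β O) (h0 : ∀ x ∈ O, β x ≠ 0)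
    (hβ0 : ∀ x, x ∉ O → β x = 0) (mβ : AEStronglyMeasurable β volume) (hneg : Neg Oᶜ B)
    (hB0 : ∀ᵐ x ∂(volume.restrict Oᶜ), B x = 0)
    (hs : ∀ᵐ x, x ∈ O → B x = cof B β x • β x) :
    (∀ᵐ x, x ∈ O → 0 ≤ cof B β x) ∨ (∀ᵐ x, x ∈ O → cof B β x ≤ 0) := by
  have hB2 : MemLp B 2 volume := h.sol.1.2.1
  have hOm := hO.measurableSet
  have mg : AEStronglyMeasurable (cof B β) volume := by
    have h1 : AEMeasurable (fun x => ⟪B x, β x⟫ / ‖β x‖ ^ 2) volume :=
      (hB2.1.inner mβ).aemeasurable.div (mβ.norm.aemeasurable.pow_const 2)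
    exact h1.aestronglyMeasurable
  have hgβ : ∀ᵐ x, B x = cof B β x • β x := by
    filter_upwards [hs, (ae_restrict_iff' hOm.compl).1 hB0] with x h1 h2
    by_cases hx : x ∈ O
    · exact h1 hx
    · rw [h2 hx, hβ0 x hx, smul_zero]
  have hsa : ∀ {s : ℝ}, s * s = 1 → |s| = 1 := by
    intro s hss
    have h1 : |s| * |s| = 1 := by rw [← abs_mul, hss, abs_one]
    nlinarith [abs_nonneg s]
  have hint : ∀ s : ℝ, s * s = 1 →
      Integrable (fun x => ‖posf (fun y => s * cof B β y) x • β x‖ ^ 2) volume := by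
    intro s hss
    exact int2 (hB2.mono ((aes_posf (mg.const_mul s)).smul mβ)
      (Eventually.of_forall fun x => norm_posf_smul _ β B (hsa hss) x (cof_norm B β x)))
  have hsum : (∫ x, ‖posf (fun y => 1 * cof B β y) x • β x‖ ^ 2) +
      (∫ x, ‖posf (fun y => -1 * cof B β y) x • β x‖ ^ 2) = ∫ x, ‖u x‖ ^ 6 := by
    rw [← K.ws_nehari h.sol, ← integral_add (hint 1 (by norm_num)) (hint (-1) (by norm_num))]
    refine integral_congr_ae ?_
    filter_upwards [hgβ] with x hx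
    obtain ⟨b, hb⟩ : ∃ b : E, b = B x := ⟨_, rfl⟩
    have hxb : b = cof B β x • β x := hb.trans hx
    rw [← hb, hxb]
    have hn : ∀ t : ℝ, ‖t • β x‖ ^ 2 = t ^ 2 * ‖β x‖ ^ 2 := fun t => by
      rw [norm_smul, mul_pow, Real.norm_eq_abs, sq_abs]
    rw [hn, hn, hn, ← add_mul]
    congr 1
    unfold posf
    rcases le_total (cof B β x) 0 with h2 | h2
    · rw [max_eq_right (by linarith), max_eq_left (by linarith)]; ring
    · rw [max_eq_left (by linarith), max_eq_right (by linarith)]; ring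
  have hzero : ∀ s : ℝ, s * s = 1 → (∫ x, ‖posf (fun y => s * cof B β y) x • β x‖ ^ 2) = 0 →
      ∀ᵐ x, x ∈ O → s * cof B β x ≤ 0 := by
    intro s hss h1
    rw [integral_eq_zero_iff_of_nonneg (fun x => by positivity) (hint s hss)] at h1
    filter_upwards [h1] with x hx hxO
    have h2 : ‖posf (fun y => s * cof B β y) x • β x‖ ^ 2 = 0 := hx
    have h3 : posf (fun y => s * cof B β y) x • β x = 0 := by
      rw [← norm_eq_zero]
      exact pow_eq_zero_iff two_ne_zero |>.1 h2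
    have h4 := (smul_eq_zero.1 h3).resolve_right (h0 x hxO)
    simp only [posf] at h4
    exact max_eq_right_iff.1 h4
  rcases half h hO hβ h0 hβ0 mβ hneg hB0 hs (s := 1) (by norm_num) with h1 | h1
  · right
    filter_upwards [hzero 1 (by norm_num) h1] with x hx hxO
    simpa using hx hxO
  · rcases half h hO hβ h0 hβ0 mβ hneg hB0 hs (s := -1) (by norm_num) with h2 | h2
    · left
      filter_upwards [hzero (-1) (by norm_num) h2] with x hx hxO
      have h3 := hx hxO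
      linarith
    · exfalso
      have h3 := h.low
      linarith

/-- full support in `O` -/
theorem full_dir {S : ℝ} {u B : E → E} (h : LowK (fun _ => True) S u B) {O : Set E}
    (hO : IsOpen O) (hOc : IsPreconnected O) {β : E → E} (hβ : ContDiffOn ℝ ∞ β O)
    (h0 : ∀ x ∈ O, β x ≠ 0) (hneg : Neg Oᶜ B)
    (hs : ∀ᵐ x ∂(volume.restrict O), ∃ t : ℝ, B x = t • β x) : O ⊆ esupp u := by
  have hOm := hO.measurableSet
  have hB2 : MemLp B 2 volume := h.sol.1.2.1
  have hB1 : LpL 1 univ B := lpl_one one_le_two hB2 univ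
  have hB0 : ∀ᵐ x ∂(volume.restrict Oᶜ), B x = 0 := neg_zero hO.isClosed_compl hB1 hneg
  obtain ⟨γ, hγ⟩ : ∃ γ : E → E, γ = O.indicator β := ⟨_, rfl⟩
  have hγO : ∀ x ∈ O, γ x = β x := fun x hx => by rw [hγ, indicator_of_mem hx]
  have hγ0 : ∀ x, x ∉ O → γ x = 0 := fun x hx => by rw [hγ, indicator_of_notMem hx]
  have cγ : ContDiffOn ℝ ∞ γ O := hβ.congr hγO
  have nγ : ∀ x ∈ O, γ x ≠ 0 := fun x hx => by rw [hγO x hx]; exact h0 x hx
  have mγ : AEStronglyMeasurable γ volume := by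
    rw [hγ, aestronglyMeasurable_indicator_iff hOm]
    exact hβ.continuousOn.aestronglyMeasurable hOm
  have hsO : ∀ᵐ x, x ∈ O → B x = cof B γ x • γ x := by
    filter_upwards [(ae_restrict_iff' hOm).1 hs] with x hx hxO
    refine cof_eq (nγ x hxO) ?_
    rw [hγO x hxO]
    exact hx hxO
  intro x hx U hU hxU hUz
  have hLu : LpL 6 O u := fun K _ _ => h.sol.1.1.restrict K
  have hLB : LpL 2 O B := fun K _ _ => hB2.restrict K
  have hz : ∀ᵐ x ∂(volume.restrict O), u x = 0 := by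
    rcases dir_sign h hO cγ nγ hγ0 mγ hneg hB0 hsO with hsg | hsg
    · refine unique hO hOc cγ nγ hLu hLB (wc_mono (subset_univ O) h.sol.1.2.2)
        (wc_mono (subset_univ O) h.sol.2) ?_ hU ⟨x, hxU, hx⟩ hUz
      rw [ae_restrict_iff' hOm]
      filter_upwards [hsg, hsO] with y hy hy2 hyO
      exact ⟨_, hy hyO, hy2 hyO⟩
    · refine unique hO hOc (α := fun x => -γ x) cγ.neg (fun x hx => neg_ne_zero.2 (nγ x hx)) hLu hLB
        (wc_mono (subset_univ O) h.sol.1.2.2)
        (wc_mono (subset_univ O) h.sol.2) ?_ hU ⟨x, hxU, hx⟩ hUz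
      rw [ae_restrict_iff' hOm]
      filter_upwards [hsg, hsO] with y hy hy2 hyO
      refine ⟨-cof B γ y, by linarith [hy hyO], ?_⟩
      rw [smul_neg, neg_smul, neg_neg]
      exact hy2 hyO
  have hBO : ∀ᵐ x ∂(volume.restrict O), B x = 0 :=
    wc_zero hO (fun K hK _ => hB1 K hK (subset_univ _)) (wc_mono (subset_univ O) h.sol.1.2.2) hz
  have hBz : ∀ᵐ x ∂(volume.restrict univ), B x = 0 := by
    rw [Measure.restrict_univ]
    filter_upwards [(ae_restrict_iff' hOm).1 hBO, (ae_restrict_iff' hOm.compl).1 hB0] with y h1 h2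
    by_cases hy : y ∈ O
    · exact h1 hy
    · exact h2 hy
  have hone : (1 : ℝ≥0∞) ≤ 6 / 5 := by
    rw [ENNReal.le_div_iff_mul_le (by norm_num) (by norm_num)]
    norm_num
  have hVz := wc_zero isOpen_univ (lpl_one hone (memLp_quint h.sol.1.1 h.sol.1.1) univ) h.sol.2 hBz
  rw [Measure.restrict_univ] at hVz
  refine h.ne ?_
  filter_upwards [hVz] with y hy
  have h5 : ‖‖u y‖ ^ 4 • u y‖ = 0 := by
    rw [show ‖u y‖ ^ 4 • u y = 0 from hy, norm_zero]
  rw [norm_V] at h5
  exact norm_eq_zero.1 (pow_eq_zero_iff (by norm_num) |>.1 h5)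

end Pool.CQ.H
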