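import Pool.Agent.Lib.MP_cd5b91_an.CQ.HWG
import Pool.Agent.Lib.MP_cd5b91_an.CQ.HAux

/-!
# CQ-HOrth: the component of `curl (ψ α)` along `α`; bounds
-/

open MeasureTheory Filter Topology Set
open scoped ContDiff RealInnerProductSpace ENNReal

namespace Pool.CQ.H

open Pool.CQ.G

/-- the component of `curl (ψ α)` along `α` -/
theorem orth {O : Set E} (hO : IsOpen O) {α : E → E} (hα : ContDiffOn ℝ ∞ α O)
    {ψ : E → ℝ} {C : E → E} (hψ : LpL 1 O ψ) (hC : LpL 1 O C)
    (h : WC O (fun x => ψ x • α x) C) :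
    ∀ᵐ x ∂(volume.restrict O), ⟪C x, α x⟫ - ψ x * ⟪α x, curl α x⟫ = 0 := by
  have hcu := contDiffOn_curl hO hα
  have hac : ContDiffOn ℝ ∞ (fun x => ⟪α x, curl α x⟫) O := hα.inner ℝ hcu
  refine (ae_restrict_iff' hO.measurableSet).2 ?_
  refine hO.ae_eq_zero_of_integral_contDiff_smul_eq_zero ?_ ?_
  · rw [locallyIntegrableOn_iff hO.isLocallyClosed]
    intro K hKO hK
    have hKm := hK.measurableSet
    have ha : AEStronglyMeasurable α (volume.restrict K) :=
      (hα.continuousOn.mono hKO).aestronglyMeasurable hKm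
    have hb : AEStronglyMeasurable (fun x => ⟪α x, curl α x⟫) (volume.restrict K) :=
      (hac.continuousOn.mono hKO).aestronglyMeasurable hKm
    obtain ⟨M, hM⟩ := hK.exists_bound_of_continuousOn (hα.continuousOn.mono hKO)
    obtain ⟨M', hM'⟩ := hK.exists_bound_of_continuousOn (hac.continuousOn.mono hKO)
    have h1 : Integrable C (volume.restrict K) := memLp_one_iff_integrable.1 (hC K hK hKO)
    have h2 : Integrable ψ (volume.restrict K) := memLp_one_iff_integrable.1 (hψ K hK hKO)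
    refine Integrable.sub ?_ ?_
    · refine Integrable.mono' (g := fun x => M * ‖C x‖) (h1.norm.const_mul M) (h1.1.inner ha) ?_
      filter_upwards [ae_restrict_mem hKm] with x hx
      refine (norm_inner_le_norm _ _).trans ?_
      rw [mul_comm]
      exact mul_le_mul_of_nonneg_right (hM x hx) (norm_nonneg _)
    · refine h2.mul_bdd (c := M') hb ?_
      filter_upwards [ae_restrict_mem hKm] with x hx
      exact hM' x hx
  · intro η hη hηc hηO
    have hS : STest O η := ⟨hη, hηc, hηO⟩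
    have h1 := h _ (test_smul hO hα hS)
    have h2 : ∀ x, ⟪ψ x • α x, curl (fun y => η y • α y) x⟫ = ψ x * (η x * ⟪α x, curl α x⟫) := by
      intro x
      rw [curl_smul_on hO hα hS, real_inner_smul_left, inner_add_right, real_inner_smul_right,
        real_inner_comm, inner_cr]
      have h3 : cr (α x) (α x) = 0 := by
        ext i
        fin_cases i
        · change α x 1 * α x 2 - α x 2 * α x 1 = 0
          ring
        · change α x 2 * α x 0 - α x 0 * α x 2 = 0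
          ring
        · change α x 0 * α x 1 - α x 1 * α x 0 = 0
          ring
      rw [h3, inner_zero_right, zero_add]
    simp only [h2] at h1
    have i1 : Integrable (fun x => ψ x * (η x * ⟪α x, curl α x⟫)) :=
      int_stest hψ (stest_mul hO hac hS)
    have i4 : Integrable (fun x => ⟪C x, η x • α x⟫) := by
      have h3 : ∀ i : Fin 3, Integrable (fun x => C x i * (η x * α x i)) := fun i =>
        int_stest (lpl_coord hC i) (stest_mul hO (contDiffOn_coord hα i) hS)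
      have h4 : (fun x => ⟪C x, η x • α x⟫) =
          fun x => C x 0 * (η x * α x 0) + C x 1 * (η x * α x 1) + C x 2 * (η x * α x 2) := by
        funext x
        rw [inner3]
        rfl
      rw [h4]
      exact ((h3 0).add (h3 1)).add (h3 2)
    have h5 : ∫ x, η x • (⟪C x, α x⟫ - ψ x * ⟪α x, curl α x⟫) =
        ∫ x, (⟪C x, η x • α x⟫ - ψ x * (η x * ⟪α x, curl α x⟫)) := by
      refine integral_congr_ae (Eventually.of_forall fun x => ?_)
      show η x • (⟪C x, α x⟫ - ψ x * ⟪α x, curl α x⟫) =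
        ⟪C x, η x • α x⟫ - ψ x * (η x * ⟪α x, curl α x⟫)
      rw [real_inner_smul_right, smul_eq_mul]
      ring
    rw [h5, integral_sub i4 i1, h1, sub_self]

theorem int_inner {O : Set E} {C φ : E → E} (hC : LpL 1 O C) (hφ : TestIn O φ) :
    Integrable (fun x => ⟪C x, φ x⟫) := by
  have h3 : ∀ i : Fin 3, Integrable (fun x => C x i * φ x i) := by
    intro i
    refine int_stest (lpl_coord hC i) ⟨?_, ?_, ?_⟩
    · exact (EuclideanSpace.proj (𝕜 := ℝ) i).contDiff.comp hφ.1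
    · exact HasCompactSupport.intro hφ.2.1 fun x hx => by
        rw [image_eq_zero_of_notMem_tsupport hx]
        rfl
    · refine (closure_minimal (fun x hx => ?_) (isClosed_tsupport φ)).trans hφ.2.2
      by_contra h
      refine hx ?_
      show φ x i = 0
      rw [image_eq_zero_of_notMem_tsupport h]
      rfl
  have h4 : (fun x => ⟪C x, φ x⟫) = fun x => C x 0 * φ x 0 + C x 1 * φ x 1 + C x 2 * φ x 2 := by
    funext x
    rw [inner3]
  rw [h4]
  exact ((h3 0).add (h3 1)).add (h3 2)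

/-- bounds on a compact set -/
theorem bounds2 {O : Set E} (hO : IsOpen O) {α : E → E} (hα : ContDiffOn ℝ ∞ α O)
    (h0 : ∀ x ∈ O, α x ≠ 0) {K : Set E} (hK : IsCompact K) (hKO : K ⊆ O) :
    ∃ m M D R : ℝ, 0 < m ∧ 0 < M ∧ 0 ≤ D ∧ 0 ≤ R ∧
      ∀ x ∈ K, m ≤ ‖α x‖ ∧ ‖α x‖ ≤ M ∧ |dv α x| ≤ D ∧ ‖curl α x‖ ≤ R := by
  obtain ⟨m, M, D, hm, hM, hD, hb⟩ := bounds hO hα h0 hK hKO
  obtain ⟨R, hR⟩ := hK.exists_bound_of_continuousOn ((contDiffOn_curl hO hα).continuousOn.mono hKO)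
  exact ⟨m, M, D, |R|, hm, hM, hD, abs_nonneg _, fun x hx => ⟨(hb x hx).1, (hb x hx).2.1,
    (hb x hx).2.2, (hR x hx).trans (le_abs_self R)⟩⟩

theorem norm_hG_le {α : E → E} {ψ : E → ℝ} {C : E → E} {x : E} {m D R : ℝ} (hm : 0 < m)
    (h1 : m ≤ ‖α x‖) (h2 : |dv α x| ≤ D) (h3 : ‖curl α x‖ ≤ R) (hψ : 0 ≤ ψ x) :
    ‖hG α ψ C x‖ ≤ (m⁻¹ * (1 + D) * (1 + R)) * (‖C x‖ + ψ x) := by
  have hD : 0 ≤ D := (abs_nonneg _).trans h2
  have hR : 0 ≤ R := (norm_nonneg _).trans h3
  have h4 := norm_gG_le (C := fun y => C y - ψ y • curl α y) hm h1 h2 hψ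
  have h5 : ‖C x - ψ x • curl α x‖ ≤ ‖C x‖ + R * ψ x := by
    refine (norm_sub_le _ _).trans ?_
    rw [norm_smul, Real.norm_of_nonneg hψ, mul_comm (ψ x)]
    have := mul_le_mul_of_nonneg_right h3 hψ
    linarith
  have h6 : ‖C x - ψ x • curl α x‖ + ψ x ≤ (1 + R) * (‖C x‖ + ψ x) := by
    have := mul_nonneg hR (norm_nonneg (C x))
    linarith
  calc ‖hG α ψ C x‖ ≤ (m⁻¹ * (1 + D)) * (‖C x - ψ x • curl α x‖ + ψ x) := h4
    _ ≤ (m⁻¹ * (1 + D)) * ((1 + R) * (‖C x‖ + ψ x)) :=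
        mul_le_mul_of_nonneg_left h6 (by positivity)
    _ = _ := by ring

/-- Young's inequality -/
theorem young6 {R a b : ℝ} (hR : 0 ≤ R) (ha : 0 ≤ a) (hb : 0 ≤ b) :
    R * a * b ≤ 1 / 2 * b ^ 6 + R ^ (6 / 5 : ℝ) * a ^ (6 / 5 : ℝ) := by
  have hc : (6 / 5 : ℝ).HolderConjugate 6 := Real.holderConjugate_iff.mpr ⟨by norm_num, by norm_num⟩
  have h := Real.young_inequality_of_nonneg (mul_nonneg hR ha) hb hc
  have h6 : b ^ (6 : ℝ) = b ^ 6 := by
    have : (6 : ℝ) = ((6 : ℕ) : ℝ) := by norm_num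
    rw [this, Real.rpow_natCast]
  rw [Real.mul_rpow hR ha, h6] at h
  have h7 : 0 ≤ b ^ 6 := by positivity
  have h8 : 0 ≤ R ^ (6 / 5 : ℝ) * a ^ (6 / 5 : ℝ) := by positivity
  have h9 : R ^ (6 / 5 : ℝ) * a ^ (6 / 5 : ℝ) / (6 / 5) ≤ R ^ (6 / 5 : ℝ) * a ^ (6 / 5 : ℝ) :=
    div_le_self h8 (by norm_num)
  linarith

end Pool.CQ.H
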