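import Pool.Agent.Lib.MP_cd5b91_an.CQ.HOrth
import Pool.Agent.Lib.MP_cd5b91_an.CQ.Chain

/-!
# CQ-HPos: the positive part of a field `g β` with smooth direction `β`
-/

open MeasureTheory Filter Topology Set
open scoped ContDiff RealInnerProductSpace ENNReal

namespace Pool.CQ.H

open Pool.CQ.G

private theorem ext3 {a b : E} (h0 : a 0 = b 0) (h1 : a 1 = b 1) (h2 : a 2 = b 2) : a = b := by
  ext i
  fin_cases i
  · exact h0
  · exact h1
  · exact h2

private theorem stest_sub {O : Set E} {f g : E → ℝ} (hf : STest O f) (hg : STest O g) :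
    STest O (fun x => f x - g x) := by
  have hs : Function.support (fun x => f x - g x) ⊆ tsupport f ∪ tsupport g := by
    intro x hx
    by_contra h
    rw [mem_union, not_or] at h
    refine hx ?_
    show f x - g x = 0
    rw [image_eq_zero_of_notMem_tsupport h.1, image_eq_zero_of_notMem_tsupport h.2, sub_zero]
  have hc : IsClosed (tsupport f ∪ tsupport g) := (isClosed_tsupport f).union (isClosed_tsupport g)
  have ht : tsupport (fun x => f x - g x) ⊆ tsupport f ∪ tsupport g := closure_minimal hs hc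
  have hK : IsCompact (tsupport f ∪ tsupport g) := IsCompact.union hf.2.1 hg.2.1
  exact ⟨hf.1.sub hg.1, hK.of_isClosed_subset (isClosed_tsupport _) ht,
    ht.trans (union_subset hf.2.2 hg.2.2)⟩

private theorem stest_coord {O : Set E} {φ : E → E} (hφ : TestIn O φ) (i : Fin 3) :
    STest O (fun x => φ x i) := by
  refine ⟨?_, ?_, ?_⟩
  · exact (EuclideanSpace.proj (𝕜 := ℝ) i).contDiff.comp hφ.1
  · exact HasCompactSupport.intro hφ.2.1 fun x hx => by
      rw [image_eq_zero_of_notMem_tsupport hx]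
      rfl
  · refine (closure_minimal (fun x hx => ?_) (isClosed_tsupport φ)).trans hφ.2.2
    by_contra h
    refine hx ?_
    show φ x i = 0
    rw [image_eq_zero_of_notMem_tsupport h]
    rfl

private theorem pd_combo {a b c d : E → ℝ} {x : E} (ha : DifferentiableAt ℝ a x)
    (hb : DifferentiableAt ℝ b x) (hc : DifferentiableAt ℝ c x) (hd : DifferentiableAt ℝ d x)
    (i : Fin 3) : pd i (fun y => a y * c y - b y * d y) x =
      c x * pd i a x + a x * pd i c x - (d x * pd i b x + b x * pd i d x) := by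
  have h1 : DifferentiableAt ℝ (fun y => a y * c y) x := ha.mul hc
  have h2 : DifferentiableAt ℝ (fun y => b y * d y) x := hb.mul hd
  unfold pd
  rw [fderiv_fun_sub h1 h2, fderiv_fun_mul ha hc, fderiv_fun_mul hb hd]
  change (a x * (fderiv ℝ c x _) + c x * (fderiv ℝ a x _)) -
    (b x * (fderiv ℝ d x _) + d x * (fderiv ℝ b x _)) = _
  ring

private theorem pd_mul {η ζ : E → ℝ} {x : E} (hη : DifferentiableAt ℝ η x) (hζ : DifferentiableAt ℝ ζ x)
    (i : Fin 3) : pd i (fun y => η y * ζ y) x = ζ x * pd i η x + η x * pd i ζ x := by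
  unfold pd
  rw [fderiv_fun_mul hη hζ]
  change η x * (fderiv ℝ ζ x _) + ζ x * (fderiv ℝ η x _) = _
  ring

/-- the curl of `ψ α` from the weak gradient of `ψ` -/
theorem wc_of_wgrad {O : Set E} (hO : IsOpen O) {α : E → E} (hα : ContDiffOn ℝ ∞ α O) {ψ : E → ℝ}
    {G : E → E} (hψ : LpL 1 O ψ) (hG : LpL 1 O G) (h : WGrad O ψ G) :
    WC O (fun x => ψ x • α x) (fun x => cr (G x) (α x) + ψ x • curl α x) := by
  intro φ hφ
  have hφi := stest_coord hφ
  have hαi := contDiffOn_coord hα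
  have hcu := contDiffOn_coord (contDiffOn_curl hO hα)
  have t0 : STest O (fun x => φ x 1 * α x 2 - φ x 2 * α x 1) :=
    stest_sub (stest_mul hO (hαi 2) (hφi 1)) (stest_mul hO (hαi 1) (hφi 2))
  have t1 : STest O (fun x => φ x 2 * α x 0 - φ x 0 * α x 2) :=
    stest_sub (stest_mul hO (hαi 0) (hφi 2)) (stest_mul hO (hαi 2) (hφi 0))
  have t2 : STest O (fun x => φ x 0 * α x 1 - φ x 1 * α x 0) :=
    stest_sub (stest_mul hO (hαi 1) (hφi 0)) (stest_mul hO (hαi 0) (hφi 1))
  have e0 := h _ t0 0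
  have e1 := h _ t1 1
  have e2 := h _ t2 2
  have i0 := int_stest hψ (stest_pd t0 0)
  have i1 := int_stest hψ (stest_pd t1 1)
  have i2 := int_stest hψ (stest_pd t2 2)
  have j0 := int_stest (lpl_coord hG 0) t0
  have j1 := int_stest (lpl_coord hG 1) t1
  have j2 := int_stest (lpl_coord hG 2) t2
  have k0 := int_stest hψ (stest_mul hO (hcu 0) (hφi 0))
  have k1 := int_stest hψ (stest_mul hO (hcu 1) (hφi 1))
  have k2 := int_stest hψ (stest_mul hO (hcu 2) (hφi 2))
  have u : ∀ (v : E → E) (x : E), curl v x 0 = pd 1 (fun y => v y 2) x - pd 2 (fun y => v y 1) x ∧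
      curl v x 1 = pd 2 (fun y => v y 0) x - pd 0 (fun y => v y 2) x ∧
        curl v x 2 = pd 0 (fun y => v y 1) x - pd 1 (fun y => v y 0) x := fun v x => ⟨rfl, rfl, rfl⟩
  have hp : ∀ x, ⟪ψ x • α x, curl φ x⟫ =
      (ψ x * pd 0 (fun x => φ x 1 * α x 2 - φ x 2 * α x 1) x
        + ψ x * pd 1 (fun x => φ x 2 * α x 0 - φ x 0 * α x 2) x
        + ψ x * pd 2 (fun x => φ x 0 * α x 1 - φ x 1 * α x 0) x) +
      (ψ x * (φ x 0 * curl α x 0) + ψ x * (φ x 1 * curl α x 1) + ψ x * (φ x 2 * curl α x 2)) := by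
    intro x
    by_cases hx : x ∈ O
    · have dφ : ∀ i : Fin 3, DifferentiableAt ℝ (fun x => φ x i) x := fun i =>
        (hφi i).1.contDiffAt.differentiableAt (by simp)
      have dt : ∀ i : Fin 3, DifferentiableAt ℝ (fun x => α x i) x := fun i =>
        ((hαi i).contDiffAt (hO.mem_nhds hx)).differentiableAt (by simp)
      rw [pd_combo (dφ 1) (dφ 2) (dt 2) (dt 1), pd_combo (dφ 2) (dφ 0) (dt 0) (dt 2),
        pd_combo (dφ 0) (dφ 1) (dt 1) (dt 0), real_inner_smul_left, inner3,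
        (u φ x).1, (u φ x).2.1, (u φ x).2.2, (u α x).1, (u α x).2.1, (u α x).2.2]
      ring
    · have hz : ∀ {f : E → ℝ}, STest O f → ∀ i : Fin 3, pd i f x = 0 := by
        intro f hf i
        unfold pd
        rw [(ev_zero hf hx).fderiv_eq]
        simp
      rw [curl_off hφ hx, hz t0, hz t1, hz t2, test_off hφ hx]
      simp
  have hc : ∫ x, ⟪ψ x • α x, curl φ x⟫ =
      (∫ x, (ψ x * pd 0 (fun x => φ x 1 * α x 2 - φ x 2 * α x 1) x
        + ψ x * pd 1 (fun x => φ x 2 * α x 0 - φ x 0 * α x 2) x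
        + ψ x * pd 2 (fun x => φ x 0 * α x 1 - φ x 1 * α x 0) x)) +
      ∫ x, (ψ x * (φ x 0 * curl α x 0) + ψ x * (φ x 1 * curl α x 1) + ψ x * (φ x 2 * curl α x 2)) := by
    simp only [hp]
    exact integral_add ((i0.add i1).add i2) ((k0.add k1).add k2)
  have i01 : Integrable (fun x => ψ x * pd 0 (fun x => φ x 1 * α x 2 - φ x 2 * α x 1) x
        + ψ x * pd 1 (fun x => φ x 2 * α x 0 - φ x 0 * α x 2) x) := i0.add i1
  have j01 : Integrable (fun x => G x 0 * (φ x 1 * α x 2 - φ x 2 * α x 1) +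
      G x 1 * (φ x 2 * α x 0 - φ x 0 * α x 2)) := j0.add j1
  have hs : ∫ x, (ψ x * pd 0 (fun x => φ x 1 * α x 2 - φ x 2 * α x 1) x
        + ψ x * pd 1 (fun x => φ x 2 * α x 0 - φ x 0 * α x 2) x
        + ψ x * pd 2 (fun x => φ x 0 * α x 1 - φ x 1 * α x 0) x) =
      -∫ x, (G x 0 * (φ x 1 * α x 2 - φ x 2 * α x 1) + G x 1 * (φ x 2 * α x 0 - φ x 0 * α x 2) +
        G x 2 * (φ x 0 * α x 1 - φ x 1 * α x 0)) := by
    rw [integral_add i01 i2, integral_add i0 i1, integral_add j01 j2, integral_add j0 j1, e0, e1, e2]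
    ring
  have jn : Integrable (fun x => -(G x 0 * (φ x 1 * α x 2 - φ x 2 * α x 1) +
      G x 1 * (φ x 2 * α x 0 - φ x 0 * α x 2) + G x 2 * (φ x 0 * α x 1 - φ x 1 * α x 0))) :=
    ((j0.add j1).add j2).neg
  have kk : Integrable (fun x => ψ x * (φ x 0 * curl α x 0) + ψ x * (φ x 1 * curl α x 1) +
      ψ x * (φ x 2 * curl α x 2)) := (k0.add k1).add k2
  rw [hc, hs, ← integral_neg, ← integral_add jn kk]
  refine integral_congr_ae (Eventually.of_forall fun x => ?_)
  show -(G x 0 * (φ x 1 * α x 2 - φ x 2 * α x 1) + G x 1 * (φ x 2 * α x 0 - φ x 0 * α x 2) +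
        G x 2 * (φ x 0 * α x 1 - φ x 1 * α x 0)) +
      (ψ x * (φ x 0 * curl α x 0) + ψ x * (φ x 1 * curl α x 1) + ψ x * (φ x 2 * curl α x 2)) =
    ⟪cr (G x) (α x) + ψ x • curl α x, φ x⟫
  rw [inner3]
  change _ = ((G x 1 * α x 2 - G x 2 * α x 1) + ψ x * curl α x 0) * φ x 0 +
    ((G x 2 * α x 0 - G x 0 * α x 2) + ψ x * curl α x 1) * φ x 1 +
    ((G x 0 * α x 1 - G x 1 * α x 0) + ψ x * curl α x 2) * φ x 2
  ring

/-- the divergence of `ψ α` from the weak gradient of `ψ` -/
theorem div_of_wgrad {O : Set E} (hO : IsOpen O) {α : E → E} (hα : ContDiffOn ℝ ∞ α O) {ψ : E → ℝ}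
    {G : E → E} (hψ : LpL 1 O ψ) (hG : LpL 1 O G) (h : WGrad O ψ G) {f : E → ℝ} (hf : STest O f) :
    ∫ x, ⟪ψ x • α x, gr f x⟫ = -∫ x, (⟪G x, α x⟫ + ψ x * dv α x) * f x := by
  have hαi := contDiffOn_coord hα
  have t : ∀ i, STest O (fun x => f x * α x i) := fun i => stest_mul hO (hαi i) hf
  have e := fun i => h _ (t i) i
  have i := fun i => int_stest hψ (stest_pd (t i) i)
  have j := fun i => int_stest (lpl_coord hG i) (t i)
  have k : Integrable (fun x => ψ x * (f x * dv α x)) :=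
    int_stest hψ (stest_mul hO (contDiffOn_dv hO hα) hf)
  have hp : ∀ x, ⟪ψ x • α x, gr f x⟫ =
      (ψ x * pd 0 (fun x => f x * α x 0) x + ψ x * pd 1 (fun x => f x * α x 1) x
        + ψ x * pd 2 (fun x => f x * α x 2) x) - ψ x * (f x * dv α x) := by
    intro x
    by_cases hx : x ∈ O
    · have df : DifferentiableAt ℝ f x := hf.1.contDiffAt.differentiableAt (by simp)
      have dt : ∀ i : Fin 3, DifferentiableAt ℝ (fun x => α x i) x := fun i =>
        ((hαi i).contDiffAt (hO.mem_nhds hx)).differentiableAt (by simp)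
      rw [pd_mul df (dt 0), pd_mul df (dt 1), pd_mul df (dt 2), real_inner_smul_left, inner3]
      unfold dv
      change ψ x * (α x 0 * pd 0 f x + α x 1 * pd 1 f x + α x 2 * pd 2 f x) = _
      ring
    · have hz : ∀ {f : E → ℝ}, STest O f → ∀ i : Fin 3, pd i f x = 0 := by
        intro f hf i
        unfold pd
        rw [(ev_zero hf hx).fderiv_eq]
        simp
      have hf0 : f x = 0 := (ev_zero hf hx).eq_of_nhds
      rw [hz (t 0), hz (t 1), hz (t 2), test_off (test_gr hf) hx, hf0]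
      simp
  have i01 : Integrable (fun x => ψ x * pd 0 (fun x => f x * α x 0) x +
      ψ x * pd 1 (fun x => f x * α x 1) x) := (i 0).add (i 1)
  have i012 : Integrable (fun x => ψ x * pd 0 (fun x => f x * α x 0) x +
      ψ x * pd 1 (fun x => f x * α x 1) x + ψ x * pd 2 (fun x => f x * α x 2) x) := i01.add (i 2)
  have j01 : Integrable (fun x => G x 0 * (f x * α x 0) + G x 1 * (f x * α x 1)) := (j 0).add (j 1)
  have j012 : Integrable (fun x => G x 0 * (f x * α x 0) + G x 1 * (f x * α x 1) +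
      G x 2 * (f x * α x 2)) := j01.add (j 2)
  simp only [hp]
  rw [integral_sub i012 k, integral_add i01 (i 2), integral_add (i 0) (i 1), e 0, e 1, e 2]
  have h1 : ∫ x, (⟪G x, α x⟫ + ψ x * dv α x) * f x =
      ∫ x, ((G x 0 * (f x * α x 0) + G x 1 * (f x * α x 1) + G x 2 * (f x * α x 2)) +
        ψ x * (f x * dv α x)) := by
    refine integral_congr_ae (Eventually.of_forall fun x => ?_)
    show (⟪G x, α x⟫ + ψ x * dv α x) * f x = _
    rw [inner3]
    ring
  rw [h1, integral_add j012 k, integral_add j01 (j 2), integral_add (j 0) (j 1)]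
  ring

/-- `curl (g α) = C` in terms of `∇g` -/
theorem cr_hG {α : E → E} {g : E → ℝ} {C : E → E} {x : E} (h0 : α x ≠ 0)
    (h : ⟪C x, α x⟫ - g x * ⟪α x, curl α x⟫ = 0) :
    cr (hG α g C x) (α x) + g x • curl α x = C x := by
  have hn : ‖α x‖ ^ 2 ≠ 0 := by
    have := norm_pos_iff.2 h0
    positivity
  have e1 : ⟪C x - g x • curl α x, α x⟫ = 0 := by
    rw [inner_sub_left, real_inner_smul_left, real_inner_comm (α x) (curl α x)]
    exact h
  have e2 : cr (hG α g C x) (α x) = C x - g x • curl α x := by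
    have e3 : cr (hG α g C x) (α x) =
        (‖α x‖ ^ 2)⁻¹ • cr (cr (α x) (C x - g x • curl α x)) (α x) := by
      unfold hG gG
      refine ext3 ?_ ?_ ?_
      · simp only [cr, PiLp.sub_apply, PiLp.smul_apply, smul_eq_mul]
        simp
        ring
      · simp only [cr, PiLp.sub_apply, PiLp.smul_apply, smul_eq_mul]
        simp
        ring
      · simp only [cr, PiLp.sub_apply, PiLp.smul_apply, smul_eq_mul]
        simp
        ring
    rw [e3, cr_cr, e1, zero_smul, sub_zero, real_inner_self_eq_norm_sq, smul_smul,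
      inv_mul_cancel₀ hn, one_smul]
  rw [e2]
  abel

theorem inner_hG {α : E → E} {g : E → ℝ} {C : E → E} {x : E} (h0 : α x ≠ 0) :
    ⟪hG α g C x, α x⟫ + g x * dv α x = 0 := by
  have hn : ‖α x‖ ^ 2 ≠ 0 := by
    have := norm_pos_iff.2 h0
    positivity
  have e1 : ⟪cr (α x) (C x - g x • curl α x), α x⟫ = 0 := by
    rw [inner3]
    simp only [cr]
    simp
    ring
  unfold hG gG
  rw [inner_sub_left, real_inner_smul_left, real_inner_smul_left, e1, real_inner_self_eq_norm_sq,
    mul_zero, zero_sub, mul_assoc (g x * dv α x), inv_mul_cancel₀ hn]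
  ring

end Pool.CQ.H
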