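import Pool.Agent.Lib.MP_cd5b91_an.CQ.HPos

/-!
# CQ-HPosG: curl and divergence of the positive part of a field `g β` with smooth direction `β`
-/

open MeasureTheory Filter Topology Set
open scoped ContDiff RealInnerProductSpace ENNReal

namespace Pool.CQ.H

open Pool.CQ.G

theorem aes_posf {ψ : E → ℝ} {μ : Measure E} (h : AEStronglyMeasurable ψ μ) :
    AEStronglyMeasurable (posf ψ) μ := by
  have : posf ψ = ψ ⊔ (fun _ => (0 : ℝ)) := by
    funext x; rfl
  rw [this]
  exact h.sup aestronglyMeasurable_const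

theorem aes_cutp {ψ : E → ℝ} {C : E → E} {μ : Measure E}
    (h : AEStronglyMeasurable ψ μ) (hC : AEStronglyMeasurable C μ) :
    AEStronglyMeasurable (cutp ψ C) μ := by
  have h1 : cutp ψ C = {x | 0 < ψ x}.indicator C := by
    funext x
    by_cases hx : 0 < ψ x
    · have : x ∈ {x | 0 < ψ x} := hx
      rw [Set.indicator_of_mem this]
      simp [cutp, hx]
    · have : x ∉ {x | 0 < ψ x} := hx
      rw [Set.indicator_of_notMem this]
      simp [cutp, hx]
  rw [h1]
  exact hC.indicator₀ (nullMeasurableSet_lt aemeasurable_const h.aemeasurable)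

theorem posf_le (ψ : E → ℝ) (x : E) : ‖posf ψ x‖ ≤ ‖ψ x‖ := by
  unfold posf
  rw [Real.norm_eq_abs, Real.norm_eq_abs, abs_of_nonneg (le_max_right _ _)]
  exact max_le (le_abs_self _) (abs_nonneg _)

theorem cutp_le (ψ : E → ℝ) (C : E → E) (x : E) : ‖cutp ψ C x‖ ≤ ‖C x‖ := by
  unfold cutp
  split_ifs
  · exact le_rfl
  · rw [norm_zero]
    exact norm_nonneg _

theorem lpl_posf {p : ℝ≥0∞} {O : Set E} {ψ : E → ℝ} (h : LpL p O ψ) :
    LpL p O (posf ψ) := by
  intro K hK hKO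
  have h1 := h K hK hKO
  exact h1.mono (aes_posf h1.aestronglyMeasurable)
    (Filter.Eventually.of_forall fun x => posf_le ψ x)

theorem lpl_cutp {p q : ℝ≥0∞} {O : Set E} {ψ : E → ℝ} {C : E → E} (h : LpL q O ψ)
    (hC : LpL p O C) : LpL p O (cutp ψ C) := by
  intro K hK hKO
  have h1 := h K hK hKO
  have h2 := hC K hK hKO
  exact h2.mono (aes_cutp h1.aestronglyMeasurable h2.aestronglyMeasurable)
    (Filter.Eventually.of_forall fun x => cutp_le ψ C x)

theorem wgrad_smul {O : Set E} {ψ : E → ℝ} {G : E → E} (h : WGrad O ψ G) (s : ℝ) :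
    WGrad O (fun x => s * ψ x) (fun x => s • G x) := by
  intro η hη i
  have h1 := h η hη i
  have e1 : ∫ x, s * ψ x * pd i η x = s * ∫ x, ψ x * pd i η x := by
    rw [← integral_const_mul]
    refine integral_congr_ae (Eventually.of_forall fun x => ?_)
    show s * ψ x * pd i η x = s * (ψ x * pd i η x)
    ring
  have e2 : ∫ x, (s • G x) i * η x = s * ∫ x, G x i * η x := by
    rw [← integral_const_mul]
    refine integral_congr_ae (Eventually.of_forall fun x => ?_)
    show s * G x i * η x = s * (G x i * η x)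
    ring
  rw [e1, h1, e2]
  ring

theorem wc_congr_right {O : Set E} (hO : IsOpen O) {A C C' : E → E} (h : WC O A C)
    (hC : ∀ᵐ x ∂(volume.restrict O), C x = C' x) : WC O A C' := by
  intro φ hφ
  rw [h φ hφ]
  refine integral_congr_ae ?_
  filter_upwards [(ae_restrict_iff' hO.measurableSet).1 hC] with x hx
  by_cases hxO : x ∈ O
  · rw [hx hxO]
  · rw [test_off hφ hxO, inner_zero_right, inner_zero_right]

private theorem norm_hG_abs {α : E → E} {ψ : E → ℝ} {C : E → E} {x : E} {m D R : ℝ} (hm : 0 < m)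
    (h1 : m ≤ ‖α x‖) (h2 : |dv α x| ≤ D) (h3 : ‖curl α x‖ ≤ R) :
    ‖hG α ψ C x‖ ≤ (m⁻¹ * (1 + D) * (1 + R)) * (‖C x‖ + |ψ x|) := by
  have hp : 0 < ‖α x‖ := hm.trans_le h1
  have hD : 0 ≤ D := (abs_nonneg _).trans h2
  have hR : 0 ≤ R := (norm_nonneg _).trans h3
  have hi : ‖α x‖⁻¹ ≤ m⁻¹ := inv_anti₀ hm h1
  have hm' : 0 < m⁻¹ := inv_pos.2 hm
  have hψ := abs_nonneg (ψ x)
  have hC := norm_nonneg (C x)
  have h5 : ‖C x - ψ x • curl α x‖ ≤ ‖C x‖ + R * |ψ x| := by
    refine (norm_sub_le _ _).trans ?_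
    rw [norm_smul, Real.norm_eq_abs, mul_comm |ψ x|]
    have := mul_le_mul_of_nonneg_right h3 hψ
    linarith
  unfold hG gG
  refine (norm_sub_le _ _).trans ?_
  rw [norm_smul, norm_smul, Real.norm_of_nonneg (by positivity : (0 : ℝ) ≤ (‖α x‖ ^ 2)⁻¹),
    Real.norm_eq_abs, abs_mul, abs_mul, abs_of_nonneg (by positivity : (0 : ℝ) ≤ (‖α x‖ ^ 2)⁻¹)]
  have e1 : (‖α x‖ ^ 2)⁻¹ * ‖cr (α x) (C x - ψ x • curl α x)‖ ≤ m⁻¹ * (‖C x‖ + R * |ψ x|) := by
    calc (‖α x‖ ^ 2)⁻¹ * ‖cr (α x) (C x - ψ x • curl α x)‖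
        ≤ (‖α x‖ ^ 2)⁻¹ * (‖α x‖ * ‖C x - ψ x • curl α x‖) :=
          mul_le_mul_of_nonneg_left (norm_cr_le _ _) (by positivity)
      _ = ‖α x‖⁻¹ * ‖C x - ψ x • curl α x‖ := by field_simp
      _ ≤ m⁻¹ * (‖C x‖ + R * |ψ x|) := mul_le_mul hi h5 (norm_nonneg _) hm'.le
  have e2 : |ψ x| * |dv α x| * (‖α x‖ ^ 2)⁻¹ * ‖α x‖ ≤ m⁻¹ * D * |ψ x| := by
    calc |ψ x| * |dv α x| * (‖α x‖ ^ 2)⁻¹ * ‖α x‖ = ‖α x‖⁻¹ * |dv α x| * |ψ x| := by
          field_simp
      _ ≤ m⁻¹ * D * |ψ x| := by gcongr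
  have e3 : 0 ≤ m⁻¹ * D * R * (‖C x‖ + |ψ x|) := by positivity
  have e4 : 0 ≤ m⁻¹ * D * ‖C x‖ := by positivity
  have e5 : 0 ≤ m⁻¹ * R * ‖C x‖ := by positivity
  have e6 : 0 ≤ m⁻¹ * |ψ x| := by positivity
  calc _ ≤ m⁻¹ * (‖C x‖ + R * |ψ x|) + m⁻¹ * D * |ψ x| := add_le_add e1 e2
    _ ≤ _ := by nlinarith

theorem lpl_hG {O : Set E} (hO : IsOpen O) {α : E → E} (hα : ContDiffOn ℝ ∞ α O)
    (h0 : ∀ x ∈ O, α x ≠ 0) {g : E → ℝ} {V : E → E} (hg : LpL 1 O g) (hV : LpL 1 O V) :
    LpL 1 O (hG α g V) := by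
  intro K hK hKO
  obtain ⟨m, M, D, R, hm, hM, hD, hR, hb⟩ := bounds2 hO hα h0 hK hKO
  have hKm := hK.measurableSet
  have hαK : AEStronglyMeasurable α (volume.restrict K) :=
    (hα.continuousOn.mono hKO).aestronglyMeasurable hKm
  have hcK : AEStronglyMeasurable (curl α) (volume.restrict K) :=
    ((contDiffOn_curl hO hα).continuousOn.mono hKO).aestronglyMeasurable hKm
  have hdv : AEStronglyMeasurable (dv α) (volume.restrict K) :=
    ((contDiffOn_dv hO hα).continuousOn.mono hKO).aestronglyMeasurable hKm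
  have hin : AEStronglyMeasurable (fun x => (‖α x‖ ^ 2)⁻¹) (volume.restrict K) :=
    ((contDiffOn_inv hα h0).continuousOn.mono hKO).aestronglyMeasurable hKm
  have hme : AEStronglyMeasurable (hG α g V) (volume.restrict K) :=
    (hin.smul (aesm_cr hαK ((hV K hK hKO).1.sub ((hg K hK hKO).1.smul hcK)))).sub
      ((((hg K hK hKO).1.mul hdv).mul hin).smul hαK)
  refine MemLp.mono (((hV K hK hKO).norm.add (hg K hK hKO).norm).const_mul
    (m⁻¹ * (1 + D) * (1 + R))) hme ?_
  filter_upwards [ae_restrict_mem hKm] with x hx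
  have h3 := norm_hG_abs (ψ := g) (C := V) hm (hb x hx).1 (hb x hx).2.2.1 (hb x hx).2.2.2
  refine h3.trans (le_of_eq ?_)
  have h4 : 0 ≤ m⁻¹ * (1 + D) * (1 + R) * (‖V x‖ + ‖g x‖) := by positivity
  exact (Real.norm_of_nonneg h4).symm

/-- curl and divergence of the positive part of `s g α` -/
theorem pos_gen {O : Set E} (hO : IsOpen O) {α : E → E} (hα : ContDiffOn ℝ ∞ α O)
    (h0 : ∀ x ∈ O, α x ≠ 0) {g : E → ℝ} {V : E → E} (hg : LpL 1 O g) (hV : LpL 1 O V)
    (hW : WC O (fun x => g x • α x) V)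
    (hd : ∀ f : E → ℝ, STest O f → ∫ x, ⟪g x • α x, gr f x⟫ = 0) (s : ℝ) :
    WC O (fun x => posf (fun y => s * g y) x • α x) (cutp (fun y => s * g y) (fun x => s • V x)) ∧
      ∀ f : E → ℝ, STest O f → ∫ x, ⟪posf (fun y => s * g y) x • α x, gr f x⟫ = 0 := by
  have hwg : WGrad O g (hG α g V) := wgrad hO hα h0 hg hV hW hd
  have hLG : LpL 1 O (hG α g V) := lpl_hG hO hα h0 hg hV
  have hgs : LpL 1 O (fun x => s * g x) := fun K hK hKO => (hg K hK hKO).const_mul s
  have hGs : LpL 1 O (fun x => s • hG α g V x) := fun K hK hKO => (hLG K hK hKO).const_smul s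
  have hwp := wgrad_pos hO hgs hGs (wgrad_smul hwg s)
  have hLp := lpl_posf hgs
  have hLc := lpl_cutp hgs hGs
  have horth := orth hO hα hg hV hW
  refine ⟨?_, ?_⟩
  · refine wc_congr_right hO (wc_of_wgrad hO hα hLp hLc hwp) ?_
    filter_upwards [horth, ae_restrict_mem hO.measurableSet] with x hx hxO
    have h1 := cr_hG (h0 x hxO) hx
    unfold cutp posf
    by_cases hs : 0 < s * g x
    · rw [if_pos hs, if_pos hs, max_eq_left hs.le]
      show cr (s • hG α g V x) (α x) + (s * g x) • curl α x = s • V x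
      rw [← h1, smul_add, smul_smul]
      congr 1
      ext i
      fin_cases i
      · change s * hG α g V x 1 * α x 2 - s * hG α g V x 2 * α x 1 =
          s * (hG α g V x 1 * α x 2 - hG α g V x 2 * α x 1)
        ring
      · change s * hG α g V x 2 * α x 0 - s * hG α g V x 0 * α x 2 =
          s * (hG α g V x 2 * α x 0 - hG α g V x 0 * α x 2)
        ring
      · change s * hG α g V x 0 * α x 1 - s * hG α g V x 1 * α x 0 =
          s * (hG α g V x 0 * α x 1 - hG α g V x 1 * α x 0)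
        ring
    · rw [if_neg hs, if_neg hs, max_eq_right (not_lt.1 hs), zero_smul, add_zero]
      show cr 0 (α x) = 0
      ext i
      fin_cases i
      · change (0 : ℝ) * α x 2 - 0 * α x 1 = 0
        ring
      · change (0 : ℝ) * α x 0 - 0 * α x 2 = 0
        ring
      · change (0 : ℝ) * α x 1 - 0 * α x 0 = 0
        ring
  · intro f hf
    rw [div_of_wgrad hO hα hLp hLc hwp hf]
    have h2 : ∫ x, (⟪cutp (fun y => s * g y) (fun x => s • hG α g V x) x, α x⟫ +
        posf (fun y => s * g y) x * dv α x) * f x = 0 := by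
      have h3 : (fun x => (⟪cutp (fun y => s * g y) (fun x => s • hG α g V x) x, α x⟫ +
        posf (fun y => s * g y) x * dv α x) * f x) = fun _ => 0 := by
        funext x
        by_cases hxO : x ∈ O
        · have h1 := inner_hG (g := g) (C := V) (h0 x hxO)
          unfold cutp posf
          by_cases hs : 0 < s * g x
          · rw [if_pos hs, max_eq_left hs.le, real_inner_smul_left]
            have : s * ⟪hG α g V x, α x⟫ + s * g x * dv α x =
              s * (⟪hG α g V x, α x⟫ + g x * dv α x) := by ring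
            rw [this, h1, mul_zero, zero_mul]
          · rw [if_neg hs, max_eq_right (not_lt.1 hs), inner_zero_left]
            ring
        · have hf0 : f x = 0 := (ev_zero hf hxO).eq_of_nhds
          rw [hf0, mul_zero]
      rw [h3, integral_zero]
    rw [h2, neg_zero]

end Pool.CQ.H
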