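import Pool.Agent.Lib.MP_cd5b91_an.CQ.GWG

/-!
# CQ-HWG: the weak gradient of the coefficient `ψ` of a field `ψ β`, `β` smooth and nonvanishing
-/

open MeasureTheory Filter Topology Set
open scoped ContDiff RealInnerProductSpace ENNReal

namespace Pool.CQ.H

open Pool.CQ.G

theorem inner3 (a b : E) : ⟪a, b⟫ = a 0 * b 0 + a 1 * b 1 + a 2 * b 2 := by
  rw [PiLp.inner_apply, Fin.sum_univ_three]
  simp only [RCLike.inner_apply, conj_trivial]
  ring

private theorem ext3 {a b : E} (h0 : a 0 = b 0) (h1 : a 1 = b 1) (h2 : a 2 = b 2) : a = b := by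
  ext i
  fin_cases i
  · exact h0
  · exact h1
  · exact h2

private theorem cr0 (a b : E) : cr a b 0 = a 1 * b 2 - a 2 * b 1 := rfl
private theorem cr1 (a b : E) : cr a b 1 = a 2 * b 0 - a 0 * b 2 := rfl
private theorem cr2 (a b : E) : cr a b 2 = a 0 * b 1 - a 1 * b 0 := rfl

/-- `∇ψ`, from `C = curl (ψ α)` and `div (ψ α) = 0` -/
noncomputable def hG (α : E → E) (ψ : E → ℝ) (C : E → E) (x : E) : E :=
  gG α ψ (fun y => C y - ψ y • curl α y) x

theorem curl_ev {φ : E → E} {x : E} (h : φ =ᶠ[𝓝 x] fun _ => 0) : curl φ x = 0 := by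
  have hk : ∀ k i : Fin 3, pd i (fun y => φ y k) x = 0 := by
    intro k i
    have h1 : (fun y => φ y k) =ᶠ[𝓝 x] fun _ => (0 : ℝ) := by
      filter_upwards [h] with y hy
      rw [hy]
      rfl
    unfold pd
    rw [h1.fderiv_eq]
    simp
  unfold curl
  rw [hk, hk, hk, hk, hk, hk]
  ext i
  fin_cases i <;> simp

theorem gr_ev {f : E → ℝ} {x : E} (h : f =ᶠ[𝓝 x] fun _ => 0) : gr f x = 0 := by
  have hk : ∀ i : Fin 3, pd i f x = 0 := by
    intro i
    unfold pd
    rw [h.fderiv_eq]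
    simp
  unfold gr
  rw [hk, hk, hk]
  ext i
  fin_cases i <;> simp

/-- `curl (η α)` for a test function `η` -/
theorem curl_smul_on {O : Set E} (hO : IsOpen O) {α : E → E} (hα : ContDiffOn ℝ ∞ α O) {η : E → ℝ}
    (hη : STest O η) (x : E) :
    curl (fun y => η y • α y) x = cr (gr η x) (α x) + η x • curl α x := by
  by_cases hx : x ∈ O
  · exact curl_smul (hη.1.contDiffAt.differentiableAt (by simp))
      ((hα.contDiffAt (hO.mem_nhds hx)).differentiableAt (by simp))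
  · have h0 := ev_zero hη hx
    have h1 : η x = 0 := h0.eq_of_nhds
    rw [curl_ev, gr_ev h0, h1, zero_smul, add_zero]
    · refine (ext3 ?_ ?_ ?_).symm
      · change (0 : ℝ) * α x 2 - 0 * α x 1 = 0
        ring
      · change (0 : ℝ) * α x 0 - 0 * α x 2 = 0
        ring
      · change (0 : ℝ) * α x 1 - 0 * α x 0 = 0
        ring
    · filter_upwards [h0] with y hy
      rw [hy, zero_smul]

theorem contDiffOn_curl {O : Set E} (hO : IsOpen O) {α : E → E} (hα : ContDiffOn ℝ ∞ α O) :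
    ContDiffOn ℝ ∞ (curl α) O := by
  have hp : ∀ i j : Fin 3, ContDiffOn ℝ ∞ (pd i (fun y => α y j)) O := fun i j =>
    contDiffOn_pd hO (contDiffOn_coord hα j) i
  rw [contDiffOn_euclidean]
  intro i
  fin_cases i
  · exact (hp 1 2).sub (hp 2 1)
  · exact (hp 2 0).sub (hp 0 2)
  · exact (hp 0 1).sub (hp 1 0)

private theorem pd_mul {η ζ : E → ℝ} {x : E} (hη : DifferentiableAt ℝ η x) (hζ : DifferentiableAt ℝ ζ x)
    (i : Fin 3) : pd i (fun y => η y * ζ y) x = ζ x * pd i η x + η x * pd i ζ x := by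
  unfold pd
  rw [fderiv_fun_mul hη hζ]
  change η x * (fderiv ℝ ζ x _) + ζ x * (fderiv ℝ η x _) = _
  ring

private theorem pd_add3 {a b c : E → ℝ} {x : E} (ha : DifferentiableAt ℝ a x)
    (hb : DifferentiableAt ℝ b x) (hc : DifferentiableAt ℝ c x) (i : Fin 3) :
    pd i (fun y => a y + b y + c y) x = pd i a x + pd i b x + pd i c x := by
  have hab : DifferentiableAt ℝ (fun y => a y + b y) x := ha.add hb
  unfold pd
  rw [fderiv_fun_add hab hc, fderiv_fun_add ha hb]
  rfl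

/-- the pointwise identity behind the weak gradient -/
theorem key {κ : E → ℝ} {α : E → E} {x : E} (hκ : DifferentiableAt ℝ κ x)
    (hα : DifferentiableAt ℝ α x) (e : E) :
    ⟪e, gr (fun y => κ y * ‖α y‖ ^ 2) x⟫ = ⟪α x, curl (fun y => κ y • cr (α y) e) x⟫ +
      ⟪α x, gr (fun y => κ y * ⟪α y, e⟫) x⟫ + κ x * ⟪α x, e⟫ * dv α x -
        κ x * ⟪curl α x, cr (α x) e⟫ := by
  have hd : ∀ j : Fin 3, DifferentiableAt ℝ (fun y => α y j) x := fun j =>
    (EuclideanSpace.proj (𝕜 := ℝ) j).differentiableAt.comp x hα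
  have hsq : (fun y => κ y * ‖α y‖ ^ 2) =
      fun y => κ y * (α y 0 * α y 0 + α y 1 * α y 1 + α y 2 * α y 2) := by
    funext y
    rw [← real_inner_self_eq_norm_sq, inner3]
  have hie : (fun y => κ y * ⟪α y, e⟫) =
      fun y => κ y * (α y 0 * e 0 + α y 1 * e 1 + α y 2 * e 2) := by
    funext y
    rw [inner3]
  have p1 : ∀ i : Fin 3, pd i (fun y => α y 0 * α y 0 + α y 1 * α y 1 + α y 2 * α y 2) x =
      2 * α x 0 * pd i (fun y => α y 0) x + 2 * α x 1 * pd i (fun y => α y 1) x +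
        2 * α x 2 * pd i (fun y => α y 2) x := by
    intro i
    have a0 := pd_mul (hd 0) (hd 0) i
    have a1 := pd_mul (hd 1) (hd 1) i
    have a2 := pd_mul (hd 2) (hd 2) i
    have hs : pd i (fun y => α y 0 * α y 0 + α y 1 * α y 1 + α y 2 * α y 2) x =
        pd i (fun y => α y 0 * α y 0) x + pd i (fun y => α y 1 * α y 1) x +
          pd i (fun y => α y 2 * α y 2) x :=
      pd_add3 ((hd 0).mul (hd 0)) ((hd 1).mul (hd 1)) ((hd 2).mul (hd 2)) i
    rw [hs, a0, a1, a2]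
    ring
  have pc : ∀ (i a : Fin 3) (c : ℝ), pd i (fun y => α y a * c) x = c * pd i (fun y => α y a) x := by
    intro i a c
    have := pd_mul (hd a) (differentiableAt_const (𝕜 := ℝ) (x := x) c) i
    have hz : pd i (fun _ : E => c) x = 0 := by
      unfold pd
      simp
    rw [this, hz]
    ring
  have p2 : ∀ i : Fin 3, pd i (fun y => α y 0 * e 0 + α y 1 * e 1 + α y 2 * e 2) x =
      e 0 * pd i (fun y => α y 0) x + e 1 * pd i (fun y => α y 1) x +
        e 2 * pd i (fun y => α y 2) x := by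
    intro i
    have hs : pd i (fun y => α y 0 * e 0 + α y 1 * e 1 + α y 2 * e 2) x =
        pd i (fun y => α y 0 * e 0) x + pd i (fun y => α y 1 * e 1) x +
          pd i (fun y => α y 2 * e 2) x :=
      pd_add3 ((hd 0).mul_const _) ((hd 1).mul_const _) ((hd 2).mul_const _) i
    rw [hs, pc, pc, pc]
  have p3 : ∀ (i a b : Fin 3) (c d : ℝ), pd i (fun y => α y a * c - α y b * d) x =
      c * pd i (fun y => α y a) x - d * pd i (fun y => α y b) x := by
    intro i a b c d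
    have hs : pd i (fun y => α y a * c - α y b * d) x =
        pd i (fun y => α y a * c) x - pd i (fun y => α y b * d) x := by
      have m0 : DifferentiableAt ℝ (fun y => α y a * c) x := (hd a).mul_const _
      have m1 : DifferentiableAt ℝ (fun y => α y b * d) x := (hd b).mul_const _
      unfold pd
      rw [fderiv_fun_sub m0 m1]
      rfl
    rw [hs, pc, pc]
  have dsq : DifferentiableAt ℝ (fun y => α y 0 * α y 0 + α y 1 * α y 1 + α y 2 * α y 2) x :=
    (((hd 0).mul (hd 0)).add ((hd 1).mul (hd 1))).add ((hd 2).mul (hd 2))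
  have die : DifferentiableAt ℝ (fun y => α y 0 * e 0 + α y 1 * e 1 + α y 2 * e 2) x :=
    (((hd 0).mul_const _).add ((hd 1).mul_const _)).add ((hd 2).mul_const _)
  have dcr : DifferentiableAt ℝ (fun y => cr (α y) e) x := by
    refine (differentiableAt_euclidean).2 fun i => ?_
    fin_cases i
    · exact ((hd 1).mul_const _).sub ((hd 2).mul_const _)
    · exact ((hd 2).mul_const _).sub ((hd 0).mul_const _)
    · exact ((hd 0).mul_const _).sub ((hd 1).mul_const _)
  have g1 : gr (fun y => κ y * ‖α y‖ ^ 2) x =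
      (α x 0 * α x 0 + α x 1 * α x 1 + α x 2 * α x 2) • gr κ x + κ x •
        gr (fun y => α y 0 * α y 0 + α y 1 * α y 1 + α y 2 * α y 2) x := by
    rw [hsq]
    exact gr_mul hκ dsq
  have g2 : gr (fun y => κ y * ⟪α y, e⟫) x =
      (α x 0 * e 0 + α x 1 * e 1 + α x 2 * e 2) • gr κ x + κ x •
        gr (fun y => α y 0 * e 0 + α y 1 * e 1 + α y 2 * e 2) x := by
    rw [hie]
    exact gr_mul hκ die
  have g3 := curl_smul hκ dcr
  have c0 : curl (fun y => cr (α y) e) x 0 =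
      (e 1 * pd 1 (fun y => α y 0) x - e 0 * pd 1 (fun y => α y 1) x) -
        (e 0 * pd 2 (fun y => α y 2) x - e 2 * pd 2 (fun y => α y 0) x) := by
    change pd 1 (fun y => α y 0 * e 1 - α y 1 * e 0) x - pd 2 (fun y => α y 2 * e 0 - α y 0 * e 2) x = _
    rw [p3, p3]
  have c1 : curl (fun y => cr (α y) e) x 1 =
      (e 2 * pd 2 (fun y => α y 1) x - e 1 * pd 2 (fun y => α y 2) x) -
        (e 1 * pd 0 (fun y => α y 0) x - e 0 * pd 0 (fun y => α y 1) x) := by
    change pd 2 (fun y => α y 1 * e 2 - α y 2 * e 1) x - pd 0 (fun y => α y 0 * e 1 - α y 1 * e 0) x = _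
    rw [p3, p3]
  have c2 : curl (fun y => cr (α y) e) x 2 =
      (e 0 * pd 0 (fun y => α y 2) x - e 2 * pd 0 (fun y => α y 0) x) -
        (e 2 * pd 1 (fun y => α y 1) x - e 1 * pd 1 (fun y => α y 2) x) := by
    change pd 0 (fun y => α y 2 * e 0 - α y 0 * e 2) x - pd 1 (fun y => α y 1 * e 2 - α y 2 * e 1) x = _
    rw [p3, p3]
  have k0 : curl α x 0 = pd 1 (fun y => α y 2) x - pd 2 (fun y => α y 1) x := rfl
  have k1 : curl α x 1 = pd 2 (fun y => α y 0) x - pd 0 (fun y => α y 2) x := rfl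
  have k2 : curl α x 2 = pd 0 (fun y => α y 1) x - pd 1 (fun y => α y 0) x := rfl
  have q : ∀ (f : E → ℝ), gr f x 0 = pd 0 f x ∧ gr f x 1 = pd 1 f x ∧ gr f x 2 = pd 2 f x :=
    fun f => ⟨rfl, rfl, rfl⟩
  rw [g1, g2, g3, inner3, inner3, inner3, inner3 (α x) e, inner3 (curl α x)]
  simp only [PiLp.add_apply, PiLp.smul_apply, smul_eq_mul, cr0, cr1, cr2, c0, c1, c2, (q _).1, (q _).2.1,
    (q _).2.2, p1, p2, k0, k1, k2]
  unfold dv
  ring

theorem wgrad {O : Set E} (hO : IsOpen O) {α : E → E} (hα : ContDiffOn ℝ ∞ α O)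
    (h0 : ∀ x ∈ O, α x ≠ 0) {ψ : E → ℝ} {C : E → E}
    (hψ : LpL 1 O ψ) (hC : LpL 1 O C) (h : WC O (fun x => ψ x • α x) C)
    (hd : ∀ f : E → ℝ, STest O f → ∫ x, ⟪ψ x • α x, gr f x⟫ = 0) : WGrad O ψ (hG α ψ C) := by
  intro η hη l
  obtain ⟨e, he⟩ : ∃ e : E, e = EuclideanSpace.single l (1 : ℝ) := ⟨_, rfl⟩
  obtain ⟨κ, hκ⟩ : ∃ κ : E → ℝ, κ = fun x => η x * (‖α x‖ ^ 2)⁻¹ := ⟨_, rfl⟩
  have hie : ∀ v : E, ⟪v, e⟫ = v l := fun v => by
    rw [he, EuclideanSpace.inner_single_right]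
    simp
  have kS : STest O κ := by
    rw [hκ]
    exact stest_mul hO (contDiffOn_inv hα h0) hη
  have hφ : TestIn O (fun x => κ x • cr (α x) e) := test_smul hO (contDiffOn_cr hα e) kS
  have hie2 : ContDiffOn ℝ ∞ (fun x => ⟪α x, e⟫) O := by
    simp only [hie]
    exact contDiffOn_coord hα l
  have hf : STest O (fun x => κ x * ⟪α x, e⟫) := stest_mul hO hie2 kS
  have hcc : ContDiffOn ℝ ∞ (fun x => ⟪curl α x, cr (α x) e⟫) O :=
    (contDiffOn_curl hO hα).inner ℝ (contDiffOn_cr hα e)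
  have h1 := h _ hφ
  have h2 := hd _ hf
  have hp : ∀ x, ψ x * pd l η x = ⟪ψ x • α x, curl (fun y => κ y • cr (α y) e) x⟫ +
      ⟪ψ x • α x, gr (fun y => κ y * ⟪α y, e⟫) x⟫ +
        (ψ x * (κ x * ⟪α x, e⟫ * dv α x) - ψ x * (κ x * ⟪curl α x, cr (α x) e⟫)) := by
    intro x
    by_cases hx : x ∈ O
    · have hev : η =ᶠ[𝓝 x] fun y => κ y * ‖α y‖ ^ 2 := by
        filter_upwards [hO.mem_nhds hx] with y hy
        have := norm_pos_iff.2 (h0 y hy)
        rw [hκ]
        field_simp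
      have h3 : pd l η x = ⟪e, gr (fun y => κ y * ‖α y‖ ^ 2) x⟫ := by
        rw [real_inner_comm, hie]
        have h4 : pd l η x = pd l (fun y => κ y * ‖α y‖ ^ 2) x := by
          unfold pd
          rw [hev.fderiv_eq]
        rw [h4]
        fin_cases l <;> rfl
      rw [h3, key (kS.1.contDiffAt.differentiableAt (by simp))
        ((hα.contDiffAt (hO.mem_nhds hx)).differentiableAt (by simp)) e,
        real_inner_smul_left, real_inner_smul_left]
      ring
    · have h4 := ev_zero kS hx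
      have h5 : pd l η x = 0 := by
        unfold pd
        rw [(ev_zero hη hx).fderiv_eq]
        simp
      have h6 : κ x = 0 := h4.eq_of_nhds
      rw [h5, h6, curl_ev, gr_ev]
      · simp
      · filter_upwards [h4] with y hy
        rw [hy, zero_mul]
      · filter_upwards [h4] with y hy
        rw [hy, zero_smul]
  have i0 : Integrable (fun x => ψ x * pd l η x) := int_stest hψ (stest_pd hη l)
  have i1 : Integrable (fun x => ψ x * (κ x * ⟪α x, e⟫ * dv α x)) :=
    int_stest hψ (stest_mul hO (contDiffOn_dv hO hα) hf)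
  have i5 : Integrable (fun x => ψ x * (κ x * ⟪curl α x, cr (α x) e⟫)) :=
    int_stest hψ (stest_mul hO hcc kS)
  have i15 : Integrable (fun x => ψ x * (κ x * ⟪α x, e⟫ * dv α x) -
      ψ x * (κ x * ⟪curl α x, cr (α x) e⟫)) := i1.sub i5
  have i2 : Integrable (fun x => ⟪ψ x • α x, gr (fun y => κ y * ⟪α y, e⟫) x⟫) := by
    have h3 : ∀ i : Fin 3, Integrable
        (fun x => ψ x * (pd i (fun y => κ y * ⟪α y, e⟫) x * α x i)) := fun i =>
      int_stest hψ (stest_mul hO (contDiffOn_coord hα i) (stest_pd hf i))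
    have h4 : (fun x => ⟪ψ x • α x, gr (fun y => κ y * ⟪α y, e⟫) x⟫) =
        fun x => ψ x * (pd 0 (fun y => κ y * ⟪α y, e⟫) x * α x 0) +
          ψ x * (pd 1 (fun y => κ y * ⟪α y, e⟫) x * α x 1) +
            ψ x * (pd 2 (fun y => κ y * ⟪α y, e⟫) x * α x 2) := by
      funext x
      rw [real_inner_smul_left, inner3]
      change ψ x * (α x 0 * pd 0 (fun y => κ y * ⟪α y, e⟫) x +
        α x 1 * pd 1 (fun y => κ y * ⟪α y, e⟫) x + α x 2 * pd 2 (fun y => κ y * ⟪α y, e⟫) x) = _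
      ring
    rw [h4]
    exact ((h3 0).add (h3 1)).add (h3 2)
  have i3 : Integrable (fun x => ⟪ψ x • α x, curl (fun y => κ y • cr (α y) e) x⟫) := by
    have h4 : (fun x => ⟪ψ x • α x, curl (fun y => κ y • cr (α y) e) x⟫) =
        fun x => ψ x * pd l η x - ⟪ψ x • α x, gr (fun y => κ y * ⟪α y, e⟫) x⟫ -
          (ψ x * (κ x * ⟪α x, e⟫ * dv α x) - ψ x * (κ x * ⟪curl α x, cr (α x) e⟫)) := by
      funext x
      rw [hp x]
      ring
    rw [h4]
    exact (i0.sub i2).sub i15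
  have i4 : Integrable (fun x => ⟪C x, κ x • cr (α x) e⟫) := by
    have h3 : ∀ i : Fin 3, Integrable (fun x => C x i * (κ x * cr (α x) e i)) := fun i =>
      int_stest (lpl_coord hC i) (stest_mul hO (contDiffOn_coord (contDiffOn_cr hα e) i) kS)
    have h4 : (fun x => ⟪C x, κ x • cr (α x) e⟫) =
        fun x => C x 0 * (κ x * cr (α x) e 0) + C x 1 * (κ x * cr (α x) e 1) +
          C x 2 * (κ x * cr (α x) e 2) := by
      funext x
      rw [inner3]
      rfl
    rw [h4]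
    exact ((h3 0).add (h3 1)).add (h3 2)
  have i32 : Integrable (fun x => ⟪ψ x • α x, curl (fun y => κ y • cr (α y) e) x⟫ +
      ⟪ψ x • α x, gr (fun y => κ y * ⟪α y, e⟫) x⟫) := i3.add i2
  have h3 : ∫ x, ψ x * pd l η x = ∫ x, (⟪C x, κ x • cr (α x) e⟫ +
      (ψ x * (κ x * ⟪α x, e⟫ * dv α x) - ψ x * (κ x * ⟪curl α x, cr (α x) e⟫))) := by
    rw [integral_add i4 i15, ← h1]
    simp only [hp]
    rw [integral_add i32 i15, integral_add i3 i2, h2, add_zero]
  rw [h3, ← integral_neg]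
  refine integral_congr_ae (Eventually.of_forall fun x => ?_)
  show ⟪C x, κ x • cr (α x) e⟫ + (ψ x * (κ x * ⟪α x, e⟫ * dv α x) -
    ψ x * (κ x * ⟪curl α x, cr (α x) e⟫)) = -(hG α ψ C x l * η x)
  have h5 : hG α ψ C x l = ⟪hG α ψ C x, e⟫ := (hie _).symm
  have h6 : ∀ D : E, ⟪cr (α x) D, e⟫ = -⟪D, cr (α x) e⟫ := by
    intro D
    rw [inner3, inner3]
    change (α x 1 * D 2 - α x 2 * D 1) * e 0 +
        (α x 2 * D 0 - α x 0 * D 2) * e 1 + (α x 0 * D 1 - α x 1 * D 0) * e 2 =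
      -(D 0 * (α x 1 * e 2 - α x 2 * e 1) + D 1 * (α x 2 * e 0 - α x 0 * e 2) +
      D 2 * (α x 0 * e 1 - α x 1 * e 0))
    ring
  rw [h5]
  unfold hG gG
  rw [inner_sub_left, real_inner_smul_left, real_inner_smul_left, real_inner_smul_right, h6,
    inner_sub_left, real_inner_smul_left, hκ]
  ring

end Pool.CQ.H
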