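import Pool.Agent.Lib.MP_cd5b91_an.CQ.RotL

/-!
# CQ-Hom
-/

open MeasureTheory Filter Topology Set
open scoped ContDiff RealInnerProductSpace ENNReal

namespace Pool.CQ

private theorem Hom_inner (a b : E) : ⟪a, b⟫ = a 0 * b 0 + a 1 * b 1 + a 2 * b 2 := by
  rw [PiLp.inner_apply, Fin.sum_univ_three]
  simp only [RCLike.inner_apply, conj_trivial]
  ring

private noncomputable def Hom_a (x : E) : E :=
  x 0 • EuclideanSpace.single (0 : Fin 3) (1 : ℝ) + x 1 • EuclideanSpace.single (1 : Fin 3) (1 : ℝ)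

private theorem Hom_sc (s : ℝ) (x : E) :
    sc s x = s • Hom_a x + x 2 • EuclideanSpace.single (2 : Fin 3) (1 : ℝ) := by
  ext i
  fin_cases i <;> simp [sc, Hom_a]

private noncomputable def Hom_L (s : ℝ) : E →L[ℝ] E :=
  LinearMap.toContinuousLinearMap
    { toFun := sc s
      map_add' := fun x y => by
        ext i
        fin_cases i <;> simp [sc] <;> ring
      map_smul' := fun c x => by
        ext i
        fin_cases i <;> simp [sc] <;> ring }

private theorem Hom_L_apply (s : ℝ) (x : E) : Hom_L s x = sc s x := rfl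

private theorem Hom_hasFDeriv {η : E → ℝ} (hη : Differentiable ℝ η) (s : ℝ) (x : E) :
    HasFDerivAt (fun z => η (sc s z)) ((fderiv ℝ η (sc s x)).comp (Hom_L s)) x := by
  have h1 : HasFDerivAt η (fderiv ℝ η (sc s x)) (Hom_L s x) := (hη _).hasFDerivAt
  exact h1.comp x (Hom_L s).hasFDerivAt

private theorem Hom_deriv {η : E → ℝ} (hη : Differentiable ℝ η) (s : ℝ) (x : E) :
    HasDerivAt (fun s => η (sc s x)) (x 0 * pd 0 η (sc s x) + x 1 * pd 1 η (sc s x)) s := by
  have h1 : HasDerivAt (fun s : ℝ => sc s x) (Hom_a x) s := by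
    have h2 : (fun s : ℝ => sc s x) = fun s => s • Hom_a x +
        x 2 • EuclideanSpace.single (2 : Fin 3) (1 : ℝ) := funext fun s => Hom_sc s x
    rw [h2]
    have h3 := ((hasDerivAt_id s).smul_const (Hom_a x)).add_const
      (x 2 • EuclideanSpace.single (2 : Fin 3) (1 : ℝ))
    simpa using h3
  have h4 := (hη (sc s x)).hasFDerivAt.comp_hasDerivAt s h1
  refine h4.congr_deriv ?_
  simp only [Hom_a, map_add, map_smul, pd, smul_eq_mul]

private theorem Hom_pd {η : E → ℝ} (s : ℝ) (x : E) :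
    fderiv ℝ η (sc s x) (sc s (EuclideanSpace.single (0 : Fin 3) (1 : ℝ))) = s * pd 0 η (sc s x) ∧
    fderiv ℝ η (sc s x) (sc s (EuclideanSpace.single (1 : Fin 3) (1 : ℝ))) = s * pd 1 η (sc s x) := by
  have h0 : sc s (EuclideanSpace.single (0 : Fin 3) (1 : ℝ)) =
      s • EuclideanSpace.single (0 : Fin 3) (1 : ℝ) := by
    ext i
    fin_cases i <;> simp [sc]
  have h1 : sc s (EuclideanSpace.single (1 : Fin 3) (1 : ℝ)) =
      s • EuclideanSpace.single (1 : Fin 3) (1 : ℝ) := by
    ext i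
    fin_cases i <;> simp [sc]
  rw [h0, h1, map_smul, map_smul]
  exact ⟨rfl, rfl⟩

private noncomputable def Hom_q (φ : E → E) (s : ℝ) (z : E) : ℝ :=
  z 0 * φ (sc s z) 0 + z 1 * φ (sc s z) 1

private theorem Hom_comp {φ : E → E} (hφ : ContDiff ℝ ∞ φ) (i : Fin 3) :
    ContDiff ℝ ∞ fun z => φ z i :=
  (contDiff_euclidean.1 hφ) i

private theorem Hom_coord (i : Fin 3) (x : E) :
    HasFDerivAt (fun z : E => z i) (EuclideanSpace.proj i : E →L[ℝ] ℝ) x :=
  (EuclideanSpace.proj i : E →L[ℝ] ℝ).hasFDerivAt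

private theorem Hom_pdq {φ : E → E} (hφ : ContDiff ℝ ∞ φ) (s : ℝ) (x : E) :
    pd 0 (Hom_q φ s) x = φ (sc s x) 0 + x 0 * (s * pd 0 (fun z => φ z 0) (sc s x)) +
      x 1 * (s * pd 0 (fun z => φ z 1) (sc s x)) ∧
    pd 1 (Hom_q φ s) x = φ (sc s x) 1 + x 0 * (s * pd 1 (fun z => φ z 0) (sc s x)) +
      x 1 * (s * pd 1 (fun z => φ z 1) (sc s x)) := by
  have hd0 : Differentiable ℝ fun z => φ z 0 := (Hom_comp hφ 0).differentiable (by simp)
  have hd1 : Differentiable ℝ fun z => φ z 1 := (Hom_comp hφ 1).differentiable (by simp)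
  have h0 := (Hom_coord 0 x).mul (Hom_hasFDeriv hd0 s x)
  have h1 := (Hom_coord 1 x).mul (Hom_hasFDeriv hd1 s x)
  have h2 := (h0.add h1).fderiv
  have e : (Hom_q φ s) = fun z => z 0 * φ (sc s z) 0 + z 1 * φ (sc s z) 1 := rfl
  have p0 := Hom_pd (η := fun z => φ z 0) s x
  have p1 := Hom_pd (η := fun z => φ z 1) s x
  constructor
  · rw [pd, e]
    erw [h2]
    simp [Hom_L_apply, p0.1, p1.1]
    ring
  · rw [pd, e]
    erw [h2]
    simp [Hom_L_apply, p0.2, p1.2]
    ring

/-- the integrand of the rotation term -/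
private noncomputable def Hom_G (φ : E → E) (x : E) (s : ℝ) : ℝ :=
  -x 1 * (φ (sc s x) 0 + x 0 * (s * pd 0 (fun z => φ z 0) (sc s x)) +
      x 1 * (s * pd 0 (fun z => φ z 1) (sc s x))) +
    x 0 * (φ (sc s x) 1 + x 0 * (s * pd 1 (fun z => φ z 0) (sc s x)) +
      x 1 * (s * pd 1 (fun z => φ z 1) (sc s x)))

private theorem Hom_G_eq {φ : E → E} (hφ : ContDiff ℝ ∞ φ) (x : E) (s : ℝ) :
    ⟪T x, gr (Hom_q φ s) x⟫ = Hom_G φ x s := by
  have h := Hom_pdq hφ s x
  rw [Hom_inner, Hom_G]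
  simp only [T, gr, h.1, h.2]
  simp

private theorem Hom_contpd {φ : E → E} (hφ : ContDiff ℝ ∞ φ) (i j : Fin 3) :
    Continuous (pd j fun z => φ z i) := by
  have h := (Hom_comp hφ i).continuous_fderiv (by simp)
  exact h.clm_apply continuous_const

private theorem Hom_contsc : Continuous fun p : E × ℝ => sc p.2 p.1 := by
  have h : (fun p : E × ℝ => sc p.2 p.1) = fun p => p.2 • Hom_a p.1 +
      p.1 2 • EuclideanSpace.single (2 : Fin 3) (1 : ℝ) := funext fun p => Hom_sc p.2 p.1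
  rw [h]
  unfold Hom_a
  fun_prop

private theorem Hom_cont_aux {X : Type} [TopologicalSpace X] {a b s u v c1 c2 c3 c4 : X → ℝ}
    (ha : Continuous a) (hb : Continuous b) (hs : Continuous s) (hu : Continuous u)
    (hv : Continuous v) (h1 : Continuous c1) (h2 : Continuous c2) (h3 : Continuous c3)
    (h4 : Continuous c4) : Continuous fun p =>
      -b p * (u p + a p * (s p * c1 p) + b p * (s p * c2 p)) +
        a p * (v p + a p * (s p * c3 p) + b p * (s p * c4 p)) := by
  fun_prop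

private theorem Hom_contG {φ : E → E} (hφ : ContDiff ℝ ∞ φ) :
    Continuous fun p : E × ℝ => Hom_G φ p.1 p.2 := by
  have h0 : Continuous fun p : E × ℝ => φ (sc p.2 p.1) 0 :=
    (Hom_comp hφ 0).continuous.comp Hom_contsc
  have h1 : Continuous fun p : E × ℝ => φ (sc p.2 p.1) 1 :=
    (Hom_comp hφ 1).continuous.comp Hom_contsc
  have h2 := fun i j => (Hom_contpd hφ i j).comp Hom_contsc
  have a1 : Continuous fun p : E × ℝ => pd 0 (fun z => φ z 0) (sc p.2 p.1) := h2 0 0
  have a2 : Continuous fun p : E × ℝ => pd 0 (fun z => φ z 1) (sc p.2 p.1) := h2 1 0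
  have a3 : Continuous fun p : E × ℝ => pd 1 (fun z => φ z 0) (sc p.2 p.1) := h2 0 1
  have a4 : Continuous fun p : E × ℝ => pd 1 (fun z => φ z 1) (sc p.2 p.1) := h2 1 1
  have b0 : Continuous fun p : E × ℝ => p.1 0 :=
    (EuclideanSpace.proj (0 : Fin 3) : E →L[ℝ] ℝ).continuous.comp continuous_fst
  have b1 : Continuous fun p : E × ℝ => p.1 1 :=
    (EuclideanSpace.proj (1 : Fin 3) : E →L[ℝ] ℝ).continuous.comp continuous_fst
  exact Hom_cont_aux b0 b1 continuous_snd h0 h1 a1 a2 a3 a4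

private theorem Hom_curl2 (φ : E → E) (y : E) :
    curl φ y 2 = pd 0 (fun z => φ z 1) y - pd 1 (fun z => φ z 0) y := by
  simp [curl]

private theorem Hom_key {φ : E → E} (hφ : ContDiff ℝ ∞ φ) (x : E) :
    rr x * (∫ s in (0 : ℝ)..1, s * curl φ (sc s x) 2) = ⟪T x, φ x⟫ - ∫ s in (0 : ℝ)..1, Hom_G φ x s := by
  have hd0 : Differentiable ℝ fun z => φ z 0 := (Hom_comp hφ 0).differentiable (by simp)
  have hd1 : Differentiable ℝ fun z => φ z 1 := (Hom_comp hφ 1).differentiable (by simp)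
  have hc : Continuous fun s : ℝ => sc s x :=
    Hom_contsc.comp (continuous_const.prodMk continuous_id)
  have hcG : Continuous fun s : ℝ => Hom_G φ x s :=
    (Hom_contG hφ).comp (continuous_const.prodMk continuous_id)
  have hch : Continuous fun s : ℝ => rr x * (s * curl φ (sc s x) 2) := by
    simp only [Hom_curl2]
    have a2 : Continuous fun s : ℝ => pd 0 (fun z => φ z 1) (sc s x) := (Hom_contpd hφ 1 0).comp hc
    have a3 : Continuous fun s : ℝ => pd 1 (fun z => φ z 0) (sc s x) := (Hom_contpd hφ 0 1).comp hc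
    fun_prop
  have h1 : ∀ s : ℝ, HasDerivAt (fun s => s * (-x 1 * φ (sc s x) 0 + x 0 * φ (sc s x) 1))
      (Hom_G φ x s + rr x * (s * curl φ (sc s x) 2)) s := by
    intro s
    have e0 := Hom_deriv hd0 s x
    have e1 := Hom_deriv hd1 s x
    have e2 := (hasDerivAt_id s).mul ((e0.const_mul (-x 1)).add (e1.const_mul (x 0)))
    refine e2.congr_deriv ?_
    rw [Hom_curl2, Hom_G, rr]
    simp only [id, Pi.add_apply]
    ring
  have h2 := intervalIntegral.integral_eq_sub_of_hasDerivAt (a := 0) (b := 1) (fun s _ => h1 s)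
    ((hcG.add hch).intervalIntegrable 0 1)
  rw [intervalIntegral.integral_add (hcG.intervalIntegrable 0 1) (hch.intervalIntegrable 0 1),
    intervalIntegral.integral_const_mul] at h2
  have h3 : sc 1 x = x := by
    ext i
    fin_cases i <;> simp [sc]
  rw [h3] at h2
  have h4 : ⟪T x, φ x⟫ = -x 1 * φ x 0 + x 0 * φ x 1 := by
    rw [Hom_inner]
    simp [T]
  rw [h4]
  linarith

theorem hom {f : E → ℝ} (hf : Measurable f) (hr : RotInv f) {M R δ : ℝ} (hM : ∀ x, |f x| ≤ M)
    (hδ : 0 < δ) (hs : ∀ x, f x ≠ 0 → δ ≤ rr x ∧ ‖x‖ ≤ R) {φ : E → E} (hφ : TestIn univ φ) :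
    ∫ x, f x * (∫ s in (0 : ℝ)..1, s * curl φ (sc s x) 2) = ∫ x, ⟪f x • th x, φ x⟫ := by
  have hφ' : ContDiff ℝ ∞ φ := hφ.1
  have hψm : Measurable fun x => (rr x)⁻¹ * f x := by
    refine Measurable.mul ?_ hf
    refine Measurable.inv ?_
    have : Continuous rr := by
      unfold rr
      have b0 : Continuous fun p : E => p 0 := (EuclideanSpace.proj (0 : Fin 3) : E →L[ℝ] ℝ).continuous
      have b1 : Continuous fun p : E => p 1 := (EuclideanSpace.proj (1 : Fin 3) : E →L[ℝ] ℝ).continuous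
      exact (b0.pow 2).add (b1.pow 2)
    exact this.measurable
  obtain ⟨ψ, hψ⟩ : ∃ ψ : E → ℝ, ψ = fun x => (rr x)⁻¹ * f x := ⟨_, rfl⟩
  rw [← hψ] at hψm
  have hψr : RotInv ψ := by
    intro γ x
    have : rr (rot γ x) = rr x := by
      simp only [rr, rot]
      simp
      have := Real.sin_sq_add_cos_sq γ
      nlinarith
    rw [hψ]
    dsimp only
    rw [this, hr γ x]
  have hψM : ∀ x, |ψ x| ≤ δ⁻¹ * M := by
    intro x
    rw [hψ]
    dsimp only
    rcases eq_or_ne (f x) 0 with h | h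
    · rw [h, mul_zero, abs_zero]
      exact mul_nonneg (inv_nonneg.2 hδ.le) ((abs_nonneg _).trans (hM x))
    · have h1 := (hs x h).1
      have h2 : 0 < rr x := lt_of_lt_of_le hδ h1
      rw [abs_mul, abs_of_pos (inv_pos.2 h2)]
      exact mul_le_mul (inv_anti₀ hδ h1) (hM x) (abs_nonneg _) (inv_nonneg.2 hδ.le)
  have hψs : ∀ x, ψ x ≠ 0 → δ ≤ rr x ∧ ‖x‖ ≤ R := by
    intro x hx
    refine hs x fun h => hx ?_
    rw [hψ]
    dsimp only
    rw [h, mul_zero]
  -- the pointwise identity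
  have hpt : ∀ x, f x * (∫ s in (0 : ℝ)..1, s * curl φ (sc s x) 2) =
      ψ x * ⟪T x, φ x⟫ - ψ x * ∫ s in (0 : ℝ)..1, Hom_G φ x s := by
    intro x
    rcases eq_or_ne (f x) 0 with h | h
    · have : ψ x = 0 := by
        rw [hψ]
        dsimp only
        rw [h, mul_zero]
      rw [h, this]
      ring
    · have h2 : 0 < rr x := lt_of_lt_of_le hδ (hs x h).1
      rw [← mul_sub, ← Hom_key hφ' x, hψ]
      field_simp
  have hth : ∀ x, ⟪f x • th x, φ x⟫ = ψ x * ⟪T x, φ x⟫ := by
    intro x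
    rw [real_inner_smul_left, th, real_inner_smul_left, hψ]
    ring
  -- integrability
  have hK : IsCompact (Metric.closedBall (0 : E) R ×ˢ Set.Icc (0 : ℝ) 1) :=
    (isCompact_closedBall 0 R).prod isCompact_Icc
  obtain ⟨C, hC⟩ := hK.exists_bound_of_continuousOn (Hom_contG hφ').continuousOn
  have hint : Integrable (Function.uncurry fun (x : E) (s : ℝ) => ψ x * Hom_G φ x s)
      ((volume : Measure E).prod (volume.restrict (Set.Ioc (0 : ℝ) 1))) := by
    have hdom : Integrable (fun p : E × ℝ =>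
        (Metric.closedBall (0 : E) R).indicator (fun _ => δ⁻¹ * M * C) p.1 * (1 : ℝ))
        ((volume : Measure E).prod (volume.restrict (Set.Ioc (0 : ℝ) 1))) := by
      refine Integrable.mul_prod (f := (Metric.closedBall (0 : E) R).indicator fun _ => δ⁻¹ * M * C)
        (g := fun _ : ℝ => (1 : ℝ)) ?_ ?_
      · refine (integrable_indicator_iff measurableSet_closedBall).2 ?_
        exact integrableOn_const (by
          exact (isCompact_closedBall (0 : E) R).measure_lt_top.ne)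
      · exact integrable_const _
    refine hdom.mono' ?_ ?_
    · exact ((hψm.comp measurable_fst).mul (Hom_contG hφ').measurable).aestronglyMeasurable
    · have hae : ∀ᵐ p : E × ℝ ∂((volume : Measure E).prod (volume.restrict (Set.Ioc (0 : ℝ) 1))),
          p.2 ∈ Set.Ioc (0 : ℝ) 1 := by
        have h1 : ∀ᵐ s ∂(volume.restrict (Set.Ioc (0 : ℝ) 1)), s ∈ Set.Ioc (0 : ℝ) 1 :=
          ae_restrict_mem measurableSet_Ioc
        exact Measure.quasiMeasurePreserving_snd.ae h1
      filter_upwards [hae] with p hp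
      rw [mul_one]
      show ‖ψ p.1 * Hom_G φ p.1 p.2‖ ≤ _
      rcases eq_or_ne (ψ p.1) 0 with h | h
      · rw [h, zero_mul, norm_zero]
        by_cases hb : p.1 ∈ Metric.closedBall (0 : E) R
        · rw [indicator_of_mem hb]
          have h1 : 0 ≤ C := (norm_nonneg _).trans (hC ⟨p.1, p.2⟩ ⟨hb, hp.1.le, hp.2⟩)
          have h2 : 0 ≤ M := (abs_nonneg _).trans (hM 0)
          positivity
        · rw [indicator_of_notMem hb]
      · have hb : p.1 ∈ Metric.closedBall (0 : E) R := by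
          rw [mem_closedBall_zero_iff]
          exact (hψs _ h).2
        rw [indicator_of_mem hb, norm_mul]
        exact mul_le_mul (hψM p.1) (hC ⟨p.1, p.2⟩ ⟨hb, hp.1.le, hp.2⟩) (norm_nonneg _)
          ((abs_nonneg _).trans (hψM p.1))
  have hint1 : Integrable fun x => ψ x * ∫ s in (0 : ℝ)..1, Hom_G φ x s := by
    have h1 := hint.integral_prod_left
    refine h1.congr (ae_of_all _ fun x => ?_)
    show ∫ s in Set.Ioc (0 : ℝ) 1, ψ x * Hom_G φ x s = ψ x * ∫ s in (0 : ℝ)..1, Hom_G φ x s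
    rw [integral_const_mul, intervalIntegral.integral_of_le zero_le_one]
  have hcT : Continuous fun x : E => ⟪T x, φ x⟫ := by
    have h4 : (fun x : E => ⟪T x, φ x⟫) = fun x => -x 1 * φ x 0 + x 0 * φ x 1 := by
      funext x
      rw [Hom_inner]
      simp [T]
    rw [h4]
    have b0 : Continuous fun p : E => p 0 := (EuclideanSpace.proj (0 : Fin 3) : E →L[ℝ] ℝ).continuous
    have b1 : Continuous fun p : E => p 1 := (EuclideanSpace.proj (1 : Fin 3) : E →L[ℝ] ℝ).continuous
    exact (b1.neg.mul (Hom_comp hφ' 0).continuous).add (b0.mul (Hom_comp hφ' 1).continuous)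
  have hint2 : Integrable fun x => ψ x * ⟪T x, φ x⟫ := by
    obtain ⟨C', hC'⟩ := (isCompact_closedBall (0 : E) R).exists_bound_of_continuousOn hcT.continuousOn
    have hdom : Integrable ((Metric.closedBall (0 : E) R).indicator fun _ => δ⁻¹ * M * C') := by
      refine (integrable_indicator_iff measurableSet_closedBall).2 ?_
      exact integrableOn_const (by exact (isCompact_closedBall (0 : E) R).measure_lt_top.ne)
    refine hdom.mono' (hψm.mul hcT.measurable).aestronglyMeasurable (ae_of_all _ fun x => ?_)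
    rcases eq_or_ne (ψ x) 0 with h | h
    · rw [h, zero_mul, norm_zero]
      by_cases hb : x ∈ Metric.closedBall (0 : E) R
      · rw [indicator_of_mem hb]
        have h1 : 0 ≤ C' := (norm_nonneg _).trans (hC' x hb)
        have h2 : 0 ≤ M := (abs_nonneg _).trans (hM 0)
        positivity
      · rw [indicator_of_notMem hb]
    · have hb : x ∈ Metric.closedBall (0 : E) R := by
        rw [mem_closedBall_zero_iff]
        exact (hψs _ h).2
      rw [indicator_of_mem hb, norm_mul]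
      exact mul_le_mul (hψM x) (hC' x hb) (norm_nonneg _) ((abs_nonneg _).trans (hψM x))
  -- the rotation term
  have hzero : ∫ x, ψ x * ∫ s in (0 : ℝ)..1, Hom_G φ x s = 0 := by
    have h1 : ∫ x, ψ x * ∫ s in (0 : ℝ)..1, Hom_G φ x s =
        ∫ x, ∫ s in Set.Ioc (0 : ℝ) 1, ψ x * Hom_G φ x s := by
      refine integral_congr_ae (ae_of_all _ fun x => ?_)
      dsimp only
      rw [integral_const_mul, intervalIntegral.integral_of_le zero_le_one]
    rw [h1, integral_integral_swap hint]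
    have h2 : ∀ s : ℝ, ∫ x, ψ x * Hom_G φ x s = 0 := by
      intro s
      have hq : ContDiff ℝ ∞ (Hom_q φ s) := by
        have c0 : ContDiff ℝ ∞ fun z : E => z 0 :=
          (EuclideanSpace.proj (0 : Fin 3) : E →L[ℝ] ℝ).contDiff
        have c1 : ContDiff ℝ ∞ fun z : E => z 1 :=
          (EuclideanSpace.proj (1 : Fin 3) : E →L[ℝ] ℝ).contDiff
        have c2 : ContDiff ℝ ∞ fun z : E => φ (sc s z) 0 :=
          (Hom_comp hφ' 0).comp (Hom_L s).contDiff
        have c3 : ContDiff ℝ ∞ fun z : E => φ (sc s z) 1 :=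
          (Hom_comp hφ' 1).comp (Hom_L s).contDiff
        exact (c0.mul c2).add (c1.mul c3)
      have h3 := rot_int' hψm hψr hψM hδ hψs hq
      simpa only [Hom_G_eq hφ'] using h3
    simp only [h2, integral_zero]
  calc ∫ x, f x * (∫ s in (0 : ℝ)..1, s * curl φ (sc s x) 2)
      = ∫ x, (ψ x * ⟪T x, φ x⟫ - ψ x * ∫ s in (0 : ℝ)..1, Hom_G φ x s) :=
        integral_congr_ae (ae_of_all _ hpt)
    _ = (∫ x, ψ x * ⟪T x, φ x⟫) - ∫ x, ψ x * ∫ s in (0 : ℝ)..1, Hom_G φ x s :=
        integral_sub hint2 hint1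
    _ = ∫ x, ψ x * ⟪T x, φ x⟫ := by rw [hzero, sub_zero]
    _ = ∫ x, ⟪f x • th x, φ x⟫ := integral_congr_ae (ae_of_all _ fun x => (hth x).symm)

end Pool.CQ
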