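import Pool.Agent.Lib.MP_cd5b91_an.CQ.HWG
import Pool.Agent.Lib.MP_cd5b91_an.CQ.HAux
import Pool.Agent.Lib.MP_cd5b91_an.CQ.C1Curl
import Pool.Agent.Lib.MP_cd5b91_an.CQ.C1Grad
import Pool.Agent.Lib.MP_cd5b91_an.CQ.C1Div

/-!
# CQ-IAlg: test functions of class `C¹` and fields of class `C¹`
-/

open MeasureTheory Filter Topology Set
open scoped ContDiff RealInnerProductSpace ENNReal

namespace Pool.CQ.I

open Pool.CQ.G Pool.CQ.H

/-- `C¹` functions with compact support in `O` -/
def T1 (O : Set E) (η : E → ℝ) : Prop :=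
  ContDiff ℝ 1 η ∧ HasCompactSupport η ∧ tsupport η ⊆ O

/-- `C¹` fields with compact support in `O` -/
def F1 (O : Set E) (φ : E → E) : Prop :=
  ContDiff ℝ 1 φ ∧ HasCompactSupport φ ∧ tsupport φ ⊆ O

/-- continuous functions with compact support in `O` -/
def T0 (O : Set E) (η : E → ℝ) : Prop :=
  Continuous η ∧ HasCompactSupport η ∧ tsupport η ⊆ O

theorem t1_of {O : Set E} {η : E → ℝ} (h : STest O η) : T1 O η :=
  ⟨h.1.of_le (WithTop.coe_le_coe.2 le_top), h.2.1, h.2.2⟩

theorem f1_of {O : Set E} {φ : E → E} (h : TestIn O φ) : F1 O φ :=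
  ⟨h.1.of_le (WithTop.coe_le_coe.2 le_top), h.2.1, h.2.2⟩

theorem t0_of {O : Set E} {η : E → ℝ} (h : T1 O η) : T0 O η := ⟨h.1.continuous, h.2.1, h.2.2⟩

theorem ev0 {F : Type} [Zero F] {O : Set E} {η : E → F} (hη : tsupport η ⊆ O) {x : E} (hx : x ∉ O) :
    η =ᶠ[𝓝 x] fun _ => 0 :=
  notMem_tsupport_iff_eventuallyEq.1 fun h => hx (hη h)

theorem f1_smul {O : Set E} (hO : IsOpen O) {α : E → E} (hα : ContDiffOn ℝ 1 α O) {η : E → ℝ}
    (hη : T1 O η) : F1 O (fun x => η x • α x) := by
  refine ⟨contDiff_iff_contDiffAt.2 fun x => ?_, hη.2.1.smul_right, ?_⟩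
  · by_cases hx : x ∈ O
    · exact hη.1.contDiffAt.smul (hα.contDiffAt (hO.mem_nhds hx))
    · refine (contDiffAt_const (c := (0 : E))).congr_of_eventuallyEq ?_
      filter_upwards [ev0 hη.2.2 hx] with y hy
      rw [hy, zero_smul]
  · exact (closure_mono (Function.support_smul_subset_left η α)).trans hη.2.2

theorem t1_mul {O : Set E} (hO : IsOpen O) {f : E → ℝ} (hf : ContDiffOn ℝ 1 f O) {η : E → ℝ}
    (hη : T1 O η) : T1 O (fun x => η x * f x) := by
  refine ⟨contDiff_iff_contDiffAt.2 fun x => ?_, hη.2.1.mul_right, ?_⟩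
  · by_cases hx : x ∈ O
    · exact hη.1.contDiffAt.mul (hf.contDiffAt (hO.mem_nhds hx))
    · refine (contDiffAt_const (c := (0 : ℝ))).congr_of_eventuallyEq ?_
      filter_upwards [ev0 hη.2.2 hx] with y hy
      rw [hy, zero_mul]
  · refine (closure_mono ?_).trans hη.2.2
    intro x hx h0
    exact hx (by simp [h0])

theorem t0_mul {O : Set E} (hO : IsOpen O) {f : E → ℝ} (hf : ContinuousOn f O) {η : E → ℝ}
    (hη : T0 O η) : T0 O (fun x => η x * f x) := by
  refine ⟨continuous_iff_continuousAt.2 fun x => ?_, hη.2.1.mul_right, ?_⟩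
  · by_cases hx : x ∈ O
    · exact hη.1.continuousAt.mul (hf.continuousAt (hO.mem_nhds hx))
    · refine (continuousAt_const (y := (0 : ℝ))).congr ?_
      filter_upwards [ev0 hη.2.2 hx] with y hy
      rw [hy, zero_mul]
  · refine (closure_mono ?_).trans hη.2.2
    intro x hx h0
    exact hx (by simp [h0])

theorem t1_sub {O : Set E} {f g : E → ℝ} (hf : T1 O f) (hg : T1 O g) :
    T1 O (fun x => f x - g x) := by
  have hs : Function.support (fun x => f x - g x) ⊆ tsupport f ∪ tsupport g := by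
    intro x hx
    by_contra h
    rw [mem_union, not_or] at h
    refine hx ?_
    show f x - g x = 0
    rw [image_eq_zero_of_notMem_tsupport h.1, image_eq_zero_of_notMem_tsupport h.2, sub_zero]
  have hc : IsClosed (tsupport f ∪ tsupport g) := (isClosed_tsupport f).union (isClosed_tsupport g)
  have ht : tsupport (fun x => f x - g x) ⊆ tsupport f ∪ tsupport g := closure_minimal hs hc
  have hK : IsCompact (tsupport f ∪ tsupport g) := IsCompact.union hf.2.1 hg.2.1
  exact ⟨hf.1.sub hg.1, hK.of_isClosed_subset (isClosed_tsupport _) ht,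
    ht.trans (union_subset hf.2.2 hg.2.2)⟩

theorem t1_coord {O : Set E} {φ : E → E} (hφ : F1 O φ) (i : Fin 3) : T1 O (fun x => φ x i) := by
  refine ⟨?_, ?_, ?_⟩
  · exact (EuclideanSpace.proj (𝕜 := ℝ) i).contDiff.comp hφ.1
  · exact HasCompactSupport.intro hφ.2.1 fun x hx => by
      rw [image_eq_zero_of_notMem_tsupport hx]
      rfl
  · refine (closure_minimal (fun x hx => ?_) (isClosed_tsupport φ)).trans hφ.2.2
    by_contra h
    refine hx ?_
    show φ x i = 0
    rw [image_eq_zero_of_notMem_tsupport h]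
    rfl

theorem pd_off {f : E → ℝ} {x : E} (hx : x ∉ tsupport f) (i : Fin 3) : pd i f x = 0 := by
  have h : f =ᶠ[𝓝 x] fun _ => 0 := notMem_tsupport_iff_eventuallyEq.1 hx
  unfold pd
  rw [h.fderiv_eq]
  simp

theorem t0_pd {O : Set E} {f : E → ℝ} (hf : T1 O f) (i : Fin 3) : T0 O (pd i f) := by
  have hs : Function.support (pd i f) ⊆ tsupport f := by
    intro x hx
    by_contra h
    exact hx (pd_off h i)
  refine ⟨(hf.1.continuous_fderiv one_ne_zero).clm_apply continuous_const, ?_, ?_⟩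
  · exact HasCompactSupport.intro hf.2.1 fun x hx => by
      by_contra h
      exact hx (hs h)
  · exact (closure_minimal hs (isClosed_tsupport f)).trans hf.2.2

theorem int_t0 {O : Set E} {f : E → ℝ} (hf : LpL 1 O f) {g : E → ℝ} (hg : T0 O g) :
    Integrable (fun x => f x * g x) volume := by
  have hK : IsCompact (tsupport g) := hg.2.1
  have h1 : Integrable f (volume.restrict (tsupport g)) :=
    memLp_one_iff_integrable.1 (hf _ hK hg.2.2)
  obtain ⟨M, hM⟩ := hg.1.bounded_above_of_compact_support hg.2.1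
  have h2 : Integrable (fun x => f x * g x) (volume.restrict (tsupport g)) :=
    h1.mul_bdd (c := M) hg.1.aestronglyMeasurable (Eventually.of_forall hM)
  rw [← integrableOn_iff_integrable_of_support_subset (s := tsupport g)]
  · exact h2
  · intro x hx
    by_contra h
    refine hx ?_
    show f x * g x = 0
    rw [image_eq_zero_of_notMem_tsupport h, mul_zero]

theorem cd_coord {n : WithTop ℕ∞} {O : Set E} {α : E → E} (hα : ContDiffOn ℝ n α O) (i : Fin 3) :
    ContDiffOn ℝ n (fun x => α x i) O :=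
  (EuclideanSpace.proj (𝕜 := ℝ) i).contDiff.comp_contDiffOn hα

theorem cn_pd {O : Set E} (hO : IsOpen O) {f : E → ℝ} (hf : ContDiffOn ℝ 1 f O) (i : Fin 3) :
    ContinuousOn (pd i f) O :=
  (hf.continuousOn_fderiv_of_isOpen hO le_rfl).clm_apply continuousOn_const

theorem cn_dv {O : Set E} (hO : IsOpen O) {α : E → E} (hα : ContDiffOn ℝ 1 α O) :
    ContinuousOn (dv α) O :=
  ((cn_pd hO (cd_coord hα 0) 0).add (cn_pd hO (cd_coord hα 1) 1)).add (cn_pd hO (cd_coord hα 2) 2)

theorem cn_curl {O : Set E} (hO : IsOpen O) {α : E → E} (hα : ContDiffOn ℝ 1 α O) :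
    ContinuousOn (curl α) O := by
  have hp : ∀ i j : Fin 3, ContinuousOn (pd i (fun y => α y j)) O := fun i j =>
    cn_pd hO (cd_coord hα j) i
  refine (PiLp.continuous_toLp 2 (fun _ : Fin 3 => ℝ)).comp_continuousOn ?_
  refine continuousOn_pi.2 fun i => ?_
  fin_cases i
  · exact (hp 1 2).sub (hp 2 1)
  · exact (hp 2 0).sub (hp 0 2)
  · exact (hp 0 1).sub (hp 1 0)

theorem cd_inv {O : Set E} {α : E → E} (hα : ContDiffOn ℝ 1 α O) (h0 : ∀ x ∈ O, α x ≠ 0) :
    ContDiffOn ℝ 1 (fun x => (‖α x‖ ^ 2)⁻¹) O := by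
  refine (hα.norm_sq ℝ).inv fun x hx => ?_
  have := norm_pos_iff.2 (h0 x hx)
  positivity

theorem cd_cr {O : Set E} {α : E → E} (hα : ContDiffOn ℝ 1 α O) (e : E) :
    ContDiffOn ℝ 1 (fun x => cr (α x) e) O := by
  rw [contDiffOn_euclidean]
  intro i
  fin_cases i
  · exact ((cd_coord hα 1).mul contDiffOn_const).sub ((cd_coord hα 2).mul contDiffOn_const)
  · exact ((cd_coord hα 2).mul contDiffOn_const).sub ((cd_coord hα 0).mul contDiffOn_const)
  · exact ((cd_coord hα 0).mul contDiffOn_const).sub ((cd_coord hα 1).mul contDiffOn_const)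

private theorem ext3 {a b : E} (h0 : a 0 = b 0) (h1 : a 1 = b 1) (h2 : a 2 = b 2) : a = b := by
  ext i
  fin_cases i
  · exact h0
  · exact h1
  · exact h2

/-- `curl (η α)` for a test function `η` -/
theorem curl_smul_on {O : Set E} (hO : IsOpen O) {α : E → E} (hα : ContDiffOn ℝ 1 α O) {η : E → ℝ}
    (hη : T1 O η) (x : E) :
    curl (fun y => η y • α y) x = cr (gr η x) (α x) + η x • curl α x := by
  by_cases hx : x ∈ O
  · exact curl_smul (hη.1.contDiffAt.differentiableAt (by simp))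
      ((hα.contDiffAt (hO.mem_nhds hx)).differentiableAt (by simp))
  · have h0 := ev0 hη.2.2 hx
    have h1 : η x = 0 := h0.eq_of_nhds
    rw [curl_ev, gr_ev h0, h1, zero_smul, add_zero]
    · refine (ext3 ?_ ?_ ?_).symm
      · change (0 : ℝ) * α x 2 - 0 * α x 1 = 0
        ring
      · change (0 : ℝ) * α x 0 - 0 * α x 2 = 0
        ring
      · change (0 : ℝ) * α x 1 - 0 * α x 0 = 0
        ring
    · filter_upwards [h0] with y hy
      rw [hy, zero_smul]

theorem lpl_smul {O : Set E} {α : E → E} (hα : ContinuousOn α O) {ψ : E → ℝ}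
    (hψ : LpL 1 O ψ) : LpL 1 O (fun x => ψ x • α x) := by
  intro K hK hKO
  obtain ⟨M, hM⟩ := hK.exists_bound_of_continuousOn (hα.mono hKO)
  refine MemLp.mono ((hψ K hK hKO).const_mul M) ((hψ K hK hKO).1.smul
    ((hα.mono hKO).aestronglyMeasurable hK.measurableSet)) ?_
  filter_upwards [ae_restrict_mem hK.measurableSet] with x hx
  rw [norm_smul, norm_mul, mul_comm]
  exact mul_le_mul_of_nonneg_right ((hM x hx).trans (le_abs_self M)) (norm_nonneg _)

theorem int_in {O : Set E} {C φ : E → E} (hC : LpL 1 O C)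
    (hφ : ∀ i : Fin 3, T0 O (fun x => φ x i)) : Integrable (fun x => ⟪C x, φ x⟫) := by
  have h3 : ∀ i : Fin 3, Integrable (fun x => C x i * φ x i) := fun i =>
    int_t0 (lpl_coord hC i) (hφ i)
  have h4 : (fun x => ⟪C x, φ x⟫) = fun x => C x 0 * φ x 0 + C x 1 * φ x 1 + C x 2 * φ x 2 := by
    funext x
    rw [Pool.CQ.H.inner3]
  rw [h4]
  exact ((h3 0).add (h3 1)).add (h3 2)

end Pool.CQ.I
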