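import Pool.Agent.Lib.MP_cd5b91_an.CQ.IOrth
import Pool.Agent.Lib.MP_cd5b91_an.CQ.HSmp

/-!
# CQ-IMain: unique continuation when the curl has a direction of class `C¹`
-/

open MeasureTheory Filter Topology Set
open scoped ContDiff RealInnerProductSpace ENNReal

namespace Pool.CQ.I

open Pool.CQ.G Pool.CQ.H

theorem unique1 {O : Set E} (hO : IsOpen O) (hOc : IsPreconnected O) {α : E → E}
    (hα : ContDiffOn ℝ 1 α O) (h0 : ∀ x ∈ O, α x ≠ 0) {u B : E → E}
    (hu : LpL 6 O u) (hB : LpL 2 O B) (h1 : WC O u B) (h2 : WC O B (fun x => ‖u x‖ ^ 4 • u x))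
    (hs : ∀ᵐ x ∂(volume.restrict O), ∃ t : ℝ, 0 ≤ t ∧ B x = t • α x)
    {U : Set E} (hU : IsOpen U) (hne : (U ∩ O).Nonempty)
    (hz : ∀ᵐ x ∂(volume.restrict U), u x = 0) : ∀ᵐ x ∂(volume.restrict O), u x = 0 := by
  have hOm := hO.measurableSet
  have hcu := cn_curl hO hα
  set V : E → E := fun x => ‖u x‖ ^ 4 • u x with hV
  set g : E → ℝ := quo B α with hgdef
  have hg0 : ∀ x, 0 ≤ g x := quo_nonneg B α
  have hBg : ∀ᵐ x ∂(volume.restrict O), B x = g x • α x := by
    filter_upwards [hs, ae_restrict_mem hOm] with x hx hxO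
    exact quo_eq (h0 x hxO) hx
  have hαK : ∀ K : Set E, IsCompact K → K ⊆ O → AEStronglyMeasurable α (volume.restrict K) :=
    fun K hK hKO => (hα.continuousOn.mono hKO).aestronglyMeasurable hK.measurableSet
  have hcK : ∀ K : Set E, IsCompact K → K ⊆ O → AEStronglyMeasurable (curl α) (volume.restrict K) :=
    fun K hK hKO => (hcu.mono hKO).aestronglyMeasurable hK.measurableSet
  have hfin : ∀ K : Set E, IsCompact K → IsFiniteMeasure (volume.restrict K) := fun K hK => ⟨by
    rw [Measure.restrict_apply_univ]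
    exact hK.measure_lt_top⟩
  -- local integrability
  have hg2 : LpL 2 O g := by
    intro K hK hKO
    obtain ⟨m, M, D, R, hm, hM, hD, hR, hb⟩ := bounds1 hO hα h0 hK hKO
    refine MemLp.mono ((hB K hK hKO).const_smul (m⁻¹)) (aesm_quo (hB K hK hKO).1 (hαK K hK hKO)) ?_
    filter_upwards [ae_restrict_mem hK.measurableSet] with x hx
    rw [Real.norm_of_nonneg (hg0 x), Pi.smul_apply, norm_smul,
      Real.norm_of_nonneg (inv_nonneg.2 hm.le)]
    exact quo_le B α hm (hb x hx).1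
  have hgp : LpL (ENNReal.ofReal (6 / 5)) O g := by
    intro K hK hKO
    have := hfin K hK
    refine (hg2 K hK hKO).mono_exponent ?_
    have h3 : ENNReal.ofReal (6 / 5) ≤ ENNReal.ofReal 2 := ENNReal.ofReal_le_ofReal (by norm_num)
    simpa using h3
  have hg1 : LpL 1 O g := by
    intro K hK hKO
    have := hfin K hK
    exact (hg2 K hK hKO).mono_exponent (by norm_num)
  have hu2 : LpL 2 O u := by
    intro K hK hKO
    have := hfin K hK
    exact (hu K hK hKO).mono_exponent (by norm_num)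
  have hu1 : LpL 1 O u := by
    intro K hK hKO
    have := hfin K hK
    exact (hu K hK hKO).mono_exponent (by norm_num)
  have hVp : LpL (ENNReal.ofReal (6 / 5)) O V := fun K hK hKO => memV (hu K hK hKO)
  have hV1 : LpL 1 O V := by
    intro K hK hKO
    have := hfin K hK
    refine (hVp K hK hKO).mono_exponent ?_
    have h3 : ENNReal.ofReal 1 ≤ ENNReal.ofReal (6 / 5) := ENNReal.ofReal_le_ofReal (by norm_num)
    simpa using h3
  have hB1 : LpL 1 O B := by
    intro K hK hKO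
    have := hfin K hK
    exact (hB K hK hKO).mono_exponent (by norm_num)
  -- the component along `α`
  have hW : WC O (fun x => g x • α x) V := wc_congr hO h2 hBg
  have hVα : ∀ᵐ x ∂(volume.restrict O), ⟪V x, α x⟫ - g x * ⟪α x, curl α x⟫ = 0 :=
    orth1 hO hα hg1 hV1 hW
  have hdiv : ∀ f : E → ℝ, STest O f → ∫ x, ⟪g x • α x, gr f x⟫ = 0 := by
    intro f hf
    have h3 := h1 _ (test_gr hf)
    simp only [curl_gr hf.1, inner_zero_right, integral_zero] at h3
    rw [h3]
    refine integral_congr_ae ?_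
    filter_upwards [(ae_restrict_iff' hOm).1 hBg] with x hx
    by_cases hxO : x ∈ O
    · rw [hx hxO]
    · rw [test_off (test_gr hf) hxO, inner_zero_right, inner_zero_right]
  have hwg : WGrad O g (hG α g V) := wgrad1 hO hα h0 hg1 hV1 hW hdiv
  -- the flux and the lower-order term
  have hF6 : LpL 6 O (fun x => cr (α x) (u x)) := by
    intro K hK hKO
    obtain ⟨m, M, D, R, hm, hM, hD, hR, hb⟩ := bounds1 hO hα h0 hK hKO
    refine MemLp.mono ((hu K hK hKO).const_smul M) (aesm_cr (hαK K hK hKO) (hu K hK hKO).1) ?_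
    filter_upwards [ae_restrict_mem hK.measurableSet] with x hx
    rw [Pi.smul_apply, norm_smul, Real.norm_of_nonneg hM.le]
    exact (norm_cr_le _ _).trans (mul_le_mul_of_nonneg_right (hb x hx).2.1 (norm_nonneg _))
  have hF1 : LpL 1 O (fun x => cr (α x) (u x)) := by
    intro K hK hKO
    have := hfin K hK
    exact (hF6 K hK hKO).mono_exponent (by norm_num)
  have hk2 : LpL 2 O (fun x => ⟪u x, curl α x⟫) := by
    intro K hK hKO
    obtain ⟨m, M, D, R, hm, hM, hD, hR, hb⟩ := bounds1 hO hα h0 hK hKO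
    refine MemLp.mono ((hu2 K hK hKO).const_smul R) ((hu K hK hKO).1.inner (hcK K hK hKO)) ?_
    filter_upwards [ae_restrict_mem hK.measurableSet] with x hx
    rw [Pi.smul_apply, norm_smul, Real.norm_of_nonneg hR]
    refine (norm_inner_le_norm _ _).trans ?_
    rw [mul_comm]
    exact mul_le_mul_of_nonneg_right (hb x hx).2.2.2 (norm_nonneg _)
  have hk1 : LpL 1 O (fun x => ⟪u x, curl α x⟫) := by
    intro K hK hKO
    have := hfin K hK
    exact (hk2 K hK hKO).mono_exponent (by norm_num)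
  have hS : SDH O (6 / 5) 6 g (hG α g V) (fun x => cr (α x) (u x))
      (fun x => ‖u x‖ ^ 6 - g x * ⟪u x, curl α x⟫) (fun x => ⟪u x, curl α x⟫) := by
    refine ⟨by norm_num, by norm_num, by norm_num, hg0, hgp, ?_, ?_, ?_, hk1, hwg, ?_, ?_, ?_⟩
    · intro K hK hKO
      obtain ⟨m, M, D, R, hm, hM, hD, hR, hb⟩ := bounds1 hO hα h0 hK hKO
      have hKm := hK.measurableSet
      have hdv : AEStronglyMeasurable (dv α) (volume.restrict K) :=
        ((cn_dv hO hα).mono hKO).aestronglyMeasurable hKm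
      have hin : AEStronglyMeasurable (fun x => (‖α x‖ ^ 2)⁻¹) (volume.restrict K) :=
        ((cd_inv hα h0).continuousOn.mono hKO).aestronglyMeasurable hKm
      have hme : AEStronglyMeasurable (hG α g V) (volume.restrict K) :=
        (hin.smul (aesm_cr (hαK K hK hKO) ((hVp K hK hKO).1.sub
          ((hgp K hK hKO).1.smul (hcK K hK hKO))))).sub
          ((((hgp K hK hKO).1.mul hdv).mul hin).smul (hαK K hK hKO))
      refine MemLp.mono (((hVp K hK hKO).norm.add (hgp K hK hKO)).const_mul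
        (m⁻¹ * (1 + D) * (1 + R))) hme ?_
      filter_upwards [ae_restrict_mem hKm] with x hx
      have h3 := norm_hG_le (C := V) hm (hb x hx).1 (hb x hx).2.2.1 (hb x hx).2.2.2 (hg0 x)
      refine h3.trans (le_of_eq ?_)
      have h4 : 0 ≤ m⁻¹ * (1 + D) * (1 + R) * (‖V x‖ + g x) := by
        have := hg0 x
        positivity
      exact (Real.norm_of_nonneg h4).symm
    · have h6 : ENNReal.ofReal 6 = 6 := by simp
      rw [h6]
      exact hF6
    · intro K hK hKO
      refine memLp_one_iff_integrable.2 ((int6K (hu K hK hKO)).sub ?_)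
      exact MemLp.integrable_mul (hg2 K hK hKO) (hk2 K hK hKO)
    · intro η hη hη0
      have hF := f1_smul hO hα (t1_of hη)
      have h3 := wc_c1 hO hu1 hB1 h1 hF.1 hF.2.1 hF.2.2
      have i1 : Integrable (fun x => ⟪cr (α x) (u x), gr η x⟫) := int_inner hF1 (test_gr hη)
      have i2 : Integrable (fun x => ⟪u x, curl α x⟫ * η x) := int_stest hk1 hη
      have h4 : ∫ x, ⟪u x, curl (fun y => η y • α y) x⟫ =
          (∫ x, ⟪cr (α x) (u x), gr η x⟫) + ∫ x, ⟪u x, curl α x⟫ * η x := by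
        rw [← integral_add i1 i2]
        refine integral_congr_ae (Eventually.of_forall fun x => ?_)
        show ⟪u x, curl (fun y => η y • α y) x⟫ = ⟪cr (α x) (u x), gr η x⟫ + ⟪u x, curl α x⟫ * η x
        rw [Pool.CQ.I.curl_smul_on hO hα (t1_of hη), inner_add_right, real_inner_smul_right, triple]
        ring
      rw [← h4, h3]
      refine integral_nonneg_of_ae ?_
      filter_upwards [(ae_restrict_iff' hOm).1 hBg] with x hx
      by_cases hxO : x ∈ O
      · rw [hx hxO, real_inner_smul_left, real_inner_smul_right, real_inner_self_eq_norm_sq]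
        have := hg0 x
        have := hη0 x
        show 0 ≤ _
        positivity
      · have : η x • α x = 0 := by
          rw [(ev0 hη.2.2 hxO).eq_of_nhds, zero_smul]
        rw [this, inner_zero_right]
        rfl
    · filter_upwards [hVα, ae_restrict_mem hOm] with x hx hxO
      have hn : ‖α x‖ ≠ 0 := (norm_pos_iff.2 (h0 x hxO)).ne'
      have e1 : ⟪cr (α x) (u x), α x⟫ = 0 := by
        rw [Pool.CQ.H.inner3]
        change (α x 1 * u x 2 - α x 2 * u x 1) * α x 0 + (α x 2 * u x 0 - α x 0 * u x 2) * α x 1 +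
          (α x 0 * u x 1 - α x 1 * u x 0) * α x 2 = 0
        ring
      have e2 : ⟪α x, V x - g x • curl α x⟫ = 0 := by
        rw [inner_sub_right, real_inner_smul_right (α x) (curl α x) (g x), real_inner_comm (V x) (α x)]
        exact hx
      have e3 : ⟪u x, V x - g x • curl α x⟫ = ‖u x‖ ^ 6 - g x * ⟪u x, curl α x⟫ := by
        rw [inner_sub_right, real_inner_smul_right (u x) (curl α x) (g x)]
        have : ⟪u x, V x⟫ = ‖u x‖ ^ 6 := by
          show ⟪u x, ‖u x‖ ^ 4 • u x⟫ = ‖u x‖ ^ 6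
          rw [real_inner_smul_right, real_inner_self_eq_norm_sq]
          ring
        rw [this]
      unfold hG gG
      rw [inner_sub_right, real_inner_smul_right, real_inner_smul_right, e1, inner_cr_cr, e2, e3,
        real_inner_self_eq_norm_sq]
      field_simp
      ring
    · intro K hK hKO
      obtain ⟨m, M, D, R, hm, hM, hD, hR, hb⟩ := bounds1 hO hα h0 hK hKO
      obtain ⟨c, hc⟩ : ∃ c : ℝ, c = (m⁻¹ * (1 + D) * (1 + R)) ^ (6 / 5 : ℝ) * 2 ^ (6 / 5 : ℝ) := ⟨_, rfl⟩
      have hc0 : 0 ≤ c := by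
        rw [hc]
        positivity
      have hRr : 0 ≤ R ^ (6 / 5 : ℝ) := Real.rpow_nonneg hR _
      refine ⟨2 * M ^ 6 + 2 * R ^ 6 + 3 * c, R ^ (6 / 5 : ℝ) + 1, by positivity, by positivity, ?_⟩
      filter_upwards [ae_restrict_mem hK.measurableSet] with x hx
      have hgx := hg0 x
      have hgr : 0 ≤ g x ^ (6 / 5 : ℝ) := Real.rpow_nonneg hgx _
      obtain ⟨a, ha⟩ : ∃ a : ℝ, a = g x ^ (6 / 5 : ℝ) := ⟨_, rfl⟩
      obtain ⟨w, hw⟩ : ∃ w : ℝ, w = ‖u x‖ ^ 6 := ⟨_, rfl⟩
      have hw0 : 0 ≤ w := by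
        rw [hw]
        positivity
      have hk : |⟪u x, curl α x⟫| ≤ R * ‖u x‖ := by
        refine (abs_real_inner_le_norm _ _).trans ?_
        rw [mul_comm]
        exact mul_le_mul_of_nonneg_right (hb x hx).2.2.2 (norm_nonneg _)
      obtain ⟨Q, hQ⟩ : ∃ Q : ℝ, Q = ‖u x‖ ^ 6 - g x * ⟪u x, curl α x⟫ + (R ^ (6 / 5 : ℝ) + 1) * g x ^ (6 / 5 : ℝ) :=
        ⟨_, rfl⟩
      have hy := young6 hR hgx (norm_nonneg (u x))
      have hgk : g x * ⟪u x, curl α x⟫ ≤ R * g x * ‖u x‖ := by
        calc g x * ⟪u x, curl α x⟫ ≤ g x * |⟪u x, curl α x⟫| :=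
              mul_le_mul_of_nonneg_left (le_abs_self _) hgx
          _ ≤ g x * (R * ‖u x‖) := mul_le_mul_of_nonneg_left hk hgx
          _ = R * g x * ‖u x‖ := by ring
      rw [← ha, ← hw] at hy
      rw [← ha, ← hw] at hQ
      rw [← ha] at hgr
      have hQw : w + a ≤ 3 * Q ∧ w ≤ 2 * Q := by
        constructor
        · rw [hQ]
          nlinarith
        · rw [hQ]
          nlinarith
      have hQ0 : 0 ≤ Q := by linarith [hQw.2]
      have hM6 : 0 ≤ M ^ 6 := by positivity
      have hR6 : 0 ≤ R ^ 6 := by positivity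
      have h6 : (6 : ℝ) = ((6 : ℕ) : ℝ) := by norm_num
      rw [← ha, ← hw, ← hQ]
      refine ⟨?_, ?_, ?_⟩
      · have e1 : ‖cr (α x) (u x)‖ ≤ M * ‖u x‖ :=
          (norm_cr_le _ _).trans (mul_le_mul_of_nonneg_right (hb x hx).2.1 (norm_nonneg _))
        have e2 : ‖cr (α x) (u x)‖ ^ (6 : ℝ) ≤ M ^ 6 * w := by
          rw [h6, Real.rpow_natCast, hw, ← mul_pow]
          exact pow_le_pow_left₀ (norm_nonneg _) e1 6
        have e3 : M ^ 6 * w ≤ M ^ 6 * (2 * Q) := mul_le_mul_of_nonneg_left hQw.2 hM6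
        have e4 : 0 ≤ (2 * R ^ 6 + 3 * c) * Q := by positivity
        linarith
      · have e2 : |⟪u x, curl α x⟫| ^ (6 : ℝ) ≤ R ^ 6 * w := by
          rw [h6, Real.rpow_natCast, hw, ← mul_pow]
          exact pow_le_pow_left₀ (abs_nonneg _) hk 6
        have e3 : R ^ 6 * w ≤ R ^ 6 * (2 * Q) := mul_le_mul_of_nonneg_left hQw.2 hR6
        have e4 : 0 ≤ (2 * M ^ 6 + 3 * c) * Q := by positivity
        linarith
      · have e1 := norm_hG_le (C := V) hm (hb x hx).1 (hb x hx).2.2.1 (hb x hx).2.2.2 hgx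
        have e2 : ‖hG α g V x‖ ^ (6 / 5 : ℝ) ≤
            ((m⁻¹ * (1 + D) * (1 + R)) * (‖V x‖ + g x)) ^ (6 / 5 : ℝ) :=
          Real.rpow_le_rpow (norm_nonneg _) e1 (by norm_num)
        rw [Real.mul_rpow (by positivity) (by positivity)] at e2
        have e3 := rp_add (norm_nonneg (V x)) hgx
        have e4 : ‖V x‖ ^ (6 / 5 : ℝ) = ‖u x‖ ^ 6 := norm_V_rpow (u x)
        rw [e4, ← ha, ← hw] at e3
        have e5 : (m⁻¹ * (1 + D) * (1 + R)) ^ (6 / 5 : ℝ) * (‖V x‖ + g x) ^ (6 / 5 : ℝ) ≤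
            (m⁻¹ * (1 + D) * (1 + R)) ^ (6 / 5 : ℝ) * (2 ^ (6 / 5 : ℝ) * (w + a)) :=
          mul_le_mul_of_nonneg_left e3 (by positivity)
        have e6 : (m⁻¹ * (1 + D) * (1 + R)) ^ (6 / 5 : ℝ) * (2 ^ (6 / 5 : ℝ) * (w + a)) = c * (w + a) := by
          rw [hc]
          ring
        have e7 : c * (w + a) ≤ c * (3 * Q) := mul_le_mul_of_nonneg_left hQw.1 hc0
        have e8 : 0 ≤ (2 * M ^ 6 + 2 * R ^ 6) * Q := by positivity
        calc _ ≤ _ := e2
          _ ≤ _ := e5
          _ = _ := e6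
          _ ≤ c * (3 * Q) := e7
          _ ≤ (2 * M ^ 6 + 2 * R ^ 6 + 3 * c) * Q := by linarith
  -- the field vanishes on a ball
  have hUO : IsOpen (U ∩ O) := hU.inter hO
  have hz' : ∀ᵐ x ∂(volume.restrict (U ∩ O)), g x = 0 := by
    have h3 : ∀ᵐ x ∂(volume.restrict (U ∩ O)), u x = 0 :=
      ae_mono (Measure.restrict_mono_set _ inter_subset_left) hz
    have h4 : ∀ᵐ x ∂(volume.restrict (U ∩ O)), B x = 0 :=
      wc_zero hUO (fun K hK hKO => hB1 K hK (hKO.trans inter_subset_right))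
        (wc_mono inter_subset_right h1) h3
    filter_upwards [h4] with x hx
    show quo B α x = 0
    unfold quo
    rw [hx, inner_zero_left, zero_div, max_self]
  have hne' : ((U ∩ O) ∩ O).Nonempty := by
    obtain ⟨y, hy⟩ := hne
    exact ⟨y, hy, hy.2⟩
  have hgz := smp hO hOc hS hUO hne' hz'
  have hBz : ∀ᵐ x ∂(volume.restrict O), B x = 0 := by
    filter_upwards [hgz, hBg] with x hx hy
    rw [hy, hx, zero_smul]
  have hVz := wc_zero hO hV1 h2 hBz
  filter_upwards [hVz] with x hx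
  have h5 : ‖V x‖ = 0 := by
    have h6 : V x = 0 := hx
    rw [h6, norm_zero]
  rw [hV] at h5
  simp only [norm_V] at h5
  exact norm_eq_zero.1 (pow_eq_zero_iff (by norm_num) |>.1 h5)

end Pool.CQ.I
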