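import Pool.Agent.Lib.MP_cd5b91_an.CQ.IWG
import Pool.Agent.Lib.MP_cd5b91_an.CQ.HOrth

/-!
# CQ-IOrth: the component of `curl (ψ α)` along `α`; bounds
-/

open MeasureTheory Filter Topology Set
open scoped ContDiff RealInnerProductSpace ENNReal

namespace Pool.CQ.I

open Pool.CQ.G Pool.CQ.H

/-- the component of `curl (ψ α)` along `α` -/
theorem orth1 {O : Set E} (hO : IsOpen O) {α : E → E} (hα : ContDiffOn ℝ 1 α O)
    {ψ : E → ℝ} {C : E → E} (hψ : LpL 1 O ψ) (hC : LpL 1 O C)
    (h : WC O (fun x => ψ x • α x) C) :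
    ∀ᵐ x ∂(volume.restrict O), ⟪C x, α x⟫ - ψ x * ⟪α x, curl α x⟫ = 0 := by
  have hcu := cn_curl hO hα
  have hac : ContinuousOn (fun x => ⟪α x, curl α x⟫) O := hα.continuousOn.inner hcu
  refine (ae_restrict_iff' hO.measurableSet).2 ?_
  refine hO.ae_eq_zero_of_integral_contDiff_smul_eq_zero ?_ ?_
  · rw [locallyIntegrableOn_iff hO.isLocallyClosed]
    intro K hKO hK
    have hKm := hK.measurableSet
    have ha : AEStronglyMeasurable α (volume.restrict K) :=
      (hα.continuousOn.mono hKO).aestronglyMeasurable hKm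
    have hb : AEStronglyMeasurable (fun x => ⟪α x, curl α x⟫) (volume.restrict K) :=
      (hac.mono hKO).aestronglyMeasurable hKm
    obtain ⟨M, hM⟩ := hK.exists_bound_of_continuousOn (hα.continuousOn.mono hKO)
    obtain ⟨M', hM'⟩ := hK.exists_bound_of_continuousOn (hac.mono hKO)
    have h1 : Integrable C (volume.restrict K) := memLp_one_iff_integrable.1 (hC K hK hKO)
    have h2 : Integrable ψ (volume.restrict K) := memLp_one_iff_integrable.1 (hψ K hK hKO)
    refine Integrable.sub ?_ ?_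
    · refine Integrable.mono' (g := fun x => M * ‖C x‖) (h1.norm.const_mul M) (h1.1.inner ha) ?_
      filter_upwards [ae_restrict_mem hKm] with x hx
      refine (norm_inner_le_norm _ _).trans ?_
      rw [mul_comm]
      exact mul_le_mul_of_nonneg_right (hM x hx) (norm_nonneg _)
    · refine h2.mul_bdd (c := M') hb ?_
      filter_upwards [ae_restrict_mem hKm] with x hx
      exact hM' x hx
  · intro η hη hηc hηO
    have hS : T1 O η := t1_of ⟨hη, hηc, hηO⟩
    have hF := f1_smul hO hα hS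
    have h1 := wc_c1 hO (lpl_smul hα.continuousOn hψ) hC h hF.1 hF.2.1 hF.2.2
    have h2 : ∀ x, ⟪ψ x • α x, curl (fun y => η y • α y) x⟫ = ψ x * (η x * ⟪α x, curl α x⟫) := by
      intro x
      rw [curl_smul_on hO hα hS, real_inner_smul_left, inner_add_right, real_inner_smul_right,
        real_inner_comm, inner_cr]
      have h3 : cr (α x) (α x) = 0 := by
        ext i
        fin_cases i
        · change α x 1 * α x 2 - α x 2 * α x 1 = 0
          ring
        · change α x 2 * α x 0 - α x 0 * α x 2 = 0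
          ring
        · change α x 0 * α x 1 - α x 1 * α x 0 = 0
          ring
      rw [h3, inner_zero_right, zero_add]
    simp only [h2] at h1
    have i1 : Integrable (fun x => ψ x * (η x * ⟪α x, curl α x⟫)) :=
      int_t0 hψ (t0_mul hO hac (t0_of hS))
    have i4 : Integrable (fun x => ⟪C x, η x • α x⟫) := by
      have h3 : ∀ i : Fin 3, Integrable (fun x => C x i * (η x * α x i)) := fun i =>
        int_t0 (lpl_coord hC i) (t0_mul hO (cd_coord hα i).continuousOn (t0_of hS))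
      have h4 : (fun x => ⟪C x, η x • α x⟫) =
          fun x => C x 0 * (η x * α x 0) + C x 1 * (η x * α x 1) + C x 2 * (η x * α x 2) := by
        funext x
        rw [Pool.CQ.H.inner3]
        rfl
      rw [h4]
      exact ((h3 0).add (h3 1)).add (h3 2)
    have h5 : ∫ x, η x • (⟪C x, α x⟫ - ψ x * ⟪α x, curl α x⟫) =
        ∫ x, (⟪C x, η x • α x⟫ - ψ x * (η x * ⟪α x, curl α x⟫)) := by
      refine integral_congr_ae (Eventually.of_forall fun x => ?_)
      show η x • (⟪C x, α x⟫ - ψ x * ⟪α x, curl α x⟫) =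
        ⟪C x, η x • α x⟫ - ψ x * (η x * ⟪α x, curl α x⟫)
      rw [real_inner_smul_right, smul_eq_mul]
      ring
    rw [h5, integral_sub i4 i1, h1, sub_self]

/-- bounds on a compact set -/
theorem bounds1 {O : Set E} (hO : IsOpen O) {α : E → E} (hα : ContDiffOn ℝ 1 α O)
    (h0 : ∀ x ∈ O, α x ≠ 0) {K : Set E} (hK : IsCompact K) (hKO : K ⊆ O) :
    ∃ m M D R : ℝ, 0 < m ∧ 0 < M ∧ 0 ≤ D ∧ 0 ≤ R ∧
      ∀ x ∈ K, m ≤ ‖α x‖ ∧ ‖α x‖ ≤ M ∧ |dv α x| ≤ D ∧ ‖curl α x‖ ≤ R := by
  have hc : ContinuousOn α K := hα.continuousOn.mono hKO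
  obtain ⟨M, hM⟩ := hK.exists_bound_of_continuousOn hc
  obtain ⟨D, hD⟩ := hK.exists_bound_of_continuousOn ((cn_dv hO hα).mono hKO)
  obtain ⟨R, hR⟩ := hK.exists_bound_of_continuousOn ((cn_curl hO hα).mono hKO)
  obtain ⟨I, hI⟩ := hK.exists_bound_of_continuousOn ((cd_inv hα h0).continuousOn.mono hKO)
  refine ⟨(|I| + 1)⁻¹, |M| + 1, |D|, |R|, by positivity, by positivity, abs_nonneg _, abs_nonneg _,
    fun x hx => ?_⟩
  have hp : 0 < ‖α x‖ := norm_pos_iff.2 (h0 x (hKO hx))
  refine ⟨?_, ?_, ?_, ?_⟩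
  · have h1 : (‖α x‖ ^ 2)⁻¹ ≤ |I| := by
      have := hI x hx
      rw [Real.norm_of_nonneg (by positivity)] at this
      exact this.trans (le_abs_self I)
    have h2 : (‖α x‖)⁻¹ ≤ |I| + 1 := by
      have h1' : ((‖α x‖)⁻¹) ^ 2 ≤ |I| := by
        rw [inv_pow]
        exact h1
      nlinarith [sq_nonneg ((‖α x‖)⁻¹ - 1), abs_nonneg I, inv_pos.2 hp]
    calc (|I| + 1)⁻¹ ≤ ((‖α x‖)⁻¹)⁻¹ := inv_anti₀ (by positivity) h2
      _ = ‖α x‖ := inv_inv _
  · exact (hM x hx).trans ((le_abs_self M).trans (by linarith))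
  · have := hD x hx
    rw [Real.norm_eq_abs] at this
    exact this.trans (le_abs_self D)
  · exact (hR x hx).trans (le_abs_self R)

end Pool.CQ.I
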