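import Pool.Agent.Lib.MP_cd5b91_an.CQ.IOrth
import Pool.Agent.Lib.MP_cd5b91_an.CQ.HPos

/-!
# CQ-IPos: curl and divergence of `ψ α` from the weak gradient of `ψ`, `α` of class `C¹`
-/

open MeasureTheory Filter Topology Set
open scoped ContDiff RealInnerProductSpace ENNReal

namespace Pool.CQ.I

open Pool.CQ.G Pool.CQ.H

private theorem pd_combo {a b c d : E → ℝ} {x : E} (ha : DifferentiableAt ℝ a x)
    (hb : DifferentiableAt ℝ b x) (hc : DifferentiableAt ℝ c x) (hd : DifferentiableAt ℝ d x)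
    (i : Fin 3) : pd i (fun y => a y * c y - b y * d y) x =
      c x * pd i a x + a x * pd i c x - (d x * pd i b x + b x * pd i d x) := by
  have h1 : DifferentiableAt ℝ (fun y => a y * c y) x := ha.mul hc
  have h2 : DifferentiableAt ℝ (fun y => b y * d y) x := hb.mul hd
  unfold pd
  rw [fderiv_fun_sub h1 h2, fderiv_fun_mul ha hc, fderiv_fun_mul hb hd]
  change (a x * (fderiv ℝ c x _) + c x * (fderiv ℝ a x _)) -
    (b x * (fderiv ℝ d x _) + d x * (fderiv ℝ b x _)) = _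
  ring

private theorem pd_mul {η ζ : E → ℝ} {x : E} (hη : DifferentiableAt ℝ η x) (hζ : DifferentiableAt ℝ ζ x)
    (i : Fin 3) : pd i (fun y => η y * ζ y) x = ζ x * pd i η x + η x * pd i ζ x := by
  unfold pd
  rw [fderiv_fun_mul hη hζ]
  change η x * (fderiv ℝ ζ x _) + ζ x * (fderiv ℝ η x _) = _
  ring

/-- the curl of `ψ α` from the weak gradient of `ψ` -/
theorem wc_of_wgrad1 {O : Set E} (hO : IsOpen O) {α : E → E} (hα : ContDiffOn ℝ 1 α O) {ψ : E → ℝ}
    {G : E → E} (hψ : LpL 1 O ψ) (hG : LpL 1 O G) (h : WGrad O ψ G) :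
    WC O (fun x => ψ x • α x) (fun x => cr (G x) (α x) + ψ x • curl α x) := by
  intro φ hφ
  have hφi := t1_coord (f1_of hφ)
  have hαi := cd_coord hα
  have hcu : ∀ i : Fin 3, ContinuousOn (fun x => curl α x i) O := fun i =>
    (EuclideanSpace.proj (𝕜 := ℝ) i).continuous.comp_continuousOn (cn_curl hO hα)
  have t0 : T1 O (fun x => φ x 1 * α x 2 - φ x 2 * α x 1) :=
    t1_sub (t1_mul hO (hαi 2) (hφi 1)) (t1_mul hO (hαi 1) (hφi 2))
  have t1 : T1 O (fun x => φ x 2 * α x 0 - φ x 0 * α x 2) :=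
    t1_sub (t1_mul hO (hαi 0) (hφi 2)) (t1_mul hO (hαi 2) (hφi 0))
  have t2 : T1 O (fun x => φ x 0 * α x 1 - φ x 1 * α x 0) :=
    t1_sub (t1_mul hO (hαi 1) (hφi 0)) (t1_mul hO (hαi 0) (hφi 1))
  have e0 := wgrad_c1 hO hψ hG h t0.1 t0.2.1 t0.2.2 0
  have e1 := wgrad_c1 hO hψ hG h t1.1 t1.2.1 t1.2.2 1
  have e2 := wgrad_c1 hO hψ hG h t2.1 t2.2.1 t2.2.2 2
  have i0 := int_t0 hψ (t0_pd t0 0)
  have i1 := int_t0 hψ (t0_pd t1 1)
  have i2 := int_t0 hψ (t0_pd t2 2)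
  have j0 := int_t0 (lpl_coord hG 0) (t0_of t0)
  have j1 := int_t0 (lpl_coord hG 1) (t0_of t1)
  have j2 := int_t0 (lpl_coord hG 2) (t0_of t2)
  have k0 := int_t0 hψ (t0_mul hO (hcu 0) (t0_of (hφi 0)))
  have k1 := int_t0 hψ (t0_mul hO (hcu 1) (t0_of (hφi 1)))
  have k2 := int_t0 hψ (t0_mul hO (hcu 2) (t0_of (hφi 2)))
  have u : ∀ (v : E → E) (x : E), curl v x 0 = pd 1 (fun y => v y 2) x - pd 2 (fun y => v y 1) x ∧
      curl v x 1 = pd 2 (fun y => v y 0) x - pd 0 (fun y => v y 2) x ∧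
        curl v x 2 = pd 0 (fun y => v y 1) x - pd 1 (fun y => v y 0) x := fun v x => ⟨rfl, rfl, rfl⟩
  have hp : ∀ x, ⟪ψ x • α x, curl φ x⟫ =
      (ψ x * pd 0 (fun x => φ x 1 * α x 2 - φ x 2 * α x 1) x
        + ψ x * pd 1 (fun x => φ x 2 * α x 0 - φ x 0 * α x 2) x
        + ψ x * pd 2 (fun x => φ x 0 * α x 1 - φ x 1 * α x 0) x) +
      (ψ x * (φ x 0 * curl α x 0) + ψ x * (φ x 1 * curl α x 1) + ψ x * (φ x 2 * curl α x 2)) := by
    intro x
    by_cases hx : x ∈ O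
    · have dφ : ∀ i : Fin 3, DifferentiableAt ℝ (fun x => φ x i) x := fun i =>
        (hφi i).1.contDiffAt.differentiableAt (by simp)
      have dt : ∀ i : Fin 3, DifferentiableAt ℝ (fun x => α x i) x := fun i =>
        ((hαi i).contDiffAt (hO.mem_nhds hx)).differentiableAt (by simp)
      rw [pd_combo (dφ 1) (dφ 2) (dt 2) (dt 1), pd_combo (dφ 2) (dφ 0) (dt 0) (dt 2),
        pd_combo (dφ 0) (dφ 1) (dt 1) (dt 0), real_inner_smul_left, Pool.CQ.H.inner3,
        (u φ x).1, (u φ x).2.1, (u φ x).2.2, (u α x).1, (u α x).2.1, (u α x).2.2]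
      ring
    · have hz : ∀ {f : E → ℝ}, T1 O f → ∀ i : Fin 3, pd i f x = 0 := by
        intro f hf i
        unfold pd
        rw [(ev0 hf.2.2 hx).fderiv_eq]
        simp
      rw [curl_off hφ hx, hz t0, hz t1, hz t2, test_off hφ hx]
      simp
  have hc : ∫ x, ⟪ψ x • α x, curl φ x⟫ =
      (∫ x, (ψ x * pd 0 (fun x => φ x 1 * α x 2 - φ x 2 * α x 1) x
        + ψ x * pd 1 (fun x => φ x 2 * α x 0 - φ x 0 * α x 2) x
        + ψ x * pd 2 (fun x => φ x 0 * α x 1 - φ x 1 * α x 0) x)) +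
      ∫ x, (ψ x * (φ x 0 * curl α x 0) + ψ x * (φ x 1 * curl α x 1) + ψ x * (φ x 2 * curl α x 2)) := by
    simp only [hp]
    exact integral_add ((i0.add i1).add i2) ((k0.add k1).add k2)
  have i01 : Integrable (fun x => ψ x * pd 0 (fun x => φ x 1 * α x 2 - φ x 2 * α x 1) x
        + ψ x * pd 1 (fun x => φ x 2 * α x 0 - φ x 0 * α x 2) x) := i0.add i1
  have j01 : Integrable (fun x => G x 0 * (φ x 1 * α x 2 - φ x 2 * α x 1) +
      G x 1 * (φ x 2 * α x 0 - φ x 0 * α x 2)) := j0.add j1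
  have hs : ∫ x, (ψ x * pd 0 (fun x => φ x 1 * α x 2 - φ x 2 * α x 1) x
        + ψ x * pd 1 (fun x => φ x 2 * α x 0 - φ x 0 * α x 2) x
        + ψ x * pd 2 (fun x => φ x 0 * α x 1 - φ x 1 * α x 0) x) =
      -∫ x, (G x 0 * (φ x 1 * α x 2 - φ x 2 * α x 1) + G x 1 * (φ x 2 * α x 0 - φ x 0 * α x 2) +
        G x 2 * (φ x 0 * α x 1 - φ x 1 * α x 0)) := by
    rw [integral_add i01 i2, integral_add i0 i1, integral_add j01 j2, integral_add j0 j1, e0, e1, e2]
    ring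
  have jn : Integrable (fun x => -(G x 0 * (φ x 1 * α x 2 - φ x 2 * α x 1) +
      G x 1 * (φ x 2 * α x 0 - φ x 0 * α x 2) + G x 2 * (φ x 0 * α x 1 - φ x 1 * α x 0))) :=
    ((j0.add j1).add j2).neg
  have kk : Integrable (fun x => ψ x * (φ x 0 * curl α x 0) + ψ x * (φ x 1 * curl α x 1) +
      ψ x * (φ x 2 * curl α x 2)) := (k0.add k1).add k2
  rw [hc, hs, ← integral_neg, ← integral_add jn kk]
  refine integral_congr_ae (Eventually.of_forall fun x => ?_)
  show -(G x 0 * (φ x 1 * α x 2 - φ x 2 * α x 1) + G x 1 * (φ x 2 * α x 0 - φ x 0 * α x 2) +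
        G x 2 * (φ x 0 * α x 1 - φ x 1 * α x 0)) +
      (ψ x * (φ x 0 * curl α x 0) + ψ x * (φ x 1 * curl α x 1) + ψ x * (φ x 2 * curl α x 2)) =
    ⟪cr (G x) (α x) + ψ x • curl α x, φ x⟫
  rw [Pool.CQ.H.inner3]
  change _ = ((G x 1 * α x 2 - G x 2 * α x 1) + ψ x * curl α x 0) * φ x 0 +
    ((G x 2 * α x 0 - G x 0 * α x 2) + ψ x * curl α x 1) * φ x 1 +
    ((G x 0 * α x 1 - G x 1 * α x 0) + ψ x * curl α x 2) * φ x 2
  ring

/-- the divergence of `ψ α` from the weak gradient of `ψ` -/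
theorem div_of_wgrad1 {O : Set E} (hO : IsOpen O) {α : E → E} (hα : ContDiffOn ℝ 1 α O) {ψ : E → ℝ}
    {G : E → E} (hψ : LpL 1 O ψ) (hG : LpL 1 O G) (h : WGrad O ψ G) {f : E → ℝ} (hf : STest O f) :
    ∫ x, ⟪ψ x • α x, gr f x⟫ = -∫ x, (⟪G x, α x⟫ + ψ x * dv α x) * f x := by
  have hαi := cd_coord hα
  have t : ∀ i, T1 O (fun x => f x * α x i) := fun i => t1_mul hO (hαi i) (t1_of hf)
  have e := fun i => wgrad_c1 hO hψ hG h (t i).1 (t i).2.1 (t i).2.2 i
  have i := fun i => int_t0 hψ (t0_pd (t i) i)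
  have j := fun i => int_t0 (lpl_coord hG i) (t0_of (t i))
  have k : Integrable (fun x => ψ x * (f x * dv α x)) :=
    int_t0 hψ (t0_mul hO (cn_dv hO hα) (t0_of (t1_of hf)))
  have hp : ∀ x, ⟪ψ x • α x, gr f x⟫ =
      (ψ x * pd 0 (fun x => f x * α x 0) x + ψ x * pd 1 (fun x => f x * α x 1) x
        + ψ x * pd 2 (fun x => f x * α x 2) x) - ψ x * (f x * dv α x) := by
    intro x
    by_cases hx : x ∈ O
    · have df : DifferentiableAt ℝ f x := hf.1.contDiffAt.differentiableAt (by simp)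
      have dt : ∀ i : Fin 3, DifferentiableAt ℝ (fun x => α x i) x := fun i =>
        ((hαi i).contDiffAt (hO.mem_nhds hx)).differentiableAt (by simp)
      rw [pd_mul df (dt 0), pd_mul df (dt 1), pd_mul df (dt 2), real_inner_smul_left, Pool.CQ.H.inner3]
      unfold dv
      change ψ x * (α x 0 * pd 0 f x + α x 1 * pd 1 f x + α x 2 * pd 2 f x) = _
      ring
    · have hz : ∀ {f : E → ℝ}, T1 O f → ∀ i : Fin 3, pd i f x = 0 := by
        intro f hf i
        unfold pd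
        rw [(ev0 hf.2.2 hx).fderiv_eq]
        simp
      have hf0 : f x = 0 := (ev0 hf.2.2 hx).eq_of_nhds
      rw [hz (t 0), hz (t 1), hz (t 2), test_off (test_gr hf) hx, hf0]
      simp
  have i01 : Integrable (fun x => ψ x * pd 0 (fun x => f x * α x 0) x +
      ψ x * pd 1 (fun x => f x * α x 1) x) := (i 0).add (i 1)
  have i012 : Integrable (fun x => ψ x * pd 0 (fun x => f x * α x 0) x +
      ψ x * pd 1 (fun x => f x * α x 1) x + ψ x * pd 2 (fun x => f x * α x 2) x) := i01.add (i 2)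
  have j01 : Integrable (fun x => G x 0 * (f x * α x 0) + G x 1 * (f x * α x 1)) := (j 0).add (j 1)
  have j012 : Integrable (fun x => G x 0 * (f x * α x 0) + G x 1 * (f x * α x 1) +
      G x 2 * (f x * α x 2)) := j01.add (j 2)
  simp only [hp]
  rw [integral_sub i012 k, integral_add i01 (i 2), integral_add (i 0) (i 1), e 0, e 1, e 2]
  have h1 : ∫ x, (⟪G x, α x⟫ + ψ x * dv α x) * f x =
      ∫ x, ((G x 0 * (f x * α x 0) + G x 1 * (f x * α x 1) + G x 2 * (f x * α x 2)) +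
        ψ x * (f x * dv α x)) := by
    refine integral_congr_ae (Eventually.of_forall fun x => ?_)
    show (⟪G x, α x⟫ + ψ x * dv α x) * f x = _
    rw [Pool.CQ.H.inner3]
    ring
  rw [h1, integral_add j012 k, integral_add j01 (j 2), integral_add (j 0) (j 1)]
  ring

end Pool.CQ.I
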