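import Pool.Agent.Lib.MP_cd5b91_an.CQ.IPos
import Pool.Agent.Lib.MP_cd5b91_an.CQ.HPosG

/-!
# CQ-IPosG: curl and divergence of the positive part of a field `g β` with direction `β` of class `C¹`
-/

open MeasureTheory Filter Topology Set
open scoped ContDiff RealInnerProductSpace ENNReal

namespace Pool.CQ.I

open Pool.CQ.G Pool.CQ.H

private theorem norm_hG_abs {α : E → E} {ψ : E → ℝ} {C : E → E} {x : E} {m D R : ℝ} (hm : 0 < m)
    (h1 : m ≤ ‖α x‖) (h2 : |dv α x| ≤ D) (h3 : ‖curl α x‖ ≤ R) :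
    ‖hG α ψ C x‖ ≤ (m⁻¹ * (1 + D) * (1 + R)) * (‖C x‖ + |ψ x|) := by
  have hp : 0 < ‖α x‖ := hm.trans_le h1
  have hD : 0 ≤ D := (abs_nonneg _).trans h2
  have hR : 0 ≤ R := (norm_nonneg _).trans h3
  have hi : ‖α x‖⁻¹ ≤ m⁻¹ := inv_anti₀ hm h1
  have hm' : 0 < m⁻¹ := inv_pos.2 hm
  have hψ := abs_nonneg (ψ x)
  have hC := norm_nonneg (C x)
  have h5 : ‖C x - ψ x • curl α x‖ ≤ ‖C x‖ + R * |ψ x| := by
    refine (norm_sub_le _ _).trans ?_
    rw [norm_smul, Real.norm_eq_abs, mul_comm |ψ x|]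
    have := mul_le_mul_of_nonneg_right h3 hψ
    linarith
  unfold hG gG
  refine (norm_sub_le _ _).trans ?_
  rw [norm_smul, norm_smul, Real.norm_of_nonneg (by positivity : (0 : ℝ) ≤ (‖α x‖ ^ 2)⁻¹),
    Real.norm_eq_abs, abs_mul, abs_mul, abs_of_nonneg (by positivity : (0 : ℝ) ≤ (‖α x‖ ^ 2)⁻¹)]
  have e1 : (‖α x‖ ^ 2)⁻¹ * ‖cr (α x) (C x - ψ x • curl α x)‖ ≤ m⁻¹ * (‖C x‖ + R * |ψ x|) := by
    calc (‖α x‖ ^ 2)⁻¹ * ‖cr (α x) (C x - ψ x • curl α x)‖
        ≤ (‖α x‖ ^ 2)⁻¹ * (‖α x‖ * ‖C x - ψ x • curl α x‖) :=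
          mul_le_mul_of_nonneg_left (norm_cr_le _ _) (by positivity)
      _ = ‖α x‖⁻¹ * ‖C x - ψ x • curl α x‖ := by field_simp
      _ ≤ m⁻¹ * (‖C x‖ + R * |ψ x|) := mul_le_mul hi h5 (norm_nonneg _) hm'.le
  have e2 : |ψ x| * |dv α x| * (‖α x‖ ^ 2)⁻¹ * ‖α x‖ ≤ m⁻¹ * D * |ψ x| := by
    calc |ψ x| * |dv α x| * (‖α x‖ ^ 2)⁻¹ * ‖α x‖ = ‖α x‖⁻¹ * |dv α x| * |ψ x| := by
          field_simp
      _ ≤ m⁻¹ * D * |ψ x| := by gcongr
  have e3 : 0 ≤ m⁻¹ * D * R * (‖C x‖ + |ψ x|) := by positivity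
  have e4 : 0 ≤ m⁻¹ * D * ‖C x‖ := by positivity
  have e5 : 0 ≤ m⁻¹ * R * ‖C x‖ := by positivity
  have e6 : 0 ≤ m⁻¹ * |ψ x| := by positivity
  calc _ ≤ m⁻¹ * (‖C x‖ + R * |ψ x|) + m⁻¹ * D * |ψ x| := add_le_add e1 e2
    _ ≤ _ := by nlinarith

theorem lpl_hG1 {O : Set E} (hO : IsOpen O) {α : E → E} (hα : ContDiffOn ℝ 1 α O)
    (h0 : ∀ x ∈ O, α x ≠ 0) {g : E → ℝ} {V : E → E} (hg : LpL 1 O g) (hV : LpL 1 O V) :
    LpL 1 O (hG α g V) := by
  intro K hK hKO
  obtain ⟨m, M, D, R, hm, hM, hD, hR, hb⟩ := bounds1 hO hα h0 hK hKO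
  have hKm := hK.measurableSet
  have hαK : AEStronglyMeasurable α (volume.restrict K) :=
    (hα.continuousOn.mono hKO).aestronglyMeasurable hKm
  have hcK : AEStronglyMeasurable (curl α) (volume.restrict K) :=
    ((cn_curl hO hα).mono hKO).aestronglyMeasurable hKm
  have hdv : AEStronglyMeasurable (dv α) (volume.restrict K) :=
    ((cn_dv hO hα).mono hKO).aestronglyMeasurable hKm
  have hin : AEStronglyMeasurable (fun x => (‖α x‖ ^ 2)⁻¹) (volume.restrict K) :=
    ((cd_inv hα h0).continuousOn.mono hKO).aestronglyMeasurable hKm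
  have hme : AEStronglyMeasurable (hG α g V) (volume.restrict K) :=
    (hin.smul (aesm_cr hαK ((hV K hK hKO).1.sub ((hg K hK hKO).1.smul hcK)))).sub
      ((((hg K hK hKO).1.mul hdv).mul hin).smul hαK)
  refine MemLp.mono (((hV K hK hKO).norm.add (hg K hK hKO).norm).const_mul
    (m⁻¹ * (1 + D) * (1 + R))) hme ?_
  filter_upwards [ae_restrict_mem hKm] with x hx
  have h3 := norm_hG_abs (ψ := g) (C := V) hm (hb x hx).1 (hb x hx).2.2.1 (hb x hx).2.2.2
  refine h3.trans (le_of_eq ?_)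
  have h4 : 0 ≤ m⁻¹ * (1 + D) * (1 + R) * (‖V x‖ + ‖g x‖) := by positivity
  exact (Real.norm_of_nonneg h4).symm

/-- curl and divergence of the positive part of `s g α` -/
theorem pos_gen1 {O : Set E} (hO : IsOpen O) {α : E → E} (hα : ContDiffOn ℝ 1 α O)
    (h0 : ∀ x ∈ O, α x ≠ 0) {g : E → ℝ} {V : E → E} (hg : LpL 1 O g) (hV : LpL 1 O V)
    (hW : WC O (fun x => g x • α x) V)
    (hd : ∀ f : E → ℝ, STest O f → ∫ x, ⟪g x • α x, gr f x⟫ = 0) (s : ℝ) :
    WC O (fun x => posf (fun y => s * g y) x • α x) (cutp (fun y => s * g y) (fun x => s • V x)) ∧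
      ∀ f : E → ℝ, STest O f → ∫ x, ⟪posf (fun y => s * g y) x • α x, gr f x⟫ = 0 := by
  have hwg : WGrad O g (hG α g V) := wgrad1 hO hα h0 hg hV hW hd
  have hLG : LpL 1 O (hG α g V) := lpl_hG1 hO hα h0 hg hV
  have hgs : LpL 1 O (fun x => s * g x) := fun K hK hKO => (hg K hK hKO).const_mul s
  have hGs : LpL 1 O (fun x => s • hG α g V x) := fun K hK hKO => (hLG K hK hKO).const_smul s
  have hwp := wgrad_pos hO hgs hGs (wgrad_smul hwg s)
  have hLp := lpl_posf hgs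
  have hLc := lpl_cutp hgs hGs
  have horth := orth1 hO hα hg hV hW
  refine ⟨?_, ?_⟩
  · refine wc_congr_right hO (wc_of_wgrad1 hO hα hLp hLc hwp) ?_
    filter_upwards [horth, ae_restrict_mem hO.measurableSet] with x hx hxO
    have h1 := cr_hG (h0 x hxO) hx
    unfold cutp posf
    by_cases hs : 0 < s * g x
    · rw [if_pos hs, if_pos hs, max_eq_left hs.le]
      show cr (s • hG α g V x) (α x) + (s * g x) • curl α x = s • V x
      rw [← h1, smul_add, smul_smul]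
      congr 1
      ext i
      fin_cases i
      · change s * hG α g V x 1 * α x 2 - s * hG α g V x 2 * α x 1 =
          s * (hG α g V x 1 * α x 2 - hG α g V x 2 * α x 1)
        ring
      · change s * hG α g V x 2 * α x 0 - s * hG α g V x 0 * α x 2 =
          s * (hG α g V x 2 * α x 0 - hG α g V x 0 * α x 2)
        ring
      · change s * hG α g V x 0 * α x 1 - s * hG α g V x 1 * α x 0 =
          s * (hG α g V x 0 * α x 1 - hG α g V x 1 * α x 0)
        ring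
    · rw [if_neg hs, if_neg hs, max_eq_right (not_lt.1 hs), zero_smul, add_zero]
      show cr 0 (α x) = 0
      ext i
      fin_cases i
      · change (0 : ℝ) * α x 2 - 0 * α x 1 = 0
        ring
      · change (0 : ℝ) * α x 0 - 0 * α x 2 = 0
        ring
      · change (0 : ℝ) * α x 1 - 0 * α x 0 = 0
        ring
  · intro f hf
    rw [div_of_wgrad1 hO hα hLp hLc hwp hf]
    have h2 : ∫ x, (⟪cutp (fun y => s * g y) (fun x => s • hG α g V x) x, α x⟫ +
        posf (fun y => s * g y) x * dv α x) * f x = 0 := by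
      have h3 : (fun x => (⟪cutp (fun y => s * g y) (fun x => s • hG α g V x) x, α x⟫ +
        posf (fun y => s * g y) x * dv α x) * f x) = fun _ => 0 := by
        funext x
        by_cases hxO : x ∈ O
        · have h1 := inner_hG (g := g) (C := V) (h0 x hxO)
          unfold cutp posf
          by_cases hs : 0 < s * g x
          · rw [if_pos hs, max_eq_left hs.le, real_inner_smul_left]
            have : s * ⟪hG α g V x, α x⟫ + s * g x * dv α x =
              s * (⟪hG α g V x, α x⟫ + g x * dv α x) := by ring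
            rw [this, h1, mul_zero, zero_mul]
          · rw [if_neg hs, max_eq_right (not_lt.1 hs), inner_zero_left]
            ring
        · have hf0 : f x = 0 := (ev_zero hf hxO).eq_of_nhds
          rw [hf0, mul_zero]
      rw [h3, integral_zero]
    rw [h2, neg_zero]

end Pool.CQ.I
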