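import Pool.Agent.Lib.MP_cd5b91_an.CQ.IAlg

/-!
# CQ-IWG: the weak gradient of the coefficient `ψ` of a field `ψ α`, `α` of class `C¹`
-/

open MeasureTheory Filter Topology Set
open scoped ContDiff RealInnerProductSpace ENNReal

namespace Pool.CQ.I

open Pool.CQ.G Pool.CQ.H

theorem wgrad1 {O : Set E} (hO : IsOpen O) {α : E → E} (hα : ContDiffOn ℝ 1 α O)
    (h0 : ∀ x ∈ O, α x ≠ 0) {ψ : E → ℝ} {C : E → E}
    (hψ : LpL 1 O ψ) (hC : LpL 1 O C) (h : WC O (fun x => ψ x • α x) C)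
    (hd : ∀ f : E → ℝ, STest O f → ∫ x, ⟪ψ x • α x, gr f x⟫ = 0) : WGrad O ψ (hG α ψ C) := by
  intro η hη l
  obtain ⟨e, he⟩ : ∃ e : E, e = EuclideanSpace.single l (1 : ℝ) := ⟨_, rfl⟩
  obtain ⟨κ, hκ⟩ : ∃ κ : E → ℝ, κ = fun x => η x * (‖α x‖ ^ 2)⁻¹ := ⟨_, rfl⟩
  have hie : ∀ v : E, ⟪v, e⟫ = v l := fun v => by
    rw [he, EuclideanSpace.inner_single_right]
    simp
  have hη1 : T1 O η := t1_of hη
  have kS : T1 O κ := by
    rw [hκ]
    exact t1_mul hO (cd_inv hα h0) hη1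
  have hφ : F1 O (fun x => κ x • cr (α x) e) := f1_smul hO (cd_cr hα e) kS
  have hie2 : ContDiffOn ℝ 1 (fun x => ⟪α x, e⟫) O := by
    simp only [hie]
    exact cd_coord hα l
  have hf : T1 O (fun x => κ x * ⟪α x, e⟫) := t1_mul hO hie2 kS
  have hcc : ContinuousOn (fun x => ⟪curl α x, cr (α x) e⟫) O :=
    (cn_curl hO hα).inner (cd_cr hα e).continuousOn
  have hA : LpL 1 O (fun x => ψ x • α x) := lpl_smul hα.continuousOn hψ
  have h1 := wc_c1 hO hA hC h hφ.1 hφ.2.1 hφ.2.2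
  have h2 := div_c1 hO hA hd hf.1 hf.2.1 hf.2.2
  have hp : ∀ x, ψ x * pd l η x = ⟪ψ x • α x, curl (fun y => κ y • cr (α y) e) x⟫ +
      ⟪ψ x • α x, gr (fun y => κ y * ⟪α y, e⟫) x⟫ +
        (ψ x * (κ x * ⟪α x, e⟫ * dv α x) - ψ x * (κ x * ⟪curl α x, cr (α x) e⟫)) := by
    intro x
    by_cases hx : x ∈ O
    · have hev : η =ᶠ[𝓝 x] fun y => κ y * ‖α y‖ ^ 2 := by
        filter_upwards [hO.mem_nhds hx] with y hy
        have := norm_pos_iff.2 (h0 y hy)
        rw [hκ]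
        field_simp
      have h3 : pd l η x = ⟪e, gr (fun y => κ y * ‖α y‖ ^ 2) x⟫ := by
        rw [real_inner_comm, hie]
        have h4 : pd l η x = pd l (fun y => κ y * ‖α y‖ ^ 2) x := by
          unfold pd
          rw [hev.fderiv_eq]
        rw [h4]
        fin_cases l <;> rfl
      rw [h3, key (kS.1.contDiffAt.differentiableAt (by simp))
        ((hα.contDiffAt (hO.mem_nhds hx)).differentiableAt (by simp)) e,
        real_inner_smul_left, real_inner_smul_left]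
      ring
    · have h4 := ev0 kS.2.2 hx
      have h5 : pd l η x = 0 := by
        unfold pd
        rw [(ev0 hη.2.2 hx).fderiv_eq]
        simp
      have h6 : κ x = 0 := h4.eq_of_nhds
      rw [h5, h6, curl_ev, gr_ev]
      · simp
      · filter_upwards [h4] with y hy
        rw [hy, zero_mul]
      · filter_upwards [h4] with y hy
        rw [hy, zero_smul]
  have i0 : Integrable (fun x => ψ x * pd l η x) := int_t0 hψ (t0_pd hη1 l)
  have i1 : Integrable (fun x => ψ x * (κ x * ⟪α x, e⟫ * dv α x)) :=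
    int_t0 hψ (t0_mul hO (cn_dv hO hα) (t0_of hf))
  have i5 : Integrable (fun x => ψ x * (κ x * ⟪curl α x, cr (α x) e⟫)) :=
    int_t0 hψ (t0_mul hO hcc (t0_of kS))
  have i15 : Integrable (fun x => ψ x * (κ x * ⟪α x, e⟫ * dv α x) -
      ψ x * (κ x * ⟪curl α x, cr (α x) e⟫)) := i1.sub i5
  have i2 : Integrable (fun x => ⟪ψ x • α x, gr (fun y => κ y * ⟪α y, e⟫) x⟫) := by
    have h3 : ∀ i : Fin 3, Integrable
        (fun x => ψ x * (pd i (fun y => κ y * ⟪α y, e⟫) x * α x i)) := fun i =>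
      int_t0 hψ (t0_mul hO (cd_coord hα i).continuousOn (t0_pd hf i))
    have h4 : (fun x => ⟪ψ x • α x, gr (fun y => κ y * ⟪α y, e⟫) x⟫) =
        fun x => ψ x * (pd 0 (fun y => κ y * ⟪α y, e⟫) x * α x 0) +
          ψ x * (pd 1 (fun y => κ y * ⟪α y, e⟫) x * α x 1) +
            ψ x * (pd 2 (fun y => κ y * ⟪α y, e⟫) x * α x 2) := by
      funext x
      rw [real_inner_smul_left, Pool.CQ.H.inner3]
      change ψ x * (α x 0 * pd 0 (fun y => κ y * ⟪α y, e⟫) x +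
        α x 1 * pd 1 (fun y => κ y * ⟪α y, e⟫) x + α x 2 * pd 2 (fun y => κ y * ⟪α y, e⟫) x) = _
      ring
    rw [h4]
    exact ((h3 0).add (h3 1)).add (h3 2)
  have i3 : Integrable (fun x => ⟪ψ x • α x, curl (fun y => κ y • cr (α y) e) x⟫) := by
    have h4 : (fun x => ⟪ψ x • α x, curl (fun y => κ y • cr (α y) e) x⟫) =
        fun x => ψ x * pd l η x - ⟪ψ x • α x, gr (fun y => κ y * ⟪α y, e⟫) x⟫ -
          (ψ x * (κ x * ⟪α x, e⟫ * dv α x) - ψ x * (κ x * ⟪curl α x, cr (α x) e⟫)) := by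
      funext x
      rw [hp x]
      ring
    rw [h4]
    exact (i0.sub i2).sub i15
  have i4 : Integrable (fun x => ⟪C x, κ x • cr (α x) e⟫) := by
    have h3 : ∀ i : Fin 3, Integrable (fun x => C x i * (κ x * cr (α x) e i)) := fun i =>
      int_t0 (lpl_coord hC i) (t0_mul hO (cd_coord (cd_cr hα e) i).continuousOn (t0_of kS))
    have h4 : (fun x => ⟪C x, κ x • cr (α x) e⟫) =
        fun x => C x 0 * (κ x * cr (α x) e 0) + C x 1 * (κ x * cr (α x) e 1) +
          C x 2 * (κ x * cr (α x) e 2) := by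
      funext x
      rw [Pool.CQ.H.inner3]
      rfl
    rw [h4]
    exact ((h3 0).add (h3 1)).add (h3 2)
  have i32 : Integrable (fun x => ⟪ψ x • α x, curl (fun y => κ y • cr (α y) e) x⟫ +
      ⟪ψ x • α x, gr (fun y => κ y * ⟪α y, e⟫) x⟫) := i3.add i2
  have h3 : ∫ x, ψ x * pd l η x = ∫ x, (⟪C x, κ x • cr (α x) e⟫ +
      (ψ x * (κ x * ⟪α x, e⟫ * dv α x) - ψ x * (κ x * ⟪curl α x, cr (α x) e⟫))) := by
    rw [integral_add i4 i15, ← h1]
    simp only [hp]
    rw [integral_add i32 i15, integral_add i3 i2, h2, add_zero]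
  rw [h3, ← integral_neg]
  refine integral_congr_ae (Eventually.of_forall fun x => ?_)
  show ⟪C x, κ x • cr (α x) e⟫ + (ψ x * (κ x * ⟪α x, e⟫ * dv α x) -
    ψ x * (κ x * ⟪curl α x, cr (α x) e⟫)) = -(hG α ψ C x l * η x)
  have h5 : hG α ψ C x l = ⟪hG α ψ C x, e⟫ := (hie _).symm
  have h6 : ∀ D : E, ⟪cr (α x) D, e⟫ = -⟪D, cr (α x) e⟫ := by
    intro D
    rw [Pool.CQ.H.inner3, Pool.CQ.H.inner3]
    change (α x 1 * D 2 - α x 2 * D 1) * e 0 +
        (α x 2 * D 0 - α x 0 * D 2) * e 1 + (α x 0 * D 1 - α x 1 * D 0) * e 2 =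
      -(D 0 * (α x 1 * e 2 - α x 2 * e 1) + D 1 * (α x 2 * e 0 - α x 0 * e 2) +
      D 2 * (α x 0 * e 1 - α x 1 * e 0))
    ring
  rw [h5]
  unfold hG gG
  rw [inner_sub_left, real_inner_smul_left, real_inner_smul_left, real_inner_smul_right, h6,
    inner_sub_left, real_inner_smul_left, hκ]
  ring

end Pool.CQ.I
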