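import Pool.Agent.Lib.MP_cd5b91_an.CQ.Alg

/-!
# CQ-Rodr
-/

open MeasureTheory Filter Topology Set
open scoped ContDiff RealInnerProductSpace ENNReal

namespace Pool.CQ

private theorem Rodr_ext {a b : E} (h0 : a 0 = b 0) (h1 : a 1 = b 1) (h2 : a 2 = b 2) : a = b := by
  ext i
  fin_cases i
  · exact h0
  · exact h1
  · exact h2

private theorem Rodr_inner (a b : E) : ⟪a, b⟫ = a 0 * b 0 + a 1 * b 1 + a 2 * b 2 := by
  rw [PiLp.inner_apply, Fin.sum_univ_three]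
  simp only [RCLike.inner_apply, conj_trivial]
  ring

private theorem Rodr_cr0 (a b : E) : cr a b 0 = a 1 * b 2 - a 2 * b 1 := rfl
private theorem Rodr_cr1 (a b : E) : cr a b 1 = a 2 * b 0 - a 0 * b 2 := rfl
private theorem Rodr_cr2 (a b : E) : cr a b 2 = a 0 * b 1 - a 1 * b 0 := rfl

private theorem Rodr_add_left (a b c : E) : cr (a + b) c = cr a c + cr b c := by
  refine Rodr_ext ?_ ?_ ?_ <;>
    simp only [Rodr_cr0, Rodr_cr1, Rodr_cr2, PiLp.add_apply] <;> ring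

private theorem Rodr_add_right (a b c : E) : cr a (b + c) = cr a b + cr a c := by
  refine Rodr_ext ?_ ?_ ?_ <;>
    simp only [Rodr_cr0, Rodr_cr1, Rodr_cr2, PiLp.add_apply] <;> ring

private theorem Rodr_smul_left (t : ℝ) (a b : E) : cr (t • a) b = t • cr a b := by
  refine Rodr_ext ?_ ?_ ?_ <;>
    simp only [Rodr_cr0, Rodr_cr1, Rodr_cr2, PiLp.smul_apply, smul_eq_mul] <;> ring

private theorem Rodr_smul_right (t : ℝ) (a b : E) : cr a (t • b) = t • cr a b := by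
  refine Rodr_ext ?_ ?_ ?_ <;>
    simp only [Rodr_cr0, Rodr_cr1, Rodr_cr2, PiLp.smul_apply, smul_eq_mul] <;> ring

private theorem Rodr_self (a : E) : cr a a = 0 := by
  refine Rodr_ext ?_ ?_ ?_ <;>
    simp only [Rodr_cr0, Rodr_cr1, Rodr_cr2, PiLp.zero_apply] <;> ring

private theorem Rodr_perp {e : E} (he : ‖e‖ = 1) : ∃ f : E, ‖f‖ = 1 ∧ ⟪e, f⟫ = 0 := by
  have hee : e 0 * e 0 + e 1 * e 1 + e 2 * e 2 = 1 := by
    rw [← Rodr_inner, real_inner_self_eq_norm_sq, he, one_pow]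
  have hnorm : ∀ v : E, v ≠ 0 → ⟪e, v⟫ = 0 → ∃ f : E, ‖f‖ = 1 ∧ ⟪e, f⟫ = 0 := by
    intro v hv h0
    refine ⟨‖v‖⁻¹ • v, ?_, ?_⟩
    · rw [norm_smul, norm_inv, norm_norm, inv_mul_cancel₀ (norm_ne_zero_iff.2 hv)]
    · rw [inner_smul_right, h0, mul_zero]
  by_cases h1 : e 0 = 0 ∧ e 1 = 0
  · refine hnorm (!₂[1, 0, 0]) ?_ ?_
    · intro h
      have h2 := congrFun (congrArg (fun v : E => (v : Fin 3 → ℝ)) h) 0
      simp at h2
    · rw [Rodr_inner]
      simp [h1.1]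
  · refine hnorm (!₂[-e 1, e 0, 0]) ?_ ?_
    · intro h
      apply h1
      have h2 := congrFun (congrArg (fun v : E => (v : Fin 3 → ℝ)) h) 0
      have h3 := congrFun (congrArg (fun v : E => (v : Fin 3 → ℝ)) h) 1
      simp at h2 h3
      exact ⟨h3, h2⟩
    · rw [Rodr_inner]
      simp
      ring

theorem exists_frame {e : E} (he : ‖e‖ = 1) :
    ∃ L : E ≃ₗᵢ[ℝ] E, (∀ b c : E, cr (L b) (L c) = L (cr b c)) ∧
      ∀ (γ : ℝ) (x : E), L (rot γ (L.symm x)) = rodr e γ x := by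
  obtain ⟨f, hf, hef⟩ := Rodr_perp he
  obtain ⟨g, hg⟩ : ∃ g : E, g = cr e f := ⟨_, rfl⟩
  have hee : ⟪e, e⟫ = 1 := by rw [real_inner_self_eq_norm_sq, he, one_pow]
  have hff : ⟪f, f⟫ = 1 := by rw [real_inner_self_eq_norm_sq, hf, one_pow]
  have hfe : ⟪f, e⟫ = 0 := by rw [real_inner_comm]; exact hef
  have hgg : ⟪g, g⟫ = 1 := by rw [hg, inner_cr_cr, hee, hff, hef, hfe]; ring
  have hge : ⟪g, e⟫ = 0 := by
    rw [hg, Rodr_inner, Rodr_cr0, Rodr_cr1, Rodr_cr2]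
    ring
  have hgf : ⟪g, f⟫ = 0 := by
    rw [hg, Rodr_inner, Rodr_cr0, Rodr_cr1, Rodr_cr2]
    ring
  have heg : ⟪e, g⟫ = 0 := by rw [real_inner_comm]; exact hge
  have hfg : ⟪f, g⟫ = 0 := by rw [real_inner_comm]; exact hgf
  have c1 : cr g e = f := by rw [hg, cr_cr, hee, hfe, one_smul, zero_smul, sub_zero]
  have c2 : cr e g = -f := by rw [cr_anti, c1]
  have c3 : cr g f = -e := by rw [hg, cr_cr, hef, hff, one_smul, zero_smul, zero_sub]
  have c4 : cr f g = e := by rw [cr_anti, c3, neg_neg]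
  have c5 : cr f e = -g := by rw [cr_anti, hg]
  let ℓ : E →ₗ[ℝ] E :=
    { toFun := fun x => x 0 • f + x 1 • g + x 2 • e
      map_add' := by
        intro x y
        simp only [PiLp.add_apply]
        module
      map_smul' := by
        intro t x
        simp only [PiLp.smul_apply, smul_eq_mul, RingHom.id_apply]
        module }
  have hℓ : ∀ x : E, ℓ x = x 0 • f + x 1 • g + x 2 • e := fun _ => rfl
  have hinner : ∀ x : E, ⟪ℓ x, ℓ x⟫ = ⟪x, x⟫ := by
    intro x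
    rw [hℓ, Rodr_inner x x]
    simp only [inner_add_left, inner_add_right, real_inner_smul_left, real_inner_smul_right, hee, hff, hgg, hef, hfe,
      hge, hgf, heg, hfg]
    ring
  have hnorm : ∀ x : E, ‖ℓ x‖ = ‖x‖ := by
    intro x
    have h1 := hinner x
    rw [real_inner_self_eq_norm_sq, real_inner_self_eq_norm_sq] at h1
    exact (sq_eq_sq₀ (norm_nonneg _) (norm_nonneg _)).1 h1
  let li : E →ₗᵢ[ℝ] E := ⟨ℓ, hnorm⟩
  let L : E ≃ₗᵢ[ℝ] E := li.toLinearIsometryEquiv rfl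
  have hL : ∀ x : E, L x = x 0 • f + x 1 • g + x 2 • e := fun x => rfl
  refine ⟨L, ?_, ?_⟩
  · intro b c
    rw [hL, hL, hL, Rodr_cr0, Rodr_cr1, Rodr_cr2]
    simp only [Rodr_add_left, Rodr_add_right, Rodr_smul_left, Rodr_smul_right, Rodr_self, ← hg, c1, c2, c3, c4, c5]
    module
  · intro γ x
    obtain ⟨y, rfl⟩ : ∃ y, x = L y := ⟨L.symm x, (L.apply_symm_apply x).symm⟩
    rw [L.symm_apply_apply]
    have e1 : cr e (L y) = y 0 • g - y 1 • f := by
      rw [hL]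
      simp only [Rodr_add_right, Rodr_smul_right, Rodr_self, ← hg, c2]
      module
    have e2 : ⟪e, L y⟫ = y 2 := by
      rw [hL]
      simp only [inner_add_right, real_inner_smul_right, hef, heg, hee]
      ring
    unfold rodr
    rw [e1, e2, hL, hL]
    have r0 : rot γ y 0 = Real.cos γ * y 0 - Real.sin γ * y 1 := rfl
    have r1 : rot γ y 1 = Real.sin γ * y 0 + Real.cos γ * y 1 := rfl
    have r2 : rot γ y 2 = y 2 := rfl
    rw [r0, r1, r2]
    module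

end Pool.CQ
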