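import Pool.Agent.Lib.MP_cd5b91_an.CQ.KMove
import Pool.Agent.Lib.MP_cd5b91_an.CQ.Rodr

/-!
# CQ-KAxis: the symmetry classes about the axis through `a` with direction `e`
-/

open MeasureTheory Filter Topology Set
open scoped ContDiff RealInnerProductSpace ENNReal

namespace Pool.CQ

namespace K

private theorem ka_mp (L : E ≃ₗᵢ[ℝ] E) (a : E) :
    MeasurePreserving (fun x => L x + a) (volume : Measure E) volume :=
  (measurePreserving_add_right volume a).comp L.measurePreserving

private theorem ka_mp' (L : E ≃ₗᵢ[ℝ] E) (a : E) :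
    MeasurePreserving (fun x => L.symm (x - a)) (volume : Measure E) volume :=
  L.symm.measurePreserving.comp (measurePreserving_sub_right volume a)

private theorem ka_axi {e : E} {L : E ≃ₗᵢ[ℝ] E}
    (hr : ∀ (γ : ℝ) (x : E), L (rot γ (L.symm x)) = rodr e γ x) (a : E) (v : E → E) :
    Axi (mv L a v) ↔ AxiAt e a v := by
  have hr' : ∀ (γ : ℝ) (y : E), L (rot γ y) = rodr e γ (L y) := fun γ y => by
    have := hr γ (L y)
    rwa [L.symm_apply_apply] at this
  constructor
  · intro h γ
    have h1 := (ka_mp' L a).quasiMeasurePreserving.ae (h γ)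
    filter_upwards [h1] with x hx
    have h2 := congrArg L hx
    simp only [mv, L.apply_symm_apply, sub_add_cancel] at h2
    rw [hr', L.apply_symm_apply, hr', L.apply_symm_apply, add_comm] at h2
    exact h2
  · intro h γ
    have h1 := (ka_mp L a).quasiMeasurePreserving.ae (h γ)
    filter_upwards [h1] with x hx
    apply L.injective
    simp only [mv, L.apply_symm_apply]
    rw [hr', hr', L.apply_symm_apply, add_comm]
    have h2 : L x + a - a = L x := add_sub_cancel_right _ _
    rw [h2] at hx
    exact hx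

private theorem ka_T {e : E} {L : E ≃ₗᵢ[ℝ] E}
    (hr : ∀ (γ : ℝ) (x : E), L (rot γ (L.symm x)) = rodr e γ x) (y : E) :
    L (T y) = cr e (L y) := by
  have hr' : ∀ (γ : ℝ) (y : E), L (rot γ y) = rodr e γ (L y) := fun γ y => by
    have := hr γ (L y)
    rwa [L.symm_apply_apply] at this
  have h1 : T y = rot (Real.pi / 2) y - (1 / 2 : ℝ) • (y + rot Real.pi y) := by
    ext i
    fin_cases i <;> simp [T, rot] <;> ring
  rw [h1, map_sub, map_smul, map_add, hr', hr']
  simp only [rodr, Real.cos_pi_div_two, Real.sin_pi_div_two, Real.cos_pi, Real.sin_pi]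
  module

private theorem ka_pol {e : E} {L : E ≃ₗᵢ[ℝ] E}
    (hr : ∀ (γ : ℝ) (x : E), L (rot γ (L.symm x)) = rodr e γ x) (a : E) (v : E → E) :
    AxiPol (mv L a v) ↔ PolAt e a v := by
  have key : ∀ y : E, ⟪mv L a v y, T y⟫ = ⟪v (L y + a), cr e (L y + a - a)⟫ := fun y => by
    rw [add_sub_cancel_right, ← ka_T hr, ← L.inner_map_map]
    simp only [mv, L.apply_symm_apply]
  refine and_congr (ka_axi hr a v) ⟨fun h => ?_, fun h => ?_⟩
  · have h1 := (ka_mp' L a).quasiMeasurePreserving.ae h
    filter_upwards [h1] with x hx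
    rw [key] at hx
    simpa using hx
  · have h1 := (ka_mp L a).quasiMeasurePreserving.ae h
    filter_upwards [h1] with x hx
    rw [key]
    exact hx

private theorem ka_tor {e : E} {L : E ≃ₗᵢ[ℝ] E}
    (hr : ∀ (γ : ℝ) (x : E), L (rot γ (L.symm x)) = rodr e γ x) (a : E) (v : E → E) :
    AxiTor (mv L a v) ↔ TorAt e a v := by
  refine and_congr (ka_axi hr a v) ⟨fun h => ?_, fun h => ?_⟩
  · have h1 := (ka_mp' L a).quasiMeasurePreserving.ae h
    filter_upwards [h1] with x hx
    obtain ⟨t, ht⟩ : ∃ t : ℝ, mv L a v (L.symm (x - a)) = t • T (L.symm (x - a)) :=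
      ⟨_, hx.trans (by unfold th; rw [smul_smul])⟩
    refine ⟨t, ?_⟩
    have h2 := congrArg L ht
    rw [map_smul, ka_T hr, L.apply_symm_apply] at h2
    simp only [mv, L.apply_symm_apply, sub_add_cancel] at h2
    exact h2
  · have h1 := (ka_mp L a).quasiMeasurePreserving.ae h
    filter_upwards [h1, ae_Oax] with x hx hO
    obtain ⟨t, ht⟩ := hx
    rw [add_sub_cancel_right, ← ka_T hr] at ht
    have h2 : mv L a v x = t • T x := by
      unfold mv
      rw [ht, map_smul, L.symm_apply_apply]
    have h3 : th x = (rr x)⁻¹ • T x := rfl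
    rw [h2, real_inner_smul_left, h3, smul_smul, real_inner_self_eq_norm_sq, norm_T_sq,
      mul_assoc, mul_inv_cancel₀ (ne_of_gt hO), mul_one]

private theorem ka_low {K K' : (E → E) → Prop} {S : ℝ} {u B : E → E} (hKK : ∀ v, K v → K' v)
    (h : LowK K' S u B) : LowK K S u B :=
  ⟨h.sol, h.ne, h.pos, fun v C hv hw => h.sob v C (hKK v hv) hw, h.low⟩

/-- **Full support.**  Let `K` be the class of the axisymmetric, the poloidal axisymmetric or the
toroidal axisymmetric fields about some axis, and let the curl-Sobolev inequality hold for `K` with the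
constant `S > 0`.  Every nontrivial weak solution `u` in `K` with `∫ |u|⁶ < 2 S^{3/2}` (energy less than
twice the least energy) does not vanish a.e. on any nonempty open set. -/
theorem full_support_axis {e : E} (he : ‖e‖ = 1) (a : E) {K : (E → E) → Prop}
    (hKK : K = AxiAt e a ∨ K = PolAt e a ∨ K = TorAt e a) {S : ℝ} {u B : E → E} (hK : K u)
    (h : LowK K S u B) {O : Set E} (hO : IsOpen O) (hne : O.Nonempty) :
    ¬ ∀ᵐ x ∂(volume.restrict O), u x = 0 := by
  obtain ⟨L, hL, hr⟩ := exists_frame he
  rcases hKK with rfl | rfl | rfl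
  · exact full_support_class_move hL a (Or.inl rfl) ((ka_axi hr a u).2 hK)
      (ka_low (fun v hv => (ka_axi hr a v).1 hv) h) hO hne
  · exact full_support_class_move hL a (Or.inr (Or.inl rfl)) ((ka_pol hr a u).2 hK)
      (ka_low (fun v hv => (ka_pol hr a v).1 hv) h) hO hne
  · exact full_support_class_move hL a (Or.inr (Or.inr rfl)) ((ka_tor hr a u).2 hK)
      (ka_low (fun v hv => (ka_tor hr a v).1 hv) h) hO hne

/-- Ground states are of low energy, with `S = (∫ |u|⁶)^{2/3}`. -/
theorem low_of_gs {u B : E → E} (h : GS u B) (K : (E → E) → Prop) :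
    LowK K ((∫ x, ‖u x‖ ^ 6) ^ (2 / 3 : ℝ)) u B := by
  have hE := ws_pos h.sol h.ne
  refine ⟨h.sol, h.ne, Real.rpow_pos_of_pos hE _, fun v C _ hw => h.sob v C hw, ?_⟩
  rw [← Real.rpow_mul hE.le]
  norm_num
  linarith

/-- a ground state which is axisymmetric about some axis has full support -/
theorem full_support_gs {e : E} (he : ‖e‖ = 1) (a : E) {u B : E → E} (h : GS u B)
    (hu : AxiAt e a u) {O : Set E} (hO : IsOpen O) (hne : O.Nonempty) :
    ¬ ∀ᵐ x ∂(volume.restrict O), u x = 0 :=
  full_support_axis he a (Or.inl rfl) hu (low_of_gs h _) hO hne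

/-- **Sign criterion.**  Poloidal axisymmetric nontrivial weak solutions of any energy, whose azimuthal
vorticity `⟪B x, e × (x - a)⟫` does not change sign, have full support. -/
theorem full_sign_axis {e : E} (he : ‖e‖ = 1) (a : E) {u B : E → E} (hK : PolAt e a u)
    (h : WeakSol u B) (hn : ¬ (u =ᵐ[volume] fun _ => 0))
    (hs : (∀ᵐ x, 0 ≤ ⟪B x, cr e (x - a)⟫) ∨ (∀ᵐ x, ⟪B x, cr e (x - a)⟫ ≤ 0)) {O : Set E}
    (hO : IsOpen O) (hne : O.Nonempty) : ¬ ∀ᵐ x ∂(volume.restrict O), u x = 0 := by
  obtain ⟨L, hL, hr⟩ := exists_frame he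
  intro h0
  have hc : Continuous fun x => L x + a := by fun_prop
  have key : ∀ y : E, ⟪mv L a B y, T y⟫ = ⟪B (L y + a), cr e (L y + a - a)⟫ := fun y => by
    rw [add_sub_cancel_right, ← ka_T hr, ← L.inner_map_map]
    simp only [mv, L.apply_symm_apply]
  have h1 := full_sign ((ka_pol hr a u).2 hK) (km_sol hL a h) (km_ne L a hn)
    (by
      rcases hs with hs | hs
      · left
        filter_upwards [(ka_mp L a).quasiMeasurePreserving.ae hs] with x hx
        rw [key]
        exact hx
      · right
        filter_upwards [(ka_mp L a).quasiMeasurePreserving.ae hs] with x hx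
        rw [key]
        exact hx)
    (hO.preimage hc) (by
      obtain ⟨y, hy⟩ := hne
      refine ⟨L.symm (y - a), ?_⟩
      show L (L.symm (y - a)) + a ∈ O
      rw [L.apply_symm_apply, sub_add_cancel]
      exact hy)
  apply h1
  rw [ae_restrict_iff' (hO.preimage hc).measurableSet]
  rw [ae_restrict_iff' hO.measurableSet] at h0
  have h2 := (ka_mp L a).quasiMeasurePreserving.ae h0
  filter_upwards [h2] with x hx hxO
  unfold mv
  rw [hx hxO, map_zero]

end K

end Pool.CQ
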