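import Pool.Agent.Lib.MP_cd5b91_an.CQ.ThinA
import Pool.Agent.Lib.MP_cd5b91_an.CQ.Alg

/-!
# CQ-ThinN
-/

open MeasureTheory Filter Topology Set
open scoped ContDiff RealInnerProductSpace ENNReal

namespace Pool.CQ

private theorem lim_four : Tendsto (fun n : ℕ => (4 : ℝ) / ((n : ℝ) + 1)) atTop (𝓝 0) := by
  have h1 := tendsto_one_div_add_atTop_nhds_zero_nat (𝕜 := ℝ)
  have h2 := h1.const_mul 4
  rw [mul_zero] at h2
  refine h2.congr fun n => ?_
  ring

private theorem ev_off {Z : Set E} (hZ : IsClosed Z) {x : E} (hx : x ∉ Z) :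
    ∀ᶠ n : ℕ in atTop, x ∉ Metric.cthickening (4 / ((n : ℝ) + 1)) Z := by
  have h1 : 0 < Metric.infEDist x Z := by
    rw [pos_iff_ne_zero]
    intro h
    exact hx (hZ.closure_eq ▸ Metric.mem_closure_iff_infEDist_zero.2 h)
  have h2 : Tendsto (fun n : ℕ => ENNReal.ofReal (4 / ((n : ℝ) + 1))) atTop (𝓝 0) := by
    have h3 := ENNReal.tendsto_ofReal lim_four
    rwa [ENNReal.ofReal_zero] at h3
  filter_upwards [h2.eventually (gt_mem_nhds h1)] with n hn h3
  rw [Metric.mem_cthickening_iff] at h3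
  exact absurd h3 (not_le.2 hn)

private theorem meas_S (Z : Set E) (R : ℝ) (n : ℕ) :
    MeasurableSet (Metric.cthickening (4 / ((n : ℝ) + 1)) Z ∩ Metric.closedBall (0 : E) R) :=
  Metric.isClosed_cthickening.measurableSet.inter measurableSet_closedBall

/-- Dominated convergence. -/
private theorem lim_dom {Z : Set E} (hZ : IsClosed Z) {R : ℝ} {F : ℕ → E → ℝ} {b : E → ℝ}
    (hF : ∀ n, AEStronglyMeasurable (F n) (volume.restrict (Metric.closedBall (0 : E) R)))
    (hb : IntegrableOn b (Metric.closedBall (0 : E) R))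
    (hFb : ∀ n : ℕ, ∀ x ∈ Metric.cthickening (4 / ((n : ℝ) + 1)) Z ∩ Metric.closedBall 0 R, ‖F n x‖ ≤ b x)
    (hb0 : ∀ x, 0 ≤ b x) (hZ0 : ∀ᵐ x : E, x ∈ Z → ∀ n, F n x = 0) :
    Tendsto (fun n : ℕ => ∫ x in Metric.cthickening (4 / ((n : ℝ) + 1)) Z ∩ Metric.closedBall 0 R, F n x)
      atTop (𝓝 0) := by
  have h0 : (0 : ℝ) = ∫ _ : E, (0 : ℝ) := by simp
  rw [h0]
  simp_rw [← integral_indicator (meas_S Z R _)]
  refine tendsto_integral_of_dominated_convergence
    ((Metric.closedBall (0 : E) R).indicator b) (fun n => ?_)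
    (hb.integrable_indicator measurableSet_closedBall) (fun n => ?_) ?_
  · rw [aestronglyMeasurable_indicator_iff (meas_S Z R n)]
    exact (hF n).mono_measure (Measure.restrict_mono inter_subset_right le_rfl)
  · refine Eventually.of_forall fun x => ?_
    by_cases hx : x ∈ Metric.cthickening (4 / ((n : ℝ) + 1)) Z ∩ Metric.closedBall 0 R
    · rw [indicator_of_mem hx, indicator_of_mem hx.2]
      exact hFb n x hx
    · rw [indicator_of_notMem hx, norm_zero]
      exact indicator_nonneg (fun y _ => hb0 y) x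
  · filter_upwards [hZ0] with x hx
    refine tendsto_const_nhds.congr' ?_
    by_cases hxZ : x ∈ Z
    · refine Eventually.of_forall fun n => ?_
      by_cases h1 : x ∈ Metric.cthickening (4 / ((n : ℝ) + 1)) Z ∩ Metric.closedBall 0 R
      · exact ((indicator_of_mem h1 _).trans (hx hxZ n)).symm
      · exact (indicator_of_notMem h1 _).symm
    · filter_upwards [ev_off hZ hxZ] with n hn
      rw [indicator_of_notMem fun h1 => hn h1.1]

private theorem intOn {A : E → E} (hA : LpL 1 univ A) (R : ℝ) : IntegrableOn A (Metric.closedBall (0 : E) R) :=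
  memLp_one_iff_integrable.1 (hA _ (isCompact_closedBall 0 R) (subset_univ _))

theorem neg_zero {Z : Set E} (hZ : IsClosed Z) {A : E → E} (hA : LpL 1 univ A) (hneg : Neg Z A) :
    ∀ᵐ x ∂(volume.restrict Z), A x = 0 := by
  have h1 : ∀ m : ℕ, ∀ᵐ x ∂(volume.restrict (Z ∩ Metric.closedBall (0 : E) m)), A x = 0 := by
    intro m
    have hi : IntegrableOn (fun x => ‖A x‖) (Z ∩ Metric.closedBall (0 : E) m) :=
      ((intOn hA m).mono_set inter_subset_right).norm
    have h2 : ∫ x in Z ∩ Metric.closedBall (0 : E) m, ‖A x‖ = 0 := by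
      refine le_antisymm ?_ (integral_nonneg fun x => norm_nonneg _)
      refine ge_of_tendsto' (hneg m) fun n => ?_
      have h3 : ∫ x in Z ∩ Metric.closedBall (0 : E) m, ‖A x‖ ≤
          ∫ x in Metric.cthickening (4 / ((n : ℝ) + 1)) Z ∩ Metric.closedBall 0 m, ‖A x‖ := by
        refine setIntegral_mono_set ((intOn hA m).mono_set inter_subset_right).norm
          (Eventually.of_forall fun x => norm_nonneg _) (Eventually.of_forall ?_)
        exact fun x hx => ⟨Metric.self_subset_cthickening Z hx.1, hx.2⟩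
      have h4 : 0 ≤ ∫ x in Metric.cthickening (4 / ((n : ℝ) + 1)) Z ∩ Metric.closedBall 0 m, ‖A x‖ :=
        integral_nonneg fun x => norm_nonneg _
      refine h3.trans (le_mul_of_one_le_left h4 ?_)
      have : (0 : ℝ) ≤ n := Nat.cast_nonneg n
      linarith
    rw [integral_eq_zero_iff_of_nonneg (fun x => norm_nonneg _) hi] at h2
    filter_upwards [h2] with x hx
    exact norm_eq_zero.1 hx
  have h2 : Z = ⋃ m : ℕ, Z ∩ Metric.closedBall (0 : E) m := by
    refine Subset.antisymm (fun x hx => ?_) (iUnion_subset fun m => inter_subset_left)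
    obtain ⟨m, hm⟩ := exists_nat_ge ‖x‖
    exact mem_iUnion.2 ⟨m, hx, by simpa using hm⟩
  rw [h2, ae_restrict_iUnion_iff]
  exact h1

private theorem continuous_pd (i : Fin 3) {f : E → ℝ} (hf : ContDiff ℝ ∞ f) : Continuous (pd i f) := by
  unfold pd
  exact (hf.continuous_fderiv (by simp)).clm_apply continuous_const

private theorem contDiff_coord {φ : E → E} (h : ContDiff ℝ ∞ φ) (i : Fin 3) :
    ContDiff ℝ ∞ (fun x => φ x i) := by
  fun_prop

private theorem continuous_curl {φ : E → E} (h : ContDiff ℝ ∞ φ) : Continuous (curl φ) := by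
  have h0 := contDiff_coord h 0
  have h1 := contDiff_coord h 1
  have h2 := contDiff_coord h 2
  have a1 := continuous_pd 1 h2
  have a2 := continuous_pd 2 h1
  have a3 := continuous_pd 2 h0
  have a4 := continuous_pd 0 h2
  have a5 := continuous_pd 0 h1
  have a6 := continuous_pd 1 h0
  unfold curl
  fun_prop

private theorem continuous_gr {f : E → ℝ} (h : ContDiff ℝ ∞ f) : Continuous (gr f) := by
  have a1 := continuous_pd 0 h
  have a2 := continuous_pd 1 h
  have a3 := continuous_pd 2 h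
  unfold gr
  fun_prop

private theorem curl_off {φ : E → E} {x : E} (hx : x ∉ tsupport φ) : curl φ x = 0 := by
  have h : ∀ i : Fin 3, ∀ j : Fin 3, pd j (fun y => φ y i) x = 0 := by
    intro i j
    have h1 : (fun y => φ y i) =ᶠ[𝓝 x] fun _ => (0 : ℝ) := by
      filter_upwards [(isClosed_tsupport φ).isOpen_compl.mem_nhds hx] with y hy
      rw [image_eq_zero_of_notMem_tsupport hy]
      rfl
    unfold pd
    rw [h1.fderiv_eq]
    simp
  unfold curl
  ext i
  fin_cases i <;> simp [h]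

private theorem gr_off {f : E → ℝ} {c : ℝ} {x : E} (hx : f =ᶠ[𝓝 x] fun _ => c) : gr f x = 0 := by
  have h : ∀ i : Fin 3, pd i f x = 0 := by
    intro i
    unfold pd
    rw [hx.fderiv_eq]
    simp
  unfold gr
  ext i
  fin_cases i <;> simp [h]

private theorem continuous_cr {f g : E → E} (hf : Continuous f) (hg : Continuous g) :
    Continuous (fun x => cr (f x) (g x)) := by
  unfold cr
  fun_prop

private theorem int_inner {K : Set E} {A g : E → E} (hA : IntegrableOn A K)
    (hg : Continuous g) {M : ℝ} (hM : ∀ x, ‖g x‖ ≤ M) (h0 : ∀ x, x ∉ K → g x = 0) :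
    Integrable (fun x => ⟪A x, g x⟫) := by
  have h1 : IntegrableOn (fun x => ⟪A x, g x⟫) K := by
    refine Integrable.mono' (hA.norm.mul_const M) ?_ (Eventually.of_forall fun x => ?_)
    · exact hA.aestronglyMeasurable.inner hg.aestronglyMeasurable
    · exact (norm_inner_le_norm _ _).trans (mul_le_mul_of_nonneg_left (hM x) (norm_nonneg _))
  refine (integrableOn_iff_integrable_of_support_subset ?_).mp h1
  intro x hx
  by_contra h
  apply hx
  show ⟪A x, g x⟫ = 0
  rw [h0 x h, inner_zero_right]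

private theorem lim_z {Z : Set E} (hZ : IsClosed Z) {χ : ℕ → E → ℝ} (hs : ∀ n, ContDiff ℝ ∞ (χ n))
    (hb : ∀ n x, 0 ≤ χ n x ∧ χ n x ≤ 1)
    (h0 : ∀ (n : ℕ) (x : E), x ∉ Metric.cthickening (4 / ((n : ℝ) + 1)) Z → χ n x = 0) {f : E → ℝ} (hf : Integrable f)
    (hfZ : ∀ᵐ x : E, x ∈ Z → f x = 0) :
    Tendsto (fun n : ℕ => ∫ x, (1 - χ n x) * f x) atTop (𝓝 (∫ x, f x)) := by
  refine tendsto_integral_of_dominated_convergence (fun x => ‖f x‖) (fun n => ?_) hf.norm (fun n => ?_) ?_
  · exact (continuous_const.sub (hs n).continuous).aestronglyMeasurable.mul hf.aestronglyMeasurable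
  · refine Eventually.of_forall fun x => ?_
    rw [norm_mul, Real.norm_of_nonneg (by linarith [(hb n x).2])]
    exact mul_le_of_le_one_left (norm_nonneg _) (by linarith [(hb n x).1])
  · filter_upwards [hfZ] with x hx
    refine tendsto_const_nhds.congr' ?_
    by_cases hxZ : x ∈ Z
    · refine Eventually.of_forall fun n => ?_
      simp only [hx hxZ, mul_zero]
    · filter_upwards [ev_off hZ hxZ] with n hn
      rw [h0 n x hn, sub_zero, one_mul]

theorem wc_neg {Z : Set E} (hZ : IsClosed Z) {A C : E → E} (hA : LpL 1 univ A) (hC : LpL 1 univ C)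
    (hneg : Neg Z A) (hC0 : ∀ᵐ x ∂(volume.restrict Z), C x = 0) (h : WC Zᶜ A C) :
    WC univ A C := by
  intro φ hφ
  obtain ⟨hs, hc, -⟩ := hφ
  obtain ⟨R, hR0, hR⟩ : ∃ R : ℝ, 0 ≤ R ∧ tsupport φ ⊆ Metric.closedBall 0 R := by
    obtain ⟨R, hR⟩ := hc.isCompact.isBounded.subset_closedBall (0 : E)
    exact ⟨max R 0, le_max_right _ _, hR.trans (Metric.closedBall_subset_closedBall (le_max_left _ _))⟩
  obtain ⟨D, χ, hχ⟩ := thin_cut hZ
  have hχs : ∀ n, ContDiff ℝ ∞ (χ n) := fun n => (hχ n).1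
  have hχb : ∀ n x, 0 ≤ χ n x ∧ χ n x ≤ 1 := fun n => (hχ n).2.1
  have hχ1 : ∀ n : ℕ, ∀ x ∈ Metric.thickening (1 / ((n : ℝ) + 1)) Z, χ n x = 1 := fun n => (hχ n).2.2.1
  have hχ0 : ∀ n : ℕ, ∀ x, x ∉ Metric.cthickening (4 / ((n : ℝ) + 1)) Z → χ n x = 0 := fun n => (hχ n).2.2.2.1
  have hχg : ∀ n, ∀ x, ‖gr (χ n) x‖ ≤ D * ((n : ℝ) + 1) := fun n => (hχ n).2.2.2.2
  set K : Set E := Metric.closedBall 0 R with hK
  have hKc : IsCompact K := isCompact_closedBall 0 R
  have hA1 : IntegrableOn A K := intOn hA R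
  have hC1 : IntegrableOn C K := intOn hC R
  have hφ0 : ∀ x, x ∉ K → φ x = 0 := fun x hx => image_eq_zero_of_notMem_tsupport fun h1 => hx (hR h1)
  have hcφ0 : ∀ x, x ∉ K → curl φ x = 0 := fun x hx => curl_off fun h1 => hx (hR h1)
  have hφc : Continuous φ := hs.continuous
  have hcc : Continuous (curl φ) := continuous_curl hs
  obtain ⟨M, hM⟩ : ∃ M, ∀ x, ‖φ x‖ ≤ M := hφc.bounded_above_of_compact_support hc
  have hM0 : 0 ≤ M := (norm_nonneg _).trans (hM 0)
  have hD0 : 0 ≤ D := by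
    have h1 := (norm_nonneg _).trans (hχg 0 0)
    simpa using h1
  obtain ⟨M', hM'⟩ : ∃ M', ∀ x, ‖curl φ x‖ ≤ M' :=
    hcc.bounded_above_of_compact_support (HasCompactSupport.intro hKc hcφ0)
  have i1 : Integrable (fun x => ⟪A x, curl φ x⟫) := int_inner hA1 hcc hM' hcφ0
  have i2 : Integrable (fun x => ⟪C x, φ x⟫) := int_inner hC1 hφc hM hφ0
  have hA0 := (ae_restrict_iff' hZ.measurableSet).1 (neg_zero hZ hA hneg)
  have hC0' := (ae_restrict_iff' hZ.measurableSet).1 hC0
  -- the cut off fields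
  have hzs : ∀ n, ContDiff ℝ ∞ fun x => 1 - χ n x := fun n => contDiff_const.sub (hχs n)
  have hzg : ∀ n x, gr (fun x => 1 - χ n x) x = -gr (χ n) x := by
    intro n x
    have h1 : ∀ i : Fin 3, pd i (fun x => 1 - χ n x) x = -pd i (χ n) x := by
      intro i
      unfold pd
      rw [fderiv_const_sub]
      rfl
    unfold gr
    ext i
    fin_cases i <;> simp [h1]
  have htest : ∀ n, TestIn Zᶜ (fun x => (1 - χ n x) • φ x) := by
    intro n
    refine ⟨(hzs n).smul hs, hc.mono (fun x hx hx' => hx ?_), ?_⟩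
    · show (1 - χ n x) • φ x = 0
      rw [hx', smul_zero]
    · have h1 : tsupport (fun x => (1 - χ n x) • φ x) ⊆ (Metric.thickening (1 / ((n : ℝ) + 1)) Z)ᶜ := by
        refine closure_minimal (fun x hx => ?_) Metric.isOpen_thickening.isClosed_compl
        intro h2
        have h3 : (1 - χ n x) • φ x ≠ 0 := hx
        rw [hχ1 n x h2, sub_self, zero_smul] at h3
        exact h3 rfl
      refine h1.trans (compl_subset_compl.2 ?_)
      exact Metric.self_subset_thickening (by positivity) Z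
  have hGc : ∀ n : ℕ, Continuous fun x => cr (gr (fun x => 1 - χ n x) x) (φ x) :=
    fun n => continuous_cr (continuous_gr (hzs n)) hφc
  have hG0 : ∀ (n : ℕ) (x : E), x ∉ K → cr (gr (fun x => 1 - χ n x) x) (φ x) = 0 := by
    intro n x hx
    rw [hφ0 x hx, ← norm_le_zero_iff]
    refine (norm_cr_le _ _).trans ?_
    rw [norm_zero, mul_zero]
  have hGb : ∀ (n : ℕ) (x : E), ‖cr (gr (fun x => 1 - χ n x) x) (φ x)‖ ≤ D * ((n : ℝ) + 1) * M := by
    intro n x
    refine (norm_cr_le _ _).trans ?_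
    rw [hzg, norm_neg]
    exact mul_le_mul (hχg n x) (hM x) (norm_nonneg _) (by positivity)
  have i3 : ∀ n : ℕ, Integrable fun x => ⟪A x, cr (gr (fun x => 1 - χ n x) x) (φ x)⟫ :=
    fun n => int_inner hA1 (hGc n) (hGb n) (hG0 n)
  -- the error term
  have hlim : Tendsto (fun n : ℕ => ∫ x, ⟪A x, cr (gr (fun x => 1 - χ n x) x) (φ x)⟫) atTop (𝓝 0) := by
    have h1 := (hneg R).const_mul (D * M)
    rw [mul_zero] at h1
    refine squeeze_zero_norm (fun n => ?_) h1
    have h2 : ‖∫ x, ⟪A x, cr (gr (fun x => 1 - χ n x) x) (φ x)⟫‖ ≤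
        ∫ x, (Metric.cthickening (4 / ((n : ℝ) + 1)) Z ∩ K).indicator
          (fun x => ‖A x‖ * (D * ((n : ℝ) + 1) * M)) x := by
      refine norm_integral_le_of_norm_le ?_ (Eventually.of_forall fun x => ?_)
      · have h3 : IntegrableOn (fun x => ‖A x‖ * (D * ((n : ℝ) + 1) * M))
            (Metric.cthickening (4 / ((n : ℝ) + 1)) Z ∩ K) :=
          ((hA1.mono_set inter_subset_right).norm).mul_const _
        exact h3.integrable_indicator (meas_S Z R n)
      · by_cases hx : x ∈ Metric.cthickening (4 / ((n : ℝ) + 1)) Z ∩ K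
        · rw [indicator_of_mem hx]
          exact (norm_inner_le_norm _ _).trans (mul_le_mul_of_nonneg_left (hGb n x) (norm_nonneg _))
        · rw [indicator_of_notMem hx]
          have h2 : cr (gr (fun x => 1 - χ n x) x) (φ x) = 0 := by
            by_cases hxK : x ∈ K
            · have h3 : x ∉ Metric.cthickening (4 / ((n : ℝ) + 1)) Z := fun h4 => hx ⟨h4, hxK⟩
              have h4 : (χ n) =ᶠ[𝓝 x] fun _ => 0 := by
                filter_upwards [Metric.isClosed_cthickening.isOpen_compl.mem_nhds h3] with y hy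
                exact hχ0 n y hy
              rw [hzg, gr_off h4, _root_.neg_zero, ← norm_le_zero_iff]
              refine (norm_cr_le _ _).trans ?_
              rw [norm_zero, zero_mul]
            · exact hG0 n x hxK
          rw [h2, inner_zero_right, norm_zero]
    refine h2.trans (le_of_eq ?_)
    rw [integral_indicator (meas_S Z R n), integral_mul_const]
    ring
  have hid : ∀ n : ℕ, (∫ x, ⟪A x, cr (gr (fun x => 1 - χ n x) x) (φ x)⟫) +
      (∫ x, (1 - χ n x) * ⟪A x, curl φ x⟫) = ∫ x, (1 - χ n x) * ⟪C x, φ x⟫ := by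
    intro n
    have h1 := h _ (htest n)
    have h2 : ∀ x, ⟪A x, curl (fun x => (1 - χ n x) • φ x) x⟫ =
        ⟪A x, cr (gr (fun x => 1 - χ n x) x) (φ x)⟫ + (1 - χ n x) * ⟪A x, curl φ x⟫ := by
      intro x
      rw [curl_smul ((hzs n).differentiable (by simp) x) (hs.differentiable (by simp) x), inner_add_right,
        inner_smul_right]
    have h3 : ∀ x, ⟪C x, (1 - χ n x) • φ x⟫ = (1 - χ n x) * ⟪C x, φ x⟫ := fun x => inner_smul_right _ _ _
    have i4 : Integrable fun x => (1 - χ n x) * ⟪A x, curl φ x⟫ := by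
      refine i1.norm.mono' ((hzs n).continuous.aestronglyMeasurable.mul i1.aestronglyMeasurable)
        (Eventually.of_forall fun x => ?_)
      rw [norm_mul, Real.norm_of_nonneg (by linarith [(hχb n x).2])]
      exact mul_le_of_le_one_left (norm_nonneg _) (by linarith [(hχb n x).1])
    simp_rw [h2, h3] at h1
    rw [← h1, integral_add (i3 n) i4]
  have hl := hlim.add (lim_z hZ hχs hχb hχ0 i1 (by
    filter_upwards [hA0] with x hx hxZ
    rw [hx hxZ, inner_zero_left]))
  rw [zero_add] at hl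
  have hr := lim_z hZ hχs hχb hχ0 i2 (by
    filter_upwards [hC0'] with x hx hxZ
    rw [hx hxZ, inner_zero_left])
  exact tendsto_nhds_unique (hl.congr hid) hr

theorem neg_of_thin {Z : Set E} (hZ : Thin Z) {A : E → E} (hA : LpL 2 univ A) : Neg Z A := by
  intro R
  obtain ⟨C, hC⟩ := hZ.2 R
  have hA2 : MemLp A 2 (volume.restrict (Metric.closedBall (0 : E) R)) :=
    hA _ (isCompact_closedBall 0 R) (subset_univ _)
  have hfin : IsFiniteMeasure (volume.restrict (Metric.closedBall (0 : E) R)) :=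
    ⟨by rw [Measure.restrict_apply_univ]; exact (isCompact_closedBall 0 R).measure_lt_top⟩
  have hA1 : IntegrableOn A (Metric.closedBall (0 : E) R) := hA2.integrable one_le_two
  have hAsq : IntegrableOn (fun x => ‖A x‖ ^ 2) (Metric.closedBall (0 : E) R) :=
    hA2.integrable_norm_pow two_ne_zero
  have hlim : Tendsto (fun n : ℕ => ∫ x in Metric.cthickening (4 / ((n : ℝ) + 1)) Z ∩ Metric.closedBall 0 R,
      ‖A x‖ ^ 2) atTop (𝓝 0) := by
    refine lim_dom hZ.1 (F := fun _ x => ‖A x‖ ^ 2) (b := fun x => ‖A x‖ ^ 2)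
      (fun n => hAsq.aestronglyMeasurable) hAsq (fun n x _ => ?_) (fun x => by positivity) ?_
    · rw [Real.norm_of_nonneg (by positivity)]
    · have h1 : ∀ᵐ x : E, x ∉ Z := measure_eq_zero_iff_ae_notMem.1 (thin_null hZ)
      filter_upwards [h1] with x hx hxZ
      exact absurd hxZ hx
  -- the estimate
  have hest : ∀ (n : ℕ) (δ : ℝ), 3 ≤ n → 0 < δ → ((n : ℝ) + 1) *
      (∫ x in Metric.cthickening (4 / ((n : ℝ) + 1)) Z ∩ Metric.closedBall 0 R, ‖A x‖) ≤
      δ⁻¹ * (∫ x in Metric.cthickening (4 / ((n : ℝ) + 1)) Z ∩ Metric.closedBall 0 R, ‖A x‖ ^ 2) +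
        δ * (16 * max C 0) := by
    intro n δ hn3 hδ
    have hn : (0 : ℝ) < (n : ℝ) + 1 := by positivity
    have hn4 : (4 : ℝ) / ((n : ℝ) + 1) ≤ 1 := by
      rw [div_le_one hn]
      have : (3 : ℝ) ≤ n := by exact_mod_cast hn3
      linarith
    have hvol := hC (4 / ((n : ℝ) + 1)) (by positivity) hn4
    set S : Set E := Metric.cthickening (4 / ((n : ℝ) + 1)) Z ∩ Metric.closedBall 0 R with hSd
    have hvt : volume S ≠ ⊤ := (hvol.trans_lt ENNReal.ofReal_lt_top).ne
    have hvr : volume.real S ≤ max C 0 * (4 / ((n : ℝ) + 1)) ^ 2 :=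
      ENNReal.toReal_le_of_le_ofReal (by positivity) (hvol.trans (ENNReal.ofReal_le_ofReal
        (mul_le_mul_of_nonneg_right (le_max_left _ _) (by positivity))))
    have j1 : IntegrableOn (fun x => δ⁻¹ * ‖A x‖ ^ 2) S := (hAsq.mono_set inter_subset_right).const_mul _
    have j2 : IntegrableOn (fun _ : E => δ * ((n : ℝ) + 1) ^ 2) S := integrableOn_const hvt
    rw [← integral_const_mul]
    calc ∫ x in S, ((n : ℝ) + 1) * ‖A x‖ ≤ ∫ x in S, (δ⁻¹ * ‖A x‖ ^ 2 + δ * ((n : ℝ) + 1) ^ 2) := by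
          refine setIntegral_mono_on (((hA1.mono_set inter_subset_right).norm).const_mul _) (j1.add j2)
            (meas_S Z R n) fun x _ => ?_
          have h3 : 0 ≤ (δ⁻¹ * ‖A x‖ - ((n : ℝ) + 1)) ^ 2 * δ := by positivity
          have h4 : (δ⁻¹ * ‖A x‖ - ((n : ℝ) + 1)) ^ 2 * δ =
              δ⁻¹ * ‖A x‖ ^ 2 - 2 * (((n : ℝ) + 1) * ‖A x‖) + δ * ((n : ℝ) + 1) ^ 2 := by
            field_simp
            ring
          have h5 : 0 ≤ δ⁻¹ * ‖A x‖ ^ 2 + δ * ((n : ℝ) + 1) ^ 2 := by positivity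
          linarith
      _ = δ⁻¹ * (∫ x in S, ‖A x‖ ^ 2) + volume.real S * (δ * ((n : ℝ) + 1) ^ 2) := by
          rw [integral_add j1 j2, integral_const_mul, setIntegral_const, smul_eq_mul]
      _ ≤ δ⁻¹ * (∫ x in S, ‖A x‖ ^ 2) + δ * (16 * max C 0) := by
          refine add_le_add le_rfl ?_
          calc volume.real S * (δ * ((n : ℝ) + 1) ^ 2) ≤
              (max C 0 * (4 / ((n : ℝ) + 1)) ^ 2) * (δ * ((n : ℝ) + 1) ^ 2) :=
                mul_le_mul_of_nonneg_right hvr (by positivity)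
            _ = δ * (16 * max C 0) := by
                field_simp
                ring
  rw [Metric.tendsto_nhds]
  intro ε hε
  set Q : ℝ := 16 * max C 0 with hQ
  have hQ0 : 0 ≤ Q := by positivity
  set δ : ℝ := ε / (2 * (Q + 1)) with hδ
  have hδ0 : 0 < δ := by positivity
  have h1 : Tendsto (fun n : ℕ => δ⁻¹ * ∫ x in Metric.cthickening (4 / ((n : ℝ) + 1)) Z ∩ Metric.closedBall 0 R,
      ‖A x‖ ^ 2) atTop (𝓝 0) := by
    simpa using hlim.const_mul δ⁻¹
  filter_upwards [(h1.eventually (gt_mem_nhds (half_pos hε))), eventually_ge_atTop 3] with n hn hn3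
  rw [Real.dist_0_eq_abs, abs_of_nonneg (mul_nonneg (by positivity) (integral_nonneg fun x => norm_nonneg _))]
  refine (hest n δ hn3 hδ0).trans_lt ?_
  have h2 : δ * Q < ε / 2 := by
    rw [hδ, div_mul_eq_mul_div, div_lt_iff₀ (by positivity)]
    nlinarith
  linarith

theorem neg_of_lip {Z : Set E} (hZ : IsClosed Z) {A : E → E}
    (hlip : ∀ R : ℝ, ∃ L : NNReal, LipschitzOnWith L A (Metric.ball 0 R))
    (hA : ∀ x ∈ Z, A x = 0) : Neg Z A := by
  intro R
  have hcont : Continuous A := by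
    rw [continuous_iff_continuousAt]
    intro x
    obtain ⟨L, hL⟩ := hlip (‖x‖ + 1)
    refine hL.continuousOn.continuousAt (Metric.isOpen_ball.mem_nhds ?_)
    rw [mem_ball_zero_iff]
    linarith
  obtain ⟨L, hL⟩ := hlip (R + 6)
  simp_rw [← integral_const_mul]
  refine lim_dom hZ (F := fun n x => ((n : ℝ) + 1) * ‖A x‖) (b := fun _ => 5 * (L : ℝ))
    (fun n => (continuous_const.mul hcont.norm).aestronglyMeasurable)
    (integrableOn_const (isCompact_closedBall 0 R).measure_lt_top.ne) (fun n x hx => ?_)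
    (fun x => mul_nonneg (by norm_num) L.2) (Eventually.of_forall fun x hx n => by
      simp only [hA x hx, norm_zero, mul_zero])
  have hn : (0 : ℝ) < (n : ℝ) + 1 := by positivity
  rw [Real.norm_of_nonneg (by positivity)]
  have h1 : x ∈ Metric.thickening (5 / ((n : ℝ) + 1)) Z := by
    refine Metric.cthickening_subset_thickening' (by positivity) ?_ Z hx.1
    exact div_lt_div_of_pos_right (by norm_num) hn
  obtain ⟨z, hz, hxz⟩ := Metric.mem_thickening_iff.1 h1
  have h2 : 5 / ((n : ℝ) + 1) ≤ 5 := by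
    rw [div_le_iff₀ hn]
    have : (0 : ℝ) ≤ n := Nat.cast_nonneg n
    linarith
  have h3 : ‖x‖ ≤ R := by
    have := hx.2
    rwa [mem_closedBall_zero_iff] at this
  have h4 : ‖z‖ ≤ ‖x‖ + dist x z := by
    rw [dist_eq_norm]
    have := norm_sub_norm_le z x
    rw [norm_sub_rev] at this
    linarith
  have h5 := hL.dist_le_mul x (by rw [mem_ball_zero_iff]; linarith) z (by rw [mem_ball_zero_iff]; linarith)
  rw [hA z hz, dist_zero_right] at h5
  calc ((n : ℝ) + 1) * ‖A x‖ ≤ ((n : ℝ) + 1) * (L * (5 / ((n : ℝ) + 1))) :=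
        mul_le_mul_of_nonneg_left (h5.trans (mul_le_mul_of_nonneg_left hxz.le L.2)) hn.le
    _ = 5 * (L : ℝ) := by
        field_simp

end Pool.CQ
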