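import Pool.Agent.Lib.MP_cd5b91_an.CQ.ThinB
import Pool.Agent.Lib.MP_cd5b91_an.CQ.ThinN
import Pool.Agent.Lib.MP_cd5b91_an.CQ.CutWC
import Pool.Agent.Lib.MP_cd5b91_an.CQ.KBasic
import Pool.Agent.Lib.MP_cd5b91_an.CQ.ZeroOpen

/-!
# CQ-KConn: the energy of a weak solution bounds the number of pieces of its support
-/

open MeasureTheory Filter Topology Set
open scoped ContDiff RealInnerProductSpace ENNReal

namespace Pool.CQ.K

/-- a field `v` with `|v|⁴ v` orthogonal to `w` -/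
private theorem kc_min {v w : E → E} (h6 : MemLp v 6 volume) (hw : MemLp w 6 volume)
    (ho : ∫ x, ⟪‖v x‖ ^ 4 • v x, w x⟫ = 0) : ∫ x, ‖v x‖ ^ 6 ≤ ∫ x, ‖v x + w x‖ ^ 6 := by
  set n : ℝ := ∫ x, ‖v x‖ ^ 6 with hn
  set m : ℝ := ∫ x, ‖v x + w x‖ ^ 6 with hm
  have hn0 : 0 ≤ n := integral_nonneg fun x => by positivity
  have hm0 : 0 ≤ m := integral_nonneg fun x => by positivity
  have hV : MemLp (fun x => ‖v x‖ ^ 4 • v x) (6 / 5) volume := memLp_quint h6 h6
  have h1 : n = ∫ x, ⟪‖v x‖ ^ 4 • v x, v x + w x⟫ := by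
    have h2 : ∫ x, ⟪‖v x‖ ^ 4 • v x, v x + w x⟫ =
        (∫ x, ⟪‖v x‖ ^ 4 • v x, v x⟫) + ∫ x, ⟪‖v x‖ ^ 4 • v x, w x⟫ := by
      rw [← integral_add (integrable65 hV h6) (integrable65 hV hw)]
      refine integral_congr_ae (Eventually.of_forall fun x => ?_)
      simp only [inner_add_right]
    rw [h2, ho, add_zero, hn]
    refine integral_congr_ae (Eventually.of_forall fun x => ?_)
    simp only [real_inner_smul_left, real_inner_self_eq_norm_sq]
    ring
  have h2 := holder65 hV (h6.add hw)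
  have h3 : ∫ x, ‖‖v x‖ ^ 4 • v x‖ ^ (6 / 5 : ℝ) = n := by
    rw [hn]
    refine integral_congr_ae (Eventually.of_forall fun x => ?_)
    have h4 : ‖‖v x‖ ^ 4 • v x‖ = ‖v x‖ ^ (5 : ℝ) := by
      rw [norm_smul, norm_pow, norm_norm]
      have h5 : (‖v x‖ ^ (5 : ℝ) : ℝ) = ‖v x‖ ^ (5 : ℕ) := by
        rw [← Real.rpow_natCast]; norm_num
      rw [h5]; ring
    simp only
    rw [h4, ← Real.rpow_mul (norm_nonneg _), show (5 : ℝ) * (6 / 5) = ((6 : ℕ) : ℝ) by norm_num,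
      Real.rpow_natCast]
  have h4 : n ≤ n ^ (5 / 6 : ℝ) * m ^ (1 / 6 : ℝ) := by
    calc n ≤ |∫ x, ⟪‖v x‖ ^ 4 • v x, v x + w x⟫| := by rw [← h1]; exact le_abs_self _
      _ ≤ _ := by
        have h5 := h2
        simp only [Pi.add_apply] at h5
        rw [h3] at h5
        exact h5
  rcases hn0.eq_or_lt with h0 | h0
  · rw [← h0]; exact hm0
  · set a := n ^ (1 / 6 : ℝ) with ha
    set b := m ^ (1 / 6 : ℝ) with hb
    have ha0 : 0 < a := Real.rpow_pos_of_pos h0 _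
    have hb0 : 0 ≤ b := Real.rpow_nonneg hm0 _
    have ha6 : a ^ 6 = n := by
      rw [ha, ← Real.rpow_natCast, ← Real.rpow_mul hn0]; norm_num
    have hb6 : b ^ 6 = m := by
      rw [hb, ← Real.rpow_natCast, ← Real.rpow_mul hm0]; norm_num
    have ha5 : n ^ (5 / 6 : ℝ) = a ^ 5 := by
      rw [ha, ← Real.rpow_natCast, ← Real.rpow_mul hn0]; norm_num
    rw [ha5] at h4
    have h5 : a ^ 5 * a ≤ a ^ 5 * b := by
      calc a ^ 5 * a = n := by rw [← ha6]; ring
        _ ≤ _ := h4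
    have h6' : a ≤ b := le_of_mul_le_mul_left h5 (by positivity)
    rw [← ha6, ← hb6]
    exact pow_le_pow_left₀ ha0.le h6' 6

/-- Every nontrivial weak solution satisfies `∫ |u|⁶ ≥ S^{3/2}` if the curl-Sobolev inequality with the
constant `S > 0` holds for it. -/
theorem ws_lower {u B : E → E} (h : WeakSol u B) (hn : ¬ (u =ᵐ[volume] fun _ => 0)) {S : ℝ}
    (hS0 : 0 < S)
    (hS : S * (⨅ w : {w : E → E // W6 w (fun _ => 0)}, ∫ x, ‖u x + w.1 x‖ ^ 6) ^ (1 / 3 : ℝ)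
      ≤ ∫ x, ‖B x‖ ^ 2) : S ^ (3 / 2 : ℝ) ≤ ∫ x, ‖u x‖ ^ 6 := by
  have hE := ws_pos h hn
  have hV := memLp_quint h.1.1 h.1.1
  have hne : Nonempty {w : E → E // W6 w (fun _ => 0)} :=
    ⟨⟨fun _ => 0, MemLp.zero', MemLp.zero', fun φ _ => by simp⟩⟩
  have h1 : ∫ x, ‖u x‖ ^ 6 ≤
      ⨅ w : {w : E → E // W6 w (fun _ => 0)}, ∫ x, ‖u x + w.1 x‖ ^ 6 := by
    refine le_ciInf fun w => kc_min h.1.1 w.2.1 ?_
    have h2 := pairing h.1.2.1 hV h.2 w.2
    rw [← h2]
    simp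
  rw [ws_nehari h] at hS
  refine pow_le_of hS0 hE.le ?_
  have h3 : S * (∫ x, ‖u x‖ ^ 6) ^ (1 / 3 : ℝ) ≤
      (∫ x, ‖u x‖ ^ 6) ^ (2 / 3 : ℝ) * (∫ x, ‖u x‖ ^ 6) ^ (1 / 3 : ℝ) := by
    have h4 : (∫ x, ‖u x‖ ^ 6) ^ (2 / 3 : ℝ) * (∫ x, ‖u x‖ ^ 6) ^ (1 / 3 : ℝ) =
        ∫ x, ‖u x‖ ^ 6 := by
      rw [← Real.rpow_add hE]
      norm_num
    rw [h4]
    exact (mul_le_mul_of_nonneg_left (Real.rpow_le_rpow hE.le h1 (by norm_num)) hS0.le).trans hS
  exact le_of_mul_le_mul_right h3 (Real.rpow_pos_of_pos hE _)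

private theorem kc_ind {u : E → E} {U : Set E} :
    U.indicator (fun x => ‖u x‖ ^ 4 • u x) = fun x => ‖U.indicator u x‖ ^ 4 • U.indicator u x := by
  funext x
  by_cases hx : x ∈ U
  · rw [indicator_of_mem hx, indicator_of_mem hx]
  · rw [indicator_of_notMem hx, indicator_of_notMem hx, smul_zero]

/-- The closed sets along which a support may be cut: thin sets, and closed sets on which the solution
`u` and its curl `B` vanish in the weak sense `Neg`. -/
def CutSet (Z : Set E) (u B : E → E) : Prop := Thin Z ∨ (IsClosed Z ∧ Neg Z u ∧ Neg Z B)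

theorem CutSet.isClosed {Z : Set E} {u B : E → E} (h : CutSet Z u B) : IsClosed Z := by
  rcases h with h | h
  · exact h.1
  · exact h.1

private theorem kc_zero {Z : Set E} {u B : E → E} (h : CutSet Z u B) (hu : MemLp u 6 volume) :
    ∀ᵐ x, x ∈ Z → u x = 0 := by
  rcases h with h | h
  · have h1 : ∀ᵐ x : E, x ∉ Z := by
      rw [ae_iff]
      simpa using thin_null h
    filter_upwards [h1] with x hx hxZ
    exact absurd hxZ hx
  · exact (ae_restrict_iff' h.1.measurableSet).1 (neg_zero h.1 (lpl_one (by norm_num) hu _) h.2.1)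

private theorem kc_neg {Z U : Set E} {A : E → E} (hA : LpL 1 univ A) (h : Neg Z A) :
    Neg Z (U.indicator A) := by
  intro R
  have hle : ∀ n : ℕ, ((n : ℝ) + 1) *
      (∫ x in Metric.cthickening (4 / ((n : ℝ) + 1)) Z ∩ Metric.closedBall 0 R, ‖U.indicator A x‖) ≤
      ((n : ℝ) + 1) * ∫ x in Metric.cthickening (4 / ((n : ℝ) + 1)) Z ∩ Metric.closedBall 0 R, ‖A x‖ := by
    intro n
    refine mul_le_mul_of_nonneg_left ?_ (by positivity)
    refine integral_mono_of_nonneg (Eventually.of_forall fun x => norm_nonneg _) ?_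
      (Eventually.of_forall fun x => norm_indicator_le_norm_self A x)
    have hK : IsCompact (Metric.cthickening (4 / ((n : ℝ) + 1)) Z ∩ Metric.closedBall (0 : E) R) :=
      (isCompact_closedBall (0 : E) R).inter_left Metric.isClosed_cthickening
    exact (memLp_one_iff_integrable.1 (hA _ hK (subset_univ _))).norm
  refine squeeze_zero (fun n => ?_) hle (h R)
  exact mul_nonneg (by positivity) (integral_nonneg fun x => norm_nonneg _)

/-- the part of a weak solution on one side of such a set is a weak solution -/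
theorem ws_cut {u B : E → E} (h : WeakSol u B) {Z U₁ U₂ : Set E} (hZ : CutSet Z u B)
    (hU₁ : IsOpen U₁) (hU₂ : IsOpen U₂) (hcov : esupp u ⊆ Z ∪ (U₁ ∪ U₂))
    (hdis : esupp u ∩ (U₁ ∩ U₂) ⊆ Z) : WeakSol (U₁.indicator u) (U₁.indicator B) := by
  have hF := isClosed_esupp u
  have hu0 := ae_zero_off u
  have hB1 : LpL 1 (esupp u)ᶜ B := lpl_one (by norm_num) h.1.2.1 _
  have hWC : WC (esupp u)ᶜ u B := fun φ hφ => h.1.2.2 φ ⟨hφ.1, hφ.2.1, subset_univ _⟩
  have hB0 := wc_zero hF.isOpen_compl hB1 hWC hu0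
  have hV0 : ∀ᵐ x ∂(volume.restrict (esupp u)ᶜ), ‖u x‖ ^ 4 • u x = 0 := by
    filter_upwards [hu0] with x hx
    rw [hx, smul_zero]
  have hu1 : MemLp (U₁.indicator u) 6 volume := h.1.1.indicator hU₁.measurableSet
  have hB2 : MemLp (U₁.indicator B) 2 volume := h.1.2.1.indicator hU₁.measurableSet
  have hV : MemLp (fun x => ‖u x‖ ^ 4 • u x) (6 / 5) volume := memLp_quint h.1.1 h.1.1
  have hV2 : MemLp (U₁.indicator fun x => ‖u x‖ ^ 4 • u x) (6 / 5) volume :=
    hV.indicator hU₁.measurableSet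
  have h65 : (1 : ℝ≥0∞) ≤ 6 / 5 := by
    rw [ENNReal.le_div_iff_mul_le (Or.inl (by norm_num)) (Or.inl (by norm_num))]
    norm_num
  have c1 := cut_wc hU₁ hU₂ hZ.isClosed hF hcov hdis hu0 hB0 h.1.2.2
  have c2 := cut_wc hU₁ hU₂ hZ.isClosed hF hcov hdis hB0 hV0 h.2
  have hw : WC univ (U₁.indicator u) (U₁.indicator B) ∧
      WC univ (U₁.indicator B) (U₁.indicator fun x => ‖u x‖ ^ 4 • u x) := by
    rcases hZ with hZ | ⟨hZc, hNu, hNB⟩
    · exact ⟨wc_thin hZ (lpl_two (by norm_num) hu1 _) (lpl_one (by norm_num) hB2 _) c1,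
        wc_thin hZ (lpl_two (by norm_num) hB2 _) (lpl_one h65 hV2 _) c2⟩
    · have hLu : LpL 1 univ u := lpl_one (by norm_num) h.1.1 _
      have hLB : LpL 1 univ B := lpl_one (by norm_num) h.1.2.1 _
      have hBZ : ∀ᵐ x ∂(volume.restrict Z), U₁.indicator B x = 0 := by
        filter_upwards [neg_zero hZc hLB hNB] with x hx
        by_cases hU : x ∈ U₁
        · rw [indicator_of_mem hU, hx]
        · rw [indicator_of_notMem hU]
      have hVZ : ∀ᵐ x ∂(volume.restrict Z), U₁.indicator (fun x => ‖u x‖ ^ 4 • u x) x = 0 := by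
        filter_upwards [neg_zero hZc hLu hNu] with x hx
        by_cases hU : x ∈ U₁
        · rw [indicator_of_mem hU, hx, smul_zero]
        · rw [indicator_of_notMem hU]
      exact ⟨wc_neg hZc (lpl_one (by norm_num) hu1 _) (lpl_one (by norm_num) hB2 _)
          (kc_neg hLu hNu) hBZ c1,
        wc_neg hZc (lpl_one (by norm_num) hB2 _) (lpl_one h65 hV2 _) (kc_neg hLB hNB) hVZ c2⟩
  obtain ⟨w1, w2⟩ := hw
  rw [kc_ind] at w2
  exact ⟨⟨hu1, hB2, w1⟩, w2⟩

private theorem kc_ne {u : E → E} {Z U : Set E} (hZ : IsClosed Z) (hU : IsOpen U)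
    (h : ((esupp u \ Z) ∩ U).Nonempty) : ¬ (U.indicator u =ᵐ[volume] fun _ => 0) := by
  intro h0
  obtain ⟨x, ⟨hx1, hx2⟩, hx3⟩ := h
  refine hx1 (U ∩ Zᶜ) (hU.inter hZ.isOpen_compl) ⟨hx3, hx2⟩ ?_
  refine (ae_restrict_iff' (hU.inter hZ.isOpen_compl).measurableSet).2 ?_
  filter_upwards [h0] with y hy hyU
  rwa [indicator_of_mem hyU.1] at hy

/-- **The energy bounds the number of pieces of the support.**  Let the curl-Sobolev inequality hold
with `S > 0`, let `u` be a weak solution, `Z` a `CutSet`, and let finitely many open sets `U i`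
cover `supp u \ Z`, be pairwise disjoint there and all meet it.  Then
`(number of the U i) * S^{3/2} ≤ ∫ |u|⁶`. -/
theorem supp_pieces {u B : E → E} (h : WeakSol u B) {S : ℝ} (hS0 : 0 < S) (hS : CurlSob S)
    {Z : Set E} (hZ : CutSet Z u B) {ι : Type} [Fintype ι] {U : ι → Set E} (hU : ∀ i, IsOpen (U i))
    (hcov : esupp u \ Z ⊆ ⋃ i, U i)
    (hdis : ∀ i j, i ≠ j → (esupp u \ Z) ∩ (U i ∩ U j) = ∅)
    (hne : ∀ i, ((esupp u \ Z) ∩ U i).Nonempty) :
    (Fintype.card ι : ℝ) * S ^ (3 / 2 : ℝ) ≤ ∫ x, ‖u x‖ ^ 6 := by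
  classical
  have hI := int6 h.1.1
  have hF := isClosed_esupp u
  have hu0' : ∀ᵐ x : E, x ∈ (esupp u)ᶜ → u x = 0 :=
    (ae_restrict_iff' hF.isOpen_compl.measurableSet).1 (ae_zero_off u)
  have hZ0 := kc_zero hZ h.1.1
  -- every piece carries the energy `S^{3/2}`
  have hpiece : ∀ i, S ^ (3 / 2 : ℝ) ≤ ∫ x in (esupp u \ Z) ∩ U i, ‖u x‖ ^ 6 := by
    intro i
    have hc : esupp u ⊆ Z ∪ (U i ∪ ⋃ j ∈ {j | j ≠ i}, U j) := by
      intro x hx
      by_cases hxZ : x ∈ Z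
      · exact Or.inl hxZ
      · obtain ⟨j, hj⟩ := mem_iUnion.1 (hcov ⟨hx, hxZ⟩)
        by_cases hji : j = i
        · subst hji
          exact Or.inr (Or.inl hj)
        · exact Or.inr (Or.inr (mem_biUnion (show j ∈ {j | j ≠ i} from hji) hj))
    have hd : esupp u ∩ (U i ∩ ⋃ j ∈ {j | j ≠ i}, U j) ⊆ Z := by
      rintro x ⟨hx1, hx2, hx3⟩
      by_contra hxZ
      obtain ⟨j, hj, hxj⟩ := mem_iUnion₂.1 hx3
      have h1 : x ∈ (esupp u \ Z) ∩ (U i ∩ U j) := ⟨⟨hx1, hxZ⟩, hx2, hxj⟩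
      rw [hdis i j (Ne.symm hj)] at h1
      exact h1
    have hw := ws_cut h hZ (hU i) (isOpen_biUnion fun j _ => hU j) hc hd
    have h1 := ws_lower hw (kc_ne hZ.isClosed (hU i) (hne i)) hS0 (hS _ _ hw.1)
    refine h1.trans (le_of_eq ?_)
    rw [← integral_indicator ((hF.measurableSet.diff hZ.isClosed.measurableSet).inter (hU i).measurableSet)]
    refine integral_congr_ae ?_
    filter_upwards [hu0', hZ0] with x hx1 hx2
    by_cases hxU : x ∈ U i
    · rw [indicator_of_mem hxU]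
      by_cases hxF : x ∈ esupp u
      · by_cases hxZ : x ∈ Z
        · rw [hx2 hxZ, indicator_of_notMem (fun hh => hh.1.2 hxZ), norm_zero]
          norm_num
        · rw [indicator_of_mem (show x ∈ (esupp u \ Z) ∩ U i from ⟨⟨hxF, hxZ⟩, hxU⟩)]
      · rw [hx1 hxF, indicator_of_notMem (fun hh => hxF hh.1.1), norm_zero]
        norm_num
    · rw [indicator_of_notMem hxU, indicator_of_notMem (fun hh => hxU hh.2), norm_zero]
      norm_num
  have hm : ∀ i, MeasurableSet ((esupp u \ Z) ∩ U i) := fun i =>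
    (hF.measurableSet.diff hZ.isClosed.measurableSet).inter (hU i).measurableSet
  have hdisj : Pairwise (Function.onFun Disjoint fun i => (esupp u \ Z) ∩ U i) := by
    intro i j hij
    rw [Function.onFun, Set.disjoint_left]
    intro x hx hx'
    have h1 : x ∈ (esupp u \ Z) ∩ (U i ∩ U j) := ⟨hx.1, hx.2, hx'.2⟩
    rw [hdis i j hij] at h1
    exact h1
  calc (Fintype.card ι : ℝ) * S ^ (3 / 2 : ℝ) = ∑ _i : ι, S ^ (3 / 2 : ℝ) := by
        rw [Finset.sum_const, Finset.card_univ, nsmul_eq_mul]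
    _ ≤ ∑ i : ι, ∫ x in (esupp u \ Z) ∩ U i, ‖u x‖ ^ 6 := Finset.sum_le_sum fun i _ => hpiece i
    _ = ∫ x in ⋃ i, (esupp u \ Z) ∩ U i, ‖u x‖ ^ 6 :=
        (integral_iUnion_fintype hm hdisj fun i => hI.integrableOn).symm
    _ ≤ ∫ x, ‖u x‖ ^ 6 := setIntegral_le_integral hI (Eventually.of_forall fun x => by positivity)

/-- the same with `Fin m` -/
theorem supp_pieces_fin {u B : E → E} (h : WeakSol u B) {S : ℝ} (hS0 : 0 < S) (hS : CurlSob S)
    {Z : Set E} (hZ : IsClosed Z) (hu : Neg Z u) (hB : Neg Z B) {m : ℕ} {U : Fin m → Set E}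
    (hU : ∀ i, IsOpen (U i)) (hcov : esupp u \ Z ⊆ ⋃ i, U i)
    (hdis : ∀ i j, i ≠ j → (esupp u \ Z) ∩ (U i ∩ U j) = ∅)
    (hne : ∀ i, ((esupp u \ Z) ∩ U i).Nonempty) :
    (m : ℝ) * S ^ (3 / 2 : ℝ) ≤ ∫ x, ‖u x‖ ^ 6 := by
  have h1 := supp_pieces h hS0 hS (Or.inr ⟨hZ, hu, hB⟩) hU hcov hdis hne
  rwa [Fintype.card_fin] at h1

/-- below twice the least energy the support minus such a set is connected -/
theorem supp_conn_low {u B : E → E} (h : WeakSol u B) {S : ℝ} (hS0 : 0 < S) (hS : CurlSob S)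
    (hlow : ∫ x, ‖u x‖ ^ 6 < 2 * S ^ (3 / 2 : ℝ)) {Z : Set E} (hZ : CutSet Z u B) :
    IsPreconnected (esupp u \ Z) := by
  intro U₁ U₂ hU₁ hU₂ hcov hn₁ hn₂
  by_contra hno
  rw [not_nonempty_iff_eq_empty] at hno
  have h1 := supp_pieces h hS0 hS hZ (ι := Bool) (U := fun b => if b then U₁ else U₂)
    (fun b => by cases b <;> simp [hU₁, hU₂])
    (fun x hx => by
      rcases hcov hx with hx1 | hx1
      · exact mem_iUnion.2 ⟨true, by simpa using hx1⟩
      · exact mem_iUnion.2 ⟨false, by simpa using hx1⟩)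
    (fun i j hij => by
      cases i <;> cases j
      · exact absurd rfl hij
      · simp only [Bool.false_eq_true, if_false, if_true]
        rw [inter_comm U₂ U₁]
        exact hno
      · simp only [Bool.false_eq_true, if_false, if_true]
        exact hno
      · exact absurd rfl hij)
    (fun b => by cases b <;> simp [hn₁, hn₂])
  rw [Fintype.card_bool] at h1
  norm_num at h1
  linarith

end Pool.CQ.K
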