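import Pool.Agent.Lib.MP_cd5b91_an.CQ.TorAlg

/-!
# CQ-KDefs: extremals in a symmetry class
-/

open MeasureTheory Filter Topology Set
open scoped ContDiff RealInnerProductSpace ENNReal

namespace Pool.CQ

/-- axisymmetric fields (for every rotation about the third axis, almost everywhere) -/
def Axi (v : E → E) : Prop := ∀ γ : ℝ, ∀ᵐ x, v (rot γ x) = rot γ (v x)

/-- poloidal axisymmetric fields (no swirl) -/
def AxiPol (v : E → E) : Prop := Axi v ∧ ∀ᵐ x, ⟪v x, T x⟫ = 0

/-- toroidal axisymmetric fields (pure swirl) -/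
def AxiTor (v : E → E) : Prop := Axi v ∧ ∀ᵐ x, v x = ⟪v x, T x⟫ • th x

/-- the class contains the poloidal equivariant fields -/
def HasPol (K : (E → E) → Prop) : Prop :=
  ∀ v : E → E, Equi v → (∀ x, ⟪v x, T x⟫ = 0) → K v

/-- the class contains all equivariant fields -/
def HasEqui (K : (E → E) → Prop) : Prop := ∀ v : E → E, Equi v → K v

/-- the class contains the swirl fields -/
def HasTor (K : (E → E) → Prop) : Prop :=
  ∀ g : E → ℝ, RotInv g → K (fun x => g x • th x)

theorem hasEqui_Axi : HasEqui Axi := fun _ hv γ => Eventually.of_forall fun x => hv γ x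

theorem hasPol_Axi : HasPol Axi := fun v hv _ => hasEqui_Axi v hv

theorem hasTor_Axi : HasTor Axi := fun _ hg => hasEqui_Axi _ (equi_smul hg fun γ x => th_rot γ x)

theorem hasTor_AxiTor : HasTor AxiTor := by
  intro g hg
  refine ⟨hasTor_Axi g hg, ?_⟩
  filter_upwards [ae_Oax] with x hx
  rw [real_inner_smul_left, real_inner_comm, inner_T_th hx, mul_one]

theorem hasPol_AxiPol : HasPol AxiPol := fun v hv hT =>
  ⟨hasEqui_Axi v hv, Eventually.of_forall hT⟩

end Pool.CQ
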