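import Pool.Agent.Lib.MP_cd5b91_an.CQ.TorAlg

/-!
# CQ-Split
-/

open MeasureTheory Filter Topology Set
open scoped ContDiff RealInnerProductSpace ENNReal

namespace Pool.CQ

private noncomputable def sfl (x : E) : E := !₂[x 0, -x 1, x 2]

private theorem sfl_sfl (x : E) : sfl (sfl x) = x := by
  ext i
  fin_cases i <;> simp [sfl]

private theorem inner_E (a b : E) : ⟪a, b⟫ = a 0 * b 0 + a 1 * b 1 + a 2 * b 2 := by
  simp only [PiLp.inner_apply, Fin.sum_univ_three, RCLike.inner_apply, conj_trivial]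
  ring

private noncomputable def sL : E ≃ₗᵢ[ℝ] E where
  toFun := sfl
  invFun := sfl
  map_add' x y := by
    ext i
    fin_cases i <;> simp [sfl]
    ring
  map_smul' c x := by
    ext i
    fin_cases i <;> simp [sfl]
  left_inv := sfl_sfl
  right_inv := sfl_sfl
  norm_map' x := by
    have h : ‖sfl x‖ ^ 2 = ‖x‖ ^ 2 := by
      rw [← real_inner_self_eq_norm_sq, ← real_inner_self_eq_norm_sq, inner_E, inner_E]
      simp [sfl]
    have h2 := (sq_eq_sq₀ (norm_nonneg _) (norm_nonneg _)).1 h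
    exact h2

private theorem sL_apply (x : E) : sL x = sfl x := rfl

private theorem inner_sfl (a b : E) : ⟪sfl a, b⟫ = ⟪a, sfl b⟫ := by
  rw [inner_E, inner_E]
  simp [sfl]

private theorem cov (g : E → ℝ) : ∫ x, g (sfl x) = ∫ x, g x :=
  (sL.measurePreserving).integral_comp sL.toHomeomorph.measurableEmbedding g

private theorem sfl_single0 : sfl (EuclideanSpace.single 0 (1 : ℝ)) = EuclideanSpace.single 0 1 := by
  ext i
  fin_cases i <;> simp [sfl]

private theorem sfl_single1 :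
    sfl (EuclideanSpace.single 1 (1 : ℝ)) = -EuclideanSpace.single 1 1 := by
  ext i
  fin_cases i <;> simp [sfl]

private theorem sfl_single2 : sfl (EuclideanSpace.single 2 (1 : ℝ)) = EuclideanSpace.single 2 1 := by
  ext i
  fin_cases i <;> simp [sfl]

private theorem pd_comp (i : Fin 3) {f : E → ℝ} {x : E} (hf : DifferentiableAt ℝ f (sfl x)) :
    pd i (fun y => f (sfl y)) x = fderiv ℝ f (sfl x) (sfl (EuclideanSpace.single i (1 : ℝ))) := by
  unfold pd
  have h1 : HasFDerivAt (fun y : E => sfl y)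
      ((sL.toContinuousLinearEquiv : E ≃L[ℝ] E) : E →L[ℝ] E) x :=
    ((sL.toContinuousLinearEquiv : E ≃L[ℝ] E) : E →L[ℝ] E).hasFDerivAt
  have h2 := hf.hasFDerivAt.comp x h1
  have h3 : fderiv ℝ (fun y => f (sfl y)) x = (fderiv ℝ f (sfl x)).comp
      ((sL.toContinuousLinearEquiv : E ≃L[ℝ] E) : E →L[ℝ] E) := h2.fderiv
  rw [h3]
  rfl

private theorem pd_neg' (i : Fin 3) (f : E → ℝ) (x : E) :
    pd i (fun y => -f y) x = -pd i f x := by
  unfold pd
  rw [fderiv_fun_neg]
  rfl

private theorem curl_refl {φ : E → E} (hφ : ContDiff ℝ ∞ φ) (x : E) :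
    curl (fun y => sfl (φ (sfl y))) x = -sfl (curl φ (sfl x)) := by
  have hd : ∀ j : Fin 3, DifferentiableAt ℝ (fun y => φ y j) (sfl x) := by
    intro j
    have h0 : DifferentiableAt ℝ φ (sfl x) := (hφ.differentiable (by simp)) (sfl x)
    exact (EuclideanSpace.proj j : E →L[ℝ] ℝ).differentiableAt.comp
      (sfl x) h0
  have e0 : (fun y => sfl (φ (sfl y)) 0) = fun y => (fun z => φ z 0) (sfl y) := by
    funext y; simp [sfl]
  have e1 : (fun y => sfl (φ (sfl y)) 1) = fun y => -((fun z => φ z 1) (sfl y)) := by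
    funext y; simp [sfl]
  have e2 : (fun y => sfl (φ (sfl y)) 2) = fun y => (fun z => φ z 2) (sfl y) := by
    funext y; simp [sfl]
  have n1 : ∀ j : Fin 3, pd 1 (fun y => (fun z => φ z j) (sfl y)) x =
      -pd 1 (fun z => φ z j) (sfl x) := by
    intro j
    rw [pd_comp 1 (hd j), sfl_single1, map_neg]
    rfl
  have n0 : ∀ j : Fin 3, pd 0 (fun y => (fun z => φ z j) (sfl y)) x =
      pd 0 (fun z => φ z j) (sfl x) := by
    intro j
    rw [pd_comp 0 (hd j), sfl_single0]
    rfl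
  have n2 : ∀ j : Fin 3, pd 2 (fun y => (fun z => φ z j) (sfl y)) x =
      pd 2 (fun z => φ z j) (sfl x) := by
    intro j
    rw [pd_comp 2 (hd j), sfl_single2]
    rfl
  unfold curl
  rw [e0, e1, e2, pd_neg', pd_neg', n0, n2, n2, n0, n1, n1]
  ext i
  fin_cases i <;> simp [sfl] <;> ring

private theorem testIn_refl {φ : E → E} (hφ : TestIn univ φ) :
    TestIn univ (fun y => sfl (φ (sfl y))) := by
  refine ⟨?_, ?_, subset_univ _⟩
  · have h1 : ContDiff ℝ ∞ (fun y : E => sfl y) := sL.contDiff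
    exact h1.comp (hφ.1.comp h1)
  · have h1 : HasCompactSupport (φ ∘ sL.toHomeomorph) := hφ.2.1.comp_homeomorph _
    have h2 : HasCompactSupport (sfl ∘ (φ ∘ sL.toHomeomorph)) := h1.comp_left (by
      ext i
      fin_cases i <;> simp [sfl])
    exact h2

private theorem refl_key {A C : E → E} (h : WC univ A C) {φ : E → E} (hφ : TestIn univ φ) :
    ∫ x, ⟪sfl (A (sfl x)), curl φ x⟫ = -∫ x, ⟪sfl (C (sfl x)), φ x⟫ := by
  have h1 : ∫ x, ⟪sfl (A (sfl x)), curl φ x⟫ = ∫ x, ⟪sfl (A x), curl φ (sfl x)⟫ := by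
    rw [← cov fun x => ⟪sfl (A x), curl φ (sfl x)⟫]
    simp only [sfl_sfl]
  have h2 : ∫ x, ⟪sfl (C (sfl x)), φ x⟫ = ∫ x, ⟪sfl (C x), φ (sfl x)⟫ := by
    rw [← cov fun x => ⟪sfl (C x), φ (sfl x)⟫]
    simp only [sfl_sfl]
  have h3 := h _ (testIn_refl hφ)
  have h4 : ∀ x, ⟪sfl (A x), curl φ (sfl x)⟫ = -⟪A x, curl (fun y => sfl (φ (sfl y))) x⟫ := by
    intro x
    rw [curl_refl hφ.1, inner_neg_right, neg_neg, inner_sfl]
  have h5 : ∀ x, ⟪sfl (C x), φ (sfl x)⟫ = ⟪C x, sfl (φ (sfl x))⟫ := fun x => inner_sfl _ _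
  rw [h1, h2]
  simp only [h4, h5]
  rw [integral_neg, h3]

private theorem exists_angle {c s : ℝ} (h : c ^ 2 + s ^ 2 = 1) :
    ∃ γ : ℝ, Real.cos γ = c ∧ Real.sin γ = s := by
  have hn : ‖(⟨c, s⟩ : ℂ)‖ = 1 := by
    rw [Complex.norm_def, Complex.normSq_mk, Real.sqrt_eq_one]
    nlinarith
  refine ⟨Complex.arg ⟨c, s⟩, ?_, ?_⟩
  · have h1 := Complex.norm_mul_cos_arg (⟨c, s⟩ : ℂ)
    rw [hn, one_mul] at h1
    exact h1
  · have h1 := Complex.norm_mul_sin_arg (⟨c, s⟩ : ℂ)
    rw [hn, one_mul] at h1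
    exact h1

private theorem refl_equi {A : E → E} (eA : Equi A) {x : E} (hx : x ∈ Oax) :
    sfl (A (sfl x)) = pol A x - tor A x := by
  have hr : 0 < rr x := hx
  have hr' : x 0 ^ 2 + x 1 ^ 2 ≠ 0 := ne_of_gt hr
  obtain ⟨γ, hc, hs⟩ := exists_angle (c := (x 0 ^ 2 - x 1 ^ 2) / (x 0 ^ 2 + x 1 ^ 2))
    (s := -(2 * x 0 * x 1) / (x 0 ^ 2 + x 1 ^ 2)) (by
      field_simp
      ring)
  have hrot : sfl x = rot γ x := by
    unfold rot sfl
    rw [hc, hs]
    ext i
    fin_cases i
    · simp only [Fin.zero_eta, Fin.isValue, Matrix.cons_val_zero]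
      field_simp
      ring
    · simp only [Fin.mk_one, Fin.isValue, Matrix.cons_val_one,
        Matrix.cons_val_zero]
      field_simp
      ring
    · simp
  rw [hrot, eA γ x]
  have hT : ⟪A x, T x⟫ = -(A x 0 * x 1) + A x 1 * x 0 := by
    rw [inner_E]
    simp [T]
  have hpt : pol A x - tor A x = A x - (2 * ⟪A x, T x⟫ * (rr x)⁻¹) • T x := by
    unfold pol tor th
    rw [smul_smul]
    module
  rw [hpt, hT]
  unfold rot sfl rr T
  rw [hc, hs]
  ext i
  fin_cases i
  · simp only [Fin.zero_eta, Fin.isValue, Matrix.cons_val_zero, PiLp.sub_apply,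
      PiLp.smul_apply, smul_eq_mul]
    field_simp
    ring
  · simp only [Fin.mk_one, Fin.isValue, Matrix.cons_val_one,
      Matrix.cons_val_zero, PiLp.sub_apply, PiLp.smul_apply, smul_eq_mul]
    field_simp
    ring
  · simp

private theorem integ {f g : E → E} (hf : LpL 1 univ f) (hg : Continuous g)
    (hgc : HasCompactSupport g) : Integrable (fun x => ⟪f x, g x⟫) volume := by
  have hK : IsCompact (tsupport g) := hgc
  have h1 : Integrable f (volume.restrict (tsupport g)) :=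
    memLp_one_iff_integrable.1 (hf _ hK (subset_univ _))
  obtain ⟨M, hM⟩ := hgc.exists_bound_of_continuous hg
  have h2 : IntegrableOn (fun x => ⟪f x, g x⟫) (tsupport g) volume := by
    refine Integrable.mono' (h1.norm.mul_const M)
      (h1.aestronglyMeasurable.inner hg.aestronglyMeasurable) ?_
    refine Eventually.of_forall fun x => ?_
    refine (norm_inner_le_norm _ _).trans ?_
    exact mul_le_mul_of_nonneg_left (hM x) (norm_nonneg _)
  refine (integrableOn_iff_integrable_of_support_subset ?_).1 h2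
  intro x hx
  refine subset_tsupport g ?_
  rw [Function.mem_support] at hx ⊢
  intro h0
  exact hx (by rw [h0, inner_zero_right])

private theorem continuous_curl {φ : E → E} (hφ : ContDiff ℝ ∞ φ) : Continuous (curl φ) := by
  have hd : ∀ i j : Fin 3, Continuous (pd i fun y => φ y j) := by
    intro i j
    have h0 : ContDiff ℝ ∞ (fun y => φ y j) :=
      (EuclideanSpace.proj j : E →L[ℝ] ℝ).contDiff.comp hφ
    exact (h0.continuous_fderiv (by simp)).clm_apply continuous_const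
  unfold curl
  refine (PiLp.continuous_toLp 2 _).comp ?_
  refine continuous_pi fun i => ?_
  fin_cases i
  · exact (hd 1 2).sub (hd 2 1)
  · exact (hd 2 0).sub (hd 0 2)
  · exact (hd 0 1).sub (hd 1 0)

private theorem curl_compact {φ : E → E} (hφ : HasCompactSupport φ) :
    HasCompactSupport (curl φ) := by
  refine hφ.mono' ?_
  intro x hx
  by_contra hx'
  apply hx
  have h0 : φ =ᶠ[𝓝 x] fun _ => (0 : E) := notMem_tsupport_iff_eventuallyEq.1 hx'
  have hd : ∀ i j : Fin 3, pd i (fun y => φ y j) x = 0 := by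
    intro i j
    have h1 : (fun y => φ y j) =ᶠ[𝓝 x] fun _ => (0 : ℝ) := by
      filter_upwards [h0] with y hy
      rw [hy]
      rfl
    unfold pd
    rw [h1.fderiv_eq]
    simp
  unfold curl
  rw [hd, hd, hd, hd, hd, hd]
  ext i
  fin_cases i <;> simp

theorem wc_split {A C : E → E} (hA : LpL 1 univ A) (hC : LpL 1 univ C) (eA : Equi A) (eC : Equi C)
    (h : WC univ A C) : WC univ (tor A) (pol C) ∧ WC univ (pol A) (tor C) := by
  have main : ∀ φ : E → E, TestIn univ φ →
      (∫ x, ⟪tor A x, curl φ x⟫ = ∫ x, ⟪pol C x, φ x⟫) ∧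
      (∫ x, ⟪pol A x, curl φ x⟫ = ∫ x, ⟪tor C x, φ x⟫) := by
    intro φ hφ
    have cc := continuous_curl hφ.1
    have cs := curl_compact hφ.2.1
    have pc : Continuous φ := hφ.1.continuous
    have iTA := integ (lpl_tor hA) cc cs
    have iPA := integ (lpl_pol hA) cc cs
    have iTC := integ (lpl_tor hC) pc hφ.2.1
    have iPC := integ (lpl_pol hC) pc hφ.2.1
    have k1 := refl_key h hφ
    have k2 := h φ hφ
    have a1 : ∫ x, ⟪sfl (A (sfl x)), curl φ x⟫ =
        (∫ x, ⟪pol A x, curl φ x⟫) - ∫ x, ⟪tor A x, curl φ x⟫ := by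
      rw [← integral_sub iPA iTA]
      refine integral_congr_ae ?_
      filter_upwards [ae_Oax] with x hx
      rw [refl_equi eA hx, inner_sub_left]
    have a2 : ∫ x, ⟪sfl (C (sfl x)), φ x⟫ =
        (∫ x, ⟪pol C x, φ x⟫) - ∫ x, ⟪tor C x, φ x⟫ := by
      rw [← integral_sub iPC iTC]
      refine integral_congr_ae ?_
      filter_upwards [ae_Oax] with x hx
      rw [refl_equi eC hx, inner_sub_left]
    have a3 : ∫ x, ⟪A x, curl φ x⟫ =
        (∫ x, ⟪pol A x, curl φ x⟫) + ∫ x, ⟪tor A x, curl φ x⟫ := by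
      rw [← integral_add iPA iTA]
      refine integral_congr_ae (Eventually.of_forall fun x => ?_)
      change ⟪A x, curl φ x⟫ = ⟪pol A x, curl φ x⟫ + ⟪tor A x, curl φ x⟫
      rw [← inner_add_left]
      simp [pol]
    have a4 : ∫ x, ⟪C x, φ x⟫ =
        (∫ x, ⟪pol C x, φ x⟫) + ∫ x, ⟪tor C x, φ x⟫ := by
      rw [← integral_add iPC iTC]
      refine integral_congr_ae (Eventually.of_forall fun x => ?_)
      change ⟪C x, φ x⟫ = ⟪pol C x, φ x⟫ + ⟪tor C x, φ x⟫
      rw [← inner_add_left]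
      simp [pol]
    rw [a1, a2] at k1
    rw [a3, a4] at k2
    constructor <;> linarith
  exact ⟨fun φ hφ => (main φ hφ).1, fun φ hφ => (main φ hφ).2⟩

end Pool.CQ
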