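import Pool.Agent.Lib.MP_cd5b91_an.CQ.TorAlg

/-!
# CQ-Trunc
-/

open MeasureTheory Filter Topology Set
open scoped ContDiff RealInnerProductSpace ENNReal

namespace Pool.CQ

private theorem meas_rr : Measurable rr := by
  unfold rr
  fun_prop

theorem trunc_meas {f : E → ℝ} (hf : Measurable f) (n : ℕ) : Measurable (trunc n f) := by
  unfold trunc
  refine Measurable.ite ?_ hf measurable_const
  have h1 : MeasurableSet {x : E | 1 / ((n : ℝ) + 1) ≤ rr x} := measurableSet_le measurable_const meas_rr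
  have h2 : MeasurableSet {x : E | ‖x‖ ≤ (n : ℝ) + 1} := measurableSet_le measurable_norm measurable_const
  have h3 : MeasurableSet {x : E | |f x| ≤ (n : ℝ) + 1} :=
    measurableSet_le (continuous_abs.measurable.comp hf) measurable_const
  exact h1.inter (h2.inter h3)

private theorem norm_rot (γ : ℝ) (x : E) : ‖rot γ x‖ = ‖x‖ := by
  have h := inner_rot γ x x
  rw [real_inner_self_eq_norm_sq, real_inner_self_eq_norm_sq] at h
  exact (sq_eq_sq₀ (norm_nonneg _) (norm_nonneg _)).mp h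

theorem trunc_rotinv {f : E → ℝ} (hf : RotInv f) (n : ℕ) : RotInv (trunc n f) := by
  intro γ x
  unfold trunc
  rw [rr_rot, norm_rot, hf γ x]

theorem trunc_or (f : E → ℝ) (n : ℕ) (x : E) : trunc n f x = f x ∨ trunc n f x = 0 := by
  unfold trunc
  split_ifs
  · exact Or.inl rfl
  · exact Or.inr rfl

theorem trunc_bound (f : E → ℝ) (n : ℕ) (x : E) : |trunc n f x| ≤ (n : ℝ) + 1 := by
  unfold trunc
  split_ifs with h
  · exact h.2.2
  · rw [abs_zero]
    positivity

theorem trunc_supp (f : E → ℝ) (n : ℕ) (x : E) (h : trunc n f x ≠ 0) :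
    1 / ((n : ℝ) + 1) ≤ rr x ∧ ‖x‖ ≤ (n : ℝ) + 1 := by
  by_contra hc
  apply h
  unfold trunc
  rw [if_neg]
  intro h'
  exact hc ⟨h'.1, h'.2.1⟩

theorem trunc_tendsto (f : E → ℝ) {x : E} (hx : x ∈ Oax) :
    Tendsto (fun n => trunc n f x) atTop (𝓝 (f x)) := by
  have hx' : 0 < rr x := hx
  have hN : Tendsto (fun n : ℕ => (n : ℝ) + 1) atTop atTop :=
    tendsto_atTop_add_const_right _ _ tendsto_natCast_atTop_atTop
  have e1 : ∀ᶠ n : ℕ in atTop, 1 / ((n : ℝ) + 1) ≤ rr x := by
    have h := tendsto_one_div_add_atTop_nhds_zero_nat (𝕜 := ℝ)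
    filter_upwards [h.eventually_lt_const hx'] with n hn using hn.le
  have e2 : ∀ᶠ n : ℕ in atTop, ‖x‖ ≤ (n : ℝ) + 1 := hN.eventually_ge_atTop _
  have e3 : ∀ᶠ n : ℕ in atTop, |f x| ≤ (n : ℝ) + 1 := hN.eventually_ge_atTop _
  refine tendsto_const_nhds.congr' ?_
  filter_upwards [e1, e2, e3] with n h1 h2 h3
  unfold trunc
  rw [if_pos ⟨h1, h2, h3⟩]

/-- bounded fields with bounded support are in all `L^p` -/
theorem memLp_bdd {p : ℝ≥0∞} {v : E → E} (hv : Measurable v) {M R : ℝ} (hM : ∀ x, ‖v x‖ ≤ M)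
    (hR : ∀ x, v x ≠ 0 → ‖x‖ ≤ R) : MemLp v p volume := by
  have h1 : MemLp (indicator (Metric.closedBall (0 : E) R) (fun _ => M)) p volume :=
    memLp_indicator_const p measurableSet_closedBall M (Or.inr measure_closedBall_lt_top.ne)
  refine h1.mono' hv.aestronglyMeasurable (ae_of_all _ fun x => ?_)
  by_cases hx : v x = 0
  · rw [hx, norm_zero]
    exact indicator_nonneg (fun y _ => le_trans (norm_nonneg _) (hM y)) x
  · rw [indicator_of_mem (by simpa using hR x hx)]
    exact hM x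

theorem memLp_trunc {p : ℝ≥0∞} {f : E → ℝ} (hf : Measurable f) (n : ℕ) :
    MemLp (fun x => trunc n f x • th x) p volume := by
  refine memLp_bdd ((trunc_meas hf n).smul measurable_th) (M := ((n : ℝ) + 1) * ((n : ℝ) + 1)) (R := (n : ℝ) + 1)
    (fun x => ?_) (fun x hx => ?_)
  · by_cases h0 : trunc n f x = 0
    · rw [h0, zero_smul, norm_zero]
      positivity
    · have hs := trunc_supp f n x h0
      have hn : (0 : ℝ) < (n : ℝ) + 1 := by positivity
      have h1 : ‖th x‖ ^ 2 ≤ (n : ℝ) + 1 := by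
        rw [norm_th_sq]
        have h2 := inv_anti₀ (by positivity) hs.1
        simpa using h2
      have h3 : ‖th x‖ ≤ (n : ℝ) + 1 := by
        have h4 : (1 : ℝ) ≤ (n : ℝ) + 1 := by
          have : (0 : ℝ) ≤ n := Nat.cast_nonneg n
          linarith
        have h5 := norm_nonneg (th x)
        nlinarith
      rw [norm_smul, Real.norm_eq_abs]
      exact mul_le_mul (trunc_bound f n x) h3 (norm_nonneg _) hn.le
  · refine (trunc_supp f n x fun h0 => hx ?_).2
    rw [h0, zero_smul]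

end Pool.CQ
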