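import Pool.Agent.Lib.MP_cd5b91_an.CQ.Pot
import Pool.Agent.Lib.MP_cd5b91_an.CQ.Split
import Pool.Agent.Lib.MP_cd5b91_an.CQ.Trunc

/-!
# CQ-KPot: poloidal potentials
-/

open MeasureTheory Filter Topology Set
open scoped ContDiff RealInnerProductSpace ENNReal

namespace Pool.CQ

theorem potential_pol {f : E → ℝ} (hf : Measurable f) (hr : RotInv f) {M R δ : ℝ}
    (hM : ∀ x, |f x| ≤ M) (hδ : 0 < δ) (hs : ∀ x, f x ≠ 0 → δ ≤ rr x ∧ ‖x‖ ≤ R)
    (hfL : LpL 1 univ (fun x => f x • th x)) :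
    ∃ v : E → E, Measurable v ∧ (∃ M' : ℝ, ∀ x, ‖v x‖ ≤ M') ∧ (∃ R' : ℝ, ∀ x, v x ≠ 0 → ‖x‖ ≤ R') ∧
      WC univ v (fun x => f x • th x) ∧ Equi v ∧ ∀ x, ⟪v x, T x⟫ = 0 := by
  obtain ⟨v, hv, ⟨M', hM'⟩, ⟨R', hR'⟩, hw, ev⟩ := potential_equi hf hr hM hδ hs
  have hv1 : MemLp v 1 volume := memLp_bdd hv hM' hR'
  have hvL : LpL 1 univ v := fun K _ _ => hv1.restrict K
  have ef : Equi (fun x => f x • th x) := equi_smul hr fun γ x => th_rot γ x
  have htor : tor (fun x => f x • th x) = fun x => f x • th x := by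
    funext x
    unfold tor
    by_cases hx : x ∈ Oax
    · rw [real_inner_smul_left, real_inner_comm, inner_T_th hx, mul_one]
    · have h1 : f x = 0 := by
        by_contra h2
        exact hx (lt_of_lt_of_le hδ (hs x h2).1)
      simp only [h1, zero_smul, inner_zero_left]
  have h2 := (wc_split hvL hfL ev ef hw).2
  rw [htor] at h2
  refine ⟨pol v, measurable_pol hv, ⟨M', fun x => (norm_pol_le v x).trans (hM' x)⟩, ⟨R', fun x hx => ?_⟩,
    h2, equi_pol ev, inner_pol_T v⟩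
  refine hR' x fun h0 => hx ?_
  unfold pol tor
  rw [h0, inner_zero_left, zero_smul, sub_zero]

end Pool.CQ
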