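import Pool.Agent.Lib.MP_cd5b91_an.CQ.KIneq
import Pool.Agent.Lib.MP_cd5b91_an.CQ.KPot
import Pool.Agent.Lib.MP_cd5b91_an.CQ.Trunc

/-!
# CQ-KDualIneq
-/

open MeasureTheory Filter Topology Set
open scoped ContDiff RealInnerProductSpace ENNReal

namespace Pool.CQ.K

private theorem norm_trunc_le (g : E → ℝ) (n : ℕ) (x : E) :
    ‖trunc n g x • th x‖ ^ 2 ≤ ‖g x • th x‖ ^ 2 := by
  rcases trunc_or g n x with h | h
  · rw [h]
  · rw [h, zero_smul, norm_zero, zero_pow two_ne_zero]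
    positivity

private theorem inner_trunc (g : E → ℝ) (n : ℕ) (x : E) :
    ⟪g x • th x, trunc n g x • th x⟫ = ‖trunc n g x • th x‖ ^ 2 := by
  rcases trunc_or g n x with h | h
  · rw [h, real_inner_self_eq_norm_sq]
  · rw [h, zero_smul, norm_zero, inner_zero_right]
    norm_num

private theorem sq_int {F : E → E} (hF : MemLp F 2 volume) :
    Integrable (fun x => ‖F x‖ ^ 2) volume := by
  have := hF.integrable_norm_pow (p := 2) (by norm_num)
  simpa using this

theorem dual_ineq {K : (E → E) → Prop} (hP : HasPol K) {S : ℝ} (hS0 : 0 < S) (hS : CurlSobOn K S) {g : E → ℝ} (hg : Measurable g)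
    (hr : RotInv g) {V' : E → E} (hB : MemLp (fun x => g x • th x) 2 volume)
    (hV : MemLp V' (6 / 5) volume) (h : WC univ (fun x => g x • th x) V') :
    S * ∫ x, ‖g x • th x‖ ^ 2 ≤ (∫ x, ‖V' x‖ ^ (6 / 5 : ℝ)) ^ (5 / 3 : ℝ) := by
  set a : ℝ := (∫ x, ‖V' x‖ ^ (6 / 5 : ℝ)) ^ (5 / 3 : ℝ) with ha
  have ha0 : 0 ≤ a := by
    rw [ha]
    refine Real.rpow_nonneg (integral_nonneg fun x => ?_) _
    positivity
  have hn : ∀ n : ℕ, S * ∫ x, ‖trunc n g x • th x‖ ^ 2 ≤ a := by
    intro n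
    have hn0 : (0 : ℝ) < (n : ℝ) + 1 := by positivity
    obtain ⟨v, hvm, ⟨M', hM'⟩, ⟨R', hR'⟩, hWC, ev, hvT⟩ := potential_pol (trunc_meas hg n) (trunc_rotinv hr n)
      (trunc_bound g n) (δ := 1 / ((n : ℝ) + 1)) (by positivity) (trunc_supp g n)
      (fun K _ _ => (memLp_trunc hg n).restrict K)
    have hW : W6 v (fun x => trunc n g x • th x) :=
      ⟨memLp_bdd hvm hM' hR', memLp_trunc hg n, hWC⟩
    have h1 := gs_ineq hS0 hS (hP v ev hvT) hB hV h hW
    have h2 : ∫ x, ⟪(fun x => g x • th x) x, (fun x => trunc n g x • th x) x⟫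
        = ∫ x, ‖trunc n g x • th x‖ ^ 2 :=
      integral_congr_ae (Eventually.of_forall fun x => inner_trunc g n x)
    rw [h2, ← ha] at h1
    have hc0 : 0 ≤ ∫ x, ‖trunc n g x • th x‖ ^ 2 := integral_nonneg fun x => by positivity
    rcases hc0.eq_or_lt with hc | hc
    · rw [← hc, mul_zero]
      exact ha0
    · refine le_of_mul_le_mul_right ?_ hc
      calc (S * ∫ x, ‖trunc n g x • th x‖ ^ 2) * ∫ x, ‖trunc n g x • th x‖ ^ 2
          = S * (∫ x, ‖trunc n g x • th x‖ ^ 2) ^ 2 := by ring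
        _ ≤ _ := h1
  have hlim : Tendsto (fun n : ℕ => ∫ x, ‖trunc n g x • th x‖ ^ 2) atTop
      (𝓝 (∫ x, ‖g x • th x‖ ^ 2)) := by
    refine tendsto_integral_of_dominated_convergence (fun x => ‖g x • th x‖ ^ 2) ?_ (sq_int hB) ?_ ?_
    · intro n
      exact (sq_int (memLp_trunc hg n)).aestronglyMeasurable
    · intro n
      refine Eventually.of_forall fun x => ?_
      rw [Real.norm_of_nonneg (by positivity)]
      exact norm_trunc_le g n x
    · filter_upwards [ae_Oax] with x hx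
      exact (((trunc_tendsto g hx).smul_const (th x)).norm).pow 2
  exact le_of_tendsto (hlim.const_mul S) (Eventually.of_forall hn)

end Pool.CQ.K
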