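import Pool.Agent.Lib.MP_cd5b91_an.CQ.Alg

/-!
# CQ-TorAlg
-/

open MeasureTheory Filter Topology Set
open scoped ContDiff RealInnerProductSpace ENNReal

namespace Pool.CQ

private theorem inner3 (a b : E) : ⟪a, b⟫ = a 0 * b 0 + a 1 * b 1 + a 2 * b 2 := by
  simp only [PiLp.inner_apply, Fin.sum_univ_three, RCLike.inner_apply, conj_trivial]
  ring

private theorem T0 (x : E) : T x 0 = -x 1 := rfl
private theorem T1 (x : E) : T x 1 = x 0 := rfl
private theorem T2 (x : E) : T x 2 = 0 := rfl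
private theorem R0 (γ : ℝ) (x : E) : rot γ x 0 = Real.cos γ * x 0 - Real.sin γ * x 1 := rfl
private theorem R1 (γ : ℝ) (x : E) : rot γ x 1 = Real.sin γ * x 0 + Real.cos γ * x 1 := rfl
private theorem R2 (γ : ℝ) (x : E) : rot γ x 2 = x 2 := rfl

private theorem ext3 {a b : E} (h0 : a 0 = b 0) (h1 : a 1 = b 1) (h2 : a 2 = b 2) : a = b := by
  ext i
  fin_cases i
  · exact h0
  · exact h1
  · exact h2

theorem inner_rot (γ : ℝ) (a b : E) : ⟪rot γ a, rot γ b⟫ = ⟪a, b⟫ := by
  rw [inner3, inner3, R0, R1, R2, R0, R1, R2]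
  linear_combination (a 0 * b 0 + a 1 * b 1) * Real.sin_sq_add_cos_sq γ

theorem T_rot (γ : ℝ) (x : E) : T (rot γ x) = rot γ (T x) := by
  refine ext3 ?_ ?_ ?_
  · rw [T0, R1, R0, T0, T1]; ring
  · rw [T1, R0, R1, T0, T1]; ring
  · rw [T2, R2, T2]

theorem rr_rot (γ : ℝ) (x : E) : rr (rot γ x) = rr x := by
  unfold rr
  rw [R0, R1]
  linear_combination (x 0 ^ 2 + x 1 ^ 2) * Real.sin_sq_add_cos_sq γ

private theorem rot_smul (γ c : ℝ) (x : E) : rot γ (c • x) = c • rot γ x := by
  refine ext3 ?_ ?_ ?_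
  · show Real.cos γ * (c * x 0) - Real.sin γ * (c * x 1) = c * (Real.cos γ * x 0 - Real.sin γ * x 1)
    ring
  · show Real.sin γ * (c * x 0) + Real.cos γ * (c * x 1) = c * (Real.sin γ * x 0 + Real.cos γ * x 1)
    ring
  · rfl

private theorem rot_sub (γ : ℝ) (x y : E) : rot γ (x - y) = rot γ x - rot γ y := by
  refine ext3 ?_ ?_ ?_
  · show Real.cos γ * (x 0 - y 0) - Real.sin γ * (x 1 - y 1) =
      (Real.cos γ * x 0 - Real.sin γ * x 1) - (Real.cos γ * y 0 - Real.sin γ * y 1)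
    ring
  · show Real.sin γ * (x 0 - y 0) + Real.cos γ * (x 1 - y 1) =
      (Real.sin γ * x 0 + Real.cos γ * x 1) - (Real.sin γ * y 0 + Real.cos γ * y 1)
    ring
  · rfl

theorem th_rot (γ : ℝ) (x : E) : th (rot γ x) = rot γ (th x) := by
  unfold th
  rw [rr_rot, T_rot, rot_smul]

theorem rotinv_inner {u v : E → E} (hu : Equi u) (hv : Equi v) : RotInv (fun x => ⟪u x, v x⟫) := by
  intro γ x
  show ⟪u (rot γ x), v (rot γ x)⟫ = ⟪u x, v x⟫
  rw [hu γ x, hv γ x, inner_rot]

theorem rotinv_innerT {u : E → E} (hu : Equi u) : RotInv (fun x => ⟪u x, T x⟫) :=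
  rotinv_inner hu T_rot

theorem rotinv_norm {u : E → E} (hu : Equi u) : RotInv (fun x => ‖u x‖) := by
  intro γ x
  show ‖u (rot γ x)‖ = ‖u x‖
  rw [hu γ x, norm_eq_sqrt_real_inner, norm_eq_sqrt_real_inner, inner_rot]

theorem equi_smul {c : E → ℝ} {u : E → E} (hc : RotInv c) (hu : Equi u) :
    Equi (fun x => c x • u x) := by
  intro γ x
  show c (rot γ x) • u (rot γ x) = rot γ (c x • u x)
  rw [hc γ x, hu γ x, rot_smul]

theorem equi_tor {u : E → E} (hu : Equi u) : Equi (tor u) :=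
  equi_smul (rotinv_innerT hu) th_rot

theorem equi_pol {u : E → E} (hu : Equi u) : Equi (pol u) := by
  intro γ x
  show u (rot γ x) - tor u (rot γ x) = rot γ (u x - tor u x)
  rw [hu γ x, equi_tor hu γ x, rot_sub]

private theorem T_axis {x : E} (hx : x ∉ Oax) : T x = 0 := by
  have h : rr x = 0 := by
    have h1 : ¬ 0 < rr x := hx
    have h2 : 0 ≤ rr x := by unfold rr; positivity
    linarith
  rw [← norm_eq_zero, ← sq_eq_zero_iff, norm_T_sq, h]

theorem inner_pol_T (u : E → E) (x : E) : ⟪pol u x, T x⟫ = 0 := by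
  by_cases hx : x ∈ Oax
  · unfold pol tor
    rw [inner_sub_left, real_inner_smul_left, real_inner_comm (T x) (th x), inner_T_th hx, mul_one, sub_self]
  · rw [T_axis hx, inner_zero_right]

theorem inner_tor_pol (u : E → E) (x : E) : ⟪tor u x, pol u x⟫ = 0 := by
  have h : ⟪T x, pol u x⟫ = 0 := by
    rw [real_inner_comm]
    exact inner_pol_T u x
  have h2 : tor u x = (⟪u x, T x⟫ * (rr x)⁻¹) • T x := by
    unfold tor th
    rw [smul_smul]
  rw [h2, real_inner_smul_left, h, mul_zero]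

theorem norm_split (u : E → E) (x : E) : ‖u x‖ ^ 2 = ‖tor u x‖ ^ 2 + ‖pol u x‖ ^ 2 := by
  have h : u x = tor u x + pol u x := by unfold pol; abel
  conv_lhs => rw [h]
  rw [@norm_add_sq_real, inner_tor_pol, mul_zero, add_zero]

theorem norm_tor_le (u : E → E) (x : E) : ‖tor u x‖ ≤ ‖u x‖ := by
  refine le_of_sq_le_sq ?_ (norm_nonneg _)
  rw [norm_split u x]
  exact le_add_of_nonneg_right (sq_nonneg _)

theorem norm_pol_le (u : E → E) (x : E) : ‖pol u x‖ ≤ ‖u x‖ := by
  refine le_of_sq_le_sq ?_ (norm_nonneg _)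
  rw [norm_split u x]
  exact le_add_of_nonneg_left (sq_nonneg _)

theorem norm_tor (u : E → E) {x : E} (hx : x ∈ Oax) :
    ‖tor u x‖ ^ 2 = ⟪u x, T x⟫ ^ 2 * (rr x)⁻¹ := by
  have _ := hx
  unfold tor
  rw [norm_smul, mul_pow, norm_th_sq, Real.norm_eq_abs, sq_abs]

theorem tor_smul (c : E → ℝ) (u : E → E) (x : E) : tor (fun y => c y • u y) x = c x • tor u x := by
  unfold tor
  rw [real_inner_smul_left, mul_smul]

theorem pol_smul (c : E → ℝ) (u : E → E) (x : E) : pol (fun y => c y • u y) x = c x • pol u x := by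
  unfold pol
  rw [tor_smul, smul_sub]

private theorem continuous_T : Continuous T := by
  have : T = fun x => (!₂[-x 1, x 0, 0] : E) := rfl
  rw [this]
  refine (PiLp.continuous_toLp 2 _).comp ?_
  refine continuous_pi fun i => ?_
  fin_cases i
  · show Continuous fun x : E => -x 1
    fun_prop
  · show Continuous fun x : E => x 0
    fun_prop
  · exact continuous_const

theorem measurable_th : Measurable th := by
  have h : Measurable rr := by
    have : Continuous rr := by unfold rr; fun_prop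
    exact this.measurable
  exact h.inv.smul continuous_T.measurable

theorem measurable_tor {u : E → E} (hu : Measurable u) : Measurable (tor u) :=
  (Measurable.inner (𝕜 := ℝ) hu continuous_T.measurable).smul measurable_th

theorem measurable_pol {u : E → E} (hu : Measurable u) : Measurable (pol u) :=
  hu.sub (measurable_tor hu)

private theorem aesm_tor {μ : Measure E} {u : E → E} (hu : AEStronglyMeasurable u μ) :
    AEStronglyMeasurable (tor u) μ :=
  (AEStronglyMeasurable.inner (𝕜 := ℝ) hu continuous_T.aestronglyMeasurable).smul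
    measurable_th.aestronglyMeasurable

private theorem mt {μ : Measure E} {p : ℝ≥0∞} {u : E → E} (hu : MemLp u p μ) : MemLp (tor u) p μ :=
  hu.of_le (aesm_tor hu.1) (ae_of_all _ fun x => norm_tor_le u x)

private theorem mp {μ : Measure E} {p : ℝ≥0∞} {u : E → E} (hu : MemLp u p μ) : MemLp (pol u) p μ :=
  hu.of_le (hu.1.sub (aesm_tor hu.1)) (ae_of_all _ fun x => norm_pol_le u x)

theorem memLp_tor {p : ℝ≥0∞} {u : E → E} (hu : MemLp u p volume) : MemLp (tor u) p volume :=
  mt hu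

theorem memLp_pol {p : ℝ≥0∞} {u : E → E} (hu : MemLp u p volume) : MemLp (pol u) p volume :=
  mp hu

theorem lpl_tor {p : ℝ≥0∞} {O : Set E} {u : E → E} (hu : LpL p O u) : LpL p O (tor u) :=
  fun K hK hO => mt (hu K hK hO)

theorem lpl_pol {p : ℝ≥0∞} {O : Set E} {u : E → E} (hu : LpL p O u) : LpL p O (pol u) :=
  fun K hK hO => mp (hu K hK hO)

/-- the function `⟪u, T⟫` and the fields `posf`, `cutp` -/
theorem lpl_innerT {p : ℝ≥0∞} {O : Set E} {u : E → E} (hu : LpL p O u) :
    LpL p O (fun x => ⟪u x, T x⟫) := by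
  intro K hK hO
  obtain ⟨M, hM⟩ := hK.exists_bound_of_continuousOn continuous_T.continuousOn
  refine MemLp.of_le_mul (c := M) (hu K hK hO)
    ((hu K hK hO).1.inner continuous_T.aestronglyMeasurable) ?_
  refine (ae_restrict_iff' hK.measurableSet).2 (ae_of_all _ fun x hx => ?_)
  calc ‖⟪u x, T x⟫‖ ≤ ‖u x‖ * ‖T x‖ := norm_inner_le_norm _ _
    _ ≤ ‖u x‖ * M := mul_le_mul_of_nonneg_left (hM x hx) (norm_nonneg _)
    _ = M * ‖u x‖ := mul_comm _ _

theorem rotinv_posf {ψ : E → ℝ} (h : RotInv ψ) : RotInv (posf ψ) := by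
  intro γ x
  unfold posf
  rw [h γ x]

theorem norm_posf_smul_le (ψ : E → ℝ) (v : E) (x : E) : ‖posf ψ x • v‖ ≤ ‖ψ x • v‖ := by
  rw [norm_smul, norm_smul]
  refine mul_le_mul_of_nonneg_right ?_ (norm_nonneg _)
  rw [Real.norm_eq_abs, Real.norm_eq_abs]
  unfold posf
  rw [abs_of_nonneg (le_max_right _ _)]
  exact max_le (le_abs_self _) (abs_nonneg _)

theorem norm_cutp_le (ψ : E → ℝ) (C : E → E) (x : E) : ‖cutp ψ C x‖ ≤ ‖C x‖ := by
  unfold cutp
  split_ifs
  · exact le_rfl
  · rw [norm_zero]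
    exact norm_nonneg _

end Pool.CQ
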