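import Pool.Agent.Lib.MP_cd5b91_an.CQ.KBasic
import Pool.Agent.Lib.MP_cd5b91_an.CQ.Split
import Pool.Agent.Lib.MP_cd5b91_an.CQ.TorAlg
import Pool.Agent.Lib.MP_cd5b91_an.CQ.LpFacts

/-!
# CQ-KTorData
-/

open MeasureTheory Filter Topology Set
open scoped ContDiff RealInnerProductSpace ENNReal

namespace Pool.CQ.K

private theorem TorData_rot {u : E → E} (eu : Equi u) : RotInv (fun x => ‖u x‖ ^ 4) := fun γ x => by
  have h := rotinv_norm eu γ x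
  show ‖u (rot γ x)‖ ^ 4 = ‖u x‖ ^ 4
  rw [show ‖u (rot γ x)‖ = ‖u x‖ from h]

theorem tor_data0 {u B : E → E} (h : WeakSol u B) (eu : Equi u) (eB : Equi B) :
    W6 (tor u) (pol B) ∧ W6 (pol u) (tor B) ∧
      WC univ (pol B) (fun x => ‖u x‖ ^ 4 • tor u x) ∧
      WC univ (tor B) (fun x => ‖u x‖ ^ 4 • pol u x) := by
  obtain ⟨⟨hu, hB, hw⟩, hs⟩ := h
  obtain ⟨s1, s2⟩ := wc_split (lpl_one (by norm_num) hu univ) (lpl_one (by norm_num) hB univ) eu eB hw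
  have h65 : (1 : ℝ≥0∞) ≤ 6 / 5 := by
    rw [ENNReal.le_div_iff_mul_le (Or.inl (by norm_num)) (Or.inl (by norm_num))]
    norm_num
  obtain ⟨t1, t2⟩ := wc_split (lpl_one (by norm_num) hB univ) (lpl_one h65 (memLp_quint hu hu) univ) eB
    (equi_smul (TorData_rot eu) eu) hs
  have e1 : tor (fun y => ‖u y‖ ^ 4 • u y) = fun x => ‖u x‖ ^ 4 • tor u x :=
    funext fun x => tor_smul (fun y => ‖u y‖ ^ 4) u x
  have e2 : pol (fun y => ‖u y‖ ^ 4 • u y) = fun x => ‖u x‖ ^ 4 • pol u x :=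
    funext fun x => pol_smul (fun y => ‖u y‖ ^ 4) u x
  rw [e2] at t1
  rw [e1] at t2
  have w1 : W6 (tor u) (pol B) := ⟨memLp_tor hu, memLp_pol hB, s1⟩
  exact ⟨w1, ⟨memLp_pol hu, memLp_tor hB, s2⟩, t2, t1⟩

end Pool.CQ.K
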