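import Pool.Agent.Lib.MP_cd5b91_an.CQ.TorAlg

/-!
# CQ-WGradB
-/

open MeasureTheory Filter Topology Set
open scoped ContDiff RealInnerProductSpace ENNReal

namespace Pool.CQ

private theorem inner3 (a b : E) : ⟪a, b⟫ = a 0 * b 0 + a 1 * b 1 + a 2 * b 2 := by
  simp only [PiLp.inner_apply, Fin.sum_univ_three]
  simp only [RCLike.inner_apply, conj_trivial]
  ring

private theorem integrable_mul_of_LpL {f : E → ℝ} (hf : LpL 1 Oax f) {g : E → ℝ}
    (hg : Continuous g) {K : Set E} (hK : IsCompact K) (hKO : K ⊆ Oax)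
    (hs : ∀ x, x ∉ K → g x = 0) : Integrable (fun x => f x * g x) volume := by
  have h1 : IntegrableOn f K volume := memLp_one_iff_integrable.1 (hf K hK hKO)
  have h2 : IntegrableOn (fun x => f x * g x) K volume :=
    h1.mul_continuousOn hg.continuousOn hK
  refine (integrableOn_iff_integrable_of_support_subset ?_).1 h2
  intro x hx
  by_contra hxK
  exact hx (show f x * g x = 0 by rw [hs x hxK, mul_zero])

private theorem lpl_comp {C : E → E} (hC : LpL 1 Oax C) (i : Fin 3) :
    LpL 1 Oax (fun x => C x i) := by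
  intro K hK hKO
  have h := hC K hK hKO
  refine MemLp.of_le h ?_ ?_
  · exact (EuclideanSpace.proj (𝕜 := ℝ) i).continuous.comp_aestronglyMeasurable
      h.aestronglyMeasurable
  · refine Filter.Eventually.of_forall fun x => ?_
    exact PiLp.norm_apply_le (C x) i

private theorem comp_contDiff {φ : E → E} (hφ : ContDiff ℝ ∞ φ) (i : Fin 3) :
    ContDiff ℝ ∞ (fun x => φ x i) :=
  (EuclideanSpace.proj (𝕜 := ℝ) i).contDiff.comp hφ

private theorem th_comp_contDiffAt {x : E} (hx : x ∈ Oax) (i : Fin 3) :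
    ContDiffAt ℝ ∞ (fun x => th x i) x :=
  (EuclideanSpace.proj (𝕜 := ℝ) i).contDiff.contDiffAt.comp x
    ((contDiffOn_th.contDiffAt (isOpen_Oax.mem_nhds hx)))

private theorem pd_combo {a b c d : E → ℝ} {x : E} (ha : DifferentiableAt ℝ a x)
    (hb : DifferentiableAt ℝ b x) (hc : DifferentiableAt ℝ c x) (hd : DifferentiableAt ℝ d x)
    (i : Fin 3) :
    pd i (fun y => a y * c y - b y * d y) x =
      (pd i a x * c x + a x * pd i c x) - (pd i b x * d x + b x * pd i d x) := by
  unfold pd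
  have h := ((ha.hasFDerivAt.mul hc.hasFDerivAt).sub (hb.hasFDerivAt.mul hd.hasFDerivAt)).fderiv
  have h' : fderiv ℝ (fun y => a y * c y - b y * d y) x =
      a x • fderiv ℝ c x + c x • fderiv ℝ a x - (b x • fderiv ℝ d x + d x • fderiv ℝ b x) := h
  rw [h']
  simp only [sub_apply, add_apply, smul_apply, smul_eq_mul]
  ring

private theorem integral_add3 {f g h : E → ℝ} (hf : Integrable f volume)
    (hg : Integrable g volume) (hh : Integrable h volume) :
    ∫ x, (f x + g x + h x) = (∫ x, f x) + (∫ x, g x) + ∫ x, h x := by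
  rw [← integral_add hf hg]
  exact integral_add (hf.add hg) hh

/-- the products used for the components of `cr φ th` -/
private theorem stest_sub {a b c d : E → ℝ} {K : Set E} (hK : IsCompact K) (hKO : K ⊆ Oax)
    (ha : ContDiff ℝ ∞ a) (hb : ContDiff ℝ ∞ b)
    (hc : ∀ x ∈ Oax, ContDiffAt ℝ ∞ c x) (hd : ∀ x ∈ Oax, ContDiffAt ℝ ∞ d x)
    (haK : ∀ x, x ∉ K → a x = 0) (hbK : ∀ x, x ∉ K → b x = 0) :
    STest Oax (fun x => a x * c x - b x * d x) ∧
      tsupport (fun x => a x * c x - b x * d x) ⊆ K := by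
  have hsupp : Function.support (fun x => a x * c x - b x * d x) ⊆ K := by
    intro x hx
    by_contra hxK
    apply hx
    simp only [haK x hxK, hbK x hxK, zero_mul, sub_zero]
  have hts : tsupport (fun x => a x * c x - b x * d x) ⊆ K :=
    closure_minimal hsupp hK.isClosed
  refine ⟨⟨?_, ?_, hts.trans hKO⟩, hts⟩
  · rw [contDiff_iff_contDiffAt]
    intro x
    by_cases hx : x ∈ tsupport (fun x => a x * c x - b x * d x)
    · have hxO := hKO (hts hx)
      exact (ha.contDiffAt.mul (hc x hxO)).sub (hb.contDiffAt.mul (hd x hxO))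
    · have he := notMem_tsupport_iff_eventuallyEq.1 hx
      exact contDiffAt_const.congr_of_eventuallyEq he
  · exact HasCompactSupport.of_support_subset_isCompact hK hsupp

private theorem pd_cont {η : E → ℝ} (hη : ContDiff ℝ ∞ η) (i : Fin 3) : Continuous (pd i η) := by
  unfold pd
  exact (hη.continuous_fderiv (by simp)).clm_apply continuous_const

private theorem pd_zero {η : E → ℝ} {x : E} (hx : x ∉ tsupport η) (i : Fin 3) :
    pd i η x = 0 := by
  unfold pd
  have h : fderiv ℝ η x = 0 := by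
    by_contra hc
    exact hx (support_fderiv_subset ℝ (Function.mem_support.2 hc))
  rw [h]
  rfl

theorem wc_of_wgrad {ψ : E → ℝ} {C : E → E} (hψ : LpL 1 Oax ψ) (hC : LpL 1 Oax C)
    (hT : ∀ᵐ x, ⟪C x, T x⟫ = 0) (h : WGrad Oax ψ (fun x => cr (T x) (C x))) :
    WC Oax (fun x => ψ x • th x) C := by
  intro φ hφ
  obtain ⟨hφs, hφc, hφt⟩ := hφ
  have hK : IsCompact (tsupport φ) := hφc
  have hz : ∀ i : Fin 3, ∀ x, x ∉ tsupport φ → φ x i = 0 := by
    intro i x hx
    rw [image_eq_zero_of_notMem_tsupport hx]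
    rfl
  have hc : ∀ i : Fin 3, ContDiff ℝ ∞ (fun x => φ x i) := fun i => comp_contDiff hφs i
  have ht : ∀ i : Fin 3, ∀ x ∈ Oax, ContDiffAt ℝ ∞ (fun x => th x i) x :=
    fun i x hx => th_comp_contDiffAt hx i
  obtain ⟨s0, t0⟩ := stest_sub hK hφt (hc 1) (hc 2) (ht 2) (ht 1) (hz 1) (hz 2)
  obtain ⟨s1, t1⟩ := stest_sub hK hφt (hc 2) (hc 0) (ht 0) (ht 2) (hz 2) (hz 0)
  obtain ⟨s2, t2⟩ := stest_sub hK hφt (hc 0) (hc 1) (ht 1) (ht 0) (hz 0) (hz 1)
  have e0 := h _ s0 0
  have e1 := h _ s1 1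
  have e2 := h _ s2 2
  have i0 := integrable_mul_of_LpL hψ (pd_cont s0.1 0) hK hφt
    (fun x hx => pd_zero (fun hc => hx (t0 hc)) 0)
  have i1 := integrable_mul_of_LpL hψ (pd_cont s1.1 1) hK hφt
    (fun x hx => pd_zero (fun hc => hx (t1 hc)) 1)
  have i2 := integrable_mul_of_LpL hψ (pd_cont s2.1 2) hK hφt
    (fun x hx => pd_zero (fun hc => hx (t2 hc)) 2)
  have hTc : ∀ j : Fin 3, Continuous (fun x => T x j) := by
    intro j
    unfold T
    fin_cases j
    · simp only [Fin.zero_eta, Matrix.cons_val_zero]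
      fun_prop
    · simp only [Fin.mk_one, Matrix.cons_val_one]
      fun_prop
    · simp only [Fin.reduceFinMk, Matrix.cons_val]
      fun_prop
  have key : ∀ (i j : Fin 3) (Φ : E → ℝ), STest Oax Φ → tsupport Φ ⊆ tsupport φ →
      Integrable (fun x => T x i * C x j * Φ x) volume := by
    intro i j Φ hΦ hΦt
    have h1 := integrable_mul_of_LpL (g := fun x => T x i * Φ x) (lpl_comp hC j)
      ((hTc i).mul hΦ.1.continuous) hK hφt
      (fun x hx => by
        have : Φ x = 0 := image_eq_zero_of_notMem_tsupport (fun hc => hx (hΦt hc))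
        rw [this, mul_zero])
    refine h1.congr (Filter.Eventually.of_forall fun x => ?_)
    simp only
    ring
  have hcr0 : ∀ a b : E, cr a b 0 = a 1 * b 2 - a 2 * b 1 := fun a b => rfl
  have hcr1 : ∀ a b : E, cr a b 1 = a 2 * b 0 - a 0 * b 2 := fun a b => rfl
  have hcr2 : ∀ a b : E, cr a b 2 = a 0 * b 1 - a 1 * b 0 := fun a b => rfl
  have j0 : Integrable (fun x => cr (T x) (C x) 0 * (φ x 1 * th x 2 - φ x 2 * th x 1)) volume := by
    refine ((key 1 2 _ s0 t0).sub (key 2 1 _ s0 t0)).congr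
      (Filter.Eventually.of_forall fun x => ?_)
    simp only [Pi.sub_apply, hcr0]
    ring
  have j1 : Integrable (fun x => cr (T x) (C x) 1 * (φ x 2 * th x 0 - φ x 0 * th x 2)) volume := by
    refine ((key 2 0 _ s1 t1).sub (key 0 2 _ s1 t1)).congr
      (Filter.Eventually.of_forall fun x => ?_)
    simp only [Pi.sub_apply, hcr1]
    ring
  have j2 : Integrable (fun x => cr (T x) (C x) 2 * (φ x 0 * th x 1 - φ x 1 * th x 0)) volume := by
    refine ((key 0 1 _ s2 t2).sub (key 1 0 _ s2 t2)).congr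
      (Filter.Eventually.of_forall fun x => ?_)
    simp only [Pi.sub_apply, hcr2]
    ring
  have hdiv : ∀ x ∈ Oax,
      pd 0 (fun x => φ x 1 * th x 2 - φ x 2 * th x 1) x
        + pd 1 (fun x => φ x 2 * th x 0 - φ x 0 * th x 2) x
        + pd 2 (fun x => φ x 0 * th x 1 - φ x 1 * th x 0) x = ⟪th x, curl φ x⟫ := by
    intro x hx
    have dφ : ∀ i : Fin 3, DifferentiableAt ℝ (fun x => φ x i) x := fun i =>
      (hc i).contDiffAt.differentiableAt (by simp)
    have dt : ∀ i : Fin 3, DifferentiableAt ℝ (fun x => th x i) x := fun i =>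
      (ht i x hx).differentiableAt (by simp)
    rw [pd_combo (dφ 1) (dφ 2) (dt 2) (dt 1), pd_combo (dφ 2) (dφ 0) (dt 0) (dt 2),
      pd_combo (dφ 0) (dφ 1) (dt 1) (dt 0)]
    have hct := curl_th hx
    have c0 : pd 1 (fun y => th y 2) x - pd 2 (fun y => th y 1) x = 0 := by
      have := congrArg (fun v : E => v 0) hct
      exact this
    have c1 : pd 2 (fun y => th y 0) x - pd 0 (fun y => th y 2) x = 0 := by
      have := congrArg (fun v : E => v 1) hct
      exact this
    have c2 : pd 0 (fun y => th y 1) x - pd 1 (fun y => th y 0) x = 0 := by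
      have := congrArg (fun v : E => v 2) hct
      exact this
    rw [inner3]
    have u0 : curl φ x 0 = pd 1 (fun y => φ y 2) x - pd 2 (fun y => φ y 1) x := rfl
    have u1 : curl φ x 1 = pd 2 (fun y => φ y 0) x - pd 0 (fun y => φ y 2) x := rfl
    have u2 : curl φ x 2 = pd 0 (fun y => φ y 1) x - pd 1 (fun y => φ y 0) x := rfl
    rw [u0, u1, u2]
    linear_combination (-(φ x 0)) * c0 - (φ x 1) * c1 - (φ x 2) * c2
  have hL : ∫ x, ⟪ψ x • th x, curl φ x⟫ =
      ∫ x, (ψ x * pd 0 (fun x => φ x 1 * th x 2 - φ x 2 * th x 1) x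
        + ψ x * pd 1 (fun x => φ x 2 * th x 0 - φ x 0 * th x 2) x
        + ψ x * pd 2 (fun x => φ x 0 * th x 1 - φ x 1 * th x 0) x) := by
    apply integral_congr_ae
    filter_upwards [ae_Oax] with x hx
    rw [real_inner_smul_left, ← hdiv x hx]
    ring
  have hR : ∫ x, ⟪C x, φ x⟫ =
      -∫ x, (cr (T x) (C x) 0 * (φ x 1 * th x 2 - φ x 2 * th x 1)
        + cr (T x) (C x) 1 * (φ x 2 * th x 0 - φ x 0 * th x 2)
        + cr (T x) (C x) 2 * (φ x 0 * th x 1 - φ x 1 * th x 0)) := by
    rw [← integral_neg]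
    apply integral_congr_ae
    filter_upwards [ae_Oax, hT] with x hx hTx
    have h1 : cr (T x) (C x) 0 * (φ x 1 * th x 2 - φ x 2 * th x 1)
        + cr (T x) (C x) 1 * (φ x 2 * th x 0 - φ x 0 * th x 2)
        + cr (T x) (C x) 2 * (φ x 0 * th x 1 - φ x 1 * th x 0) =
        ⟪cr (T x) (C x), cr (φ x) (th x)⟫ := by
      rw [inner3]
      rfl
    have h2 : ⟪C x, th x⟫ = 0 := by
      unfold th
      rw [real_inner_smul_right, hTx, mul_zero]
    rw [h1, inner_cr_cr, h2, inner_T_th hx]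
    ring
  rw [hL, hR, integral_add3 i0 i1 i2, integral_add3 j0 j1 j2, e0, e1, e2]
  ring

end Pool.CQ
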