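import Pool.Agent.Lib.MP_cd5b91_an.CQ.WGradA
import Pool.Agent.Lib.MP_cd5b91_an.CQ.WGradB
import Pool.Agent.Lib.MP_cd5b91_an.CQ.Chain
import Pool.Agent.Lib.MP_cd5b91_an.CQ.Axis

/-!
# CQ-Pos
-/

open MeasureTheory Filter Topology Set
open scoped ContDiff RealInnerProductSpace ENNReal

namespace Pool.CQ

private theorem pos_cr_cont : Continuous (fun p : E × E => cr p.1 p.2) := by
  unfold cr
  have key : ∀ i : Fin 3, Continuous (fun p : E × E => p.1 i) := fun i =>
    (EuclideanSpace.proj (𝕜 := ℝ) i).continuous.comp continuous_fst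
  have key2 : ∀ i : Fin 3, Continuous (fun p : E × E => p.2 i) := fun i =>
    (EuclideanSpace.proj (𝕜 := ℝ) i).continuous.comp continuous_snd
  refine (PiLp.continuous_toLp 2 (fun _ : Fin 3 => ℝ)).comp ?_
  refine continuous_pi ?_
  intro i
  fin_cases i
  · exact ((key 1).mul (key2 2)).sub ((key 2).mul (key2 1))
  · exact ((key 2).mul (key2 0)).sub ((key 0).mul (key2 2))
  · exact ((key 0).mul (key2 1)).sub ((key 1).mul (key2 0))

private theorem pos_T_cont : Continuous T := by
  unfold T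
  have key : ∀ i : Fin 3, Continuous (fun p : E => p i) := fun i =>
    (EuclideanSpace.proj (𝕜 := ℝ) i).continuous
  refine (PiLp.continuous_toLp 2 (fun _ : Fin 3 => ℝ)).comp ?_
  refine continuous_pi ?_
  intro i
  fin_cases i
  · exact (key 1).neg
  · exact key 0
  · exact continuous_const

private theorem pos_cr_zero (a : E) : cr a 0 = 0 := by
  ext i
  fin_cases i <;> simp [cr]

private theorem pos_lpl_cr {O : Set E} {C : E → E} (hC : LpL 1 O C) :
    LpL 1 O (fun x => cr (T x) (C x)) := by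
  intro K hK hKO
  have h1 := hC K hK hKO
  obtain ⟨M, hM⟩ := hK.exists_bound_of_continuousOn pos_T_cont.continuousOn
  have hmeas : AEStronglyMeasurable (fun x => cr (T x) (C x)) (volume.restrict K) :=
    pos_cr_cont.comp_aestronglyMeasurable
      (pos_T_cont.aestronglyMeasurable.prodMk h1.aestronglyMeasurable)
  refine (h1.norm.const_mul M).mono hmeas ?_
  filter_upwards [ae_restrict_mem hK.measurableSet] with x hx
  have h2 := hM x hx
  have h3 := norm_cr_le (T x) (C x)
  have h4 : 0 ≤ ‖C x‖ := norm_nonneg _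
  have h5 : ‖T x‖ * ‖C x‖ ≤ M * ‖C x‖ := mul_le_mul_of_nonneg_right h2 h4
  calc ‖cr (T x) (C x)‖ ≤ M * ‖C x‖ := h3.trans h5
    _ ≤ ‖M * ‖C x‖‖ := Real.le_norm_self _

private theorem pos_aes_posf {ψ : E → ℝ} {μ : Measure E} (h : AEStronglyMeasurable ψ μ) :
    AEStronglyMeasurable (posf ψ) μ := by
  have : posf ψ = ψ ⊔ (fun _ => (0 : ℝ)) := by
    funext x; rfl
  rw [this]
  exact h.sup aestronglyMeasurable_const

private theorem pos_aes_cutp {ψ : E → ℝ} {C : E → E} {μ : Measure E}
    (h : AEStronglyMeasurable ψ μ) (hC : AEStronglyMeasurable C μ) :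
    AEStronglyMeasurable (cutp ψ C) μ := by
  have h1 : cutp ψ C = {x | 0 < ψ x}.indicator C := by
    funext x
    by_cases hx : 0 < ψ x
    · have : x ∈ {x | 0 < ψ x} := hx
      rw [Set.indicator_of_mem this]
      simp [cutp, hx]
    · have : x ∉ {x | 0 < ψ x} := hx
      rw [Set.indicator_of_notMem this]
      simp [cutp, hx]
  rw [h1]
  exact hC.indicator₀ (nullMeasurableSet_lt aemeasurable_const h.aemeasurable)

private theorem pos_posf_le (ψ : E → ℝ) (x : E) : ‖posf ψ x‖ ≤ ‖ψ x‖ := by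
  unfold posf
  rw [Real.norm_eq_abs, Real.norm_eq_abs, abs_of_nonneg (le_max_right _ _)]
  exact max_le (le_abs_self _) (abs_nonneg _)

private theorem pos_lpl_posf {p : ℝ≥0∞} {O : Set E} {ψ : E → ℝ} (h : LpL p O ψ) :
    LpL p O (posf ψ) := by
  intro K hK hKO
  have h1 := h K hK hKO
  exact h1.mono (pos_aes_posf h1.aestronglyMeasurable)
    (Filter.Eventually.of_forall fun x => pos_posf_le ψ x)

private theorem pos_lpl_cutp {p q : ℝ≥0∞} {O : Set E} {ψ : E → ℝ} {C : E → E} (h : LpL q O ψ)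
    (hC : LpL p O C) : LpL p O (cutp ψ C) := by
  intro K hK hKO
  have h1 := h K hK hKO
  have h2 := hC K hK hKO
  exact h2.mono (pos_aes_cutp h1.aestronglyMeasurable h2.aestronglyMeasurable)
    (Filter.Eventually.of_forall fun x => norm_cutp_le ψ C x)

theorem wc_pos {ψ : E → ℝ} {C : E → E} (hψ : LpL 1 Oax ψ) (hC : LpL 1 Oax C) (hr : RotInv ψ)
    (hT : ∀ᵐ x, ⟪C x, T x⟫ = 0) (h : WC Oax (fun x => ψ x • th x) C) :
    WC Oax (fun x => posf ψ x • th x) (cutp ψ C) := by
  have h1 := wgrad_of_wc hψ hC hr h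
  have h2 := wgrad_pos isOpen_Oax hψ (pos_lpl_cr hC) h1
  have h3 : cutp ψ (fun x => cr (T x) (C x)) = fun x => cr (T x) (cutp ψ C x) := by
    funext x
    by_cases hx : 0 < ψ x
    · simp [cutp, hx]
    · simp [cutp, hx, pos_cr_zero]
  rw [h3] at h2
  refine wc_of_wgrad (pos_lpl_posf hψ) (pos_lpl_cutp hψ hC) ?_ h2
  filter_upwards [hT] with x hx
  by_cases hx' : 0 < ψ x
  · simp [cutp, hx', hx]
  · simp [cutp, hx']

theorem pos_pair {g : E → ℝ} {C : E → E} (hA : LpL 2 univ (fun x => g x • th x))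
    (hC : LpL 1 univ C) (hr : RotInv g) (hT : ∀ᵐ x, ⟪C x, T x⟫ = 0)
    (h : WC univ (fun x => g x • th x) C) : WC univ (fun x => posf g x • th x) (cutp g C) := by
  have hg2 : LpL 2 univ g := by
    intro K hK hKO
    have h1 := lpl_innerT hA K hK hKO
    refine h1.ae_eq ?_
    filter_upwards [ae_restrict_of_ae ae_Oax] with x hx
    have h2 := inner_T_th hx
    rw [real_inner_smul_left, real_inner_comm, h2, mul_one]
  have hg1 : LpL 1 univ g := by
    intro K hK hKO
    have : IsFiniteMeasure (volume.restrict K : Measure E) :=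
      ⟨by rw [Measure.restrict_apply_univ]; exact hK.measure_lt_top⟩
    exact (hg2 K hK hKO).mono_exponent (by norm_num)
  have hO : WC Oax (fun x => g x • th x) C := fun φ hφ => h φ ⟨hφ.1, hφ.2.1, subset_univ _⟩
  have h1 := wc_pos (fun K hK _ => hg1 K hK (subset_univ _))
    (fun K hK _ => hC K hK (subset_univ _)) hr hT hO
  refine wc_axis ?_ (pos_lpl_cutp hg1 hC) h1
  intro K hK hKO
  have h2 := hA K hK hKO
  refine h2.mono ?_ (Filter.Eventually.of_forall fun x => norm_posf_smul_le g (th x) x)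
  exact (pos_aes_posf (hg1 K hK hKO).aestronglyMeasurable).smul
    measurable_th.aestronglyMeasurable

end Pool.CQ
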