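import Pool.Agent.Lib.MP_cd5b91_an.CQ.Orth
import Pool.Agent.Lib.MP_cd5b91_an.CQ.Pos
import Pool.Agent.Lib.MP_cd5b91_an.CQ.KTorData

/-!
# CQ-KTorSign
-/

open MeasureTheory Filter Topology Set
open scoped ContDiff RealInnerProductSpace ENNReal

namespace Pool.CQ.K

private theorem ts_cont_T : Continuous T := by
  unfold T
  refine (PiLp.continuous_toLp 2 _).comp (continuous_pi fun i => ?_)
  fin_cases i <;> simp <;> fun_prop

private theorem ts_wc_smul {A C : E → E} (h : WC univ A C) (s : ℝ) :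
    WC univ (fun x => s • A x) (fun x => s • C x) := by
  intro φ hφ
  simp only [real_inner_smul_left]
  rw [integral_const_mul, integral_const_mul, h φ hφ]

private theorem ts_zero : W6 (fun _ => 0) (fun _ => 0) := by
  refine ⟨MemLp.zero', MemLp.zero', ?_⟩
  intro φ _
  simp

/-- the minimality of `‖v‖₆` for a toroidal `v` -/
private theorem ts_min {g : E → ℝ} (mg : Measurable g) (hr : RotInv g)
    (h6 : MemLp (fun x => g x • th x) 6 volume) {w : E → E} (hw : W6 w (fun _ => 0)) :
    ∫ x, ‖g x • th x‖ ^ 6 ≤ ∫ x, ‖g x • th x + w x‖ ^ 6 := by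
  set v : E → E := fun x => g x • th x with hv
  set n : ℝ := ∫ x, ‖v x‖ ^ 6 with hn
  set m : ℝ := ∫ x, ‖v x + w x‖ ^ 6 with hm
  have hn0 : 0 ≤ n := integral_nonneg fun x => by positivity
  have hm0 : 0 ≤ m := integral_nonneg fun x => by positivity
  have hV : MemLp (fun x => ‖v x‖ ^ 4 • v x) (6 / 5) volume := memLp_quint h6 h6
  have ev : Equi v := equi_smul hr fun γ x => th_rot γ x
  have hfr : RotInv (fun x => ‖v x‖ ^ 4 * g x) := by
    intro γ x
    have h1 := rotinv_norm ev γ x
    simp only at h1 ⊢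
    rw [h1, hr γ x]
  have mv : Measurable v := mg.smul measurable_th
  have hfm : Measurable (fun x => ‖v x‖ ^ 4 * g x) := (mv.norm.pow_const 4).mul mg
  have hfth : (fun x => (‖v x‖ ^ 4 * g x) • th x) = fun x => ‖v x‖ ^ 4 • v x := by
    funext x
    rw [mul_smul]
  have horth := orth hw hfm hfr (by rw [hfth]; exact hV)
  have horth' : ∫ x, ⟪‖v x‖ ^ 4 • v x, w x⟫ = 0 := by
    rw [← horth]
    refine integral_congr_ae (Eventually.of_forall fun x => ?_)
    have h1 := congrFun hfth x
    simp only at h1 ⊢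
    rw [h1, real_inner_comm]
  have h1 : n = ∫ x, ⟪‖v x‖ ^ 4 • v x, v x + w x⟫ := by
    have h2 : ∫ x, ⟪‖v x‖ ^ 4 • v x, v x + w x⟫ =
        (∫ x, ⟪‖v x‖ ^ 4 • v x, v x⟫) + ∫ x, ⟪‖v x‖ ^ 4 • v x, w x⟫ := by
      rw [← integral_add (integrable65 hV h6) (integrable65 hV hw.1)]
      refine integral_congr_ae (Eventually.of_forall fun x => ?_)
      simp only [inner_add_right]
    rw [h2, horth', add_zero, hn]
    refine integral_congr_ae (Eventually.of_forall fun x => ?_)
    simp only [real_inner_smul_left, real_inner_self_eq_norm_sq]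
    ring
  have h2 := holder65 hV (h6.add hw.1)
  have h3 : ∫ x, ‖‖v x‖ ^ 4 • v x‖ ^ (6 / 5 : ℝ) = n := by
    rw [hn]
    refine integral_congr_ae (Eventually.of_forall fun x => ?_)
    have h4 : ‖‖v x‖ ^ 4 • v x‖ = ‖v x‖ ^ (5 : ℝ) := by
      rw [norm_smul, norm_pow, norm_norm]
      have h5 : (‖v x‖ ^ (5 : ℝ) : ℝ) = ‖v x‖ ^ (5 : ℕ) := by
        rw [← Real.rpow_natCast]; norm_num
      rw [h5]; ring
    simp only
    rw [h4, ← Real.rpow_mul (norm_nonneg _), show (5 : ℝ) * (6 / 5) = ((6 : ℕ) : ℝ) by norm_num,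
      Real.rpow_natCast]
  have h4 : n ≤ n ^ (5 / 6 : ℝ) * m ^ (1 / 6 : ℝ) := by
    calc n ≤ |∫ x, ⟪‖v x‖ ^ 4 • v x, v x + w x⟫| := by rw [← h1]; exact le_abs_self _
      _ ≤ _ := by
        have h5 := h2
        simp only [Pi.add_apply] at h5
        rw [h3] at h5
        exact h5
  rcases hn0.eq_or_lt with h0 | h0
  · rw [← h0]; exact hm0
  · set a := n ^ (1 / 6 : ℝ) with ha
    set b := m ^ (1 / 6 : ℝ) with hb
    have ha0 : 0 < a := Real.rpow_pos_of_pos h0 _
    have hb0 : 0 ≤ b := Real.rpow_nonneg hm0 _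
    have ha6 : a ^ 6 = n := by
      rw [ha, ← Real.rpow_natCast, ← Real.rpow_mul hn0]; norm_num
    have hb6 : b ^ 6 = m := by
      rw [hb, ← Real.rpow_natCast, ← Real.rpow_mul hm0]; norm_num
    have ha5 : n ^ (5 / 6 : ℝ) = a ^ 5 := by
      rw [ha, ← Real.rpow_natCast, ← Real.rpow_mul hn0]; norm_num
    rw [ha5] at h4
    have h5 : a ^ 5 * a ≤ a ^ 5 * b := by
      calc a ^ 5 * a = n := by rw [← ha6]; ring
        _ ≤ _ := h4
    have h6' : a ≤ b := le_of_mul_le_mul_left h5 (by positivity)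
    rw [← ha6, ← hb6]
    exact pow_le_pow_left₀ ha0.le h6' 6

private theorem ts_holder {a b : E → ℝ} (ha : ∀ x, 0 ≤ a x) (hb : ∀ x, 0 ≤ b x)
    (mA : AEStronglyMeasurable a volume) (mB : AEStronglyMeasurable b volume)
    (ia : Integrable (fun x => a x ^ 6) volume) (ib : Integrable (fun x => b x ^ 6) volume) :
    ∫ x, a x ^ 4 * b x ^ 2 ≤
      (∫ x, a x ^ 6) ^ (2 / 3 : ℝ) * (∫ x, b x ^ 6) ^ (1 / 3 : ℝ) := by
  have hpq : (3 / 2 : ℝ).HolderConjugate 3 := by
    rw [Real.holderConjugate_iff]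
    norm_num
  have e1 : ∀ x, (a x ^ 4) ^ (3 / 2 : ℝ) = a x ^ 6 := fun x => by
    rw [← Real.rpow_natCast, ← Real.rpow_natCast, ← Real.rpow_mul (ha x)]
    norm_num
  have e2 : ∀ x, (b x ^ 2) ^ (3 : ℝ) = b x ^ 6 := fun x => by
    rw [← Real.rpow_natCast, ← Real.rpow_natCast, ← Real.rpow_mul (hb x)]
    norm_num
  have m1 : MemLp (fun x => a x ^ 4) (ENNReal.ofReal (3 / 2)) volume := by
    refine (integrable_norm_rpow_iff (f := fun x => a x ^ 4) (mA.pow 4) (by simp)
      ENNReal.ofReal_ne_top).1 ?_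
    rw [ENNReal.toReal_ofReal (by norm_num)]
    refine ia.congr (Eventually.of_forall fun x => ?_)
    simp only
    rw [Real.norm_of_nonneg (by have := ha x; positivity), e1]
  have m2 : MemLp (fun x => b x ^ 2) (ENNReal.ofReal 3) volume := by
    refine (integrable_norm_rpow_iff (f := fun x => b x ^ 2) (mB.pow 2) (by simp)
      ENNReal.ofReal_ne_top).1 ?_
    rw [ENNReal.toReal_ofReal (by norm_num)]
    refine ib.congr (Eventually.of_forall fun x => ?_)
    simp only
    rw [Real.norm_of_nonneg (by have := hb x; positivity), e2]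
  have h := integral_mul_le_Lp_mul_Lq_of_nonneg hpq
    (Eventually.of_forall fun x => by have := ha x; positivity)
    (Eventually.of_forall fun x => by have := hb x; positivity) m1 m2
  simp only [e1, e2] at h
  refine h.trans (le_of_eq ?_)
  norm_num

/-- the set where `g > 0` carries at least the energy `S^{3/2}`, or the positive part vanishes -/
private theorem ts_part {K : (E → E) → Prop} (hQ : HasTor K) {S : ℝ} {u B : E → E}
    (h : LowK K S u B) (mu : Measurable u) (mB : Measurable B) (eu : Equi u) (eB : Equi B)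
    {s : ℝ} (hs : s ^ 2 = 1) {g : E → ℝ} (hg : g = fun x => s * ⟪u x, T x⟫) :
    Integrable (fun x => ‖posf g x • th x‖ ^ 6) volume ∧
      (∫ x, ‖posf g x • th x‖ ^ 6 = 0 ∨ S ^ (3 / 2 : ℝ) ≤ ∫ x in {x | 0 < g x}, ‖u x‖ ^ 6) := by
  obtain ⟨hW1, -, hWC1, -⟩ := tor_data0 h.sol eu eB
  have mg : Measurable g := by
    rw [hg]
    exact (mu.inner ts_cont_T.measurable).const_mul s
  have hgth : ∀ x, g x • th x = s • tor u x := by
    intro x
    rw [hg]
    simp only [tor, smul_smul]
  have hA6 : MemLp (fun x => g x • th x) 6 volume :=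
    (hW1.1.const_smul s).ae_eq (Eventually.of_forall fun x => (hgth x).symm)
  have hC2 : MemLp (fun x => s • pol B x) 2 volume := hW1.2.1.const_smul s
  have hr : RotInv g := by
    rw [hg]
    intro γ x
    have h1 := rotinv_innerT eu γ x
    simp only at h1 ⊢
    rw [h1]
  have mpos : Measurable (posf g) := by
    unfold posf
    exact mg.max measurable_const
  have hrp : RotInv (posf g) := rotinv_posf hr
  have hus6 : MemLp (fun x => posf g x • th x) 6 volume :=
    hA6.mono (mpos.smul measurable_th).aestronglyMeasurable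
      (Eventually.of_forall fun x => norm_posf_smul_le g (th x) x)
  have mC : Measurable (cutp g fun x => s • pol B x) := by
    unfold cutp
    exact Measurable.ite (measurableSet_lt measurable_const mg)
      ((measurable_pol mB).const_smul s) measurable_const
  have hCs2 : MemLp (cutp g fun x => s • pol B x) 2 volume :=
    hC2.mono mC.aestronglyMeasurable
      (Eventually.of_forall fun x => norm_cutp_le g (fun x => s • pol B x) x)
  have hWC : WC univ (fun x => g x • th x) (fun x => s • pol B x) := by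
    have h1 := ts_wc_smul hW1.2.2 s
    have h2 : (fun x => g x • th x) = fun x => s • tor u x := funext hgth
    rw [h2]
    exact h1
  have hWCs : WC univ (fun x => posf g x • th x) (cutp g fun x => s • pol B x) := by
    refine pos_pair (lpl_two (by norm_num) hA6 univ) (lpl_one (by norm_num) hC2 univ) hr ?_ hWC
    refine Eventually.of_forall fun x => ?_
    simp only [real_inner_smul_left, inner_pol_T, mul_zero]
  have hW6s : W6 (fun x => posf g x • th x) (cutp g fun x => s • pol B x) := ⟨hus6, hCs2, hWCs⟩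
  have hpair := pairing hW1.2.1 (memLp_quint h.sol.1.1 hW1.1) hWC1 hW6s
  have hsn : ∀ v : E, ‖s • v‖ = ‖v‖ := fun v => by
    have h1 : ‖s‖ = 1 := by
      have h2 : ‖s‖ ^ 2 = 1 := by rw [Real.norm_eq_abs, sq_abs, hs]
      nlinarith [norm_nonneg s]
    rw [norm_smul, h1, one_mul]
  set P : Set E := {x | 0 < g x} with hP
  have mP : MeasurableSet P := measurableSet_lt measurable_const mg
  set a : E → ℝ := P.indicator fun x => ‖u x‖ with ha
  have ha0 : ∀ x, 0 ≤ a x := fun x => Set.indicator_nonneg (fun x _ => norm_nonneg _) x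
  have mA : Measurable a := mu.norm.indicator mP
  have ha6 : ∀ x, a x ^ 6 = P.indicator (fun x => ‖u x‖ ^ 6) x := fun x => by
    by_cases hx : x ∈ P
    · rw [ha, Set.indicator_of_mem hx, Set.indicator_of_mem hx]
    · rw [ha, Set.indicator_of_notMem hx, Set.indicator_of_notMem hx]
      norm_num
  have hIa : Integrable (fun x => a x ^ 6) volume := by
    simp only [ha6]
    exact (int6 h.sol.1.1).indicator mP
  have hea : ∫ x, a x ^ 6 = ∫ x in P, ‖u x‖ ^ 6 := by
    simp only [ha6]
    exact integral_indicator mP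
  have hCn : ∫ x, ‖cutp g (fun x => s • pol B x) x‖ ^ 2 =
      ∫ x, a x ^ 4 * ‖posf g x • th x‖ ^ 2 := by
    have h1 : ∫ x, ‖cutp g (fun x => s • pol B x) x‖ ^ 2 =
        s * ∫ x, ⟪pol B x, cutp g (fun x => s • pol B x) x⟫ := by
      rw [← integral_const_mul]
      refine integral_congr_ae (Eventually.of_forall fun x => ?_)
      simp only [cutp]
      split_ifs with h0
      · rw [norm_smul, mul_pow, Real.norm_eq_abs, sq_abs, real_inner_smul_right,
          real_inner_self_eq_norm_sq]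
        ring
      · simp
    rw [h1, hpair, ← integral_const_mul]
    refine integral_congr_ae (Eventually.of_forall fun x => ?_)
    simp only
    rcases le_or_gt (g x) 0 with h0 | h0
    · have h2 : posf g x = 0 := max_eq_right h0
      rw [h2]
      simp
    · have h2 : posf g x = g x := max_eq_left h0.le
      have h3 : a x = ‖u x‖ := Set.indicator_of_mem (show x ∈ P from h0) _
      rw [h2, hgth x, h3, hsn, real_inner_smul_left, real_inner_smul_right,
        real_inner_self_eq_norm_sq]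
      linear_combination (‖u x‖ ^ 4 * ‖tor u x‖ ^ 2) * hs
  set n : ℝ := ∫ x, ‖posf g x • th x‖ ^ 6 with hn
  set e : ℝ := ∫ x in P, ‖u x‖ ^ 6 with he
  have hn0 : 0 ≤ n := integral_nonneg fun x => by positivity
  have he0 : 0 ≤ e := integral_nonneg fun x => by positivity
  refine ⟨int6 hus6, ?_⟩
  have hsob := h.sob _ _ (hQ _ hrp) hW6s
  rw [hCn] at hsob
  have hhol := ts_holder ha0 (fun x => norm_nonneg (posf g x • th x)) mA.aestronglyMeasurable
    hus6.1.norm hIa (int6 hus6)
  rw [hea, ← hn] at hhol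
  have : Nonempty {w : E → E // W6 w (fun _ => 0)} := ⟨⟨_, ts_zero⟩⟩
  have hinf : n ≤ ⨅ w : {w : E → E // W6 w (fun _ => 0)}, ∫ x, ‖posf g x • th x + w.1 x‖ ^ 6 :=
    le_ciInf fun w => ts_min mpos hrp hus6 w.2
  have hle : S * n ^ (1 / 3 : ℝ) ≤ e ^ (2 / 3 : ℝ) * n ^ (1 / 3 : ℝ) := by
    refine le_trans ?_ (hsob.trans hhol)
    exact mul_le_mul_of_nonneg_left (Real.rpow_le_rpow hn0 hinf (by norm_num)) h.pos.le
  rcases hn0.eq_or_lt with h0 | h0
  · left; exact h0.symm
  · right
    exact pow_le_of h.pos he0 (le_of_mul_le_mul_right hle (Real.rpow_pos_of_pos h0 _))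

private theorem ts_zero_of {g : E → ℝ} (hi : Integrable (fun x => ‖posf g x • th x‖ ^ 6) volume)
    (h0 : ∫ x, ‖posf g x • th x‖ ^ 6 = 0) : ∀ᵐ x, g x ≤ 0 := by
  have h1 := (integral_eq_zero_iff_of_nonneg_ae (Eventually.of_forall fun x => by positivity) hi).mp h0
  filter_upwards [h1, ae_Oax] with x hx hO
  have h2 : ‖posf g x • th x‖ = 0 := by
    have h3 : ‖posf g x • th x‖ ^ 6 = 0 := hx
    exact pow_eq_zero_iff (by norm_num) |>.mp h3
  have h4 : th x ≠ 0 := by
    intro h5
    have h6 := norm_th_sq x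
    rw [h5, norm_zero] at h6
    have h7 : 0 < (rr x)⁻¹ := inv_pos.mpr hO
    rw [← h6] at h7
    norm_num at h7
  have h5 : posf g x = 0 := by
    rcases smul_eq_zero.mp (norm_eq_zero.mp h2) with h | h
    · exact h
    · exact absurd h h4
  calc g x ≤ max (g x) 0 := le_max_left _ _
    _ = 0 := h5

theorem tor_sign {K : (E → E) → Prop} (hQ : HasTor K) {S : ℝ} {u B : E → E} (h : LowK K S u B)
    (mu : Measurable u) (mB : Measurable B) (eu : Equi u) (eB : Equi B) :
    (∀ᵐ x, 0 ≤ ⟪u x, T x⟫) ∨ (∀ᵐ x, ⟪u x, T x⟫ ≤ 0) := by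
  obtain ⟨hi1, h1⟩ := ts_part hQ h mu mB eu eB (s := 1) (by norm_num)
    (g := fun x => 1 * ⟪u x, T x⟫) rfl
  obtain ⟨hi2, h2⟩ := ts_part hQ h mu mB eu eB (s := -1) (by norm_num)
    (g := fun x => -1 * ⟪u x, T x⟫) rfl
  rcases h2 with h2 | h2
  · left
    filter_upwards [ts_zero_of hi2 h2] with x hx
    linarith
  · right
    rcases h1 with h1 | h1
    · filter_upwards [ts_zero_of hi1 h1] with x hx
      linarith
    · exfalso
      have mg : Measurable fun x => ⟪u x, T x⟫ := mu.inner ts_cont_T.measurable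
      have m2 : MeasurableSet {x : E | 0 < -1 * ⟪u x, T x⟫} :=
        measurableSet_lt measurable_const (mg.const_mul (-1))
      have hd : Disjoint {x : E | 0 < 1 * ⟪u x, T x⟫} {x : E | 0 < -1 * ⟪u x, T x⟫} := by
        rw [Set.disjoint_left]
        intro x hx hx'
        simp only [mem_setOf_eq] at hx hx'
        linarith
      have hI := int6 h.sol.1.1
      have h3 := setIntegral_union hd m2 hI.integrableOn hI.integrableOn
      have h4 : ∫ x in {x : E | 0 < 1 * ⟪u x, T x⟫} ∪ {x : E | 0 < -1 * ⟪u x, T x⟫}, ‖u x‖ ^ 6 ≤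
          ∫ x, ‖u x‖ ^ 6 := setIntegral_le_integral hI (Eventually.of_forall fun x => by positivity)
      have h5 := h.low
      linarith

end Pool.CQ.K
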