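import Pool.Agent.Lib.MP_cd5b91_an.CQ.SmpD
import Pool.Agent.Lib.MP_cd5b91_an.CQ.KTorSign

/-!
# CQ-KFullTor
-/

open MeasureTheory Filter Topology Set
open scoped ContDiff RealInnerProductSpace ENNReal

namespace Pool.CQ.K

private theorem FullTor_coord (i : Fin 3) : Measurable (fun x : E => x i) :=
  (EuclideanSpace.proj i : E →L[ℝ] ℝ).continuous.measurable

private theorem FullTor_mcr {a b : E → E} (ha : Measurable a) (hb : Measurable b) :
    Measurable (fun x => cr (a x) (b x)) := by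
  have ha' : ∀ i, Measurable (fun x => a x i) := fun i => (FullTor_coord i).comp ha
  have hb' : ∀ i, Measurable (fun x => b x i) := fun i => (FullTor_coord i).comp hb
  refine (WithLp.measurable_toLp 2 (Fin 3 → ℝ)).comp (measurable_pi_iff.2 fun i => ?_)
  fin_cases i
  · exact ((ha' 1).mul (hb' 2)).sub ((ha' 2).mul (hb' 1))
  · exact ((ha' 2).mul (hb' 0)).sub ((ha' 0).mul (hb' 2))
  · exact ((ha' 0).mul (hb' 1)).sub ((ha' 1).mul (hb' 0))

private theorem FullTor_mT : Measurable T := by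
  refine (WithLp.measurable_toLp 2 (Fin 3 → ℝ)).comp (measurable_pi_iff.2 fun i => ?_)
  fin_cases i
  · exact (FullTor_coord 1).neg
  · exact FullTor_coord 0
  · exact measurable_const

private theorem FullTor_lpl {P f : E → E} (hP : MemLp P 2 volume) (hf : Measurable f)
    (h : ∀ K : Set E, IsCompact K → K ⊆ Oax → ∃ M : ℝ, ∀ x ∈ K, ‖f x‖ ≤ M * ‖P x‖) :
    LpL 2 Oax f := by
  intro K hK hKO
  obtain ⟨M, hM⟩ := h K hK hKO
  exact (hP.restrict K).of_le_mul (c := M) hf.aestronglyMeasurable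
    (ae_restrict_of_forall_mem hK.measurableSet hM)

private theorem FullTor_bT {K : Set E} (hK : IsCompact K) (hKO : K ⊆ Oax) :
    ∃ M : ℝ, 0 < M ∧ ∀ x ∈ K, ∀ v : E, ‖cr (T x) v‖ ≤ M * ‖v‖ ∧ ‖cr (th x) v‖ ≤ M * ‖v‖ := by
  obtain ⟨m, M, hm, hmM⟩ := rr_pos_bounds hK hKO
  refine ⟨√(|M| + m⁻¹ + 1), by positivity, fun x hx v => ?_⟩
  obtain ⟨h1, h2⟩ := hmM x hx
  have hT : ‖T x‖ ≤ √(|M| + m⁻¹ + 1) := by
    refine Real.le_sqrt_of_sq_le ?_
    rw [norm_T_sq]
    have h3 := le_abs_self M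
    have h4 : 0 < m⁻¹ := by positivity
    linarith
  have hth : ‖th x‖ ≤ √(|M| + m⁻¹ + 1) := by
    refine Real.le_sqrt_of_sq_le ?_
    rw [norm_th_sq]
    have h3 := abs_nonneg M
    have h4 : (rr x)⁻¹ ≤ m⁻¹ := inv_anti₀ hm h1
    linarith
  exact ⟨(norm_cr_le _ _).trans (mul_le_mul_of_nonneg_right hT (norm_nonneg _)),
    (norm_cr_le _ _).trans (mul_le_mul_of_nonneg_right hth (norm_nonneg _))⟩

private theorem FullTor_main {u B : E → E} (h : WeakSol u B) (mu : Measurable u) (mB : Measurable B)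
    (eu : Equi u) (eB : Equi B) {s : ℝ} (hs : s * s = 1) (hsχ : ∀ᵐ x, 0 ≤ s * ⟪u x, T x⟫) :
    SD 2 2 (posf fun x => s * ⟪u x, T x⟫) (fun x => s • cr (T x) (pol B x))
      (fun x => s • cr (th x) (pol B x)) (fun x => ‖pol B x‖ ^ 2) := by
  obtain ⟨hW1, hW2, hc1, hc2⟩ := tor_data0 h eu eB
  have hu6 : MemLp u 6 volume := h.1.1
  have hB2 : MemLp B 2 volume := h.1.2.1
  have hP2 : MemLp (pol B) 2 volume := memLp_pol hB2
  have mP : Measurable (pol B) := measurable_pol mB
  have hO : ENNReal.ofReal 2 = 2 := by norm_num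
  have hae : (posf fun x => s * ⟪u x, T x⟫) =ᵐ[volume] fun x => s * ⟪u x, T x⟫ := by
    filter_upwards [hsχ] with x hx
    exact max_eq_left hx
  have hs1 : |s| = 1 := by
    have h1 : |s| * |s| = 1 := by rw [abs_mul_abs_self, hs]
    nlinarith [abs_nonneg s]
  have hmeas1 : Measurable (fun x => s • cr (T x) (pol B x)) :=
    (FullTor_mcr FullTor_mT mP).const_smul s
  have hmeas2 : Measurable (fun x => s • cr (th x) (pol B x)) :=
    (FullTor_mcr measurable_th mP).const_smul s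
  have hns : ∀ v : E, ‖s • v‖ = ‖v‖ := fun v => by
    rw [norm_smul, Real.norm_eq_abs, hs1, one_mul]
  have hχ2 : LpL 2 Oax (fun x => ⟪u x, T x⟫) :=
    lpl_innerT (lpl_two (by norm_num) hu6 Oax)
  have hχ1 : LpL 1 Oax (fun x => ⟪u x, T x⟫) :=
    lpl_innerT (lpl_one (by norm_num) hu6 Oax)
  have hP1 : LpL 1 Oax (pol B) := lpl_one (by norm_num) hP2 Oax
  have hwc : WC Oax (fun x => ⟪u x, T x⟫ • th x) (pol B) := by
    intro φ hφ
    exact hW1.2.2 φ ⟨hφ.1, hφ.2.1, subset_univ _⟩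
  have hwg := wgrad_of_wc hχ1 hP1 (rotinv_innerT eu) hwc
  refine
    { hp := by norm_num
      hp2 := le_refl _
      hpq := by norm_num
      nonneg := fun x => le_max_right _ _
      Lψ := ?_
      LG := ?_
      LF := ?_
      Le := ?_
      wg := ?_
      sup := ?_
      en := ?_
      bd := ?_ }
  · rw [hO]
    intro K hK hKO
    have h1 := (hχ2 K hK hKO).const_mul s
    exact h1.ae_eq (ae_restrict_of_ae (hae.symm))
  · rw [hO]
    refine FullTor_lpl hP2 hmeas1 fun K hK hKO => ?_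
    obtain ⟨M, hM0, hM⟩ := FullTor_bT hK hKO
    exact ⟨M, fun x hx => by rw [hns]; exact (hM x hx _).1⟩
  · rw [hO]
    refine FullTor_lpl hP2 hmeas2 fun K hK hKO => ?_
    obtain ⟨M, hM0, hM⟩ := FullTor_bT hK hKO
    exact ⟨M, fun x hx => by rw [hns]; exact (hM x hx _).2⟩
  · intro K hK hKO
    exact (memLp_one_iff_integrable.2 (int2 hP2)).restrict K
  · intro η hη i
    have h1 := hwg η hη i
    have h2 : ∫ x, posf (fun x => s * ⟪u x, T x⟫) x * pd i η x =
        s * ∫ x, ⟪u x, T x⟫ * pd i η x := by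
      rw [← integral_const_mul]
      refine integral_congr_ae ?_
      filter_upwards [hae] with x hx
      rw [hx]
      ring
    have h3 : ∫ x, (s • cr (T x) (pol B x)) i * η x = s * ∫ x, cr (T x) (pol B x) i * η x := by
      rw [← integral_const_mul]
      refine integral_congr_ae (Eventually.of_forall fun x => ?_)
      simp only [PiLp.smul_apply, smul_eq_mul]
      ring
    rw [h2, h1, h3]
    ring
  · intro η hη hη0
    have hT := test_smul_th hη
    have h1 := hc1 (fun x => η x • th x) ⟨hT.1, hT.2.1, subset_univ _⟩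
    have h2 : ∀ x, ⟪s • cr (th x) (pol B x), gr η x⟫ =
        s * ⟪pol B x, curl (fun y => η y • th y) x⟫ := by
      intro x
      rw [curl_smul_th hη, real_inner_smul_left, inner_cr, real_inner_comm, inner_cr]
    have h3 : ∫ x, ⟪s • cr (th x) (pol B x), gr η x⟫ =
        s * ∫ x, ⟪pol B x, curl (fun y => η y • th y) x⟫ := by
      rw [← integral_const_mul]
      exact integral_congr_ae (Eventually.of_forall h2)
    rw [h3, h1, ← integral_const_mul]
    refine integral_nonneg_of_ae ?_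
    filter_upwards [hsχ] with x hx
    have h4 : s * ⟪‖u x‖ ^ 4 • tor u x, η x • th x⟫ =
        ‖u x‖ ^ 4 * (s * ⟪u x, T x⟫) * η x * ‖th x‖ ^ 2 := by
      simp only [tor]
      rw [real_inner_smul_left, real_inner_smul_left, real_inner_smul_right,
        real_inner_self_eq_norm_sq]
      ring
    change 0 ≤ s * ⟪‖u x‖ ^ 4 • tor u x, η x • th x⟫
    rw [h4]
    have := hη0 x
    positivity
  · filter_upwards [ae_Oax] with x hx
    rw [real_inner_smul_left, real_inner_smul_right, inner_cr_cr, real_inner_comm (T x) (th x)]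
    rw [inner_T_th hx, inner_pol_T, mul_zero, sub_zero, real_inner_self_eq_norm_sq]
    linear_combination (-‖pol B x‖ ^ 2) * hs
  · intro K hK hKO
    obtain ⟨M, hM0, hM⟩ := FullTor_bT hK hKO
    refine ⟨M ^ 2, by positivity, ae_restrict_of_forall_mem hK.measurableSet fun x hx => ?_⟩
    have h2 := hM x hx (pol B x)
    rw [hns, hns, Real.rpow_two, Real.rpow_two, ← mul_pow]
    exact ⟨pow_le_pow_left₀ (norm_nonneg _) h2.2 2, pow_le_pow_left₀ (norm_nonneg _) h2.1 2⟩

theorem full_tor {K : (E → E) → Prop} (hQ : HasTor K) {S : ℝ} {u B : E → E} (h : LowK K S u B)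
    (mu : Measurable u) (mB : Measurable B) (eu : Equi u) (eB : Equi B)
    (hnt : ¬ (tor u =ᵐ[volume] fun _ => 0)) {O : Set E} (hO : IsOpen O) (hne : O.Nonempty) :
    ¬ ∀ᵐ x ∂(volume.restrict O), u x = 0 := by
  intro hz
  obtain ⟨s, hs, hsχ⟩ : ∃ s : ℝ, s * s = 1 ∧ ∀ᵐ x, 0 ≤ s * ⟪u x, T x⟫ := by
    rcases tor_sign hQ h mu mB eu eB with h1 | h1
    · refine ⟨1, by norm_num, ?_⟩
      filter_upwards [h1] with x hx
      rw [one_mul]
      exact hx
    · refine ⟨-1, by norm_num, ?_⟩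
      filter_upwards [h1] with x hx
      linarith
  have hSD := FullTor_main h.sol mu mB eu eB hs hsχ
  have hz' : ∀ᵐ x ∂(volume.restrict O), posf (fun x => s * ⟪u x, T x⟫) x = 0 := by
    filter_upwards [hz] with x hx
    simp only [posf]
    rw [hx, inner_zero_left, mul_zero, max_self]
  have h0 := smp hSD hO hne hz'
  refine hnt ?_
  have hs0 : s ≠ 0 := by
    intro h1
    rw [h1] at hs
    norm_num at hs
  filter_upwards [h0, hsχ] with x h1 h2
  have h4 : s * ⟪u x, T x⟫ ≤ 0 := by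
    rw [← h1]
    exact le_max_left _ _
  have h5 : ⟪u x, T x⟫ = 0 := by
    have h6 : s * ⟪u x, T x⟫ = 0 := le_antisymm h4 h2
    exact (mul_eq_zero.1 h6).resolve_left hs0
  simp only [tor]
  rw [h5, zero_smul]

end Pool.CQ.K
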