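import Pool.Agent.Lib.MP_cd5b91_an.CQ.TorAlg
import Pool.Agent.Lib.MP_cd5b91_an.CQ.LpFacts

/-!
# CQ-SymA
-/

open MeasureTheory Filter Topology Set
open scoped ContDiff RealInnerProductSpace ENNReal

namespace Pool.CQ

private theorem SymA_add (γ : ℝ) (x y : E) : rot γ (x + y) = rot γ x + rot γ y := by
  ext i
  fin_cases i <;> simp [rot] <;> ring

private theorem SymA_smul (γ a : ℝ) (x : E) : rot γ (a • x) = a • rot γ x := by
  ext i
  fin_cases i <;> simp [rot] <;> ring

private theorem SymA_left (γ : ℝ) (x : E) : rot (-γ) (rot γ x) = x := by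
  have h := Real.cos_sq_add_sin_sq γ
  ext i
  fin_cases i
  · simp only [rot, Real.cos_neg, Real.sin_neg]
    simp
    linear_combination (x 0) * h
  · simp only [rot, Real.cos_neg, Real.sin_neg]
    simp
    linear_combination (x 1) * h
  · simp [rot]

private theorem SymA_right (γ : ℝ) (x : E) : rot γ (rot (-γ) x) = x := by
  have h := SymA_left (-γ) x
  rwa [neg_neg] at h

private theorem SymA_norm (γ : ℝ) (x : E) : ‖rot γ x‖ = ‖x‖ := by
  have h := inner_rot γ x x
  rw [real_inner_self_eq_norm_sq, real_inner_self_eq_norm_sq] at h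
  exact (sq_eq_sq₀ (norm_nonneg _) (norm_nonneg _)).1 h

private noncomputable def rotE (γ : ℝ) : E ≃ₗᵢ[ℝ] E where
  toFun := rot γ
  invFun := rot (-γ)
  map_add' := SymA_add γ
  map_smul' := SymA_smul γ
  left_inv := SymA_left γ
  right_inv := SymA_right γ
  norm_map' := SymA_norm γ

private theorem rotE_apply (γ : ℝ) (x : E) : rotE γ x = rot γ x := rfl

private theorem SymA_mp (γ : ℝ) : MeasurePreserving (fun x : E => rot γ x) volume volume :=
  (rotE γ).measurePreserving

private theorem SymA_int {F : Type} [NormedAddCommGroup F] [NormedSpace ℝ F] (γ : ℝ) (g : E → F) :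
    ∫ x, g (rot γ x) = ∫ x, g x :=
  (SymA_mp γ).integral_comp (rotE γ).toHomeomorph.measurableEmbedding g

private theorem SymA_pd {φ : E → E} {x : E} (h : DifferentiableAt ℝ φ x) (i j : Fin 3) :
    pd i (fun y => φ y j) x = (fderiv ℝ φ x (EuclideanSpace.single i (1 : ℝ))) j := by
  have h1 : HasFDerivAt (fun y => φ y j)
      ((EuclideanSpace.proj j : E →L[ℝ] ℝ).comp (fderiv ℝ φ x)) x :=
    (EuclideanSpace.proj j : E →L[ℝ] ℝ).hasFDerivAt.comp x h.hasFDerivAt
  unfold pd
  rw [h1.fderiv]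
  rfl

private theorem SymA_e0 (γ : ℝ) : rot γ (EuclideanSpace.single 0 (1 : ℝ)) =
    Real.cos γ • EuclideanSpace.single 0 (1 : ℝ) + Real.sin γ • EuclideanSpace.single 1 (1 : ℝ) := by
  ext i
  fin_cases i <;> simp [rot]

private theorem SymA_e1 (γ : ℝ) : rot γ (EuclideanSpace.single 1 (1 : ℝ)) =
    (-Real.sin γ) • EuclideanSpace.single 0 (1 : ℝ) + Real.cos γ • EuclideanSpace.single 1 (1 : ℝ) := by
  ext i
  fin_cases i <;> simp [rot]

private theorem SymA_e2 (γ : ℝ) : rot γ (EuclideanSpace.single 2 (1 : ℝ)) =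
    EuclideanSpace.single 2 (1 : ℝ) := by
  ext i
  fin_cases i <;> simp [rot]

private theorem SymA_curl {φ : E → E} {γ : ℝ} {x : E} (h : DifferentiableAt ℝ φ (rot γ x)) :
    curl (fun y => rot (-γ) (φ (rot γ y))) x = rot (-γ) (curl φ (rot γ x)) := by
  have hc := Real.cos_sq_add_sin_sq γ
  have h1 : HasFDerivAt (fun y => rot (-γ) (φ (rot γ y)))
      (((rotE (-γ)).toContinuousLinearEquiv : E →L[ℝ] E).comp
        ((fderiv ℝ φ (rot γ x)).comp ((rotE γ).toContinuousLinearEquiv : E →L[ℝ] E))) x :=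
    ((rotE (-γ)).toContinuousLinearEquiv : E →L[ℝ] E).hasFDerivAt.comp x
      (h.hasFDerivAt.comp x ((rotE γ).toContinuousLinearEquiv : E →L[ℝ] E).hasFDerivAt)
  have h2 : ∀ i j : Fin 3, pd i (fun y => (rot (-γ) (φ (rot γ y))) j) x =
      (rot (-γ) (fderiv ℝ φ (rot γ x) (rot γ (EuclideanSpace.single i (1 : ℝ))))) j := by
    intro i j
    rw [SymA_pd h1.differentiableAt, h1.fderiv]
    rfl
  have h3 : ∀ i j : Fin 3, pd i (fun y => φ y j) (rot γ x) =
      (fderiv ℝ φ (rot γ x) (EuclideanSpace.single i (1 : ℝ))) j := fun i j => SymA_pd h i j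
  obtain ⟨L, hL⟩ : ∃ L : E →L[ℝ] E, L = fderiv ℝ φ (rot γ x) := ⟨_, rfl⟩
  rw [← hL] at h2 h3
  have k0 := h2 0
  have k1 := h2 1
  have k2 := h2 2
  rw [SymA_e0, map_add, map_smul, map_smul] at k0
  rw [SymA_e1, map_add, map_smul, map_smul] at k1
  rw [SymA_e2] at k2
  obtain ⟨A0, hA0⟩ : ∃ A : E, A = L (EuclideanSpace.single 0 (1 : ℝ)) := ⟨_, rfl⟩
  obtain ⟨A1, hA1⟩ : ∃ A : E, A = L (EuclideanSpace.single 1 (1 : ℝ)) := ⟨_, rfl⟩
  obtain ⟨A2, hA2⟩ : ∃ A : E, A = L (EuclideanSpace.single 2 (1 : ℝ)) := ⟨_, rfl⟩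
  have l0 := h3 0
  have l1 := h3 1
  have l2 := h3 2
  rw [← hA0] at k0 k1 l0
  rw [← hA1] at k0 k1 l1
  rw [← hA2] at k2 l2
  ext i
  fin_cases i
  · simp only [curl, k0, k1, k2, l0, l1, l2]
    simp [rot]
    ring
  · simp only [curl, k0, k1, k2, l0, l1, l2]
    simp [rot]
    ring
  · simp only [curl, k0, k1, k2, l0, l1, l2]
    simp [rot]
    linear_combination (A0 1 - A1 0) * hc

theorem equi_ae_curl {u B : E → E} (h : W6 u B)
    (hu : ∀ γ : ℝ, ∀ᵐ x, u (rot γ x) = rot γ (u x)) (γ : ℝ) :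
    ∀ᵐ x, B (rot γ x) = rot γ (B x) := by
  obtain ⟨-, hB, hw⟩ := h
  have hB1 : MemLp (fun x => B (rot γ x)) 2 volume := hB.comp_measurePreserving (SymA_mp γ)
  have hB2 : MemLp (fun x => rot γ (B x)) 2 volume :=
    ((rotE γ).toContinuousLinearEquiv : E →L[ℝ] E).comp_memLp' hB
  have hL1 : LocallyIntegrable (fun x => B (rot γ x)) volume := hB1.locallyIntegrable (by norm_num)
  have hL2 : LocallyIntegrable (fun x => rot γ (B x)) volume := hB2.locallyIntegrable (by norm_num)
  have hL : LocallyIntegrable (fun x => B (rot γ x) - rot γ (B x)) volume := hL1.sub hL2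
  have key : ∀ᵐ x, B (rot γ x) - rot γ (B x) = 0 := by
    refine ae_eq_zero_of_integral_contDiff_smul_eq_zero hL ?_
    intro g hg hgc
    have i1 : Integrable (fun x => g x • B (rot γ x)) volume :=
      hL1.integrable_smul_left_of_hasCompactSupport hg.continuous hgc
    have i2 : Integrable (fun x => g x • rot γ (B x)) volume :=
      hL2.integrable_smul_left_of_hasCompactSupport hg.continuous hgc
    have i3 : Integrable (fun x => g x • (B (rot γ x) - rot γ (B x))) volume :=
      hL.integrable_smul_left_of_hasCompactSupport hg.continuous hgc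
    refine ext_inner_left ℝ fun v => ?_
    rw [inner_zero_right, ← integral_inner i3]
    -- the two test fields
    have hφ : ContDiff ℝ ∞ (fun y : E => g (rot (-γ) y) • v) :=
      ((hg.comp (rotE (-γ)).toContinuousLinearEquiv.contDiff).smul contDiff_const)
    have hφc : HasCompactSupport (fun y : E => g (rot (-γ) y) • v) := by
      have h1 : HasCompactSupport (g ∘ (rotE (-γ)).toHomeomorph) :=
        hgc.comp_homeomorph (rotE (-γ)).toHomeomorph
      exact h1.smul_right
    have hχ : ContDiff ℝ ∞ (fun x : E => rot (-γ) (g x • v)) :=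
      (rotE (-γ)).toContinuousLinearEquiv.contDiff.comp (hg.smul contDiff_const)
    have hχc : HasCompactSupport (fun x : E => rot (-γ) (g x • v)) := by
      have h1 : HasCompactSupport (fun x : E => g x • v) := hgc.smul_right
      refine h1.comp_left (g := fun z : E => rot (-γ) z) ?_
      exact (rotE (-γ)).map_zero
    have e1 := hw (fun y : E => g (rot (-γ) y) • v) ⟨hφ, hφc, subset_univ _⟩
    have e2 := hw (fun x : E => rot (-γ) (g x • v)) ⟨hχ, hχc, subset_univ _⟩
    have e3 : (fun x : E => rot (-γ) (g x • v)) =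
        fun x => rot (-γ) ((fun y : E => g (rot (-γ) y) • v) (rot γ x)) := by
      funext x
      show _ = rot (-γ) (g (rot (-γ) (rot γ x)) • v)
      rw [SymA_left]
    have e4 : ∀ x, curl (fun x : E => rot (-γ) (g x • v)) x =
        rot (-γ) (curl (fun y : E => g (rot (-γ) y) • v) (rot γ x)) := by
      intro x
      rw [e3]
      exact SymA_curl (hφ.differentiable (by norm_num)).differentiableAt
    have e5 : ∫ x, ⟪u x, curl (fun x : E => rot (-γ) (g x • v)) x⟫ =
        ∫ x, ⟪u x, curl (fun y : E => g (rot (-γ) y) • v) x⟫ := by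
      rw [← SymA_int γ (fun x => ⟪u x, curl (fun y : E => g (rot (-γ) y) • v) x⟫)]
      refine integral_congr_ae ?_
      filter_upwards [hu γ] with x hx
      rw [hx, e4, ← inner_rot γ (u x), SymA_right]
    have e6 : ∫ x, ⟪B x, (fun x : E => rot (-γ) (g x • v)) x⟫ = ∫ x, ⟪rot γ (B x), g x • v⟫ := by
      refine integral_congr_ae (Eventually.of_forall fun x => ?_)
      show ⟪B x, rot (-γ) (g x • v)⟫ = ⟪rot γ (B x), g x • v⟫
      rw [← inner_rot γ (B x), SymA_right]
    have e7 : ∫ x, ⟪B x, (fun y : E => g (rot (-γ) y) • v) x⟫ = ∫ x, ⟪B (rot γ x), g x • v⟫ := by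
      rw [← SymA_int γ (fun x => ⟪B x, (fun y : E => g (rot (-γ) y) • v) x⟫)]
      refine integral_congr_ae (Eventually.of_forall fun x => ?_)
      show ⟪B (rot γ x), g (rot (-γ) (rot γ x)) • v⟫ = ⟪B (rot γ x), g x • v⟫
      rw [SymA_left]
    have e8 : ∫ x, ⟪B (rot γ x), g x • v⟫ = ∫ x, ⟪rot γ (B x), g x • v⟫ := by
      rw [← e6, ← e7, ← e1, ← e2, e5]
    have e9 : ∀ x, ⟪v, g x • (B (rot γ x) - rot γ (B x))⟫ =
        ⟪v, g x • B (rot γ x)⟫ - ⟪v, g x • rot γ (B x)⟫ := by
      intro x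
      rw [smul_sub, inner_sub_right]
    have e10 : ∀ z : E → E, ∀ x, ⟪v, g x • z x⟫ = ⟪z x, g x • v⟫ := by
      intro z x
      rw [real_inner_smul_right, real_inner_smul_right, real_inner_comm]
    rw [integral_congr_ae (Eventually.of_forall e9), integral_sub (i1.const_inner v) (i2.const_inner v)]
    rw [integral_congr_ae (Eventually.of_forall (e10 fun x => B (rot γ x))),
      integral_congr_ae (Eventually.of_forall (e10 fun x => rot γ (B x))), e8, sub_self]
  filter_upwards [key] with x hx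
  exact sub_eq_zero.1 hx

end Pool.CQ
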