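import Pool.Agent.Lib.MP_cd5b91_an.CQ.TorAlg
import Pool.Agent.Lib.MP_cd5b91_an.CQ.LpFacts

/-!
# CQ-SymB
-/

open MeasureTheory Filter Topology Set
open scoped ContDiff RealInnerProductSpace ENNReal

namespace Pool.CQ

private theorem rot_rot' (a b : ℝ) (x : E) : rot a (rot b x) = rot (a + b) x := by
  ext i
  fin_cases i
  · simp [rot, Real.cos_add, Real.sin_add]; ring
  · simp [rot, Real.cos_add, Real.sin_add]; ring
  · simp [rot]

private theorem rot_zero' (x : E) : rot 0 x = x := by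
  ext i
  fin_cases i <;> simp [rot]

private theorem rot_add' (a : ℝ) (x y : E) : rot a (x + y) = rot a x + rot a y := by
  ext i
  fin_cases i
  · simp [rot]; ring
  · simp [rot]; ring
  · simp [rot]

private theorem rot_smul' (a c : ℝ) (x : E) : rot a (c • x) = c • rot a x := by
  ext i
  fin_cases i
  · simp [rot]; ring
  · simp [rot]; ring
  · simp [rot]

private theorem rot_apply_zero' (a : ℝ) : rot a (0 : E) = 0 := by
  ext i
  fin_cases i <;> simp [rot]

private theorem norm_rot' (a : ℝ) (x : E) : ‖rot a x‖ = ‖x‖ := by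
  have h := inner_rot a x x
  rw [real_inner_self_eq_norm_sq, real_inner_self_eq_norm_sq] at h
  exact (sq_eq_sq₀ (norm_nonneg _) (norm_nonneg _)).1 h

private theorem mp_rot' (a : ℝ) : MeasurePreserving (rot a) (volume : Measure E) volume := by
  let L : E →ₗ[ℝ] E := { toFun := rot a, map_add' := rot_add' a, map_smul' := rot_smul' a }
  let I : E →ₗᵢ[ℝ] E := ⟨L, norm_rot' a⟩
  exact (I.toLinearIsometryEquiv rfl).measurePreserving

private theorem cont_rot' : Continuous (fun p : ℝ × E => rot p.1 p.2) := by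
  unfold rot
  refine (PiLp.continuous_toLp 2 _).comp (continuous_pi fun i => ?_)
  fin_cases i
  · simp; fun_prop
  · simp; fun_prop
  · simp; fun_prop

private theorem meas_ae {α β : Type} [MeasurableSpace α] [MeasurableSpace β] {μ : Measure β}
    [SFinite μ] {s : Set (α × β)} (hs : MeasurableSet s) :
    MeasurableSet {x : α | ∀ᵐ y ∂μ, (x, y) ∈ s} := by
  have h := (measurable_measure_prodMk_left (ν := μ) hs.compl) (measurableSet_singleton 0)
  have h2 : {x : α | ∀ᵐ y ∂μ, (x, y) ∈ s} = (fun x => μ (Prod.mk x ⁻¹' sᶜ)) ⁻¹' {0} := by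
    ext x
    simp only [mem_preimage, mem_singleton_iff, mem_ofPred_eq]
    rw [ae_iff]
    rfl
  rw [h2]
  exact h

/-- the conjugated field -/
private noncomputable def gg (u : E → E) (γ : ℝ) (x : E) : E := rot (-γ) (u (rot γ x))

private theorem gg_rot (u : E → E) (γ α : ℝ) (x : E) :
    gg u γ (rot α x) = rot α (gg u (γ + α) x) := by
  unfold gg
  rw [rot_rot', rot_rot']
  congr 1
  ring

private theorem meas_rot' {α : Type} [MeasurableSpace α] {f : α → ℝ} {g : α → E}
    (hf : Measurable f) (hg : Measurable g) : Measurable (fun a => rot (f a) (g a)) := by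
  have h := cont_rot'.measurable.comp (hf.prodMk hg)
  simpa only [Function.comp_def] using h

private theorem meas_gg {α : Type} [MeasurableSpace α] {u : E → E} (hu : Measurable u)
    {f : α → ℝ} {g : α → E} (hf : Measurable f) (hg : Measurable g) :
    Measurable (fun a => gg u (f a) (g a)) := by
  unfold gg
  exact meas_rot' hf.neg (hu.comp (meas_rot' hf hg))

open Classical in
/-- the equivariant representative -/
private noncomputable def rep (u : E → E) (x : E) : E :=
  if h : ∃ c : E, ∀ᵐ γ : ℝ, gg u γ x = c then h.choose else 0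

private theorem rep_eq {u : E → E} {x c : E} (h : ∀ᵐ γ : ℝ, gg u γ x = c) : rep u x = c := by
  have h' : ∃ c : E, ∀ᵐ γ : ℝ, gg u γ x = c := ⟨c, h⟩
  unfold rep
  rw [dif_pos h']
  obtain ⟨γ, h1, h2⟩ := (h'.choose_spec.and h).exists
  exact h1.symm.trans h2

private theorem rep_zero {u : E → E} {x : E} (h : ¬ ∃ c : E, ∀ᵐ γ : ℝ, gg u γ x = c) :
    rep u x = 0 := by
  unfold rep
  rw [dif_neg h]

private theorem gg_shift {u : E → E} {x c : E} (α : ℝ) (h : ∀ᵐ γ : ℝ, gg u γ x = c) :
    ∀ᵐ γ : ℝ, gg u γ (rot α x) = rot α c := by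
  have h1 : ∀ᵐ γ : ℝ, gg u (γ + α) x = c :=
    (measurePreserving_add_right (volume : Measure ℝ) α).quasiMeasurePreserving.ae h
  filter_upwards [h1] with γ hγ
  rw [gg_rot, hγ]

private theorem equi_rep' (u : E → E) : Equi (rep u) := by
  intro α x
  by_cases h : ∃ c : E, ∀ᵐ γ : ℝ, gg u γ x = c
  · obtain ⟨c, hc⟩ := h
    rw [rep_eq hc, rep_eq (gg_shift α hc)]
  · have h2 : ¬ ∃ c : E, ∀ᵐ γ : ℝ, gg u γ (rot α x) = c := by
      rintro ⟨c, hc⟩
      apply h
      have h3 := gg_shift (-α) hc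
      rw [rot_rot', neg_add_cancel, rot_zero'] at h3
      exact ⟨_, h3⟩
    rw [rep_zero h, rep_zero h2, rot_apply_zero']

private theorem meas_good {u : E → E} (hu : Measurable u) :
    MeasurableSet {x : E | ∃ c : E, ∀ᵐ γ : ℝ, gg u γ x = c} := by
  have h1 : {x : E | ∃ c : E, ∀ᵐ γ : ℝ, gg u γ x = c} =
      {x : E | ∀ᵐ p : ℝ × ℝ ∂((volume : Measure ℝ).prod volume),
        (x, p) ∈ {q : E × ℝ × ℝ | gg u q.2.1 q.1 = gg u q.2.2 q.1}} := by
    ext x
    simp only [mem_ofPred_eq]
    constructor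
    · rintro ⟨c, hc⟩
      have h2 := (Measure.quasiMeasurePreserving_fst (μ := (volume : Measure ℝ))
        (ν := (volume : Measure ℝ))).ae hc
      have h3 := (Measure.quasiMeasurePreserving_snd (μ := (volume : Measure ℝ))
        (ν := (volume : Measure ℝ))).ae hc
      filter_upwards [h2, h3] with p hp hq
      rw [hp, hq]
    · intro h
      obtain ⟨γ, hγ⟩ := (Measure.ae_ae_of_ae_prod h).exists
      refine ⟨gg u γ x, ?_⟩
      filter_upwards [hγ] with δ hδ
      exact hδ.symm
  rw [h1]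
  refine meas_ae (measurableSet_eq_fun ?_ ?_)
  · exact meas_gg hu (measurable_fst.comp measurable_snd) measurable_fst
  · exact meas_gg hu (measurable_snd.comp measurable_snd) measurable_fst

private theorem meas_rep {u : E → E} (hu : Measurable u) : Measurable (rep u) := by
  intro A hA
  have h1 : rep u ⁻¹' A =
      ({x : E | ∃ c : E, ∀ᵐ γ : ℝ, gg u γ x = c} ∩
        {x : E | ∀ᵐ γ : ℝ, (x, γ) ∈ {q : E × ℝ | gg u q.2 q.1 ∈ A}}) ∪
      ({x : E | ∃ c : E, ∀ᵐ γ : ℝ, gg u γ x = c}ᶜ ∩ {_x : E | (0 : E) ∈ A}) := by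
    ext x
    by_cases h : ∃ c : E, ∀ᵐ γ : ℝ, gg u γ x = c
    · obtain ⟨c, hc⟩ := h
      have h' : ∃ c : E, ∀ᵐ γ : ℝ, gg u γ x = c := ⟨c, hc⟩
      simp only [mem_preimage, mem_union, mem_inter_iff, mem_ofPred_eq, mem_compl_iff, h',
        not_true_eq_false, false_and, or_false, true_and]
      rw [rep_eq hc]
      constructor
      · intro hcA
        filter_upwards [hc] with γ hγ
        rw [hγ]
        exact hcA
      · intro hA2
        obtain ⟨γ, h1, h2⟩ := (hc.and hA2).exists
        rw [← h1]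
        exact h2
    · simp only [mem_preimage, mem_union, mem_inter_iff, mem_ofPred_eq, mem_compl_iff, h,
        not_false_eq_true, false_and, false_or, true_and]
      rw [rep_zero h]
  rw [h1]
  refine ((meas_good hu).inter (meas_ae ?_)).union ((meas_good hu).compl.inter ?_)
  · exact (meas_gg hu measurable_snd measurable_fst) hA
  · exact MeasurableSet.const _

theorem equi_rep {u : E → E} (hu : LpL 1 univ u)
    (h : ∀ γ : ℝ, ∀ᵐ x, u (rot γ x) = rot γ (u x)) :
    ∃ u' : E → E, Measurable u' ∧ Equi u' ∧ u' =ᵐ[volume] u := by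
  have hm : AEStronglyMeasurable u volume := (lpl_loc hu).aestronglyMeasurable
  obtain ⟨u₀, h0m, h0⟩ : ∃ u₀ : E → E, Measurable u₀ ∧ u =ᵐ[volume] u₀ :=
    ⟨hm.mk u, hm.stronglyMeasurable_mk.measurable, hm.ae_eq_mk⟩
  refine ⟨rep u₀, meas_rep h0m, equi_rep' u₀, ?_⟩
  have h1 : ∀ γ : ℝ, ∀ᵐ x : E, gg u₀ γ x = u₀ x := by
    intro γ
    have h2 : ∀ᵐ x : E, u (rot γ x) = u₀ (rot γ x) :=
      (mp_rot' γ).quasiMeasurePreserving.ae h0
    filter_upwards [h2, h0, h γ] with x hx1 hx2 hx3
    unfold gg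
    rw [← hx1, hx3, rot_rot', neg_add_cancel, rot_zero', hx2]
  have h3 : ∀ᵐ x : E, ∀ᵐ γ : ℝ, gg u₀ γ x = u₀ x := by
    refine (Measure.ae_ae_comm ?_).1 (Eventually.of_forall h1)
    exact measurableSet_eq_fun (meas_gg h0m measurable_fst measurable_snd)
      (h0m.comp measurable_snd)
  filter_upwards [h3, h0] with x hx1 hx2
  rw [rep_eq hx1, hx2]

end Pool.CQ
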