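import Pool.Agent.Lib.MP_cd5b91_an.CQ.KFullPol
import Pool.Agent.Lib.MP_cd5b91_an.CQ.KFullTor
import Pool.Agent.Lib.MP_cd5b91_an.CQ.SymA
import Pool.Agent.Lib.MP_cd5b91_an.CQ.SymB

/-!
# CQ-KFinal: extremals in the classes of axisymmetric and of poloidal axisymmetric fields
-/

open MeasureTheory Filter Topology Set
open scoped ContDiff RealInnerProductSpace ENNReal

namespace Pool.CQ.K

private theorem wc_congr {O : Set E} {A C A' C' : E → E} (h : WC O A C) (hA : A' =ᵐ[volume] A)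
    (hC : C' =ᵐ[volume] C) : WC O A' C' := by
  intro φ hφ
  have h1 : ∫ x, ⟪A' x, curl φ x⟫ = ∫ x, ⟪A x, curl φ x⟫ :=
    integral_congr_ae (hA.mono fun x hx => by simp only [hx])
  have h2 : ∫ x, ⟪C' x, φ x⟫ = ∫ x, ⟪C x, φ x⟫ :=
    integral_congr_ae (hC.mono fun x hx => by simp only [hx])
  rw [h1, h2]
  exact h φ hφ

private theorem ws_congr {u B u' B' : E → E} (h : WeakSol u B) (hu : u' =ᵐ[volume] u)
    (hB : B' =ᵐ[volume] B) : WeakSol u' B' :=
  ⟨⟨h.1.1.ae_eq hu.symm, h.1.2.1.ae_eq hB.symm, wc_congr h.1.2.2 hu hB⟩,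
    wc_congr h.2 hB (hu.mono fun x hx => by simp only [hx])⟩

theorem low_congr {K : (E → E) → Prop} {S : ℝ} {u B u' B' : E → E} (h : LowK K S u B)
    (hu : u' =ᵐ[volume] u) (hB : B' =ᵐ[volume] B) : LowK K S u' B' := by
  have e6 : ∫ x, ‖u' x‖ ^ 6 = ∫ x, ‖u x‖ ^ 6 :=
    integral_congr_ae (hu.mono fun x hx => by simp only [hx])
  refine ⟨ws_congr h.sol hu hB, fun h0 => h.ne (hu.symm.trans h0), h.pos, h.sob, ?_⟩
  rw [e6]
  exact h.low

private theorem reps {u B : E → E} (h : WeakSol u B) (hu : Axi u) :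
    ∃ u' B' : E → E, Measurable u' ∧ Measurable B' ∧ Equi u' ∧ Equi B' ∧
      u' =ᵐ[volume] u ∧ B' =ᵐ[volume] B := by
  have hB := equi_ae_curl h.1 hu
  obtain ⟨u', mu, eu, hu'⟩ := equi_rep (lpl_one (by norm_num : (1 : ℝ≥0∞) ≤ 6) h.1.1 univ) hu
  obtain ⟨B', mB, eB, hB'⟩ := equi_rep (lpl_one (by norm_num : (1 : ℝ≥0∞) ≤ 2) h.1.2.1 univ) hB
  exact ⟨u', B', mu, mB, eu, eB, hu', hB'⟩

private theorem tor_zero {u u' : E → E} (hu' : u' =ᵐ[volume] u) (hT : ∀ᵐ x, ⟪u x, T x⟫ = 0) :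
    tor u' =ᵐ[volume] fun _ => 0 := by
  filter_upwards [hu', hT] with x h1 h2
  unfold tor
  rw [h1, h2, zero_smul]

/-- axisymmetric weak solutions of low energy have full support -/
theorem full_axi {S : ℝ} {u B : E → E} (hK : Axi u) (h : LowK Axi S u B) {O : Set E}
    (hO : IsOpen O) (hne : O.Nonempty) : ¬ ∀ᵐ x ∂(volume.restrict O), u x = 0 := by
  intro h0
  obtain ⟨u', B', mu, mB, eu, eB, hu', hB'⟩ := reps h.sol hK
  have h' : LowK Axi S u' B' := low_congr h hu' hB'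
  have h0' : ∀ᵐ x ∂(volume.restrict O), u' x = 0 := by
    filter_upwards [h0, ae_restrict_of_ae (s := O) hu'] with x h1 h2
    rw [h2, h1]
  by_cases ht : tor u' =ᵐ[volume] fun _ => 0
  · exact full_pol hasPol_Axi h' mu mB eu eB ht hO hne h0'
  · exact full_tor hasTor_Axi h' mu mB eu eB ht hO hne h0'

/-- poloidal axisymmetric weak solutions of low energy have full support -/
theorem full_axipol {S : ℝ} {u B : E → E} (hK : AxiPol u) (h : LowK AxiPol S u B) {O : Set E}
    (hO : IsOpen O) (hne : O.Nonempty) : ¬ ∀ᵐ x ∂(volume.restrict O), u x = 0 := by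
  intro h0
  obtain ⟨u', B', mu, mB, eu, eB, hu', hB'⟩ := reps h.sol hK.1
  have h' : LowK AxiPol S u' B' := low_congr h hu' hB'
  have h0' : ∀ᵐ x ∂(volume.restrict O), u' x = 0 := by
    filter_upwards [h0, ae_restrict_of_ae (s := O) hu'] with x h1 h2
    rw [h2, h1]
  exact full_pol hasPol_AxiPol h' mu mB eu eB (tor_zero hu' hK.2) hO hne h0'

/-- toroidal axisymmetric weak solutions of low energy have full support -/
theorem full_axitor {S : ℝ} {u B : E → E} (hK : AxiTor u) (h : LowK AxiTor S u B) {O : Set E}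
    (hO : IsOpen O) (hne : O.Nonempty) : ¬ ∀ᵐ x ∂(volume.restrict O), u x = 0 := by
  intro h0
  obtain ⟨u', B', mu, mB, eu, eB, hu', hB'⟩ := reps h.sol hK.1
  have h' : LowK AxiTor S u' B' := low_congr h hu' hB'
  have h0' : ∀ᵐ x ∂(volume.restrict O), u' x = 0 := by
    filter_upwards [h0, ae_restrict_of_ae (s := O) hu'] with x h1 h2
    rw [h2, h1]
  refine full_tor hasTor_AxiTor h' mu mB eu eB (fun ht => h'.ne ?_) hO hne h0'
  filter_upwards [ht, hu', hK.2] with x h1 h2 h3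
  have h4 : tor u' x = u' x := by
    unfold tor
    rw [h2]
    exact h3.symm
  rw [← h4]
  exact h1

/-- Weak solutions of low energy in the classes of axisymmetric, poloidal axisymmetric and toroidal
axisymmetric fields have full support. -/
theorem full_support_class {K : (E → E) → Prop} (hKK : K = Axi ∨ K = AxiPol ∨ K = AxiTor) {S : ℝ}
    {u B : E → E} (hK : K u) (h : LowK K S u B) {O : Set E} (hO : IsOpen O)
    (hne : O.Nonempty) : ¬ ∀ᵐ x ∂(volume.restrict O), u x = 0 := by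
  rcases hKK with rfl | rfl | rfl
  · exact full_axi hK h hO hne
  · exact full_axipol hK h hO hne
  · exact full_axitor hK h hO hne

/-- poloidal axisymmetric weak solutions of any energy whose vorticity `⟪B, T⟫` has one sign have full
support -/
theorem full_sign {u B : E → E} (hK : AxiPol u) (h : WeakSol u B)
    (hn : ¬ (u =ᵐ[volume] fun _ => 0)) (hs : (∀ᵐ x, 0 ≤ ⟪B x, T x⟫) ∨ (∀ᵐ x, ⟪B x, T x⟫ ≤ 0))
    {O : Set E} (hO : IsOpen O) (hne : O.Nonempty) : ¬ ∀ᵐ x ∂(volume.restrict O), u x = 0 := by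
  intro h0
  obtain ⟨u', B', mu, mB, eu, eB, hu', hB'⟩ := reps h hK.1
  have h' : WeakSol u' B' := ws_congr h hu' hB'
  have h0' : ∀ᵐ x ∂(volume.restrict O), u' x = 0 := by
    filter_upwards [h0, ae_restrict_of_ae (s := O) hu'] with x h1 h2
    rw [h2, h1]
  have ht := tor_zero hu' hK.2
  rcases hs with hs | hs
  · refine full_pol_sign h' (fun h1 => hn (hu'.symm.trans h1)) mu eu eB ht (s := 1) (by norm_num) ?_
      hO hne h0'
    filter_upwards [hs, hB'] with x h1 h2
    rw [h2, one_mul]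
    exact h1
  · refine full_pol_sign h' (fun h1 => hn (hu'.symm.trans h1)) mu eu eB ht (s := -1) (by norm_num) ?_
      hO hne h0'
    filter_upwards [hs, hB'] with x h1 h2
    rw [h2]
    linarith

end Pool.CQ.K
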