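import Pool.Agent.Lib.MP_cd5b91_an.CQ.KDualIneq
import Pool.Agent.Lib.MP_cd5b91_an.CQ.Pos
import Pool.Agent.Lib.MP_cd5b91_an.CQ.KTorData
import Pool.Agent.Lib.MP_cd5b91_an.CQ.ZeroOpen

/-!
# CQ-KPolSign
-/

open MeasureTheory Filter Topology Set
open scoped ContDiff RealInnerProductSpace ENNReal

namespace Pool.CQ.K

theorem pol_B_zero {u B : E → E} (h : WeakSol u B) (eu : Equi u) (eB : Equi B)
    (ht : tor u =ᵐ[volume] fun _ => 0) : pol B =ᵐ[volume] fun _ => 0 := by
  have h1 := (tor_data0 h eu eB).1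
  have h2 := wc_zero isOpen_univ (lpl_one one_le_two h1.2.1 univ) h1.2.2
    (by rw [Measure.restrict_univ]; exact ht)
  rw [Measure.restrict_univ] at h2
  exact h2

private theorem inner_self_th (a b : ℝ) (x : E) : ⟪a • th x, b • th x⟫ = a * b * ‖th x‖ ^ 2 := by
  rw [real_inner_smul_left, real_inner_smul_right, real_inner_self_eq_norm_sq]
  ring

private theorem th_ne {x : E} (hx : x ∈ Oax) : th x ≠ 0 := by
  intro h
  have h1 := inner_T_th hx
  rw [h, inner_zero_right] at h1
  exact zero_ne_one h1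

private theorem half {K : (E → E) → Prop} (hP : HasPol K) {S : ℝ} {u B : E → E} (h : LowK K S u B) (mu : Measurable u) {ψ : E → ℝ}
    (mψ : Measurable ψ) (hr : RotInv ψ) (hT : ∀ᵐ x, ⟪u x, T x⟫ = 0)
    (hB : ∀ᵐ x, B x = ψ x • th x) {s : ℝ} (hs : s * s = 1) :
    (∫ x, ‖posf (fun y => s * ψ y) x • th x‖ ^ 2) = 0 ∨
      S ^ (3 / 2 : ℝ) ≤ ∫ x, ‖posf (fun y => s * ψ y) x • th x‖ ^ 2 := by
  have hu : MemLp u 6 volume := h.sol.1.1
  have hB2 : MemLp B 2 volume := h.sol.1.2.1
  have hV : MemLp (fun x => ‖u x‖ ^ 4 • u x) (6 / 5) volume := memLp_quint hu hu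
  set g : E → ℝ := fun y => s * ψ y with hg
  set C : E → E := fun x => s • (‖u x‖ ^ 4 • u x) with hC
  have mg : Measurable g := mψ.const_mul s
  have rg : RotInv g := fun γ x => by simp only [hg]; rw [hr γ x]
  have hgB : ∀ᵐ x, g x • th x = s • B x := by
    filter_upwards [hB] with x hx
    rw [hx, smul_smul]
  have hC65 : MemLp C (6 / 5) volume := hV.const_smul s
  have hgth : MemLp (fun x => g x • th x) 2 volume :=
    (memLp_congr_ae hgB).2 (hB2.const_smul s)
  have hTC : ∀ᵐ x, ⟪C x, T x⟫ = 0 := by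
    filter_upwards [hT] with x hx
    simp only [hC]
    rw [real_inner_smul_left, real_inner_smul_left, hx, mul_zero, mul_zero]
  have hwc : WC univ (fun x => g x • th x) C := by
    intro φ hφ
    have e1 : ∫ x, ⟪g x • th x, curl φ x⟫ = ∫ x, s * ⟪B x, curl φ x⟫ := by
      refine integral_congr_ae ?_
      filter_upwards [hgB] with x hx
      rw [hx, real_inner_smul_left]
    have e2 : ∫ x, ⟪C x, φ x⟫ = ∫ x, s * ⟪‖u x‖ ^ 4 • u x, φ x⟫ := by
      refine integral_congr_ae (Eventually.of_forall fun x => ?_)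
      simp only [hC]
      rw [real_inner_smul_left]
    rw [e1, e2, integral_const_mul, integral_const_mul, h.sol.2 φ hφ]
  have hpp : WC univ (fun x => posf g x • th x) (cutp g C) :=
    pos_pair (lpl_two le_rfl hgth univ)
      (lpl_one (by rw [ENNReal.le_div_iff_mul_le (by norm_num) (by norm_num)]; norm_num) hC65 univ) rg hTC hwc
  have mp : Measurable (posf g) := mg.max measurable_const
  have hP2 : MemLp (fun x => posf g x • th x) 2 volume :=
    hgth.of_le (mp.smul measurable_th).aestronglyMeasurable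
      (Eventually.of_forall fun x => norm_posf_smul_le g (th x) x)
  have mC : Measurable C := (((mu.norm).pow_const 4).smul mu).const_smul s
  have mcut : Measurable (cutp g C) := by
    have : cutp g C = fun x => if 0 < g x then C x else 0 := by
      funext x
      simp only [cutp]
    rw [this]
    exact Measurable.ite (measurableSet_lt measurable_const mg) mC measurable_const
  have hK65 : MemLp (cutp g C) (6 / 5) volume :=
    hC65.of_le mcut.aestronglyMeasurable (Eventually.of_forall fun x => norm_cutp_le g C x)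
  -- the norm of `V`
  have hnV : ∀ x, ‖C x‖ ^ (6 / 5 : ℝ) = ‖u x‖ ^ 6 := by
    intro x
    have h1 : ‖C x‖ = ‖u x‖ ^ 5 := by
      simp only [hC]
      rw [norm_smul, norm_smul]
      have h2 : ‖s‖ = 1 := by
        have h3 : ‖s‖ * ‖s‖ = 1 := by rw [← norm_mul, hs, norm_one]
        nlinarith [norm_nonneg s]
      rw [h2, norm_pow, norm_norm]
      ring
    rw [h1, ← Real.rpow_natCast, ← Real.rpow_mul (norm_nonneg _), ← Real.rpow_natCast]
    norm_num
  set a := ∫ x, ‖posf g x • th x‖ ^ 2 with ha
  have hcut : ∀ x, ‖cutp g C x‖ ^ (6 / 5 : ℝ) = s * ⟪cutp g C x, u x⟫ := by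
    intro x
    by_cases hx : 0 < g x
    · have e1 : cutp g C x = C x := by simp only [cutp]; rw [if_pos hx]
      rw [e1, hnV]
      simp only [hC]
      rw [real_inner_smul_left, real_inner_smul_left, real_inner_self_eq_norm_sq, ← mul_assoc, hs]
      ring
    · have e1 : cutp g C x = 0 := by simp only [cutp]; rw [if_neg hx]
      rw [e1, norm_zero, inner_zero_left, mul_zero]
      exact Real.zero_rpow (by norm_num)
  have e3 : a = s * ∫ x, ⟪posf g x • th x, B x⟫ := by
    rw [ha, ← integral_const_mul]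
    refine integral_congr_ae ?_
    filter_upwards [hgB] with x hx
    have h1 : s * ⟪posf g x • th x, B x⟫ = ⟪posf g x • th x, g x • th x⟫ := by
      rw [hx, real_inner_smul_right]
    rw [h1, ← real_inner_self_eq_norm_sq, inner_self_th, inner_self_th]
    congr 1
    simp only [posf]
    rcases le_total (g x) 0 with h2 | h2
    · rw [max_eq_right h2]; ring
    · rw [max_eq_left h2]
  have e4 : a = ∫ x, ‖cutp g C x‖ ^ (6 / 5 : ℝ) := by
    rw [e3, pairing hP2 hK65 hpp h.sol.1, ← integral_const_mul]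
    exact integral_congr_ae (Eventually.of_forall fun x => (hcut x).symm)
  have hdi := dual_ineq hP h.pos h.sob mp (rotinv_posf rg) hP2 hK65 hpp
  rw [← e4, ← ha] at hdi
  have ha0 : 0 ≤ a := by
    rw [ha]
    exact integral_nonneg fun x => by positivity
  rcases ha0.eq_or_lt with h0 | h0
  · left; exact h0.symm
  · right
    have h5 : a ^ (5 / 3 : ℝ) = a ^ (2 / 3 : ℝ) * a := by
      rw [show (5 / 3 : ℝ) = 2 / 3 + 1 by norm_num, Real.rpow_add h0, Real.rpow_one]
    rw [h5] at hdi
    have h6 := le_of_mul_le_mul_right hdi h0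
    exact pow_le_of h.pos ha0 h6

theorem pol_sign {K : (E → E) → Prop} (hP : HasPol K) {S : ℝ} {u B : E → E} (h : LowK K S u B) (mu : Measurable u) (mB : Measurable B) (eu : Equi u)
    (eB : Equi B) (ht : tor u =ᵐ[volume] fun _ => 0) :
    (∀ᵐ x, 0 ≤ ⟪B x, T x⟫) ∨ (∀ᵐ x, ⟪B x, T x⟫ ≤ 0) := by
  have hpB := pol_B_zero h.sol eu eB ht
  have mT : Measurable T := by
    have h0 : ∀ i : Fin 3, Measurable (fun x : E => x i) := fun i => by fun_prop
    have h1 : Measurable (fun x : E => (![-x 1, x 0, 0] : Fin 3 → ℝ)) := by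
      rw [measurable_pi_iff]
      intro i
      fin_cases i
      · exact (h0 1).neg
      · exact h0 0
      · exact measurable_const
    exact (MeasurableEquiv.toLp 2 (Fin 3 → ℝ)).measurable.comp h1
  set ψ : E → ℝ := fun x => ⟪B x, T x⟫ with hψ
  have mψ : Measurable ψ := mB.inner mT
  have rψ : RotInv ψ := rotinv_innerT eB
  have hB : ∀ᵐ x, B x = ψ x • th x := by
    filter_upwards [hpB] with x hx
    have h1 : B x - tor B x = 0 := hx
    exact sub_eq_zero.1 h1
  have hT : ∀ᵐ x, ⟪u x, T x⟫ = 0 := by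
    filter_upwards [ht, ae_Oax] with x hx hO
    have h1 : ⟪u x, T x⟫ • th x = 0 := hx
    exact (smul_eq_zero.1 h1).resolve_right (th_ne hO)
  have hint : ∀ s : ℝ, s * s = 1 →
      Integrable (fun x => ‖posf (fun y => s * ψ y) x • th x‖ ^ 2) volume := by
    intro s hs
    have hsB : ∀ᵐ x, (s * ψ x) • th x = s • B x := by
      filter_upwards [hB] with x hx
      rw [hx, smul_smul]
    have h1 : MemLp (fun x => (s * ψ x) • th x) 2 volume :=
      (memLp_congr_ae hsB).2 (h.sol.1.2.1.const_smul s)
    have mp : Measurable (posf (fun y => s * ψ y)) := (mψ.const_mul s).max measurable_const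
    exact int2 (h1.of_le (mp.smul measurable_th).aestronglyMeasurable
      (Eventually.of_forall fun x => norm_posf_smul_le (fun y => s * ψ y) (th x) x))
  have hsum : (∫ x, ‖posf (fun y => 1 * ψ y) x • th x‖ ^ 2) +
      (∫ x, ‖posf (fun y => -1 * ψ y) x • th x‖ ^ 2) = ∫ x, ‖u x‖ ^ 6 := by
    rw [← ws_nehari h.sol, ← integral_add (hint 1 (by norm_num)) (hint (-1) (by norm_num))]
    refine integral_congr_ae ?_
    filter_upwards [hB] with x hx
    rw [hx]
    simp only [← real_inner_self_eq_norm_sq, inner_self_th]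
    rw [← add_mul]
    congr 1
    simp only [posf]
    rcases le_total (ψ x) 0 with h2 | h2
    · rw [max_eq_right (by linarith), max_eq_left (by linarith)]; ring
    · rw [max_eq_left (by linarith), max_eq_right (by linarith)]; ring
  have hzero : ∀ s : ℝ, s * s = 1 → (∫ x, ‖posf (fun y => s * ψ y) x • th x‖ ^ 2) = 0 →
      ∀ᵐ x, s * ψ x ≤ 0 := by
    intro s hs h0
    rw [integral_eq_zero_iff_of_nonneg (fun x => by positivity) (hint s hs)] at h0
    filter_upwards [h0, ae_Oax] with x hx hO
    have h1 : ‖posf (fun y => s * ψ y) x • th x‖ ^ 2 = 0 := hx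
    have h2 : posf (fun y => s * ψ y) x • th x = 0 := by
      rw [← norm_eq_zero]
      exact pow_eq_zero_iff two_ne_zero |>.1 h1
    have h3 := (smul_eq_zero.1 h2).resolve_right (th_ne hO)
    simp only [posf] at h3
    exact max_eq_right_iff.1 h3
  rcases half hP h mu mψ rψ hT hB (s := 1) (by norm_num) with h1 | h1
  · right
    filter_upwards [hzero 1 (by norm_num) h1] with x hx
    simpa using hx
  · rcases half hP h mu mψ rψ hT hB (s := -1) (by norm_num) with h2 | h2
    · left
      filter_upwards [hzero (-1) (by norm_num) h2] with x hx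
      have h3 : -1 * ψ x ≤ 0 := hx
      show 0 ≤ ψ x
      linarith
    · exfalso
      have h3 := h.low
      linarith

end Pool.CQ.K
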