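import Pool.Agent.Lib.MP_cd5b91_an.CQ.SmpD
import Pool.Agent.Lib.MP_cd5b91_an.CQ.KPolSign

/-!
# CQ-KFullPol
-/

open MeasureTheory Filter Topology Set
open scoped ContDiff RealInnerProductSpace ENNReal

namespace Pool.CQ.K

private theorem wc_mono {O : Set E} {A C : E → E} (h : WC univ A C) : WC O A C :=
  fun φ hφ => h φ ⟨hφ.1, hφ.2.1, subset_univ _⟩

private theorem wc_congr {O : Set E} {A A' C : E → E} (h : WC O A C) (hA : A' =ᵐ[volume] A) :
    WC O A' C := by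
  intro φ hφ
  rw [← h φ hφ]
  apply integral_congr_ae
  filter_upwards [hA] with x hx
  rw [hx]

private theorem cont_T : Continuous T := by
  unfold T
  refine (PiLp.continuous_toLp 2 _).comp (continuous_pi fun i => ?_)
  fin_cases i <;> simp <;> fun_prop

private theorem cont_cr : Continuous fun p : E × E => cr p.1 p.2 := by
  unfold cr
  refine (PiLp.continuous_toLp 2 _).comp (continuous_pi fun i => ?_)
  fin_cases i <;> simp <;> fun_prop

private theorem meas_cr {a b : E → E} (ha : Measurable a) (hb : Measurable b) :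
    Measurable fun x => cr (a x) (b x) :=
  cont_cr.measurable.comp (ha.prodMk hb)

private theorem bdd_T {K : Set E} (hK : IsCompact K) : ∃ c : ℝ, 0 < c ∧ ∀ x ∈ K, ‖T x‖ ≤ c := by
  obtain ⟨C, hC⟩ := hK.exists_bound_of_continuousOn cont_T.continuousOn
  exact ⟨|C| + 1, by positivity, fun x hx => (hC x hx).trans (by linarith [le_abs_self C])⟩

private theorem bdd_th {K : Set E} (hK : IsCompact K) (hKO : K ⊆ Oax) :
    ∃ c : ℝ, 0 < c ∧ ∀ x ∈ K, ‖th x‖ ≤ c := by
  obtain ⟨C, hC⟩ := hK.exists_bound_of_continuousOn (contDiffOn_th.continuousOn.mono hKO)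
  exact ⟨|C| + 1, by positivity, fun x hx => (hC x hx).trans (by linarith [le_abs_self C])⟩

private theorem ofReal65 : ENNReal.ofReal (6 / 5) = 6 / 5 := by
  rw [ENNReal.ofReal_div_of_pos (by norm_num)]
  simp

private theorem lpl_65_of_2 {B : E → E} (hB : MemLp B 2 volume) (O : Set E) :
    LpL (ENNReal.ofReal (6 / 5)) O B := by
  intro K hK _
  have : IsFiniteMeasure (volume.restrict K) :=
    ⟨by rw [Measure.restrict_apply_univ]; exact hK.measure_lt_top⟩
  refine (hB.restrict K).mono_exponent ?_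
  exact (ENNReal.ofReal_le_ofReal (by norm_num : (6 / 5 : ℝ) ≤ 2)).trans (by simp)

private theorem meas_V {u : E → E} (mu : Measurable u) : Measurable fun x => ‖u x‖ ^ 4 • u x :=
  (mu.norm.pow_const 4).smul mu

private theorem abs_s {s : ℝ} (hs : s * s = 1) : |s| = 1 := by
  have h1 : |s| * |s| = 1 := by rw [← abs_mul, hs, abs_one]
  nlinarith [abs_nonneg s]

private theorem norm_s_smul {s : ℝ} (hs : s * s = 1) (v : E) : ‖s • v‖ = ‖v‖ := by
  rw [norm_smul, Real.norm_eq_abs, abs_s hs, one_mul]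

private theorem B_eq {u B : E → E} (h : WeakSol u B) (eu : Equi u) (eB : Equi B)
    (ht : tor u =ᵐ[volume] fun _ => 0) : (fun x => ⟪B x, T x⟫ • th x) =ᵐ[volume] B := by
  filter_upwards [pol_B_zero h eu eB ht] with x hx
  have h1 : B x - tor B x = 0 := hx
  have h2 : B x = tor B x := by rw [sub_eq_zero] at h1; exact h1
  exact h2.symm

private theorem inner_u_T {u : E → E} (ht : tor u =ᵐ[volume] fun _ => 0) :
    ∀ᵐ x, ⟪u x, T x⟫ = 0 := by
  filter_upwards [ht, ae_Oax] with x hx hO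
  have h1 : ⟪⟪u x, T x⟫ • th x, T x⟫ = 0 := by
    have h2 : ⟪u x, T x⟫ • th x = 0 := hx
    rw [h2, inner_zero_left]
  rw [real_inner_smul_left, real_inner_comm (T x) (th x), inner_T_th hO, mul_one] at h1
  exact h1

private theorem sd_wg {u B : E → E} (h : WeakSol u B) (eu : Equi u) (eB : Equi B)
    (ht : tor u =ᵐ[volume] fun _ => 0) {s : ℝ} (hpos : ∀ᵐ x, 0 ≤ s * ⟪B x, T x⟫) :
    WGrad Oax (posf fun x => s * ⟪B x, T x⟫) (fun x => s • cr (T x) (‖u x‖ ^ 4 • u x)) := by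
  have hV : MemLp (fun x => ‖u x‖ ^ 4 • u x) (6 / 5) volume := memLp_quint h.1.1 h.1.1
  have h1 : LpL 1 Oax (fun x => ⟪B x, T x⟫) := lpl_innerT (lpl_one (by norm_num) h.1.2.1 Oax)
  have h65 : (1 : ℝ≥0∞) ≤ 6 / 5 := by
    rw [← ofReal65, ENNReal.one_le_ofReal]; norm_num
  have h2 : LpL 1 Oax (fun x => ‖u x‖ ^ 4 • u x) := lpl_one h65 hV Oax
  have h3 : WC Oax (fun x => ⟪B x, T x⟫ • th x) (fun x => ‖u x‖ ^ 4 • u x) :=
    wc_congr (wc_mono h.2) (B_eq h eu eB ht)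
  have h4 := wgrad_of_wc h1 h2 (rotinv_innerT eB) h3
  intro η hη i
  have h5 := h4 η hη i
  have h6 : ∫ x, posf (fun x => s * ⟪B x, T x⟫) x * pd i η x
      = ∫ x, s * (⟪B x, T x⟫ * pd i η x) := by
    apply integral_congr_ae
    filter_upwards [hpos] with x hx
    simp only [posf]
    rw [max_eq_left hx]
    ring
  rw [h6, integral_const_mul, h5]
  have h7 : ∫ x, (s • cr (T x) (‖u x‖ ^ 4 • u x)) i * η x
      = ∫ x, s * ((cr (T x) (‖u x‖ ^ 4 • u x)) i * η x) := by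
    apply integral_congr_ae
    filter_upwards with x
    simp only [PiLp.smul_apply, smul_eq_mul]
    ring
  rw [h7, integral_const_mul]
  ring

private theorem sd_sup {u B : E → E} (h : WeakSol u B) {s : ℝ}
    (hpos : ∀ᵐ x, 0 ≤ s * ⟪B x, T x⟫) (η : E → ℝ) (hη : STest Oax η) (h0 : ∀ x, 0 ≤ η x) :
    0 ≤ ∫ x, ⟪s • cr (th x) (u x), gr η x⟫ := by
  have h1 : ∫ x, ⟪u x, curl (fun y => η y • th y) x⟫ = ∫ x, ⟪B x, η x • th x⟫ := by
    have h2 := test_smul_th hη
    exact h.1.2.2 _ ⟨h2.1, h2.2.1, subset_univ _⟩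
  have h2 : ∫ x, ⟪s • cr (th x) (u x), gr η x⟫
      = ∫ x, s * ⟪u x, curl (fun y => η y • th y) x⟫ := by
    apply integral_congr_ae
    filter_upwards with x
    rw [curl_smul_th hη, real_inner_smul_left, inner_cr, real_inner_comm, inner_cr]
  rw [h2, integral_const_mul, h1, ← integral_const_mul]
  apply integral_nonneg_of_ae
  filter_upwards [hpos] with x hx
  have h3 : s * ⟪B x, η x • th x⟫ = η x * (rr x)⁻¹ * (s * ⟪B x, T x⟫) := by
    rw [th, real_inner_smul_right, real_inner_smul_right]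
    ring
  simp only [Pi.zero_apply]
  rw [h3]
  have h4 : 0 ≤ rr x := by unfold rr; positivity
  have := h0 x
  positivity

private theorem sd_en {u : E → E} (ht : tor u =ᵐ[volume] fun _ => 0) {s : ℝ} (hs : s * s = 1) :
    ∀ᵐ x, ‖u x‖ ^ 6 = ⟪s • cr (th x) (u x), s • cr (T x) (‖u x‖ ^ 4 • u x)⟫ := by
  filter_upwards [inner_u_T ht, ae_Oax] with x hx hO
  rw [real_inner_smul_left, real_inner_smul_right, ← mul_assoc, hs, one_mul, inner_cr_cr,
    real_inner_comm (T x) (th x), inner_T_th hO, hx, real_inner_smul_right,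
    real_inner_self_eq_norm_sq]
  ring

private theorem sd_bd {u : E → E} {s : ℝ} (hs : s * s = 1) (K : Set E) (hK : IsCompact K)
    (hKO : K ⊆ Oax) :
    ∃ M : ℝ, 0 < M ∧ ∀ᵐ x ∂(volume.restrict K),
      ‖s • cr (th x) (u x)‖ ^ (6 : ℝ) ≤ M * ‖u x‖ ^ 6 ∧
      ‖s • cr (T x) (‖u x‖ ^ 4 • u x)‖ ^ (6 / 5 : ℝ) ≤ M * ‖u x‖ ^ 6 := by
  obtain ⟨c, hc, hcT⟩ := bdd_T hK
  obtain ⟨d, hd, hdt⟩ := bdd_th hK hKO
  refine ⟨d ^ 6 + c ^ (6 / 5 : ℝ), by positivity, ?_⟩
  refine (ae_restrict_mem hK.measurableSet).mono fun x hx => ⟨?_, ?_⟩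
  · rw [norm_s_smul hs]
    have h1 : ‖cr (th x) (u x)‖ ≤ d * ‖u x‖ :=
      (norm_cr_le _ _).trans (mul_le_mul_of_nonneg_right (hdt x hx) (norm_nonneg _))
    have h2 : ‖cr (th x) (u x)‖ ^ (6 : ℝ) = ‖cr (th x) (u x)‖ ^ 6 := by
      rw [← Real.rpow_natCast]; norm_num
    rw [h2]
    calc ‖cr (th x) (u x)‖ ^ 6 ≤ (d * ‖u x‖) ^ 6 := by gcongr
      _ = d ^ 6 * ‖u x‖ ^ 6 := by ring
      _ ≤ (d ^ 6 + c ^ (6 / 5 : ℝ)) * ‖u x‖ ^ 6 := by
        gcongr
        have : 0 ≤ c ^ (6 / 5 : ℝ) := by positivity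
        linarith
  · rw [norm_s_smul hs]
    have h1 : ‖cr (T x) (‖u x‖ ^ 4 • u x)‖ ≤ c * ‖u x‖ ^ 5 := by
      refine (norm_cr_le _ _).trans ?_
      rw [norm_smul, norm_pow, norm_norm]
      have h3 : ‖u x‖ ^ 4 * ‖u x‖ = ‖u x‖ ^ 5 := by ring
      rw [h3]
      exact mul_le_mul_of_nonneg_right (hcT x hx) (by positivity)
    have h2 : (‖u x‖ ^ 5) ^ (6 / 5 : ℝ) = ‖u x‖ ^ 6 := by
      rw [← Real.rpow_natCast, ← Real.rpow_natCast, ← Real.rpow_mul (norm_nonneg _)]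
      norm_num
    calc ‖cr (T x) (‖u x‖ ^ 4 • u x)‖ ^ (6 / 5 : ℝ) ≤ (c * ‖u x‖ ^ 5) ^ (6 / 5 : ℝ) :=
          Real.rpow_le_rpow (norm_nonneg _) h1 (by norm_num)
      _ = c ^ (6 / 5 : ℝ) * ‖u x‖ ^ 6 := by
          rw [Real.mul_rpow hc.le (by positivity), h2]
      _ ≤ (d ^ 6 + c ^ (6 / 5 : ℝ)) * ‖u x‖ ^ 6 := by
        gcongr
        have : 0 ≤ d ^ 6 := by positivity
        linarith

private theorem sd_Lpsi {u B : E → E} (h : WeakSol u B) {s : ℝ} (hs : s * s = 1) :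
    LpL (ENNReal.ofReal (6 / 5)) Oax (posf fun x => s * ⟪B x, T x⟫) := by
  have h1 : LpL (ENNReal.ofReal (6 / 5)) Oax (fun x => ⟪B x, T x⟫) :=
    lpl_innerT (lpl_65_of_2 h.1.2.1 Oax)
  intro K hK hKO
  refine (h1 K hK hKO).of_le ?_ ?_
  · exact ((h1 K hK hKO).1.const_mul s).sup aestronglyMeasurable_const
  · filter_upwards with x
    have h2 : |s * ⟪B x, T x⟫| = |⟪B x, T x⟫| := by rw [abs_mul, abs_s hs, one_mul]
    rw [Real.norm_eq_abs, Real.norm_eq_abs, posf, abs_of_nonneg (le_max_right _ _), ← h2]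
    exact max_le (le_abs_self _) (abs_nonneg _)

private theorem sd_LG {u B : E → E} (h : WeakSol u B) (mu : Measurable u) {s : ℝ} (hs : s * s = 1) :
    LpL (ENNReal.ofReal (6 / 5)) Oax (fun x => s • cr (T x) (‖u x‖ ^ 4 • u x)) := by
  intro K hK hKO
  obtain ⟨c, hc, hcT⟩ := bdd_T hK
  have hV : MemLp (fun x => ‖u x‖ ^ 4 • u x) (ENNReal.ofReal (6 / 5)) (volume.restrict K) := by
    rw [ofReal65]
    exact (memLp_quint h.1.1 h.1.1).restrict K
  refine hV.of_le_mul (c := c) ?_ ?_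
  · exact ((meas_cr cont_T.measurable (meas_V mu)).const_smul s).aestronglyMeasurable
  · refine (ae_restrict_mem hK.measurableSet).mono fun x hx => ?_
    rw [norm_s_smul hs]
    exact (norm_cr_le _ _).trans (mul_le_mul_of_nonneg_right (hcT x hx) (norm_nonneg _))

private theorem sd_LF {u B : E → E} (h : WeakSol u B) (mu : Measurable u) {s : ℝ} (hs : s * s = 1) :
    LpL (ENNReal.ofReal 6) Oax (fun x => s • cr (th x) (u x)) := by
  intro K hK hKO
  obtain ⟨c, hc, hcT⟩ := bdd_th hK hKO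
  have hV : MemLp u (ENNReal.ofReal 6) (volume.restrict K) := by
    have : ENNReal.ofReal 6 = 6 := by simp
    rw [this]
    exact h.1.1.restrict K
  refine hV.of_le_mul (c := c) ?_ ?_
  · exact ((meas_cr measurable_th mu).const_smul s).aestronglyMeasurable
  · refine (ae_restrict_mem hK.measurableSet).mono fun x hx => ?_
    rw [norm_s_smul hs]
    exact (norm_cr_le _ _).trans (mul_le_mul_of_nonneg_right (hcT x hx) (norm_nonneg _))

private theorem sd_Le {u B : E → E} (h : WeakSol u B) : LpL 1 Oax (fun x => ‖u x‖ ^ 6) := by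
  intro K _ _
  exact (memLp_one_iff_integrable.2 (int6 h.1.1)).restrict K

private theorem pol_sd {u B : E → E} (h : WeakSol u B) (mu : Measurable u) (eu : Equi u)
    (eB : Equi B) (ht : tor u =ᵐ[volume] fun _ => 0) {s : ℝ} (hs : s * s = 1)
    (hpos : ∀ᵐ x, 0 ≤ s * ⟪B x, T x⟫) :
    SD (6 / 5) 6 (posf fun x => s * ⟪B x, T x⟫) (fun x => s • cr (T x) (‖u x‖ ^ 4 • u x))
      (fun x => s • cr (th x) (u x)) (fun x => ‖u x‖ ^ 6) where
  hp := by norm_num
  hp2 := by norm_num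
  hpq := by norm_num
  nonneg := fun x => le_max_right _ _
  Lψ := sd_Lpsi h hs
  LG := sd_LG h mu hs
  LF := sd_LF h mu hs
  Le := sd_Le h
  wg := sd_wg h eu eB ht hpos
  sup := sd_sup h hpos
  en := sd_en ht hs
  bd := sd_bd hs

theorem full_pol_sign {u B : E → E} (h : WeakSol u B) (hn : ¬ (u =ᵐ[volume] fun _ => 0)) (mu : Measurable u) (eu : Equi u)
    (eB : Equi B) (ht : tor u =ᵐ[volume] fun _ => 0) {s : ℝ} (hs : s * s = 1)
    (hpos : ∀ᵐ x, 0 ≤ s * ⟪B x, T x⟫) {O : Set E} (hO : IsOpen O)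
    (hne : O.Nonempty) : ¬ ∀ᵐ x ∂(volume.restrict O), u x = 0 := by
  intro hu
  have h1 : ∀ᵐ x ∂(volume.restrict O), B x = 0 :=
    wc_zero hO (lpl_one (by norm_num) h.1.2.1 O) (wc_mono h.1.2.2) hu
  have h2 : ∀ᵐ x ∂(volume.restrict O), posf (fun x => s * ⟪B x, T x⟫) x = 0 := by
    filter_upwards [h1] with x hx
    simp [posf, hx]
  have h3 := smp (pol_sd h mu eu eB ht hs hpos) hO hne h2
  have h4 : ∀ᵐ x, B x = 0 := by
    filter_upwards [h3, hpos, B_eq h eu eB ht] with x hx hp hB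
    simp only [posf] at hx
    rw [max_eq_left hp] at hx
    have h5 : ⟪B x, T x⟫ = 0 := by
      calc ⟪B x, T x⟫ = s * s * ⟪B x, T x⟫ := by rw [hs, one_mul]
        _ = s * (s * ⟪B x, T x⟫) := by ring
        _ = 0 := by rw [hx, mul_zero]
    rw [← hB, h5, zero_smul]
  have h6 : ∫ x, ‖B x‖ ^ 2 = 0 := by
    have h7 : ∫ x, ‖B x‖ ^ 2 = ∫ _ : E, (0 : ℝ) := by
      apply integral_congr_ae
      filter_upwards [h4] with x hx
      simp [hx]
    rw [h7, integral_zero]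
  have h9 := ws_pos h hn
  rw [← ws_nehari h, h6] at h9
  exact lt_irrefl _ h9

theorem full_pol {K : (E → E) → Prop} (hP : HasPol K) {S : ℝ} {u B : E → E} (h : LowK K S u B) (mu : Measurable u) (mB : Measurable B) (eu : Equi u)
    (eB : Equi B) (ht : tor u =ᵐ[volume] fun _ => 0) {O : Set E} (hO : IsOpen O)
    (hne : O.Nonempty) : ¬ ∀ᵐ x ∂(volume.restrict O), u x = 0 := by
  rcases pol_sign hP h mu mB eu eB ht with hp | hp
  · refine full_pol_sign h.sol h.ne mu eu eB ht (s := 1) (by norm_num) ?_ hO hne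
    filter_upwards [hp] with x hx
    rw [one_mul]
    exact hx
  · refine full_pol_sign h.sol h.ne mu eu eB ht (s := -1) (by norm_num) ?_ hO hne
    filter_upwards [hp] with x hx
    linarith

end Pool.CQ.K
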