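import Pool.Agent.Lib.MP_cd5b91_an.CQ.Pair
import Pool.Agent.Lib.MP_cd5b91_an.CQ.KDefs
import Pool.Agent.Lib.MP_cd5b91_an.CQ.LpFacts

/-!
# CQ-KIneq
-/

open MeasureTheory Filter Topology Set
open scoped ContDiff RealInnerProductSpace ENNReal

namespace Pool.CQ.K

private theorem w6_zero : W6 (fun _ => 0) (fun _ => 0) := by
  refine ⟨MemLp.zero, MemLp.zero, fun φ _ => ?_⟩
  simp

private theorem ineq_pow {x a I : ℝ} (ha : 0 < a) (hI : 0 ≤ I)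
    (h : |x| ≤ a ^ (5 / 6 : ℝ) * I ^ (1 / 6 : ℝ)) : x ^ 6 / a ^ 5 ≤ I := by
  rw [div_le_iff₀ (by positivity)]
  have h1 : |x| ^ 6 ≤ (a ^ (5 / 6 : ℝ) * I ^ (1 / 6 : ℝ)) ^ 6 :=
    pow_le_pow_left₀ (abs_nonneg _) h 6
  have h2 : (a ^ (5 / 6 : ℝ) * I ^ (1 / 6 : ℝ)) ^ 6 = a ^ 5 * I := by
    rw [mul_pow, ← Real.rpow_natCast (a ^ (5 / 6 : ℝ)), ← Real.rpow_mul ha.le,
      ← Real.rpow_natCast (I ^ (1 / 6 : ℝ)), ← Real.rpow_mul hI, ← Real.rpow_natCast a 5]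
    norm_num
  have h3 : |x| ^ 6 = x ^ 6 := by
    rw [← abs_pow]
    exact abs_of_nonneg (by positivity)
  rw [h3, h2] at h1
  linarith

private theorem root_eq {x a : ℝ} (ha : 0 < a) :
    (x ^ 6 / a ^ 5) ^ (1 / 3 : ℝ) * a ^ (5 / 3 : ℝ) = x ^ 2 := by
  have h1 : a ^ (5 / 3 : ℝ) = (a ^ 5) ^ (1 / 3 : ℝ) := by
    rw [← Real.rpow_natCast a 5, ← Real.rpow_mul ha.le]
    norm_num
  rw [h1, ← Real.mul_rpow (by positivity) (by positivity), div_mul_cancel₀ _ (by positivity),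
    show x ^ 6 = (x ^ 2) ^ 3 by ring, ← Real.rpow_natCast (x ^ 2) 3,
    ← Real.rpow_mul (by positivity)]
  norm_num

theorem gs_ineq {K : (E → E) → Prop} {S : ℝ} (hS0 : 0 < S) (hS : CurlSobOn K S) {B' V' v C : E → E}
    (hKv : K v)
    (hB : MemLp B' 2 volume) (hV : MemLp V' (6 / 5) volume) (h : WC univ B' V') (hv : W6 v C) :
    S * (∫ x, ⟪B' x, C x⟫) ^ 2
      ≤ (∫ x, ‖V' x‖ ^ (6 / 5 : ℝ)) ^ (5 / 3 : ℝ) * ∫ x, ‖C x‖ ^ 2 := by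
  obtain ⟨a, ha⟩ : ∃ a : ℝ, a = ∫ x, ‖V' x‖ ^ (6 / 5 : ℝ) := ⟨_, rfl⟩
  obtain ⟨t, ht⟩ : ∃ t : ℝ, t = ∫ x, ⟪B' x, C x⟫ := ⟨_, rfl⟩
  have ha0 : 0 ≤ a := by
    rw [ha]
    exact integral_nonneg fun x => by positivity
  have hC0 : 0 ≤ ∫ x, ‖C x‖ ^ 2 := integral_nonneg fun x => by positivity
  have key : ∀ w : E → E, W6 w (fun _ => 0) →
      |t| ≤ a ^ (5 / 6 : ℝ) * (∫ x, ‖v x + w x‖ ^ 6) ^ (1 / 6 : ℝ) := by
    intro w hw
    have h1 := pairing hB hV h hv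
    have h2 := pairing hB hV h hw
    simp only [inner_zero_right, integral_zero] at h2
    have h3 : t = ∫ x, ⟪V' x, v x + w x⟫ := by
      simp only [inner_add_right]
      rw [integral_add (integrable65 hV hv.1) (integrable65 hV hw.1), ← h1, ← h2, add_zero, ht]
    rw [h3, ha]
    exact holder65 hV (hv.1.add hw.1)
  rw [← ha, ← ht]
  rcases ha0.eq_or_lt with h0 | h0
  · have h1 := key _ w6_zero
    rw [← h0, Real.zero_rpow (by norm_num), zero_mul, abs_nonpos_iff] at h1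
    rw [h1, ← h0, Real.zero_rpow (by norm_num)]
    simp
  · have : Nonempty {w : E → E // W6 w (fun _ => 0)} := ⟨⟨_, w6_zero⟩⟩
    have h1 : t ^ 6 / a ^ 5 ≤
        ⨅ w : {w : E → E // W6 w (fun _ => 0)}, ∫ x, ‖v x + w.1 x‖ ^ 6 := by
      refine le_ciInf fun w => ?_
      exact ineq_pow h0 (integral_nonneg fun x => by positivity) (key w.1 w.2)
    have h2 := hS v C hKv hv
    have h3 : (t ^ 6 / a ^ 5) ^ (1 / 3 : ℝ) ≤
        (⨅ w : {w : E → E // W6 w (fun _ => 0)}, ∫ x, ‖v x + w.1 x‖ ^ 6) ^ (1 / 3 : ℝ) :=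
      Real.rpow_le_rpow (by positivity) h1 (by norm_num)
    have h4 : S * (t ^ 6 / a ^ 5) ^ (1 / 3 : ℝ) ≤ ∫ x, ‖C x‖ ^ 2 :=
      (mul_le_mul_of_nonneg_left h3 hS0.le).trans h2
    have h5 : 0 ≤ a ^ (5 / 3 : ℝ) := by positivity
    calc S * t ^ 2 = a ^ (5 / 3 : ℝ) * (S * (t ^ 6 / a ^ 5) ^ (1 / 3 : ℝ)) := by
          rw [← root_eq (x := t) h0]
          ring
      _ ≤ a ^ (5 / 3 : ℝ) * ∫ x, ‖C x‖ ^ 2 := mul_le_mul_of_nonneg_left h4 h5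

end Pool.CQ.K
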