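import Pool.Agent.Lib.MP_cd5b91_an.CQ.Alg
import Pool.Agent.Lib.MP_cd5b91_an.CQ.TorAlg
import Pool.Agent.Lib.MP_cd5b91_an.CQ.LpFacts

/-!
# CQ-Move
-/

open MeasureTheory Filter Topology Set
open scoped ContDiff RealInnerProductSpace ENNReal

namespace Pool.CQ

/-- the field `u` in the coordinates `y = L x + a` -/
noncomputable def mv (L : E ≃ₗᵢ[ℝ] E) (a : E) (u : E → E) (x : E) : E := L.symm (u (L x + a))

private theorem Move_mp (L : E ≃ₗᵢ[ℝ] E) (a : E) :
    MeasurePreserving (fun x => L x + a) (volume : Measure E) volume :=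
  (measurePreserving_add_right volume a).comp L.measurePreserving

private theorem Move_int (L : E ≃ₗᵢ[ℝ] E) (a : E) (g : E → ℝ) : ∫ x, g (L x + a) = ∫ y, g y :=
  (Move_mp L a).integral_comp (L.toHomeomorph.trans (Homeomorph.addRight a)).measurableEmbedding g

/-- the vector which belongs to the antisymmetric part of `D` -/
private noncomputable def Move_crl (D : E →L[ℝ] E) : E :=
  !₂[D (EuclideanSpace.single 1 (1 : ℝ)) 2 - D (EuclideanSpace.single 2 (1 : ℝ)) 1,
     D (EuclideanSpace.single 2 (1 : ℝ)) 0 - D (EuclideanSpace.single 0 (1 : ℝ)) 2,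
     D (EuclideanSpace.single 0 (1 : ℝ)) 1 - D (EuclideanSpace.single 1 (1 : ℝ)) 0]

private theorem Move_inner (D : E →L[ℝ] E) (b c : E) :
    ⟪D b, c⟫ - ⟪D c, b⟫ = ⟪Move_crl D, cr b c⟫ := by
  have hdec : ∀ b : E, b = b 0 • EuclideanSpace.single 0 (1 : ℝ) + b 1 • EuclideanSpace.single 1 (1 : ℝ) +
      b 2 • EuclideanSpace.single 2 (1 : ℝ) := by
    intro b
    ext i
    fin_cases i <;> simp
  have hD : ∀ b : E, ∀ i : Fin 3, D b i = b 0 * D (EuclideanSpace.single 0 (1 : ℝ)) i +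
      b 1 * D (EuclideanSpace.single 1 (1 : ℝ)) i + b 2 * D (EuclideanSpace.single 2 (1 : ℝ)) i := by
    intro b i
    conv_lhs => rw [hdec b]
    simp only [map_add, map_smul, PiLp.add_apply, PiLp.smul_apply, smul_eq_mul]
  simp only [PiLp.inner_apply, Fin.sum_univ_three, hD b, hD c, Move_crl, cr]
  simp
  ring

private theorem Move_ext {v w : E} (h : ∀ b c : E, ⟪v, cr b c⟫ = ⟪w, cr b c⟫) : v = w := by
  have h0 := h (EuclideanSpace.single 1 (1 : ℝ)) (EuclideanSpace.single 2 (1 : ℝ))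
  have h1 := h (EuclideanSpace.single 2 (1 : ℝ)) (EuclideanSpace.single 0 (1 : ℝ))
  have h2 := h (EuclideanSpace.single 0 (1 : ℝ)) (EuclideanSpace.single 1 (1 : ℝ))
  simp [PiLp.inner_apply, Fin.sum_univ_three, cr] at h0 h1 h2
  ext i
  fin_cases i
  · exact h0
  · exact h1
  · exact h2

private theorem Move_symm {L : E ≃ₗᵢ[ℝ] E} (hL : ∀ b c : E, cr (L b) (L c) = L (cr b c)) (b c : E) :
    cr (L.symm b) (L.symm c) = L.symm (cr b c) := by
  have h := hL (L.symm b) (L.symm c)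
  rw [L.apply_symm_apply, L.apply_symm_apply] at h
  rw [h, L.symm_apply_apply]

private theorem Move_curl_eq {φ : E → E} {x : E} (h : DifferentiableAt ℝ φ x) :
    curl φ x = Move_crl (fderiv ℝ φ x) := by
  have key : ∀ i j : Fin 3, pd i (fun y => φ y j) x = fderiv ℝ φ x (EuclideanSpace.single i (1 : ℝ)) j := by
    intro i j
    unfold pd
    have h1 : HasFDerivAt (fun y => φ y j) ((EuclideanSpace.proj j : E →L[ℝ] ℝ).comp (fderiv ℝ φ x)) x :=
      (EuclideanSpace.proj j : E →L[ℝ] ℝ).hasFDerivAt.comp x h.hasFDerivAt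
    rw [h1.fderiv]
    rfl
  unfold curl Move_crl
  simp only [key]

private theorem Move_crl_conj {L : E ≃ₗᵢ[ℝ] E} (hL : ∀ b c : E, cr (L b) (L c) = L (cr b c))
    (D D' : E →L[ℝ] E) (h : ∀ b, D' b = L (D (L.symm b))) : Move_crl D' = L (Move_crl D) := by
  apply Move_ext
  intro b c
  rw [← Move_inner, h, h]
  have e : ∀ v w : E, ⟪L v, w⟫ = ⟪v, L.symm w⟫ := by
    intro v w
    conv_lhs => rw [← L.apply_symm_apply w]
    exact L.inner_map_map _ _
  rw [e, e, e, Move_inner, Move_symm hL]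

private theorem Move_curl {L : E ≃ₗᵢ[ℝ] E} (hL : ∀ b c : E, cr (L b) (L c) = L (cr b c)) (a : E)
    {φ : E → E} (hφ : ContDiff ℝ ∞ φ) (x : E) :
    curl (fun y => L (φ (L.symm (y - a)))) (L x + a) = L (curl φ x) := by
  have hd : Differentiable ℝ φ := hφ.differentiable (by simp)
  have hx : L.symm (L x + a - a) = x := by rw [add_sub_cancel_right, L.symm_apply_apply]
  have h1 : HasFDerivAt (fun y : E => L.symm (y - a)) (L.symm : E →L[ℝ] E) (L x + a) :=
    (L.symm : E →L[ℝ] E).hasFDerivAt.comp (L x + a) ((hasFDerivAt_id _).sub_const a)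
  have h2 : HasFDerivAt φ (fderiv ℝ φ x) (L.symm (L x + a - a)) := by
    rw [hx]
    exact (hd x).hasFDerivAt
  have h3 : HasFDerivAt (fun y => L (φ (L.symm (y - a))))
      ((L : E →L[ℝ] E).comp ((fderiv ℝ φ x).comp (L.symm : E →L[ℝ] E))) (L x + a) :=
    (L : E →L[ℝ] E).hasFDerivAt.comp (L x + a) (h2.comp (L x + a) h1)
  rw [Move_curl_eq h3.differentiableAt, h3.fderiv, Move_curl_eq (hd x)]
  exact Move_crl_conj hL _ _ fun b => rfl

theorem wc_move {L : E ≃ₗᵢ[ℝ] E} (hL : ∀ b c : E, cr (L b) (L c) = L (cr b c)) (a : E)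
    {A C : E → E} (h : WC univ A C) : WC univ (mv L a A) (mv L a C) := by
  intro φ hφ
  obtain ⟨h1, h2, -⟩ := hφ
  have hT : TestIn univ (fun y => L (φ (L.symm (y - a)))) := by
    refine ⟨?_, ?_, subset_univ _⟩
    · exact L.contDiff.comp (h1.comp (L.symm.contDiff.comp (contDiff_id.sub contDiff_const)))
    · have h3 := h2.comp_homeomorph ((Homeomorph.addRight (-a)).trans L.symm.toHomeomorph)
      have h4 := h3.comp_left (g := fun v => L v) (map_zero L)
      have h5 : (fun y => L (φ (L.symm (y - a)))) =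
          (fun v => L v) ∘ (φ ∘ ((Homeomorph.addRight (-a)).trans L.symm.toHomeomorph)) := by
        funext y
        simp [sub_eq_add_neg]
      rw [h5]
      exact h4
  have h3 := h _ hT
  have e : ∀ v w : E, ⟪L.symm v, w⟫ = ⟪v, L w⟫ := by
    intro v w
    conv_rhs => rw [← L.apply_symm_apply v]
    exact (L.inner_map_map _ _).symm
  have h4 := Move_int L a fun y => ⟪A y, curl (fun y => L (φ (L.symm (y - a)))) y⟫
  have h5 := Move_int L a fun y => ⟪C y, L (φ (L.symm (y - a)))⟫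
  rw [← h4, ← h5] at h3
  simp only [Move_curl hL a h1, add_sub_cancel_right, L.symm_apply_apply] at h3
  simp only [mv, e]
  exact h3

private theorem Move_memLp (L : E ≃ₗᵢ[ℝ] E) (a : E) {p : ℝ≥0∞} {u : E → E} (h : MemLp u p volume) :
    MemLp (mv L a u) p volume := by
  have h1 := h.comp_measurePreserving (Move_mp L a)
  exact (L.symm : E →L[ℝ] E).comp_memLp' h1

private theorem Move_norm (L : E ≃ₗᵢ[ℝ] E) (a : E) (u : E → E) (x : E) : ‖mv L a u x‖ = ‖u (L x + a)‖ := by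
  unfold mv
  exact L.symm.norm_map _

private theorem Move_int_norm (L : E ≃ₗᵢ[ℝ] E) (a : E) (u : E → E) (k : ℕ) :
    ∫ x, ‖mv L a u x‖ ^ k = ∫ x, ‖u x‖ ^ k := by
  simp only [Move_norm]
  exact Move_int L a fun y => ‖u y‖ ^ k

private theorem Move_inv (L : E ≃ₗᵢ[ℝ] E) (a : E) (u : E → E) :
    mv L.symm (-L.symm a) (mv L a u) = u := by
  funext x
  simp [mv]

private theorem Move_sol {L : E ≃ₗᵢ[ℝ] E} (hL : ∀ b c : E, cr (L b) (L c) = L (cr b c)) (a : E)
    {u B : E → E} (h : WeakSol u B) : WeakSol (mv L a u) (mv L a B) := by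
  obtain ⟨⟨h1, h2, h3⟩, h4⟩ := h
  refine ⟨⟨Move_memLp L a h1, Move_memLp L a h2, wc_move hL a h3⟩, ?_⟩
  have h5 := wc_move hL a h4
  have h6 : mv L a (fun x => ‖u x‖ ^ 4 • u x) = fun x => ‖mv L a u x‖ ^ 4 • mv L a u x := by
    funext x
    rw [Move_norm]
    unfold mv
    rw [map_smul]
  rwa [h6] at h5

private theorem Move_J (L : E ≃ₗᵢ[ℝ] E) (a : E) (u B : E → E) : J (mv L a u) (mv L a B) = J u B := by
  unfold J
  rw [Move_int_norm, Move_int_norm]

private theorem Move_ne (L : E ≃ₗᵢ[ℝ] E) (a : E) {u : E → E} (h : ¬ (u =ᵐ[volume] fun _ => 0)) :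
    ¬ (mv L a u =ᵐ[volume] fun _ => 0) := by
  intro h1
  apply h
  have h2 := (Move_mp L.symm (-L.symm a)).quasiMeasurePreserving.ae h1
  filter_upwards [h2] with x hx
  have h3 := congrFun (Move_inv L a u) x
  rw [← h3]
  unfold mv at hx ⊢
  rw [hx]
  exact map_zero _

theorem gs_move {L : E ≃ₗᵢ[ℝ] E} (hL : ∀ b c : E, cr (L b) (L c) = L (cr b c)) (a : E)
    {u B : E → E} (h : GS u B) : GS (mv L a u) (mv L a B) := by
  refine ⟨Move_sol hL a h.sol, Move_ne L a h.ne, fun v C hv hv0 => ?_, ?_⟩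
  · rw [Move_J]
    have h1 := h.least _ _ (Move_sol (L := L.symm) (Move_symm hL) (-L.symm a) hv)
      (Move_ne L.symm (-L.symm a) hv0)
    rwa [Move_J] at h1
  · rw [Move_int_norm]
    exact h.sob

end Pool.CQ
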