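import Pool.Agent.Lib.MP_cd5b91_an.CQ.KFinal
import Pool.Agent.Lib.MP_cd5b91_an.CQ.Move

/-!
# CQ-KMove: the classes about an arbitrary axis
-/

open MeasureTheory Filter Topology Set
open scoped ContDiff RealInnerProductSpace ENNReal

namespace Pool.CQ.K

private theorem km_mp (L : E ≃ₗᵢ[ℝ] E) (a : E) :
    MeasurePreserving (fun x => L x + a) (volume : Measure E) volume :=
  (measurePreserving_add_right volume a).comp L.measurePreserving

private theorem km_int (L : E ≃ₗᵢ[ℝ] E) (a : E) (g : E → ℝ) : ∫ x, g (L x + a) = ∫ y, g y :=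
  (km_mp L a).integral_comp (L.toHomeomorph.trans (Homeomorph.addRight a)).measurableEmbedding g

private theorem km_symm {L : E ≃ₗᵢ[ℝ] E} (hL : ∀ b c : E, cr (L b) (L c) = L (cr b c)) (b c : E) :
    cr (L.symm b) (L.symm c) = L.symm (cr b c) := by
  have h := hL (L.symm b) (L.symm c)
  rw [L.apply_symm_apply, L.apply_symm_apply] at h
  rw [h, L.symm_apply_apply]

private theorem km_memLp (L : E ≃ₗᵢ[ℝ] E) (a : E) {p : ℝ≥0∞} {u : E → E} (h : MemLp u p volume) :
    MemLp (mv L a u) p volume := by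
  have h1 := h.comp_measurePreserving (km_mp L a)
  exact (L.symm : E →L[ℝ] E).comp_memLp' h1

private theorem km_norm (L : E ≃ₗᵢ[ℝ] E) (a : E) (u : E → E) (x : E) : ‖mv L a u x‖ = ‖u (L x + a)‖ := by
  unfold mv
  exact L.symm.norm_map _

private theorem km_int_norm (L : E ≃ₗᵢ[ℝ] E) (a : E) (u : E → E) (k : ℕ) :
    ∫ x, ‖mv L a u x‖ ^ k = ∫ x, ‖u x‖ ^ k := by
  simp only [km_norm]
  exact km_int L a fun y => ‖u y‖ ^ k

private theorem km_inv (L : E ≃ₗᵢ[ℝ] E) (a : E) (u : E → E) :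
    mv L.symm (-L.symm a) (mv L a u) = u := by
  funext x
  simp [mv]

private theorem km_inv' (L : E ≃ₗᵢ[ℝ] E) (a : E) (u : E → E) :
    mv L a (mv L.symm (-L.symm a) u) = u := by
  funext x
  simp [mv]

private theorem km_w6 {L : E ≃ₗᵢ[ℝ] E} (hL : ∀ b c : E, cr (L b) (L c) = L (cr b c)) (a : E)
    {u B : E → E} (h : W6 u B) : W6 (mv L a u) (mv L a B) :=
  ⟨km_memLp L a h.1, km_memLp L a h.2.1, wc_move hL a h.2.2⟩

private theorem km_zero (L : E ≃ₗᵢ[ℝ] E) (a : E) : mv L a (fun _ => 0) = fun _ => 0 := by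
  funext x
  simp [mv]

theorem km_sol {L : E ≃ₗᵢ[ℝ] E} (hL : ∀ b c : E, cr (L b) (L c) = L (cr b c)) (a : E)
    {u B : E → E} (h : WeakSol u B) : WeakSol (mv L a u) (mv L a B) := by
  refine ⟨km_w6 hL a h.1, ?_⟩
  have h5 := wc_move hL a h.2
  have h6 : mv L a (fun x => ‖u x‖ ^ 4 • u x) = fun x => ‖mv L a u x‖ ^ 4 • mv L a u x := by
    funext x
    rw [km_norm]
    unfold mv
    rw [map_smul]
  rwa [h6] at h5

theorem km_ne (L : E ≃ₗᵢ[ℝ] E) (a : E) {u : E → E} (h : ¬ (u =ᵐ[volume] fun _ => 0)) :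
    ¬ (mv L a u =ᵐ[volume] fun _ => 0) := by
  intro h1
  apply h
  have h2 := (km_mp L.symm (-L.symm a)).quasiMeasurePreserving.ae h1
  filter_upwards [h2] with x hx
  have h3 := congrFun (km_inv L a u) x
  rw [← h3]
  unfold mv at hx ⊢
  rw [hx]
  exact map_zero _

private theorem km_sob {L : E ≃ₗᵢ[ℝ] E} (hL : ∀ b c : E, cr (L b) (L c) = L (cr b c)) (a : E)
    {K : (E → E) → Prop} {S : ℝ} (hS : 0 ≤ S) (h : CurlSobOn (fun v => K (mv L a v)) S) :
    CurlSobOn K S := by
  intro v C hv hw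
  have hK : K (mv L a (mv L.symm (-L.symm a) v)) := by
    rw [km_inv']
    exact hv
  have h1 := h (mv L.symm (-L.symm a) v) (mv L.symm (-L.symm a) C) hK
    (km_w6 (L := L.symm) (km_symm hL) _ hw)
  rw [km_int_norm] at h1
  refine le_trans (mul_le_mul_of_nonneg_left (Real.rpow_le_rpow ?_ ?_ (by norm_num)) hS) h1
  · exact Real.iInf_nonneg fun w => integral_nonneg fun x => by positivity
  · have hne : Nonempty {w : E → E // W6 w (fun _ => 0)} :=
      ⟨⟨fun _ => 0, MemLp.zero', MemLp.zero', fun φ _ => by simp⟩⟩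
    refine le_ciInf fun w => ?_
    have hw' : W6 (mv L a w.1) (fun _ => 0) := by
      have := km_w6 hL a w.2
      rwa [km_zero] at this
    have hb : BddBelow (Set.range fun w : {w : E → E // W6 w (fun _ => 0)} =>
        ∫ x, ‖v x + w.1 x‖ ^ 6) :=
      ⟨0, by
        rintro _ ⟨w, rfl⟩
        exact integral_nonneg fun x => by positivity⟩
    refine (ciInf_le hb ⟨mv L a w.1, hw'⟩).trans (le_of_eq ?_)
    rw [← km_int L a fun y => ‖mv L.symm (-L.symm a) v y + w.1 y‖ ^ 6]
    refine integral_congr_ae (Eventually.of_forall fun x => ?_)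
    simp only
    have h2 : mv L.symm (-L.symm a) v (L x + a) = L (v x) := by
      simp [mv]
    have h3 : mv L a w.1 x = L.symm (w.1 (L x + a)) := rfl
    rw [h2, h3]
    have h4 : L (v x) + w.1 (L x + a) = L (v x + L.symm (w.1 (L x + a))) := by
      rw [map_add, L.apply_symm_apply]
    rw [h4, L.norm_map]

/-- Weak solutions of low energy in the classes of axisymmetric, poloidal axisymmetric and toroidal
axisymmetric fields about an arbitrary axis `L (ℝ e₃) + a` have full support. -/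
theorem full_support_class_move {L : E ≃ₗᵢ[ℝ] E}
    (hL : ∀ b c : E, cr (L b) (L c) = L (cr b c)) (a : E)
    {K : (E → E) → Prop} (hKK : K = Axi ∨ K = AxiPol ∨ K = AxiTor) {S : ℝ}
    {u B : E → E} (hK : K (mv L a u)) (h : LowK (fun v => K (mv L a v)) S u B) {O : Set E}
    (hO : IsOpen O) (hne : O.Nonempty) : ¬ ∀ᵐ x ∂(volume.restrict O), u x = 0 := by
  intro h0
  have hc : Continuous fun x => L x + a := by fun_prop
  have hlow : LowK K S (mv L a u) (mv L a B) := by
    refine ⟨km_sol hL a h.sol, km_ne L a h.ne, h.pos, km_sob hL a h.pos.le h.sob, ?_⟩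
    rw [km_int_norm]
    exact h.low
  have h1 := full_support_class hKK hK hlow (hO.preimage hc) (by
      obtain ⟨y, hy⟩ := hne
      refine ⟨L.symm (y - a), ?_⟩
      show L (L.symm (y - a)) + a ∈ O
      rw [L.apply_symm_apply, sub_add_cancel]
      exact hy)
  apply h1
  rw [ae_restrict_iff' (hO.preimage hc).measurableSet]
  rw [ae_restrict_iff' hO.measurableSet] at h0
  have h2 := (km_mp L a).quasiMeasurePreserving.ae h0
  filter_upwards [h2] with x hx hxO
  unfold mv
  rw [hx hxO, map_zero]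

end Pool.CQ.K
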