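import Pool.Agent.Lib.MP_cd5b91_an.CQ.Alg

/-!
# CQ-Loc
-/

open MeasureTheory Filter Topology Set
open scoped ContDiff RealInnerProductSpace ENNReal

namespace Pool.CQ

private theorem exists_cut {O K : Set E} (hO : IsOpen O) (hK : IsCompact K) (hKO : K ⊆ O) :
    ∃ (ζ : E → ℝ) (V : Set E), ContDiff ℝ ∞ ζ ∧ HasCompactSupport ζ ∧ tsupport ζ ⊆ O ∧ (∀ x, 0 ≤ ζ x ∧ ζ x ≤ 1) ∧
      IsOpen V ∧ K ⊆ V ∧ ∀ x ∈ V, ζ x = 1 := by
  obtain ⟨K1, hK1, hKK1, hK1O⟩ := exists_compact_between hK hO hKO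
  have hdisj : Disjoint (interior K1)ᶜ K := by
    rw [Set.disjoint_left]
    intro x hx hxK
    exact hx (hKK1 hxK)
  obtain ⟨f, hf0, hf1, hf⟩ := exists_contMDiffMap_zero_one_nhds_of_isClosed (n := (⊤ : ℕ∞)) (modelWithCornersSelf ℝ E)
    isOpen_interior.isClosed_compl hK.isClosed hdisj
  obtain ⟨U, hU, hsU, hU0⟩ := mem_nhdsSet_iff_exists.1 hf0
  obtain ⟨V, hV, hsV, hV1⟩ := mem_nhdsSet_iff_exists.1 hf1
  have hsupp : tsupport (fun x => f x) ⊆ K1 := by
    have h1 : Function.support (fun x => f x) ⊆ Uᶜ := by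
      intro x hx hxU
      exact hx (hU0 hxU)
    have h2 : tsupport (fun x => f x) ⊆ Uᶜ := closure_minimal h1 hU.isClosed_compl
    intro x hx
    by_contra hcon
    exact h2 hx (hsU fun h => hcon (interior_subset h))
  refine ⟨fun x => f x, V, f.contMDiff.contDiff, ?_, hsupp.trans hK1O, fun x => hf x, hV, hsV, fun x hx => hV1 hx⟩
  exact hK1.of_isClosed_subset (isClosed_tsupport _) hsupp

private theorem gr_apply (f : E → ℝ) (x : E) (i : Fin 3) : gr f x i = pd i f x := by
  unfold gr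
  fin_cases i <;> simp

private theorem cont_pd {f : E → ℝ} (hf : ContDiff ℝ ∞ f) (i : Fin 3) : Continuous (pd i f) :=
  (hf.continuous_fderiv (by simp)).clm_apply continuous_const

private theorem cont_gr {f : E → ℝ} (hf : ContDiff ℝ ∞ f) : Continuous (gr f) := by
  have h1 : gr f = fun x => WithLp.toLp 2 (fun i => pd i f x) := by
    funext x
    ext i
    rw [gr_apply]
  rw [h1]
  exact (PiLp.continuous_toLp 2 _).comp (continuous_pi fun i => cont_pd hf i)

private theorem pd_zero_off {f : E → ℝ} {x : E} (hx : x ∉ tsupport f) (i : Fin 3) : pd i f x = 0 := by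
  unfold pd
  rw [fderiv_of_notMem_tsupport ℝ hx]
  rfl

theorem localize {O : Set E} (hO : IsOpen O) {p : ℝ≥0∞} (hp : 1 ≤ p) {ψ : E → ℝ} {G : E → E}
    (hψ : LpL p O ψ) (hG : LpL p O G) (h : WGrad O ψ G) {K : Set E} (hK : IsCompact K)
    (hKO : K ⊆ O) :
    ∃ (ψ' : E → ℝ) (G' : E → E) (V : Set E), MemLp ψ' p volume ∧ MemLp G' p volume ∧
      Integrable ψ' volume ∧ Integrable G' volume ∧ WGrad univ ψ' G' ∧ HasCompactSupport ψ' ∧
      IsOpen V ∧ K ⊆ V ∧ V ⊆ O ∧ (∀ x ∈ V, ψ' x = ψ x ∧ G' x = G x) ∧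
      ((∀ x, 0 ≤ ψ x) → ∀ x, 0 ≤ ψ' x) := by
  obtain ⟨ζ, V, hζ, hζc, hζO, hζ01, hV, hKV, hζV⟩ := exists_cut hO hK hKO
  have hS : IsCompact (tsupport ζ) := hζc
  have hSm : MeasurableSet (tsupport ζ) := (isClosed_tsupport ζ).measurableSet
  have hψS := hψ _ hS hζO
  have hGS := hG _ hS hζO
  have hfin : IsFiniteMeasure (volume.restrict (tsupport ζ)) := ⟨by
    rw [Measure.restrict_apply_univ]; exact hS.measure_lt_top⟩
  have hζ0 : ∀ x, x ∉ tsupport ζ → ζ x = 0 := fun x hx => image_eq_zero_of_notMem_tsupport hx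
  have hg0 : ∀ x, x ∉ tsupport ζ → gr ζ x = 0 := by
    intro x hx
    ext i
    rw [gr_apply, pd_zero_off hx]
    rfl
  have hζabs : ∀ x, ‖ζ x‖ ≤ 1 := fun x => by
    rw [Real.norm_eq_abs, abs_le]
    exact ⟨by linarith [(hζ01 x).1], (hζ01 x).2⟩
  -- `gr ζ` is bounded
  obtain ⟨M, hM⟩ : ∃ M : ℝ, ∀ x, ‖gr ζ x‖ ≤ M := by
    obtain ⟨M, hM⟩ := hS.exists_bound_of_continuousOn (cont_gr hζ).continuousOn
    refine ⟨max M 0, fun x => ?_⟩
    by_cases hx : x ∈ tsupport ζ
    · exact (hM x hx).trans (le_max_left _ _)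
    · rw [hg0 x hx, norm_zero]
      exact le_max_right _ _
  have hζm : AEStronglyMeasurable ζ (volume.restrict (tsupport ζ)) := hζ.continuous.aestronglyMeasurable
  have hgm : AEStronglyMeasurable (gr ζ) (volume.restrict (tsupport ζ)) := (cont_gr hζ).aestronglyMeasurable
  have ind1 : ∀ {F : Type} [NormedAddCommGroup F] (f : E → F), (∀ x, x ∉ tsupport ζ → f x = 0) →
      MemLp f p (volume.restrict (tsupport ζ)) → MemLp f p volume ∧ Integrable f volume := by
    intro F _ f hf0 hf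
    have h1 : (tsupport ζ).indicator f = f := by
      funext x
      by_cases hx : x ∈ tsupport ζ
      · rw [Set.indicator_of_mem hx]
      · rw [Set.indicator_of_notMem hx, hf0 x hx]
    constructor
    · rw [← h1]
      exact (memLp_indicator_iff_restrict hSm).2 hf
    · rw [← h1]
      exact (integrable_indicator_iff hSm).2 (hf.integrable hp)
  -- the three products
  have m1 : MemLp (fun x => ζ x * ψ x) p (volume.restrict (tsupport ζ)) := by
    refine hψS.of_le_mul (c := 1) (hζm.mul hψS.1) (Eventually.of_forall fun x => ?_)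
    rw [norm_mul]
    exact mul_le_mul_of_nonneg_right (hζabs x) (norm_nonneg _)
  have m2 : MemLp (fun x => ζ x • G x) p (volume.restrict (tsupport ζ)) := by
    refine hGS.of_le_mul (c := 1) (hζm.smul hGS.1) (Eventually.of_forall fun x => ?_)
    rw [norm_smul]
    exact mul_le_mul_of_nonneg_right (hζabs x) (norm_nonneg _)
  have m3 : MemLp (fun x => ψ x • gr ζ x) p (volume.restrict (tsupport ζ)) := by
    refine hψS.of_le_mul (c := M) (hψS.1.smul hgm) (Eventually.of_forall fun x => ?_)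
    rw [norm_smul, mul_comm]
    exact mul_le_mul_of_nonneg_right (hM x) (norm_nonneg _)
  obtain ⟨a1, b1⟩ := ind1 (fun x => ζ x * ψ x) (fun x hx => by rw [hζ0 x hx, zero_mul]) m1
  obtain ⟨a2, b2⟩ := ind1 (fun x => ζ x • G x) (fun x hx => by rw [hζ0 x hx, zero_smul]) m2
  obtain ⟨a3, b3⟩ := ind1 (fun x => ψ x • gr ζ x) (fun x hx => by rw [hg0 x hx, smul_zero]) m3
  refine ⟨fun x => ζ x * ψ x, fun x => ζ x • G x + ψ x • gr ζ x, V, a1, a2.add a3, b1, b2.add b3, ?_,
    hζc.mul_right, hV, hKV, ?_, ?_, fun hpos x => mul_nonneg (hζ01 x).1 (hpos x)⟩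
  · -- the weak gradient
    intro η hη i
    obtain ⟨hη1, hη2, -⟩ := hη
    have hT : STest O (fun x => ζ x * η x) := by
      refine ⟨hζ.mul hη1, hζc.mul_right, ?_⟩
      exact (closure_mono (Function.support_mul_subset_left ζ η)).trans hζO
    have h1 := h _ hT i
    have hpd : ∀ x, pd i (fun y => ζ y * η y) x = ζ x * pd i η x + η x * pd i ζ x := by
      intro x
      have hd1 : DifferentiableAt ℝ ζ x := (hζ.differentiable (by simp)).differentiableAt
      have hd2 : DifferentiableAt ℝ η x := (hη1.differentiable (by simp)).differentiableAt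
      unfold pd
      rw [show (fun y => ζ y * η y) = ζ * η from rfl, fderiv_mul hd1 hd2]
      simp
    obtain ⟨Mη, hMη⟩ : ∃ M : ℝ, ∀ x, ‖η x‖ ≤ M := hη2.exists_bound_of_continuous hη1.continuous
    have hpc : HasCompactSupport (pd i η) := by
      refine hη2.mono' ?_
      intro x hx
      by_contra hcon
      exact hx (pd_zero_off hcon i)
    obtain ⟨Mp, hMp⟩ : ∃ M : ℝ, ∀ x, ‖pd i η x‖ ≤ M := hpc.exists_bound_of_continuous (cont_pd hη1 i)
    have i1 : Integrable (fun x => (ζ x * ψ x) * pd i η x) volume :=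
      b1.mul_bdd (cont_pd hη1 i).aestronglyMeasurable (Eventually.of_forall hMp)
    have b3' : Integrable (fun x => (ψ x • gr ζ x) i) volume :=
      (EuclideanSpace.proj i : E →L[ℝ] ℝ).integrable_comp b3
    have b2' : Integrable (fun x => (ζ x • G x) i) volume :=
      (EuclideanSpace.proj i : E →L[ℝ] ℝ).integrable_comp b2
    have i2 : Integrable (fun x => (ψ x • gr ζ x) i * η x) volume :=
      b3'.mul_bdd hη1.continuous.aestronglyMeasurable (Eventually.of_forall hMη)
    have i3 : Integrable (fun x => (ζ x • G x) i * η x) volume :=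
      b2'.mul_bdd hη1.continuous.aestronglyMeasurable (Eventually.of_forall hMη)
    have e1 : ∫ x, ψ x * pd i (fun y => ζ y * η y) x = (∫ x, (ζ x * ψ x) * pd i η x) + ∫ x, (ψ x • gr ζ x) i * η x := by
      rw [← integral_add i1 i2]
      refine integral_congr_ae (Eventually.of_forall fun x => ?_)
      simp only [PiLp.smul_apply, smul_eq_mul, gr_apply]
      rw [hpd]
      ring
    have e2 : ∫ x, G x i * (ζ x * η x) = ∫ x, (ζ x • G x) i * η x := by
      refine integral_congr_ae (Eventually.of_forall fun x => ?_)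
      simp only [PiLp.smul_apply, smul_eq_mul]
      ring
    have e3 : ∫ x, (ζ x • G x + ψ x • gr ζ x) i * η x = (∫ x, (ζ x • G x) i * η x) + ∫ x, (ψ x • gr ζ x) i * η x := by
      rw [← integral_add i3 i2]
      refine integral_congr_ae (Eventually.of_forall fun x => ?_)
      simp only [PiLp.add_apply]
      ring
    rw [e3]
    rw [e1, e2] at h1
    linarith
  · intro x hx
    by_contra hcon
    have h1 := hζ0 x fun h => hcon (hζO h)
    rw [hζV x hx] at h1
    exact one_ne_zero h1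
  · intro x hx
    have h1 : gr ζ x = 0 := by
      ext i
      rw [gr_apply]
      unfold pd
      have h2 : ζ =ᶠ[𝓝 x] fun _ => (1 : ℝ) := by
        filter_upwards [hV.mem_nhds hx] with y hy using hζV y hy
      rw [h2.fderiv_eq]
      simp
    simp [hζV x hx, h1]

end Pool.CQ
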