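import Pool.Agent.Lib.MP_cd5b91_an.CQ.Defs
import Pool.Agent.Lib.MP_28fba0_gt.UV.MollLp

/-!
# CQ-LpMoll
-/

open MeasureTheory Filter Topology Set
open scoped ContDiff RealInnerProductSpace ENNReal

namespace Pool.CQ

/-- the kernel as a nonnegative function -/
private noncomputable def LpMoll_w (n : ℕ) (t : E) : NNReal :=
  ((Pool.UVF.bump 3 n).normed (volume : Measure E) t).toNNReal

private theorem LpMoll_w_meas (n : ℕ) : Measurable (LpMoll_w n) :=
  (Pool.UVF.bump 3 n).continuous_normed.measurable.real_toNNReal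

/-- the probability measure `ρ_n dt` -/
private noncomputable def LpMoll_k (n : ℕ) : Measure E :=
  (volume : Measure E).withDensity fun t => (LpMoll_w n t : ℝ≥0∞)

private theorem LpMoll_w_coe (n : ℕ) (t : E) :
    (LpMoll_w n t : ℝ) = (Pool.UVF.bump 3 n).normed (volume : Measure E) t :=
  Real.coe_toNNReal _ ((Pool.UVF.bump 3 n).nonneg_normed t)

private theorem LpMoll_prob (n : ℕ) : IsProbabilityMeasure (LpMoll_k n) := by
  constructor
  unfold LpMoll_k
  rw [withDensity_apply _ MeasurableSet.univ, Measure.restrict_univ]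
  have h1 : ∫⁻ t : E, (LpMoll_w n t : ℝ≥0∞) = ENNReal.ofReal (∫ t : E, (Pool.UVF.bump 3 n).normed volume t) := by
    rw [ofReal_integral_eq_lintegral_ofReal (Pool.UVF.bump 3 n).integrable_normed
      (Eventually.of_forall fun t => (Pool.UVF.bump 3 n).nonneg_normed t)]
    rfl
  rw [h1, (Pool.UVF.bump 3 n).integral_normed, ENNReal.ofReal_one]

private theorem LpMoll_int (n : ℕ) (g : E → ℝ) :
    ∫ t, g t ∂(LpMoll_k n) = ∫ t, (Pool.UVF.bump 3 n).normed (volume : Measure E) t * g t := by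
  unfold LpMoll_k
  rw [integral_withDensity_eq_integral_smul (LpMoll_w_meas n)]
  refine integral_congr_ae (Eventually.of_forall fun t => ?_)
  show (LpMoll_w n t) • g t = (Pool.UVF.bump 3 n).normed (volume : Measure E) t * g t
  rw [NNReal.smul_def, LpMoll_w_coe, smul_eq_mul]

/-- Minkowski's inequality for integrals with respect to a probability measure. -/
private theorem LpMoll_mink {κ : Measure E} [IsProbabilityMeasure κ] {p : ℝ≥0∞} (hp : 1 ≤ p) (hpt : p ≠ ⊤)
    {g : E → E → ℝ} (hg : AEStronglyMeasurable (fun q : E × E => g q.1 q.2) ((volume : Measure E).prod κ))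
    {C : ℝ≥0∞} (hC : ∀ᵐ t ∂κ, eLpNorm (fun x => g x t) p volume ≤ C) :
    eLpNorm (fun x => ∫ t, g x t ∂κ) p volume ≤ C := by
  have hp0 : p ≠ 0 := (lt_of_lt_of_le one_pos hp).ne'
  have hr : 0 < p.toReal := ENNReal.toReal_pos hp0 hpt
  have h1 : ∀ᵐ x : E, ‖∫ t, g x t ∂κ‖ₑ ^ p.toReal ≤ ∫⁻ t, ‖g x t‖ₑ ^ p.toReal ∂κ := by
    filter_upwards [hg.prodMk_left] with x hx
    have h2 : eLpNorm (fun t => g x t) 1 κ ≤ eLpNorm (fun t => g x t) p κ := eLpNorm_le_eLpNorm_of_exponent_le hp hx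
    rw [eLpNorm_one_eq_lintegral_enorm, eLpNorm_eq_lintegral_rpow_enorm_toReal hp0 hpt] at h2
    have h3 := (enorm_integral_le_lintegral_enorm (fun t => g x t) (μ := κ)).trans h2
    have h4 := ENNReal.rpow_le_rpow h3 hr.le
    rw [← ENNReal.rpow_mul, one_div, inv_mul_cancel₀ hr.ne', ENNReal.rpow_one] at h4
    exact h4
  have h5 : AEMeasurable (Function.uncurry fun x t : E => ‖g x t‖ₑ ^ p.toReal) ((volume : Measure E).prod κ) :=
    hg.enorm.pow_const _
  have h6 : ∫⁻ x : E, ∫⁻ t, ‖g x t‖ₑ ^ p.toReal ∂κ ≤ C ^ p.toReal := by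
    rw [lintegral_lintegral_swap h5]
    calc ∫⁻ t, (∫⁻ x : E, ‖g x t‖ₑ ^ p.toReal) ∂κ ≤ ∫⁻ _ : E, C ^ p.toReal ∂κ := by
          refine lintegral_mono_ae ?_
          filter_upwards [hC] with t ht
          rw [eLpNorm_eq_lintegral_rpow_enorm_toReal hp0 hpt] at ht
          have h7 := ENNReal.rpow_le_rpow ht hr.le
          rw [← ENNReal.rpow_mul, one_div, inv_mul_cancel₀ hr.ne', ENNReal.rpow_one] at h7
          exact h7
      _ = C ^ p.toReal := by rw [lintegral_const, measure_univ, mul_one]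
  rw [eLpNorm_eq_lintegral_rpow_enorm_toReal hp0 hpt]
  calc (∫⁻ x : E, ‖∫ t, g x t ∂κ‖ₑ ^ p.toReal) ^ (1 / p.toReal)
      ≤ (C ^ p.toReal) ^ (1 / p.toReal) := ENNReal.rpow_le_rpow ((lintegral_mono_ae h1).trans h6) (by positivity)
    _ = C := by rw [← ENNReal.rpow_mul, mul_one_div_cancel hr.ne', ENNReal.rpow_one]

private theorem LpMoll_meas {p : ℝ≥0∞} {f : E → ℝ} (hf : MemLp f p volume) (n : ℕ) :
    AEStronglyMeasurable (fun q : E × E => f (q.1 - q.2)) ((volume : Measure E).prod (LpMoll_k n)) := by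
  have h1 : AEStronglyMeasurable (fun q : E × E => f (q.1 - q.2)) ((volume : Measure E).prod volume) :=
    hf.1.comp_quasiMeasurePreserving (quasiMeasurePreserving_sub_of_right_invariant _ _)
  have := LpMoll_prob n
  exact h1.mono_ac (Measure.AbsolutelyContinuous.rfl.prod (withDensity_absolutelyContinuous _ _))

private theorem LpMoll_meas2 {p : ℝ≥0∞} {f : E → ℝ} (hf : MemLp f p volume) (n : ℕ) :
    AEStronglyMeasurable (fun q : E × E => f (q.1 - q.2) - f q.1) ((volume : Measure E).prod (LpMoll_k n)) := by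
  have := LpMoll_prob n
  exact (LpMoll_meas hf n).sub hf.1.comp_fst

private theorem LpMoll_trans {p : ℝ≥0∞} {f : E → ℝ} (hf : MemLp f p volume) (t : E) :
    eLpNorm (fun x => f (x - t)) p volume = eLpNorm f p volume :=
  eLpNorm_comp_measurePreserving hf.1 (measurePreserving_sub_right volume t)

theorem mol_memLp {p : ℝ≥0∞} (hp : 1 ≤ p) (hpt : p ≠ ⊤) {f : E → ℝ} (hf : MemLp f p volume) (n : ℕ) :
    MemLp (mol n f) p volume := by
  refine ⟨(Pool.UVF.contDiff_moll (hf.locallyIntegrable hp) n).continuous.aestronglyMeasurable, ?_⟩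
  have := LpMoll_prob n
  have h1 : mol n f = fun x => ∫ t, f (x - t) ∂(LpMoll_k n) := by
    funext x
    rw [LpMoll_int]
    rfl
  rw [h1]
  exact lt_of_le_of_lt (LpMoll_mink hp hpt (LpMoll_meas hf n) (Eventually.of_forall fun t => (LpMoll_trans hf t).le)) hf.2

private theorem LpMoll_sub {p : ℝ≥0∞} (hp : 1 ≤ p) {f : E → ℝ} (hf : MemLp f p volume) (n : ℕ) (x : E) :
    mol n f x - f x = ∫ t, (f (x - t) - f x) ∂(LpMoll_k n) := by
  rw [LpMoll_int]
  have hcs : HasCompactSupport ((Pool.UVF.bump 3 n).normed (volume : Measure E)) :=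
    (Pool.UVF.bump 3 n).hasCompactSupport_normed
  have h1 : Integrable (fun t : E => (Pool.UVF.bump 3 n).normed volume t * f (x - t)) volume := by
    have h := hcs.convolutionExists_left (ContinuousLinearMap.mul ℝ ℝ) (Pool.UVF.bump 3 n).continuous_normed
      (hf.locallyIntegrable hp) x
    simpa [ConvolutionExistsAt] using h
  have h2 : Integrable (fun t : E => (Pool.UVF.bump 3 n).normed volume t * f x) volume :=
    (Pool.UVF.bump 3 n).integrable_normed.mul_const _
  have h3 : ∫ t : E, (Pool.UVF.bump 3 n).normed volume t * f x = f x := by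
    rw [integral_mul_const, (Pool.UVF.bump 3 n).integral_normed, one_mul]
  have h4 : mol n f x = ∫ t : E, (Pool.UVF.bump 3 n).normed volume t * f (x - t) := rfl
  rw [h4]
  conv_lhs => rw [← h3]
  rw [← integral_sub h1 h2]
  congr 1
  funext t
  ring

private theorem LpMoll_cont {p : ℝ≥0∞} (hp : 1 ≤ p) (hpt : p ≠ ⊤) {f : E → ℝ} (hf : MemLp f p volume) :
    Tendsto (fun t : E => eLpNorm (fun x => f (x - t) - f x) p volume) (𝓝 0) (𝓝 0) := by
  have : Fact (1 ≤ p) := ⟨hp⟩
  have : Fact (p ≠ ⊤) := ⟨hpt⟩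
  have h0 := Pool.UVF.mollB_cont (d := 3) (hf.toLp f)
  have h1 := ENNReal.tendsto_ofReal h0
  rw [ENNReal.ofReal_zero] at h1
  refine h1.congr fun t => ?_
  rw [DomAddAct.mk_vadd_toLp, ← MemLp.toLp_sub, Lp.norm_toLp]
  have h2 : MemLp ((fun x => f (-t +ᵥ x)) - f) p volume :=
    (hf.comp_measurePreserving (measurePreserving_vadd (-t) volume)).sub hf
  rw [ENNReal.ofReal_toReal h2.2.ne]
  congr 1
  funext x
  simp only [Pi.sub_apply, vadd_eq_add]
  rw [neg_add_eq_sub]

theorem mol_tendsto {p : ℝ≥0∞} (hp : 1 ≤ p) (hpt : p ≠ ⊤) {f : E → ℝ} (hf : MemLp f p volume) :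
    Tendsto (fun n => eLpNorm (fun x => mol n f x - f x) p volume) atTop (𝓝 0) := by
  rw [ENNReal.tendsto_nhds_zero]
  intro ε hε
  have h1 := (ENNReal.tendsto_nhds_zero.1 (LpMoll_cont hp hpt hf)) ε hε
  obtain ⟨η, hη, h2⟩ := Metric.eventually_nhds_iff.1 h1
  obtain ⟨n0, hn0⟩ := exists_nat_one_div_lt hη
  filter_upwards [eventually_ge_atTop n0] with n hn
  have := LpMoll_prob n
  have h3 : (fun x => mol n f x - f x) = fun x => ∫ t, (f (x - t) - f x) ∂(LpMoll_k n) := by
    funext x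
    exact LpMoll_sub hp hf n x
  rw [h3]
  refine LpMoll_mink hp hpt (LpMoll_meas2 hf n) ?_
  unfold LpMoll_k
  rw [ae_withDensity_iff (LpMoll_w_meas n).coe_nnreal_ennreal]
  refine Eventually.of_forall fun t ht => h2 ?_
  have h5 : (Pool.UVF.bump 3 n).normed (volume : Measure E) t ≠ 0 := by
    intro h6
    apply ht
    have h7 : LpMoll_w n t = 0 := by
      apply NNReal.coe_injective
      rw [LpMoll_w_coe, h6]
      rfl
    rw [h7]
    rfl
  have h8 : t ∈ Function.support ((Pool.UVF.bump 3 n).normed (volume : Measure E)) := h5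
  rw [ContDiffBump.support_normed_eq, Metric.mem_ball] at h8
  refine h8.trans_le (le_trans ?_ hn0.le)
  show 1 / ((n : ℝ) + 1) ≤ 1 / ((n0 : ℝ) + 1)
  apply one_div_le_one_div_of_le (by positivity)
  have h9 : (n0 : ℝ) ≤ n := by exact_mod_cast hn
  linarith

end Pool.CQ
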