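import Pool.Agent.Lib.MP_cd5b91_an.CQ.LpFacts

/-!
# CQ-NehDefs: limits of gradients
-/

open MeasureTheory Filter Topology Set
open scoped ContDiff RealInnerProductSpace ENNReal

namespace Pool.CQ

/-- `w` is a limit in `L⁶` of gradients of test functions -/
def GLim (w : E → E) : Prop :=
  MemLp w 6 volume ∧ ∃ η : ℕ → E → ℝ, (∀ n, STest univ (η n)) ∧
    Tendsto (fun n => eLpNorm (fun x => gr (η n) x - w x) 6 volume) atTop (𝓝 0)

end Pool.CQ
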