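import Pool.Agent.Lib.MP_cd5b91_an.CQ.NehPt

/-!
# CQ-NehEul: the Euler equation
-/

open MeasureTheory Filter Topology Set
open scoped ContDiff RealInnerProductSpace ENNReal

namespace Pool.CQ

private theorem NehEul_bound {V G : E → E} (hV : MemLp V 6 volume) (hG : MemLp G 6 volume)
    (h : ∀ s : ℝ, ∫ x, ‖V x‖ ^ 6 ≤ ∫ x, ‖V x + s • G x‖ ^ 6) {s : ℝ} (hs : |s| ≤ 1) :
    0 ≤ 6 * s * (∫ x, ⟪‖V x‖ ^ 4 • V x, G x⟫)
      + s ^ 2 * (57 * ((∫ x, ‖V x‖ ^ 6) + ∫ x, ‖G x‖ ^ 6)) := by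
  have i1 := int6 hV
  have i2 := int6 hG
  have i3 : Integrable (fun x => ⟪‖V x‖ ^ 4 • V x, G x⟫) volume :=
    integrable65 (memLp_quint hV hV) hG
  have i4 : Integrable (fun x => ‖V x + s • G x‖ ^ 6) volume := int6 (hV.add (hG.const_smul s))
  have i5 : Integrable (fun x => ‖V x‖ ^ 6 + 6 * s * ⟪‖V x‖ ^ 4 • V x, G x⟫) volume :=
    i1.add (i3.const_mul (6 * s))
  have i6 : Integrable (fun x => s ^ 2 * (57 * (‖V x‖ ^ 6 + ‖G x‖ ^ 6))) volume :=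
    ((i1.add i2).const_mul 57).const_mul (s ^ 2)
  have h1 : ∫ x, ‖V x + s • G x‖ ^ 6
      ≤ ∫ x, (‖V x‖ ^ 6 + 6 * s * ⟪‖V x‖ ^ 4 • V x, G x⟫
        + s ^ 2 * (57 * (‖V x‖ ^ 6 + ‖G x‖ ^ 6))) := by
    refine integral_mono i4 (i5.add i6) fun x => ?_
    have h2 := quad6 (V x) (G x) hs
    have h3 : ⟪‖V x‖ ^ 4 • V x, G x⟫ = ‖V x‖ ^ 4 * ⟪V x, G x⟫ := real_inner_smul_left _ _ _
    change ‖V x + s • G x‖ ^ 6 ≤ ‖V x‖ ^ 6 + 6 * s * ⟪‖V x‖ ^ 4 • V x, G x⟫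
        + s ^ 2 * (57 * (‖V x‖ ^ 6 + ‖G x‖ ^ 6))
    rw [h3]
    exact h2
  rw [integral_add i5 i6, integral_add i1 (i3.const_mul (6 * s)), integral_const_mul,
    integral_const_mul, integral_const_mul, integral_add i1 i2] at h1
  have h4 := (h s).trans h1
  linarith

/-- Euler equation of the minimiser -/
theorem euler {V G : E → E} (hV : MemLp V 6 volume) (hG : MemLp G 6 volume)
    (h : ∀ s : ℝ, ∫ x, ‖V x‖ ^ 6 ≤ ∫ x, ‖V x + s • G x‖ ^ 6) :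
    ∫ x, ⟪‖V x‖ ^ 4 • V x, G x⟫ = 0 := by
  obtain ⟨κ, hκ⟩ : ∃ κ, κ = ∫ x, ⟪‖V x‖ ^ 4 • V x, G x⟫ := ⟨_, rfl⟩
  obtain ⟨M, hM⟩ : ∃ M, M = 57 * ((∫ x, ‖V x‖ ^ 6) + ∫ x, ‖G x‖ ^ 6) := ⟨_, rfl⟩
  have hM0 : 0 ≤ M := by
    rw [hM]
    have j1 : 0 ≤ ∫ x, ‖V x‖ ^ 6 := integral_nonneg fun x => by positivity
    have j2 : 0 ≤ ∫ x, ‖G x‖ ^ 6 := integral_nonneg fun x => by positivity
    positivity
  have hb : ∀ s : ℝ, |s| ≤ 1 → 0 ≤ 6 * s * κ + s ^ 2 * M := by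
    intro s hs
    rw [hκ, hM]
    exact NehEul_bound hV hG h hs
  rw [← hκ]
  by_contra hne
  obtain ⟨D, hD⟩ : ∃ D, D = M + 6 * |κ| + 1 := ⟨_, rfl⟩
  have hk : 0 ≤ |κ| := abs_nonneg κ
  have hDpos : 0 < D := by rw [hD]; positivity
  have hMD : M ≤ D := by rw [hD]; linarith
  have hkD : |κ| ≤ D := by rw [hD]; linarith
  have h1 : |(-κ / D)| ≤ 1 := by
    rw [abs_div, abs_neg, abs_of_pos hDpos]
    exact (div_le_one hDpos).2 hkD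
  have h2 := hb (-κ / D) h1
  have h3 : 6 * (-κ / D) * κ + (-κ / D) ^ 2 * M = κ ^ 2 / D * (M / D - 6) := by
    field_simp
    ring
  have h4 : M / D ≤ 1 := (div_le_one hDpos).2 hMD
  have h5 : 0 < κ ^ 2 / D := by positivity
  rw [h3] at h2
  nlinarith

end Pool.CQ
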