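import Pool.Agent.Lib.MP_cd5b91_an.CQ.NehCurl

/-!
# CQ-NehLim: limits of gradients
-/

open MeasureTheory Filter Topology Set
open scoped ContDiff RealInnerProductSpace ENNReal

namespace Pool.CQ

private theorem NL_tendsto {w V : E → E} {η : ℕ → E → ℝ} (hη : ∀ n, STest univ (η n))
    (hw : MemLp w 6 volume) (hV : MemLp V (6 / 5) volume)
    (ht : Tendsto (fun n => eLpNorm (fun x => gr (η n) x - w x) 6 volume) atTop (𝓝 0)) :
    Tendsto (fun n => ∫ x, ⟪V x, gr (η n) x⟫) atTop (𝓝 (∫ x, ⟪V x, w x⟫)) := by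
  have hg : ∀ n, MemLp (gr (η n)) 6 volume := fun n => (w6_gr (hη n)).1
  have hd : ∀ n, MemLp (fun x => gr (η n) x - w x) 6 volume := fun n => (hg n).sub hw
  have h6 : (6 : ℝ≥0∞).toReal = ((6 : ℕ) : ℝ) := by simp
  have hnorm : ∀ n, (∫ x, ‖gr (η n) x - w x‖ ^ 6) ^ (1 / 6 : ℝ)
      = (eLpNorm (fun x => gr (η n) x - w x) 6 volume).toReal := by
    intro n
    have h0 : 0 ≤ ∫ x, ‖gr (η n) x - w x‖ ^ 6 := integral_nonneg fun x => by positivity
    rw [(hd n).eLpNorm_eq_integral_rpow_norm (by norm_num) (by norm_num), h6]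
    simp only [Real.rpow_natCast]
    rw [ENNReal.toReal_ofReal (by positivity)]
    norm_num
  have ht' : Tendsto (fun n => (∫ x, ‖gr (η n) x - w x‖ ^ 6) ^ (1 / 6 : ℝ)) atTop (𝓝 0) := by
    simp only [hnorm]
    have := (ENNReal.tendsto_toReal ENNReal.zero_ne_top).comp ht
    rw [ENNReal.toReal_zero] at this
    exact this
  rw [tendsto_iff_norm_sub_tendsto_zero]
  have hz : Tendsto (fun n => (∫ x, ‖V x‖ ^ (6 / 5 : ℝ)) ^ (5 / 6 : ℝ)
      * (∫ x, ‖gr (η n) x - w x‖ ^ 6) ^ (1 / 6 : ℝ)) atTop (𝓝 0) := by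
    have := ht'.const_mul ((∫ x, ‖V x‖ ^ (6 / 5 : ℝ)) ^ (5 / 6 : ℝ))
    rwa [mul_zero] at this
  refine squeeze_zero (fun n => norm_nonneg _) (fun n => ?_) hz
  rw [← integral_sub (integrable65 hV (hg n)) (integrable65 hV hw), Real.norm_eq_abs]
  have h1 := holder65 hV (hd n)
  have e : ∀ x, ⟪V x, gr (η n) x⟫ - ⟪V x, w x⟫ = ⟪V x, gr (η n) x - w x⟫ := fun x =>
    (inner_sub_right _ _ _).symm
  simp only [e]
  exact h1

/-- limits of gradients are orthogonal to divergence free fields -/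
theorem glim_orth {w V : E → E} (hw : GLim w) (hV : MemLp V (6 / 5) volume)
    (h : ∀ η : E → ℝ, STest univ η → ∫ x, ⟪V x, gr η x⟫ = 0) : ∫ x, ⟪V x, w x⟫ = 0 := by
  obtain ⟨hw6, η, hη, ht⟩ := hw
  have h1 := NL_tendsto hη hw6 hV ht
  simp only [h _ (hη _)] at h1
  exact tendsto_nhds_unique h1 tendsto_const_nhds

/-- limits of gradients have zero curl -/
theorem w6_glim {w : E → E} (hw : GLim w) : W6 w (fun _ => 0) := by
  refine ⟨hw.1, MemLp.zero', fun φ hφ => ?_⟩
  have h1 := glim_orth hw (V := curl φ) (test_memLp (test_curl hφ) _) fun η hη => by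
    have h2 := (w6_gr hη).2.2 φ hφ
    simp only [inner_zero_left, integral_zero] at h2
    simpa only [real_inner_comm] using h2
  simp only [inner_zero_left, integral_zero]
  simpa only [real_inner_comm] using h1

end Pool.CQ
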