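import Pool.Agent.Lib.MP_cd5b91_an.CQ.NehPt
import Pool.Agent.Lib.MP_cd5b91_an.CQ.NehCurl

/-!
# CQ-NehMin: the minimiser over the limits of gradients
-/

open MeasureTheory Filter Topology Set
open scoped ContDiff RealInnerProductSpace ENNReal

namespace Pool.CQ

private theorem NM_fact : Fact ((1 : ℝ≥0∞) ≤ 6) := ⟨by norm_num⟩

private theorem NM_norm {f : E → E} (hf : MemLp f 6 volume) :
    ‖hf.toLp f‖ ^ 6 = ∫ x, ‖f x‖ ^ 6 := by
  have h0 : 0 ≤ ∫ x, ‖f x‖ ^ 6 := integral_nonneg fun x => by positivity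
  have h6 : (6 : ℝ≥0∞).toReal = ((6 : ℕ) : ℝ) := by simp
  rw [Lp.norm_toLp, hf.eLpNorm_eq_integral_rpow_norm (by norm_num) (by norm_num), h6]
  simp only [Real.rpow_natCast]
  rw [ENNReal.toReal_ofReal (by positivity), ← Real.rpow_natCast, ← Real.rpow_mul h0]
  norm_num

private theorem NM_norm' (F : Lp E 6 (volume : Measure E)) :
    ‖F‖ ^ 6 = ∫ x, ‖F x‖ ^ 6 := by
  rw [← NM_norm (Lp.memLp F), Lp.toLp_coeFn]

theorem exists_glim {v : E → E} (hv : MemLp v 6 volume) :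
    ∃ w : E → E, GLim w ∧ ∀ η : E → ℝ, STest univ η → ∀ s : ℝ,
      ∫ x, ‖v x + w x‖ ^ 6 ≤ ∫ x, ‖v x + w x + s • gr η x‖ ^ 6 := by
  have hfact := NM_fact
  have h00 : STest univ (fun _ : E => (0 : ℝ)) :=
    ⟨contDiff_const, HasCompactSupport.zero, subset_univ _⟩
  have hne : Nonempty {η : E → ℝ // STest univ η} := ⟨⟨_, h00⟩⟩
  have hnn : ∀ η : E → ℝ, 0 ≤ ∫ x, ‖v x + gr η x‖ ^ 6 := fun η =>
    integral_nonneg fun x => by positivity
  have hbdd : BddBelow (Set.range fun η : {η : E → ℝ // STest univ η} =>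
      ∫ x, ‖v x + gr η.1 x‖ ^ 6) := by
    refine ⟨0, ?_⟩
    rintro _ ⟨η, rfl⟩
    exact hnn η.1
  obtain ⟨I, hI⟩ : ∃ I, I = ⨅ η : {η : E → ℝ // STest univ η}, ∫ x, ‖v x + gr η.1 x‖ ^ 6 := ⟨_, rfl⟩
  have hle : ∀ η : E → ℝ, STest univ η → I ≤ ∫ x, ‖v x + gr η x‖ ^ 6 := by
    intro η hη
    rw [hI]
    exact ciInf_le hbdd ⟨η, hη⟩
  have hex : ∀ n : ℕ, ∃ η : E → ℝ, STest univ η ∧
      ∫ x, ‖v x + gr η x‖ ^ 6 < I + 1 / ((n : ℝ) + 1) := by
    intro n
    have h1 : (⨅ η : {η : E → ℝ // STest univ η}, ∫ x, ‖v x + gr η.1 x‖ ^ 6)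
        < I + 1 / ((n : ℝ) + 1) := by
      rw [← hI]
      have : 0 < 1 / ((n : ℝ) + 1) := by positivity
      linarith
    obtain ⟨⟨η, hη⟩, h2⟩ := exists_lt_of_ciInf_lt h1
    exact ⟨η, hη, h2⟩
  choose η hη hlt using hex
  have hg : ∀ n, MemLp (gr (η n)) 6 volume := fun n => (w6_gr (hη n)).1
  have hcl : ∀ n m, ‖(hg n).toLp (gr (η n)) - (hg m).toLp (gr (η m))‖ ^ 6
      ≤ 32 * (1 / ((n : ℝ) + 1) + 1 / ((m : ℝ) + 1)) := by
    intro n m
    rw [← MemLp.toLp_sub, NM_norm]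
    obtain ⟨hz, hgz⟩ := stest_add (hη n) (hη m) (1 / 2) (1 / 2)
    have i1 : Integrable (fun x => ‖v x + gr (η n) x‖ ^ 6) volume := int6 (hv.add (hg n))
    have i2 : Integrable (fun x => ‖v x + gr (η m) x‖ ^ 6) volume := int6 (hv.add (hg m))
    have i3 : Integrable (fun x => ‖v x + gr (fun y => 1 / 2 * η n y + 1 / 2 * η m y) x‖ ^ 6)
        volume := int6 (hv.add (w6_gr hz).1)
    have i4 : Integrable (fun x => ‖gr (η n) x - gr (η m) x‖ ^ 6) volume :=
      int6 ((hg n).sub (hg m))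
    have h1 : ∫ x, (‖v x + gr (fun y => 1 / 2 * η n y + 1 / 2 * η m y) x‖ ^ 6
        + 1 / 64 * ‖gr (η n) x - gr (η m) x‖ ^ 6)
        ≤ ∫ x, (‖v x + gr (η n) x‖ ^ 6 + ‖v x + gr (η m) x‖ ^ 6) / 2 := by
      refine integral_mono (i3.add (i4.const_mul (1 / 64))) ((i1.add i2).div_const 2) fun x => ?_
      have h2 := clarkson6 (v x + gr (η n) x) (v x + gr (η m) x)
      have e1 : (1 / 2 : ℝ) • (v x + gr (η n) x + (v x + gr (η m) x))
          = v x + gr (fun y => 1 / 2 * η n y + 1 / 2 * η m y) x := by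
        rw [hgz]
        module
      have e2 : (1 / 2 : ℝ) • (v x + gr (η n) x - (v x + gr (η m) x))
          = (1 / 2 : ℝ) • (gr (η n) x - gr (η m) x) := by
        module
      rw [e1, e2, norm_smul, mul_pow] at h2
      have e3 : ‖(1 / 2 : ℝ)‖ ^ 6 = 1 / 64 := by
        rw [Real.norm_of_nonneg (by norm_num)]
        norm_num
      rw [e3] at h2
      exact h2
    rw [integral_add i3 (i4.const_mul (1 / 64)), integral_const_mul, integral_div,
      integral_add i1 i2] at h1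
    have h3 := hle _ hz
    have h4 := hlt n
    have h5 := hlt m
    simp only [Pi.sub_apply]
    linarith
  have hC : CauchySeq fun n => (hg n).toLp (gr (η n)) := by
    rw [Metric.cauchySeq_iff]
    intro ε hε
    obtain ⟨N, hN⟩ := exists_nat_gt (64 / ε ^ 6)
    refine ⟨N, fun n hn m hm => ?_⟩
    rw [dist_eq_norm]
    refine lt_of_pow_lt_pow_left₀ 6 hε.le ((hcl n m).trans_lt ?_)
    have hNp : (0 : ℝ) < (N : ℝ) + 1 := by positivity
    have h1 : 1 / ((n : ℝ) + 1) ≤ 1 / ((N : ℝ) + 1) := by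
      have : (N : ℝ) ≤ n := by exact_mod_cast hn
      exact one_div_le_one_div_of_le hNp (by linarith)
    have h2 : 1 / ((m : ℝ) + 1) ≤ 1 / ((N : ℝ) + 1) := by
      have : (N : ℝ) ≤ m := by exact_mod_cast hm
      exact one_div_le_one_div_of_le hNp (by linarith)
    have h3 : 64 * (1 / ((N : ℝ) + 1)) < ε ^ 6 := by
      rw [mul_one_div, div_lt_iff₀ hNp]
      rw [div_lt_iff₀ (by positivity)] at hN
      nlinarith [pow_pos hε 6]
    linarith
  obtain ⟨G, hG⟩ := cauchySeq_tendsto_of_complete hC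
  have hGm : MemLp (G : E → E) 6 volume := Lp.memLp G
  have hGt : hGm.toLp (G : E → E) = G := Lp.toLp_coeFn G hGm
  refine ⟨G, ⟨hGm, η, hη, ?_⟩, ?_⟩
  · have h1 := (Lp.tendsto_Lp_iff_tendsto_eLpNorm' (fun n => (hg n).toLp (gr (η n))) G).1 hG
    refine h1.congr fun n => ?_
    refine eLpNorm_congr_ae ?_
    filter_upwards [(hg n).coeFn_toLp] with x hx
    simp only [Pi.sub_apply, hx]
  · have hval : ∀ (ζ : E → ℝ), STest univ ζ → ∀ s : ℝ,
        Tendsto (fun n => ∫ x, ‖v x + gr (η n) x + s • gr ζ x‖ ^ 6) atTop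
          (𝓝 (∫ x, ‖v x + G x + s • gr ζ x‖ ^ 6)) := by
      intro ζ hζ s
      have hζg := (w6_gr hζ).1
      have h1 : Tendsto (fun n => ‖hv.toLp v + (hg n).toLp (gr (η n))
          + (hζg.const_smul s).toLp (s • gr ζ)‖ ^ 6) atTop
          (𝓝 (‖hv.toLp v + G + (hζg.const_smul s).toLp (s • gr ζ)‖ ^ 6)) :=
        (((tendsto_const_nhds.add hG).add tendsto_const_nhds).norm).pow 6
      rw [← hGt] at h1
      simp only [← MemLp.toLp_add, NM_norm] at h1
      exact h1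
    intro ζ hζ s
    have hge : I ≤ ∫ x, ‖v x + G x + s • gr ζ x‖ ^ 6 := by
      refine ge_of_tendsto (hval ζ hζ s) (Eventually.of_forall fun n => ?_)
      obtain ⟨hz, hgz⟩ := stest_add (hη n) hζ 1 s
      refine (hle _ hz).trans (le_of_eq ?_)
      congr 1
      funext x
      rw [hgz, one_smul, add_assoc]
    have hle' : ∫ x, ‖v x + G x‖ ^ 6 ≤ I := by
      have h1 := hval _ h00 0
      simp only [zero_smul, add_zero] at h1
      have h2 : Tendsto (fun n : ℕ => I + 1 / ((n : ℝ) + 1)) atTop (𝓝 (I + 0)) :=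
        tendsto_const_nhds.add tendsto_one_div_add_atTop_nhds_zero_nat
      rw [add_zero] at h2
      exact le_of_tendsto_of_tendsto' h1 h2 fun n => (hlt n).le
    exact hle'.trans hge

end Pool.CQ
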