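import Pool.Agent.Lib.MP_cd5b91_an.CQ.NehDefs

/-!
# CQ-NehPt: pointwise inequalities
-/

open MeasureTheory Filter Topology Set
open scoped ContDiff RealInnerProductSpace ENNReal

namespace Pool.CQ

/-- Clarkson's inequality for the exponent 6 -/
theorem clarkson6 (a b : E) :
    ‖(1 / 2 : ℝ) • (a + b)‖ ^ 6 + ‖(1 / 2 : ℝ) • (a - b)‖ ^ 6 ≤ (‖a‖ ^ 6 + ‖b‖ ^ 6) / 2 := by
  have h1 := parallelogram_law_with_norm ℝ a b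
  have hX : 0 ≤ ‖a + b‖ ^ 2 := by positivity
  have hY : 0 ≤ ‖a - b‖ ^ 2 := by positivity
  have hp : 0 ≤ ‖a‖ ^ 2 := by positivity
  have hq : 0 ≤ ‖b‖ ^ 2 := by positivity
  rw [norm_smul, norm_smul, Real.norm_of_nonneg (by norm_num : (0 : ℝ) ≤ 1 / 2), mul_pow, mul_pow]
  have e1 : ‖a + b‖ ^ 6 = (‖a + b‖ ^ 2) ^ 3 := by ring
  have e2 : ‖a - b‖ ^ 6 = (‖a - b‖ ^ 2) ^ 3 := by ring
  have e3 : ‖a‖ ^ 6 = (‖a‖ ^ 2) ^ 3 := by ring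
  have e4 : ‖b‖ ^ 6 = (‖b‖ ^ 2) ^ 3 := by ring
  rw [e1, e2, e3, e4]
  generalize ‖a + b‖ ^ 2 = X at *
  generalize ‖a - b‖ ^ 2 = Y at *
  generalize ‖a‖ ^ 2 = p at *
  generalize ‖b‖ ^ 2 = q at *
  have h2 : 0 ≤ X * Y * (X + Y) := by positivity
  have h3 : 0 ≤ (p + q) * (p - q) ^ 2 := by positivity
  have h4 : (X + Y) ^ 3 = (2 * (p + q)) ^ 3 := by rw [h1]
  nlinarith

/-- convexity of `|a|⁶` -/
theorem convex6 (a b : E) : ‖a‖ ^ 6 + 6 * (‖a‖ ^ 4 * ⟪a, b⟫) ≤ ‖a + b‖ ^ 6 := by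
  have h1 := norm_add_sq_real a b
  have hA : 0 ≤ ‖a‖ ^ 2 := by positivity
  have hB : 0 ≤ ‖b‖ ^ 2 := by positivity
  have hT : 0 ≤ ‖a + b‖ ^ 2 := by positivity
  have e1 : ‖a + b‖ ^ 6 = (‖a + b‖ ^ 2) ^ 3 := by ring
  have e2 : ‖a‖ ^ 6 = (‖a‖ ^ 2) ^ 3 := by ring
  have e3 : ‖a‖ ^ 4 = (‖a‖ ^ 2) ^ 2 := by ring
  rw [e1, e2, e3]
  generalize ‖a + b‖ ^ 2 = t at *
  generalize ‖a‖ ^ 2 = A at *
  generalize ‖b‖ ^ 2 = D at *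
  have h2 : 0 ≤ (t - A) ^ 2 * (t + 2 * A) := by positivity
  have h3 : 0 ≤ A ^ 2 * D := by positivity
  have h4 : A ^ 2 * (t - A) = A ^ 2 * (2 * ⟪a, b⟫ + D) := by rw [h1]; ring
  nlinarith

private theorem Pt_poly {x y : ℝ} (hx : 0 ≤ x) (hy : 0 ≤ y) :
    3 * x ^ 4 * y ^ 2 + 3 * x ^ 2 * (2 * x * y + y ^ 2) ^ 2 + (2 * x * y + y ^ 2) ^ 3
      ≤ 57 * (x ^ 6 + y ^ 6) := by
  rcases le_total x y with h | h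
  · calc 3 * x ^ 4 * y ^ 2 + 3 * x ^ 2 * (2 * x * y + y ^ 2) ^ 2 + (2 * x * y + y ^ 2) ^ 3
        ≤ 3 * y ^ 4 * y ^ 2 + 3 * y ^ 2 * (2 * y * y + y ^ 2) ^ 2 + (2 * y * y + y ^ 2) ^ 3 := by
          gcongr
      _ = 57 * y ^ 6 := by ring
      _ ≤ _ := by
          have : 0 ≤ x ^ 6 := by positivity
          linarith
  · calc 3 * x ^ 4 * y ^ 2 + 3 * x ^ 2 * (2 * x * y + y ^ 2) ^ 2 + (2 * x * y + y ^ 2) ^ 3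
        ≤ 3 * x ^ 4 * x ^ 2 + 3 * x ^ 2 * (2 * x * x + x ^ 2) ^ 2 + (2 * x * x + x ^ 2) ^ 3 := by
          gcongr
      _ = 57 * x ^ 6 := by ring
      _ ≤ _ := by
          have : 0 ≤ y ^ 6 := by positivity
          linarith

/-- second order upper bound -/
theorem quad6 (a b : E) {s : ℝ} (hs : |s| ≤ 1) :
    ‖a + s • b‖ ^ 6 ≤ ‖a‖ ^ 6 + 6 * s * (‖a‖ ^ 4 * ⟪a, b⟫) + s ^ 2 * (57 * (‖a‖ ^ 6 + ‖b‖ ^ 6)) := by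
  have h1 : ‖a + s • b‖ ^ 2 = ‖a‖ ^ 2 + (2 * s * ⟪a, b⟫ + s ^ 2 * ‖b‖ ^ 2) := by
    rw [norm_add_sq_real, real_inner_smul_right, norm_smul, mul_pow, Real.norm_eq_abs, sq_abs]
    ring
  have hβ : |⟪a, b⟫| ≤ ‖a‖ * ‖b‖ := abs_real_inner_le_norm a b
  have hx : 0 ≤ ‖a‖ := norm_nonneg a
  have hy : 0 ≤ ‖b‖ := norm_nonneg b
  have e1 : ‖a + s • b‖ ^ 6 = (‖a + s • b‖ ^ 2) ^ 3 := by ring
  rw [e1, h1]
  generalize ⟪a, b⟫ = β at *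
  generalize ‖a‖ = x at *
  generalize ‖b‖ = y at *
  obtain ⟨h, hh⟩ : ∃ h, h = 2 * s * β + s ^ 2 * y ^ 2 := ⟨_, rfl⟩
  rw [← hh]
  have hs0 : 0 ≤ |s| := abs_nonneg s
  have hs2 : s ^ 2 = |s| ^ 2 := (sq_abs s).symm
  have hK : 0 ≤ 2 * x * y + y ^ 2 := by positivity
  have habs : |h| ≤ |s| * (2 * x * y + y ^ 2) := by
    rw [hh]
    calc |2 * s * β + s ^ 2 * y ^ 2| ≤ |2 * s * β| + |s ^ 2 * y ^ 2| := abs_add_le _ _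
      _ = |s| * (2 * |β|) + |s| * (|s| * y ^ 2) := by
          rw [abs_mul, abs_mul, abs_mul, abs_two, abs_pow, abs_of_nonneg (by positivity : 0 ≤ y ^ 2)]
          ring
      _ ≤ |s| * (2 * (x * y)) + |s| * (1 * y ^ 2) := by gcongr
      _ = |s| * (2 * x * y + y ^ 2) := by ring
  have hh2 : h ^ 2 ≤ s ^ 2 * (2 * x * y + y ^ 2) ^ 2 := by
    rw [← sq_abs h, hs2, ← mul_pow]
    gcongr
  have hh3 : h ^ 3 ≤ s ^ 2 * (2 * x * y + y ^ 2) ^ 3 := by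
    calc h ^ 3 ≤ |h| ^ 3 := by
          rw [← abs_pow]
          exact le_abs_self _
      _ ≤ (|s| * (2 * x * y + y ^ 2)) ^ 3 := by gcongr
      _ = |s| ^ 2 * |s| * (2 * x * y + y ^ 2) ^ 3 := by ring
      _ ≤ |s| ^ 2 * 1 * (2 * x * y + y ^ 2) ^ 3 := by gcongr
      _ = s ^ 2 * (2 * x * y + y ^ 2) ^ 3 := by rw [hs2]; ring
  have hq := mul_le_mul_of_nonneg_left (Pt_poly hx hy) (sq_nonneg s)
  have hx2 : 0 ≤ x ^ 2 := by positivity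
  have h5 := mul_le_mul_of_nonneg_left hh2 (by positivity : 0 ≤ 3 * x ^ 2)
  have e5 : (x ^ 2 + h) ^ 3 = x ^ 6 + 3 * x ^ 4 * h + 3 * x ^ 2 * h ^ 2 + h ^ 3 := by ring
  have e6 : 3 * x ^ 4 * h = 6 * s * (x ^ 4 * β) + s ^ 2 * (3 * x ^ 4 * y ^ 2) := by rw [hh]; ring
  rw [e5, e6]
  linarith

end Pool.CQ
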