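import Pool.Agent.Lib.MP_cd5b91_an.CQ.Cut
import Pool.Agent.Lib.MP_cd5b91_an.CQ.VMoll
import Pool.Agent.Lib.MP_cd5b91_an.CQ.CurlMoll

/-!
# CQ-Pair
-/

open MeasureTheory Filter Topology Set
open scoped ContDiff RealInnerProductSpace ENNReal

namespace Pool.CQ

/-- Convergence in `L^q` gives convergence of the pairings with a field in `L^p`. -/
private theorem tendsto_pair {p q : ℝ≥0∞} [ENNReal.HolderTriple p q 1] {f : E → E} {g : ℕ → E → E}
    {g₀ : E → E} (hf : MemLp f p volume) (hg : ∀ n, MemLp (g n) q volume) (hg₀ : MemLp g₀ q volume)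
    (hi : ∀ h : E → E, MemLp h q volume → Integrable (fun x => ⟪f x, h x⟫) volume)
    (ht : Tendsto (fun n => eLpNorm (fun x => g n x - g₀ x) q volume) atTop (𝓝 0)) :
    Tendsto (fun n => ∫ x, ⟪f x, g n x⟫) atTop (𝓝 (∫ x, ⟪f x, g₀ x⟫)) := by
  refine tendsto_integral_of_L1 _ (hi g₀ hg₀).1 (Eventually.of_forall fun n => hi (g n) (hg n)) ?_
  have hb : ∀ n, ∫⁻ x, ‖⟪f x, g n x⟫ - ⟪f x, g₀ x⟫‖ₑ ≤
      eLpNorm f p volume * eLpNorm (fun x => g n x - g₀ x) q volume := by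
    intro n
    have h1 := eLpNorm_le_eLpNorm_mul_eLpNorm_of_nnnorm (p := p) (q := q) (r := 1) hf.1
      (((hg n).sub hg₀).1) (fun a b : E => (⟪a, b⟫ : ℝ)) 1
      (Eventually.of_forall fun x => by
        rw [one_mul]
        exact nnnorm_inner_le_nnnorm (𝕜 := ℝ) (f x) ((g n - g₀) x))
    rw [eLpNorm_one_eq_lintegral_enorm, ENNReal.coe_one, one_mul] at h1
    refine le_trans (le_of_eq (lintegral_congr fun x => ?_)) h1
    rw [← inner_sub_right]
    rfl
  have hz : Tendsto (fun n => eLpNorm f p volume * eLpNorm (fun x => g n x - g₀ x) q volume)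
      atTop (𝓝 0) := by
    have := ENNReal.Tendsto.const_mul (a := eLpNorm f p volume) ht (Or.inr hf.2.ne)
    rwa [mul_zero] at this
  exact tendsto_of_tendsto_of_tendsto_of_le_of_le tendsto_const_nhds hz (fun _ => zero_le) hb

private theorem holder_triple : ENNReal.HolderTriple (6 / 5) 6 1 := by
  constructor
  rw [inv_one, ENNReal.inv_div (Or.inl (by norm_num)) (Or.inl (by norm_num)), ← one_div,
    ENNReal.div_add_div_same, show (5 : ℝ≥0∞) + 1 = 6 by norm_num]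
  exact ENNReal.div_self (by norm_num) (by norm_num)

theorem pairing {B' V' v C : E → E} (hB : MemLp B' 2 volume) (hV : MemLp V' (6 / 5) volume)
    (h : WC univ B' V') (hv : W6 v C) : ∫ x, ⟪B' x, C x⟫ = ∫ x, ⟪V' x, v x⟫ := by
  obtain ⟨hv6, hC2, hw⟩ := hv
  have h6 : (1 : ℝ≥0∞) ≤ 6 := by norm_num
  have h2 : (1 : ℝ≥0∞) ≤ 2 := by norm_num
  have h6t : (6 : ℝ≥0∞) ≠ ⊤ := by norm_num
  have h2t : (2 : ℝ≥0∞) ≠ ⊤ := by norm_num
  have hvl : LocallyIntegrable v volume := hv6.locallyIntegrable h6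
  have hCl : LocallyIntegrable C volume := hC2.locallyIntegrable h2
  have hcurl : ∀ n, curl (vmol n v) = vmol n C := fun n => funext fun x => curl_vmol hvl hCl hw n x
  have hv6n := vmol_memLp h6 h6t hv6
  have hC2n := vmol_memLp h2 h2t hC2
  have heq : ∀ n, ∫ x, ⟪B' x, vmol n C x⟫ = ∫ x, ⟪V' x, vmol n v x⟫ := by
    intro n
    have := cut_pair hB hV h (contDiff_vmol hvl n) (hv6n n) (by rw [hcurl n]; exact hC2n n)
    rwa [hcurl n] at this
  have hl1 : Tendsto (fun n => ∫ x, ⟪B' x, vmol n C x⟫) atTop (𝓝 (∫ x, ⟪B' x, C x⟫)) :=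
    tendsto_pair hB hC2n hC2 (fun k hk => integrable22 hB hk) (vmol_tendsto h2 h2t hC2)
  have := holder_triple
  have hl2 : Tendsto (fun n => ∫ x, ⟪V' x, vmol n v x⟫) atTop (𝓝 (∫ x, ⟪V' x, v x⟫)) :=
    tendsto_pair hV hv6n hv6 (fun k hk => integrable65 hV hk) (vmol_tendsto h6 h6t hv6)
  refine tendsto_nhds_unique hl1 ?_
  simp only [heq]
  exact hl2

end Pool.CQ
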