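import Pool.Agent.Lib.MP_cd5b91_an.CQ.NehMin
import Pool.Agent.Lib.MP_cd5b91_an.CQ.NehLim
import Pool.Agent.Lib.MP_cd5b91_an.CQ.NehEul
import Pool.Agent.Lib.MP_cd5b91_an.CQ.Pair

/-!
# CQ-Nehari: minimisers of `J` on `N` are ground states and give equality in the curl-Sobolev inequality
-/

open MeasureTheory Filter Topology Set
open scoped ContDiff RealInnerProductSpace ENNReal

namespace Pool.CQ

private theorem sq_nonneg_int (B : E → E) : 0 ≤ ∫ x, ‖B x‖ ^ 2 :=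
  integral_nonneg fun x => by positivity

private theorem six_nonneg_int (u : E → E) : 0 ≤ ∫ x, ‖u x‖ ^ 6 :=
  integral_nonneg fun x => by positivity

private theorem ae_zero_two {B : E → E} (hB : MemLp B 2 volume) (h : ∫ x, ‖B x‖ ^ 2 = 0) :
    B =ᵐ[volume] fun _ => 0 := by
  have h2 := (integral_eq_zero_iff_of_nonneg (fun x => by positivity) (int2 hB)).1 h
  filter_upwards [h2] with x hx
  have h3 : ‖B x‖ ^ 2 = 0 := hx
  exact norm_eq_zero.1 (pow_eq_zero_iff (by norm_num) |>.1 h3)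

private theorem ae_zero_six {u : E → E} (hu : MemLp u 6 volume) (h : ∫ x, ‖u x‖ ^ 6 = 0) :
    u =ᵐ[volume] fun _ => 0 := by
  have h2 := (integral_eq_zero_iff_of_nonneg (fun x => by positivity) (int6 hu)).1 h
  filter_upwards [h2] with x hx
  have h3 : ‖u x‖ ^ 6 = 0 := hx
  exact norm_eq_zero.1 (pow_eq_zero_iff (by norm_num) |>.1 h3)

private theorem zero_two {B : E → E} (h : B =ᵐ[volume] fun _ => 0) : ∫ x, ‖B x‖ ^ 2 = 0 := by
  have h1 : ∫ x, ‖B x‖ ^ 2 = ∫ _ : E, (0 : ℝ) := integral_congr_ae (by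
    filter_upwards [h] with x hx
    rw [hx]
    simp)
  rw [h1, integral_zero]

private theorem zero_six {u : E → E} (h : u =ᵐ[volume] fun _ => 0) : ∫ x, ‖u x‖ ^ 6 = 0 := by
  have h1 : ∫ x, ‖u x‖ ^ 6 = ∫ _ : E, (0 : ℝ) := integral_congr_ae (by
    filter_upwards [h] with x hx
    rw [hx]
    simp)
  rw [h1, integral_zero]

private theorem w6_congr {v C C' : E → E} (h : W6 v C) (hC : C =ᵐ[volume] C') : W6 v C' := by
  refine ⟨h.1, h.2.1.ae_eq hC, fun φ hφ => ?_⟩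
  rw [h.2.2 φ hφ]
  refine integral_congr_ae ?_
  filter_upwards [hC] with x hx
  rw [hx]

private theorem J_eq {u B : E → E} (h : ∫ x, ‖B x‖ ^ 2 = ∫ x, ‖u x‖ ^ 6) :
    J u B = (∫ x, ‖u x‖ ^ 6) / 3 := by
  unfold J
  rw [h]
  ring

private theorem E_pos {u B : E → E} (h : InN u B) : 0 < ∫ x, ‖u x‖ ^ 6 := by
  rw [← h.2.2.1]
  exact lt_of_le_of_ne (sq_nonneg_int B) fun h1 => h.2.1 (ae_zero_two h.1.2.1 h1.symm)

private theorem key {u B : E → E} (hu : InN u B) (hmin : ∀ v C : E → E, InN v C → J u B ≤ J v C)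
    {v C : E → E} (hv : W6 v C) (hc : 0 < ∫ x, ‖C x‖ ^ 2) :
    ∃ w : E → E, GLim w ∧
      (∫ x, ‖u x‖ ^ 6) ^ 2 * (∫ x, ‖v x + w x‖ ^ 6) ≤ (∫ x, ‖C x‖ ^ 2) ^ 3 := by
  obtain ⟨w, hw, hmw⟩ := exists_glim hv.1
  refine ⟨w, hw, ?_⟩
  have hI0 : 0 ≤ ∫ x, ‖v x + w x‖ ^ 6 := six_nonneg_int fun x => v x + w x
  have hE0 : 0 ≤ ∫ x, ‖u x‖ ^ 6 := six_nonneg_int u
  have hdiv : ∀ η : E → ℝ, STest univ η →
      ∫ x, ⟪‖v x + w x‖ ^ 4 • (v x + w x), gr η x⟫ = 0 := fun η hη =>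
    euler (V := fun x => v x + w x) (hv.1.add hw.1) (w6_gr hη).1 (fun s => hmw η hη s)
  have hw6 : ∀ t : ℝ, W6 (fun x => t • (v x + w x)) (fun x => t • C x) := by
    intro t
    have h1 := w6_lin (w6_lin hv (w6_glim hw) 1 1) hv t 0
    simpa using h1
  generalize hI : ∫ x, ‖v x + w x‖ ^ 6 = I at *
  generalize hcd : ∫ x, ‖C x‖ ^ 2 = c at *
  rcases hI0.eq_or_lt with h0 | h0
  · rw [← h0, mul_zero]
    positivity
  obtain ⟨t, ht, ht4⟩ : ∃ t : ℝ, 0 < t ∧ t ^ 4 = c / I := by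
    refine ⟨(c / I) ^ (1 / 4 : ℝ), Real.rpow_pos_of_pos (div_pos hc h0) _, ?_⟩
    rw [← Real.rpow_natCast, ← Real.rpow_mul (div_pos hc h0).le]
    norm_num
  have hB2 : ∫ x, ‖t • C x‖ ^ 2 = t ^ 2 * c := by
    simp only [norm_smul, mul_pow, integral_const_mul]
    rw [Real.norm_of_nonneg ht.le, hcd]
  have hV6 : ∫ x, ‖t • (v x + w x)‖ ^ 6 = t ^ 6 * I := by
    simp only [norm_smul, mul_pow, integral_const_mul]
    rw [Real.norm_of_nonneg ht.le, hI]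
  have ht6 : t ^ 6 * I = t ^ 2 * c := by
    have h1 : t ^ 6 * I = t ^ 2 * (t ^ 4 * I) := by ring
    rw [h1, ht4, div_mul_cancel₀ _ h0.ne']
  have hN : InN (fun x => t • (v x + w x)) (fun x => t • C x) := by
    refine ⟨hw6 t, ?_, ?_, ?_⟩
    · intro h
      have h1 := zero_two h
      rw [hB2] at h1
      have h2 : 0 < t ^ 2 * c := by positivity
      exact h2.ne' h1
    · rw [hB2, hV6, ht6]
    · intro η hη
      have e : ∀ x, ⟪‖t • (v x + w x)‖ ^ 4 • (t • (v x + w x)), gr η x⟫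
          = t ^ 5 * ⟪‖v x + w x‖ ^ 4 • (v x + w x), gr η x⟫ := by
        intro x
        rw [norm_smul, Real.norm_of_nonneg ht.le, mul_pow]
        simp only [real_inner_smul_left]
        ring
      simp only [e, integral_const_mul, hdiv η hη, mul_zero]
  have hJ := hmin _ _ hN
  rw [J_eq hu.2.2.1, J_eq hN.2.2.1, hV6, ht6] at hJ
  have hE : ∫ x, ‖u x‖ ^ 6 ≤ t ^ 2 * c := by linarith
  calc (∫ x, ‖u x‖ ^ 6) ^ 2 * I ≤ (t ^ 2 * c) ^ 2 * I := by gcongr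
    _ = c ^ 2 * (t ^ 4 * I) := by ring
    _ = c ^ 3 := by
        rw [ht4, div_mul_cancel₀ _ h0.ne']
        ring

private theorem sob_of {u B : E → E} (hu : InN u B)
    (hmin : ∀ v C : E → E, InN v C → J u B ≤ J v C) :
    CurlSob ((∫ x, ‖u x‖ ^ 6) ^ (2 / 3 : ℝ)) := by
  intro v C hv
  have hE : 0 < ∫ x, ‖u x‖ ^ 6 := E_pos hu
  have hbdd : BddBelow (Set.range fun w : {w : E → E // W6 w (fun _ => 0)} =>
      ∫ x, ‖v x + w.1 x‖ ^ 6) := by
    refine ⟨0, ?_⟩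
    rintro _ ⟨w, rfl⟩
    exact six_nonneg_int fun x => v x + w.1 x
  have hm0 : 0 ≤ ⨅ w : {w : E → E // W6 w (fun _ => 0)}, ∫ x, ‖v x + w.1 x‖ ^ 6 :=
    Real.iInf_nonneg fun w => six_nonneg_int fun x => v x + w.1 x
  have hc0 : 0 ≤ ∫ x, ‖C x‖ ^ 2 := sq_nonneg_int C
  rcases hc0.eq_or_lt with h0 | h0
  · have hC := ae_zero_two hv.2.1 h0.symm
    have hv0 : W6 (fun x => -v x) (fun _ => 0) := by
      have h1 := w6_lin hv hv (-1) 0
      simp only [neg_smul, one_smul, zero_smul, add_zero] at h1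
      refine w6_congr h1 ?_
      filter_upwards [hC] with x hx
      rw [hx, neg_zero]
    have h1 : (⨅ w : {w : E → E // W6 w (fun _ => 0)}, ∫ x, ‖v x + w.1 x‖ ^ 6) ≤ 0 := by
      refine (ciInf_le hbdd ⟨_, hv0⟩).trans (le_of_eq ?_)
      simp
    rw [le_antisymm h1 hm0, Real.zero_rpow (by norm_num), mul_zero]
    exact hc0
  · obtain ⟨w, hw, hk⟩ := key hu hmin hv h0
    have hmI : (⨅ w : {w : E → E // W6 w (fun _ => 0)}, ∫ x, ‖v x + w.1 x‖ ^ 6)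
        ≤ ∫ x, ‖v x + w x‖ ^ 6 := ciInf_le hbdd ⟨w, w6_glim hw⟩
    generalize (⨅ w : {w : E → E // W6 w (fun _ => 0)}, ∫ x, ‖v x + w.1 x‖ ^ 6) = m at *
    generalize ∫ x, ‖C x‖ ^ 2 = c at *
    generalize ∫ x, ‖u x‖ ^ 6 = En at *
    have h1 : En ^ 2 * m ≤ c ^ 3 := (mul_le_mul_of_nonneg_left hmI (by positivity)).trans hk
    calc En ^ (2 / 3 : ℝ) * m ^ (1 / 3 : ℝ) = (En ^ 2 * m) ^ (1 / 3 : ℝ) := by
          rw [Real.mul_rpow (by positivity) hm0, ← Real.rpow_natCast, ← Real.rpow_mul hE.le]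
          norm_num
      _ ≤ (c ^ 3) ^ (1 / 3 : ℝ) := Real.rpow_le_rpow (by positivity) h1 (by norm_num)
      _ = c := by
          rw [← Real.rpow_natCast, ← Real.rpow_mul hc0]
          norm_num

private theorem deriv_trick {En β κ γ : ℝ} (hE : 0 < En)
    (h : ∀ s : ℝ, 0 < En + 2 * s * β + s ^ 2 * γ →
      En ^ 2 * (En + 6 * s * κ) ≤ (En + 2 * s * β + s ^ 2 * γ) ^ 3) : β = κ := by
  have hd0 : HasDerivAt (fun s : ℝ => En + 2 * s * β + s ^ 2 * γ) (2 * β) 0 := by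
    have h1 : HasDerivAt (fun s : ℝ => 2 * s * β) (2 * 1 * β) 0 :=
      ((hasDerivAt_id (0 : ℝ)).const_mul 2).mul_const β
    have h2 : HasDerivAt (fun s : ℝ => s ^ 2 * γ) ((2 : ℕ) * (0 : ℝ) ^ (2 - 1) * 1 * γ) 0 :=
      ((hasDerivAt_id (0 : ℝ)).pow 2).mul_const γ
    have h3 := (h1.const_add En).add h2
    exact h3.congr_deriv (by norm_num)
  have hd1 : HasDerivAt (fun s : ℝ => (En + 2 * s * β + s ^ 2 * γ) ^ 3 - En ^ 2 * (En + 6 * s * κ))
      (6 * En ^ 2 * (β - κ)) 0 := by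
    have h1 := hd0.pow 3
    have h2 : HasDerivAt (fun s : ℝ => 6 * s * κ) (6 * 1 * κ) 0 :=
      ((hasDerivAt_id (0 : ℝ)).const_mul 6).mul_const κ
    have h3 := (h2.const_add En).const_mul (En ^ 2)
    have h4 := h1.sub h3
    refine h4.congr_deriv ?_
    have e : En + 2 * 0 * β + 0 ^ 2 * γ = En := by ring
    rw [e]
    push_cast
    ring
  have hloc : IsLocalMin (fun s : ℝ => (En + 2 * s * β + s ^ 2 * γ) ^ 3 - En ^ 2 * (En + 6 * s * κ)) 0 := by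
    have hpos : ∀ᶠ s in 𝓝 (0 : ℝ), 0 < En + 2 * s * β + s ^ 2 * γ := by
      have h1 := hd0.continuousAt.tendsto
      refine h1.eventually (lt_mem_nhds ?_)
      have e : En + 2 * 0 * β + 0 ^ 2 * γ = En := by ring
      rw [e]
      exact hE
    filter_upwards [hpos] with s hs
    have h1 := h s hs
    have e : (En + 2 * 0 * β + 0 ^ 2 * γ) ^ 3 - En ^ 2 * (En + 6 * 0 * κ) = 0 := by ring
    rw [e]
    linarith
  have h5 := hloc.hasDerivAt_eq_zero hd1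
  have h6 : 6 * En ^ 2 ≠ 0 := by positivity
  have h7 := (mul_eq_zero.1 h5).resolve_left h6
  linarith

private theorem weak_of {u B : E → E} (hu : InN u B)
    (hmin : ∀ v C : E → E, InN v C → J u B ≤ J v C) : WC univ B (fun x => ‖u x‖ ^ 4 • u x) := by
  intro φ hφ
  have hw := w6_test hφ
  have hq := memLp_quint hu.1.1 hu.1.1
  refine deriv_trick (γ := ∫ x, ‖curl φ x‖ ^ 2) (E_pos hu) fun s hs => ?_
  have hv : W6 (fun x => u x + s • φ x) (fun x => B x + s • curl φ x) := by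
    simpa using w6_lin hu.1 hw 1 s
  have hc : ∫ x, ‖B x + s • curl φ x‖ ^ 2
      = (∫ x, ‖u x‖ ^ 6) + 2 * s * (∫ x, ⟪B x, curl φ x⟫) + s ^ 2 * ∫ x, ‖curl φ x‖ ^ 2 := by
    have e : ∀ x, ‖B x + s • curl φ x‖ ^ 2
        = ‖B x‖ ^ 2 + 2 * s * ⟪B x, curl φ x⟫ + s ^ 2 * ‖curl φ x‖ ^ 2 := by
      intro x
      rw [norm_add_sq_real, real_inner_smul_right, norm_smul, mul_pow, Real.norm_eq_abs, sq_abs]
      ring
    have i1 : Integrable (fun x => 2 * s * ⟪B x, curl φ x⟫) volume :=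
      (integrable22 hu.1.2.1 hw.2.1).const_mul _
    have i2 : Integrable (fun x => s ^ 2 * ‖curl φ x‖ ^ 2) volume := (int2 hw.2.1).const_mul _
    have i0 : Integrable (fun x => ‖B x‖ ^ 2 + 2 * s * ⟪B x, curl φ x⟫) volume :=
      (int2 hu.1.2.1).add i1
    simp only [e]
    rw [integral_add i0 i2, integral_add (int2 hu.1.2.1) i1, integral_const_mul,
      integral_const_mul, hu.2.2.1]
  rw [← hc] at hs ⊢
  obtain ⟨w, hwl, hk⟩ := key hu hmin hv hs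
  have hκ0 : ∫ x, ⟪‖u x‖ ^ 4 • u x, w x⟫ = 0 := glim_orth hwl hq hu.2.2.2
  have i1 : Integrable (fun x => s * ⟪‖u x‖ ^ 4 • u x, φ x⟫) volume :=
    (integrable65 hq hw.1).const_mul _
  have i2 : Integrable (fun x => ⟪‖u x‖ ^ 4 • u x, w x⟫) volume := integrable65 hq hwl.1
  have hlow : (∫ x, ‖u x‖ ^ 6) + 6 * s * (∫ x, ⟪‖u x‖ ^ 4 • u x, φ x⟫)
      ≤ ∫ x, ‖u x + s • φ x + w x‖ ^ 6 := by
    have hp : ∀ x, ‖u x‖ ^ 6 + 6 * (s * ⟪‖u x‖ ^ 4 • u x, φ x⟫ + ⟪‖u x‖ ^ 4 • u x, w x⟫)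
        ≤ ‖u x + s • φ x + w x‖ ^ 6 := by
      intro x
      have h1 := convex6 (u x) (s • φ x + w x)
      rw [← add_assoc, inner_add_right, real_inner_smul_right] at h1
      simp only [real_inner_smul_left]
      linarith
    have h6 : MemLp (fun x => u x + s • φ x + w x) 6 volume := hv.1.add hwl.1
    have i3 : Integrable (fun x => 6 * (s * ⟪‖u x‖ ^ 4 • u x, φ x⟫ + ⟪‖u x‖ ^ 4 • u x, w x⟫))
        volume := (i1.add i2).const_mul 6
    calc (∫ x, ‖u x‖ ^ 6) + 6 * s * (∫ x, ⟪‖u x‖ ^ 4 • u x, φ x⟫)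
        = ∫ x, (‖u x‖ ^ 6 + 6 * (s * ⟪‖u x‖ ^ 4 • u x, φ x⟫ + ⟪‖u x‖ ^ 4 • u x, w x⟫)) := by
          rw [integral_add (int6 hu.1.1) i3, integral_const_mul,
            integral_add i1 i2, integral_const_mul, hκ0]
          ring
      _ ≤ _ := integral_mono ((int6 hu.1.1).add i3) (int6 h6) hp
  exact (mul_le_mul_of_nonneg_left hlow (by positivity)).trans hk

private theorem mem_of_weak {v C : E → E} (h : WeakSol v C) (hne : ¬ (v =ᵐ[volume] fun _ => 0)) :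
    InN v C := by
  have h1 := pairing h.1.2.1 (memLp_quint h.1.1 h.1.1) h.2 h.1
  have e1 : ∀ x, ⟪C x, C x⟫ = ‖C x‖ ^ 2 := fun x => real_inner_self_eq_norm_sq _
  have e2 : ∀ x, ⟪‖v x‖ ^ 4 • v x, v x⟫ = ‖v x‖ ^ 6 := fun x => by
    rw [real_inner_smul_left, real_inner_self_eq_norm_sq]
    ring
  have heq : ∫ x, ‖C x‖ ^ 2 = ∫ x, ‖v x‖ ^ 6 := by simpa only [e1, e2] using h1
  refine ⟨h.1, fun h0 => hne (ae_zero_six h.1.1 ?_), heq, fun η hη => ?_⟩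
  · rw [← heq, zero_two h0]
  · rw [← h.2 (gr η) (test_gr hη)]
    simp only [curl_gr hη.1, inner_zero_right, integral_zero]

/-- Nontrivial weak solutions belong to `𝒩`. -/
theorem inN_of_weak {v C : E → E} (h : WeakSol v C) (hne : ¬ (v =ᵐ[volume] fun _ => 0)) :
    InN v C := mem_of_weak h hne

/-- Minimisers of `J` on `𝒩` are nontrivial weak solutions of least energy, and the curl-Sobolev
inequality holds with the constant of the exponent two thirds of `∫ |u|⁶`. -/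
theorem gs_of_min {u B : E → E} (h : MinN u B) : GS u B :=
  ⟨⟨h.1.1, weak_of h.1 h.2⟩, fun h0 => (E_pos h.1).ne' (zero_six h0),
    fun v C hv hne => h.2 v C (mem_of_weak hv hne), sob_of h.1 h.2⟩

end Pool.CQ
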