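import Pool.Agent.Lib.MP_cd5b91_an.CQ.Pot
import Pool.Agent.Lib.MP_cd5b91_an.CQ.Trunc
import Pool.Agent.Lib.MP_cd5b91_an.CQ.VMoll
import Pool.Agent.Lib.MP_cd5b91_an.CQ.CurlMoll
import Pool.Agent.Lib.MP_cd5b91_an.CQ.LpFacts

/-!
# CQ-Orth
-/

open MeasureTheory Filter Topology Set
open scoped ContDiff RealInnerProductSpace ENNReal

namespace Pool.CQ

private theorem Orth_int {w V : E → E} (hw : MemLp w 6 volume) (hV : MemLp V (6 / 5) volume) :
    Integrable (fun x => ⟪w x, V x⟫) volume := by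
  have h := integrable65 hV hw
  refine h.congr (ae_of_all _ fun x => ?_)
  exact real_inner_comm _ _

private theorem Orth_one : (1 : ℝ≥0∞) ≤ 6 / 5 := by
  rw [ENNReal.le_div_iff_mul_le (by norm_num) (by norm_num)]
  norm_num

private theorem Orth_top : (6 / 5 : ℝ≥0∞) ≠ ⊤ := ENNReal.div_ne_top (by norm_num) (by norm_num)

private theorem Orth_lim {w G : E → E} (hw : MemLp w 6 volume) (hG : MemLp G (6 / 5) volume)
    (h : ∀ k, ∫ x, ⟪w x, vmol k G x⟫ = 0) : ∫ x, ⟪w x, G x⟫ = 0 := by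
  have hm : ∀ k, MemLp (vmol k G) (6 / 5) volume := fun k => vmol_memLp Orth_one Orth_top hG k
  have hd : ∀ k, MemLp (fun x => vmol k G x - G x) (6 / 5) volume := fun k => (hm k).sub hG
  have ht := vmol_tendsto Orth_one Orth_top hG
  obtain ⟨c, hc⟩ : ∃ c, c = (∫ x, ‖w x‖ ^ 6) ^ (1 / 6 : ℝ) := ⟨_, rfl⟩
  have key : ∀ k, |∫ x, ⟪w x, G x⟫| ≤ (eLpNorm (fun x => vmol k G x - G x) (6 / 5) volume).toReal * c := by
    intro k
    have h1 := holder65 (hd k) hw
    have h2 : ∫ x, ⟪vmol k G x - G x, w x⟫ = -∫ x, ⟪w x, G x⟫ := by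
      have e : (fun x => ⟪vmol k G x - G x, w x⟫) = fun x => ⟪w x, vmol k G x⟫ - ⟪w x, G x⟫ := by
        funext x
        rw [inner_sub_left, real_inner_comm (vmol k G x) (w x), real_inner_comm (G x) (w x)]
      rw [e, integral_sub (Orth_int hw (hm k)) (Orth_int hw hG), h k, zero_sub]
    rw [h2, abs_neg, ← hc] at h1
    have h3 : (eLpNorm (fun x => vmol k G x - G x) (6 / 5) volume).toReal =
        (∫ x, ‖vmol k G x - G x‖ ^ (6 / 5 : ℝ)) ^ (5 / 6 : ℝ) := by
      have h4 : (6 / 5 : ℝ≥0∞).toReal = 6 / 5 := by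
        rw [ENNReal.toReal_div]
        norm_num
      have h5 : (6 / 5 : ℝ)⁻¹ = 5 / 6 := by norm_num
      rw [(hd k).eLpNorm_eq_integral_rpow_norm (by norm_num) Orth_top, h4, h5]
      refine ENNReal.toReal_ofReal (Real.rpow_nonneg (integral_nonneg fun x => ?_) _)
      exact Real.rpow_nonneg (norm_nonneg _) _
    rw [h3]
    exact h1
  have hlim : Tendsto (fun k => (eLpNorm (fun x => vmol k G x - G x) (6 / 5) volume).toReal * c) atTop (𝓝 0) := by
    have h5 := ((ENNReal.tendsto_toReal ENNReal.zero_ne_top).comp ht).mul_const c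
    simpa using h5
  exact abs_nonpos_iff.1 (ge_of_tendsto' hlim key)

private theorem Orth_cpt {v : E → E} {R : ℝ} (hR : ∀ x, v x ≠ 0 → ‖x‖ ≤ R) (k : ℕ) : HasCompactSupport (vmol k v) := by
  have h1 : ∀ i : Fin 3, HasCompactSupport fun y => v y i := by
    intro i
    refine HasCompactSupport.intro (isCompact_closedBall (0 : E) R) fun x hx => ?_
    by_contra h0
    refine hx (mem_closedBall_zero_iff.2 (hR x fun h2 => h0 ?_))
    rw [h2]
    rfl
  have h2 : ∀ i : Fin 3, HasCompactSupport (mol k fun y => v y i) := fun i => mol_compact (h1 i) k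
  refine HasCompactSupport.intro (((h2 0).isCompact.union (h2 1).isCompact).union (h2 2).isCompact) fun x hx => ?_
  rw [mem_union, mem_union, not_or, not_or] at hx
  obtain ⟨⟨h3, h4⟩, h5⟩ := hx
  unfold vmol
  rw [image_eq_zero_of_notMem_tsupport h3, image_eq_zero_of_notMem_tsupport h4, image_eq_zero_of_notMem_tsupport h5]
  ext i
  fin_cases i <;> rfl

/-- the truncated functions -/
private theorem Orth_trunc {w : E → E} (hw : W6 w (fun _ => 0)) {f : E → ℝ} (hf : Measurable f) (hr : RotInv f) (n : ℕ) :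
    ∫ x, ⟪w x, trunc n f x • th x⟫ = 0 := by
  obtain ⟨hw6, -, hwc⟩ := hw
  obtain ⟨v, hv, ⟨M, hM⟩, ⟨R, hR⟩, hvc⟩ := potential (trunc_meas hf n) (trunc_rotinv hr n) (M := (n : ℝ) + 1)
    (R := (n : ℝ) + 1) (δ := 1 / ((n : ℝ) + 1)) (trunc_bound f n) (by positivity) (trunc_supp f n)
  have hv1 : LocallyIntegrable v volume :=
    (memLp_one_iff_integrable.1 (memLp_bdd hv hM hR)).locallyIntegrable
  have hg1 : LocallyIntegrable (fun x => trunc n f x • th x) volume :=
    (memLp_one_iff_integrable.1 (memLp_trunc hf n)).locallyIntegrable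
  refine Orth_lim hw6 (memLp_trunc hf n) fun k => ?_
  have h1 := hwc (vmol k v) ⟨contDiff_vmol hv1 k, Orth_cpt hR k, subset_univ _⟩
  have h2 : ∀ x, curl (vmol k v) x = vmol k (fun x => trunc n f x • th x) x := curl_vmol hv1 hg1 hvc k
  simp only [h2, inner_zero_left, integral_zero] at h1
  exact h1

theorem orth {w : E → E} (hw : W6 w (fun _ => 0)) {f : E → ℝ} (hf : Measurable f) (hr : RotInv f)
    (hg : MemLp (fun x => f x • th x) (6 / 5) volume) : ∫ x, ⟪w x, f x • th x⟫ = 0 := by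
  have hi := Orth_int hw.1 hg
  have h1 : Tendsto (fun n : ℕ => ∫ x, ⟪w x, trunc n f x • th x⟫) atTop (𝓝 (∫ x, ⟪w x, f x • th x⟫)) := by
    refine tendsto_integral_of_dominated_convergence (fun x => ‖⟪w x, f x • th x⟫‖) (fun n => ?_) hi.norm (fun n => ?_) ?_
    · exact (Orth_int hw.1 (memLp_trunc hf n)).aestronglyMeasurable
    · refine ae_of_all _ fun x => ?_
      rcases trunc_or f n x with h | h
      · rw [h]
      · rw [h, zero_smul, inner_zero_right, norm_zero]
        exact norm_nonneg _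
    · filter_upwards [ae_Oax] with x hx
      exact tendsto_const_nhds.inner ((trunc_tendsto f hx).smul_const (th x))
  have h2 : (fun n : ℕ => ∫ x, ⟪w x, trunc n f x • th x⟫) = fun _ => 0 := by
    funext n
    exact Orth_trunc hw hf hr n
  rw [h2] at h1
  exact tendsto_nhds_unique h1 tendsto_const_nhds

end Pool.CQ
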