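import Pool.Agent.Lib.MP_cd5b91_an.CQ.Hom

/-!
# CQ-Pot
-/

open MeasureTheory Filter Topology Set
open scoped ContDiff RealInnerProductSpace ENNReal

namespace Pool.CQ

private theorem Pot_sc (s : ℝ) (x : E) :
    (sc s x) 0 = s * x 0 ∧ (sc s x) 1 = s * x 1 ∧ (sc s x) 2 = x 2 := by
  simp [sc]

private theorem Pot_norm (x : E) : ‖x‖ ^ 2 = rr x + x 2 ^ 2 := by
  rw [EuclideanSpace.real_norm_sq_eq, Fin.sum_univ_three]
  rfl

private theorem Pot_rr (s : ℝ) (x : E) : rr (sc s x) = s ^ 2 * rr x := by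
  obtain ⟨h0, h1, -⟩ := Pot_sc s x
  unfold rr
  rw [h0, h1]
  ring

private theorem Pot_rr_nonneg (x : E) : 0 ≤ rr x := by
  unfold rr
  positivity

private noncomputable def Pot_L (s : ℝ) : E →ₗ[ℝ] E where
  toFun := sc s
  map_add' x y := by
    ext i
    fin_cases i <;> simp [sc, mul_add]
  map_smul' c x := by
    ext i
    fin_cases i <;> simp [sc] <;> ring

private theorem Pot_det (s : ℝ) : LinearMap.det (Pot_L s) = s ^ 2 := by
  rw [← LinearMap.det_toMatrix (EuclideanSpace.basisFun (Fin 3) ℝ).toBasis]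
  have h : LinearMap.toMatrix (EuclideanSpace.basisFun (Fin 3) ℝ).toBasis
      (EuclideanSpace.basisFun (Fin 3) ℝ).toBasis (Pot_L s) = Matrix.diagonal ![s, s, 1] := by
    ext i j
    rw [LinearMap.toMatrix_apply]
    fin_cases i <;> fin_cases j <;> simp [Pot_L, sc]
  rw [h, Matrix.det_diagonal, Fin.prod_univ_three]
  simp
  ring

private theorem Pot_cont : Continuous fun p : E × ℝ => sc p.2 p.1 := by
  unfold sc
  refine (PiLp.continuous_toLp 2 _).comp (continuous_pi fun i => ?_)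
  fin_cases i <;> simp <;> fun_prop

private theorem Pot_cov {s : ℝ} (hs : 0 < s) {g : E → ℝ} (hg : Measurable g) :
    ∫ x, g x = s ^ 2 * ∫ y, g (sc s y) := by
  have h1 := MeasureTheory.Measure.map_linearMap_addHaar_eq_smul_addHaar (volume : Measure E)
    (f := Pot_L s) (by rw [Pot_det]; positivity)
  have h2 : ∫ y, g (sc s y) = ∫ x, g x ∂(Measure.map (Pot_L s) volume) := by
    rw [integral_map _ hg.aestronglyMeasurable]
    · rfl
    · exact (Pot_L s).continuous_of_finiteDimensional.measurable.aemeasurable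
  rw [h2, h1, integral_smul_measure, Pot_det, ENNReal.toReal_ofReal (abs_nonneg _),
    abs_of_pos (by positivity), smul_eq_mul, ← mul_assoc, mul_inv_cancel₀ (by positivity), one_mul]

private noncomputable def Pot_g (f : E → ℝ) (x : E) : ℝ := ∫ s in Ioc (0 : ℝ) 1, s⁻¹ * f (sc s⁻¹ x)

private theorem Pot_bd {f : E → ℝ} (hf : Measurable f) {M R δ : ℝ} (hM0 : 0 ≤ M)
    (hM : ∀ x, |f x| ≤ M) (hδ : 0 < δ) (hR : 0 ≤ R) (hs : ∀ x, f x ≠ 0 → δ ≤ rr x ∧ ‖x‖ ≤ R) (x : E) :
    Integrable (fun s : ℝ => s⁻¹ * f (sc s⁻¹ x)) (volume.restrict (Ioc (0 : ℝ) 1)) ∧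
      ∫ s in Ioc (0 : ℝ) 1, ‖s⁻¹ * f (sc s⁻¹ x)‖ ≤ M * R / Real.sqrt δ := by
  have hsδ : 0 < Real.sqrt δ := Real.sqrt_pos.2 hδ
  have hK : 0 ≤ M * R / Real.sqrt δ := by positivity
  rcases (Pot_rr_nonneg x).eq_or_lt with h0 | h0
  · have h1 : ∀ s : ℝ, s⁻¹ * f (sc s⁻¹ x) = 0 := by
      intro s
      by_contra h2
      have h3 := (hs _ (right_ne_zero_of_mul h2)).1
      rw [Pot_rr, ← h0, mul_zero] at h3
      linarith
    simp only [h1, norm_zero, integral_zero]
    exact ⟨integrable_zero _ _ _, hK⟩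
  · set ρ := Real.sqrt (rr x) with hρ
    have hρ0 : 0 < ρ := Real.sqrt_pos.2 h0
    have hρ2 : ρ ^ 2 = rr x := Real.sq_sqrt h0.le
    have hmeas : Measurable fun s : ℝ => s⁻¹ * f (sc s⁻¹ x) := by
      refine measurable_inv.mul (hf.comp ?_)
      exact Pot_cont.measurable.comp (measurable_const.prodMk measurable_inv)
    have hb : ∀ s ∈ Ioc (0 : ℝ) 1, ‖s⁻¹ * f (sc s⁻¹ x)‖ ≤
        (Ioc (0 : ℝ) (ρ / Real.sqrt δ)).indicator (fun _ => M * R / ρ) s := by
      intro s hs'
      have hs0 : 0 < s := hs'.1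
      by_cases h1 : f (sc s⁻¹ x) = 0
      · rw [h1, mul_zero, norm_zero]
        exact Set.indicator_nonneg (fun _ _ => by positivity) _
      · obtain ⟨h2, h3⟩ := hs _ h1
        rw [Pot_rr] at h2
        have h4 : (s⁻¹) ^ 2 * rr x ≤ R ^ 2 := by
          have h5 := Pot_norm (sc s⁻¹ x)
          rw [Pot_rr] at h5
          have h6 : ‖sc s⁻¹ x‖ ^ 2 ≤ R ^ 2 := by gcongr
          nlinarith [sq_nonneg (sc s⁻¹ x 2)]
        rw [← hρ2, ← mul_pow] at h2 h4
        have h5 : s⁻¹ * ρ ≤ R := by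
          have := abs_le_of_sq_le_sq h4 hR
          exact (le_abs_self _).trans this
        have h6 : Real.sqrt δ ≤ s⁻¹ * ρ := by
          rw [← Real.sqrt_sq (show 0 ≤ s⁻¹ * ρ by positivity)]
          exact Real.sqrt_le_sqrt h2
        have h7 : s ∈ Ioc (0 : ℝ) (ρ / Real.sqrt δ) := by
          refine ⟨hs0, ?_⟩
          rw [le_div_iff₀ hsδ]
          calc s * Real.sqrt δ ≤ s * (s⁻¹ * ρ) := by gcongr
            _ = ρ := by field_simp
        rw [Set.indicator_of_mem h7, norm_mul, Real.norm_eq_abs, Real.norm_eq_abs, abs_of_pos (inv_pos.2 hs0)]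
        have h8 : s⁻¹ ≤ R / ρ := by
          rw [le_div_iff₀ hρ0]
          exact h5
        calc s⁻¹ * |f (sc s⁻¹ x)| ≤ R / ρ * M := by
              gcongr
              exact hM _
          _ = M * R / ρ := by ring
    have hi : Integrable ((Ioc (0 : ℝ) (ρ / Real.sqrt δ)).indicator (fun _ => M * R / ρ))
        (volume.restrict (Ioc (0 : ℝ) 1)) := by
      apply Integrable.indicator _ measurableSet_Ioc
      exact integrable_const _
    have hint : Integrable (fun s : ℝ => s⁻¹ * f (sc s⁻¹ x)) (volume.restrict (Ioc (0 : ℝ) 1)) := by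
      refine hi.mono' hmeas.aestronglyMeasurable ?_
      exact (ae_restrict_iff' measurableSet_Ioc).2 (Eventually.of_forall hb)
    refine ⟨hint, ?_⟩
    calc ∫ s in Ioc (0 : ℝ) 1, ‖s⁻¹ * f (sc s⁻¹ x)‖
        ≤ ∫ s in Ioc (0 : ℝ) 1, (Ioc (0 : ℝ) (ρ / Real.sqrt δ)).indicator (fun _ => M * R / ρ) s :=
          setIntegral_mono_on hint.norm hi measurableSet_Ioc hb
      _ = ∫ s in Ioc (0 : ℝ) 1 ∩ Ioc (0 : ℝ) (ρ / Real.sqrt δ), M * R / ρ := by
          rw [setIntegral_indicator measurableSet_Ioc]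
      _ = (volume.real (Ioc (0 : ℝ) 1 ∩ Ioc (0 : ℝ) (ρ / Real.sqrt δ))) * (M * R / ρ) := by
          rw [setIntegral_const, smul_eq_mul]
      _ ≤ (ρ / Real.sqrt δ) * (M * R / ρ) := by
          have h1 : volume.real (Ioc (0 : ℝ) 1 ∩ Ioc (0 : ℝ) (ρ / Real.sqrt δ)) ≤ ρ / Real.sqrt δ := by
            calc volume.real (Ioc (0 : ℝ) 1 ∩ Ioc (0 : ℝ) (ρ / Real.sqrt δ))
                ≤ volume.real (Ioc (0 : ℝ) (ρ / Real.sqrt δ)) :=
                  measureReal_mono inter_subset_right (by simp)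
              _ = ρ / Real.sqrt δ := by
                  rw [Real.volume_real_Ioc_of_le (by positivity)]
                  ring
          gcongr
      _ = M * R / Real.sqrt δ := by
          field_simp

private theorem Pot_meas {f : E → ℝ} (hf : Measurable f) :
    Measurable fun p : E × ℝ => p.2⁻¹ * f (sc p.2⁻¹ p.1) := by
  refine measurable_snd.inv.mul (hf.comp ?_)
  exact Pot_cont.measurable.comp (measurable_fst.prodMk measurable_snd.inv)

private theorem Pot_gmeas {f : E → ℝ} (hf : Measurable f) : Measurable (Pot_g f) := by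
  have h := (Pot_meas hf).stronglyMeasurable.integral_prod_right' (ν := volume.restrict (Ioc (0 : ℝ) 1))
  exact h.measurable

private theorem Pot_sc_rot (s γ : ℝ) (x : E) : sc s (rot γ x) = rot γ (sc s x) := by
  ext i
  fin_cases i <;> simp [sc, rot] <;> ring

private theorem Pot_equi {f : E → ℝ} (hr : RotInv f) :
    Equi fun x => Pot_g f x • EuclideanSpace.single 2 (1 : ℝ) := by
  intro γ x
  have h1 : Pot_g f (rot γ x) = Pot_g f x := by
    unfold Pot_g
    simp only [Pot_sc_rot, hr γ _]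
  simp only [h1]
  ext i
  fin_cases i <;> simp [rot]

/-- Every bounded rotation invariant toroidal field with compact support off the axis is the curl of a bounded equivariant field
with compact support. -/
theorem potential_equi {f : E → ℝ} (hf : Measurable f) (hr : RotInv f) {M R δ : ℝ}
    (hM : ∀ x, |f x| ≤ M) (hδ : 0 < δ) (hs : ∀ x, f x ≠ 0 → δ ≤ rr x ∧ ‖x‖ ≤ R) :
    ∃ v : E → E, Measurable v ∧ (∃ M' : ℝ, ∀ x, ‖v x‖ ≤ M') ∧ (∃ R' : ℝ, ∀ x, v x ≠ 0 → ‖x‖ ≤ R') ∧
      WC univ v (fun x => f x • th x) ∧ Equi v := by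
  have hM0 : 0 ≤ M := (abs_nonneg _).trans (hM 0)
  have hs0 : ∀ x, f x ≠ 0 → δ ≤ rr x ∧ ‖x‖ ≤ |R| :=
    fun x hx => ⟨(hs x hx).1, (hs x hx).2.trans (le_abs_self R)⟩
  have hA := fun x => Pot_bd hf hM0 hM hδ (abs_nonneg R) hs0 x
  refine ⟨fun x => Pot_g f x • EuclideanSpace.single 2 (1 : ℝ), ?_, ⟨M * |R| / Real.sqrt δ, ?_⟩,
    ⟨|R|, ?_⟩, ?_, Pot_equi hr⟩
  · exact (Pot_gmeas hf).smul_const _
  · intro x
    rw [norm_smul, PiLp.norm_single, norm_one, mul_one]
    exact (norm_integral_le_integral_norm _).trans (hA x).2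
  · intro x hx
    have h1 : Pot_g f x ≠ 0 := fun h => hx (by simp [h])
    obtain ⟨s, hs1, hs2⟩ : ∃ s ∈ Ioc (0 : ℝ) 1, f (sc s⁻¹ x) ≠ 0 := by
      by_contra h2
      push Not at h2
      apply h1
      unfold Pot_g
      refine (setIntegral_congr_fun measurableSet_Ioc fun s hs => ?_).trans (integral_zero _ _)
      simp only [h2 s hs, mul_zero]
    have h3 := (hs0 _ hs2).2
    refine le_trans ?_ h3
    have h4 : ‖x‖ ^ 2 ≤ ‖sc s⁻¹ x‖ ^ 2 := by
      rw [Pot_norm, Pot_norm, Pot_rr, (Pot_sc s⁻¹ x).2.2]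
      have h5 : 1 ≤ s⁻¹ := (one_le_inv₀ hs1.1).2 hs1.2
      have h6 : 1 ≤ s⁻¹ ^ 2 := one_le_pow₀ h5
      nlinarith [Pot_rr_nonneg x]
    exact le_of_sq_le_sq h4 (norm_nonneg _)
  · intro φ hφ
    set h : E → ℝ := fun x => curl φ x 2 with hh
    obtain ⟨hφ1, hφ2, -⟩ := hφ
    have hc1 : ∀ i : Fin 3, ContDiff ℝ ∞ fun y => φ y i := fun i => by
      have := (EuclideanSpace.proj (𝕜 := ℝ) i : E →L[ℝ] ℝ).contDiff.comp hφ1 (n := ∞)
      exact this
    have hcs : ∀ i : Fin 3, HasCompactSupport fun y => φ y i := fun i =>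
      hφ2.comp_left (g := fun v : E => v i) rfl
    have hheq : h = fun x => pd 0 (fun y => φ y 1) x - pd 1 (fun y => φ y 0) x := by
      funext x
      simp [hh, curl]
    have hpd : ∀ i j : Fin 3, Continuous (pd i fun y => φ y j) := fun i j =>
      ((hc1 j).continuous_fderiv (by simp)).clm_apply continuous_const
    have hpc : ∀ i j : Fin 3, HasCompactSupport (pd i fun y => φ y j) := fun i j =>
      (hcs j).fderiv_apply (𝕜 := ℝ) _
    have hhc : Continuous h := by
      rw [hheq]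
      exact (hpd 0 1).sub (hpd 1 0)
    have hhs : HasCompactSupport h := by
      rw [hheq]
      exact (hpc 0 1).sub (hpc 1 0)
    obtain ⟨H, hH⟩ := hhc.bounded_above_of_compact_support hhs
    have hhi : Integrable h := hhc.integrable_of_hasCompactSupport hhs
    have hm1 : Measurable fun p : E × ℝ => p.2⁻¹ * f (sc p.2⁻¹ p.1) * h p.1 :=
      (Pot_meas hf).mul (hhc.measurable.comp measurable_fst)
    have hG : Integrable (fun p : E × ℝ => p.2⁻¹ * f (sc p.2⁻¹ p.1) * h p.1)
        (volume.prod (volume.restrict (Ioc (0 : ℝ) 1))) := by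
      rw [integrable_prod_iff hm1.aestronglyMeasurable]
      refine ⟨Eventually.of_forall fun x => (hA x).1.mul_const (h x), ?_⟩
      refine (hhi.norm.const_mul (M * |R| / Real.sqrt δ)).mono' ?_ (Eventually.of_forall fun x => ?_)
      · exact (hm1.norm.stronglyMeasurable.integral_prod_right'
          (ν := volume.restrict (Ioc (0 : ℝ) 1))).aestronglyMeasurable
      · simp only [norm_mul]
        rw [integral_mul_const, norm_mul, norm_norm]
        refine mul_le_mul_of_nonneg_right ?_ (norm_nonneg _)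
        rw [Real.norm_eq_abs, abs_of_nonneg (integral_nonneg fun s => by positivity)]
        have := (hA x).2
        simpa only [norm_mul] using this
    have hG2 : Integrable (fun p : E × ℝ => f p.1 * (p.2 * h (sc p.2 p.1)))
        (volume.prod (volume.restrict (Ioc (0 : ℝ) 1))) := by
      have hm : Measurable fun p : E × ℝ => f p.1 * (p.2 * h (sc p.2 p.1)) :=
        (hf.comp measurable_fst).mul (measurable_snd.mul (hhc.measurable.comp Pot_cont.measurable))
      have hH0 : 0 ≤ H := (norm_nonneg _).trans (hH 0)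
      have hint : Integrable (fun p : E × ℝ => (Metric.closedBall (0 : E) |R|).indicator (fun _ => M * H) p.1 * (1 : ℝ))
          (volume.prod (volume.restrict (Ioc (0 : ℝ) 1))) := by
        refine Integrable.mul_prod (f := (Metric.closedBall (0 : E) |R|).indicator (fun _ => M * H))
          (g := fun _ : ℝ => (1 : ℝ)) ?_ (integrable_const _)
        rw [integrable_indicator_iff measurableSet_closedBall]
        exact integrableOn_const (isCompact_closedBall (0 : E) |R|).measure_lt_top.ne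
      refine hint.mono' hm.aestronglyMeasurable ?_
      have hae : ∀ᵐ p : E × ℝ ∂(volume.prod (volume.restrict (Ioc (0 : ℝ) 1))), p.2 ∈ Ioc (0 : ℝ) 1 := by
        have h1 : ∀ᵐ s : ℝ ∂(volume.restrict (Ioc (0 : ℝ) 1)), s ∈ Ioc (0 : ℝ) 1 :=
          ae_restrict_mem measurableSet_Ioc
        exact Measure.quasiMeasurePreserving_snd.ae h1
      filter_upwards [hae] with p hp
      by_cases h1 : f p.1 = 0
      · rw [h1, zero_mul, norm_zero, mul_one]
        exact Set.indicator_nonneg (fun _ _ => by positivity) _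
      · have h2 : p.1 ∈ Metric.closedBall (0 : E) |R| := by
          rw [mem_closedBall_zero_iff]
          exact (hs0 _ h1).2
        rw [Set.indicator_of_mem h2, mul_one, norm_mul, norm_mul, Real.norm_eq_abs, Real.norm_eq_abs,
          abs_of_pos hp.1]
        calc |f p.1| * (p.2 * ‖h (sc p.2 p.1)‖) ≤ M * (1 * H) := by
              have q1 : 0 ≤ p.2 := hp.1.le
              exact mul_le_mul (hM _) (mul_le_mul hp.2 (hH _) (norm_nonneg _) zero_le_one)
                (mul_nonneg q1 (norm_nonneg _)) hM0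
          _ = M * H := by ring
    have e1 : ∫ x, ⟪Pot_g f x • EuclideanSpace.single 2 (1 : ℝ), curl φ x⟫ =
        ∫ x, ∫ s in Ioc (0 : ℝ) 1, s⁻¹ * f (sc s⁻¹ x) * h x := by
      refine integral_congr_ae (Eventually.of_forall fun x => ?_)
      simp only []
      rw [real_inner_smul_left, EuclideanSpace.inner_single_left, integral_mul_const]
      simp [Pot_g, hh]
    have e2 : ∀ s ∈ Ioc (0 : ℝ) 1, ∫ x, s⁻¹ * f (sc s⁻¹ x) * h x = ∫ y, f y * (s * h (sc s y)) := by
      intro s hs'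
      have hs1 : s ≠ 0 := hs'.1.ne'
      have hm2 : Measurable fun x : E => s⁻¹ * f (sc s⁻¹ x) * h x :=
        hm1.comp (measurable_id.prodMk measurable_const)
      rw [Pot_cov hs'.1 hm2, ← integral_const_mul]
      refine integral_congr_ae (Eventually.of_forall fun y => ?_)
      have h1 : sc s⁻¹ (sc s y) = y := by
        ext i
        fin_cases i <;> simp [sc, hs1]
      simp only [h1]
      field_simp
    have e3 : ∫ x, f x * (∫ s in (0 : ℝ)..1, s * curl φ (sc s x) 2) =
        ∫ y, ∫ s in Ioc (0 : ℝ) 1, f y * (s * h (sc s y)) := by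
      refine integral_congr_ae (Eventually.of_forall fun y => ?_)
      simp only []
      rw [intervalIntegral.integral_of_le zero_le_one, integral_const_mul]
    rw [e1, integral_integral_swap hG, setIntegral_congr_fun measurableSet_Ioc e2, ← integral_integral_swap hG2,
      ← e3]
    exact hom hf hr hM hδ hs ⟨hφ1, hφ2, subset_univ _⟩

theorem potential {f : E → ℝ} (hf : Measurable f) (hr : RotInv f) {M R δ : ℝ}
    (hM : ∀ x, |f x| ≤ M) (hδ : 0 < δ) (hs : ∀ x, f x ≠ 0 → δ ≤ rr x ∧ ‖x‖ ≤ R) :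
    ∃ v : E → E, Measurable v ∧ (∃ M' : ℝ, ∀ x, ‖v x‖ ≤ M') ∧ (∃ R' : ℝ, ∀ x, v x ≠ 0 → ‖x‖ ≤ R') ∧
      WC univ v (fun x => f x • th x) := by
  obtain ⟨v, h1, h2, h3, h4, -⟩ := potential_equi hf hr hM hδ hs
  exact ⟨v, h1, h2, h3, h4⟩

end Pool.CQ
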