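import Mathlib

/-!
# MP_cd5b91_an (critical curl-curl equation): the definitions used in the statements
-/

open MeasureTheory Filter Topology Set
open scoped ContDiff RealInnerProductSpace

namespace Pool.CQ

/-- `ℝ³` with its Euclidean norm. -/
abbrev E := EuclideanSpace ℝ (Fin 3)

/-- partial derivative `∂_i f (x)` -/
noncomputable def pd (i : Fin 3) (f : E → ℝ) (x : E) : ℝ :=
  fderiv ℝ f x (EuclideanSpace.single i (1 : ℝ))

/-- gradient -/
noncomputable def gr (f : E → ℝ) (x : E) : E := !₂[pd 0 f x, pd 1 f x, pd 2 f x]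

/-- the curl of a (differentiable) vector field -/
noncomputable def curl (φ : E → E) (x : E) : E :=
  !₂[pd 1 (fun y => φ y 2) x - pd 2 (fun y => φ y 1) x,
     pd 2 (fun y => φ y 0) x - pd 0 (fun y => φ y 2) x,
     pd 0 (fun y => φ y 1) x - pd 1 (fun y => φ y 0) x]

/-- cross product -/
noncomputable def cr (a b : E) : E :=
  !₂[a 1 * b 2 - a 2 * b 1, a 2 * b 0 - a 0 * b 2, a 0 * b 1 - a 1 * b 0]

/-- smooth vector fields with compact support inside `O` -/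
def TestIn (O : Set E) (φ : E → E) : Prop :=
  ContDiff ℝ ∞ φ ∧ HasCompactSupport φ ∧ tsupport φ ⊆ O

/-- smooth functions with compact support inside `O` -/
def STest (O : Set E) (η : E → ℝ) : Prop :=
  ContDiff ℝ ∞ η ∧ HasCompactSupport η ∧ tsupport η ⊆ O

/-- `C` is the distributional curl of `A` on `O` -/
def WC (O : Set E) (A C : E → E) : Prop :=
  ∀ φ : E → E, TestIn O φ → ∫ x, ⟪A x, curl φ x⟫ = ∫ x, ⟪C x, φ x⟫

/-- `u ∈ W⁶(curl; ℝ³)` and `∇ × u = B` -/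
def W6 (u B : E → E) : Prop :=
  MemLp u 6 volume ∧ MemLp B 2 volume ∧ WC univ u B

/-- `u` (with `B = ∇ × u`) is a weak solution of `∇ × (∇ × u) = |u|⁴ u` -/
def WeakSol (u B : E → E) : Prop :=
  W6 u B ∧ WC univ B (fun x => ‖u x‖ ^ 4 • u x)

/-- the energy -/
noncomputable def J (u B : E → E) : ℝ :=
  1 / 2 * (∫ x, ‖B x‖ ^ 2) - 1 / 6 * ∫ x, ‖u x‖ ^ 6

/-- the curl-Sobolev inequality with constant `S`:
`∫ |∇ × v|² ≥ S inf_{w ∈ 𝒲} (∫ |v + w|⁶)^{1/3}` for all `v ∈ W⁶(curl; ℝ³)` -/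
def CurlSob (S : ℝ) : Prop :=
  ∀ v C : E → E, W6 v C →
    S * (⨅ w : {w : E → E // W6 w (fun _ => 0)}, ∫ x, ‖v x + w.1 x‖ ^ 6) ^ (1 / 3 : ℝ)
      ≤ ∫ x, ‖C x‖ ^ 2

/-- the set `𝒩` of the problem: `u ∉ 𝒲`, `∫ |∇ × u|² = ∫ |u|⁶`, `div (|u|⁴ u) = 0` (with `B = ∇ × u`) -/
def InN (u B : E → E) : Prop :=
  W6 u B ∧ ¬ (B =ᵐ[volume] fun _ => 0) ∧ ∫ x, ‖B x‖ ^ 2 = ∫ x, ‖u x‖ ^ 6 ∧
    ∀ η : E → ℝ, STest univ η → ∫ x, ⟪‖u x‖ ^ 4 • u x, gr η x⟫ = 0

/-- ground states: the minimisers of the energy on `𝒩` -/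
def MinN (u B : E → E) : Prop := InN u B ∧ ∀ v C : E → E, InN v C → J u B ≤ J v C

/-- the curl-Sobolev inequality with constant `S` for the fields of the class `K` -/
def CurlSobOn (K : (E → E) → Prop) (S : ℝ) : Prop :=
  ∀ v C : E → E, K v → W6 v C →
    S * (⨅ w : {w : E → E // W6 w (fun _ => 0)}, ∫ x, ‖v x + w.1 x‖ ^ 6) ^ (1 / 3 : ℝ)
      ≤ ∫ x, ‖C x‖ ^ 2

/-- Nontrivial weak solutions with `∫ |u|⁶ < 2 S^{3/2}`, where the curl-Sobolev inequality with constant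
`S > 0` holds for the class `K` (the least energy corresponds to `∫ |u|⁶ = S^{3/2}`). -/
structure LowK (K : (E → E) → Prop) (S : ℝ) (u B : E → E) : Prop where
  sol : WeakSol u B
  ne : ¬ (u =ᵐ[volume] fun _ => 0)
  pos : 0 < S
  sob : CurlSobOn K S
  low : ∫ x, ‖u x‖ ^ 6 < 2 * S ^ (3 / 2 : ℝ)

/-- rotation by the angle `γ` about the axis through `0` with direction `e` (Rodrigues' formula) -/
noncomputable def rodr (e : E) (γ : ℝ) (x : E) : E :=
  Real.cos γ • x + Real.sin γ • cr e x + ((1 - Real.cos γ) * ⟪e, x⟫) • e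

/-- fields which are axisymmetric about the axis through `a` with unit direction `e`
(`rodr e γ` is the rotation by the angle `γ` about `e`) -/
def AxiAt (e a : E) (v : E → E) : Prop :=
  ∀ γ : ℝ, ∀ᵐ x, v (a + rodr e γ (x - a)) = rodr e γ (v x)

/-- poloidal axisymmetric fields (no swirl) about this axis -/
def PolAt (e a : E) (v : E → E) : Prop := AxiAt e a v ∧ ∀ᵐ x, ⟪v x, cr e (x - a)⟫ = 0

/-- toroidal axisymmetric fields (pure swirl) about this axis -/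
def TorAt (e a : E) (v : E → E) : Prop := AxiAt e a v ∧ ∀ᵐ x, ∃ t : ℝ, v x = t • cr e (x - a)

/-- the support: complement of the largest open set on which `u = 0` a.e. -/
def esupp (u : E → E) : Set E :=
  {x | ∀ O : Set E, IsOpen O → x ∈ O → ¬ ∀ᵐ y ∂(volume.restrict O), u y = 0}

/-- closed sets whose `1`-dimensional (upper) Minkowski content is locally finite -/
def Thin (Z : Set E) : Prop :=
  IsClosed Z ∧ ∀ R : ℝ, ∃ C : ℝ, ∀ ε : ℝ, 0 < ε → ε ≤ 1 →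
    volume (Metric.cthickening ε Z ∩ Metric.closedBall 0 R) ≤ ENNReal.ofReal (C * ε ^ 2)

/-- `A` vanishes on the closed set `Z` in the weak sense
`ε⁻¹ ∫_{dist(x, Z) ≤ ε, |x| ≤ R} |A| → 0` (along `ε = 4/(n+1)`) for all `R` -/
def Neg (Z : Set E) (A : E → E) : Prop :=
  ∀ R : ℝ, Tendsto (fun n : ℕ => ((n : ℝ) + 1) *
    ∫ x in Metric.cthickening (4 / ((n : ℝ) + 1)) Z ∩ Metric.closedBall 0 R, ‖A x‖) atTop (𝓝 0)

end Pool.CQ
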