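import Pool.Agent.Lib.MP_cd5b91_an.CQ.TorAlg

/-!
# CQ-RotL
-/

open MeasureTheory Filter Topology Set
open scoped ContDiff RealInnerProductSpace ENNReal

namespace Pool.CQ

private theorem fderiv_inner {f : E → ℝ} (x v : E) : fderiv ℝ f x v = ⟪v, gr f x⟫ := by
  have h1 : v = v 0 • EuclideanSpace.single (0 : Fin 3) (1 : ℝ) + v 1 • EuclideanSpace.single (1 : Fin 3) (1 : ℝ) +
      v 2 • EuclideanSpace.single (2 : Fin 3) (1 : ℝ) := by
    ext i
    fin_cases i <;> simp
  conv_lhs => rw [h1]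
  rw [map_add, map_add, map_smul, map_smul, map_smul, PiLp.inner_apply, Fin.sum_univ_three]
  simp only [gr, pd]
  simp [mul_comm]

private theorem rot_eq (γ : ℝ) (x : E) :
    rot γ x = Real.cos γ • (!₂[x 0, x 1, 0] : E) + Real.sin γ • (!₂[-x 1, x 0, 0] : E) + (!₂[0, 0, x 2] : E) := by
  ext i
  fin_cases i <;> simp [rot] <;> ring

private theorem hasDerivAt_rot (x : E) (γ : ℝ) : HasDerivAt (fun γ => rot γ x) (T (rot γ x)) γ := by
  have h1 : (fun γ => rot γ x) = fun γ => Real.cos γ • (!₂[x 0, x 1, 0] : E) +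
      Real.sin γ • (!₂[-x 1, x 0, 0] : E) + (!₂[0, 0, x 2] : E) := funext fun γ => rot_eq γ x
  rw [h1]
  have h2 := (((Real.hasDerivAt_cos γ).smul_const (!₂[x 0, x 1, 0] : E)).add
    ((Real.hasDerivAt_sin γ).smul_const (!₂[-x 1, x 0, 0] : E))).add_const (!₂[0, 0, x 2] : E)
  have h3 : T (rot γ x) = -Real.sin γ • (!₂[x 0, x 1, 0] : E) + Real.cos γ • (!₂[-x 1, x 0, 0] : E) := by
    ext i
    fin_cases i <;> simp [rot, T] <;> ring
  rw [h3]
  exact h2

private theorem rot_zero (x : E) : rot 0 x = x := by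
  ext i
  fin_cases i <;> simp [rot]

/-- The rotation as a linear isometry. -/
private noncomputable def rotI (γ : ℝ) : E ≃ₗᵢ[ℝ] E :=
  LinearIsometry.toLinearIsometryEquiv (LinearMap.isometryOfInner
    { toFun := rot γ
      map_add' := by
        intro x y
        ext i
        fin_cases i <;> simp [rot] <;> ring
      map_smul' := by
        intro t x
        ext i
        fin_cases i <;> simp [rot] <;> ring } (inner_rot γ)) rfl

private theorem rotI_apply (γ : ℝ) (x : E) : rotI γ x = rot γ x := rfl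

private theorem rotI_coe (γ : ℝ) : (rotI γ : E → E) = rot γ := rfl

private theorem norm_rot (γ : ℝ) (x : E) : ‖rot γ x‖ = ‖x‖ := (rotI γ).norm_map x

private theorem continuous_rot (γ : ℝ) : Continuous (rot γ) := (rotI γ).continuous

private theorem continuous_gr {f : E → ℝ} (hf : ContDiff ℝ ∞ f) : Continuous fun x => ⟪T x, gr f x⟫ := by
  have h1 : (fun x => ⟪T x, gr f x⟫) = fun x => fderiv ℝ f x (T x) := funext fun x => (fderiv_inner x (T x)).symm
  rw [h1]
  have hT : Continuous T := by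
    unfold T
    fun_prop
  exact (hf.continuous_fderiv (by simp)).clm_apply hT

private theorem rot_core {ψ : E → ℝ} (hr : RotInv ψ) {K : Set E} (hK : IsCompact K)
    (hKr : ∀ γ x, rot γ x ∈ K ↔ x ∈ K) (hψ : Integrable ψ (volume.restrict K)) {f : E → ℝ} (hf : ContDiff ℝ ∞ f) :
    ∫ x in K, ψ x * ⟪T x, gr f x⟫ = 0 := by
  obtain ⟨M, hM⟩ := hK.exists_bound_of_continuousOn (continuous_gr hf).continuousOn
  obtain ⟨M', hM'⟩ := hK.exists_bound_of_continuousOn hf.continuous.continuousOn
  have hmeas : ∀ γ, AEStronglyMeasurable (fun x => ψ x * f (rot γ x)) (volume.restrict K) := fun γ =>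
    hψ.aestronglyMeasurable.mul (hf.continuous.comp (continuous_rot γ)).aestronglyMeasurable
  have hd : ∀ x γ, HasDerivAt (fun γ => ψ x * f (rot γ x)) (ψ x * ⟪T (rot γ x), gr f (rot γ x)⟫) γ := by
    intro x γ
    have h1 : HasFDerivAt f (fderiv ℝ f (rot γ x)) (rot γ x) :=
      (hf.differentiable (by simp) _).hasFDerivAt
    have h2 := h1.comp_hasDerivAt γ (hasDerivAt_rot x γ)
    rw [fderiv_inner] at h2
    exact h2.const_mul (ψ x)
  have h1 := hasDerivAt_integral_of_dominated_loc_of_deriv_le (μ := volume.restrict K) (𝕜 := ℝ)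
    (F := fun γ x => ψ x * f (rot γ x)) (F' := fun γ x => ψ x * ⟪T (rot γ x), gr f (rot γ x)⟫)
    (x₀ := 0) (s := univ) (bound := fun x => ‖ψ x‖ * M) univ_mem (Eventually.of_forall hmeas)
    (by
      have h2 : (fun x => ψ x * f (rot 0 x)) = fun x => ψ x * f x := by
        funext x
        rw [rot_zero]
      rw [h2]
      refine (hψ.bdd_mul (c := M') hf.continuous.aestronglyMeasurable ?_).congr
        (Eventually.of_forall fun x => mul_comm _ _)
      rw [ae_restrict_iff' hK.measurableSet]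
      exact Eventually.of_forall hM')
    (by
      have h2 : (fun x => ψ x * ⟪T (rot 0 x), gr f (rot 0 x)⟫) = fun x => ψ x * ⟪T x, gr f x⟫ := by
        funext x
        rw [rot_zero]
      rw [h2]
      exact hψ.aestronglyMeasurable.mul (continuous_gr hf).aestronglyMeasurable)
    (by
      rw [ae_restrict_iff' hK.measurableSet]
      refine Eventually.of_forall fun x hx γ _ => ?_
      rw [norm_mul]
      exact mul_le_mul_of_nonneg_left (hM _ ((hKr γ x).2 hx)) (norm_nonneg _))
    (hψ.norm.mul_const M) (Eventually.of_forall fun x γ _ => hd x γ)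
  have h3 : (fun γ => ∫ x in K, ψ x * f (rot γ x)) = fun _ => ∫ x in K, ψ x * f x := by
    funext γ
    have h4 := (rotI γ).measurePreserving.setIntegral_preimage_emb
      (rotI γ).toHomeomorph.measurableEmbedding (fun x => ψ x * f x) K
    rw [rotI_coe] at h4
    have h5 : rot γ ⁻¹' K = K := Set.ext fun x => hKr γ x
    rw [h5] at h4
    rw [← h4]
    exact integral_congr_ae (Eventually.of_forall fun x => by simp only [hr γ x])
  have h6 := h1.2
  rw [h3] at h6
  have h7 := h6.unique (hasDerivAt_const (0 : ℝ) (∫ x in K, ψ x * f x))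
  simp only [rot_zero] at h7
  exact h7

theorem rot_int {ψ : E → ℝ} (hψ : LpL 1 Oax ψ) (hr : RotInv ψ) {f : E → ℝ} (hf : STest Oax f) :
    ∫ x, ψ x * ⟪T x, gr f x⟫ = 0 := by
  obtain ⟨hf1, hf2, hf3⟩ := hf
  set p : E → ℝ × ℝ := fun x => (rr x, x 2) with hp
  have hpc : Continuous p := by
    rw [hp]
    unfold rr
    fun_prop
  set K : Set E := p ⁻¹' (p '' tsupport f) with hKd
  have hKcl : IsClosed K := ((hf2.isCompact.image hpc).isClosed).preimage hpc
  have hKc : IsCompact K := by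
    obtain ⟨R, hR⟩ := hf2.isCompact.exists_bound_of_continuousOn (f := fun x : E => x) continuousOn_id
    refine (isCompact_closedBall (0 : E) R).of_isClosed_subset hKcl ?_
    rintro x ⟨y, hy, hxy⟩
    have h1 := hR y hy
    rw [mem_closedBall_zero_iff]
    have h2 : ‖x‖ = ‖y‖ := by
      have h3 : ∀ z : E, ‖z‖ ^ 2 = rr z + z 2 ^ 2 := by
        intro z
        rw [EuclideanSpace.norm_sq_eq, Fin.sum_univ_three]
        simp [rr]
      have h4 : ‖x‖ ^ 2 = ‖y‖ ^ 2 := by
        rw [h3, h3]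
        simp only [hp, Prod.mk.injEq] at hxy
        rw [hxy.1, hxy.2]
      exact (pow_left_inj₀ (norm_nonneg _) (norm_nonneg _) two_ne_zero).1 h4
    rw [h2]
    exact h1
  have hKr : ∀ γ x, rot γ x ∈ K ↔ x ∈ K := by
    intro γ x
    have h1 : p (rot γ x) = p x := by
      simp only [hp, rr_rot]
      simp [rot]
    rw [hKd, mem_preimage, mem_preimage, h1]
  have hKO : K ⊆ Oax := by
    rintro x ⟨y, hy, hxy⟩
    have h1 : 0 < rr y := hf3 hy
    simp only [hp, Prod.mk.injEq] at hxy
    change 0 < rr x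
    rw [← hxy.1]
    exact h1
  have h1 := rot_core hr hKc hKr (memLp_one_iff_integrable.1 (hψ K hKc hKO)) hf1
  rw [← h1, setIntegral_eq_integral_of_forall_compl_eq_zero]
  intro x hx
  have h2 : x ∉ tsupport f := fun h => hx ⟨x, h, rfl⟩
  have h3 : gr f x = 0 := by
    have h4 : fderiv ℝ f x = 0 := by
      have h5 := support_fderiv_subset ℝ (f := f)
      by_contra h6
      exact h2 (h5 h6)
    unfold gr pd
    rw [h4]
    ext i
    fin_cases i <;> simp
  rw [h3, inner_zero_right, mul_zero]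

theorem rot_int' {ψ : E → ℝ} (hψ : Measurable ψ) (hr : RotInv ψ) {M R δ : ℝ}
    (hM : ∀ x, |ψ x| ≤ M) (hδ : 0 < δ) (hs : ∀ x, ψ x ≠ 0 → δ ≤ rr x ∧ ‖x‖ ≤ R) {f : E → ℝ}
    (hf : ContDiff ℝ ∞ f) : ∫ x, ψ x * ⟪T x, gr f x⟫ = 0 := by
  have hrc : Continuous rr := by
    unfold rr
    fun_prop
  have hKc : IsCompact {x : E | δ ≤ rr x ∧ ‖x‖ ≤ R} := by
    refine (isCompact_closedBall (0 : E) R).of_isClosed_subset ?_ ?_
    · exact (isClosed_le continuous_const hrc).inter (isClosed_le continuous_norm continuous_const)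
    · rintro x ⟨-, hx⟩
      rwa [mem_closedBall_zero_iff]
  have hKr : ∀ γ x, rot γ x ∈ {x : E | δ ≤ rr x ∧ ‖x‖ ≤ R} ↔ x ∈ {x : E | δ ≤ rr x ∧ ‖x‖ ≤ R} := by
    intro γ x
    rw [Set.mem_ofPred_eq, Set.mem_ofPred_eq, rr_rot, norm_rot]
  have hint : Integrable ψ (volume.restrict {x : E | δ ≤ rr x ∧ ‖x‖ ≤ R}) :=
    Measure.integrableOn_of_bounded (M := M) hKc.measure_lt_top.ne hψ.aestronglyMeasurable
      (Eventually.of_forall fun x => by rw [Real.norm_eq_abs]; exact hM x)
  have h1 := rot_core hr hKc hKr hint hf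
  rw [← h1, setIntegral_eq_integral_of_forall_compl_eq_zero]
  intro x hx
  have h2 : ψ x = 0 := by
    by_contra h3
    exact hx (hs x h3)
  rw [h2, zero_mul]

end Pool.CQ
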