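import Pool.Agent.Lib.MP_cd5b91_an.CQ.Approx

/-!
# CQ-SmpA
-/

open MeasureTheory Filter Topology Set
open scoped ContDiff RealInnerProductSpace ENNReal

namespace Pool.CQ

private theorem SmpA_conj {p q : ℝ} (hp : 1 < p) (hp2 : p ≤ 2) (hpq : 1 / p + 1 / q = 1) :
    2 ≤ q ∧ p.HolderConjugate q ∧ (p - 1) * q = p := by
  have hp0 : 0 < p := by linarith
  have hq0 : q ≠ 0 := by
    rintro rfl
    rw [div_zero, add_zero, div_eq_one_iff_eq hp0.ne'] at hpq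
    linarith
  have h1 : (p - 1) * q = p := by
    field_simp at hpq
    linarith
  have hq1 : 0 < q := by
    rcases lt_or_gt_of_ne hq0 with h | h
    · exfalso
      nlinarith
    · exact h
  refine ⟨?_, Real.holderConjugate_iff.mpr ⟨hp, by simpa only [one_div] using hpq⟩, h1⟩
  nlinarith

private theorem SmpA_young {p q : ℝ} (hp : 1 < p) (hp2 : p ≤ 2) (hpq : 1 / p + 1 / q = 1) {M L0 : ℝ}
    (hM : 0 < M) (hL0 : 0 ≤ L0) :
    ∃ C0 : ℝ, 0 ≤ C0 ∧ ∀ z s a L e : ℝ, 0 ≤ z → z ≤ 1 → 0 < s → 0 ≤ a → 0 ≤ L → L ≤ L0 → a ^ q ≤ M * e →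
      2 * z * s ^ (1 - p) * (a * L) ≤ (p - 1) / 2 * (z ^ 2 * s ^ (-p) * e) + C0 := by
  obtain ⟨hq2, hc, hpq1⟩ := SmpA_conj hp hp2 hpq
  have hp0 : 0 < p := by linarith
  have hq0 : 0 < q := by linarith
  obtain ⟨l, hl⟩ : ∃ l : ℝ, l = (p / (4 * M)) ^ (1 / q) := ⟨_, rfl⟩
  have hpM : 0 < p / (4 * M) := by positivity
  have hl0 : 0 < l := by
    rw [hl]
    exact Real.rpow_pos_of_pos hpM _
  have hlq : l ^ q = p / (4 * M) := by
    rw [hl, ← Real.rpow_mul hpM.le, one_div, inv_mul_cancel₀ hq0.ne', Real.rpow_one]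
  have hC0 : 0 ≤ 2 * ((L0 / l) ^ p / p) := by positivity
  refine ⟨2 * ((L0 / l) ^ p / p), hC0, ?_⟩
  intro z s a L e hz hz1 hs ha hL hLL hae
  have he : 0 ≤ e := by
    have h1 : 0 ≤ M * e := (Real.rpow_nonneg ha q).trans hae
    exact nonneg_of_mul_nonneg_right h1 hM
  rcases eq_or_lt_of_le hz with h0 | h0
  · rw [← h0]
    have : (p - 1) / 2 * ((0 : ℝ) ^ 2 * s ^ (-p) * e) = 0 := by ring
    rw [this]
    simpa using hC0
  have hy := Real.young_inequality_of_nonneg (a := z ^ (1 - 2 / q) * L / l) (b := l * (a * z ^ (2 / q) * s ^ (1 - p)))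
    (by positivity) (by positivity) hc
  have e1 : z ^ (1 - 2 / q) * L / l * (l * (a * z ^ (2 / q) * s ^ (1 - p))) = z * s ^ (1 - p) * (a * L) := by
    have h1 : z ^ (1 - 2 / q) * z ^ (2 / q) = z := by
      rw [← Real.rpow_add h0]
      have : 1 - 2 / q + 2 / q = 1 := by ring
      rw [this, Real.rpow_one]
    calc z ^ (1 - 2 / q) * L / l * (l * (a * z ^ (2 / q) * s ^ (1 - p)))
        = (z ^ (1 - 2 / q) * z ^ (2 / q)) * s ^ (1 - p) * (a * L) * (l / l) := by ring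
      _ = z * s ^ (1 - p) * (a * L) := by rw [h1, div_self hl0.ne', mul_one]
  rw [e1] at hy
  have e2 : (z ^ (1 - 2 / q) * L / l) ^ p ≤ (L0 / l) ^ p := by
    apply Real.rpow_le_rpow (by positivity) _ hp0.le
    apply div_le_div_of_nonneg_right _ hl0.le
    have h1 : z ^ (1 - 2 / q) ≤ 1 := by
      apply Real.rpow_le_one hz hz1
      rw [sub_nonneg, div_le_one hq0]
      exact hq2
    calc z ^ (1 - 2 / q) * L ≤ 1 * L := mul_le_mul_of_nonneg_right h1 hL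
      _ ≤ L0 := by rw [one_mul]; exact hLL
  have e3 : (l * (a * z ^ (2 / q) * s ^ (1 - p))) ^ q = p / (4 * M) * (a ^ q * (z ^ 2 * s ^ (-p))) := by
    rw [Real.mul_rpow hl0.le (by positivity), hlq, Real.mul_rpow (by positivity) (by positivity),
      Real.mul_rpow ha (by positivity), ← Real.rpow_mul hz, ← Real.rpow_mul hs.le]
    have h1 : 2 / q * q = 2 := div_mul_cancel₀ _ hq0.ne'
    have h2 : (1 - p) * q = -p := by linarith
    rw [h1, h2, Real.rpow_two]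
    ring
  have e4 : p / (4 * M) * (a ^ q * (z ^ 2 * s ^ (-p))) / q ≤ (p - 1) / 4 * (z ^ 2 * s ^ (-p) * e) := by
    have h1 : a ^ q * (z ^ 2 * s ^ (-p)) ≤ M * e * (z ^ 2 * s ^ (-p)) :=
      mul_le_mul_of_nonneg_right hae (by positivity)
    have h2 : p / q = p - 1 := by
      rw [div_eq_iff hq0.ne']
      exact hpq1.symm
    calc p / (4 * M) * (a ^ q * (z ^ 2 * s ^ (-p))) / q
        ≤ p / (4 * M) * (M * e * (z ^ 2 * s ^ (-p))) / q :=
          div_le_div_of_nonneg_right (mul_le_mul_of_nonneg_left h1 hpM.le) hq0.le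
      _ = (p / q) / 4 * (z ^ 2 * s ^ (-p) * e) := by
          field_simp
      _ = (p - 1) / 4 * (z ^ 2 * s ^ (-p) * e) := by rw [h2]
  rw [e3] at hy
  have e5 : (z ^ (1 - 2 / q) * L / l) ^ p / p ≤ (L0 / l) ^ p / p := div_le_div_of_nonneg_right e2 hp0.le
  have e6 : 2 * z * s ^ (1 - p) * (a * L) = 2 * (z * s ^ (1 - p) * (a * L)) := by ring
  rw [e6]
  linarith

private theorem SmpA_lp {p : ℝ} (hp : 0 < p) {μ : Measure E} {h : E → E}
    (hh : MemLp h (ENNReal.ofReal p) μ) :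
    (∫ x, ‖h x‖ ^ p ∂μ) ^ (1 / p) = (eLpNorm h (ENNReal.ofReal p) μ).toReal := by
  rw [hh.eLpNorm_eq_integral_rpow_norm (by simpa using hp) ENNReal.ofReal_ne_top, ENNReal.toReal_ofReal hp.le,
    ENNReal.toReal_ofReal, one_div]
  exact Real.rpow_nonneg (integral_nonneg fun x => Real.rpow_nonneg (norm_nonneg _) _) _

private theorem SmpA_pw {s ε r : ℝ} (hε : 0 < ε) (hs : 0 ≤ s) (hr : r ≤ 0) :
    0 ≤ (s + ε) ^ r ∧ (s + ε) ^ r ≤ ε ^ r :=
  ⟨Real.rpow_nonneg (by linarith) _, Real.rpow_le_rpow_of_nonpos hε (by linarith) hr⟩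

private theorem SmpA_lim {p q ε L0 : ℝ} (hp : 1 < p) (hc : p.HolderConjugate q) (hε : 0 < ε)
    {μ : Measure E} [IsFiniteMeasure μ] {F G Z : E → E} {ψ ζ : E → ℝ} {f : ℕ → E → ℝ} {g : ℕ → E → E}
    (hF : MemLp F (ENNReal.ofReal q) μ) (hG : MemLp G (ENNReal.ofReal p) μ)
    (hψ : ∀ x, 0 ≤ ψ x) (hf : ∀ n x, 0 ≤ f n x) (hfm : ∀ n, AEStronglyMeasurable (f n) μ)
    (hζ : AEStronglyMeasurable ζ μ) (hζ01 : ∀ x, 0 ≤ ζ x ∧ ζ x ≤ 1)
    (hZ : AEStronglyMeasurable Z μ) (hZb : ∀ᵐ x ∂μ, ‖Z x‖ ≤ L0)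
    (hg : ∀ n, MemLp (g n) (ENNReal.ofReal p) μ)
    (hgl : Tendsto (fun n => eLpNorm (fun x => g n x - G x) (ENNReal.ofReal p) μ) atTop (𝓝 0))
    (hfl : ∀ᵐ x ∂μ, Tendsto (fun n => f n x) atTop (𝓝 (ψ x)))
    (hin : ∀ n, (p - 1) * ∫ x, ζ x ^ 2 * (f n x + ε) ^ (-p) * ⟪F x, g n x⟫ ∂μ ≤
      ∫ x, 2 * ζ x * (f n x + ε) ^ (1 - p) * ⟪F x, Z x⟫ ∂μ) :
    (p - 1) * ∫ x, ζ x ^ 2 * (ψ x + ε) ^ (-p) * ⟪F x, G x⟫ ∂μ ≤
      ∫ x, 2 * ζ x * (ψ x + ε) ^ (1 - p) * ⟪F x, Z x⟫ ∂μ := by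
  have hp0 : 0 < p := by linarith
  have hq0 : 0 < q := hc.symm.pos
  have hq1 : 1 < q := hc.symm.lt
  have : ENNReal.HolderConjugate (ENNReal.ofReal p) (ENNReal.ofReal q) := hc.ennrealOfReal
  have : ENNReal.HolderConjugate (ENNReal.ofReal q) (ENNReal.ofReal p) := hc.symm.ennrealOfReal
  have hFi : Integrable F μ := hF.integrable (by
    rw [← ENNReal.ofReal_one]
    exact ENNReal.ofReal_le_ofReal hq1.le)
  have hpwm : ∀ (h : E → ℝ) (r : ℝ), AEStronglyMeasurable h μ → AEStronglyMeasurable (fun x => (h x + ε) ^ r) μ := by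
    intro h r hh
    exact ((hh.aemeasurable.add_const ε).pow_const r).aestronglyMeasurable
  have hζ2 : ∀ x, 0 ≤ ζ x ^ 2 ∧ ζ x ^ 2 ≤ 1 := fun x =>
    ⟨sq_nonneg _, pow_le_one₀ (hζ01 x).1 (hζ01 x).2⟩
  -- the right-hand side
  have hR : Tendsto (fun n => ∫ x, 2 * ζ x * (f n x + ε) ^ (1 - p) * ⟪F x, Z x⟫ ∂μ) atTop
      (𝓝 (∫ x, 2 * ζ x * (ψ x + ε) ^ (1 - p) * ⟪F x, Z x⟫ ∂μ)) := by
    refine tendsto_integral_of_dominated_convergence (fun x => 2 * ε ^ (1 - p) * L0 * ‖F x‖) ?_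
      (hFi.norm.const_mul _) ?_ ?_
    · intro n
      exact ((hζ.const_mul 2).mul (hpwm _ _ (hfm n))).mul (hF.1.inner hZ)
    · intro n
      filter_upwards [hZb] with x hx
      obtain ⟨h1, h2⟩ := SmpA_pw (s := f n x) (r := 1 - p) hε (hf n x) (by linarith)
      rw [norm_mul, norm_mul, norm_mul, Real.norm_of_nonneg h1, Real.norm_of_nonneg (hζ01 x).1, Real.norm_ofNat]
      have h3 : ‖⟪F x, Z x⟫‖ ≤ ‖F x‖ * L0 :=
        (norm_inner_le_norm _ _).trans (mul_le_mul_of_nonneg_left hx (norm_nonneg _))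
      have h4 : 2 * ζ x * (f n x + ε) ^ (1 - p) ≤ 2 * 1 * ε ^ (1 - p) :=
        mul_le_mul (mul_le_mul_of_nonneg_left (hζ01 x).2 (by norm_num)) h2 h1 (by norm_num)
      calc 2 * ζ x * (f n x + ε) ^ (1 - p) * ‖⟪F x, Z x⟫‖ ≤ 2 * 1 * ε ^ (1 - p) * (‖F x‖ * L0) :=
            mul_le_mul h4 h3 (norm_nonneg _) (by positivity)
        _ = 2 * ε ^ (1 - p) * L0 * ‖F x‖ := by ring
    · filter_upwards [hfl] with x hx
      refine (Tendsto.const_mul _ ?_).mul_const _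
      exact (hx.add_const ε).rpow_const (Or.inl (by have := hψ x; positivity))
  -- the left-hand side
  have hFH : ∀ h : E → E, MemLp h (ENNReal.ofReal p) μ → Integrable (fun x => ‖F x‖ * ‖h x‖) μ :=
    fun h hh => MemLp.integrable_mul hF.norm hh.norm
  have hbd : ∀ (φ : E → ℝ) (h : E → E) (x : E), (∀ x, 0 ≤ φ x) →
      ‖ζ x ^ 2 * (φ x + ε) ^ (-p) * ⟪F x, h x⟫‖ ≤ ε ^ (-p) * (‖F x‖ * ‖h x‖) := by
    intro φ h x hφ
    obtain ⟨h1, h2⟩ := SmpA_pw (s := φ x) (r := -p) hε (hφ x) (by linarith)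
    rw [norm_mul, norm_mul, Real.norm_of_nonneg h1, Real.norm_of_nonneg (hζ2 x).1]
    have h4 : ζ x ^ 2 * (φ x + ε) ^ (-p) ≤ 1 * ε ^ (-p) :=
      mul_le_mul (hζ2 x).2 h2 h1 (by norm_num)
    rw [one_mul] at h4
    exact mul_le_mul h4 (norm_inner_le_norm _ _) (norm_nonneg _) (by positivity)
  have hmeas : ∀ (φ : E → ℝ) (h : E → E), AEStronglyMeasurable φ μ → MemLp h (ENNReal.ofReal p) μ →
      AEStronglyMeasurable (fun x => ζ x ^ 2 * (φ x + ε) ^ (-p) * ⟪F x, h x⟫) μ := by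
    intro φ h hφ hh
    exact ((hζ.pow 2).mul (hpwm _ _ hφ)).mul (hF.1.inner hh.1)
  have hint : ∀ (φ : E → ℝ) (h : E → E), AEStronglyMeasurable φ μ → MemLp h (ENNReal.ofReal p) μ → (∀ x, 0 ≤ φ x) →
      Integrable (fun x => ζ x ^ 2 * (φ x + ε) ^ (-p) * ⟪F x, h x⟫) μ := by
    intro φ h hφ hh h0
    exact ((hFH h hh).const_mul (ε ^ (-p))).mono' (hmeas φ h hφ hh) (Eventually.of_forall fun x => hbd φ h x h0)
  have hI : Tendsto (fun n => ∫ x, ζ x ^ 2 * (f n x + ε) ^ (-p) * ⟪F x, G x⟫ ∂μ) atTop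
      (𝓝 (∫ x, ζ x ^ 2 * (ψ x + ε) ^ (-p) * ⟪F x, G x⟫ ∂μ)) := by
    refine tendsto_integral_of_dominated_convergence (fun x => ε ^ (-p) * (‖F x‖ * ‖G x‖))
      (fun n => hmeas _ _ (hfm n) hG) ((hFH G hG).const_mul _)
      (fun n => Eventually.of_forall fun x => hbd _ _ x (hf n)) ?_
    filter_upwards [hfl] with x hx
    refine (Tendsto.const_mul _ ?_).mul_const _
    exact (hx.add_const ε).rpow_const (Or.inl (by have := hψ x; positivity))
  have hgG : ∀ n, MemLp (fun x => g n x - G x) (ENNReal.ofReal p) μ := fun n => (hg n).sub hG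
  have hD : Tendsto (fun n => ∫ x, ζ x ^ 2 * (f n x + ε) ^ (-p) * ⟪F x, g n x - G x⟫ ∂μ) atTop (𝓝 0) := by
    have hb : ∀ n, ‖∫ x, ζ x ^ 2 * (f n x + ε) ^ (-p) * ⟪F x, g n x - G x⟫ ∂μ‖ ≤
        ε ^ (-p) * ((∫ x, ‖F x‖ ^ q ∂μ) ^ (1 / q) *
          (eLpNorm (fun x => g n x - G x) (ENNReal.ofReal p) μ).toReal) := by
      intro n
      calc ‖∫ x, ζ x ^ 2 * (f n x + ε) ^ (-p) * ⟪F x, g n x - G x⟫ ∂μ‖
          ≤ ∫ x, ε ^ (-p) * (‖F x‖ * ‖g n x - G x‖) ∂μ :=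
            norm_integral_le_of_norm_le ((hFH _ (hgG n)).const_mul _)
              (Eventually.of_forall fun x => hbd (f n) (fun x => g n x - G x) x (hf n))
        _ = ε ^ (-p) * ∫ x, ‖F x‖ * ‖g n x - G x‖ ∂μ := integral_const_mul _ _
        _ ≤ ε ^ (-p) * ((∫ x, ‖F x‖ ^ q ∂μ) ^ (1 / q) * (∫ x, ‖g n x - G x‖ ^ p ∂μ) ^ (1 / p)) := by
            refine mul_le_mul_of_nonneg_left ?_ (by positivity)
            exact integral_mul_le_Lp_mul_Lq_of_nonneg hc.symm (Eventually.of_forall fun x => norm_nonneg _)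
              (Eventually.of_forall fun x => norm_nonneg _) hF.norm (hgG n).norm
        _ = _ := by rw [SmpA_lp hp0 (hgG n)]
    refine squeeze_zero_norm hb ?_
    have h1 : Tendsto (fun n => (eLpNorm (fun x => g n x - G x) (ENNReal.ofReal p) μ).toReal) atTop (𝓝 0) := by
      have h3 := (ENNReal.tendsto_toReal ENNReal.zero_ne_top).comp hgl
      rw [ENNReal.toReal_zero] at h3
      exact h3
    have h2 := (h1.const_mul ((∫ x, ‖F x‖ ^ q ∂μ) ^ (1 / q))).const_mul (ε ^ (-p))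
    simpa using h2
  have hL : Tendsto (fun n => (p - 1) * ∫ x, ζ x ^ 2 * (f n x + ε) ^ (-p) * ⟪F x, g n x⟫ ∂μ) atTop
      (𝓝 ((p - 1) * ∫ x, ζ x ^ 2 * (ψ x + ε) ^ (-p) * ⟪F x, G x⟫ ∂μ)) := by
    have h1 := (hI.add hD).const_mul (p - 1)
    rw [add_zero] at h1
    refine h1.congr fun n => ?_
    congr 1
    rw [← integral_add (hint _ _ (hfm n) hG (hf n)) (hint _ _ (hfm n) (hgG n) (hf n))]
    refine integral_congr_ae (Eventually.of_forall fun x => ?_)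
    simp only
    rw [inner_sub_right]
    ring
  exact le_of_tendsto_of_tendsto' hL hR hin

private theorem SmpA_cut {O K : Set E} (hO : IsOpen O) (hK : IsCompact K) (hKO : K ⊆ O) :
    ∃ (ζ : E → ℝ), ContDiff ℝ ∞ ζ ∧ HasCompactSupport ζ ∧ tsupport ζ ⊆ O ∧ (∀ x, 0 ≤ ζ x ∧ ζ x ≤ 1) ∧
      ∀ x ∈ K, ζ x = 1 := by
  obtain ⟨K1, hK1, hKK1, hK1O⟩ := exists_compact_between hK hO hKO
  have hdisj : Disjoint (interior K1)ᶜ K := by
    rw [Set.disjoint_left]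
    intro x hx hxK
    exact hx (hKK1 hxK)
  obtain ⟨f, hf0, hf1, hf⟩ := exists_contMDiffMap_zero_one_nhds_of_isClosed (n := (⊤ : ℕ∞)) (modelWithCornersSelf ℝ E)
    isOpen_interior.isClosed_compl hK.isClosed hdisj
  obtain ⟨U, hU, hsU, hU0⟩ := mem_nhdsSet_iff_exists.1 hf0
  obtain ⟨V, hV, hsV, hV1⟩ := mem_nhdsSet_iff_exists.1 hf1
  have hsupp : tsupport (fun x => f x) ⊆ K1 := by
    have h1 : Function.support (fun x => f x) ⊆ Uᶜ := by
      intro x hx hxU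
      exact hx (hU0 hxU)
    have h2 : tsupport (fun x => f x) ⊆ Uᶜ := closure_minimal h1 hU.isClosed_compl
    intro x hx
    by_contra hcon
    exact h2 hx (hsU fun h => hcon (interior_subset h))
  refine ⟨fun x => f x, f.contMDiff.contDiff, ?_, hsupp.trans hK1O, fun x => hf x, fun x hx => hV1 (hsV hx)⟩
  exact hK1.of_isClosed_subset (isClosed_tsupport _) hsupp

private theorem SmpA_gr_apply (f : E → ℝ) (x : E) (i : Fin 3) : gr f x i = pd i f x := by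
  unfold gr
  fin_cases i <;> simp

private theorem SmpA_cont_gr {f : E → ℝ} (hf : ContDiff ℝ ∞ f) : Continuous (gr f) := by
  have h1 : gr f = fun x => WithLp.toLp 2 (fun i => pd i f x) := by
    funext x
    ext i
    rw [SmpA_gr_apply]
  rw [h1]
  exact (PiLp.continuous_toLp 2 _).comp (continuous_pi fun i =>
    (hf.continuous_fderiv (by simp)).clm_apply continuous_const)

private theorem SmpA_gr_off {f : E → ℝ} {x : E} (hx : x ∉ tsupport f) : gr f x = 0 := by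
  ext i
  rw [SmpA_gr_apply]
  unfold pd
  rw [fderiv_of_notMem_tsupport ℝ hx]
  rfl

/-- the gradient of the test function -/
private theorem SmpA_gr_test {p ε : ℝ} (hε : 0 < ε) {ζ f : E → ℝ} (hζ : ContDiff ℝ ∞ ζ) (hf : ContDiff ℝ ∞ f)
    (hf0 : ∀ x, 0 ≤ f x) (x : E) :
    gr (fun y => ζ y ^ 2 * (f y + ε) ^ (1 - p)) x =
      (2 * ζ x * (f x + ε) ^ (1 - p)) • gr ζ x - (p - 1) • ((ζ x ^ 2 * (f x + ε) ^ (-p)) • gr f x) := by
  have hζ' : HasFDerivAt ζ (fderiv ℝ ζ x) x := (hζ.differentiable (by simp) x).hasFDerivAt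
  have hf' : HasFDerivAt f (fderiv ℝ f x) x := (hf.differentiable (by simp) x).hasFDerivAt
  have hne : f x + ε ≠ 0 := by have := hf0 x; positivity
  have h1 := (hζ'.pow 2).mul ((hf'.add_const ε).rpow_const (p := 1 - p) (Or.inl hne))
  ext i
  rw [SmpA_gr_apply]
  unfold pd
  have h2 : (fun y => ζ y ^ 2 * (f y + ε) ^ (1 - p)) =
      ((fun y => ζ y ^ 2) * fun y => (f y + ε) ^ (1 - p)) := rfl
  rw [h2, h1.fderiv]
  have e : 1 - p - 1 = -p := by ring
  simp only [PiLp.sub_apply, PiLp.smul_apply, smul_eq_mul, SmpA_gr_apply, e, pd]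
  simp
  ring

private theorem SmpA_int {K' : Set E} (hK' : IsCompact K') {F : E → E} (hF : Integrable F (volume.restrict K'))
    {W : E → E} (hW : Continuous W) : Integrable (fun x => ⟪F x, W x⟫) (volume.restrict K') := by
  obtain ⟨B, hB⟩ := hK'.exists_bound_of_continuousOn hW.continuousOn
  refine (hF.norm.mul_const B).mono' (hF.1.inner hW.aestronglyMeasurable) ?_
  refine (ae_restrict_iff' hK'.measurableSet).2 (Eventually.of_forall fun x hx => ?_)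
  exact (norm_inner_le_norm _ _).trans (mul_le_mul_of_nonneg_left (hB x hx) (norm_nonneg _))

private theorem SmpA_test {p q : ℝ} {ψ : E → ℝ} {G F : E → E} {e : E → ℝ} (h : SD p q ψ G F e)
    {ζ : E → ℝ} (hζ : ContDiff ℝ ∞ ζ) (hζc : HasCompactSupport ζ) (hζO : tsupport ζ ⊆ Oax)
    (hF : Integrable F (volume.restrict (tsupport ζ)))
    {f : E → ℝ} (hf : ContDiff ℝ ∞ f) (hf0 : ∀ x, 0 ≤ f x) {ε : ℝ} (hε : 0 < ε) :
    (p - 1) * ∫ x in tsupport ζ, ζ x ^ 2 * (f x + ε) ^ (-p) * ⟪F x, gr f x⟫ ≤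
      ∫ x in tsupport ζ, 2 * ζ x * (f x + ε) ^ (1 - p) * ⟪F x, gr ζ x⟫ := by
  have hK : IsCompact (tsupport ζ) := hζc
  have hpos : ∀ x, f x + ε ≠ 0 := fun x => by have := hf0 x; positivity
  have hr : ∀ r : ℝ, ContDiff ℝ ∞ (fun x => (f x + ε) ^ r) := fun r =>
    (hf.add contDiff_const).rpow_const_of_ne hpos
  have hη : ContDiff ℝ ∞ (fun y => ζ y ^ 2 * (f y + ε) ^ (1 - p)) := (hζ.pow 2).mul (hr _)
  have hsub : Function.support (fun y => ζ y ^ 2 * (f y + ε) ^ (1 - p)) ⊆ tsupport ζ := by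
    intro x hx
    apply subset_tsupport ζ
    intro h0
    apply hx
    simp only
    rw [h0]
    ring
  have hts : tsupport (fun y => ζ y ^ 2 * (f y + ε) ^ (1 - p)) ⊆ tsupport ζ :=
    closure_minimal hsub (isClosed_tsupport ζ)
  have hη2 : STest Oax (fun y => ζ y ^ 2 * (f y + ε) ^ (1 - p)) :=
    ⟨hη, hK.of_isClosed_subset (isClosed_tsupport _) hts, hts.trans hζO⟩
  have h1 := h.sup _ hη2 (fun x => mul_nonneg (sq_nonneg _) (Real.rpow_nonneg (by have := hf0 x; linarith) _))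
  have h2 : ∫ x, ⟪F x, gr (fun y => ζ y ^ 2 * (f y + ε) ^ (1 - p)) x⟫ =
      ∫ x in tsupport ζ, ⟪F x, gr (fun y => ζ y ^ 2 * (f y + ε) ^ (1 - p)) x⟫ := by
    refine (setIntegral_eq_integral_of_forall_compl_eq_zero fun x hx => ?_).symm
    rw [SmpA_gr_off fun h => hx (hts h), inner_zero_right]
  rw [h2] at h1
  have hW1 : Continuous fun x => (2 * ζ x * (f x + ε) ^ (1 - p)) • gr ζ x :=
    ((hζ.continuous.const_mul 2).mul (hr _).continuous).smul (SmpA_cont_gr hζ)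
  have hW2 : Continuous fun x => (ζ x ^ 2 * (f x + ε) ^ (-p)) • gr f x :=
    ((hζ.continuous.pow 2).mul (hr _).continuous).smul (SmpA_cont_gr hf)
  have hI1 := SmpA_int hK hF hW1
  have hI2 := SmpA_int hK hF hW2
  have h3 : ∫ x in tsupport ζ, ⟪F x, gr (fun y => ζ y ^ 2 * (f y + ε) ^ (1 - p)) x⟫ =
      (∫ x in tsupport ζ, ⟪F x, (2 * ζ x * (f x + ε) ^ (1 - p)) • gr ζ x⟫) -
        (p - 1) * ∫ x in tsupport ζ, ⟪F x, (ζ x ^ 2 * (f x + ε) ^ (-p)) • gr f x⟫ := by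
    rw [← integral_const_mul, ← integral_sub hI1 (hI2.const_mul _)]
    refine integral_congr_ae (Eventually.of_forall fun x => ?_)
    simp only
    rw [SmpA_gr_test hε hζ hf hf0, inner_sub_right, inner_smul_right _ _ (p - 1)]
  rw [h3] at h1
  have h4 : ∀ x, ⟪F x, (2 * ζ x * (f x + ε) ^ (1 - p)) • gr ζ x⟫ = 2 * ζ x * (f x + ε) ^ (1 - p) * ⟪F x, gr ζ x⟫ :=
    fun x => inner_smul_right _ _ _
  have h5 : ∀ x, ⟪F x, (ζ x ^ 2 * (f x + ε) ^ (-p)) • gr f x⟫ = ζ x ^ 2 * (f x + ε) ^ (-p) * ⟪F x, gr f x⟫ :=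
    fun x => inner_smul_right _ _ _
  simp only [h4, h5] at h1
  linarith

theorem log_bound {p q : ℝ} {ψ : E → ℝ} {G F : E → E} {e : E → ℝ} (h : SD p q ψ G F e)
    {K : Set E} (hK : IsCompact K) (hKO : K ⊆ Oax) :
    ∃ C : ℝ, ∀ ε : ℝ, 0 < ε → ∫ x in K, ‖G x‖ ^ p * (ψ x + ε) ^ (-p) ≤ C := by
  obtain ⟨ζ, hζ, hζc, hζO, hζ01, hζ1⟩ := SmpA_cut isOpen_Oax hK hKO
  have hK' : IsCompact (tsupport ζ) := hζc
  obtain ⟨hq2, hc, hpq1⟩ := SmpA_conj h.hp h.hp2 h.hpq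
  have hp0 : 0 < p := by linarith [h.hp]
  obtain ⟨M, hM, hMb⟩ := h.bd _ hK' hζO
  obtain ⟨L0, hL0⟩ := hK'.exists_bound_of_continuousOn (SmpA_cont_gr hζ).continuousOn
  have hL0' : ∀ x ∈ tsupport ζ, ‖gr ζ x‖ ≤ max L0 0 := fun x hx => (hL0 x hx).trans (le_max_left _ _)
  obtain ⟨C0, hC0, hyg⟩ := SmpA_young h.hp h.hp2 h.hpq hM (le_max_right L0 0)
  have hKsub : K ⊆ tsupport ζ := fun x hx => subset_tsupport ζ (by
    rw [Function.mem_support, hζ1 x hx]
    norm_num)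
  obtain ⟨μ, hμ⟩ : ∃ μ : Measure E, μ = volume.restrict (tsupport ζ) := ⟨_, rfl⟩
  have hfin : IsFiniteMeasure μ := by
    rw [hμ]
    exact ⟨by rw [Measure.restrict_apply_univ]; exact hK'.measure_lt_top⟩
  have hFq : MemLp F (ENNReal.ofReal q) μ := by rw [hμ]; exact h.LF _ hK' hζO
  have hGp : MemLp G (ENNReal.ofReal p) μ := by rw [hμ]; exact h.LG _ hK' hζO
  have hψp : MemLp ψ (ENNReal.ofReal p) μ := by rw [hμ]; exact h.Lψ _ hK' hζO
  have hei : Integrable e μ := by rw [hμ, ← memLp_one_iff_integrable]; exact h.Le _ hK' hζO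
  have hFi : Integrable F μ := hFq.integrable (by
    rw [← ENNReal.ofReal_one]
    exact ENNReal.ofReal_le_ofReal (by linarith))
  obtain ⟨f, hf1, hf2, hf3, hf4, hf5, hf6, hf7, -⟩ := approx isOpen_Oax (p := ENNReal.ofReal p)
    (by rw [← ENNReal.ofReal_one]; exact ENNReal.ofReal_le_ofReal h.hp.le) ENNReal.ofReal_ne_top
    h.Lψ h.LG h.wg hK' hζO
  have hf0 := hf3 h.nonneg
  have hen : ∀ᵐ x ∂μ, e x = ⟪F x, G x⟫ := by
    rw [hμ]
    exact ae_restrict_of_ae h.en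
  have hMb' : ∀ᵐ x ∂μ, ‖F x‖ ^ q ≤ M * e x ∧ ‖G x‖ ^ p ≤ M * e x := by rw [hμ]; exact hMb
  have he0 : ∀ᵐ x ∂μ, 0 ≤ e x := by
    filter_upwards [hMb'] with x hx
    exact nonneg_of_mul_nonneg_right ((Real.rpow_nonneg (norm_nonneg _) q).trans hx.1) hM
  refine ⟨M * (2 * (C0 * μ.real univ) / (p - 1)), fun ε hε => ?_⟩
  have hpm1 : 0 < p - 1 := by linarith [h.hp]
  have hpwm : ∀ r : ℝ, AEStronglyMeasurable (fun x => (ψ x + ε) ^ r) μ := fun r =>
    ((hψp.1.aemeasurable.add_const ε).pow_const r).aestronglyMeasurable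
  -- the limit of the test inequalities
  have hlim := SmpA_lim (L0 := max L0 0) (Z := gr ζ) (ψ := ψ) (ζ := ζ) (f := f) (g := fun n => gr (f n)) h.hp hc hε
    hFq hGp h.nonneg hf0 (fun n => (hf1 n).continuous.aestronglyMeasurable) hζ.continuous.aestronglyMeasurable hζ01
    (SmpA_cont_gr hζ).aestronglyMeasurable
    (by rw [hμ]; exact (ae_restrict_iff' hK'.measurableSet).2 (Eventually.of_forall hL0'))
    (fun n => by
      rw [hμ]
      obtain ⟨B, hB⟩ := hK'.exists_bound_of_continuousOn (SmpA_cont_gr (hf1 n)).continuousOn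
      have : IsFiniteMeasure (volume.restrict (tsupport ζ)) := by rw [← hμ]; exact hfin
      exact MemLp.of_bound (SmpA_cont_gr (hf1 n)).aestronglyMeasurable B
        ((ae_restrict_iff' hK'.measurableSet).2 (Eventually.of_forall hB)))
    (by rw [hμ]; exact hf5) (by rw [hμ]; exact hf6)
    (fun n => by
      rw [hμ]
      exact SmpA_test h hζ hζc hζO (by rw [← hμ]; exact hFi) (hf1 n) (hf0 n) hε)
  -- the energy with the weight
  obtain ⟨I, hI⟩ : ∃ I : ℝ, I = ∫ x, ζ x ^ 2 * (ψ x + ε) ^ (-p) * e x ∂μ := ⟨_, rfl⟩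
  have hIi : Integrable (fun x => ζ x ^ 2 * (ψ x + ε) ^ (-p) * e x) μ := by
    refine (hei.norm.const_mul (ε ^ (-p))).mono'
      (((hζ.continuous.aestronglyMeasurable.pow 2).mul (hpwm _)).mul hei.1) (Eventually.of_forall fun x => ?_)
    obtain ⟨h1, h2⟩ := SmpA_pw (s := ψ x) (r := -p) hε (h.nonneg x) (by linarith)
    rw [norm_mul, norm_mul, Real.norm_of_nonneg h1, Real.norm_of_nonneg (sq_nonneg (ζ x))]
    have h4 : ζ x ^ 2 * (ψ x + ε) ^ (-p) ≤ 1 * ε ^ (-p) :=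
      mul_le_mul (pow_le_one₀ (hζ01 x).1 (hζ01 x).2) h2 h1 (by norm_num)
    rw [one_mul] at h4
    exact mul_le_mul_of_nonneg_right h4 (norm_nonneg _)
  have hL : ∫ x, ζ x ^ 2 * (ψ x + ε) ^ (-p) * ⟪F x, G x⟫ ∂μ = I := by
    rw [hI]
    refine integral_congr_ae ?_
    filter_upwards [hen] with x hx
    rw [hx]
  rw [hL] at hlim
  have hup : ∫ x, 2 * ζ x * (ψ x + ε) ^ (1 - p) * ⟪F x, gr ζ x⟫ ∂μ ≤ (p - 1) / 2 * I + C0 * μ.real univ := by
    have h1 : ∫ x, 2 * ζ x * (ψ x + ε) ^ (1 - p) * ⟪F x, gr ζ x⟫ ∂μ ≤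
        ∫ x, ((p - 1) / 2 * (ζ x ^ 2 * (ψ x + ε) ^ (-p) * e x) + C0) ∂μ := by
      refine integral_mono_ae ?_ ((hIi.const_mul _).add (integrable_const C0)) ?_
      · refine (hFi.norm.const_mul (2 * ε ^ (1 - p) * max L0 0)).mono'
          (((hζ.continuous.aestronglyMeasurable.const_mul 2).mul (hpwm _)).mul
            (hFi.1.inner (SmpA_cont_gr hζ).aestronglyMeasurable)) ?_
        have hLL : ∀ᵐ x ∂μ, ‖gr ζ x‖ ≤ max L0 0 := by
          rw [hμ]
          exact (ae_restrict_iff' hK'.measurableSet).2 (Eventually.of_forall hL0')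
        filter_upwards [hLL] with x hx
        obtain ⟨h1, h2⟩ := SmpA_pw (s := ψ x) (r := 1 - p) hε (h.nonneg x) (by linarith)
        rw [norm_mul, norm_mul, norm_mul, Real.norm_of_nonneg h1, Real.norm_of_nonneg (hζ01 x).1, Real.norm_ofNat]
        have h3 : ‖⟪F x, gr ζ x⟫‖ ≤ ‖F x‖ * max L0 0 :=
          (norm_inner_le_norm _ _).trans (mul_le_mul_of_nonneg_left hx (norm_nonneg _))
        have h4 : 2 * ζ x * (ψ x + ε) ^ (1 - p) ≤ 2 * 1 * ε ^ (1 - p) :=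
          mul_le_mul (mul_le_mul_of_nonneg_left (hζ01 x).2 (by norm_num)) h2 h1 (by norm_num)
        calc 2 * ζ x * (ψ x + ε) ^ (1 - p) * ‖⟪F x, gr ζ x⟫‖ ≤ 2 * 1 * ε ^ (1 - p) * (‖F x‖ * max L0 0) :=
              mul_le_mul h4 h3 (norm_nonneg _) (by positivity)
          _ = 2 * ε ^ (1 - p) * max L0 0 * ‖F x‖ := by ring
      · have hLL : ∀ᵐ x ∂μ, ‖gr ζ x‖ ≤ max L0 0 := by
          rw [hμ]
          exact (ae_restrict_iff' hK'.measurableSet).2 (Eventually.of_forall hL0')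
        filter_upwards [hMb', hLL] with x hx hxL
        have hs : 0 < ψ x + ε := by have := h.nonneg x; linarith
        have h2 := hyg (ζ x) (ψ x + ε) ‖F x‖ ‖gr ζ x‖ (e x) (hζ01 x).1 (hζ01 x).2 hs (norm_nonneg _)
          (norm_nonneg _) hxL hx.1
        refine le_trans ?_ h2
        refine mul_le_mul_of_nonneg_left (real_inner_le_norm _ _) ?_
        have h3 := (hζ01 x).1
        positivity
    refine h1.trans (le_of_eq ?_)
    rw [integral_add (hIi.const_mul _) (integrable_const C0), integral_const_mul, ← hI, integral_const,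
      smul_eq_mul, mul_comm C0]
  have hI2 : I ≤ 2 * (C0 * μ.real univ) / (p - 1) := by
    rw [le_div_iff₀ hpm1]
    nlinarith
  -- the set `K`
  calc ∫ x in K, ‖G x‖ ^ p * (ψ x + ε) ^ (-p) ≤ ∫ x in K, M * (ζ x ^ 2 * (ψ x + ε) ^ (-p) * e x) := by
        have hμK : volume.restrict K ≤ μ := by
          rw [hμ]
          exact Measure.restrict_mono_set volume hKsub
        refine integral_mono_of_nonneg (Eventually.of_forall fun x => ?_) ((hIi.const_mul M).mono_measure hμK) ?_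
        · have := h.nonneg x
          positivity
        · have h1 : ∀ᵐ x ∂(volume.restrict K), ‖F x‖ ^ q ≤ M * e x ∧ ‖G x‖ ^ p ≤ M * e x := ae_mono hμK hMb'
          have h2 : ∀ᵐ x ∂(volume.restrict K), ζ x = 1 :=
            (ae_restrict_iff' hK.measurableSet).2 (Eventually.of_forall hζ1)
          filter_upwards [h1, h2] with x hx hx1
          rw [hx1]
          have h3 : 0 ≤ (ψ x + ε) ^ (-p) := Real.rpow_nonneg (by have := h.nonneg x; linarith) _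
          have h4 := mul_le_mul_of_nonneg_right hx.2 h3
          linarith
    _ ≤ ∫ x, M * (ζ x ^ 2 * (ψ x + ε) ^ (-p) * e x) ∂μ := by
        have hμK : volume.restrict K ≤ μ := by
          rw [hμ]
          exact Measure.restrict_mono_set volume hKsub
        refine integral_mono_measure hμK ?_ (hIi.const_mul M)
        filter_upwards [he0] with x hx
        have h3 : 0 ≤ (ψ x + ε) ^ (-p) := Real.rpow_nonneg (by have := h.nonneg x; linarith) _
        have h4 := sq_nonneg (ζ x)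
        positivity
    _ = M * I := by rw [integral_const_mul, ← hI]
    _ ≤ M * (2 * (C0 * μ.real univ) / (p - 1)) := mul_le_mul_of_nonneg_left hI2 hM.le

end Pool.CQ
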