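import Pool.Agent.Lib.MP_cd5b91_an.CQ.Defs

/-!
# CQ-SmpB
-/

open MeasureTheory Filter Topology Set
open scoped ContDiff RealInnerProductSpace ENNReal

namespace Pool.CQ

private theorem fderiv_apply_eq (w : E → ℝ) (p v : E) :
    fderiv ℝ w p v = ⟪gr w p, v⟫ := by
  have hv : v = ∑ i : Fin 3, v i • EuclideanSpace.single i (1 : ℝ) := by
    ext j
    simp [Fin.sum_univ_three]
    fin_cases j <;> simp
  conv_lhs => rw [hv]
  simp only [Fin.sum_univ_three]
  simp only [gr, pd, PiLp.inner_apply, Fin.sum_univ_three]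
  simp

private theorem fderiv_enorm_le (w : E → ℝ) (p v : E) :
    ‖fderiv ℝ w p v‖ₑ ≤ ‖gr w p‖ₑ * ‖v‖ₑ := by
  rw [fderiv_apply_eq]
  have h := norm_inner_le_norm (𝕜 := ℝ) (gr w p) v
  rw [← ofReal_norm, ← ofReal_norm, ← ofReal_norm,
    ← ENNReal.ofReal_mul (norm_nonneg _)]
  exact ENNReal.ofReal_le_ofReal h

private theorem gr_cont {w : E → ℝ} (hw : ContDiff ℝ 1 w) : Continuous (gr w) := by
  have h1 : Continuous (fderiv ℝ w) := hw.continuous_fderiv one_ne_zero
  have h2 : ∀ i : Fin 3, Continuous fun x => pd i w x := fun i => by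
    unfold pd
    exact h1.clm_apply continuous_const
  have h3 : Continuous fun x => (fun i : Fin 3 => pd i w x) := continuous_pi h2
  have h4 : gr w = fun x => (WithLp.toLp 2 (fun i : Fin 3 => pd i w x) : E) := by
    funext x
    ext i
    fin_cases i <;> simp [gr]
  rw [h4]
  exact (PiLp.continuous_toLp 2 _).comp h3

/-- the pointwise estimate -/
private theorem pointwise {w : E → ℝ} (hw : ContDiff ℝ 1 w) {x z x₀ : E} {R : ℝ}
    (hx : x ∈ Metric.ball x₀ R) (hz : z ∈ Metric.ball x₀ R) (h0 : w z = 0) :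
    ‖w x‖ₑ ≤ ENNReal.ofReal (2 * R) * ∫⁻ t in Ioc (0 : ℝ) 1,
      (Metric.ball x₀ R).indicator (fun p => ‖gr w p‖ₑ) (z + t • (x - z)) := by
  have hd : ∀ t : ℝ, HasDerivAt (fun s : ℝ => w (z + s • (x - z)))
      (fderiv ℝ w (z + t • (x - z)) (x - z)) t := by
    intro t
    have h1 : HasDerivAt (fun s : ℝ => z + s • (x - z)) (x - z) t := by
      simpa using ((hasDerivAt_id t).smul_const (x - z)).const_add z
    exact ((hw.differentiable one_ne_zero _).hasFDerivAt).comp_hasDerivAt t h1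
  have hc : Continuous fun t : ℝ => fderiv ℝ w (z + t • (x - z)) (x - z) := by
    have h1 : Continuous (fderiv ℝ w) := hw.continuous_fderiv one_ne_zero
    have h2 : Continuous fun t : ℝ => z + t • (x - z) := by fun_prop
    exact (h1.comp h2).clm_apply continuous_const
  have hint : w x = ∫ t in (0 : ℝ)..1, fderiv ℝ w (z + t • (x - z)) (x - z) := by
    rw [intervalIntegral.integral_eq_sub_of_hasDerivAt (fun t _ => hd t)
      (hc.intervalIntegrable _ _)]
    simp [h0]
  rw [hint, intervalIntegral.integral_of_le zero_le_one]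
  refine (enorm_integral_le_lintegral_enorm _).trans ?_
  rw [← lintegral_const_mul' _ _ ENNReal.ofReal_ne_top]
  refine setLIntegral_mono' measurableSet_Ioc ?_
  intro t ht
  have hmem : z + t • (x - z) ∈ Metric.ball x₀ R := by
    have := (convex_ball x₀ R).add_smul_sub_mem hz hx ⟨ht.1.le, ht.2⟩
    exact this
  rw [indicator_of_mem hmem]
  refine (fderiv_enorm_le w _ _).trans ?_
  rw [mul_comm]
  gcongr
  rw [← ofReal_norm]
  apply ENNReal.ofReal_le_ofReal
  have h1 : dist x z ≤ dist x x₀ + dist z x₀ := dist_triangle_right _ _ _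
  rw [← dist_eq_norm]
  have h2 := Metric.mem_ball.1 hx
  have h3 := Metric.mem_ball.1 hz
  linarith

private theorem scale (H : E → ℝ≥0∞) (hH : Measurable H) (a : E) {t : ℝ} (ht : 1 / 2 ≤ t) :
    ∫⁻ x, H (a + t • x) ≤ 8 * ∫⁻ x, H x := by
  have ht1 : 0 < t := by linarith
  have hmeas : Measurable fun y : E => H (a + y) := hH.comp (measurable_const_add a)
  have h1 : ∫⁻ x, H (a + t • x) = ∫⁻ y, H (a + y) ∂(Measure.map (fun x : E => t • x) volume) := by
    rw [lintegral_map hmeas (measurable_const_smul t)]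
  rw [h1, Measure.map_addHaar_smul volume ht1.ne', lintegral_smul_measure,
    lintegral_add_left_eq_self, smul_eq_mul]
  gcongr
  rw [finrank_euclideanSpace_fin, abs_of_pos (by positivity)]
  have h2 : (t ^ 3)⁻¹ ≤ 8 := by
    rw [inv_le_comm₀ (by positivity) (by norm_num)]
    have : (1 / 2 : ℝ) ^ 3 ≤ t ^ 3 := by gcongr
    norm_num at this ⊢
    linarith
  calc ENNReal.ofReal (t ^ 3)⁻¹ ≤ ENNReal.ofReal 8 := ENNReal.ofReal_le_ofReal h2
    _ = 8 := by norm_num

/-- part `t ≥ 1/2` -/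
private theorem partA (H : E → ℝ≥0∞) (hH : Measurable H) (S S' : Set E) :
    ∫⁻ x in S, ∫⁻ z in S', ∫⁻ t in Ioc (1 / 2 : ℝ) 1, H (z + t • (x - z))
      ≤ volume S' * (8 * ∫⁻ x, H x) := by
  have hm : Measurable fun q : (E × E) × ℝ => H (q.1.2 + q.2 • (q.1.1 - q.1.2)) :=
    hH.comp (by fun_prop)
  rw [lintegral_lintegral_swap]
  · calc ∫⁻ z in S', ∫⁻ x in S, ∫⁻ t in Ioc (1 / 2 : ℝ) 1, H (z + t • (x - z))
        = ∫⁻ z in S', ∫⁻ t in Ioc (1 / 2 : ℝ) 1, ∫⁻ x in S, H (z + t • (x - z)) := by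
          refine lintegral_congr fun z => ?_
          rw [lintegral_lintegral_swap]
          exact (hH.comp (by fun_prop : Measurable fun q : E × ℝ => z + q.2 • (q.1 - z))).aemeasurable
      _ ≤ ∫⁻ z in S', ∫⁻ t in Ioc (1 / 2 : ℝ) 1, 8 * ∫⁻ x, H x := by
          refine lintegral_mono fun z => setLIntegral_mono' measurableSet_Ioc fun t ht => ?_
          refine (setLIntegral_le_lintegral _ _).trans ?_
          have := scale H hH (z - t • z) ht.1.le
          refine le_trans (le_of_eq ?_) this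
          refine lintegral_congr fun x => ?_
          congr 1
          rw [smul_sub]; abel
      _ ≤ ∫⁻ z in S', 8 * ∫⁻ x, H x := by
          refine lintegral_mono fun z => ?_
          rw [setLIntegral_const, Real.volume_Ioc]
          calc (8 * ∫⁻ x, H x) * ENNReal.ofReal (1 - 1 / 2) ≤ (8 * ∫⁻ x, H x) * 1 := by
                gcongr
                rw [← ENNReal.ofReal_one]
                exact ENNReal.ofReal_le_ofReal (by norm_num)
            _ = _ := mul_one _
      _ = volume S' * (8 * ∫⁻ x, H x) := by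
          rw [setLIntegral_const, mul_comm]
  · exact (hm.lintegral_prod_right').aemeasurable

/-- part `t ≤ 1/2` -/
private theorem partB (H : E → ℝ≥0∞) (hH : Measurable H) (S S' : Set E) :
    ∫⁻ x in S, ∫⁻ z in S', ∫⁻ t in Ioc (0 : ℝ) (1 / 2), H (z + t • (x - z))
      ≤ volume S * (8 * ∫⁻ x, H x) := by
  calc ∫⁻ x in S, ∫⁻ z in S', ∫⁻ t in Ioc (0 : ℝ) (1 / 2), H (z + t • (x - z))
        = ∫⁻ x in S, ∫⁻ t in Ioc (0 : ℝ) (1 / 2), ∫⁻ z in S', H (z + t • (x - z)) := by
          refine lintegral_congr fun x => ?_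
          rw [lintegral_lintegral_swap]
          exact (hH.comp (by fun_prop : Measurable fun q : E × ℝ => q.1 + q.2 • (x - q.1))).aemeasurable
      _ ≤ ∫⁻ x in S, ∫⁻ t in Ioc (0 : ℝ) (1 / 2), 8 * ∫⁻ x, H x := by
          refine lintegral_mono fun x => setLIntegral_mono' measurableSet_Ioc fun t ht => ?_
          refine (setLIntegral_le_lintegral _ _).trans ?_
          have := scale H hH (t • x) (t := 1 - t) (by linarith [ht.2])
          refine le_trans (le_of_eq ?_) this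
          refine lintegral_congr fun z => ?_
          congr 1
          rw [smul_sub, sub_smul, one_smul]; abel
      _ ≤ ∫⁻ x in S, 8 * ∫⁻ x, H x := by
          refine lintegral_mono fun z => ?_
          rw [setLIntegral_const, Real.volume_Ioc]
          calc (8 * ∫⁻ x, H x) * ENNReal.ofReal (1 / 2 - 0) ≤ (8 * ∫⁻ x, H x) * 1 := by
                gcongr
                rw [← ENNReal.ofReal_one]
                exact ENNReal.ofReal_le_ofReal (by norm_num)
            _ = _ := mul_one _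
      _ = volume S * (8 * ∫⁻ x, H x) := by
          rw [setLIntegral_const, mul_comm]

private theorem split_le (H : E → ℝ≥0∞) (hH : Measurable H) (S S' : Set E) :
    ∫⁻ x in S, ∫⁻ z in S', ∫⁻ t in Ioc (0 : ℝ) 1, H (z + t • (x - z))
      ≤ volume S' * (8 * ∫⁻ x, H x) + volume S * (8 * ∫⁻ x, H x) := by
  have hsplit : ∀ x z : E, ∫⁻ t in Ioc (0 : ℝ) 1, H (z + t • (x - z)) =
      (∫⁻ t in Ioc (1 / 2 : ℝ) 1, H (z + t • (x - z))) +
        ∫⁻ t in Ioc (0 : ℝ) (1 / 2), H (z + t • (x - z)) := by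
    intro x z
    rw [← Ioc_union_Ioc_eq_Ioc (by norm_num : (0 : ℝ) ≤ 1 / 2) (by norm_num : (1 / 2 : ℝ) ≤ 1),
      lintegral_union measurableSet_Ioc, add_comm]
    exact Ioc_disjoint_Ioc_of_le le_rfl
  have hmA : Measurable fun q : (E × E) × ℝ => H (q.1.2 + q.2 • (q.1.1 - q.1.2)) :=
    hH.comp (by fun_prop)
  have hA1 : Measurable fun q : E × E => ∫⁻ t in Ioc (1 / 2 : ℝ) 1,
      H (q.2 + t • (q.1 - q.2)) := hmA.lintegral_prod_right'
  have hA2 : ∀ x : E, Measurable fun z : E => ∫⁻ t in Ioc (1 / 2 : ℝ) 1,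
      H (z + t • (x - z)) := fun x => hA1.comp (measurable_const.prodMk measurable_id)
  have hA3 : Measurable fun x : E => ∫⁻ z in S', ∫⁻ t in Ioc (1 / 2 : ℝ) 1,
      H (z + t • (x - z)) := hA1.lintegral_prod_right'
  simp only [hsplit]
  calc ∫⁻ x in S, ∫⁻ z in S', ((∫⁻ t in Ioc (1 / 2 : ℝ) 1, H (z + t • (x - z))) +
        ∫⁻ t in Ioc (0 : ℝ) (1 / 2), H (z + t • (x - z)))
      = (∫⁻ x in S, ∫⁻ z in S', ∫⁻ t in Ioc (1 / 2 : ℝ) 1, H (z + t • (x - z))) +
        ∫⁻ x in S, ∫⁻ z in S', ∫⁻ t in Ioc (0 : ℝ) (1 / 2), H (z + t • (x - z)) := by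
        rw [← lintegral_add_left hA3]
        refine lintegral_congr fun x => ?_
        rw [lintegral_add_left (hA2 x)]
    _ ≤ volume S' * (8 * ∫⁻ x, H x) + volume S * (8 * ∫⁻ x, H x) :=
        add_le_add (partA H hH S S') (partB H hH S S')

private theorem main_lint {w : E → ℝ} (hw : ContDiff ℝ 1 w) {y x₀ : E} {δ R : ℝ}
    (hsub : Metric.ball y δ ⊆ Metric.ball x₀ R) (h0 : ∀ x ∈ Metric.ball y δ, w x = 0) :
    (∫⁻ x in Metric.ball x₀ R, ‖w x‖ₑ) * volume (Metric.ball y δ) ≤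
      ENNReal.ofReal (2 * R) * ((volume (Metric.ball y δ) + volume (Metric.ball x₀ R)) *
        (8 * ∫⁻ x in Metric.ball x₀ R, ‖gr w x‖ₑ)) := by
  have hSm : MeasurableSet (Metric.ball x₀ R) := Metric.isOpen_ball.measurableSet
  have hSm' : MeasurableSet (Metric.ball y δ) := Metric.isOpen_ball.measurableSet
  have hH : Measurable ((Metric.ball x₀ R).indicator (fun p => ‖gr w p‖ₑ)) :=
    ((gr_cont hw).measurable.enorm).indicator hSm
  have hHi : ∫⁻ x, (Metric.ball x₀ R).indicator (fun p => ‖gr w p‖ₑ) x =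
    ∫⁻ x in Metric.ball x₀ R, ‖gr w x‖ₑ := lintegral_indicator hSm _
  have hsp := split_le _ hH (Metric.ball x₀ R) (Metric.ball y δ)
  rw [hHi] at hsp
  have h1 : (∫⁻ x in Metric.ball x₀ R, ‖w x‖ₑ) * volume (Metric.ball y δ)
      = ∫⁻ x in Metric.ball x₀ R, ∫⁻ z in Metric.ball y δ, ‖w x‖ₑ := by
    rw [← lintegral_mul_const' _ _ (measure_ball_lt_top.ne)]
    refine lintegral_congr fun x => ?_
    rw [setLIntegral_const]
  have h2 : ∫⁻ x in Metric.ball x₀ R, ∫⁻ z in Metric.ball y δ, ‖w x‖ₑ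
      ≤ ∫⁻ x in Metric.ball x₀ R, ∫⁻ z in Metric.ball y δ, ENNReal.ofReal (2 * R) *
        ∫⁻ t in Ioc (0 : ℝ) 1,
          (Metric.ball x₀ R).indicator (fun p => ‖gr w p‖ₑ) (z + t • (x - z)) := by
    refine setLIntegral_mono' hSm fun x hx => ?_
    refine setLIntegral_mono' hSm' fun z hz => ?_
    exact pointwise hw hx (hsub hz) (h0 z hz)
  have h3 : ∫⁻ x in Metric.ball x₀ R, ∫⁻ z in Metric.ball y δ, ENNReal.ofReal (2 * R) *
        ∫⁻ t in Ioc (0 : ℝ) 1,
          (Metric.ball x₀ R).indicator (fun p => ‖gr w p‖ₑ) (z + t • (x - z))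
      = ENNReal.ofReal (2 * R) * ∫⁻ x in Metric.ball x₀ R, ∫⁻ z in Metric.ball y δ,
        ∫⁻ t in Ioc (0 : ℝ) 1,
          (Metric.ball x₀ R).indicator (fun p => ‖gr w p‖ₑ) (z + t • (x - z)) := by
    rw [← lintegral_const_mul' _ _ ENNReal.ofReal_ne_top]
    refine lintegral_congr fun x => ?_
    rw [← lintegral_const_mul' _ _ ENNReal.ofReal_ne_top]
  rw [h1]
  refine h2.trans ?_
  rw [h3, add_mul]
  exact mul_le_mul_right hsp _

theorem poincare {y x₀ : E} {δ R : ℝ} (hδ : 0 < δ) (hsub : Metric.ball y δ ⊆ Metric.ball x₀ R) :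
    ∃ C : ℝ, ∀ w : E → ℝ, ContDiff ℝ 1 w → (∀ x ∈ Metric.ball y δ, w x = 0) →
      ∫ x in Metric.ball x₀ R, |w x| ≤ C * ∫ x in Metric.ball x₀ R, ‖gr w x‖ := by
  set V' := (volume (Metric.ball y δ)).toReal with hV'
  set V := (volume (Metric.ball x₀ R)).toReal with hV
  have hV'pos : 0 < V' := ENNReal.toReal_pos (Metric.measure_ball_pos _ _ hδ).ne' measure_ball_lt_top.ne
  refine ⟨2 * R * ((V' + V) * 8) / V', ?_⟩
  intro w hw h0
  have hR : 0 < R := by
    have : y ∈ Metric.ball x₀ R := hsub (Metric.mem_ball_self hδ)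
    exact Metric.nonempty_ball.1 ⟨y, this⟩
  have key := main_lint hw hsub h0
  have hbdd : ∀ g : E → ℝ, Continuous g → IntegrableOn g (Metric.ball x₀ R) := fun g hg =>
    (hg.continuousOn.integrableOn_compact (isCompact_closedBall x₀ R)).mono_set
      Metric.ball_subset_closedBall
  have e1 : (∫⁻ x in Metric.ball x₀ R, ‖w x‖ₑ) =
      ENNReal.ofReal (∫ x in Metric.ball x₀ R, |w x|) := by
    rw [← ofReal_integral_norm_eq_lintegral_enorm (hbdd w hw.continuous)]
    rfl
  have e2 : (∫⁻ x in Metric.ball x₀ R, ‖gr w x‖ₑ) =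
      ENNReal.ofReal (∫ x in Metric.ball x₀ R, ‖gr w x‖) := by
    have hi : IntegrableOn (fun x => ‖gr w x‖) (Metric.ball x₀ R) :=
      hbdd _ (gr_cont hw).norm
    rw [ofReal_integral_eq_lintegral_ofReal hi (Eventually.of_forall fun x => norm_nonneg _)]
    simp only [ofReal_norm]
  rw [e1, e2] at key
  set a := ∫ x in Metric.ball x₀ R, |w x| with ha
  set b := ∫ x in Metric.ball x₀ R, ‖gr w x‖ with hb
  have ha0 : 0 ≤ a := integral_nonneg fun x => abs_nonneg _
  have hb0 : 0 ≤ b := integral_nonneg fun x => norm_nonneg _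
  have hfin1 : volume (Metric.ball y δ) ≠ ⊤ := measure_ball_lt_top.ne
  have hfin2 : volume (Metric.ball x₀ R) ≠ ⊤ := measure_ball_lt_top.ne
  have key2 : a * V' ≤ 2 * R * ((V' + V) * (8 * b)) := by
    have h3 := ENNReal.toReal_mono ?_ key
    · rw [ENNReal.toReal_mul, ENNReal.toReal_ofReal ha0, ENNReal.toReal_mul,
        ENNReal.toReal_ofReal (by positivity), ENNReal.toReal_mul, ENNReal.toReal_add hfin1 hfin2,
        ENNReal.toReal_mul, ENNReal.toReal_ofReal hb0] at h3
      have h8 : (8 : ℝ≥0∞).toReal = 8 := rfl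
      rw [h8] at h3
      exact h3
    · refine ENNReal.mul_ne_top ENNReal.ofReal_ne_top (ENNReal.mul_ne_top
        (ENNReal.add_ne_top.2 ⟨hfin1, hfin2⟩) (ENNReal.mul_ne_top (by norm_num) ENNReal.ofReal_ne_top))
  rw [div_mul_eq_mul_div, le_div_iff₀ hV'pos]
  calc a * V' ≤ 2 * R * ((V' + V) * (8 * b)) := key2
    _ = _ := by ring

end Pool.CQ
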