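import Pool.Agent.Lib.MP_cd5b91_an.CQ.SmpA
import Pool.Agent.Lib.MP_cd5b91_an.CQ.SmpB
import Pool.Agent.Lib.MP_cd5b91_an.CQ.Alg

/-!
# CQ-SmpC
-/

open MeasureTheory Filter Topology Set
open scoped ContDiff RealInnerProductSpace ENNReal

namespace Pool.CQ

private theorem SmpC_pd {g : E → ℝ} (hg : ContDiff ℝ ∞ g) (h0 : ∀ x, 0 ≤ g x) {ε : ℝ} (hε : 0 < ε)
    (i : Fin 3) (x : E) :
    pd i (fun y => Real.log (1 + g y / ε)) x = (g x + ε)⁻¹ * pd i g x := by
  have hd : HasFDerivAt g (fderiv ℝ g x) x :=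
    ((hg.differentiable (by simp)) x).hasFDerivAt
  have h1 : HasFDerivAt (fun y => 1 + g y / ε) (ε⁻¹ • fderiv ℝ g x) x := by
    have h2 := (hd.const_mul ε⁻¹).const_add 1
    refine h2.congr_of_eventuallyEq (Filter.Eventually.of_forall fun y => ?_)
    simp only [div_eq_inv_mul]
  have hne : (1 + g x / ε) ≠ 0 := by
    have : 0 ≤ g x / ε := div_nonneg (h0 x) hε.le
    linarith
  have h3 := (h1.log hne).fderiv
  unfold pd
  rw [h3]
  simp only [FunLike.coe_smul, Pi.smul_apply, smul_eq_mul]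
  have h4 : 0 ≤ g x := h0 x
  have h5 : g x + ε ≠ 0 := by linarith
  rw [← mul_assoc]
  congr 1
  field_simp
  ring

private theorem SmpC_gr {g : E → ℝ} (hg : ContDiff ℝ ∞ g) (h0 : ∀ x, 0 ≤ g x) {ε : ℝ} (hε : 0 < ε)
    (x : E) :
    gr (fun y => Real.log (1 + g y / ε)) x = (g x + ε)⁻¹ • gr g x := by
  ext i
  fin_cases i <;> simp [gr, SmpC_pd hg h0 hε]

private theorem SmpC_cont {g : E → ℝ} (hg : ContDiff ℝ ∞ g) : Continuous (gr g) := by
  have h1 : ∀ i, Continuous (pd i g) := fun i =>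
    (hg.continuous_fderiv (by simp)).clm_apply continuous_const
  unfold gr
  refine (PiLp.continuous_toLp 2 _).comp (continuous_pi fun i => ?_)
  fin_cases i
  · exact h1 0
  · exact h1 1
  · exact h1 2

private theorem SmpC_L1 {F : Type} [NormedAddCommGroup F] {μ ν : Measure E} [IsFiniteMeasure ν]
    (hν : ν ≤ μ) {p : ℝ} (hp : 1 < p) {g : ℕ → E → F} (hm : ∀ n, AEStronglyMeasurable (g n) ν)
    (h : Tendsto (fun n => eLpNorm (g n) (ENNReal.ofReal p) μ) atTop (𝓝 0)) :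
    Tendsto (fun n => ∫⁻ x, ‖g n x‖ₑ ∂ν) atTop (𝓝 0) := by
  have hp1 : 1 ≤ ENNReal.ofReal p := by rw [ENNReal.one_le_ofReal]; exact hp.le
  have h1 : ∀ n, ∫⁻ x, ‖g n x‖ₑ ∂ν ≤ eLpNorm (g n) (ENNReal.ofReal p) μ *
      ν univ ^ (1 / (1 : ℝ≥0∞).toReal - 1 / (ENNReal.ofReal p).toReal) := by
    intro n
    rw [← eLpNorm_one_eq_lintegral_enorm]
    refine (eLpNorm_le_eLpNorm_mul_rpow_measure_univ hp1 (hm n)).trans ?_
    gcongr
  refine tendsto_of_tendsto_of_tendsto_of_le_of_le tendsto_const_nhds ?_ (fun _ => zero_le) h1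
  have hc : ν univ ^ (1 / (1 : ℝ≥0∞).toReal - 1 / (ENNReal.ofReal p).toReal) ≠ ⊤ := by
    refine ENNReal.rpow_ne_top_of_nonneg ?_ (measure_ne_top ν univ)
    rw [ENNReal.toReal_ofReal (by linarith), ENNReal.toReal_one]
    have : 1 / p ≤ 1 := by rw [div_le_one (by linarith)]; exact hp.le
    linarith
  have h2 := ENNReal.Tendsto.mul_const h (Or.inr hc)
  rwa [zero_mul] at h2

private theorem SmpC_lip {a b ε : ℝ} (ha : 0 ≤ a) (hb : 0 ≤ b) (hε : 0 < ε) :
    |Real.log (1 + a / ε) - Real.log (1 + b / ε)| ≤ |a - b| / ε := by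
  have key : ∀ a b : ℝ, 0 ≤ a → 0 ≤ b →
      Real.log (1 + a / ε) - Real.log (1 + b / ε) ≤ |a - b| / ε := by
    intro a b ha hb
    have ha' : 0 ≤ a / ε := div_nonneg ha hε.le
    have hb' : 0 ≤ b / ε := div_nonneg hb hε.le
    rw [← Real.log_div (by linarith) (by linarith)]
    have h1 := Real.log_le_sub_one_of_pos (show 0 < (1 + a / ε) / (1 + b / ε) by positivity)
    refine h1.trans ?_
    have h2 : (1 + a / ε) / (1 + b / ε) - 1 = ((a - b) / ε) / (1 + b / ε) := by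
      field_simp
      ring
    rw [h2]
    have h3 : (a - b) / ε ≤ |a - b| / ε := div_le_div_of_nonneg_right (le_abs_self _) hε.le
    rw [div_le_iff₀ (by linarith)]
    have h4 : 0 ≤ |a - b| / ε := by positivity
    nlinarith
  rw [abs_le]
  refine ⟨?_, key a b ha hb⟩
  have := key b a hb ha
  rw [abs_sub_comm] at this
  linarith

private theorem SmpC_log_nonneg {a ε : ℝ} (ha : 0 ≤ a) (hε : 0 < ε) : 0 ≤ Real.log (1 + a / ε) :=
  Real.log_nonneg (by have := div_nonneg ha hε.le; linarith)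

private theorem SmpC_log_le {a ε : ℝ} (ha : 0 ≤ a) (hε : 0 < ε) :
    Real.log (1 + a / ε) ≤ a / ε := by
  have h0 := div_nonneg ha hε.le
  have := Real.log_le_sub_one_of_pos (show 0 < 1 + a / ε by linarith)
  linarith

private theorem SmpC_aesm {ν : Measure E} {φ : E → ℝ} (h : AEStronglyMeasurable φ ν) (ε : ℝ) :
    AEStronglyMeasurable (fun x => Real.log (1 + φ x / ε)) ν :=
  (Real.measurable_log.comp_aemeasurable
    ((h.aemeasurable.div_const ε).const_add 1)).aestronglyMeasurable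

private theorem SmpC_int {ν : Measure E} {φ : E → ℝ} (h : Integrable φ ν) (h0 : ∀ x, 0 ≤ φ x) {ε : ℝ}
    (hε : 0 < ε) : Integrable (fun x => Real.log (1 + φ x / ε)) ν := by
  refine Integrable.mono' (h.div_const ε) (SmpC_aesm h.aestronglyMeasurable ε)
    (Eventually.of_forall fun x => ?_)
  rw [Real.norm_eq_abs, abs_of_nonneg (SmpC_log_nonneg (h0 x) hε)]
  exact SmpC_log_le (h0 x) hε

private theorem SmpC_key {p : ℝ} (hp : 1 < p) {ν μ : Measure E} [IsFiniteMeasure ν] (hνμ : ν ≤ μ)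
    {ψ : E → ℝ} {G : E → E} (hψ0 : ∀ x, 0 ≤ ψ x) (hψ : MemLp ψ (ENNReal.ofReal p) μ)
    (hG : MemLp G (ENNReal.ofReal p) μ) {f : ℕ → E → ℝ} (hfs : ∀ n, ContDiff ℝ ∞ (f n))
    (hf0 : ∀ n x, 0 ≤ f n x)
    (hfL : Tendsto (fun n => eLpNorm (fun x => f n x - ψ x) (ENNReal.ofReal p) μ) atTop (𝓝 0))
    (hgL : Tendsto (fun n => eLpNorm (fun x => gr (f n) x - G x) (ENNReal.ofReal p) μ) atTop (𝓝 0))
    (hfa : ∀ᵐ x ∂μ, Tendsto (fun n => f n x) atTop (𝓝 (ψ x)))
    (hfi : ∀ n, Integrable (f n) ν) (hgi : ∀ n, Integrable (gr (f n)) ν) {C C₁ : ℝ}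
    (hC : ∀ᶠ n in atTop, ∀ ε : ℝ, 0 < ε → ∫ x, |Real.log (1 + f n x / ε)| ∂ν ≤
      C * ∫ x, ‖gr (fun y => Real.log (1 + f n y / ε)) x‖ ∂ν)
    {ε : ℝ} (hε : 0 < ε) (hC₁ : ∫ x, ‖G x‖ ^ p * (ψ x + ε) ^ (-p) ∂μ ≤ C₁) :
    ∫ x, Real.log (1 + ψ x / ε) ∂ν ≤ |C| * (ν.real univ + C₁) := by
  have hp1 : 1 ≤ ENNReal.ofReal p := by rw [ENNReal.one_le_ofReal]; exact hp.le
  have hψ1 : Integrable ψ ν := memLp_one_iff_integrable.1 ((hψ.mono_measure hνμ).mono_exponent hp1)
  have hG1 : Integrable G ν := memLp_one_iff_integrable.1 ((hG.mono_measure hνμ).mono_exponent hp1)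
  have T1 := SmpC_L1 hνμ hp (fun n => (hfi n).aestronglyMeasurable.sub hψ1.aestronglyMeasurable) hfL
  have T2 := SmpC_L1 hνμ hp (fun n => (hgi n).aestronglyMeasurable.sub hG1.aestronglyMeasurable) hgL
  -- the left side
  have L : Tendsto (fun n => ∫ x, Real.log (1 + f n x / ε) ∂ν) atTop
      (𝓝 (∫ x, Real.log (1 + ψ x / ε) ∂ν)) := by
    refine tendsto_integral_of_L1 _ (SmpC_aesm hψ1.aestronglyMeasurable ε)
      (Eventually.of_forall fun n => SmpC_int (hfi n) (hf0 n) hε) ?_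
    have h1 : ∀ n, ∫⁻ x, ‖Real.log (1 + f n x / ε) - Real.log (1 + ψ x / ε)‖ₑ ∂ν ≤
        ENNReal.ofReal (1 / ε) * ∫⁻ x, ‖f n x - ψ x‖ₑ ∂ν := by
      intro n
      rw [← lintegral_const_mul' _ _ ENNReal.ofReal_ne_top]
      refine lintegral_mono fun x => ?_
      rw [Real.enorm_eq_ofReal_abs, Real.enorm_eq_ofReal_abs, ← ENNReal.ofReal_mul (by positivity)]
      refine ENNReal.ofReal_le_ofReal ((SmpC_lip (hf0 n x) (hψ0 x) hε).trans (le_of_eq ?_))
      ring
    refine tendsto_of_tendsto_of_tendsto_of_le_of_le tendsto_const_nhds ?_ (fun _ => zero_le) h1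
    have h2 := ENNReal.Tendsto.const_mul T1 (Or.inr (ENNReal.ofReal_ne_top (r := 1 / ε)))
    rwa [mul_zero] at h2
  -- the right side
  have R1 : Tendsto (fun n => ∫ x, ‖gr (f n) x - G x‖ ∂ν) atTop (𝓝 0) := by
    have h1 : ∀ n, ∫ x, ‖gr (f n) x - G x‖ ∂ν = (∫⁻ x, ‖gr (f n) x - G x‖ₑ ∂ν).toReal := fun n =>
      integral_norm_eq_lintegral_enorm
        ((hgi n).aestronglyMeasurable.sub hG1.aestronglyMeasurable)
    simp only [h1]
    have h2 := (ENNReal.tendsto_toReal ENNReal.zero_ne_top).comp T2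
    exact h2
  have hGm : ∀ φ : E → ℝ, AEStronglyMeasurable φ ν →
      AEStronglyMeasurable (fun x => ‖G x‖ / (φ x + ε)) ν := fun φ hφ =>
    (hG1.aestronglyMeasurable.norm.aemeasurable.div
      (hφ.aemeasurable.add_const ε)).aestronglyMeasurable
  have hGb : ∀ φ : E → ℝ, (∀ x, 0 ≤ φ x) → ∀ x, ‖‖G x‖ / (φ x + ε)‖ ≤ ‖G x‖ / ε := by
    intro φ h0 x
    have h1 := h0 x
    rw [Real.norm_eq_abs, abs_of_nonneg (by positivity)]
    exact div_le_div_of_nonneg_left (norm_nonneg _) hε (by linarith)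
  have R2 : Tendsto (fun n => ∫ x, ‖G x‖ / (f n x + ε) ∂ν) atTop
      (𝓝 (∫ x, ‖G x‖ / (ψ x + ε) ∂ν)) := by
    refine tendsto_integral_of_dominated_convergence (fun x => ‖G x‖ / ε)
      (fun n => hGm _ (hfi n).aestronglyMeasurable) (hG1.norm.div_const ε)
      (fun n => Eventually.of_forall (hGb _ (hf0 n))) ?_
    filter_upwards [ae_mono hνμ hfa] with x hx
    have h1 : ψ x + ε ≠ 0 := by have := hψ0 x; linarith
    exact Tendsto.div tendsto_const_nhds (hx.add_const ε) h1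
  have hgrn : ∀ n x, ‖gr (fun y => Real.log (1 + f n y / ε)) x‖ ≤
      ‖G x‖ / (f n x + ε) + 1 / ε * ‖gr (f n) x - G x‖ := by
    intro n x
    have h0 := hf0 n x
    have h1 : 0 < f n x + ε := by linarith
    rw [SmpC_gr (hfs n) (hf0 n) hε, norm_smul, norm_inv, Real.norm_eq_abs, abs_of_pos h1]
    have h2 : ‖gr (f n) x‖ ≤ ‖G x‖ + ‖gr (f n) x - G x‖ := by
      have := norm_add_le (G x) (gr (f n) x - G x)
      rwa [add_sub_cancel] at this
    calc (f n x + ε)⁻¹ * ‖gr (f n) x‖ ≤ (f n x + ε)⁻¹ * (‖G x‖ + ‖gr (f n) x - G x‖) := by gcongr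
      _ = ‖G x‖ / (f n x + ε) + (f n x + ε)⁻¹ * ‖gr (f n) x - G x‖ := by ring
      _ ≤ ‖G x‖ / (f n x + ε) + 1 / ε * ‖gr (f n) x - G x‖ := by
        have h3 : (f n x + ε)⁻¹ ≤ 1 / ε := by
          rw [one_div]
          exact inv_anti₀ hε (by linarith)
        gcongr
  have R3 : ∀ᶠ n in atTop, ∫ x, Real.log (1 + f n x / ε) ∂ν ≤
      |C| * (∫ x, ‖G x‖ / (f n x + ε) ∂ν + 1 / ε * ∫ x, ‖gr (f n) x - G x‖ ∂ν) := by
    filter_upwards [hC] with n hn
    have h1 := hn ε hε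
    have h2 : ∫ x, Real.log (1 + f n x / ε) ∂ν ≤ ∫ x, |Real.log (1 + f n x / ε)| ∂ν := by
      refine integral_mono (SmpC_int (hfi n) (hf0 n) hε) (SmpC_int (hfi n) (hf0 n) hε).abs ?_
      intro x
      exact le_abs_self _
    refine h2.trans (h1.trans ?_)
    have h3 : C * ∫ x, ‖gr (fun y => Real.log (1 + f n y / ε)) x‖ ∂ν ≤
        |C| * ∫ x, ‖gr (fun y => Real.log (1 + f n y / ε)) x‖ ∂ν :=
      mul_le_mul_of_nonneg_right (le_abs_self _) (integral_nonneg fun x => norm_nonneg _)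
    refine h3.trans (mul_le_mul_of_nonneg_left ?_ (abs_nonneg _))
    have i1 : Integrable (fun x => ‖G x‖ / (f n x + ε)) ν :=
      Integrable.mono' (hG1.norm.div_const ε) (hGm _ (hfi n).aestronglyMeasurable)
        (Eventually.of_forall (hGb _ (hf0 n)))
    have i2 : Integrable (fun x => 1 / ε * ‖gr (f n) x - G x‖) ν :=
      (((hgi n).sub hG1).norm).const_mul _
    rw [← integral_const_mul, ← integral_add i1 i2]
    exact integral_mono_of_nonneg (Eventually.of_forall fun x => norm_nonneg _) (i1.add i2)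
      (Eventually.of_forall (hgrn n))
  have hlim := le_of_tendsto_of_tendsto L
    ((R2.add (R1.const_mul (1 / ε))).const_mul |C|) R3
  rw [mul_zero, add_zero] at hlim
  refine hlim.trans (mul_le_mul_of_nonneg_left ?_ (abs_nonneg _))
  -- the bound independent of `ε`
  have hH : Integrable (fun x => ‖G x‖ ^ p * (ψ x + ε) ^ (-p)) μ := by
    have h1 := hG.integrable_norm_rpow (by
      intro h0
      rw [h0] at hp1
      exact absurd hp1 (by simp)) ENNReal.ofReal_ne_top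
    rw [ENNReal.toReal_ofReal (by linarith)] at h1
    refine Integrable.mono' (h1.mul_const (ε ^ (-p))) ?_ (Eventually.of_forall fun x => ?_)
    · exact (h1.aestronglyMeasurable.aemeasurable.mul
        ((hψ.aestronglyMeasurable.aemeasurable.add_const ε).pow_const (-p))).aestronglyMeasurable
    · have h2 := hψ0 x
      rw [Real.norm_eq_abs, abs_of_nonneg (by positivity)]
      refine mul_le_mul_of_nonneg_left ?_ (by positivity)
      exact Real.rpow_le_rpow_of_nonpos hε (by linarith) (by linarith)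
  have hHν : Integrable (fun x => ‖G x‖ ^ p * (ψ x + ε) ^ (-p)) ν := hH.mono_measure hνμ
  have h1 : ∫ x, ‖G x‖ / (ψ x + ε) ∂ν ≤ ∫ x, (1 + ‖G x‖ ^ p * (ψ x + ε) ^ (-p)) ∂ν := by
    refine integral_mono_of_nonneg (Eventually.of_forall fun x => ?_)
      ((integrable_const 1).add hHν) (Eventually.of_forall fun x => ?_)
    · have := hψ0 x
      show 0 ≤ ‖G x‖ / (ψ x + ε)
      positivity
    · have h2 := hψ0 x
      have h3 : 0 < ψ x + ε := by linarith
      have h4 : ‖G x‖ ^ p * (ψ x + ε) ^ (-p) = (‖G x‖ / (ψ x + ε)) ^ p := by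
        rw [Real.div_rpow (norm_nonneg _) h3.le, Real.rpow_neg h3.le]
        rfl
      show ‖G x‖ / (ψ x + ε) ≤ 1 + ‖G x‖ ^ p * (ψ x + ε) ^ (-p)
      rw [h4]
      obtain ⟨a, ha⟩ : ∃ a, a = ‖G x‖ / (ψ x + ε) := ⟨_, rfl⟩
      rw [← ha]
      have ha0 : 0 ≤ a := by rw [ha]; positivity
      rcases le_total a 1 with h5 | h5
      · have := Real.rpow_nonneg ha0 p
        linarith
      · have := Real.rpow_le_rpow_of_exponent_le h5 hp.le
        rw [Real.rpow_one] at this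
        linarith
  refine h1.trans ?_
  rw [integral_add (integrable_const 1) hHν, integral_const, smul_eq_mul, mul_one]
  have h2 : ∫ x, ‖G x‖ ^ p * (ψ x + ε) ^ (-p) ∂ν ≤ ∫ x, ‖G x‖ ^ p * (ψ x + ε) ^ (-p) ∂μ := by
    refine integral_mono_measure hνμ (Eventually.of_forall fun x => ?_) hH
    have h2 := hψ0 x
    show 0 ≤ ‖G x‖ ^ p * (ψ x + ε) ^ (-p)
    positivity
  linarith

theorem vanish_ball {p q : ℝ} {ψ : E → ℝ} {G F : E → E} {e : E → ℝ} (h : SD p q ψ G F e)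
    {x₀ : E} {R : ℝ} (hR : Metric.closedBall x₀ R ⊆ Oax) {y : E} {δ : ℝ} (hδ : 0 < δ)
    (hsub : Metric.ball y δ ⊆ Metric.ball x₀ R)
    (hz : ∀ᵐ x ∂(volume.restrict (Metric.ball y δ)), ψ x = 0) :
    ∀ᵐ x ∂(volume.restrict (Metric.ball x₀ R)), ψ x = 0 := by
  obtain ⟨K, hKd⟩ : ∃ K, K = Metric.closedBall x₀ R := ⟨_, rfl⟩
  have hK : IsCompact K := by rw [hKd]; exact isCompact_closedBall x₀ R
  have hKO : K ⊆ Oax := by rw [hKd]; exact hR
  have hBK : Metric.ball x₀ R ⊆ K := by rw [hKd]; exact Metric.ball_subset_closedBall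
  obtain ⟨ν, hν⟩ : ∃ ν : Measure E, ν = volume.restrict (Metric.ball x₀ R) := ⟨_, rfl⟩
  have hνK : ν ≤ volume.restrict K := by rw [hν]; exact Measure.restrict_mono hBK le_rfl
  have : IsFiniteMeasure ν := ⟨by rw [hν, Measure.restrict_apply_univ]; exact measure_ball_lt_top⟩
  have hp1 : 1 ≤ ENNReal.ofReal p := by rw [ENNReal.one_le_ofReal]; exact h.hp.le
  obtain ⟨f, hfs, -, hf0, hfL, hgL, hfa, -, hfz⟩ :=
    approx isOpen_Oax hp1 ENNReal.ofReal_ne_top h.Lψ h.LG h.wg hK hKO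
  have hf0' := hf0 h.nonneg
  obtain ⟨C, hC⟩ := poincare (y := y) (x₀ := x₀) (δ := δ / 2) (R := R) (by linarith)
    ((Metric.ball_subset_ball (by linarith)).trans hsub)
  obtain ⟨C₁, hC₁⟩ := log_bound h hK hKO
  have hz' := hfz y δ hδ (hsub.trans hBK) hz
  have hfi : ∀ n, Integrable (f n) ν := by
    intro n
    rw [hν]
    exact ((hfs n).continuous.continuousOn.integrableOn_compact hK).mono_set hBK
  have hgi : ∀ n, Integrable (gr (f n)) ν := by
    intro n
    rw [hν]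
    exact ((SmpC_cont (hfs n)).continuousOn.integrableOn_compact hK).mono_set hBK
  have hCev : ∀ᶠ n in atTop, ∀ ε : ℝ, 0 < ε → ∫ x, |Real.log (1 + f n x / ε)| ∂ν ≤
      C * ∫ x, ‖gr (fun y => Real.log (1 + f n y / ε)) x‖ ∂ν := by
    filter_upwards [hz'] with n hn ε hε
    rw [hν]
    refine hC (fun x => Real.log (1 + f n x / ε)) ?_ ?_
    · have h1 : ContDiff ℝ 1 (fun x => 1 + f n x / ε) :=
        contDiff_const.add (((hfs n).of_le (by simp)).div_const ε)
      refine h1.log fun x => ?_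
      have : 0 ≤ f n x / ε := div_nonneg (hf0' n x) hε.le
      linarith
    · intro x hx
      show Real.log (1 + f n x / ε) = 0
      rw [hn x hx]
      simp
  have key : ∀ ε : ℝ, 0 < ε → ∫ x, Real.log (1 + ψ x / ε) ∂ν ≤ |C| * (ν.real univ + C₁) :=
    fun ε hε => SmpC_key h.hp hνK h.nonneg (h.Lψ K hK hKO) (h.LG K hK hKO) hfs hf0' hfL hgL hfa hfi
      hgi hCev hε (hC₁ ε hε)
  have hψ1 : Integrable ψ ν :=
    memLp_one_iff_integrable.1 (((h.Lψ K hK hKO).mono_measure hνK).mono_exponent hp1)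
  rw [← hν]
  -- the level sets
  have hlev : ∀ s : ℝ, 0 < s → ν {x | s ≤ ψ x} = 0 := by
    intro s hs
    by_contra hne
    have ha : 0 < ν.real {x | s ≤ ψ x} :=
      ENNReal.toReal_pos hne (measure_ne_top _ _)
    obtain ⟨a, had⟩ : ∃ a, a = ν.real {x | s ≤ ψ x} := ⟨_, rfl⟩
    obtain ⟨M, hM⟩ : ∃ M, M = |C| * (ν.real univ + C₁) := ⟨_, rfl⟩
    obtain ⟨t, ht⟩ : ∃ t, t = |M| / a + 1 := ⟨_, rfl⟩
    rw [← had] at ha
    have ht0 : 0 < t := by rw [ht]; positivity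
    have hexp : 0 < Real.exp t - 1 := by
      have := Real.add_one_lt_exp ht0.ne'
      linarith
    obtain ⟨ε, hε⟩ : ∃ ε, ε = s / (Real.exp t - 1) := ⟨_, rfl⟩
    have hε0 : 0 < ε := by rw [hε]; positivity
    have hlog : Real.log (1 + s / ε) = t := by
      have : 1 + s / ε = Real.exp t := by
        rw [hε]
        field_simp
        ring
      rw [this, Real.log_exp]
    have h1 := mul_meas_ge_le_integral_of_nonneg
      (Eventually.of_forall fun x => SmpC_log_nonneg (h.nonneg x) hε0)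
      (SmpC_int hψ1 h.nonneg hε0) t
    have h2 : {x | t ≤ Real.log (1 + ψ x / ε)} = {x | s ≤ ψ x} := by
      ext x
      change t ≤ Real.log (1 + ψ x / ε) ↔ s ≤ ψ x
      have h3 := h.nonneg x
      have h4 : 0 ≤ ψ x / ε := div_nonneg h3 hε0.le
      have h5 : 0 ≤ s / ε := div_nonneg hs.le hε0.le
      rw [← hlog, Real.log_le_log_iff (by linarith) (by linarith)]
      constructor
      · intro h6
        have h7 : s / ε ≤ ψ x / ε := by linarith
        exact (div_le_div_iff_of_pos_right hε0).1 h7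
      · intro h6
        have h7 : s / ε ≤ ψ x / ε := (div_le_div_iff_of_pos_right hε0).2 h6
        linarith
    rw [h2, ← had] at h1
    have h3 := key ε hε0
    rw [← hM] at h3
    have h4 : t * a = |M| + a := by
      rw [ht]
      field_simp
    have h5 := le_abs_self M
    linarith
  rw [ae_iff]
  have h1 : {x | ¬ ψ x = 0} ⊆ ⋃ k : ℕ, {x | 1 / ((k : ℝ) + 1) ≤ ψ x} := by
    intro x hx
    have h2 : 0 < ψ x := lt_of_le_of_ne (h.nonneg x) (Ne.symm hx)
    obtain ⟨k, hk⟩ := exists_nat_one_div_lt h2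
    exact mem_iUnion.2 ⟨k, hk.le⟩
  refine measure_mono_null h1 (measure_iUnion_null fun k => hlev _ (by positivity))

end Pool.CQ
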