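import Pool.Agent.Lib.MP_cd5b91_an.CQ.SmpC
import Pool.Agent.Lib.MP_cd5b91_an.CQ.Alg

/-!
# CQ-SmpD
-/

open MeasureTheory Filter Topology Set
open scoped ContDiff RealInnerProductSpace ENNReal

namespace Pool.CQ

theorem isPreconnected_Oax : IsPreconnected Oax := by
  have hf : Continuous (fun w : ℂ × ℝ =>
      (!₂[(Complex.exp w.1).re, (Complex.exp w.1).im, w.2] : E)) := by
    refine (PiLp.continuous_toLp 2 _).comp ?_
    refine continuous_pi fun i => ?_
    fin_cases i
    · exact Complex.continuous_re.comp (Complex.continuous_exp.comp continuous_fst)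
    · exact Complex.continuous_im.comp (Complex.continuous_exp.comp continuous_fst)
    · exact continuous_snd
  have hr : Set.range (fun w : ℂ × ℝ =>
      (!₂[(Complex.exp w.1).re, (Complex.exp w.1).im, w.2] : E)) = Oax := by
    ext x
    constructor
    · rintro ⟨w, rfl⟩
      have h1 : (0 : ℝ) < Complex.normSq (Complex.exp w.1) :=
        Complex.normSq_pos.2 (Complex.exp_ne_zero _)
      rw [Complex.normSq_apply] at h1
      simpa [Oax, rr, sq] using h1
    · intro hx
      have hx' : 0 < x 0 ^ 2 + x 1 ^ 2 := hx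
      have hz : (⟨x 0, x 1⟩ : ℂ) ≠ 0 := by
        intro h0
        have e1 : x 0 = 0 := congrArg Complex.re h0
        have e2 : x 1 = 0 := congrArg Complex.im h0
        rw [e1, e2] at hx'
        norm_num at hx'
      refine ⟨(Complex.log ⟨x 0, x 1⟩, x 2), ?_⟩
      have he : Complex.exp (Complex.log ⟨x 0, x 1⟩) = ⟨x 0, x 1⟩ := Complex.exp_log hz
      ext i
      fin_cases i
      · simp [he]
      · simp [he]
      · simp
  rw [← hr]
  exact isPreconnected_range hf

theorem smp {p q : ℝ} {ψ : E → ℝ} {G F : E → E} {e : E → ℝ} (h : SD p q ψ G F e)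
    {U : Set E} (hU : IsOpen U) (hne : U.Nonempty)
    (hz : ∀ᵐ x ∂(volume.restrict U), ψ x = 0) : ∀ᵐ x, ψ x = 0 := by
  set Z : Set E := {x | ∃ r > 0, ∀ᵐ y ∂(volume.restrict (Metric.ball x r)), ψ y = 0} with hZ
  have hZo : IsOpen Z := by
    rw [Metric.isOpen_iff]
    rintro x ⟨r, hr, hx⟩
    refine ⟨r, hr, fun y hy => ?_⟩
    obtain ⟨s, hs, hsub⟩ := Metric.isOpen_iff.1 Metric.isOpen_ball y hy
    exact ⟨s, hs, ae_restrict_of_ae_restrict_of_subset hsub hx⟩
  have hUZ : U ⊆ Z := by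
    intro x hx
    obtain ⟨r, hr, hsub⟩ := Metric.isOpen_iff.1 hU x hx
    exact ⟨r, hr, ae_restrict_of_ae_restrict_of_subset hsub hz⟩
  have hUO : (U ∩ Oax).Nonempty := by
    have h1 : Dense Oax := MeasureTheory.Measure.dense_of_ae ae_Oax
    exact h1.inter_open_nonempty U hU hne
  have hcl : closure Z ∩ Oax ⊆ Z := by
    rintro x ⟨hxc, hxO⟩
    obtain ⟨R₀, hR₀, hsub₀⟩ := Metric.isOpen_iff.1 isOpen_Oax x hxO
    have hR : Metric.closedBall x (R₀ / 2) ⊆ Oax :=
      (Metric.closedBall_subset_ball (by linarith)).trans hsub₀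
    obtain ⟨y, hyZ, hxy⟩ := Metric.mem_closure_iff.1 hxc (R₀ / 2) (by positivity)
    obtain ⟨r, hr, hyr⟩ := hyZ
    have hyB : y ∈ Metric.ball x (R₀ / 2) := by
      rw [Metric.mem_ball, dist_comm]; exact hxy
    obtain ⟨s, hs, hsub⟩ := Metric.isOpen_iff.1 Metric.isOpen_ball y hyB
    have hδ : 0 < min r s := lt_min hr hs
    refine ⟨R₀ / 2, by positivity, ?_⟩
    exact vanish_ball h hR hδ ((Metric.ball_subset_ball (min_le_right r s)).trans hsub)
      (ae_restrict_of_ae_restrict_of_subset (Metric.ball_subset_ball (min_le_left r s)) hyr)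
  have hOZ : Oax ⊆ Z := by
    refine isPreconnected_Oax.subset_of_closure_inter_subset hZo ?_ hcl
    obtain ⟨x, hx1, hx2⟩ := hUO
    exact ⟨x, hx2, hUZ hx1⟩
  have hnull : (volume : Measure E) ({x | ψ x ≠ 0} ∩ Oax) = 0 := by
    refine measure_null_of_locally_null _ ?_
    rintro x ⟨-, hxO⟩
    obtain ⟨r, hr, hx⟩ := hOZ hxO
    refine ⟨Metric.ball x r ∩ ({x | ψ x ≠ 0} ∩ Oax), ?_, ?_⟩
    · exact inter_mem (mem_nhdsWithin_of_mem_nhds (Metric.ball_mem_nhds x hr)) self_mem_nhdsWithin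
    · rw [ae_restrict_iff' measurableSet_ball, ae_iff] at hx
      refine measure_mono_null ?_ hx
      rintro z ⟨hz1, hz2, -⟩
      exact fun h6 => hz2 (h6 hz1)
  have h4 : ∀ᵐ x : E, ¬ (ψ x ≠ 0 ∧ x ∈ Oax) := by
    rw [ae_iff]
    refine measure_mono_null ?_ hnull
    intro x hx
    exact not_not.1 hx
  filter_upwards [h4, ae_Oax] with x hx1 hx2
  by_contra h5
  exact hx1 ⟨h5, hx2⟩

end Pool.CQ
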