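import Pool.Agent.Lib.MP_cd5b91_an.CQ.Supp
import Pool.Agent.Lib.MP_28fba0_gt.UV.MollA

/-!
# CQ-ThinA
-/

open MeasureTheory Filter Topology Set
open scoped ContDiff RealInnerProductSpace ENNReal

namespace Pool.CQ

private noncomputable def rho0 : E → ℝ := (Pool.UVF.bump 3 0).normed volume

private theorem rho0_smooth : ContDiff ℝ ∞ rho0 := (Pool.UVF.bump 3 0).contDiff_normed

private theorem rho0_compact : HasCompactSupport rho0 :=
  (Pool.UVF.bump 3 0).hasCompactSupport_normed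

private theorem rho0_nonneg (t : E) : 0 ≤ rho0 t := (Pool.UVF.bump 3 0).nonneg_normed t

private theorem rho0_int : ∫ t, rho0 t = 1 := (Pool.UVF.bump 3 0).integral_normed

private theorem rho0_ball {t : E} (ht : rho0 t ≠ 0) : ‖t‖ < 1 := by
  have h : t ∈ Function.support rho0 := ht
  have h2 : Function.support rho0 = Metric.ball (0 : E) (Pool.UVF.bump 3 0).rOut :=
    (Pool.UVF.bump 3 0).support_normed_eq
  rw [h2] at h
  have h3 : (Pool.UVF.bump 3 0).rOut = 1 := by simp [Pool.UVF.bump]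
  rw [h3] at h
  simpa using h

/-- the set `{y : y / (n+1) ∈ cthickening (3/(n+1)) Z}` -/
private def fs (Z : Set E) (n : ℕ) : Set E :=
  {y | ((n : ℝ) + 1)⁻¹ • y ∈ Metric.cthickening (3 / ((n : ℝ) + 1)) Z}

private theorem fs_closed (Z : Set E) (n : ℕ) : IsClosed (fs Z n) :=
  Metric.isClosed_cthickening.preimage (continuous_const_smul _)

private noncomputable def ff (Z : Set E) (n : ℕ) : E → ℝ := (fs Z n).indicator fun _ => 1

private theorem ff_loc (Z : Set E) (n : ℕ) : LocallyIntegrable (ff Z n) volume :=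
  (locallyIntegrable_const 1).indicator (fs_closed Z n).measurableSet

private theorem ff_mem (Z : Set E) (n : ℕ) (y : E) : 0 ≤ ff Z n y ∧ ff Z n y ≤ 1 := by
  unfold ff
  by_cases h : y ∈ fs Z n
  · rw [indicator_of_mem h]; norm_num
  · rw [indicator_of_notMem h]; norm_num

private noncomputable def chi (Z : Set E) (n : ℕ) (x : E) : ℝ :=
  mol 0 (ff Z n) (((n : ℝ) + 1) • x)

private theorem chi_eq (Z : Set E) (n : ℕ) (x : E) :
    chi Z n x = ∫ t, rho0 t * ff Z n (((n : ℝ) + 1) • x - t) := rfl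

private theorem chi_smooth (Z : Set E) (n : ℕ) : ContDiff ℝ ∞ (chi Z n) :=
  (Pool.UVF.contDiff_moll (ff_loc Z n) 0).comp (contDiff_const_smul _)

private theorem pt_eq (n : ℕ) (x t : E) :
    ((n : ℝ) + 1)⁻¹ • (((n : ℝ) + 1) • x - t) = x - ((n : ℝ) + 1)⁻¹ • t := by
  have h : ((n : ℝ) + 1) ≠ 0 := by positivity
  rw [smul_sub, smul_smul, inv_mul_cancel₀ h, one_smul]

private theorem chi_one (Z : Set E) (n : ℕ) (x : E)
    (hx : x ∈ Metric.thickening (1 / ((n : ℝ) + 1)) Z) : chi Z n x = 1 := by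
  have hl : (0 : ℝ) < (n : ℝ) + 1 := by positivity
  rw [chi_eq]
  refine Eq.trans ?_ rho0_int
  refine integral_congr_ae (Eventually.of_forall fun t => ?_)
  by_cases h0 : rho0 t = 0
  · simp [h0]
  · have ht := rho0_ball h0
    have hm : ((n : ℝ) + 1) • x - t ∈ fs Z n := by
      show ((n : ℝ) + 1)⁻¹ • (((n : ℝ) + 1) • x - t) ∈
        Metric.cthickening (3 / ((n : ℝ) + 1)) Z
      rw [pt_eq]
      apply Metric.thickening_subset_cthickening
      obtain ⟨z, hz, hd⟩ := Metric.mem_thickening_iff.1 hx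
      refine Metric.mem_thickening_iff.2 ⟨z, hz, ?_⟩
      have h1 : dist (x - ((n : ℝ) + 1)⁻¹ • t) x ≤ ((n : ℝ) + 1)⁻¹ * 1 := by
        rw [dist_eq_norm, sub_sub_cancel_left, norm_neg, norm_smul, norm_inv,
          Real.norm_of_nonneg hl.le]
        gcongr
      have h2 := dist_triangle (x - ((n : ℝ) + 1)⁻¹ • t) x z
      have h3 : (3 : ℝ) / ((n : ℝ) + 1) = ((n : ℝ) + 1)⁻¹ * 1 + 1 / ((n : ℝ) + 1)
          + 1 / ((n : ℝ) + 1) := by field_simp; norm_num
      have h4 : 0 < 1 / ((n : ℝ) + 1) := by positivity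
      linarith
    simp [ff, indicator_of_mem hm]

private theorem chi_zero (Z : Set E) (n : ℕ) (x : E)
    (hx : x ∉ Metric.cthickening (4 / ((n : ℝ) + 1)) Z) : chi Z n x = 0 := by
  have hl : (0 : ℝ) < (n : ℝ) + 1 := by positivity
  rw [chi_eq]
  have : ∀ t, rho0 t * ff Z n (((n : ℝ) + 1) • x - t) = 0 := by
    intro t
    by_cases h0 : rho0 t = 0
    · simp [h0]
    · have ht := rho0_ball h0
      have hm : ((n : ℝ) + 1) • x - t ∉ fs Z n := by
        intro hm
        apply hx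
        have hm' : ((n : ℝ) + 1)⁻¹ • (((n : ℝ) + 1) • x - t) ∈
          Metric.cthickening (3 / ((n : ℝ) + 1)) Z := hm
        rw [pt_eq] at hm'
        have h1 : dist x (x - ((n : ℝ) + 1)⁻¹ • t) ≤ 1 / ((n : ℝ) + 1) := by
          rw [dist_eq_norm, sub_sub_cancel, norm_smul, norm_inv,
            Real.norm_of_nonneg hl.le, one_div]
          calc ((n : ℝ) + 1)⁻¹ * ‖t‖ ≤ ((n : ℝ) + 1)⁻¹ * 1 := by gcongr
            _ = _ := mul_one _
        have h2 := Metric.mem_cthickening_of_dist_le x _ _ _ hm' h1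
        have h3 := Metric.cthickening_cthickening_subset (by positivity : (0 : ℝ) ≤ 1 / ((n : ℝ) + 1))
          (by positivity : (0 : ℝ) ≤ 3 / ((n : ℝ) + 1)) Z h2
        have h4 : (1 : ℝ) / ((n : ℝ) + 1) + 3 / ((n : ℝ) + 1) = 4 / ((n : ℝ) + 1) := by
          field_simp; norm_num
        rwa [h4] at h3
      simp [ff, indicator_of_notMem hm]
  simp [this]

private theorem chi_mem (Z : Set E) (n : ℕ) (x : E) : 0 ≤ chi Z n x ∧ chi Z n x ≤ 1 := by
  constructor
  · rw [chi_eq]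
    exact integral_nonneg fun t => mul_nonneg (rho0_nonneg t) (ff_mem Z n _).1
  · have h := Pool.UVF.abs_moll_le (f := ff Z n) (C := 1) zero_le_one
      (Eventually.of_forall fun y => by
        rw [abs_of_nonneg (ff_mem Z n y).1]; exact (ff_mem Z n y).2) 0 (((n : ℝ) + 1) • x)
    exact (le_abs_self _).trans h

private theorem pd_rho_integrable (i : Fin 3) : Integrable (pd i rho0) volume := by
  have h1 : Continuous (pd i rho0) := by
    unfold pd
    exact (rho0_smooth.continuous_fderiv (by simp)).clm_apply continuous_const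
  have h2 : HasCompactSupport (pd i rho0) := by
    unfold pd
    exact (rho0_compact.fderiv ℝ).comp_left (g := fun L : E →L[ℝ] ℝ =>
      L (EuclideanSpace.single i (1 : ℝ))) (by simp)
  exact h1.integrable_of_hasCompactSupport h2

private theorem pd_mol_le (Z : Set E) (n : ℕ) (i : Fin 3) (p : E) :
    |pd i (mol 0 (ff Z n)) p| ≤ ∫ y, |pd i rho0 y| := by
  have h : pd i (mol 0 (ff Z n)) p = ∫ y, pd i rho0 (p - y) * ff Z n y :=
    Pool.UVF.pd_moll (ff_loc Z n) 0 i p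
  rw [h, ← Real.norm_eq_abs]
  have h2 : ∫ y, |pd i rho0 y| = ∫ y, |pd i rho0 (p - y)| :=
    (integral_sub_left_eq_self (fun y => |pd i rho0 y|) volume p).symm
  rw [h2]
  refine norm_integral_le_of_norm_le ?_ (Eventually.of_forall fun y => ?_)
  · exact ((pd_rho_integrable i).comp_sub_left p).abs
  · rw [norm_mul, Real.norm_eq_abs, Real.norm_of_nonneg (ff_mem Z n y).1]
    exact mul_le_of_le_one_right (abs_nonneg _) (ff_mem Z n y).2

private theorem pd_chi (Z : Set E) (n : ℕ) (i : Fin 3) (x : E) :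
    pd i (chi Z n) x = ((n : ℝ) + 1) * pd i (mol 0 (ff Z n)) (((n : ℝ) + 1) • x) := by
  have hd : HasFDerivAt (mol 0 (ff Z n)) (fderiv ℝ (mol 0 (ff Z n)) (((n : ℝ) + 1) • x))
      (((n : ℝ) + 1) • x) :=
    ((Pool.UVF.contDiff_moll (ff_loc Z n) 0).differentiable (by simp)).differentiableAt.hasFDerivAt
  have h1 : HasFDerivAt (fun z : E => ((n : ℝ) + 1) • z)
      (((n : ℝ) + 1) • ContinuousLinearMap.id ℝ E) x :=
    (((n : ℝ) + 1) • ContinuousLinearMap.id ℝ E).hasFDerivAt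
  have h2 : HasFDerivAt (chi Z n) ((fderiv ℝ (mol 0 (ff Z n)) (((n : ℝ) + 1) • x)).comp
      (((n : ℝ) + 1) • ContinuousLinearMap.id ℝ E)) x := HasFDerivAt.comp x hd h1
  unfold pd
  rw [h2.fderiv]
  simp

private theorem gr_le (f : E → ℝ) (x : E) : ‖gr f x‖ ≤ |pd 0 f x| + |pd 1 f x| + |pd 2 f x| := by
  rw [EuclideanSpace.norm_eq]
  apply Real.sqrt_le_iff.2
  refine ⟨by positivity, ?_⟩
  simp only [gr, Fin.sum_univ_three, Real.norm_eq_abs, sq_abs]
  simp only [Matrix.cons_val_zero, Matrix.cons_val_one, Matrix.cons_val]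
  have h0 := abs_nonneg (pd 0 f x)
  have h1 := abs_nonneg (pd 1 f x)
  have h2 := abs_nonneg (pd 2 f x)
  have e0 := sq_abs (pd 0 f x)
  have e1 := sq_abs (pd 1 f x)
  have e2 := sq_abs (pd 2 f x)
  rw [← e0, ← e1, ← e2]
  nlinarith [mul_nonneg h0 h1, mul_nonneg h0 h2, mul_nonneg h1 h2]

theorem thin_cut {Z : Set E} (hZ : IsClosed Z) :
    ∃ (C : ℝ) (χ : ℕ → E → ℝ), ∀ n : ℕ, ContDiff ℝ ∞ (χ n) ∧ (∀ x, 0 ≤ χ n x ∧ χ n x ≤ 1) ∧
      (∀ x ∈ Metric.thickening (1 / ((n : ℝ) + 1)) Z, χ n x = 1) ∧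
      (∀ x, x ∉ Metric.cthickening (4 / ((n : ℝ) + 1)) Z → χ n x = 0) ∧
      (∀ x, ‖gr (χ n) x‖ ≤ C * ((n : ℝ) + 1)) := by
  refine ⟨(∫ y, |pd 0 rho0 y|) + (∫ y, |pd 1 rho0 y|) + ∫ y, |pd 2 rho0 y|, chi Z, fun n =>
    ⟨chi_smooth Z n, chi_mem Z n, chi_one Z n, chi_zero Z n, fun x => ?_⟩⟩
  have hl : (0 : ℝ) < (n : ℝ) + 1 := by positivity
  refine (gr_le _ _).trans ?_
  rw [pd_chi, pd_chi, pd_chi, abs_mul, abs_mul, abs_mul, abs_of_pos hl]
  have h0 := pd_mol_le Z n 0 (((n : ℝ) + 1) • x)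
  have h1 := pd_mol_le Z n 1 (((n : ℝ) + 1) • x)
  have h2 := pd_mol_le Z n 2 (((n : ℝ) + 1) • x)
  nlinarith

end Pool.CQ
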