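import Pool.Agent.Lib.MP_cd5b91_an.CQ.ThinA
import Pool.Agent.Lib.MP_cd5b91_an.CQ.Alg

/-!
# CQ-ThinB
-/

open MeasureTheory Filter Topology Set
open scoped ContDiff RealInnerProductSpace ENNReal

namespace Pool.CQ

private lemma tb_gr_sub (f : E → ℝ) (x : E) : gr (fun y => 1 - f y) x = -gr f x := by
  ext i
  fin_cases i <;> simp [gr, pd, fderiv_const_sub]

private lemma tb_gr_zero {f : E → ℝ} {O : Set E} (hO : IsOpen O) (hf : ∀ x ∈ O, f x = 0) {x : E}
    (hx : x ∈ O) : gr f x = 0 := by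
  have h1 : f =ᶠ[𝓝 x] fun _ => 0 := by
    filter_upwards [hO.mem_nhds hx] with y hy using hf y hy
  ext i
  fin_cases i <;> simp [gr, pd, h1.fderiv_eq]

private lemma tb_curl_zero {φ : E → E} {O : Set E} (hO : IsOpen O) (hf : ∀ x ∈ O, φ x = 0) {x : E}
    (hx : x ∈ O) : curl φ x = 0 := by
  have h1 : ∀ j : Fin 3, (fun y => φ y j) =ᶠ[𝓝 x] fun _ => 0 := fun j => by
    filter_upwards [hO.mem_nhds hx] with y hy
    rw [hf y hy]; rfl
  ext i
  fin_cases i <;> simp [curl, pd, (h1 _).fderiv_eq]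

private lemma tb_comp {φ : E → E} (hφ : ContDiff ℝ ∞ φ) (j : Fin 3) :
    ContDiff ℝ ∞ (fun y => φ y j) := contDiff_euclidean.1 hφ j

private lemma tb_pd {f : E → ℝ} (hf : ContDiff ℝ ∞ f) (i : Fin 3) : Continuous (pd i f) :=
  (hf.continuous_fderiv (by simp)).clm_apply continuous_const

private lemma tb_vec {a b c : E → ℝ} (ha : Continuous a) (hb : Continuous b) (hc : Continuous c) :
    Continuous fun x => (!₂[a x, b x, c x] : E) := by
  refine (PiLp.continuous_toLp 2 _).comp (continuous_pi fun i => ?_)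
  fin_cases i
  · exact ha
  · exact hb
  · exact hc

private lemma tb_gr {f : E → ℝ} (hf : ContDiff ℝ ∞ f) : Continuous (gr f) :=
  tb_vec (tb_pd hf 0) (tb_pd hf 1) (tb_pd hf 2)

private lemma tb_curl {φ : E → E} (hφ : ContDiff ℝ ∞ φ) : Continuous (curl φ) :=
  tb_vec ((tb_pd (tb_comp hφ 2) 1).sub (tb_pd (tb_comp hφ 1) 2))
    ((tb_pd (tb_comp hφ 0) 2).sub (tb_pd (tb_comp hφ 2) 0))
    ((tb_pd (tb_comp hφ 1) 0).sub (tb_pd (tb_comp hφ 0) 1))

private lemma tb_cr {f g : E → E} (hf : Continuous f) (hg : Continuous g) :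
    Continuous fun x => cr (f x) (g x) := by
  have h1 : ∀ i : Fin 3, Continuous fun x => f x i := fun i =>
    (EuclideanSpace.proj (𝕜 := ℝ) i).continuous.comp hf
  have h2 : ∀ i : Fin 3, Continuous fun x => g x i := fun i =>
    (EuclideanSpace.proj (𝕜 := ℝ) i).continuous.comp hg
  exact tb_vec (((h1 1).mul (h2 2)).sub ((h1 2).mul (h2 1)))
    (((h1 2).mul (h2 0)).sub ((h1 0).mul (h2 2))) (((h1 0).mul (h2 1)).sub ((h1 1).mul (h2 0)))

private lemma tb_int {A ψ : E → E} (hA : LpL 1 univ A) (hψ : Continuous ψ) {R : ℝ}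
    (hs : ∀ x, R < ‖x‖ → ψ x = 0) : Integrable (fun x => ⟪A x, ψ x⟫) volume := by
  have hK : IsCompact (Metric.closedBall (0 : E) R) := isCompact_closedBall 0 R
  have h1 := hA _ hK (subset_univ _)
  rw [memLp_one_iff_integrable] at h1
  obtain ⟨M, hM⟩ := hK.exists_bound_of_continuousOn hψ.continuousOn
  have h2 : IntegrableOn (fun x => ⟪A x, ψ x⟫) (Metric.closedBall (0 : E) R) volume := by
    refine Integrable.mono' (h1.norm.mul_const M) (h1.1.inner hψ.aestronglyMeasurable) ?_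
    filter_upwards [ae_restrict_mem hK.measurableSet] with x hx
    rw [Real.norm_eq_abs]
    exact (abs_real_inner_le_norm _ _).trans (mul_le_mul_of_nonneg_left (hM x hx) (norm_nonneg _))
  refine (integrableOn_iff_integrable_of_support_subset ?_).1 h2
  intro x hx
  rw [Metric.mem_closedBall, dist_zero_right]
  by_contra h3
  exact hx (by simp [hs x (not_le.1 h3)])

private lemma tb_ev {Z : Set E} (hZ : IsClosed Z) {x : E} (hx : x ∉ Z) :
    ∀ᶠ n : ℕ in atTop, x ∉ Metric.cthickening (4 / ((n : ℝ) + 1)) Z := by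
  have h1 : 0 < Metric.infEDist x Z := by
    rw [pos_iff_ne_zero]
    intro h0
    exact hx (hZ.closure_eq ▸ Metric.mem_closure_iff_infEDist_zero.2 h0)
  have h2 : Tendsto (fun n : ℕ => ENNReal.ofReal (4 / ((n : ℝ) + 1))) atTop (𝓝 0) := by
    have h3 : Tendsto (fun n : ℕ => 4 / ((n : ℝ) + 1)) atTop (𝓝 0) := by
      have h4 := (tendsto_one_div_add_atTop_nhds_zero_nat (𝕜 := ℝ)).const_mul 4
      rw [mul_zero] at h4
      refine h4.congr fun n => by ring
    simpa using ENNReal.tendsto_ofReal h3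
  filter_upwards [h2.eventually_lt_const h1] with n hn
  rw [Metric.mem_cthickening_iff, not_le]
  exact hn

private lemma tb_lim {F : E → ℝ} (hF : Integrable F volume) {Z : Set E} (hZ : Thin Z)
    {χ : ℕ → E → ℝ} (hχ : ∀ n, Continuous (χ n)) (h01 : ∀ n x, 0 ≤ χ n x ∧ χ n x ≤ 1)
    (h0 : ∀ (n : ℕ) x, x ∉ Metric.cthickening (4 / ((n : ℝ) + 1)) Z → χ n x = 0) :
    Tendsto (fun n => ∫ x, (1 - χ n x) * F x) atTop (𝓝 (∫ x, F x)) := by
  refine tendsto_integral_of_dominated_convergence (fun x => ‖F x‖) (fun n => ?_) hF.norm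
    (fun n => ?_) ?_
  · exact (continuous_const.sub (hχ n)).aestronglyMeasurable.mul hF.1
  · refine Eventually.of_forall fun x => ?_
    have h1 := h01 n x
    rw [norm_mul, Real.norm_of_nonneg (by linarith : (0 : ℝ) ≤ 1 - χ n x)]
    exact mul_le_of_le_one_left (norm_nonneg _) (by linarith)
  · have h1 : ∀ᵐ x : E, x ∉ Z := measure_eq_zero_iff_ae_notMem.1 (thin_null hZ)
    filter_upwards [h1] with x hx
    refine tendsto_const_nhds.congr' ?_
    filter_upwards [tb_ev hZ.1 hx] with n hn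
    rw [h0 n x hn, sub_zero, one_mul]

private lemma tb_tail {F : E → ℝ} {Z K : Set E} (hK : MeasurableSet K) (hF : IntegrableOn F K volume)
    (hZ : Thin Z) :
    Tendsto (fun n : ℕ => ∫ x in Metric.cthickening (4 / ((n : ℝ) + 1)) Z ∩ K, F x) atTop (𝓝 0) := by
  have hm : ∀ n : ℕ, MeasurableSet (Metric.cthickening (4 / ((n : ℝ) + 1)) Z ∩ K) := fun n =>
    Metric.isClosed_cthickening.measurableSet.inter hK
  have e : ∀ n : ℕ, ∫ x in Metric.cthickening (4 / ((n : ℝ) + 1)) Z ∩ K, F x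
      = ∫ x, (Metric.cthickening (4 / ((n : ℝ) + 1)) Z ∩ K).indicator F x := fun n =>
    (integral_indicator (hm n)).symm
  simp only [e]
  have h0 : ∫ _ : E, (0 : ℝ) = 0 := integral_zero _ _
  rw [← h0]
  have hFK : Integrable (K.indicator F) volume := (integrable_indicator_iff hK).2 hF
  refine tendsto_integral_of_dominated_convergence (fun x => ‖K.indicator F x‖) (fun n => ?_)
    hFK.norm (fun n => ?_) ?_
  · exact ((hF.mono_set inter_subset_right).integrable_indicator (hm n)).1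
  · refine Eventually.of_forall fun x => ?_
    rw [inter_comm, ← indicator_indicator, indicator_indicator, inter_comm, ← indicator_indicator]
    exact norm_indicator_le_norm_self _ _
  · have h1 : ∀ᵐ x : E, x ∉ Z := measure_eq_zero_iff_ae_notMem.1 (thin_null hZ)
    filter_upwards [h1] with x hx
    refine tendsto_const_nhds.congr' ?_
    filter_upwards [tb_ev hZ.1 hx] with n hn
    rw [indicator_of_notMem fun h => hn h.1]

private lemma tb_small {a e : ℕ → ℝ} {D : ℝ} (hD : 0 ≤ D) {D' : ℝ} (he : Tendsto e atTop (𝓝 0))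
    (h : ∀ κ : ℝ, 0 < κ → ∀ n : ℕ, 3 ≤ n → |a n| ≤ D * κ + D' / κ * e n) :
    Tendsto a atTop (𝓝 0) := by
  rw [Metric.tendsto_atTop]
  intro δ hδ
  have hκ : 0 < δ / (2 * (D + 1)) := by positivity
  have h1 : D * (δ / (2 * (D + 1))) < δ / 2 := by
    rw [mul_div_assoc', div_lt_div_iff₀ (by positivity) (by norm_num)]
    nlinarith
  have h2 := (he.const_mul (D' / (δ / (2 * (D + 1))))).eventually_lt_const
    (show D' / (δ / (2 * (D + 1))) * 0 < δ / 2 by rw [mul_zero]; positivity)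
  obtain ⟨N, hN⟩ := eventually_atTop.1 h2
  refine ⟨max N 3, fun n hn => ?_⟩
  rw [Real.dist_0_eq_abs]
  have h3 := h _ hκ n (le_of_max_le_right hn)
  have h4 := hN n (le_of_max_le_left hn)
  linarith

theorem wc_thin {Z : Set E} (hZ : Thin Z) {A C : E → E} (hA : LpL 2 univ A) (hC : LpL 1 univ C)
    (h : WC Zᶜ A C) : WC univ A C := by
  intro φ hφ
  obtain ⟨c, χ, hχ⟩ := thin_cut hZ.1
  have hχs : ∀ n, ContDiff ℝ ∞ (χ n) := fun n => (hχ n).1
  have h01 : ∀ n x, 0 ≤ χ n x ∧ χ n x ≤ 1 := fun n => (hχ n).2.1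
  have h1 : ∀ (n : ℕ), ∀ x ∈ Metric.thickening (1 / ((n : ℝ) + 1)) Z, χ n x = 1 :=
    fun n => (hχ n).2.2.1
  have h0 : ∀ (n : ℕ) x, x ∉ Metric.cthickening (4 / ((n : ℝ) + 1)) Z → χ n x = 0 :=
    fun n => (hχ n).2.2.2.1
  have hg : ∀ (n : ℕ) x, ‖gr (χ n) x‖ ≤ c * ((n : ℝ) + 1) := fun n => (hχ n).2.2.2.2
  have hc : 0 ≤ c := by
    have h2 := (norm_nonneg _).trans (hg 0 0)
    simpa using h2
  obtain ⟨hφs, hφc, -⟩ := hφ
  obtain ⟨M, hM⟩ := hφc.exists_bound_of_continuous hφs.continuous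
  have hM0 : 0 ≤ M := (norm_nonneg _).trans (hM 0)
  obtain ⟨R, hR⟩ := hφc.isCompact.isBounded.subset_closedBall (0 : E)
  have hR0 : ∀ x, R < ‖x‖ → φ x = 0 := fun x hx => by
    by_contra h2
    have h3 := hR (subset_tsupport φ h2)
    rw [Metric.mem_closedBall, dist_zero_right] at h3
    linarith
  have hRo : IsOpen {x : E | R < ‖x‖} := isOpen_lt continuous_const continuous_norm
  have hRc : ∀ x, R < ‖x‖ → curl φ x = 0 := fun x hx => tb_curl_zero hRo hR0 hx
  have hA1 : LpL 1 univ A := fun K hK hKO => by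
    have : IsFiniteMeasure (volume.restrict K) := ⟨by simpa using hK.measure_lt_top⟩
    exact (hA K hK hKO).mono_exponent one_le_two
  -- the test fields
  have hnt : ∀ n, TestIn Zᶜ (fun x => (1 - χ n x) • φ x) := fun n => by
    have hs1 : ContDiff ℝ ∞ (fun x => (1 - χ n x) • φ x) :=
      (contDiff_const.sub (hχs n)).smul hφs
    have hs2 : HasCompactSupport (fun x => (1 - χ n x) • φ x) :=
      hφc.mono fun x hx h2 => hx (by
        show (1 - χ n x) • φ x = 0
        rw [show φ x = 0 from h2, smul_zero])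
    refine ⟨hs1, hs2, ?_⟩
    have hn : (0 : ℝ) < 1 / ((n : ℝ) + 1) := by positivity
    have h2 : tsupport (fun x => (1 - χ n x) • φ x) ⊆ (Metric.thickening (1 / ((n : ℝ) + 1)) Z)ᶜ := by
      refine closure_minimal ?_ Metric.isOpen_thickening.isClosed_compl
      intro x hx h3
      exact hx (by simp [h1 n x h3])
    exact h2.trans (compl_subset_compl.2 (Metric.self_subset_thickening hn Z))
  have hcu : ∀ n x, curl (fun y => (1 - χ n y) • φ y) x
      = cr (-gr (χ n) x) (φ x) + (1 - χ n x) • curl φ x := fun n x => by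
    rw [curl_smul ((contDiff_const.sub (hχs n)).differentiable (by simp) x)
      (hφs.differentiable (by simp) x), tb_gr_sub]
  have hcz : ∀ n x, R < ‖x‖ → cr (-gr (χ n) x) (φ x) = 0 := fun n x hx => by
    have h2 := norm_cr_le (-gr (χ n) x) (φ x)
    rw [hR0 x hx, norm_zero, mul_zero] at h2
    rw [hR0 x hx]
    exact norm_le_zero_iff.1 h2
  have hcc : ∀ n, Continuous fun x => cr (-gr (χ n) x) (φ x) := fun n =>
    tb_cr (tb_gr (hχs n)).neg hφs.continuous
  have hi1 : ∀ n, Integrable (fun x => ⟪A x, cr (-gr (χ n) x) (φ x)⟫) volume := fun n =>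
    tb_int hA1 (hcc n) (hcz n)
  have hi2 : Integrable (fun x => ⟪A x, curl φ x⟫) volume := tb_int hA1 (tb_curl hφs) hRc
  have hi3 : Integrable (fun x => ⟪C x, φ x⟫) volume := tb_int hC hφs.continuous hR0
  have hi4 : ∀ n, Integrable (fun x => (1 - χ n x) * ⟪A x, curl φ x⟫) volume := fun n => by
    have h2 : Integrable (fun x => ⟪A x, (1 - χ n x) • curl φ x⟫) volume :=
      tb_int hA1 ((continuous_const.sub (hχs n).continuous).smul (tb_curl hφs)) fun x hx => by
        rw [hRc x hx, smul_zero]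
    simpa only [real_inner_smul_right] using h2
  have hmain : ∀ n, (∫ x, ⟪A x, cr (-gr (χ n) x) (φ x)⟫) + ∫ x, (1 - χ n x) * ⟪A x, curl φ x⟫
      = ∫ x, (1 - χ n x) * ⟪C x, φ x⟫ := fun n => by
    have h2 := h _ (hnt n)
    rw [← integral_add (hi1 n) (hi4 n)]
    simp only [hcu, inner_add_right, real_inner_smul_right] at h2
    exact h2
  have hL := tb_lim hi2 hZ (fun n => (hχs n).continuous) h01 h0
  have hRR := tb_lim hi3 hZ (fun n => (hχs n).continuous) h01 h0
  -- the error term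
  have hKc : IsCompact (Metric.closedBall (0 : E) R) := isCompact_closedBall 0 R
  have hA2 : IntegrableOn (fun x => ‖A x‖ ^ 2) (Metric.closedBall (0 : E) R) volume :=
    (hA _ hKc (subset_univ _)).integrable_norm_pow (by norm_num)
  have he := tb_tail hKc.measurableSet hA2 hZ
  obtain ⟨C', hC'⟩ := hZ.2 R
  have hvol : ∀ n : ℕ, 3 ≤ n →
      volume.real (Metric.cthickening (4 / ((n : ℝ) + 1)) Z ∩ Metric.closedBall 0 R)
        ≤ max C' 0 * (4 / ((n : ℝ) + 1)) ^ 2 := fun n hn => by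
    have hn3 : (3 : ℝ) ≤ n := by exact_mod_cast hn
    have hn0 : (0 : ℝ) < (n : ℝ) + 1 := by positivity
    have h2 := hC' (4 / ((n : ℝ) + 1)) (by positivity) ((div_le_one hn0).2 (by linarith))
    have h3 : ENNReal.ofReal (C' * (4 / ((n : ℝ) + 1)) ^ 2)
        ≤ ENNReal.ofReal (max C' 0 * (4 / ((n : ℝ) + 1)) ^ 2) :=
      ENNReal.ofReal_le_ofReal (mul_le_mul_of_nonneg_right (le_max_left _ _) (by positivity))
    exact ENNReal.toReal_le_of_le_ofReal (mul_nonneg (le_max_right _ _) (by positivity)) (h2.trans h3)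
  have herr : ∀ κ : ℝ, 0 < κ → ∀ n : ℕ, 3 ≤ n → |∫ x, ⟪A x, cr (-gr (χ n) x) (φ x)⟫|
      ≤ c * M * (8 * max C' 0) * κ + c * M / 2 / κ
        * ∫ x in Metric.cthickening (4 / ((n : ℝ) + 1)) Z ∩ Metric.closedBall 0 R, ‖A x‖ ^ 2 := by
    intro κ hκ n hn
    have hn0 : (0 : ℝ) < (n : ℝ) + 1 := by positivity
    set S : Set E := Metric.cthickening (4 / ((n : ℝ) + 1)) Z ∩ Metric.closedBall 0 R with hS
    have hSm : MeasurableSet S := Metric.isClosed_cthickening.measurableSet.inter hKc.measurableSet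
    have hSf : volume S ≠ ⊤ :=
      ((measure_mono inter_subset_right).trans_lt hKc.measure_lt_top).ne
    have hS2 : IntegrableOn (fun x => ‖A x‖ ^ 2) S volume := hA2.mono_set inter_subset_right
    have hSi : IntegrableOn (fun x => c * M * (κ / 2 * ((n : ℝ) + 1) ^ 2 + 1 / (2 * κ) * ‖A x‖ ^ 2))
        S volume :=
      ((integrableOn_const hSf).add (hS2.const_mul _)).const_mul _
    have hb : ∀ x, ‖⟪A x, cr (-gr (χ n) x) (φ x)⟫‖
        ≤ S.indicator (fun x => c * M * (κ / 2 * ((n : ℝ) + 1) ^ 2 + 1 / (2 * κ) * ‖A x‖ ^ 2)) x := by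
      intro x
      by_cases hx : x ∈ S
      · rw [indicator_of_mem hx, Real.norm_eq_abs]
        have h2 : ‖cr (-gr (χ n) x) (φ x)‖ ≤ c * ((n : ℝ) + 1) * M := by
          refine (norm_cr_le _ _).trans ?_
          rw [norm_neg]
          exact mul_le_mul (hg n x) (hM x) (norm_nonneg _) (by positivity)
        have h3 : |⟪A x, cr (-gr (χ n) x) (φ x)⟫| ≤ ‖A x‖ * (c * ((n : ℝ) + 1) * M) :=
          (abs_real_inner_le_norm _ _).trans (mul_le_mul_of_nonneg_left h2 (norm_nonneg _))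
        have h4 : ((n : ℝ) + 1) * ‖A x‖ ≤ κ / 2 * ((n : ℝ) + 1) ^ 2 + 1 / (2 * κ) * ‖A x‖ ^ 2 := by
          have h5 : 0 ≤ (κ * ((n : ℝ) + 1) - ‖A x‖) ^ 2 / (2 * κ) := by positivity
          have h6 : (κ * ((n : ℝ) + 1) - ‖A x‖) ^ 2 / (2 * κ)
              = κ / 2 * ((n : ℝ) + 1) ^ 2 + 1 / (2 * κ) * ‖A x‖ ^ 2 - ((n : ℝ) + 1) * ‖A x‖ := by
            field_simp
            ring
          linarith
        have h7 := mul_le_mul_of_nonneg_left h4 (mul_nonneg hc hM0)
        refine h3.trans (le_trans (le_of_eq ?_) h7)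
        ring
      · rw [indicator_of_notMem hx]
        have h2 : cr (-gr (χ n) x) (φ x) = 0 := by
          by_cases hx2 : x ∈ Metric.closedBall (0 : E) R
          · have hx3 : x ∈ (Metric.cthickening (4 / ((n : ℝ) + 1)) Z)ᶜ := fun h => hx ⟨h, hx2⟩
            have h3 : gr (χ n) x = 0 :=
              tb_gr_zero Metric.isClosed_cthickening.isOpen_compl (fun y hy => h0 n y hy) hx3
            have h4 := norm_cr_le (-gr (χ n) x) (φ x)
            rw [h3, neg_zero, norm_zero, zero_mul] at h4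
            rw [h3, neg_zero]
            exact norm_le_zero_iff.1 h4
          · rw [Metric.mem_closedBall, dist_zero_right, not_le] at hx2
            exact hcz n x hx2
        rw [h2, inner_zero_right, norm_zero]
    have h2 : |∫ x, ⟪A x, cr (-gr (χ n) x) (φ x)⟫|
        ≤ ∫ x, S.indicator (fun x => c * M * (κ / 2 * ((n : ℝ) + 1) ^ 2 + 1 / (2 * κ) * ‖A x‖ ^ 2)) x := by
      rw [← Real.norm_eq_abs]
      refine (norm_integral_le_integral_norm _).trans ?_
      exact integral_mono (hi1 n).norm (hSi.integrable_indicator hSm) hb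
    refine h2.trans ?_
    have hq1 : Integrable (fun _ : E => κ / 2 * ((n : ℝ) + 1) ^ 2) (volume.restrict S) :=
      integrableOn_const hSf
    have hq2 : Integrable (fun x => 1 / (2 * κ) * ‖A x‖ ^ 2) (volume.restrict S) :=
      hS2.const_mul _
    have hc1 : ∫ x in S, κ / 2 * ((n : ℝ) + 1) ^ 2
        = volume.real S * (κ / 2 * ((n : ℝ) + 1) ^ 2) := by
      rw [setIntegral_const, smul_eq_mul]
    have hc2 : ∫ x in S, 1 / (2 * κ) * ‖A x‖ ^ 2 = 1 / (2 * κ) * ∫ x in S, ‖A x‖ ^ 2 :=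
      integral_const_mul _ _
    rw [integral_indicator hSm, integral_const_mul, integral_add hq1 hq2, hc1, hc2]
    have h3 := hvol n hn
    have h4 : volume.real S * (κ / 2 * ((n : ℝ) + 1) ^ 2) ≤ 8 * max C' 0 * κ := by
      have h5 := mul_le_mul_of_nonneg_right h3
        (by positivity : (0 : ℝ) ≤ κ / 2 * ((n : ℝ) + 1) ^ 2)
      refine h5.trans (le_of_eq ?_)
      field_simp
      ring
    have h5 := mul_le_mul_of_nonneg_left h4 (mul_nonneg hc hM0)
    rw [mul_add]
    refine add_le_add (h5.trans (le_of_eq ?_)) (le_of_eq ?_) <;> ring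
  have hlim : Tendsto (fun n => ∫ x, ⟪A x, cr (-gr (χ n) x) (φ x)⟫) atTop (𝓝 0) :=
    tb_small (D := c * M * (8 * max C' 0))
      (mul_nonneg (mul_nonneg hc hM0) (mul_nonneg (by norm_num) (le_max_right _ _))) he herr
  have h2 := hlim.add hL
  rw [zero_add] at h2
  exact tendsto_nhds_unique (h2.congr hmain) hRR

end Pool.CQ
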