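import Pool.Agent.Lib.MP_cd5b91_an.CQ.RotL

/-!
# CQ-WGradA
-/

open MeasureTheory Filter Topology Set
open scoped ContDiff RealInnerProductSpace ENNReal

namespace Pool.CQ

private theorem int_mul {ψ : E → ℝ} (hψ : LpL 1 Oax ψ) {g : E → ℝ} (hg : Continuous g) (hc : HasCompactSupport g)
    (hs : tsupport g ⊆ Oax) : Integrable (fun x => ψ x * g x) := by
  have h1 : IntegrableOn ψ (tsupport g) := memLp_one_iff_integrable.1 (hψ _ hc hs)
  have h2 : IntegrableOn (fun x => ψ x * g x) (tsupport g) := h1.mul_continuousOn hg.continuousOn hc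
  refine (integrableOn_iff_integrable_of_support_subset ?_).1 h2
  intro x hx
  refine subset_tsupport g ?_
  intro h3
  exact hx (by
    change ψ x * g x = 0
    rw [h3, mul_zero])

private theorem pd_coord (i l : Fin 3) (x : E) : pd i (fun y : E => y l) x = if l = i then 1 else 0 := by
  have h1 : HasFDerivAt (fun y : E => y l) (EuclideanSpace.proj l : E →L[ℝ] ℝ) x :=
    (EuclideanSpace.proj l : E →L[ℝ] ℝ).hasFDerivAt
  unfold pd
  rw [h1.fderiv]
  simp

private theorem diff_coord (l : Fin 3) (x : E) : DifferentiableAt ℝ (fun y : E => y l) x :=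
  (EuclideanSpace.proj l : E →L[ℝ] ℝ).differentiableAt

private theorem pd_const_mul (i : Fin 3) (c : ℝ) {f : E → ℝ} {x : E} (hf : DifferentiableAt ℝ f x) :
    pd i (fun y => c * f y) x = c * pd i f x := by
  unfold pd
  rw [fderiv_const_mul hf]
  rfl

private theorem pd_zero (i : Fin 3) (x : E) : pd i (fun _ => (0 : ℝ)) x = 0 := by
  unfold pd
  rw [fderiv_const_apply]
  rfl

/-- `e_l × T` -/
private noncomputable def eT (l : Fin 3) (x : E) : E := cr (EuclideanSpace.single l (1 : ℝ)) (T x)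

private theorem eT_contDiff (l : Fin 3) : ContDiff ℝ ∞ (eT l) := by
  have hc : ∀ l : Fin 3, ContDiff ℝ ∞ (fun y : E => y l) := fun l => (EuclideanSpace.proj l : E →L[ℝ] ℝ).contDiff
  rw [contDiff_euclidean]
  intro i
  fin_cases l <;> fin_cases i <;> simp [eT, cr, T] <;> first | exact contDiff_const | exact (hc _).neg | exact hc _

private theorem curl_eT (l : Fin 3) (x : E) : curl (eT l) x = cr (EuclideanSpace.single l (1 : ℝ)) (EuclideanSpace.single 2 (1 : ℝ)) := by
  have hn : ∀ (i l : Fin 3) (x : E), pd i (fun y : E => -y l) x = if l = i then -1 else 0 := by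
    intro i l x
    have h1 := pd_const_mul (x := x) i (-1) (diff_coord l x)
    rw [pd_coord] at h1
    simpa using h1
  ext i
  fin_cases l <;> fin_cases i <;> simp [curl, eT, cr, T, pd_coord, hn, pd_zero]

private theorem rr_eq (x : E) : rr x = x 0 ^ 2 + x 1 ^ 2 := rfl

private theorem gr_rr_inv {x : E} (hx : x ∈ Oax) : ⟪T x, gr (fun y => (rr y)⁻¹) x⟫ = 0 ∧
    DifferentiableAt ℝ (fun y : E => (rr y)⁻¹) x := by
  have h0 : HasFDerivAt (fun y : E => y 0) (EuclideanSpace.proj 0 : E →L[ℝ] ℝ) x :=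
    (EuclideanSpace.proj 0 : E →L[ℝ] ℝ).hasFDerivAt
  have h1 : HasFDerivAt (fun y : E => y 1) (EuclideanSpace.proj 1 : E →L[ℝ] ℝ) x :=
    (EuclideanSpace.proj 1 : E →L[ℝ] ℝ).hasFDerivAt
  have h2 := (h0.pow 2).add (h1.pow 2)
  have hx0 : rr x ≠ 0 := ne_of_gt hx
  have h3 : HasFDerivAt (fun y : E => (rr y)⁻¹) (-(rr x ^ 2)⁻¹ • ((2 • x 0 ^ (2 - 1)) • (EuclideanSpace.proj 0 : E →L[ℝ] ℝ) +
      (2 • x 1 ^ (2 - 1)) • (EuclideanSpace.proj 1 : E →L[ℝ] ℝ))) x := (hasDerivAt_inv hx0).comp_hasFDerivAt x h2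
  refine ⟨?_, h3.differentiableAt⟩
  have h4 : ∀ i : Fin 3, pd i (fun y : E => (rr y)⁻¹) x = -(rr x ^ 2)⁻¹ * ((2 * x 0) * (if (0 : Fin 3) = i then 1 else 0) +
      (2 * x 1) * (if (1 : Fin 3) = i then 1 else 0)) := by
    intro i
    unfold pd
    rw [h3.fderiv]
    fin_cases i <;> simp
  simp only [gr, T, PiLp.inner_apply, Fin.sum_univ_three, h4]
  simp
  ring

private theorem gr_th {x : E} (hx : x ∈ Oax) (l : Fin 3) :
    ⟪T x, gr (fun y => th y l) x⟫ = (cr (EuclideanSpace.single 2 (1 : ℝ)) (th x)) l ∧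
      DifferentiableAt ℝ (fun y : E => th y l) x := by
  obtain ⟨h1, h2⟩ := gr_rr_inv hx
  have hT : DifferentiableAt ℝ (fun y : E => T y l) x := by
    fin_cases l
    · exact (diff_coord 1 x).neg
    · exact diff_coord 0 x
    · exact differentiableAt_const _
  have h3 : (fun y : E => th y l) = fun y => (rr y)⁻¹ * T y l := rfl
  have hn : ∀ (i l : Fin 3) (x : E), pd i (fun y : E => -y l) x = if l = i then -1 else 0 := by
    intro i l x
    have h1 := pd_const_mul (x := x) i (-1) (diff_coord l x)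
    rw [pd_coord] at h1
    simpa using h1
  rw [h3]
  refine ⟨?_, h2.mul hT⟩
  rw [gr_mul h2 hT, inner_add_right, inner_smul_right, inner_smul_right, h1, mul_zero, zero_add]
  fin_cases l <;> simp [gr, T, cr, th, PiLp.inner_apply, Fin.sum_univ_three, pd_coord, hn, pd_zero]

private theorem pointwise {η : E → ℝ} (hη : STest Oax η) (l : Fin 3) (x : E) :
    ⟪th x, curl (fun y => η y • eT l y) x⟫ = ⟪T x, gr (fun y => η y * th y l) x⟫ - pd l η x := by
  have hηd : DifferentiableAt ℝ η x := hη.1.differentiable (by simp) x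
  have hed : DifferentiableAt ℝ (eT l) x := (eT_contDiff l).differentiable (by simp) x
  rw [curl_smul hηd hed, curl_eT]
  by_cases hx : x ∈ Oax
  · obtain ⟨h1, h2⟩ := gr_th hx l
    have h3 := inner_T_th hx
    rw [gr_mul hηd h2, inner_add_right, inner_add_right, inner_smul_right, inner_smul_right, inner_smul_right, h1]
    have h4 : ⟪th x, cr (gr η x) (eT l x)⟫ = th x l * ⟪T x, gr η x⟫ - ⟪T x, th x⟫ * pd l η x := by
      fin_cases l <;> simp [gr, T, cr, eT, PiLp.inner_apply, Fin.sum_univ_three] <;> ring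
    have h5 : ⟪th x, cr (EuclideanSpace.single l (1 : ℝ)) (EuclideanSpace.single 2 (1 : ℝ))⟫ =
        (cr (EuclideanSpace.single 2 (1 : ℝ)) (th x)) l := by
      fin_cases l <;> simp [cr, PiLp.inner_apply, Fin.sum_univ_three]
    rw [h4, h5, h3]
    ring
  · have hT : T x = 0 := by
      have h1 := norm_T_sq x
      have h2 : rr x ≤ 0 := not_lt.1 hx
      have h3 : ‖T x‖ = 0 := by
        have h4 : ‖T x‖ ^ 2 ≤ 0 := by
          rw [h1]
          exact h2
        exact pow_eq_zero_iff (two_ne_zero) |>.1 (le_antisymm h4 (sq_nonneg _))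
      exact norm_eq_zero.1 h3
    have hth : th x = 0 := by
      unfold th
      rw [hT, smul_zero]
    have hpd : pd l η x = 0 := by
      have h1 : x ∉ tsupport η := fun h2 => hx (hη.2.2 h2)
      have h2 : fderiv ℝ η x = 0 := by
        have h3 : η =ᶠ[𝓝 x] fun _ => 0 := notMem_tsupport_iff_eventuallyEq.1 h1
        rw [h3.fderiv_eq, fderiv_const_apply]
      unfold pd
      rw [h2]
      rfl
    rw [hT, hth, hpd, inner_zero_left, inner_zero_left, sub_zero]

private theorem pd_off {f : E → ℝ} {x : E} (hx : x ∉ tsupport f) (i : Fin 3) : pd i f x = 0 := by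
  have h3 : f =ᶠ[𝓝 x] fun _ => 0 := notMem_tsupport_iff_eventuallyEq.1 hx
  unfold pd
  rw [h3.fderiv_eq, fderiv_const_apply]
  rfl

private theorem pd_cont {f : E → ℝ} (hf : ContDiff ℝ ∞ f) (i : Fin 3) : Continuous fun x => pd i f x := by
  have h3 : Continuous (fderiv ℝ f) := hf.continuous_fderiv (by simp)
  exact h3.clm_apply continuous_const

private theorem inner_T_gr (f : E → ℝ) (x : E) : ⟪T x, gr f x⟫ = -x 1 * pd 0 f x + x 0 * pd 1 f x := by
  simp [gr, T, PiLp.inner_apply, Fin.sum_univ_three]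
  ring

theorem wgrad_of_wc {ψ : E → ℝ} {C : E → E} (hψ : LpL 1 Oax ψ) (hC : LpL 1 Oax C) (hr : RotInv ψ)
    (h : WC Oax (fun x => ψ x • th x) C) : WGrad Oax ψ (fun x => cr (T x) (C x)) := by
  intro η hη l
  have hφ : TestIn Oax (fun x => η x • eT l x) :=
    ⟨hη.1.smul (eT_contDiff l), hη.2.1.smul_right, (tsupport_smul_subset_left _ _).trans hη.2.2⟩
  have h1 := h _ hφ
  have hf : STest Oax (fun x => η x * th x l) := by
    obtain ⟨h2, h3, h4⟩ := test_smul_th hη
    have h5 : (fun x => η x * th x l) = fun x => (η x • th x) l := rfl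
    refine ⟨?_, ?_, ?_⟩
    · rw [h5]
      exact (EuclideanSpace.proj l : E →L[ℝ] ℝ).contDiff.comp h2
    · exact HasCompactSupport.mul_right hη.2.1
    · exact (tsupport_mul_subset_left).trans hη.2.2
  have h2 := rot_int hψ hr hf
  have hcx : ∀ i : Fin 3, Continuous fun x : E => x i := fun i => (EuclideanSpace.proj i : E →L[ℝ] ℝ).continuous
  have hc1 : Continuous fun x => ⟪T x, gr (fun y => η y * th y l) x⟫ := by
    simp only [inner_T_gr]
    exact ((hcx 1).neg.mul (pd_cont hf.1 0)).add ((hcx 0).mul (pd_cont hf.1 1))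
  have hI1 : Integrable (fun x => ψ x * ⟪T x, gr (fun y => η y * th y l) x⟫) := by
    have h3 : Function.support (fun x => ⟪T x, gr (fun y => η y * th y l) x⟫) ⊆ tsupport (fun x => η x * th x l) := by
      intro x hx
      by_contra h4
      apply hx
      change ⟪T x, gr (fun y => η y * th y l) x⟫ = 0
      rw [inner_T_gr, pd_off h4, pd_off h4, mul_zero, mul_zero, add_zero]
    exact int_mul hψ hc1 (hf.2.1.mono' h3) ((closure_minimal h3 (isClosed_tsupport _)).trans hf.2.2)
  have hI2 : Integrable (fun x => ψ x * pd l η x) := by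
    have h3 : Function.support (fun x => pd l η x) ⊆ tsupport η := by
      intro x hx
      by_contra h4
      exact hx (pd_off h4 l)
    exact int_mul hψ (pd_cont hη.1 l) (hη.2.1.mono' h3) ((closure_minimal h3 (isClosed_tsupport _)).trans hη.2.2)
  have h3 : ∫ x, ⟪ψ x • th x, curl (fun y => η y • eT l y) x⟫ = -∫ x, ψ x * pd l η x := by
    have h4 : (fun x => ⟪ψ x • th x, curl (fun y => η y • eT l y) x⟫) =
        fun x => ψ x * ⟪T x, gr (fun y => η y * th y l) x⟫ - ψ x * pd l η x := by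
      funext x
      rw [real_inner_smul_left, pointwise hη, mul_sub]
    rw [h4, integral_sub hI1 hI2, h2, zero_sub]
  have h5 : ∀ x, ⟪C x, η x • eT l x⟫ = (cr (T x) (C x)) l * η x := by
    intro x
    rw [real_inner_smul_right]
    fin_cases l <;> simp [cr, eT, T, PiLp.inner_apply, Fin.sum_univ_three] <;> ring
  rw [h3] at h1
  simp only [h5] at h1
  rw [← h1, neg_neg]

end Pool.CQ
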